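import Pool.Agent.P.MP_26a8c3_nt.EC.Base

/-! The stopping nodes that violate one of the four regularity conditions have small mass. -/

namespace Pool.Agent.P.MP_26a8c3_nt.EC

open Finset
open scoped Classical

namespace Bad1

lemma ms_sup (P d : Finset ℕ) :
    ms (P.powerset.filter fun s => d ⊆ s) ≤ (pv d : ℝ)⁻¹ * ms P.powerset := by
  have h1 : ms (P.powerset.filter fun s => d ⊆ s) =
      (pv d : ℝ)⁻¹ * ∑ s ∈ P.powerset.filter (fun s => d ⊆ s), (pv (s \ d) : ℝ)⁻¹ := by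
    rw [ms, mul_sum]
    refine sum_congr rfl fun s hs => ?_
    have h := (mem_filter.1 hs).2
    have e : pv s = pv d * pv (s \ d) := by
      rw [← pv_union disjoint_sdiff, union_sdiff_of_subset h]
    rw [e, Nat.cast_mul, mul_inv]
  rw [h1]
  refine mul_le_mul_of_nonneg_left ?_ (by positivity)
  rw [← sum_image (f := fun t => (pv t : ℝ)⁻¹) (g := fun s => s \ d)]
  · refine ms_mono fun t ht => ?_
    obtain ⟨s, hs, rfl⟩ := mem_image.1 ht
    exact mem_powerset.2 (sdiff_subset.trans (mem_powerset.1 (mem_filter.1 hs).1))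
  · intro s hs s' hs' h
    have a := (mem_filter.1 (mem_coe.1 hs)).2
    have b := (mem_filter.1 (mem_coe.1 hs')).2
    have h' : s \ d = s' \ d := h
    rw [← union_sdiff_of_subset a, h', union_sdiff_of_subset b]

lemma ms_union {ι : Type} (P : Finset ℕ) (S : Finset (Finset ℕ)) (I : Finset ι) (D : ι → Finset ℕ)
    (h : ∀ s ∈ S, s ⊆ P ∧ ∃ i ∈ I, D i ⊆ s) :
    ms S ≤ (∑ i ∈ I, (pv (D i) : ℝ)⁻¹) * ms P.powerset := by
  calc ms S ≤ ∑ s ∈ S, ∑ i ∈ I, if D i ⊆ s then (pv s : ℝ)⁻¹ else 0 := by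
        refine sum_le_sum fun s hs => ?_
        obtain ⟨i, hi, hD⟩ := (h s hs).2
        refine le_trans ?_ (single_le_sum (f := fun i => if D i ⊆ s then (pv s : ℝ)⁻¹ else 0)
          (fun i _ => by split_ifs <;> positivity) hi)
        simp only [if_pos hD, le_refl]
    _ ≤ ∑ s ∈ P.powerset, ∑ i ∈ I, if D i ⊆ s then (pv s : ℝ)⁻¹ else 0 :=
        sum_le_sum_of_subset_of_nonneg (fun s hs => mem_powerset.2 (h s hs).1)
          fun s _ _ => sum_nonneg fun i _ => by split_ifs <;> positivity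
    _ = ∑ i ∈ I, ms (P.powerset.filter fun s => D i ⊆ s) := by
        rw [sum_comm]
        exact sum_congr rfl fun i _ => by rw [ms, sum_filter]
    _ ≤ _ := by
        rw [sum_mul]
        exact sum_le_sum fun i _ => ms_sup P (D i)

lemma ms_card (P : Finset ℕ) (S : Finset (Finset ℕ)) (x : ℝ)
    (h : ∀ s ∈ S, s ⊆ P ∧ x ≤ s.card) : ms S ≤ Real.exp (3 * rc P - x) := by
  calc ms S ≤ ∑ s ∈ S, Real.exp (-x) * ((∏ _p ∈ s, Real.exp 1) * (pv s : ℝ)⁻¹) := by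
        refine sum_le_sum fun s hs => ?_
        rw [prod_const, ← Real.exp_nat_mul, ← mul_assoc, ← Real.exp_add]
        refine le_mul_of_one_le_left (by positivity) (Real.one_le_exp ?_)
        linarith [(h s hs).2]
    _ ≤ ∑ s ∈ P.powerset, Real.exp (-x) * ((∏ _p ∈ s, Real.exp 1) * (pv s : ℝ)⁻¹) :=
        sum_le_sum_of_subset_of_nonneg (fun s hs => mem_powerset.2 (h s hs).1)
          fun s _ _ => by positivity
    _ = Real.exp (-x) * ∏ p ∈ P, (1 + Real.exp 1 * (p : ℝ)⁻¹) := by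
        rw [← mul_sum, sum_powerset_pv P fun _ => Real.exp 1]
    _ ≤ Real.exp (-x) * Real.exp (3 * rc P) := by
        refine mul_le_mul_of_nonneg_left ?_ (by positivity)
        refine (prod_one_add_le P fun p _ => by positivity).trans (Real.exp_le_exp.2 ?_)
        rw [rc, mul_sum]
        exact sum_le_sum fun p _ => mul_le_mul_of_nonneg_right
          (by linarith [Real.exp_one_lt_d9]) (by positivity)
    _ = _ := by rw [← Real.exp_add]; ring_nf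

lemma sum_bound {C : ℝ} (hC : 0 ≤ C) (n : ℕ) :
    ∑ t ∈ Icc 1 (n + 1), (1 + C / (t : ℝ)) / t ≤
      1 + Real.log (n + 1 : ℕ) + C * (2 - 1 / ((n + 1 : ℕ) : ℝ)) := by
  induction n with
  | zero => simp; linarith
  | succ n ih =>
    rw [sum_Icc_succ_top (by omega)]
    set x : ℝ := ((n + 1 : ℕ) : ℝ) with hx
    have hx1 : 1 ≤ x := by rw [hx]; exact_mod_cast Nat.succ_pos n
    have e : ((n + 1 + 1 : ℕ) : ℝ) = x + 1 := by rw [hx]; push_cast; ring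
    rw [e]
    have h1 : 1 / (x + 1) ≤ Real.log (x + 1) - Real.log x := by
      have := Real.log_le_sub_one_of_pos (show 0 < x / (x + 1) by positivity)
      rw [Real.log_div (by positivity) (by positivity)] at this
      have e2 : x / (x + 1) - 1 = -(1 / (x + 1)) := by field_simp; ring
      linarith
    have h2 : 1 / (x + 1) / (x + 1) ≤ 1 / x - 1 / (x + 1) := by
      have e3 : 1 / x - 1 / (x + 1) = 1 / (x + 1) / x := by field_simp; ring
      rw [e3]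
      exact div_le_div_of_nonneg_left (by positivity) (by positivity) (by linarith)
    have e4 : (1 + C / (x + 1)) / (x + 1) = 1 / (x + 1) + C * (1 / (x + 1) / (x + 1)) := by
      field_simp
    have h3 := mul_le_mul_of_nonneg_left h2 hC
    rw [e4]
    nlinarith

lemma rc_bound (hPi : S_Pi) : ∃ C : ℝ, 1 ≤ C ∧ ∀ (Λ : ℝ) (Z : ℕ), 1 ≤ Λ → (Z : ℝ) ≤ Λ →
    rc (PR 1 Z) ≤ Real.log Λ + C := by
  obtain ⟨C, hC, h1, -⟩ := pi_facts hPi
  refine ⟨1 + 2 * C, by linarith, fun Λ Z hΛ hZ => ?_⟩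
  have h0 := Real.log_nonneg hΛ
  rw [rc_PR]
  rcases Z with _ | n
  · simp
    linarith
  · refine (sum_le_sum fun t ht => h1 t (mem_Icc.1 ht).1).trans
      ((sum_bound (by linarith) n).trans ?_)
    have h2 : Real.log (n + 1 : ℕ) ≤ Real.log Λ := Real.log_le_log (by positivity) hZ
    have h3 : 0 ≤ C * (1 / ((n + 1 : ℕ) : ℝ)) := by positivity
    linarith

lemma rc_fw {F : ℕ} (hF : 1 ≤ F) (j : ℕ) :
    rc (fw F j) ≤ 2 / F + Real.exp (-(((j : ℝ) - 1) / F)) := by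
  have hF' : (1 : ℝ) ≤ F := by exact_mod_cast hF
  set a : ℝ := Real.exp (((j : ℝ) - 1) / F) with ha
  set b : ℝ := Real.exp ((j : ℝ) / F) with hb
  have ha0 : 0 < a := Real.exp_pos _
  have hab : b = a * Real.exp (1 / F) := by
    rw [ha, hb, ← Real.exp_add]
    congr 1
    ring
  have he : Real.exp (1 / F) ≤ 1 + 2 / F := by
    have h0 : (0 : ℝ) ≤ 1 / F := by positivity
    have h1 : |(1 / F : ℝ)| ≤ 1 := by
      rw [abs_of_nonneg h0]
      exact div_le_one_of_le₀ hF' (by positivity)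
    have h2 := Real.abs_exp_sub_one_le h1
    rw [abs_of_nonneg h0] at h2
    have h3 := (abs_le.1 h2).2
    have e : (2 : ℝ) / F = 2 * (1 / F) := by ring
    linarith
  have hle : a ≤ b := by
    rw [hab]
    exact le_mul_of_one_le_right ha0.le (Real.one_le_exp (by positivity))
  have hs : fw F j ⊆ Ioc ⌊a⌋₊ ⌊b⌋₊ := fun p hp => by
    obtain ⟨h1, h2⟩ := (mem_fw hF).1 hp
    have h3 := fi_bounds hF h1.pos
    rw [h2] at h3
    exact mem_Ioc.2 ⟨(Nat.floor_lt ha0.le).2 h3.1, Nat.le_floor h3.2⟩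
  have hc : ((fw F j).card : ℝ) ≤ b - a + 1 := by
    have h1 := card_le_card hs
    rw [Nat.card_Ioc] at h1
    have h2 : ((fw F j).card : ℝ) ≤ (⌊b⌋₊ : ℝ) - ⌊a⌋₊ := by
      rw [← Nat.cast_sub (Nat.floor_mono hle)]
      exact_mod_cast h1
    linarith [Nat.floor_le (ha0.le.trans hle), Nat.lt_floor_add_one a]
  have h4 : rc (fw F j) ≤ (fw F j).card * a⁻¹ := by
    rw [← nsmul_eq_mul]
    refine sum_le_card_nsmul _ _ _ fun p hp => ?_
    obtain ⟨h1, h2⟩ := (mem_fw hF).1 hp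
    have h3 := (fi_bounds hF h1.pos).1
    rw [h2] at h3
    exact inv_anti₀ ha0 h3.le
  rw [Real.exp_neg, ← ha]
  refine h4.trans ((mul_le_mul_of_nonneg_right hc (by positivity)).trans ?_)
  have e : (b - a + 1) * a⁻¹ = Real.exp (1 / F) - 1 + a⁻¹ := by
    rw [hab]
    field_simp
  rw [e]
  linarith

lemma rc_fw' {Λ : ℝ} (hΛ : 1 ≤ Real.log Λ) (h1 : 1 ≤ Λ) {p : ℕ} (hp : p.Prime)
    (ht : 28 * Real.log Λ ≤ tau p) : rc (fw (FF Λ) (fi (FF Λ) p)) ≤ 3 * (Λ ^ 4)⁻¹ := by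
  have hF := one_le_FF h1
  have hF' : (1 : ℝ) ≤ FF Λ := by exact_mod_cast hF
  have h0 : 0 < Λ := by linarith
  have h2 : Λ ^ 4 ≤ FF Λ := Nat.le_ceil _
  have h3 : 2 / (FF Λ : ℝ) ≤ 2 * (Λ ^ 4)⁻¹ := by
    rw [div_eq_mul_inv]
    exact mul_le_mul_of_nonneg_left (inv_anti₀ (by positivity) h2) (by norm_num)
  have h4 : (tau p : ℝ) - 1 < (fi (FF Λ) p : ℝ) / FF Λ :=
    Real.exp_lt_exp.1 ((exp_tau_lt hp.pos).trans_le (fi_bounds hF hp.pos).2)
  have h5 : (1 : ℝ) / FF Λ ≤ 1 := div_le_one_of_le₀ hF' (by positivity)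
  have h6 : Real.exp (-(((fi (FF Λ) p : ℝ) - 1) / FF Λ)) ≤ (Λ ^ 4)⁻¹ := by
    have e : (Λ ^ 4)⁻¹ = Real.exp (-(4 * Real.log Λ)) := by
      rw [Real.exp_neg, show (4 : ℝ) = ((4 : ℕ) : ℝ) by norm_num, Real.exp_nat_mul,
        Real.exp_log h0]
    rw [e, sub_div]
    exact Real.exp_le_exp.2 (by linarith)
  linarith [rc_fw hF (fi (FF Λ) p)]

lemma num (K : ℝ) : ∃ Λ0 : ℝ, ∀ Λ : ℝ, Λ0 ≤ Λ → 1 ≤ Λ ∧ 1 ≤ Real.log Λ ∧
    20 * Real.log Λ * Λ ^ (3 / 5 : ℝ) ≤ Λ ∧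
    K * Real.log Λ * (Λ ^ 3)⁻¹ ≤ Λ ^ (-(5 / 2) : ℝ) := by
  have a1 := (isLittleO_log_rpow_atTop (show (0 : ℝ) < 2 / 5 by norm_num)).bound
    (show (0 : ℝ) < 1 / 20 by norm_num)
  have a2 := (isLittleO_log_rpow_atTop (show (0 : ℝ) < 1 / 2 by norm_num)).bound
    (show (0 : ℝ) < 1 / (|K| + 1) by positivity)
  obtain ⟨Λ0, h⟩ := Filter.eventually_atTop.1
    (a1.and (a2.and (Filter.eventually_ge_atTop (3 : ℝ))))
  refine ⟨Λ0, fun Λ hΛ => ?_⟩
  obtain ⟨b1, b2, b3⟩ := h Λ hΛ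
  have h0 : 0 < Λ := by linarith
  have h1 : 1 ≤ Real.log Λ := by
    rw [Real.le_log_iff_exp_le h0]
    linarith [Real.exp_one_lt_d9]
  rw [Real.norm_of_nonneg (by linarith), Real.norm_of_nonneg (by positivity)] at b1 b2
  refine ⟨by linarith, h1, ?_, ?_⟩
  · have e : Λ ^ (2 / 5 : ℝ) * Λ ^ (3 / 5 : ℝ) = Λ := by
      rw [← Real.rpow_add h0]
      norm_num
    have := mul_le_mul_of_nonneg_right b1 (Real.rpow_nonneg h0.le (3 / 5))
    nlinarith
  · have e : Λ ^ (-(5 / 2) : ℝ) = Λ ^ (1 / 2 : ℝ) * (Λ ^ 3)⁻¹ := by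
      rw [← Real.rpow_natCast, ← Real.rpow_neg h0.le, ← Real.rpow_add h0]
      norm_num
    rw [e]
    refine mul_le_mul_of_nonneg_right ?_ (by positivity)
    rw [one_div, ← div_eq_inv_mul, le_div_iff₀ (by positivity)] at b2
    nlinarith [le_abs_self K]

lemma g2 {Λ : ℝ} {u Z Δ μ : ℕ} {s : Finset ℕ} (hs : s ∈ S0 u Z Δ μ) (h1 : 1 ≤ Real.log Λ)
    (h2 : 20 * Real.log Λ * Λ ^ (3 / 5 : ℝ) ≤ Λ) (hΔ : 9 / 10 * Λ ≤ Δ) (hμ : 430 * (μ : ℝ) ≤ Λ)
    (hc : (s.card : ℝ) ≤ 10 * Real.log Λ) : Λ ^ (3 / 5 : ℝ) ≤ (tau (top (rest s)) : ℝ) := by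
  obtain ⟨-, ht, -, h3, -, -, p, hp, -⟩ := mem_filter.1 hs
  have hm := top_mem ⟨p, hp⟩
  have h4 := tree_top ht hm
  have h5 : ts s = tau (top s) + ts (rest s) := by
    rw [rest, ← ts_insert (notMem_erase _ _), insert_erase hm]
  have h6 : ts (rest s) ≤ s.card * tau (top (rest s)) := by
    refine le_trans ?_ (Nat.mul_le_mul_right _ (card_le_card (erase_subset (top s) s)))
    rw [← smul_eq_mul]
    exact sum_le_card_nsmul _ _ _ fun q hq => tau_mono (le_top' hq)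
  have h7 : 2 * Δ ≤ 3 * (s.card * tau (top (rest s))) + 129 * μ := by omega
  have h8 : 2 * (Δ : ℝ) ≤ 3 * (s.card * tau (top (rest s))) + 129 * μ := by exact_mod_cast h7
  have h9 := mul_le_mul_of_nonneg_right hc (Nat.cast_nonneg (α := ℝ) (tau (top (rest s))))
  have h10 : 20 * Real.log Λ * Λ ^ (3 / 5 : ℝ) ≤ 20 * Real.log Λ * tau (top (rest s)) := by
    linarith
  exact le_of_mul_le_mul_left h10 (by linarith)

lemma pairs {Λ : ℝ} (hΛ : 1 ≤ Real.log Λ) (h1 : 1 ≤ Λ) (P : Finset ℕ)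
    (hP : ∀ p ∈ P, p.Prime ∧ 28 * Real.log Λ ≤ tau p) :
    ∑ i ∈ (P ×ˢ P).filter (fun i => i.1 ≠ i.2 ∧ fi (FF Λ) i.2 = fi (FF Λ) i.1),
      (pv {i.1, i.2} : ℝ)⁻¹ ≤ rc P * (3 * (Λ ^ 4)⁻¹) := by
  rw [sum_filter, sum_product, rc, sum_mul]
  refine sum_le_sum fun p hp => ?_
  refine le_trans ?_ (mul_le_mul_of_nonneg_left (rc_fw' hΛ h1 (hP p hp).1 (hP p hp).2)
    (by positivity))
  rw [← sum_filter, rc, mul_sum]
  refine le_trans (le_of_eq (sum_congr rfl fun q hq => ?_))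
    (sum_le_sum_of_subset_of_nonneg (fun q hq => ?_) fun _ _ _ => by positivity)
  · rw [pv, prod_pair (mem_filter.1 hq).2.1, Nat.cast_mul, mul_inv]
  · exact (mem_fw (one_le_FF h1)).2 ⟨(hP q (mem_filter.1 hq).1).1, (mem_filter.1 hq).2.2⟩

lemma thin {Λ : ℝ} (h1 : 1 ≤ Λ) {Z : ℕ} (hZ : (Z : ℝ) ≤ Λ) (P : Finset ℕ)
    (hP : ∀ p ∈ P, p.Prime ∧ tau p ≤ Z) :
    ∑ p ∈ P.filter (fun p => rc (fw (FF Λ) (fi (FF Λ) p)) < (Λ ^ 9)⁻¹),
      (pv {p} : ℝ)⁻¹ ≤ 3 * (Λ ^ 4)⁻¹ := by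
  have hF := one_le_FF h1
  have h0 : 0 < Λ := by linarith
  rw [← sum_fiberwise_of_maps_to (g := fi (FF Λ)) (t := range (FF Λ * Z + 1)) fun p hp =>
    mem_range.2 (Nat.lt_succ_of_le ((tau_le_iff_fi hF).1 (hP p (mem_filter.1 hp).1).2))]
  refine (sum_le_card_nsmul _ _ (Λ ^ 9)⁻¹ fun j _ => ?_).trans ?_
  · rcases ((P.filter fun p => rc (fw (FF Λ) (fi (FF Λ) p)) < (Λ ^ 9)⁻¹).filter
      fun p => fi (FF Λ) p = j).eq_empty_or_nonempty with he | ⟨p, hp⟩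
    · rw [he, sum_empty]
      positivity
    · have a := (mem_filter.1 (mem_filter.1 hp).1).2
      rw [(mem_filter.1 hp).2] at a
      refine le_trans ?_ a.le
      simp only [pv, prod_singleton]
      exact rc_mono fun q hq => (mem_fw hF).2
        ⟨(hP q (mem_filter.1 (mem_filter.1 hq).1).1).1, (mem_filter.1 hq).2⟩
  · rw [card_range, nsmul_eq_mul]
    push_cast
    have h2 : (FF Λ : ℝ) ≤ Λ ^ 4 + 1 := (Nat.ceil_lt_add_one (by positivity)).le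
    have h3 : 1 ≤ Λ ^ 4 := one_le_pow₀ h1
    have h4 : 1 ≤ Λ ^ 5 := one_le_pow₀ h1
    have h5 : (FF Λ : ℝ) * Z ≤ 2 * Λ ^ 4 * Λ :=
      mul_le_mul (by linarith) hZ (Nat.cast_nonneg _) (by positivity)
    have e : 3 * (Λ ^ 4)⁻¹ = 3 * Λ ^ 5 * (Λ ^ 9)⁻¹ := by field_simp
    rw [e]
    refine mul_le_mul_of_nonneg_right ?_ (by positivity)
    have e2 : 2 * Λ ^ 4 * Λ = 2 * Λ ^ 5 := by ring
    linarith

lemma ms_le_three {S S1 S2 S3 : Finset (Finset ℕ)} (h : ∀ s ∈ S, s ∈ S1 ∨ s ∈ S2 ∨ s ∈ S3) :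
    ms S ≤ ms S1 + ms S2 + ms S3 := by
  have u : ∀ A B : Finset (Finset ℕ), ms (A ∪ B) ≤ ms A + ms B := fun A B => by
    have := sum_union_inter (s₁ := A) (s₂ := B) (f := fun d => (pv d : ℝ)⁻¹)
    have h0 := ms_nonneg (A ∩ B)
    simp only [ms] at h0 ⊢
    linarith
  have h1 : S ⊆ S1 ∪ (S2 ∪ S3) := fun s hs => by
    simpa only [mem_union] using h s hs
  linarith [ms_mono h1, u S1 (S2 ∪ S3), u S2 S3]

end Bad1

open Bad1 in
theorem pBad1 (hPi : S_Pi) : S_Bad1 := by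
  obtain ⟨C, hC, hR⟩ := rc_bound hPi
  obtain ⟨Λ0, hn⟩ := num (Real.exp (3 * C) + 3 * Real.exp C * (2 + C))
  refine ⟨Λ0, fun Λ u Z Δ μ hΛ hZ hΔ hμ hl => ?_⟩
  obtain ⟨h1, h2, h3, h4⟩ := hn Λ hΛ
  have h0 : 0 < Λ := by linarith
  have hμ1 : 1 ≤ μ := by exact_mod_cast h2.trans hl
  set P := PR (28 * μ) Z with hPd
  have hP : ∀ p ∈ P, p.Prime ∧ 28 * Real.log Λ ≤ tau p := fun p hp => by
    obtain ⟨a, b, -⟩ := mem_PR.1 hp
    have b' : 28 * (μ : ℝ) ≤ tau p := by exact_mod_cast b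
    exact ⟨a, by linarith⟩
  have hP' : ∀ p ∈ P, p.Prime ∧ tau p ≤ Z := fun p hp => ⟨(mem_PR.1 hp).1, (mem_PR.1 hp).2.2⟩
  have hrc : rc P ≤ Real.log Λ + C := (rc_mono (PR_mono (by omega) le_rfl)).trans (hR Λ Z h1 hZ)
  have hms : ms P.powerset ≤ Λ * Real.exp C := by
    refine (ms_powerset_le P).trans ((Real.exp_le_exp.2 hrc).trans (le_of_eq ?_))
    rw [Real.exp_add, Real.exp_log h0]
  have hsub : ∀ s ∈ S0 u Z Δ μ, s ⊆ P := fun s hs p hp => by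
    obtain ⟨a, -, -, -, -, b, -⟩ := mem_filter.1 hs
    have c := mem_PR.1 (mem_powerset.1 a hp)
    exact mem_PR.2 ⟨c.1, b p hp, c.2.2⟩
  set I2 := (P ×ˢ P).filter (fun i => i.1 ≠ i.2 ∧ fi (FF Λ) i.2 = fi (FF Λ) i.1) with hI2
  set I3 := P.filter (fun p => rc (fw (FF Λ) (fi (FF Λ) p)) < (Λ ^ 9)⁻¹) with hI3
  have m1 := ms_card P (P.powerset.filter fun s => 10 * Real.log Λ ≤ s.card) (10 * Real.log Λ)
    fun s hs => ⟨mem_powerset.1 (mem_filter.1 hs).1, (mem_filter.1 hs).2⟩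
  have m2 := ms_union P (P.powerset.filter fun s => ∃ i ∈ I2, {i.1, i.2} ⊆ s) I2
    (fun i => {i.1, i.2}) fun s hs => ⟨mem_powerset.1 (mem_filter.1 hs).1, (mem_filter.1 hs).2⟩
  have m3 := ms_union P (P.powerset.filter fun s => ∃ i ∈ I3, {i} ⊆ s) I3
    (fun i => {i}) fun s hs => ⟨mem_powerset.1 (mem_filter.1 hs).1, (mem_filter.1 hs).2⟩
  have hL : (0 : ℝ) < (Λ ^ 3)⁻¹ := by positivity
  have n1 : Real.exp (3 * rc P - 10 * Real.log Λ) ≤ Real.exp (3 * C) * (Λ ^ 3)⁻¹ := by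
    have e : (Λ ^ 3)⁻¹ = Real.exp (-(3 * Real.log Λ)) := by
      rw [Real.exp_neg, show (3 : ℝ) = ((3 : ℕ) : ℝ) by norm_num, Real.exp_nat_mul,
        Real.exp_log h0]
    rw [e, ← Real.exp_add]
    exact Real.exp_le_exp.2 (by linarith)
  have e4 : 3 * (Λ ^ 4)⁻¹ * (Λ * Real.exp C) = 3 * Real.exp C * (Λ ^ 3)⁻¹ := by field_simp
  have n2 := mul_le_mul ((pairs h2 h1 P hP).trans (mul_le_mul_of_nonneg_right hrc
    (by positivity))) hms (ms_nonneg _) (by have := rc_nonneg P; positivity)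
  rw [mul_assoc, e4] at n2
  have n3 := mul_le_mul (thin h1 hZ P hP') hms (ms_nonneg _) (by positivity)
  rw [e4] at n3
  refine (ms_le_three (S1 := P.powerset.filter fun s => 10 * Real.log Λ ≤ s.card)
    (S2 := P.powerset.filter fun s => ∃ i ∈ I2, {i.1, i.2} ⊆ s)
    (S3 := P.powerset.filter fun s => ∃ i ∈ I3, {i} ⊆ s) fun s hs => ?_).trans ?_
  · obtain ⟨hs0, hg⟩ := mem_filter.1 hs
    have hsP := hsub s hs0
    have hsP' := mem_powerset.2 hsP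
    have hr : rest s ⊆ s := erase_subset _ _
    by_cases c1 : (s.card : ℝ) ≤ 10 * Real.log Λ
    · right
      by_cases c2 : Set.InjOn (fi (FF Λ)) (rest s : Set ℕ)
      · right
        by_contra c3
        refine hg ⟨c1, g2 hs0 h2 h3 hΔ hμ c1, c2, fun p hp => ?_⟩
        by_contra c4
        exact c3 (mem_filter.2 ⟨hsP', p, mem_filter.2 ⟨hsP (hr hp), not_le.1 c4⟩,
          singleton_subset_iff.2 (hr hp)⟩)
      · left
        by_contra c3
        refine c2 fun p hp q hq hpq => ?_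
        by_contra c4
        have hp' := hr (mem_coe.1 hp)
        have hq' := hr (mem_coe.1 hq)
        exact c3 (mem_filter.2 ⟨hsP', (p, q), mem_filter.2
          ⟨mem_product.2 ⟨hsP hp', hsP hq'⟩, c4, hpq.symm⟩,
          insert_subset hp' (singleton_subset_iff.2 hq')⟩)
    · exact Or.inl (mem_filter.2 ⟨hsP', (not_le.1 c1).le⟩)
  · refine le_trans ?_ h4
    have hE := Real.exp_pos C
    have hE3 := Real.exp_pos (3 * C)
    have k1 : Real.exp (3 * C) ≤ Real.exp (3 * C) * Real.log Λ := le_mul_of_one_le_right hE3.le h2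
    have k2 : (Real.log Λ + C) + 1 ≤ (2 + C) * Real.log Λ := by nlinarith
    have k3 := mul_le_mul_of_nonneg_right k1 hL.le
    have k4 := mul_le_mul_of_nonneg_right k2 (show 0 ≤ 3 * Real.exp C * (Λ ^ 3)⁻¹ by positivity)
    linarith

end Pool.Agent.P.MP_26a8c3_nt.EC
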