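import Pool.Agent.P.MP_26a8c3_nt.EC.Base

/-! The stopping nodes whose two greatest primes lie in one coarse window have small mass. -/

namespace Pool.Agent.P.MP_26a8c3_nt.EC

open Finset
open scoped Classical

namespace Bad3

lemma top_notMem (d : Finset ℕ) : top d ∉ rest d := notMem_erase _ _

lemma ins {d : Finset ℕ} (hd : d.Nonempty) : insert (top d) (rest d) = d :=
  insert_erase (top_mem hd)

lemma rest_sub (d : Finset ℕ) : rest d ⊆ d := erase_subset _ _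

lemma pv_rest {d : Finset ℕ} (hd : d.Nonempty) : pv d = top d * pv (rest d) := by
  rw [← pv_insert (top_notMem d), ins hd]

lemma ts_rest {d : Finset ℕ} (hd : d.Nonempty) : ts d = tau (top d) + ts (rest d) := by
  rw [← ts_insert (top_notMem d), ins hd]

lemma card_rest {d : Finset ℕ} (hd : d.Nonempty) : d.card = (rest d).card + 1 :=
  (card_erase_add_one (top_mem hd)).symm

lemma up_rest {d : Finset ℕ} {q : ℕ} (hq : q ∈ rest d) :
    (up d q).card = (up (rest d) q).card + 1 ∧ ts (up d q) = tau (top d) + ts (up (rest d) q) := by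
  have h1 : top d ∉ up (rest d) q := fun h => top_notMem d (up_subset _ _ h)
  have h2 : up d q = insert (top d) (up (rest d) q) := by
    conv_lhs => rw [← ins ⟨q, rest_sub d hq⟩]
    rw [up, filter_insert, if_pos (lt_top' hq).le, up]
  rw [h2, card_insert_of_notMem h1, ts_insert h1]
  exact ⟨rfl, rfl⟩

lemma fib (Δ v t l : ℕ) (B : Finset (Finset ℕ))
    (h : ∀ s ∈ B, (∀ p ∈ s, p.Prime ∧ v ≤ tau p) ∧ tree Δ s ∧ Even s.card ∧ (rest s).Nonempty ∧
      tau (top s) = t ∧ tau (top (rest s)) = t ∧ ts s + l = Δ) :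
    ms B ≤ rc (PR t t) * (rc (PR t t) * RR (Δ - 2 * t) 0 l v) := by
  rw [RR, ms, ms, rc, sum_mul_sum, ← sum_product', sum_mul_sum, ← sum_product']
  have hi : Set.InjOn (fun s => (top s, top (rest s), rest (rest s))) (B : Set (Finset ℕ)) := by
    intro s hs s' hs' e
    obtain ⟨-, -, -, a, -⟩ := h s hs
    obtain ⟨-, -, -, a', -⟩ := h s' hs'
    simp only [Prod.mk.injEq] at e
    rw [← ins (a.mono (rest_sub s)), ← ins (a'.mono (rest_sub s')), ← ins a, ← ins a']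
    simp only [ins a, ins a']
    rw [← ins a, ← ins a', e.1, e.2.1, e.2.2]
  refine le_trans (le_of_eq ?_) (sum_le_sum_of_subset_of_nonneg
    (s := B.image fun s => (top s, top (rest s), rest (rest s))) ?_ fun _ _ _ => by positivity)
  · rw [sum_image hi]
    refine sum_congr rfl fun s hs => ?_
    obtain ⟨-, -, -, a, -⟩ := h s hs
    rw [pv_rest (a.mono (rest_sub s)), pv_rest a]
    push_cast
    rw [mul_inv, mul_inv]
  · intro x hx
    obtain ⟨s, hs, rfl⟩ := mem_image.1 hx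
    obtain ⟨a1, a2, a3, a4, a5, a6, a7⟩ := h s hs
    have b := a4.mono (rest_sub s)
    have c1 := ts_rest b
    have c2 := ts_rest a4
    have c3 := card_rest b
    have c4 := card_rest a4
    have c5 : tree (Δ - 2 * t) (rest (rest s)) := fun q hq ho => by
      obtain ⟨d1, d2⟩ := up_rest hq
      obtain ⟨d3, d4⟩ := up_rest (rest_sub _ hq)
      have := a2 q (rest_sub _ (rest_sub _ hq)) (by
        rw [d3, d1]
        exact ho.add_even even_two)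
      omega
    refine mem_product.2 ⟨mem_PR.2 ⟨(a1 _ (top_mem b)).1, a5.ge, a5.le⟩, mem_product.2
      ⟨mem_PR.2 ⟨(a1 _ (rest_sub s (top_mem a4))).1, a6.ge, a6.le⟩, mem_filter.2
        ⟨mem_powerset.2 fun p hp => ?_, c5, ?_, by simp only; omega⟩⟩⟩
    · have d1 := a1 p (rest_sub _ (rest_sub _ hp))
      have d2 := tree_top c5 hp
      exact mem_PR.2 ⟨d1.1, d1.2, by omega⟩
    · have := Nat.even_iff.1 a3
      simp only
      omega

lemma num (K : ℝ) (u1 : ℕ) : ∃ Λ0 : ℝ, ∀ Λ : ℝ, Λ0 ≤ Λ →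
    0 < Λ ∧ K ≤ Λ ^ (3 / 5 : ℝ) ∧ (u1 : ℝ) + 1 ≤ Real.log Λ := by
  have h1 := (tendsto_rpow_atTop (show (0 : ℝ) < 3 / 5 by norm_num)).eventually_ge_atTop K
  have h2 := Real.tendsto_log_atTop.eventually_ge_atTop ((u1 : ℝ) + 1)
  exact Filter.eventually_atTop.1 ((Filter.eventually_gt_atTop 0).and (h1.and h2))

end Bad3

open Bad3 in
theorem pBad3 (hPi : S_Pi) (hU : S_U) : S_Bad3 := by
  intro η hη
  obtain ⟨C, hC, -, -, hP, -⟩ := pi_facts hPi
  obtain ⟨u1, D, hD, hU⟩ := hU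
  obtain ⟨Λ0, h0⟩ := num (20000 * C ^ 2 * D / η) u1
  refine ⟨Λ0, fun Λ u Z Δ μ hΛ h1 h2 h3 => ?_⟩
  obtain ⟨g0, g1, g2⟩ := h0 Λ hΛ
  have g3 : u1 + 1 ≤ μ := by exact_mod_cast g2.trans h3
  have g4 : (0 : ℝ) < Λ ^ (3 / 5 : ℝ) := Real.rpow_pos_of_pos g0 _
  have g5 : 387 * μ ≤ Δ := by
    have : (387 : ℝ) * μ ≤ Δ := by linarith
    exact_mod_cast this
  obtain ⟨T, hT⟩ : ∃ T, ⌈Λ ^ (3 / 5 : ℝ)⌉₊ = T + 1 :=
    Nat.exists_eq_succ_of_ne_zero (Nat.ceil_pos.2 g4).ne'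
  have g6 : Λ ^ (3 / 5 : ℝ) ≤ T + 1 := by
    have := Nat.le_ceil (Λ ^ (3 / 5 : ℝ))
    rw [hT] at this
    exact_mod_cast this
  set B := (S0 u Z Δ μ).filter fun s => ga Λ s ∧ ¬ gb s with hB
  have f : ∀ s ∈ B, (∀ p ∈ s, p.Prime ∧ 28 * μ ≤ tau p) ∧ tree Δ s ∧ Even s.card ∧
      (rest s).Nonempty ∧ tau (top (rest s)) = tau (top s) ∧ T < tau (top s) ∧
      3 * tau (top s) ≤ Δ ∧ Δ ≤ ts s + 43 * μ ∧ ts s + 37 * μ ≤ Δ := fun s hs => by
    obtain ⟨a, ⟨-, b, -⟩, c⟩ := mem_filter.1 hs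
    obtain ⟨a0, a1, a2, a3, a4, a5, -⟩ := mem_filter.1 a
    have b1 : T + 1 ≤ tau (top (rest s)) := hT ▸ Nat.ceil_le.2 b
    have b2 : (rest s).Nonempty := nonempty_iff_ne_empty.2 fun e => by
      simp [e, top, tau] at b1
    have b3 := tau_mono (lt_top' (top_mem b2)).le
    have b4 : ¬ tau (top (rest s)) < tau (top s) := c
    exact ⟨fun p hp => ⟨(mem_PR.1 (mem_powerset.1 a0 hp)).1, a5 p hp⟩, a1, a2, b2, by omega,
      by omega, tree_top a1 (top_mem (b2.mono (rest_sub s))), a3, a4⟩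
  have hμ : (1 : ℝ) ≤ μ := by exact_mod_cast (show 1 ≤ μ by omega)
  have key : ∀ x ∈ Ioo T (Δ / 3 + 1) ×ˢ Icc (37 * μ) (43 * μ),
      ms (B.filter fun s => (tau (top s), Δ - ts s) = x) ≤
        ((x.1 : ℝ) ^ 2)⁻¹ * (4 * C ^ 2 * (D * (28 * μ) / (3 / 10 * Λ) ^ 2)) := by
    rintro ⟨t, l⟩ hx
    obtain ⟨x1, x2⟩ := mem_product.1 hx
    simp only [mem_Ioo, mem_Icc] at x1 x2
    refine (fib Δ (28 * μ) t l _ fun s hs => ?_).trans ?_
    · obtain ⟨a, e⟩ := mem_filter.1 hs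
      obtain ⟨a1, a2, a3, a4, a5, -, -, a6, a7⟩ := f s a
      simp only [Prod.mk.injEq] at e
      exact ⟨a1, a2, a3, a4, e.1, a5.trans e.1, by omega⟩
    · have b1 := hP t (by omega)
      have b2 := hU (Δ - 2 * t) l (28 * μ) (by omega) (by omega) (by omega) (by omega)
      have b3 : 3 / 10 * Λ ≤ ((Δ - 2 * t : ℕ) : ℝ) := by
        have : (Δ : ℝ) ≤ 3 * ((Δ - 2 * t : ℕ) : ℝ) := by
          exact_mod_cast (show Δ ≤ 3 * (Δ - 2 * t) by omega)
        linarith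
      have b4 : RR (Δ - 2 * t) 0 l (28 * μ) ≤ D * (28 * μ) / (3 / 10 * Λ) ^ 2 := by
        refine b2.trans ?_
        push_cast
        gcongr
      have b5 := rc_nonneg (PR t t)
      have b6 := RR_nonneg (Δ - 2 * t) 0 l (28 * μ)
      calc _ ≤ 2 * C / t * (2 * C / t * (D * (28 * μ) / (3 / 10 * Λ) ^ 2)) := by gcongr
        _ = _ := by simp only; ring
  rw [ms, ← sum_fiberwise_of_maps_to (g := fun s => (tau (top s), Δ - ts s))
    (t := Ioo T (Δ / 3 + 1) ×ˢ Icc (37 * μ) (43 * μ)) fun s hs => by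
      obtain ⟨-, -, -, -, -, a5, a6, a7, a8⟩ := f s hs
      simp only [mem_product, mem_Ioo, mem_Icc]
      omega]
  refine (sum_le_sum key).trans ?_
  rw [sum_product]
  simp only [sum_const, Nat.card_Icc, nsmul_eq_mul]
  rw [← mul_sum, ← sum_mul]
  have k1 : ((43 * μ + 1 - 37 * μ : ℕ) : ℝ) ≤ 7 * μ := by
    exact_mod_cast (show 43 * μ + 1 - 37 * μ ≤ 7 * μ by omega)
  have k2 : ∑ t ∈ Ioo T (Δ / 3 + 1), ((t : ℝ) ^ 2)⁻¹ ≤ 2 / Λ ^ (3 / 5 : ℝ) :=
    (sum_Ioo_inv_sq_le T _).trans (by gcongr)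
  have k3 : C ^ 2 * D / Λ ^ (3 / 5 : ℝ) ≤ η / 20000 := by
    rw [div_le_iff₀ hη] at g1
    rw [div_le_div_iff₀ g4 (by norm_num)]
    linarith
  calc _ ≤ 7 * μ * (2 / Λ ^ (3 / 5 : ℝ) * (4 * C ^ 2 * (D * (28 * μ) / (3 / 10 * Λ) ^ 2))) := by
        gcongr
    _ = 156800 / 9 * (C ^ 2 * D / Λ ^ (3 / 5 : ℝ)) * ((μ : ℝ) ^ 2 / Λ ^ 2) := by
        field_simp
        ring
    _ ≤ 20000 * (η / 20000) * ((μ : ℝ) ^ 2 / Λ ^ 2) := by
        gcongr
        norm_num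
    _ = _ := by ring

end Pool.Agent.P.MP_26a8c3_nt.EC
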