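import Pool.Agent.P.MP_26a8c3_nt.EC.Base

/-! The boundary sum in terms of the masses of the even nodes. -/

namespace Pool.Agent.P.MP_26a8c3_nt.EC

open Finset
open scoped Classical

namespace Bd0

lemma rc_le (h : S_Pi) : ∃ C : ℝ, 0 ≤ C ∧ ∀ n : ℕ, rc (PR 1 n) ≤ C + Real.log n := by
  obtain ⟨C, hC, h1, -⟩ := pi_facts h
  refine ⟨1 + 2 * C, by linarith, fun n => ?_⟩
  have a1 := harmonic_le_one_add_log n
  rw [harmonic_eq_sum_Icc] at a1
  push_cast at a1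
  have a2 := sum_Ioo_inv_sq_le (α := ℝ) 0 (n + 1)
  rw [show Ioo 0 (n + 1) = Icc 1 n from by ext x; simp only [mem_Ioo, mem_Icc]; omega] at a2
  have a3 : rc (PR 1 n) ≤ ∑ t ∈ Icc 1 n, ((t : ℝ)⁻¹ + C * ((t : ℝ) ^ 2)⁻¹) := by
    rw [rc_PR]
    exact sum_le_sum fun t ht => (h1 t (mem_Icc.1 ht).1).trans_eq (by ring)
  rw [sum_add_distrib, ← mul_sum] at a3
  have a4 := mul_le_mul_of_nonneg_left a2 (by linarith : 0 ≤ C)
  norm_num at a4
  linarith

lemma rankin (h : S_Pi) : ∃ C : ℝ, 0 < C ∧ ∀ Δ m : ℕ, 1 ≤ Δ → 10 * Real.log Δ ≤ m →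
    ∑ d ∈ (PR 1 Δ).powerset, Real.exp (d.card - m) * (pv d : ℝ)⁻¹ ≤ C / (Δ : ℝ) ^ 2 := by
  obtain ⟨C, hC, h1⟩ := rc_le h
  refine ⟨Real.exp (3 * C), Real.exp_pos _, fun Δ m hΔ hm => ?_⟩
  have D1 : (1 : ℝ) ≤ Δ := by exact_mod_cast hΔ
  have l0 := Real.log_nonneg D1
  have e3 : Real.exp 1 ≤ 3 := Real.exp_one_lt_d9.le.trans (by norm_num)
  calc _ = Real.exp (-m) * ∑ d ∈ (PR 1 Δ).powerset, (∏ _p ∈ d, Real.exp 1) * (pv d : ℝ)⁻¹ := by
        rw [mul_sum]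
        refine sum_congr rfl fun d _ => ?_
        rw [prod_const, Real.exp_one_pow, ← mul_assoc, ← Real.exp_add, neg_add_eq_sub]
    _ ≤ Real.exp (-m) * Real.exp (∑ p ∈ PR 1 Δ, Real.exp 1 * (p : ℝ)⁻¹) := by
        rw [sum_powerset_pv]
        exact mul_le_mul_of_nonneg_left (prod_one_add_le _ fun p _ => by positivity)
          (Real.exp_pos _).le
    _ ≤ Real.exp (3 * C - 2 * Real.log Δ) := by
        rw [← Real.exp_add, ← mul_sum]
        have := mul_le_mul e3 (h1 Δ) (rc_nonneg _) (by norm_num)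
        unfold rc at this
        exact Real.exp_le_exp.2 (by linarith)
    _ = _ := by
        rw [Real.exp_sub, ← Nat.cast_ofNat (n := 2) (R := ℝ), Real.exp_nat_mul,
          Real.exp_log (by linarith)]

lemma facts {u Z Δ : ℕ} {d : Finset ℕ} (hZ : Z ≤ Δ) (hd : d ⊆ PR u Z) (hb : bdry Δ d) :
    mn d ∈ d ∧ Even (d.erase (mn d)).card ∧ ts d = tau (mn d) + ts (d.erase (mn d)) ∧ ts d ≤ Δ ∧
      Δ < ts (d.erase (mn d)) + 3 * tau (mn d) := by
  obtain ⟨h1, h2, h3⟩ := hb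
  have m1 := mn_mem (card_pos.1 h1.pos)
  have e1 : Even (d.erase (mn d)).card := by
    rw [card_erase_of_mem m1]
    exact Nat.Odd.sub_odd h1 odd_one
  have e2 : ts d = tau (mn d) + ts (d.erase (mn d)) := by
    rw [← ts_insert (notMem_erase _ _), insert_erase m1]
  refine ⟨m1, e1, e2, ?_, ?_⟩
  · rcases (d.erase (mn d)).eq_empty_or_nonempty with h | h
    · rw [e2, h]
      exact (mem_PR.1 (hd m1)).2.2.trans hZ
    · have a1 := tree_rem h2 h
      have a2 := tau_mono (mn_lt (mn_mem h)).le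
      omega
  · by_contra hc
    exact h3 (insert_erase m1 ▸ (tree_insert fun q hq => mn_lt hq).2 ⟨h2, fun _ => not_lt.1 hc⟩)

/-- The weight of a window. -/
noncomputable def wt (K : ℝ) (t : ℕ) : ℝ := if K ≤ (t : ℝ) then (K + 3) / (t : ℝ) ^ 2 else 1 / (t : ℝ)

lemma wt_nonneg {K : ℝ} (hK : 0 ≤ K) (t : ℕ) : 0 ≤ wt K t := by
  unfold wt
  split_ifs <;> positivity

lemma inj (u Z Δ : ℕ) {K : ℝ} (hZ : Z ≤ Δ) (hK : 0 ≤ K) :
    ∑ d ∈ ((PR u Z).powerset.filter (bdry Δ)).filter (fun d =>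
      3 * (tau (mn d) : ℝ) ≤ (Δ - ts (d.erase (mn d)) : ℕ) + K + 2),
        (pv d : ℝ)⁻¹ * wt K (tau (mn d)) ≤ ∑ t ∈ Icc u Z, rc (PR t t) *
      ∑ l ∈ (Icc t (3 * t)).filter (fun l : ℕ => 3 * (t : ℝ) ≤ l + K + 2), RR Δ 0 l t * wt K t := by
  simp only [rc, RR, ms, sum_mul, mul_sum]
  simp only [sum_sigma']
  let φ : Finset ℕ → Σ _ : ℕ, Σ _ : ℕ, Σ _ : Finset ℕ, ℕ := fun d =>
    ⟨tau (mn d), Δ - ts (d.erase (mn d)), d.erase (mn d), mn d⟩
  refine le_trans (le_of_eq ?_) (sum_le_sum_of_subset_of_nonneg (s := image φ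
    (((PR u Z).powerset.filter (bdry Δ)).filter (fun d =>
      3 * (tau (mn d) : ℝ) ≤ (Δ - ts (d.erase (mn d)) : ℕ) + K + 2))) ?_
    fun x _ _ => mul_nonneg (by positivity) (mul_nonneg (by positivity) (wt_nonneg hK _)))
  · rw [sum_image]
    · refine sum_congr rfl fun d hd => ?_
      have hd' := mem_filter.1 (mem_filter.1 hd).1
      have m1 := (facts hZ (mem_powerset.1 hd'.1) hd'.2).1
      conv_lhs => rw [← insert_erase m1, pv_insert (notMem_erase _ _), insert_erase m1]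
      rw [Nat.cast_mul, mul_inv, mul_assoc]
    · intro d hd d' hd' e
      have a := mem_filter.1 (mem_filter.1 hd).1
      have a' := mem_filter.1 (mem_filter.1 hd').1
      rw [← insert_erase (facts hZ (mem_powerset.1 a.1) a.2).1,
        ← insert_erase (facts hZ (mem_powerset.1 a'.1) a'.2).1]
      exact congrArg (fun x : Σ _ : ℕ, Σ _ : ℕ, Σ _ : Finset ℕ, ℕ => insert x.2.2.2 x.2.2.1) e
  · intro x hx
    obtain ⟨d, hd, rfl⟩ := mem_image.1 hx
    obtain ⟨hd, h3⟩ := mem_filter.1 hd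
    obtain ⟨h1, h2⟩ := mem_filter.1 hd
    rw [mem_powerset] at h1
    obtain ⟨m1, e1, e2, e3, e4⟩ := facts hZ h1 h2
    have p1 := mem_PR.1 (h1 m1)
    refine mem_sigma.2 ⟨mem_Icc.2 p1.2, mem_sigma.2 ⟨mem_filter.2 ⟨mem_Icc.2 ?_, h3⟩, mem_sigma.2
      ⟨mem_filter.2 ⟨mem_powerset.2 fun q hq => ?_, h2.2.1, Nat.even_iff.1 e1, ?_⟩,
        mem_PR.2 ⟨p1.1, le_rfl, le_rfl⟩⟩⟩⟩
    · simp only [φ]
      omega
    · have q1 := mem_PR.1 (h1 (mem_of_mem_erase hq))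
      exact mem_PR.2 ⟨q1.1, tau_mono (mn_lt hq).le, q1.2.2.trans hZ⟩
    · simp only [φ]
      omega

end Bd0

open Bd0 in
theorem pBd0 (hPi : S_Pi) (hMinus : S_Minus) : S_Bd0 := by
  obtain ⟨C1, c1, h1⟩ := rankin hPi
  obtain ⟨C2, c2, h2⟩ := hMinus
  refine ⟨2 * C1 + C2, by positivity, fun u Z Δ m X K hZ hΔ hK hX hm hl => ?_⟩
  have pr : ∀ d ∈ (PR u Z).powerset.filter (bdry Δ), ∀ p ∈ d, p.Prime := fun d hd p hp =>
    (mem_PR.1 (mem_powerset.1 (mem_filter.1 hd).1 hp)).1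
  have pt : ∀ d ∈ (PR u Z).powerset.filter (bdry Δ), SM (-1) (X / pv d) (mn d) ≤
      2 + 2 * X * (Real.exp (d.card - m) * (pv d : ℝ)⁻¹) + C2 * X *
        if 3 * (tau (mn d) : ℝ) ≤ (Δ - ts (d.erase (mn d)) : ℕ) + K + 2 then
          (pv d : ℝ)⁻¹ * wt K (tau (mn d)) else 0 := by
    intro d hd
    obtain ⟨m1, -, e2, e3, e4⟩ := facts hZ (mem_powerset.1 (mem_filter.1 hd).1) (mem_filter.1 hd).2
    have v0 : (0 : ℝ) < pv d := by exact_mod_cast pv_pos (pr d hd)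
    have Y0 := div_pos hX v0
    obtain ⟨-, s1, s2, s3, s4⟩ := h2 _ _ Y0.le (pr d hd _ m1)
    have w0 := wt_nonneg hK (tau (mn d))
    have n1 : 0 ≤ 2 * X * (Real.exp (d.card - m) * (pv d : ℝ)⁻¹) := by positivity
    have n2 : 0 ≤ C2 * X * if 3 * (tau (mn d) : ℝ) ≤ (Δ - ts (d.erase (mn d)) : ℕ) + K + 2 then
        (pv d : ℝ)⁻¹ * wt K (tau (mn d)) else 0 := by
      split_ifs <;> positivity
    rcases lt_or_ge m d.card with hc | hc
    · have : (1 : ℝ) ≤ Real.exp (d.card - m) :=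
        Real.one_le_exp (sub_nonneg.2 (by exact_mod_cast hc.le))
      have : 2 * X * (1 * (pv d : ℝ)⁻¹) ≤ 2 * X * (Real.exp (d.card - m) * (pv d : ℝ)⁻¹) := by
        gcongr
      rw [div_eq_mul_inv] at s1 ⊢
      linarith
    rcases lt_or_ge (X / pv d) ((mn d : ℝ) ^ 2) with hs | hs
    · linarith [s2 hs]
    have c' : (d.card : ℝ) ≤ m := by exact_mod_cast hc
    have l1 := le_log_pv (pr d hd)
    have l2 : Real.log (X / pv d) = Real.log X - Real.log (pv d) := Real.log_div hX.ne' v0.ne'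
    have l3 := Real.log_le_log (pow_pos (by exact_mod_cast (pr d hd _ m1).pos) 2) hs
    rw [Real.log_pow] at l3
    have l4 := tau_lt (mn d)
    have e2' : (ts d : ℝ) = tau (mn d) + ts (d.erase (mn d)) := by exact_mod_cast e2
    have e4' : (Δ : ℝ) < ts (d.erase (mn d)) + 3 * tau (mn d) := by exact_mod_cast e4
    push_cast at l3
    rw [if_pos (by rw [Nat.cast_sub (by omega)]; linarith), wt]
    split_ifs with hk
    · refine (s4 K hK hk (by linarith)).trans ?_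
      rw [show C2 * (X / pv d) * (K + 3) / (tau (mn d) : ℝ) ^ 2 =
        C2 * X * ((pv d : ℝ)⁻¹ * ((K + 3) / (tau (mn d) : ℝ) ^ 2)) by ring]
      linarith
    · refine s3.trans ?_
      rw [show C2 * (X / pv d) / (tau (mn d) : ℝ) =
        C2 * X * ((pv d : ℝ)⁻¹ * (1 / (tau (mn d) : ℝ))) by ring]
      linarith
  have b1 : (((PR u Z).powerset.filter (bdry Δ)).card : ℝ) ≤ Real.exp Δ := by
    refine le_trans ?_ (Nat.floor_le (Real.exp_pos _).le)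
    rw [Nat.cast_le]
    refine (card_le_card_of_injOn (t := Ioc 0 ⌊Real.exp Δ⌋₊) pv (fun d hd => mem_Ioc.2
      ⟨pv_pos (pr d hd), Nat.le_floor ((pv_le_exp (pr d hd)).trans (Real.exp_le_exp.2 ?_))⟩)
      fun d hd d' hd' e => pv_inj (pr d hd) (pr d' hd') e).trans_eq (by simp)
    exact_mod_cast (facts hZ (mem_powerset.1 (mem_filter.1 hd).1) (mem_filter.1 hd).2).2.2.2.1
  have b2 : ∑ d ∈ (PR u Z).powerset.filter (bdry Δ), Real.exp (d.card - m) * (pv d : ℝ)⁻¹ ≤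
      C1 / (Δ : ℝ) ^ 2 := (sum_le_sum_of_subset_of_nonneg (fun d hd => mem_powerset.2 fun p hp =>
    mem_PR.2 ⟨pr d hd p hp, one_le_tau (pr d hd p hp),
      (mem_PR.1 (mem_powerset.1 (mem_filter.1 hd).1 hp)).2.2.trans hZ⟩)
    fun _ _ _ => by positivity).trans (h1 Δ m hΔ hm)
  have b3 := inj u Z Δ hZ hK
  have b4 := sum_le_sum pt
  rw [sum_add_distrib, sum_add_distrib, ← mul_sum, ← mul_sum, ← sum_filter, sum_const,
    nsmul_eq_mul] at b4
  have b5 : 0 ≤ ∑ t ∈ Icc u Z, rc (PR t t) *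
      ∑ l ∈ (Icc t (3 * t)).filter (fun l : ℕ => 3 * (t : ℝ) ≤ l + K + 2), RR Δ 0 l t * wt K t :=
    sum_nonneg fun t _ => mul_nonneg (rc_nonneg _)
      (sum_nonneg fun l _ => mul_nonneg (RR_nonneg _ _ _ _) (wt_nonneg hK _))
  refine b4.trans (add_le_add (add_le_add (by linarith) ?_)
    (mul_le_mul (by gcongr; linarith) b3 ?_ (by positivity)))
  · calc _ ≤ 2 * X * (C1 / (Δ : ℝ) ^ 2) := by gcongr
      _ = 2 * C1 * X / (Δ : ℝ) ^ 2 := by ring
      _ ≤ _ := by gcongr; linarith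
  · exact sum_nonneg fun d _ => mul_nonneg (by positivity) (wt_nonneg hK _)

end Pool.Agent.P.MP_26a8c3_nt.EC
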