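import Pool.Agent.P.MP_26a8c3_nt.EC.Base

/-! Cancellation in bilinear sums of reciprocals, on average over the modulus. -/

namespace Pool.Agent.P.MP_26a8c3_nt.EC

open Finset
open scoped Classical
open Hyb (ee ch pairs)

namespace Bias

/-- The number of pairs that are congruent modulo `r`. -/
noncomputable def pc (E : Finset ℕ) (r : ℕ) : ℝ := pairs E fun e e' => (r : ℤ) ∣ (e : ℤ) - e'

lemma off (Q : Finset ℕ) (r : ℕ → ℕ) {M W : ℝ} (hM : 0 ≤ M) (hW : 0 < W)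
    (h : ∀ q ∈ Q, 0 < q ∧ (q : ℝ) ≤ M ∧ r q ∣ q ∧ W ≤ r q) {n : ℕ} (hn : n ≠ 0) :
    ∑ q ∈ Q, (if r q ∣ n then √(r q : ℝ) else 0) ≤ n.divisors.card * (M / √W) := by
  rw [← sum_filter, ← sum_fiberwise_of_maps_to (g := r) (t := n.divisors)
    (fun q hq => Nat.mem_divisors.2 ⟨(mem_filter.1 hq).2, hn⟩), ← nsmul_eq_mul]
  refine sum_le_card_nsmul _ _ _ fun d _ => ?_
  rcases ((Q.filter fun q => r q ∣ n).filter fun q => r q = d).eq_empty_or_nonempty with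
    h0 | ⟨q0, hq0⟩
  · rw [h0, sum_empty]; positivity
  have hd : W ≤ d := (mem_filter.1 hq0).2 ▸ (h q0 (mem_filter.1 (mem_filter.1 hq0).1).1).2.2.2
  have hd0 : (0 : ℝ) < d := hW.trans_le hd
  have h1 : ((Q.filter fun q => r q ∣ n).filter fun q => r q = d) ⊆
      (Ioc 0 ⌊M⌋₊).filter fun q => d ∣ q := fun q hq => by
    obtain ⟨a1, a2, a3, -⟩ := h q (mem_filter.1 (mem_filter.1 hq).1).1
    exact mem_filter.2 ⟨mem_Ioc.2 ⟨a1, Nat.le_floor a2⟩, (mem_filter.1 hq).2 ▸ a3⟩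
  have h2 := card_le_card h1
  rw [Nat.Ioc_filter_dvd_card_eq_div] at h2
  have h3 : ((((Q.filter fun q => r q ∣ n).filter fun q => r q = d).card : ℕ) : ℝ) ≤ M / d :=
    (Nat.cast_le.2 h2).trans (Nat.cast_div_le.trans
      (div_le_div_of_nonneg_right (Nat.floor_le hM) hd0.le))
  rw [sum_congr rfl (g := fun _ => √(d : ℝ)) fun q hq => by rw [(mem_filter.1 hq).2], sum_const,
    nsmul_eq_mul]
  have h4 : 0 < √(d : ℝ) := Real.sqrt_pos.2 hd0
  calc _ ≤ M / d * √(d : ℝ) := mul_le_mul_of_nonneg_right h3 h4.le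
    _ = M / √(d : ℝ) := by
        conv_lhs => rw [← Real.mul_self_sqrt hd0.le]
        rw [Real.sqrt_mul_self h4.le]
        field_simp
    _ ≤ M / √W := div_le_div_of_nonneg_left hM (Real.sqrt_pos.2 hW) (Real.sqrt_le_sqrt hd)

lemma cntp (Q E : Finset ℕ) (r : ℕ → ℕ) {M W X T : ℝ} (hM : 0 ≤ M) (hW : 0 < W) (hT0 : 0 ≤ T)
    (h : ∀ q ∈ Q, 0 < q ∧ (q : ℝ) ≤ M ∧ r q ∣ q ∧ W ≤ r q) (hE : ∀ e ∈ E, (e : ℝ) ≤ X)
    (hT : ∀ n : ℕ, n ≠ 0 → (n : ℝ) ≤ X → (n.divisors.card : ℝ) ≤ T) :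
    ∑ q ∈ Q, √(r q : ℝ) * pc E (r q) ≤ E.card * (M * √M + E.card * (T * (M / √W))) := by
  have hQ : (Q.card : ℝ) ≤ M := by
    have h1 : Q ⊆ Ioc 0 ⌊M⌋₊ := fun q hq => mem_Ioc.2 ⟨(h q hq).1, Nat.le_floor (h q hq).2.1⟩
    have h2 := card_le_card h1
    rw [Nat.card_Ioc, Nat.sub_zero] at h2
    exact (Nat.cast_le.2 h2).trans (Nat.floor_le hM)
  simp only [pc, Hyb.pairs_eq_sum, mul_sum, mul_ite, mul_one, mul_zero]
  rw [sum_comm, ← nsmul_eq_mul]
  refine sum_le_card_nsmul _ _ _ fun e he => ?_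
  rw [sum_comm]
  have key : ∀ e' ∈ E, ∑ q ∈ Q, (if (r q : ℤ) ∣ (e : ℤ) - e' then √(r q : ℝ) else 0) ≤
      (if e = e' then M * √M else 0) + T * (M / √W) := by
    intro e' he'
    by_cases hee : e = e'
    · rw [if_pos hee]
      have h1 : ∑ q ∈ Q, (if (r q : ℤ) ∣ (e : ℤ) - e' then √(r q : ℝ) else 0) ≤ Q.card • √M := by
        refine sum_le_card_nsmul _ _ _ fun q hq => ?_
        split_ifs
        · exact Real.sqrt_le_sqrt
            ((Nat.cast_le.2 (Nat.le_of_dvd (h q hq).1 (h q hq).2.2.1)).trans (h q hq).2.1)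
        · positivity
      rw [nsmul_eq_mul] at h1
      have h2 : (Q.card : ℝ) * √M ≤ M * √M := mul_le_mul_of_nonneg_right hQ (by positivity)
      have h3 : 0 ≤ T * (M / √W) := by positivity
      linarith
    · rw [if_neg hee, zero_add]
      have hn : ((e : ℤ) - e').natAbs ≠ 0 := by omega
      have hX : ((((e : ℤ) - e').natAbs : ℕ) : ℝ) ≤ X := by
        rcases le_total e e' with h1 | h1
        · exact (Nat.cast_le.2 (by omega)).trans (hE e' he')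
        · exact (Nat.cast_le.2 (by omega)).trans (hE e he)
      simp only [Int.natCast_dvd]
      exact (off Q r hM hW h hn).trans (mul_le_mul_of_nonneg_right (hT _ hn hX) (by positivity))
  refine (sum_le_sum key).trans (le_of_eq ?_)
  rw [sum_add_distrib, sum_ite_eq, if_pos he, sum_const, nsmul_eq_mul]

lemma dvd_of_inv {r : ℕ} {e e' : ℕ} (h : Nat.Coprime e r) (h' : Nat.Coprime e' r)
    (hi : (e : ZMod r)⁻¹ = (e' : ZMod r)⁻¹) : (r : ℤ) ∣ (e : ℤ) - e' := by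
  have h1 := ZMod.coe_mul_inv_eq_one e h
  have h2 := ZMod.coe_mul_inv_eq_one e' h'
  rw [← ZMod.intCast_zmod_eq_zero_iff_dvd]
  push_cast
  rw [hi] at h1
  linear_combination (e' : ZMod r) * h1 - (e : ZMod r) * h2

lemma bil (E1 E2 : Finset ℕ) (q : ℕ) (h D : ℤ) (hq : 0 < q)
    (hD : ∀ e1 ∈ E1, ∀ e2 ∈ E2, ((e1 * e2 : ℕ) : ℤ) ∣ D) (hc : ∀ e ∈ E1 ∪ E2, Nat.Coprime e q) :
    ‖∑ e1 ∈ E1, ∑ e2 ∈ E2, ee (((h * (D / ((e1 * e2 : ℕ) : ℤ)) : ℤ) : ℝ) / q)‖ ^ 2 ≤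
      (q / Int.gcd (q : ℤ) (h * D) : ℕ) * pc E1 (q / Int.gcd (q : ℤ) (h * D)) *
        pc E2 (q / Int.gcd (q : ℤ) (h * D)) := by
  have hg0 : 0 < Int.gcd (q : ℤ) (h * D) := Int.gcd_pos_of_ne_zero_left _ (by omega)
  obtain ⟨r', a, hra, e1, e2⟩ := Int.exists_gcd_one hg0
  generalize Int.gcd (q : ℤ) (h * D) = g at *
  have hr' : 0 < r' := (mul_pos_iff_of_pos_right (b := (g : ℤ)) (by omega)).1 (by omega)
  obtain ⟨r, rfl⟩ := Int.eq_ofNat_of_zero_le hr'.le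
  have hqr : q = r * g := by exact_mod_cast e1
  have hr : q / g = r := by rw [hqr, Nat.mul_div_cancel _ hg0]
  rw [hr]
  have : NeZero r := ⟨by omega⟩
  have hcr : ∀ e ∈ E1 ∪ E2, Nat.Coprime e r := fun e he =>
    (hc e he).coprime_dvd_right ⟨g, hqr⟩
  have hcg : ∀ e ∈ E1 ∪ E2, Nat.Coprime e g := fun e he =>
    (hc e he).coprime_dvd_right (Dvd.intro_left r hqr.symm)
  have ha : IsUnit (a : ZMod r) := by
    rw [ZMod.coe_int_isUnit_iff_isCoprime]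
    exact Int.isCoprime_iff_gcd_eq_one.2 hra
  have key : ∀ x ∈ E1, ∀ y ∈ E2, ee (((h * (D / ((x * y : ℕ) : ℤ)) : ℤ) : ℝ) / q) =
      1 * 1 * ch r ((a * (x : ZMod r)⁻¹) * (y : ZMod r)⁻¹) := by
    intro x hx y hy
    have h1 : h * (D / ((x * y : ℕ) : ℤ)) * ((x * y : ℕ) : ℤ) = a * g := by
      rw [mul_assoc, Int.ediv_mul_cancel (hD x hx y hy), e2]
    generalize h * (D / ((x * y : ℕ) : ℤ)) = z at *
    have h2 : IsCoprime (g : ℤ) ((x * y : ℕ) : ℤ) := Nat.isCoprime_iff_coprime.2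
      (Nat.Coprime.mul_left (hcg x (mem_union_left _ hx)) (hcg y (mem_union_right _ hy))).symm
    obtain ⟨z', rfl⟩ : (g : ℤ) ∣ z := h2.dvd_of_dvd_mul_right ⟨a, by rw [h1, mul_comm]⟩
    have h3 : z' * ((x * y : ℕ) : ℤ) = a :=
      mul_left_cancel₀ (a := (g : ℤ)) (by omega) (by linear_combination h1)
    have h4 : (a * (x : ZMod r)⁻¹) * (y : ZMod r)⁻¹ = (z' : ZMod r) := by
      have b1 := ZMod.coe_mul_inv_eq_one x (hcr x (mem_union_left _ hx))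
      have b2 := ZMod.coe_mul_inv_eq_one y (hcr y (mem_union_right _ hy))
      rw [← h3]
      push_cast
      linear_combination ((z' : ZMod r) * ((y : ZMod r) * (y : ZMod r)⁻¹)) * b1 + (z' : ZMod r) * b2
    rw [h4, Hyb.ch_int, one_mul, one_mul, hqr]
    congr 1
    have : (g : ℝ) ≠ 0 := by positivity
    have : (r : ℝ) ≠ 0 := by exact_mod_cast NeZero.ne r
    push_cast
    field_simp
  rw [sum_congr rfl fun x hx => sum_congr rfl fun y hy => key x hx y hy]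
  refine (Hyb.fin_bil (fun x y : ZMod r => ch r (x * y)) (N := (r : ℝ)) (by positivity)
    (fun y y' hy => by rw [Hyb.ch_orth, if_neg hy]) (fun y => by rw [Hyb.ch_orth, if_pos rfl]; simp)
    E1 E2 (fun _ => 1) (fun _ => 1) (by simp) (by simp) (fun x => a * (x : ZMod r)⁻¹)
    fun y => (y : ZMod r)⁻¹).trans ?_
  refine mul_le_mul (mul_le_mul_of_nonneg_left ?_ (by positivity)) ?_ (Hyb.pairs_nonneg _ _)
    (mul_nonneg (by positivity) (Hyb.pairs_nonneg _ _))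
  · exact Hyb.pairs_mono _ fun i hi j hj e => dvd_of_inv (hcr i (mem_union_left _ hi))
      (hcr j (mem_union_left _ hj)) (ha.mul_left_cancel e)
  · exact Hyb.pairs_mono _ fun i hi j hj e => dvd_of_inv (hcr i (mem_union_right _ hi))
      (hcr j (mem_union_right _ hj)) e

lemma amgm {S r P1 P2 n1 n2 : ℝ} (hr : 0 ≤ r) (h1 : 0 ≤ P1) (h2 : 0 ≤ P2) (hn1 : 0 < n1)
    (hn2 : 0 < n2) (h : S ^ 2 ≤ r * P1 * P2) :
    S ≤ n2 / n1 / 2 * (√r * P1) + n1 / n2 / 2 * (√r * P2) := by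
  refine (le_abs_self S).trans (abs_le_of_sq_le_sq (h.trans ?_) (by positivity))
  have e : r * P1 * P2 = 4 * (n2 / n1 / 2 * (√r * P1)) * (n1 / n2 / 2 * (√r * P2)) := by
    conv_lhs => rw [← Real.mul_self_sqrt hr]
    field_simp
    ring
  rw [e]
  nlinarith [sq_nonneg (n2 / n1 / 2 * (√r * P1) - n1 / n2 / 2 * (√r * P2))]

lemma num {Λ L th C n : ℝ} (hth : 0 < th) (hth' : th ≤ 1 / 1000) (hC : 1 ≤ C) (hΛ : 2 * C ≤ Λ)
    (hL : 1 ≤ L) (h : Λ ^ 40 ≤ L ^ th) (hn : L ≤ n) :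
    L ^ (1 + th) * √(L ^ (1 + th)) + n * (C * Λ * (L ^ (1 + th) / √(L ^ (16 * th)))) ≤
      n * L ^ (1 - 6 * th) := by
  have hL0 : 0 < L := by linarith
  have h1 : Λ ^ 2 ≤ L ^ th := (pow_le_pow_right₀ (by linarith) (by norm_num)).trans h
  have h2 : 2 * (C * Λ) ≤ L ^ th := by nlinarith
  have h3 : 2 ≤ L ^ th := by nlinarith
  have e1 : L ^ (1 + th) / √(L ^ (16 * th)) * L ^ th = L ^ (1 - 6 * th) := by
    rw [Real.sqrt_eq_rpow, ← Real.rpow_mul hL0.le, ← Real.rpow_sub hL0, ← Real.rpow_add hL0]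
    congr 1
    ring
  have e2 : L ^ (1 + th) * √(L ^ (1 + th)) * L ^ th ≤ L * L ^ (1 - 6 * th) := by
    rw [Real.sqrt_eq_rpow, ← Real.rpow_mul hL0.le, ← Real.rpow_add hL0, ← Real.rpow_add hL0,
      mul_comm L, ← Real.rpow_add_one hL0.ne']
    exact Real.rpow_le_rpow_of_exponent_le hL (by linarith)
  have p1 : 0 ≤ L ^ (1 + th) / √(L ^ (16 * th)) := by positivity
  have p2 : 0 ≤ L ^ (1 + th) * √(L ^ (1 + th)) := by positivity
  have p3 : 0 ≤ L ^ (1 - 6 * th) := by positivity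
  generalize L ^ (1 + th) / √(L ^ (16 * th)) = a at *
  generalize L ^ (1 + th) * √(L ^ (1 + th)) = b at *
  generalize L ^ (1 - 6 * th) = c at *
  generalize L ^ th = t at *
  have b1 : 2 * (C * Λ * a) ≤ c := by nlinarith
  have b2 : 2 * b ≤ n * c := by nlinarith
  have b3 : n * (2 * (C * Λ * a)) ≤ n * c := mul_le_mul_of_nonneg_left b1 (by linarith)
  linarith

end Bias

open Bias

theorem pBias : S_Bias := by
  intro B th hth hth'
  have hB : 0 < max B 1 := lt_of_lt_of_le one_pos (le_max_right _ _)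
  obtain ⟨C, hC, hτ⟩ := Hyb.div_bound (ε := (max B 1)⁻¹) (by positivity)
  refine ⟨2 * C, fun Λ L E1 E2 Q D hh hΛ hL h40 hE n1 n2 hD hQ => ?_⟩
  have hΛ1 : 1 ≤ Λ := by linarith
  have hT : ∀ n : ℕ, n ≠ 0 → (n : ℝ) ≤ Λ ^ B → (n.divisors.card : ℝ) ≤ C * Λ := fun n hn hX => by
    refine (hτ n hn).trans (mul_le_mul_of_nonneg_left ?_ (by linarith))
    have h1 : (n : ℝ) ≤ Λ ^ (max B 1) :=
      hX.trans (Real.rpow_le_rpow_of_exponent_le hΛ1 (le_max_left _ _))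
    refine (Real.rpow_le_rpow (by positivity) h1 (by positivity)).trans (le_of_eq ?_)
    rw [← Real.rpow_mul (by linarith), mul_inv_cancel₀ hB.ne', Real.rpow_one]
  have hr : ∀ q ∈ Q, 0 < q ∧ (q : ℝ) ≤ L ^ (1 + th) ∧ q / Int.gcd (q : ℤ) (hh q * D) ∣ q ∧
      L ^ (16 * th) ≤ (q / Int.gcd (q : ℤ) (hh q * D) : ℕ) := fun q hq => by
    obtain ⟨a1, a2, -, a4⟩ := hQ q hq
    have hg : Int.gcd (q : ℤ) (hh q * D) ∣ q := Int.natCast_dvd_natCast.1 (Int.gcd_dvd_left ..)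
    have hg0 : (0 : ℝ) < Int.gcd (q : ℤ) (hh q * D) := by
      exact_mod_cast Int.gcd_pos_of_ne_zero_left _ (by omega)
    refine ⟨a1, a2, Nat.div_dvd_of_dvd hg, ?_⟩
    rwa [Nat.cast_div hg hg0.ne', le_div_iff₀ hg0]
  have p1 : (0 : ℝ) < E1.card := by linarith
  have p2 : (0 : ℝ) < E2.card := by linarith
  have c1 := (cntp Q E1 _ (by positivity) (by positivity) (by positivity) hr
    (fun e he => (hE e (mem_union_left _ he)).2) hT).trans
    (mul_le_mul_of_nonneg_left (num hth hth' hC hΛ hL h40 n1) p1.le)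
  have c2 := (cntp Q E2 _ (by positivity) (by positivity) (by positivity) hr
    (fun e he => (hE e (mem_union_right _ he)).2) hT).trans
    (mul_le_mul_of_nonneg_left (num hth hth' hC hΛ hL h40 n2) p2.le)
  refine (sum_le_sum fun q hq => amgm (by positivity) (Hyb.pairs_nonneg _ _) (Hyb.pairs_nonneg _ _)
    p1 p2 (bil E1 E2 q (hh q) D (hQ q hq).1 hD (hQ q hq).2.2.1)).trans ?_
  rw [sum_add_distrib, ← mul_sum, ← mul_sum]
  refine (add_le_add (mul_le_mul_of_nonneg_left c1 (by positivity))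
    (mul_le_mul_of_nonneg_left c2 (by positivity))).trans (le_of_eq ?_)
  field_simp
  ring

end Pool.Agent.P.MP_26a8c3_nt.EC
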