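import Pool.Agent.P.MP_26a8c3_nt.EC.Bil0

/-! The bilinear estimate in the two large primes. -/

namespace Pool.Agent.P.MP_26a8c3_nt.EC

open Finset Filter
open scoped Classical
open Hyb (ee norm_ee)

namespace Bil

lemma large (B K : ℝ) : ∃ Λ0 : ℝ, ∀ Λ : ℝ, Λ0 ≤ Λ → K ≤ Λ ∧ ∃ Z : ℝ, Λ ≤ Z ∧ Λ ^ B ≤ Z ∧
    Xi Λ ≤ Z ∧ Z ^ 30 ≤ Real.exp (Λ ^ (3 / 5 : ℝ) - 2) ∧ Real.log Z ≤ Λ := by
  have t1 := (tendsto_rpow_atTop (by norm_num : (0 : ℝ) < 1 / 20)).eventually_ge_atTop 32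
  have t2 := (isLittleO_log_rpow_atTop (by norm_num : (0 : ℝ) < 11 / 20)).bound
    (show 0 < 1 / (|B| + 1) by positivity)
  obtain ⟨Λ0, h⟩ := eventually_atTop.1 (t1.and (t2.and ((eventually_ge_atTop K).and
    (eventually_ge_atTop 1))))
  refine ⟨Λ0, fun Λ hΛ => ?_⟩
  obtain ⟨a1, a2, a3, a4⟩ := h Λ hΛ
  have h0 : 0 < Λ := by linarith
  have l0 := Real.log_nonneg a4
  rw [Real.norm_of_nonneg l0, Real.norm_of_nonneg (by positivity), one_div, ← div_eq_inv_mul,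
    le_div_iff₀ (by positivity)] at a2
  have b0 := abs_nonneg B
  have b1 : 1 ≤ Λ ^ (11 / 20 : ℝ) := Real.one_le_rpow a4 (by norm_num)
  refine ⟨a3, Real.exp (Λ ^ (11 / 20 : ℝ)), ?_, ?_, ?_, ?_, ?_⟩
  · rw [← Real.log_le_iff_le_exp h0]; nlinarith
  · rw [Real.rpow_def_of_pos h0, Real.exp_le_exp]; nlinarith [le_abs_self B]
  · exact Real.exp_le_exp.2 (Real.rpow_le_rpow_of_exponent_le a4 (by norm_num))
  · rw [← Real.exp_nat_mul, Real.exp_le_exp, show (3 / 5 : ℝ) = 1 / 20 + 11 / 20 by norm_num,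
      Real.rpow_add h0]
    push_cast
    nlinarith
  · rw [Real.log_exp]; exact Real.rpow_le_self_of_one_le a4 (by norm_num)

lemma sum_pairs {W : Finset ℕ} {M : ℕ} (hW : W ⊆ Icc 1 M) (S : ℕ → ℕ → ℝ) (f : ℕ → ℝ)
    (hf : ∀ r, 0 ≤ f r) {N R X : ℝ} (hN : 0 ≤ N) (hR : 0 ≤ R) (hX : (M : ℝ) ≤ X)
    (h1 : ∀ p ∈ W, S p p ≤ N)
    (h2 : ∀ p ∈ W, ∀ p' ∈ W, p' ≠ p → S p p' ≤ f ((p : ℤ) - p').natAbs + R) :
    ∑ p ∈ W, ∑ p' ∈ W, S p p' ≤ X * (N + 2 * ∑ r ∈ Icc 1 M, f r + X * R) := by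
  have hc : (W.card : ℝ) ≤ X := le_trans (by exact_mod_cast (card_le_card hW).trans (by simp)) hX
  have hF : 0 ≤ ∑ r ∈ Icc 1 M, f r := sum_nonneg fun r _ => hf r
  have hX0 : 0 ≤ X := (Nat.cast_nonneg _).trans hX
  refine (sum_le_card_nsmul _ _ (N + 2 * ∑ r ∈ Icc 1 M, f r + X * R) fun p hp => ?_).trans ?_
  · rw [← add_sum_erase _ _ hp, add_assoc]
    refine add_le_add (h1 p hp) ((sum_le_sum fun p' hp' =>
      h2 p hp p' (mem_of_mem_erase hp') (ne_of_mem_erase hp')).trans ?_)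
    rw [sum_add_distrib, sum_const, nsmul_eq_mul]
    exact add_le_add (two_one hW hp f hf) (mul_le_mul_of_nonneg_right
      ((Nat.cast_le.2 card_erase_le).trans hc) hR)
  · rw [nsmul_eq_mul]
    exact mul_le_mul_of_nonneg_right hc (by positivity)

lemma fin {s c N X P F w Z : ℝ} (hs : s ≤ c * (X * (N + 2 * F + X * Z ^ 15))) (hc : c ≤ N)
    (hc0 : 0 ≤ c) (hN : N ≤ P) (hw : 0 < w) (hwZ : w ≤ Z) (hZ : 2 ≤ Z) (hP : Z ^ 30 ≤ P)
    (hX : Z ^ 30 ≤ X) (hF0 : 0 ≤ F) (hF : 4 * N * F * w ^ 6 ≤ X * P ^ 2) :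
    s ≤ ((w ^ 3)⁻¹ * (X * P)) ^ 2 := by
  have z1 : w ^ 6 ≤ Z ^ 6 := pow_le_pow_left₀ hw.le hwZ 6
  have z2 : 2 ^ 9 ≤ Z ^ 9 := pow_le_pow_left₀ (by norm_num) hZ 9
  have z3 : 1 ≤ Z ^ 15 := one_le_pow₀ (by linarith)
  have z4 : 4 * (w ^ 6 * Z ^ 15) ≤ Z ^ 30 := by
    have := mul_le_mul z2 (mul_le_mul_of_nonneg_right z1 (by positivity : 0 ≤ Z ^ 15))
      (by positivity) (by positivity)
    nlinarith [mul_pos (pow_pos hw 6) (by positivity : 0 < Z ^ 15)]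
  have z5 : 4 * w ^ 6 ≤ X := by nlinarith [pow_pos hw 6]
  have hX0 : 0 < X := lt_of_lt_of_le (by positivity) hX
  have hP0 : 0 < P := lt_of_lt_of_le (by positivity) hP
  have hN0 := hc0.trans hc
  refine hs.trans ((mul_le_mul_of_nonneg_right hc (by positivity)).trans ?_)
  rw [show ((w ^ 3)⁻¹ * (X * P)) ^ 2 = X * (X * P ^ 2) / w ^ 6 by field_simp,
    le_div_iff₀ (by positivity)]
  have y1 : N * N * (4 * w ^ 6) ≤ P * P * X :=
    mul_le_mul (mul_le_mul hN hN hN0 hP0.le) z5 (by positivity) (by positivity)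
  have y2 : N * (4 * (w ^ 6 * Z ^ 15)) ≤ P * P := mul_le_mul hN (z4.trans hP) (by positivity) hP0.le
  have y3 := mul_le_mul_of_nonneg_left y2 hX0.le
  have y4 : N * (N + 2 * F + X * Z ^ 15) * w ^ 6 ≤ X * P ^ 2 := by nlinarith
  nlinarith [mul_le_mul_of_nonneg_left y4 hX0.le]

lemma th_up {h a v q T L w X P Z x y : ℝ} (hh : |h| ≤ w ^ 4) (ha : |a| ≤ v * T * Z ^ 3) (hv : 0 < v)
    (hq : L ≤ q * w) (hL : 0 < L) (hw : 0 < w) (hT : T ≤ 6 * L * X * P) (hX : 0 < X) (hP : 0 < P)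
    (hZ : 0 < Z) (hx : X ≤ 3 * x) (hy : X ≤ 3 * y) :
    |h * a / (v * q) * (x⁻¹ - y⁻¹)| ≤ 18 * w ^ 5 * P * Z ^ 3 := by
  have hq0 : 0 < q := by nlinarith
  have x0 : 0 < x := by linarith
  have y0 : 0 < y := by linarith
  have i1 : x⁻¹ ≤ 3 / X := by rw [inv_eq_one_div, div_le_div_iff₀ x0 hX]; linarith
  have i2 : y⁻¹ ≤ 3 / X := by rw [inv_eq_one_div, div_le_div_iff₀ y0 hX]; linarith
  have i3 : |x⁻¹ - y⁻¹| ≤ 3 / X :=
    abs_le.2 ⟨by linarith [inv_pos.2 x0], by linarith [inv_pos.2 y0]⟩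
  have i4 : T ≤ 6 * (q * w) * X * P := hT.trans (by gcongr)
  rw [abs_mul, abs_div, abs_mul, abs_of_pos (mul_pos hv hq0)]
  calc |h| * |a| / (v * q) * |x⁻¹ - y⁻¹|
      ≤ w ^ 4 * (v * (6 * (q * w) * X * P) * Z ^ 3) / (v * q) * (3 / X) := by
        gcongr
        exact ha.trans (by gcongr)
    _ = _ := by field_simp; ring

lemma th_low {h a v q T L w X P x y : ℝ} (hh : 1 ≤ |h|) (ha : v * T * w ^ 20 ≤ |a|) (hv : 0 < v)
    (hq0 : 0 < q) (hq : q ≤ L * w) (hw : 0 < w) (hT : L * X * P ≤ 3 * T) (hX : 0 < X)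
    (hP : 0 < P) (x0 : 0 < x) (y0 : 0 < y) (hx : x ≤ X) (hy : y ≤ X) :
    P * w ^ 19 * |x - y| / (3 * X) ≤ |h * a / (v * q) * (x⁻¹ - y⁻¹)| := by
  have hL : 0 < L := by nlinarith
  have hT0 : 0 < T := by nlinarith [mul_pos (mul_pos hL hX) hP]
  rw [abs_mul, abs_div, abs_mul, abs_of_pos (mul_pos hv hq0), inv_sub_inv x0.ne' y0.ne', abs_div,
    abs_sub_comm y, abs_of_pos (mul_pos x0 y0)]
  calc P * w ^ 19 * |x - y| / (3 * X)
      = 1 * (v * (L * X * P / 3) * w ^ 20) / (v * (L * w)) * (|x - y| / (X * X)) := by field_simp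
    _ ≤ |h| * |a| / (v * q) * (|x - y| / (x * y)) := by
        gcongr
        exact le_trans (by gcongr; linarith) ha

end Bil

open Bil in
theorem pBil (hKS : S_KS) : S_Bil := by
  obtain ⟨C, hC, ks⟩ := hKS
  obtain ⟨C', hC', dv⟩ := Hyb.div_bound (show (0 : ℝ) < 1 / 2 by norm_num)
  intro B th
  obtain ⟨Λ0, h0⟩ := large B (96 * C * C' + 19)
  refine ⟨Λ0, fun t1 q Λ L P T W2 W1 a v E h z hΛ hx hlen hE hv1 hv2 ha hcase hh0 hh hq1 hq2 hW hz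
    => ?_⟩
  obtain ⟨k1, Z, z1, z2, z3, z4, z5⟩ := h0 Λ hΛ
  have hL1 := hx.L0
  have hL0 : 0 < L := by linarith
  have hCC : C ≤ C * C' := le_mul_of_one_le_right hC.le hC'
  have k2 : 19 ≤ Λ := by linarith
  have hZ : 19 ≤ Z := k2.trans z1
  have hP : Z ^ 30 ≤ P := z4.trans hx.P2a
  have hP0 : 0 < P := lt_of_lt_of_le (by positivity) hP
  have hX : Z ^ 30 ≤ Real.exp t1 := z4.trans (Real.exp_le_exp.2 (by linarith [hx.t1a]))
  rcases W1.eq_empty_or_nonempty with rfl | ⟨p0, hp0⟩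
  · simp only [sum_empty, norm_zero]; positivity
  rcases W2.eq_empty_or_nonempty with rfl | ⟨n0, hn0⟩
  · simp only [sum_empty, sum_const_zero, norm_zero]; positivity
  obtain ⟨w, hw⟩ : ∃ w, w = L ^ th := ⟨_, rfl⟩
  have hw0 : 0 < w := by rw [hw]; positivity
  have pw : ∀ n : ℕ, L ^ ((n : ℝ) * th) = w ^ n := fun n => by
    rw [hw, mul_comm, Real.rpow_mul hL0.le, Real.rpow_natCast]
  have p20 := pw 20
  have p4 := pw 4
  have p3 := pw 3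
  push_cast at p20 p4 p3
  rw [Real.rpow_neg hL0.le, p3]
  rw [p20] at hcase
  rw [p4] at hh
  rw [Real.rpow_sub hL0, Real.rpow_one, ← hw, div_le_iff₀ hw0] at hq1
  rw [Real.rpow_add hL0, Real.rpow_one, ← hw] at hq2
  have hLZ : L ≤ Z := hx.L2.trans z2
  have hwZ : w ≤ Z := hw ▸ (Real.rpow_le_self_of_one_le hL1 (by linarith [hx.th1])).trans hLZ
  have hΛw : Λ ^ 40 ≤ w := hw ▸ hx.L1
  lift v to ℕ using by omega
  have hv0 : 0 < v := by omega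
  have hv0' : (0 : ℝ) < v := by exact_mod_cast hv0
  have hq0' : (0 : ℝ) < q := (mul_pos_iff_of_pos_right hw0).1 (hL0.trans_le hq1)
  have hq0 : 0 < q := by exact_mod_cast hq0'
  have hXi : Xi Λ ^ 3 ≤ Z ^ 3 := pow_le_pow_left₀ (Real.exp_pos _).le z3 3
  push_cast at hv2 ha hcase
  have hm0 : 0 < v * q := Nat.mul_pos hv0 hq0
  have hm : ((v * q : ℕ) : ℝ) ≤ Z ^ 5 := by
    push_cast
    exact (mul_le_mul (hv2.trans hXi) (hq2.trans (mul_le_mul hLZ hwZ hw0.le (by linarith)))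
      hq0'.le (by positivity)).trans (le_of_eq (by ring))
  have hmP : ((v * q : ℕ) : ℝ) < Z ^ 29 := hm.trans_lt (pow_lt_pow_right₀ (by linarith) (by norm_num))
  have z29 : 19 * Z ^ 29 ≤ Z ^ 30 := by
    rw [pow_succ' Z 29]; exact mul_le_mul_of_nonneg_right hZ (by positivity)
  have cop' : ∀ p : ℕ, p.Prime → Z ^ 29 ≤ p → Nat.Coprime p (v * q) := fun p hp h1 =>
    hp.coprime_iff_not_dvd.2 fun hd => absurd (Nat.le_of_dvd hm0 hd)
      (not_le.2 (by exact_mod_cast hmP.trans_le h1))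
  obtain ⟨X, hXd⟩ : ∃ X, X = Real.exp t1 := ⟨_, rfl⟩
  have hX0 : 0 < X := hXd ▸ Real.exp_pos _
  have w1 : ∀ p ∈ W1, p.Prime ∧ X ≤ 3 * p ∧ (p : ℝ) ≤ X := fun p hp => by
    obtain ⟨b1, b2, b3⟩ := mem_PR.1 (hW hp)
    have b4 := exp_tau_lt b1.pos
    have b5 := le_exp_tau p
    rw [le_antisymm b3 b2, ← hXd] at b5
    rw [le_antisymm b3 b2, Real.exp_sub, ← hXd, div_lt_iff₀ (Real.exp_pos _)] at b4
    refine ⟨b1, ?_, b5⟩
    linarith [mul_le_mul_of_nonneg_left (show Real.exp 1 ≤ 3 by linarith [Real.exp_one_lt_d9])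
      (Nat.cast_nonneg p)]
  rw [← hXd] at hX ⊢
  have z30 : 0 < Z ^ 29 := by positivity
  have c1 : ∀ p ∈ W1, Nat.Coprime p (v * q) := fun p hp =>
    cop' p (w1 p hp).1 (by linarith [(w1 p hp).2.1])
  have c2 : ∀ p ∈ W2, Nat.Coprime p (v * q) := fun p hp =>
    cop' p (hx.W2a p hp).1 (by linarith [(hx.W2a p hp).2.1])
  have hWM : W1 ⊆ Icc 1 ⌊X⌋₊ := fun p hp => mem_Icc.2 ⟨(w1 p hp).1.pos, Nat.le_floor (w1 p hp).2.2⟩
  have l3 : 2 ≤ Λ ^ 3 := le_trans (by linarith) (le_self_pow₀ (by linarith) (by norm_num))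
  have l4 : (Λ ^ 3)⁻¹ ≤ 1 := inv_le_one_of_one_le₀ (by linarith)
  have l5 : Λ ^ 3 ≤ P := ((pow_le_pow_left₀ (by linarith) z1 3).trans
    (pow_le_pow_right₀ (by linarith) (by norm_num))).trans hP
  set a0 := ⌈P⌉₊ - 1 with ha0
  set b0 := ⌊P * (1 + (Λ ^ 3)⁻¹)⌋₊ with hb0
  have ca : 1 ≤ ⌈P⌉₊ := Nat.ceil_pos.2 hP0
  have a01 : P ≤ (a0 : ℝ) + 1 := by
    rw [ha0, Nat.cast_sub ca, Nat.cast_one, sub_add_cancel]; exact Nat.le_ceil P
  have b01 : (b0 : ℝ) ≤ P * (1 + (Λ ^ 3)⁻¹) := Nat.floor_le (by positivity)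
  have hI0 : W2 ⊆ Ioc a0 b0 := fun p hp => by
    have := Nat.ceil_le.2 (hx.W2a p hp).2.1
    exact mem_Ioc.2 ⟨by omega, Nat.le_floor (hx.W2a p hp).2.2.1⟩
  have hab : a0 ≤ b0 := by have := mem_Ioc.1 (hI0 hn0); omega
  obtain ⟨N, hN⟩ : ∃ N : ℝ, N = (b0 : ℝ) - a0 := ⟨_, rfl⟩
  have hN0 : 0 ≤ N := hN ▸ sub_nonneg.2 (Nat.cast_le.2 hab)
  have hN1 : N * Λ ^ 3 ≤ 2 * P := by
    have : N ≤ P * (Λ ^ 3)⁻¹ + 1 := by linarith
    have := mul_le_mul_of_nonneg_right this (show 0 ≤ Λ ^ 3 by linarith)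
    rw [add_mul, mul_assoc, inv_mul_cancel₀ (by linarith)] at this
    linarith
  have hN2 : N ≤ P := by linarith [mul_le_mul_of_nonneg_left l3 hN0]
  have l6 := mul_le_mul_of_nonneg_left l4 hP0.le
  have cI : ((Ioc a0 b0).card : ℝ) = N := by rw [Nat.card_Ioc, Nat.cast_sub hab, hN]
  have hI : W2 ⊆ (Ioc a0 b0).filter fun n => Nat.Coprime n (v * q) := fun p hp =>
    mem_filter.2 ⟨hI0 hp, c2 p hp⟩
  have r := red hm0 hI E h (h * a / (v * q)) z c1 c2 (by exact_mod_cast hz)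
  obtain ⟨t1', t2'⟩ := hlen p0 (hW hp0) n0 hn0
  have d0 : (0 : ℝ) < (p0 * n0 : ℕ) := by
    exact_mod_cast Nat.mul_pos (w1 p0 hp0).1.pos (hx.W2a n0 hn0).1.pos
  rw [le_div_iff₀ d0] at t1'
  rw [div_le_iff₀ d0] at t2'
  have hT0 : 0 < T := lt_of_lt_of_le (by positivity) t1'
  push_cast at t1' t2'
  have T1 : T ≤ 6 * L * X * P := by
    have := mul_le_mul (w1 p0 hp0).2.2 (show (n0 : ℝ) ≤ 2 * P by linarith [(hx.W2a n0 hn0).2.2.1])
      (Nat.cast_nonneg _) hX0.le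
    linarith [mul_le_mul_of_nonneg_left this hL0.le]
  have T2 : L * X * P ≤ 3 * T := by
    have := mul_le_mul (w1 p0 hp0).2.1 (hx.W2a n0 hn0).2.1 hP0.le (by positivity)
    linarith [mul_le_mul_of_nonneg_left this hL0.le]
  have K := fun p p' : ℕ => ks (v * q) a0 b0 (h * E * (Nat.gcdA p (v * q) - Nat.gcdA p' (v * q)))
    (h * a / (v * q) * ((p : ℝ)⁻¹ - (p' : ℝ)⁻¹)) P
    (fun n => h * E * (Nat.gcdA p (v * q) - Nat.gcdA p' (v * q)) * Nat.gcdA n (v * q)) hm0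
    (by linarith) a01 hab (by linarith) fun n hn => by
      obtain ⟨k, hk⟩ := (iv_spec hn).mul_left (h * E * (Nat.gcdA p (v * q) - Nat.gcdA p' (v * q)))
      exact ⟨k, by linear_combination hk⟩
  have R : ∀ p ∈ W1, ∀ p' ∈ W1, C * (((v * q : ℕ) : ℝ) + N * (v * q : ℕ) *
      |h * a / (v * q) * ((p : ℝ)⁻¹ - (p' : ℝ)⁻¹)| / P ^ 2) ≤ Z ^ 15 := fun p hp p' hp' => by
    have e1 := th_up hh (ha.trans (mul_le_mul_of_nonneg_left hXi (by positivity))) hv0' hq1 hL0 hw0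
      T1 hX0 hP0 (by linarith) (w1 p hp).2.1 (w1 p' hp').2.1
    have e2 : N * (v * q : ℕ) * |h * a / (v * q) * ((p : ℝ)⁻¹ - (p' : ℝ)⁻¹)| / P ^ 2 ≤
        P * Z ^ 5 * (18 * Z ^ 5 * P * Z ^ 3) / P ^ 2 := by
      gcongr
      exact e1.trans (by gcongr)
    rw [show P * Z ^ 5 * (18 * Z ^ 5 * P * Z ^ 3) / P ^ 2 = 18 * Z ^ 13 by field_simp] at e2
    have e3 : Z ^ 5 ≤ Z ^ 13 := pow_le_pow_right₀ (by linarith) (by norm_num)
    have e4 : 19 * Z ^ 13 ≤ Z ^ 14 := by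
      rw [pow_succ' Z 13]; exact mul_le_mul_of_nonneg_right hZ (by positivity)
    exact (mul_le_mul (show C ≤ Z by linarith) (show _ ≤ Z ^ 14 by linarith) (by positivity)
      (by linarith)).trans (le_of_eq (by ring))
  have e0 : ∑ p1 ∈ W1, ∑ p2 ∈ W2, ee ((h : ℝ) * z p1 p2 / (((v : ℤ) : ℝ) * q) +
      (h : ℝ) * a / (((v : ℤ) : ℝ) * q * (p1 * p2))) = ∑ p1 ∈ W1, ∑ p2 ∈ W2,
      ee ((h : ℝ) * z p1 p2 / (v * q : ℕ) + h * a / (v * q) / (p1 * p2)) := by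
    simp only [div_div, Int.cast_natCast, Nat.cast_mul]
  rw [e0]
  refine (pow_le_pow_iff_left₀ (norm_nonneg _) (by positivity) two_ne_zero).1 ?_
  have main := fun (f : ℕ → ℝ) hf h2 (hF : 4 * N * (∑ r ∈ Icc 1 ⌊X⌋₊, f r) * w ^ 6 ≤ X * P ^ 2) =>
    fin (r.trans (mul_le_mul_of_nonneg_left (sum_pairs hWM _ f hf hN0 (show 0 ≤ Z ^ 15 by positivity)
      (Nat.floor_le hX0.le) (fun p _ => (norm_sum_le _ _).trans (by
        simp only [norm_ee, sum_const, nsmul_eq_mul, mul_one, ← cI]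
        exact Nat.cast_le.2 (card_filter_le _ _))) h2) (Nat.cast_nonneg _)))
      (cI ▸ Nat.cast_le.2 (card_le_card hI0)) (Nat.cast_nonneg _) hN2 hw0 hwZ (by linarith) hP hX
      (sum_nonneg fun r _ => hf r) hF
  rcases hcase with hc | hc
  · have lm : 1 + Real.log (v * q : ℕ) ≤ 6 * Λ := by
      have := Real.log_le_log (by exact_mod_cast hm0) hm
      rw [Real.log_pow] at this
      push_cast at this ⊢
      linarith
    have lm0 : 0 ≤ 1 + Real.log (v * q : ℕ) := by linarith [Real.log_natCast_nonneg (v * q)]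
    refine main (fun r => C * (w ^ 4 * (6 * Λ) * N / v) * Nat.gcd r v) (fun r => by positivity)
      (fun p hp p' hp' _ => (K p p').1.trans ?_) ?_
    · have e1 := gcd_le hq0 hv0 hE hh0 (c1 p hp) (c1 p' hp')
      have e2 := mul_le_mul (mul_le_mul (e1.trans (div_le_div_of_nonneg_right
        (mul_le_mul_of_nonneg_right hh (Nat.cast_nonneg _)) hv0'.le)) lm lm0 (by positivity))
        (le_refl N) hN0 (by positivity)
      have e3 := mul_le_mul_of_nonneg_left e2 hC.le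
      rw [← hN, add_assoc, mul_add]
      exact add_le_add (e3.trans (le_of_eq (by ring))) (R p hp p' hp')
    · rw [← mul_sum]
      have e1 := (gcd_sum ⌊X⌋₊ hv0.ne').trans (mul_le_mul (Nat.floor_le hX0.le) (dv v hv0.ne')
        (Nat.cast_nonneg _) hX0.le)
      rw [← Real.sqrt_eq_rpow] at e1
      have e2 : w ^ 10 ≤ √v := Real.le_sqrt_of_sq_le (by rw [← pow_mul]; exact hc)
      have e3 := Real.mul_self_sqrt hv0'.le
      have e4 : 0 < √v := Real.sqrt_pos.2 hv0'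
      generalize √v = s at e1 e2 e3 e4
      have e5 : 96 * C * C' ≤ Λ ^ 5 := le_trans (by linarith) (le_self_pow₀ (by linarith) (by norm_num))
      have e6 : (N * Λ ^ 3) ^ 2 ≤ (2 * P) ^ 2 := pow_le_pow_left₀ (by positivity) hN1 2
      calc 4 * N * (C * (w ^ 4 * (6 * Λ) * N / v) * ∑ r ∈ Icc 1 ⌊X⌋₊, (Nat.gcd r v : ℝ)) * w ^ 6
          ≤ 4 * N * (C * (w ^ 4 * (6 * Λ) * N / v) * (X * (C' * s))) * w ^ 6 := by gcongr
        _ = X * (96 * C * C' * Λ * N ^ 2 / 4) * (w ^ 10 / s) := by rw [← e3]; field_simp; ring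
        _ ≤ X * (Λ ^ 5 * Λ * N ^ 2 / 4) * 1 := by gcongr; exact (div_le_one e4).2 e2
        _ ≤ X * P ^ 2 := by linarith [mul_le_mul_of_nonneg_left e6 hX0.le]
  · refine main (fun r => C * (3 * P * X / w ^ 19) * (r : ℝ)⁻¹) (fun r => by positivity)
      (fun p hp p' hp' hne => ?_) ?_
    · have e1 := th_low (show 1 ≤ |(h : ℝ)| by exact_mod_cast Int.one_le_abs hh0) hc hv0' hq0' hq2
        hw0 T2 hX0 hP0 (by exact_mod_cast (w1 p hp).1.pos) (by exact_mod_cast (w1 p' hp').1.pos)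
        (w1 p hp).2.2 (w1 p' hp').2.2
      have e2 : 0 < |(p : ℝ) - p'| := abs_pos.2 (sub_ne_zero.2 (by exact_mod_cast hne.symm))
      have e3 := lt_of_lt_of_le (by positivity) e1
      refine ((K p p').2 (abs_pos.1 e3)).trans ?_
      rw [← hN, add_assoc, mul_add]
      refine add_le_add ?_ (R p hp p' hp')
      refine (mul_le_mul_of_nonneg_left (div_le_div_of_nonneg_left (sq_nonneg P) (by positivity) e1)
        hC.le).trans (le_of_eq ?_)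
      rw [Nat.cast_natAbs]
      push_cast
      field_simp
    · rw [← mul_sum]
      have e1 : ∑ r ∈ Icc 1 ⌊X⌋₊, (r : ℝ)⁻¹ ≤ 2 * Λ := by
        have f1 := Real.log_le_log (by exact_mod_cast (mem_Icc.1 (hWM hp0)).1.trans (mem_Icc.1
          (hWM hp0)).2) (Nat.floor_le hX0.le)
        rw [hXd, Real.log_exp, ← hXd] at f1
        linarith [inv_sum ⌊X⌋₊, hx.t1b]
      have e2 : Λ ^ 2 ≤ w := (pow_le_pow_right₀ (by linarith) (by norm_num)).trans hΛw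
      have e3 : w ≤ w ^ 13 := le_self_pow₀ ((one_le_pow₀ (by linarith)).trans e2) (by norm_num)
      calc 4 * N * (C * (3 * P * X / w ^ 19) * ∑ r ∈ Icc 1 ⌊X⌋₊, (r : ℝ)⁻¹) * w ^ 6
          ≤ 4 * P * (C * (3 * P * X / w ^ 19) * (2 * Λ)) * w ^ 6 := by gcongr
        _ = X * P ^ 2 * (24 * C * Λ / w ^ 13) := by field_simp; ring
        _ ≤ X * P ^ 2 * 1 := by
          gcongr
          rw [div_le_one (by positivity)]
          linarith [mul_le_mul_of_nonneg_right (show 24 * C ≤ Λ by linarith) (show 0 ≤ Λ by linarith)]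
        _ = _ := mul_one _

end Pool.Agent.P.MP_26a8c3_nt.EC
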