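import Pool.Agent.P.MP_26a8c3_nt.EC.Base

/-! The saving over the good stopping nodes, from the saving over one box. -/

namespace Pool.Agent.P.MP_26a8c3_nt.EC

open Finset
open scoped Classical

namespace Box

lemma mem_Sel {w : ℕ → Finset ℕ} {ω ρ : Finset ℕ} :
    ρ ∈ Sel w ω ↔ ρ ⊆ ω.biUnion w ∧ ∀ j ∈ ω, (ρ ∩ w j).card = 1 := by
  rw [Sel, mem_filter, mem_powerset]

lemma sel_disj {w : ℕ → Finset ℕ} (hw : ∀ i j, i ≠ j → Disjoint (w i) (w j)) {ω ρ : Finset ℕ}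
    (h : ρ ∈ Sel w ω) {j : ℕ} (hj : j ∉ ω) : Disjoint ρ (w j) := by
  refine disjoint_left.2 fun p hp hq => ?_
  obtain ⟨i, hi, hpi⟩ := mem_biUnion.1 ((mem_Sel.1 h).1 hp)
  exact disjoint_left.1 (hw i j fun e => hj (e ▸ hi)) hpi hq

lemma sel_union {w : ℕ → Finset ℕ} (hw : ∀ i j, i ≠ j → Disjoint (w i) (w j))
    {ω1 ω2 ρ1 ρ2 : Finset ℕ} (hd : Disjoint ω1 ω2) (h1 : ρ1 ∈ Sel w ω1) (h2 : ρ2 ∈ Sel w ω2) :
    ρ1 ∪ ρ2 ∈ Sel w (ω1 ∪ ω2) ∧ Disjoint ρ1 ρ2 := by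
  refine ⟨mem_Sel.2 ⟨union_subset ((mem_Sel.1 h1).1.trans (biUnion_subset_biUnion_of_subset_left _
    subset_union_left)) ((mem_Sel.1 h2).1.trans (biUnion_subset_biUnion_of_subset_left _
    subset_union_right)), fun j hj => ?_⟩, ?_⟩
  · rw [union_inter_distrib_right]
    rcases mem_union.1 hj with hj | hj
    · rw [disjoint_iff_inter_eq_empty.1 (sel_disj hw h2 (disjoint_left.1 hd hj)), union_empty]
      exact (mem_Sel.1 h1).2 j hj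
    · rw [disjoint_iff_inter_eq_empty.1 (sel_disj hw h1 (disjoint_right.1 hd hj)), empty_union]
      exact (mem_Sel.1 h2).2 j hj
  · refine disjoint_left.2 fun p hp hq => ?_
    obtain ⟨i, hi, hpi⟩ := mem_biUnion.1 ((mem_Sel.1 h2).1 hq)
    exact disjoint_left.1 (sel_disj hw h1 (disjoint_right.1 hd hi)) hp hpi

lemma sel_single {w : ℕ → Finset ℕ} {j p : ℕ} (hp : p ∈ w j) : ({p} : Finset ℕ) ∈ Sel w {j} := by
  refine mem_Sel.2 ⟨?_, fun i hi => ?_⟩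
  · rw [singleton_biUnion]
    exact singleton_subset_iff.2 hp
  · rw [mem_singleton.1 hi, singleton_inter_of_mem hp, card_singleton]

/-- The sifted multiples of a node are counted by a sifted short interval. -/
lemma Sf_le {u Z A N μ : ℕ} {s : Finset ℕ} (hs : s ⊆ PR u Z) (hne : s.Nonempty)
    (h28 : ∀ p ∈ s, 28 * μ ≤ tau p) :
    Sf u Z A N s ≤ cop (pv (PR u (28 * μ - 1))) (A / pv s) (A / pv s + N / pv s + 1) := by
  have hd : 0 < pv s := pv_pos fun p hp => (mem_PR.1 (hs hp)).1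
  unfold Sf cop
  refine card_le_card_of_injOn (fun n => n / pv s) (fun n hn => ?_) (fun a ha b hb hab => ?_)
  · obtain ⟨h1, ⟨m, rfl⟩, h3⟩ := mem_filter.1 (mem_coe.1 hn)
    obtain ⟨h4, h5⟩ := mem_Ioc.1 h1
    have e : pv s * m / pv s = m := Nat.mul_div_cancel_left _ hd
    refine mem_coe.2 (mem_filter.2 ⟨mem_Ioc.2 ⟨?_, ?_⟩, ?_⟩)
    · show A / pv s < pv s * m / pv s
      rw [e, Nat.div_lt_iff_lt_mul hd, mul_comm]
      exact h4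
    · exact (Nat.div_le_div_right h5).trans (Nat.add_div_le_div_add_div_add_one _ _ _)
    · show Nat.Coprime (pv s * m / pv s) _
      rw [e, coprime_pv fun p hp => (mem_PR.1 hp).1]
      intro q hq hqm
      obtain ⟨q1, q2, q3⟩ := mem_PR.1 hq
      have m1 := mn_mem hne
      have m2 := h28 _ m1
      have m3 := (mem_PR.1 (hs m1)).2.2
      have m4 := one_le_tau q1
      have q4 : tau q < tau (mn s) := by omega
      exact h3 q (mem_PR.2 ⟨q1, q2, by omega⟩) (lt_of_tau_lt q4) (hqm.mul_left _)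
  · obtain ⟨-, ⟨m, rfl⟩, -⟩ := mem_filter.1 (mem_coe.1 ha)
    obtain ⟨-, ⟨m', rfl⟩, -⟩ := mem_filter.1 (mem_coe.1 hb)
    have : pv s * m / pv s = pv s * m' / pv s := hab
    rw [Nat.mul_div_cancel_left _ hd, Nat.mul_div_cancel_left _ hd] at this
    rw [this]

lemma mem_SG {Λ : ℝ} {u Z Δ μ : ℕ} {s : Finset ℕ} (h : s ∈ SG Λ u Z Δ μ) :
    s ⊆ PR u Z ∧ tree Δ s ∧ Even s.card ∧ Δ ≤ ts s + 43 * μ ∧ ts s + 37 * μ ≤ Δ ∧
      (∀ p ∈ s, 28 * μ ≤ tau p) ∧ s.Nonempty ∧ ga Λ s ∧ gb s := by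
  obtain ⟨h1, h2, h3⟩ := mem_filter.1 h
  obtain ⟨h4, h5, h6, h7, h8, h9, p, hp, -⟩ := mem_filter.1 h1
  exact ⟨mem_powerset.1 h4, h5, h6, h7, h8, h9, ⟨p, hp⟩, h2, h3⟩

/-- The length attached to a good node. -/
lemma len {N u Z μ : ℕ} {s : Finset ℕ} (hN : 0 < N) (h1 : 1 ≤ Real.log (Real.log N))
    (h2 : 6 * Real.log (Real.log N) ≤ Real.log N) (h3 : 17 * Real.log (Real.log N) ≤ μ)
    (h : s ∈ SG (Real.log N) u Z (DL N) μ) :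
    Real.exp (37 * μ) ≤ (N : ℝ) / pv s ∧ (N : ℝ) / pv s ≤ Real.exp (44 * μ) := by
  obtain ⟨a1, -, -, a4, a5, -, -, a8, -⟩ := mem_SG h
  have hp : ∀ p ∈ s, p.Prime := fun p hp => (mem_PR.1 (a1 hp)).1
  have hd : (0 : ℝ) < pv s := by exact_mod_cast pv_pos hp
  have hN' : (0 : ℝ) < N := by exact_mod_cast hN
  have b1 := log_pv_le hp
  have b2 := le_log_pv hp
  have b3 : (DL N : ℝ) ≤ Real.log N - 6 * Real.log (Real.log N) := Nat.floor_le (by linarith)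
  have b4 : Real.log N - 6 * Real.log (Real.log N) < (DL N : ℝ) + 1 := Nat.lt_floor_add_one _
  have b5 : (DL N : ℝ) ≤ ts s + 43 * μ := by exact_mod_cast a4
  have b6 : (ts s : ℝ) + 37 * μ ≤ DL N := by exact_mod_cast a5
  have b7 := a8.1
  rw [← Real.le_log_iff_exp_le (div_pos hN' hd), ← Real.log_le_iff_le_exp (div_pos hN' hd),
    Real.log_div hN'.ne' hd.ne']
  constructor <;> linarith

/-- The thresholds. -/
lemma thr (c Λ0 : ℝ) : ∃ N0 : ℕ, ∀ N : ℕ, N0 ≤ N → 0 < N ∧ Λ0 ≤ Real.log N ∧ 1 ≤ Real.log N ∧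
    1 ≤ Real.log (Real.log N) ∧ c * Real.log (Real.log N) ≤ Real.log N := by
  have t1 : Filter.Tendsto (fun N : ℕ => Real.log N) Filter.atTop Filter.atTop :=
    Real.tendsto_log_atTop.comp tendsto_natCast_atTop_atTop
  have t2 := Real.tendsto_log_atTop.comp t1
  have t3 : ∀ᶠ x : ℝ in Filter.atTop, c * Real.log x ≤ x := by
    have hc : 0 < (|c| + 1)⁻¹ := by positivity
    filter_upwards [Real.isLittleO_log_id_atTop.bound hc, Filter.eventually_ge_atTop 1]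
      with x hx hx1
    have l0 := Real.log_nonneg hx1
    rw [Real.norm_of_nonneg l0, id, Real.norm_of_nonneg (by linarith), ← div_eq_inv_mul,
      le_div_iff₀ (by positivity)] at hx
    nlinarith [le_abs_self c]
  have := (Filter.eventually_gt_atTop 0).and ((t1.eventually_ge_atTop Λ0).and
    ((t1.eventually_ge_atTop 1).and ((t2.eventually_ge_atTop 1).and (t1.eventually t3))))
  exact Filter.eventually_atTop.1 this

/-- The splitting of the windows. -/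
lemma split {g : ℕ → ℕ} {r e : Finset ℕ} {p k : ℕ} (hg : Set.InjOn g (r : Set ℕ)) (he : e ⊆ r)
    (hk : e.card = 2 * k) (hp : p ∈ r) (hpe : p ∉ e) :
    ∃ ω0 ω1 ω2 : Finset ℕ, r.image g = ω0 ∪ ({g p} ∪ (ω1 ∪ ω2)) ∧ ω1 ∪ ω2 = e.image g ∧
      ω1.card = k ∧ ω2.card = k ∧ Disjoint ω1 ω2 ∧ Disjoint {g p} (ω1 ∪ ω2) ∧
      Disjoint ω0 ({g p} ∪ (ω1 ∪ ω2)) := by
  have hc : (e.image g).card = 2 * k := by
    rw [card_image_of_injOn (hg.mono (coe_subset.2 he)), hk]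
  obtain ⟨ω1, h1, h2⟩ := exists_subset_card_eq (s := e.image g) (n := k) (by omega)
  have h3 : ω1 ∪ (e.image g \ ω1) = e.image g := union_sdiff_of_subset h1
  refine ⟨r.image g \ ({g p} ∪ e.image g), ω1, e.image g \ ω1, ?_, h3, h2, ?_, disjoint_sdiff, ?_, ?_⟩
  · rw [h3, sdiff_union_of_subset]
    exact union_subset (singleton_subset_iff.2 (mem_image_of_mem _ hp)) (image_subset_image he)
  · rw [card_sdiff_of_subset h1]
    omega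
  · rw [h3, disjoint_singleton_left]
    intro h
    obtain ⟨q, hq, e1⟩ := mem_image.1 h
    exact hpe (hg (he hq) hp e1 ▸ hq)
  · rw [h3]
    exact sdiff_disjoint

end Box

open Box in
theorem pBox (hSel : S_Sel) (hInv : S_Inv) (hFib : S_Fib) (hDec : S_Dec) (hBox1 : S_Box1) :
    S_Box := by
  obtain ⟨u1, h⟩ := hBox1
  refine ⟨u1, fun u hu => ?_⟩
  obtain ⟨δ, B0, hδ0, hδ1, h⟩ := h u hu
  refine ⟨δ, max B0 17, hδ0, hδ1, fun B => ?_⟩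
  obtain ⟨k, hk⟩ : ∃ k : ℕ, 88 * B ≤ k := ⟨_, Nat.le_ceil _⟩
  obtain ⟨Λ0, h⟩ := h B k hk
  obtain ⟨N0, hN0⟩ := thr (3 ^ k * 43 * |B| + 8) Λ0
  refine ⟨N0, fun N μ A hN hμ1 hμ2 => ?_⟩
  obtain ⟨n1, n2, n3, n4, n5⟩ := hN0 N hN
  have l0 : 0 ≤ Real.log (Real.log N) := by linarith
  have m1 : B0 * Real.log (Real.log N) ≤ μ :=
    (mul_le_mul_of_nonneg_right (le_max_left _ _) l0).trans hμ1
  have m2 : 17 * Real.log (Real.log N) ≤ μ :=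
    (mul_le_mul_of_nonneg_right (le_max_right _ _) l0).trans hμ1
  have m3 : (μ : ℝ) ≤ |B| * Real.log (Real.log N) :=
    hμ2.trans (mul_le_mul_of_nonneg_right (le_abs_self _) l0)
  have m4 : (3 : ℝ) ^ k * (43 * μ) ≤ 3 ^ k * (43 * (|B| * Real.log (Real.log N))) := by gcongr
  have m5 : (0 : ℝ) ≤ 3 ^ k * (43 * μ) := by positivity
  have m6 : 6 * Real.log (Real.log N) ≤ Real.log N := by nlinarith
  have b3 : (DL N : ℝ) ≤ Real.log N - 6 * Real.log (Real.log N) := Nat.floor_le (by linarith)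
  have b4 : Real.log N - 6 * Real.log (Real.log N) < (DL N : ℝ) + 1 := Nat.lt_floor_add_one _
  have m7 : 3 ^ k * (43 * μ) < DL N := by
    have : ((3 ^ k * (43 * μ) : ℕ) : ℝ) < DL N := by
      push_cast
      nlinarith
    exact_mod_cast this
  have hlen := fun s => len (u := u) (Z := ZZ N) (s := s) n1 n4 m6 m2
  generalize Real.log (N : ℝ) = Λ at *
  generalize DL N = Δ at *
  generalize ZZ N = Z at *
  have hF := one_le_FF n3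
  have hw := fw_disjoint (FF Λ)
  refine hFib Λ u Z Δ μ _ n3 fun s hs => ?_
  obtain ⟨a1, a2, a3, a4, -, a6, a7, ⟨-, g2, g3, g4⟩, a9⟩ := mem_SG hs
  obtain ⟨e, e1, e2, e3, e4, e5, e6⟩ := hDec k Δ (43 * μ) s a2 a3 a4 m7
  have e7 : e ⊆ rest s := fun p hp => mem_erase.2 ⟨fun a => e3 (a ▸ hp), e1 hp⟩
  obtain ⟨ω0, ω1, ω2, o1, o2, o3, o4, o5, o6, o7⟩ := split g3 e7 e2 e5 e4
  have hI := hInv Λ u Z Δ μ n3 s hs
  obtain ⟨s1, s2, -⟩ := hSel _ hw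
  rw [o1] at hI ⊢
  have t1 : (tau (top s) : ℝ) ≤ Λ := by
    have h1 : ((3 * tau (top s) : ℕ) : ℝ) ≤ Δ := by exact_mod_cast tree_top a2 (top_mem a7)
    push_cast at h1
    have h2 : (0 : ℝ) ≤ tau (top s) := Nat.cast_nonneg _
    linarith
  have a10 : tau (top (rest s)) < tau (top s) := a9
  generalize tau (top s) = t at hI t1 a10 ⊢
  have E : ∀ g : Finset ℕ → ℝ,
      ∑ ρ ∈ Sel (fw (FF Λ)) (ω0 ∪ ({fi (FF Λ) (top (rest s))} ∪ (ω1 ∪ ω2))), g ρ =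
      ∑ ρ0 ∈ Sel (fw (FF Λ)) ω0, ∑ p2 ∈ fw (FF Λ) (fi (FF Λ) (top (rest s))),
        ∑ ρ1 ∈ Sel (fw (FF Λ)) ω1, ∑ ρ2 ∈ Sel (fw (FF Λ)) ω2, g (ρ0 ∪ ({p2} ∪ (ρ1 ∪ ρ2))) := by
    intro g
    rw [s1 _ _ _ o7]
    refine sum_congr rfl fun ρ0 _ => ?_
    rw [s1 _ _ _ o6, s2]
    exact sum_congr rfl fun p2 _ => s1 _ _ _ o5
  rw [sum_congr rfl fun p1 _ => E _, sum_comm]
  refine sum_nonpos fun ρ0 h0 => ?_
  have key : ∀ p1 ∈ PR t t, ∀ p2 ∈ fw (FF Λ) (fi (FF Λ) (top (rest s))),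
      ∀ ρ1 ∈ Sel (fw (FF Λ)) ω1, ∀ ρ2 ∈ Sel (fw (FF Λ)) ω2,
      insert p1 (ρ0 ∪ ({p2} ∪ (ρ1 ∪ ρ2))) ∈ SG Λ u Z Δ μ ∧
        pv (insert p1 (ρ0 ∪ ({p2} ∪ (ρ1 ∪ ρ2)))) = pv ρ0 * (p1 * p2 * (pv ρ1 * pv ρ2)) := by
    intro p1 h1 p2 h2 ρ1 h3 ρ2 h4
    obtain ⟨c1, d1⟩ := sel_union hw o5 h3 h4
    obtain ⟨c2, d2⟩ := sel_union hw o6 (sel_single h2) c1
    obtain ⟨c3, d3⟩ := sel_union hw o7 h0 c2
    obtain ⟨i1, i2, i3, -⟩ := hI p1 h1 _ c3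
    have i4 : p1 ∉ ρ0 ∪ ({p2} ∪ (ρ1 ∪ ρ2)) := by
      rw [← i3, rest, i2]
      exact notMem_erase _ _
    refine ⟨i1, ?_⟩
    rw [pv_insert i4, pv_union d3, pv_union d2, pv_union d1, show pv {p2} = p2 from prod_singleton _ _]
    ring
  have kd : ∀ p1 ∈ PR t t, ∀ p2 ∈ fw (FF Λ) (fi (FF Λ) (top (rest s))),
      ∀ ρ1 ∈ Sel (fw (FF Λ)) ω1, ∀ ρ2 ∈ Sel (fw (FF Λ)) ω2,
      (N : ℝ) / pv ρ0 / ((p1 * p2 * (pv ρ1 * pv ρ2) : ℕ) : ℝ) =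
        (N : ℝ) / pv (insert p1 (ρ0 ∪ ({p2} ∪ (ρ1 ∪ ρ2)))) := by
    intro p1 h1 p2 h2 ρ1 h3 ρ2 h4
    rw [(key p1 h1 p2 h2 ρ1 h3 ρ2 h4).2, div_div, Nat.cast_mul (pv ρ0)]
  refine le_trans ?_ (h Λ (N / pv ρ0) μ t (fi (FF Λ) (top (rest s))) (A / pv ρ0) ω1 ω2 n2 m1 hμ2
    o5 o3 o4 t1 ?_ (g4 _ e5) ?_ ?_)
  · refine sum_le_sum fun p1 h1 => sum_le_sum fun p2 h2 => sum_le_sum fun ρ1 h3 =>
      sum_le_sum fun ρ2 h4 => ?_
    obtain ⟨k1, k2⟩ := key p1 h1 p2 h2 ρ1 h3 ρ2 h4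
    obtain ⟨c1, -, -, -, -, c6, c7, -⟩ := mem_SG k1
    rw [kd p1 h1 p2 h2 ρ1 h3 ρ2 h4, Nat.div_div_eq_div_mul, ← k2, Nat.floor_div_eq_div]
    exact sub_le_sub_right (Nat.cast_le.2 (Sf_le c1 c7 c6)) _
  · intro j hj
    rw [o2] at hj
    obtain ⟨p, hp, rfl⟩ := mem_image.1 hj
    refine ⟨g4 p (e7 hp), fun q hq => ?_⟩
    rw [tau_eq_of_fi hF ((mem_fw hF).1 hq).2]
    exact ⟨a6 p (e1 hp), e6 p hp⟩
  · intro q hq
    rw [tau_eq_of_fi hF ((mem_fw hF).1 hq).2]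
    exact ⟨g2, a10⟩
  · intro p1 h1 p2 h2 ρ1 h3 ρ2 h4
    rw [kd p1 h1 p2 h2 ρ1 h3 ρ2 h4]
    exact hlen _ (key p1 h1 p2 h2 ρ1 h3 ρ2 h4).1

end Pool.Agent.P.MP_26a8c3_nt.EC
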