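import Pool.Agent.P.MP_26a8c3_nt.EC.Base

/-! One box: sampling the fine windows and applying the key proposition. -/

namespace Pool.Agent.P.MP_26a8c3_nt.EC

open Finset
open scoped Classical

namespace Box1

lemma mem_Sel {w : ℕ → Finset ℕ} {ω ρ : Finset ℕ} :
    ρ ∈ Sel w ω ↔ ρ ⊆ ω.biUnion w ∧ ∀ j ∈ ω, (ρ ∩ w j).card = 1 := by
  rw [Sel, mem_filter, mem_powerset]

lemma ex_win {w : ℕ → Finset ℕ} {ω ρ : Finset ℕ} (h : ρ ∈ Sel w ω) {p : ℕ} (hp : p ∈ ρ) :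
    ∃ j ∈ ω, p ∈ w j := mem_biUnion.1 ((mem_Sel.1 h).1 hp)

lemma Sel_disj {w : ℕ → Finset ℕ} (hw : ∀ i j, i ≠ j → Disjoint (w i) (w j))
    {ω1 ω2 ρ1 ρ2 : Finset ℕ} (hd : Disjoint ω1 ω2) (h1 : ρ1 ∈ Sel w ω1) (h2 : ρ2 ∈ Sel w ω2) :
    Disjoint ρ1 ρ2 := disjoint_left.2 fun p a b => by
  obtain ⟨i, hi, hpi⟩ := ex_win h1 a
  obtain ⟨j, hj, hpj⟩ := ex_win h2 b
  have hij : i ≠ j := fun e => disjoint_left.1 hd hi (e ▸ hj)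
  exact disjoint_left.1 (hw i j hij) hpi hpj

lemma Sel_mono {w w' : ℕ → Finset ℕ} (hw : ∀ i j, i ≠ j → Disjoint (w i) (w j))
    (hs : ∀ j, w' j ⊆ w j) {ω ρ : Finset ℕ} (h : ρ ∈ Sel w' ω) : ρ ∈ Sel w ω := by
  refine mem_Sel.2 ⟨fun p hp => ?_, fun j hj => ?_⟩
  · obtain ⟨i, hi, hpi⟩ := ex_win h hp
    exact mem_biUnion.2 ⟨i, hi, hs i hpi⟩
  · rw [← (mem_Sel.1 h).2 j hj]
    congr 1
    ext p
    rw [mem_inter, mem_inter]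
    refine ⟨fun a => ⟨a.1, ?_⟩, fun a => ⟨a.1, hs j a.2⟩⟩
    obtain ⟨i, -, hpi⟩ := ex_win h a.1
    by_cases e : i = j
    · exact e ▸ hpi
    · exact absurd a.2 (disjoint_left.1 (hw i j e) (hs i hpi))

lemma num (c : ℝ) (hc : 0 < c) : ∃ Λ0 : ℝ, ∀ Λ : ℝ, Λ0 ≤ Λ →
    c * (√Λ + 1) * Real.log Λ ≤ Λ ^ (51 / 100 : ℝ) := by
  have h := (isLittleO_log_rpow_atTop (r := 1 / 100) (by norm_num)).bound
    (c := 1 / (2 * c)) (by positivity)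
  obtain ⟨a, ha⟩ := Filter.eventually_atTop.1 h
  refine ⟨max a 1, fun Λ hΛ => ?_⟩
  have h1 : 1 ≤ Λ := le_trans (le_max_right _ _) hΛ
  have h0 : 0 < Λ := by linarith
  have h2 := ha Λ (le_trans (le_max_left _ _) hΛ)
  have h3 : 0 ≤ Real.log Λ := Real.log_nonneg h1
  have h4 : 0 < Λ ^ (1 / 100 : ℝ) := Real.rpow_pos_of_pos h0 _
  rw [Real.norm_of_nonneg h3, Real.norm_of_nonneg h4.le] at h2
  have h5 : 1 ≤ √Λ := Real.one_le_sqrt.2 h1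
  have h6 : Λ ^ (51 / 100 : ℝ) = √Λ * Λ ^ (1 / 100 : ℝ) := by
    rw [Real.sqrt_eq_rpow, ← Real.rpow_add h0]
    norm_num
  have h7 : 2 * c * Real.log Λ ≤ Λ ^ (1 / 100 : ℝ) := by
    have := mul_le_mul_of_nonneg_left h2 (by positivity : (0 : ℝ) ≤ 2 * c)
    rwa [← mul_assoc, mul_one_div_cancel (by positivity), one_mul] at this
  rw [h6]
  calc c * (√Λ + 1) * Real.log Λ ≤ c * (2 * √Λ) * Real.log Λ := by gcongr; linarith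
    _ = √Λ * (2 * c * Real.log Λ) := by ring
    _ ≤ _ := by gcongr

lemma fine {Λ m : ℝ} (hΛ : 1 ≤ Λ) (hm : 0 ≤ m) (hm' : 2 * m ≤ Λ) :
    Real.exp (m / FF Λ) ≤ 1 + (Λ ^ 3)⁻¹ := by
  have h0 : 0 < Λ := by linarith
  have h1 : Λ ^ 4 ≤ FF Λ := Nat.le_ceil _
  have h2 : m / FF Λ ≤ (Λ / 2) / Λ ^ 4 :=
    div_le_div₀ (by positivity) (by linarith) (by positivity) h1
  have h3 : (Λ / 2) / Λ ^ 4 = (Λ ^ 3)⁻¹ / 2 := by field_simp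
  have h4 : (Λ ^ 3)⁻¹ ≤ 1 := inv_le_one_of_one_le₀ (one_le_pow₀ hΛ)
  have h5 : 0 ≤ m / FF Λ := by positivity
  have h6 := Real.abs_exp_sub_one_le (x := m / FF Λ) (by rw [abs_of_nonneg h5]; linarith)
  rw [abs_of_nonneg h5] at h6
  linarith [(abs_le.1 h6).2]

lemma rc_le {W : Finset ℕ} {x : ℝ} (hx : 0 < x) (h : ∀ p ∈ W, x ≤ (p : ℝ)) :
    x * rc W ≤ W.card := by
  have h2 : rc W ≤ W.card * x⁻¹ := by
    rw [← nsmul_eq_mul]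
    exact sum_le_card_nsmul _ _ _ fun p hp => inv_anti₀ hx (h p hp)
  rw [← div_eq_mul_inv, le_div_iff₀ hx] at h2
  linarith

lemma win2 {Λ : ℝ} {j2 t1 : ℕ} (hΛ : 2 ≤ Λ) (h1 : (Λ ^ 9)⁻¹ ≤ rc (fw (FF Λ) j2))
    (h2 : ∀ p ∈ fw (FF Λ) j2, Λ ^ (3 / 5 : ℝ) ≤ (tau p : ℝ) ∧ tau p < t1) :
    ∃ P2 : ℝ, 0 < P2 ∧ Λ ^ (3 / 5 : ℝ) ≤ (t1 : ℝ) ∧ Real.exp (Λ ^ (3 / 5 : ℝ) - 2) ≤ P2 ∧
      (∀ p ∈ fw (FF Λ) j2, p.Prime ∧ P2 ≤ (p : ℝ) ∧ (p : ℝ) ≤ P2 * (1 + (Λ ^ 3)⁻¹) ∧ tau p < t1) ∧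
      P2 * (Λ ^ 9)⁻¹ ≤ ((fw (FF Λ) j2).card : ℝ) := by
  have hF := one_le_FF (Λ := Λ) (by linarith)
  have hF' : (1 : ℝ) ≤ FF Λ := by exact_mod_cast hF
  have hne : (fw (FF Λ) j2).Nonempty := by
    rw [nonempty_iff_ne_empty]
    intro e
    rw [e, rc, sum_empty] at h1
    exact absurd h1 (not_le.2 (by positivity))
  have hb : ∀ p ∈ fw (FF Λ) j2, p.Prime ∧ Real.exp (((j2 : ℝ) - 1) / FF Λ) ≤ p ∧
      (p : ℝ) ≤ Real.exp (((j2 : ℝ) - 1) / FF Λ) * Real.exp (1 / FF Λ) := fun p hp => by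
    obtain ⟨a, b⟩ := (mem_fw hF).1 hp
    have := fi_bounds hF a.pos
    rw [b] at this
    refine ⟨a, this.1.le, this.2.trans (le_of_eq ?_)⟩
    rw [← Real.exp_add]
    congr 1
    ring
  obtain ⟨q, hq⟩ := hne
  refine ⟨Real.exp (((j2 : ℝ) - 1) / FF Λ), Real.exp_pos _, ?_, ?_, fun p hp => ?_, ?_⟩
  · exact (h2 q hq).1.trans (by exact_mod_cast (h2 q hq).2.le)
  · obtain ⟨a, -, c⟩ := hb q hq
    have d := (exp_tau_lt a.pos).le.trans c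
    rw [← Real.exp_add, Real.exp_le_exp] at d
    have e : 1 / (FF Λ : ℝ) ≤ 1 := (div_le_one (by linarith)).2 hF'
    exact Real.exp_le_exp.2 (by linarith [(h2 q hq).1])
  · obtain ⟨a, b, c⟩ := hb p hp
    exact ⟨a, b, c.trans (mul_le_mul_of_nonneg_left
      (fine (by linarith) zero_le_one (by linarith)) (Real.exp_pos _).le), (h2 p hp).2⟩
  · exact (mul_le_mul_of_nonneg_left h1 (Real.exp_pos _).le).trans
      (rc_le (Real.exp_pos _) fun p hp => (hb p hp).2.1)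

lemma card_win {Λ : ℝ} {μ : ℕ} {W : Finset ℕ} (hΛ : 4 ≤ Λ) (hμ : Real.log Λ ≤ μ)
    (h1 : (Λ ^ 9)⁻¹ ≤ rc W) (h2 : ∀ p ∈ W, p.Prime ∧ 28 * μ ≤ tau p) : ⌈√Λ⌉₊ ≤ W.card := by
  have h0 : 0 < Λ := by linarith
  have hl : 1 ≤ Real.log Λ := by
    rw [Real.le_log_iff_exp_le h0]
    linarith [Real.exp_one_lt_d9]
  have h3 : Λ ^ 10 * rc W ≤ W.card := rc_le (by positivity) fun p hp => by
    refine le_trans ?_ (exp_tau_lt (h2 p hp).1.pos).le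
    have e : Λ ^ 10 = Real.exp (10 * Real.log Λ) := by
      rw [show (10 : ℝ) = (10 : ℕ) by norm_num, Real.exp_nat_mul, Real.exp_log h0]
    have f : ((28 * μ : ℕ) : ℝ) ≤ tau p := by exact_mod_cast (h2 p hp).2
    push_cast at f
    rw [e]
    exact Real.exp_le_exp.2 (by linarith)
  have h4 : Λ ≤ Λ ^ 10 * rc W := by
    calc Λ = Λ ^ 10 * (Λ ^ 9)⁻¹ := by field_simp
      _ ≤ _ := by gcongr
  refine Nat.ceil_le.2 (le_trans ?_ (h4.trans h3))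
  rw [Real.sqrt_le_left h0.le]
  nlinarith

lemma Sel_prime {F : ℕ} (hF : 1 ≤ F) {ω ρ : Finset ℕ} (h : ρ ∈ Sel (fw F) ω) :
    ∀ p ∈ ρ, p.Prime := fun _ hp => by
  obtain ⟨j, -, hj⟩ := ex_win h hp
  exact ((mem_fw hF).1 hj).1

lemma log_sel (hSel : S_Sel) {F : ℕ} (hF : 1 ≤ F) {ω ρ : Finset ℕ} (h : ρ ∈ Sel (fw F) ω) :
    ∑ j ∈ ω, ((j : ℝ) - 1) / F ≤ Real.log (pv ρ) ∧
      Real.log (pv ρ) ≤ ∑ j ∈ ω, ((j : ℝ) - 1) / F + ω.card / F := by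
  have h1 := (hSel (fw F) (fw_disjoint F)).2.2.2.1 ω (fun p => Real.log p)
    (fun j => ((j : ℝ) - 1) / F) (fun j => ((j : ℝ) - 1) / F + 1 / F) ρ h fun j _ p hp => by
      obtain ⟨a, b⟩ := (mem_fw hF).1 hp
      have c := fi_bounds hF a.pos
      have hp' : (0 : ℝ) < p := by exact_mod_cast a.pos
      rw [b, ← Real.lt_log_iff_exp_lt hp', ← Real.log_le_iff_le_exp hp'] at c
      refine ⟨c.1.le, c.2.trans (le_of_eq ?_)⟩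
      ring
  rw [log_pv (Sel_prime hF h)]
  refine ⟨h1.1, h1.2.trans (le_of_eq ?_)⟩
  rw [sum_add_distrib, sum_const, nsmul_eq_mul, mul_one_div]

lemma log_sel' (hSel : S_Sel) {F b : ℕ} (hF : 1 ≤ F) {ω ρ : Finset ℕ} (h : ρ ∈ Sel (fw F) ω)
    (hb : ∀ j ∈ ω, ∀ p ∈ fw F j, tau p ≤ b) : Real.log (pv ρ) ≤ ω.card * b := by
  have h1 := (hSel (fw F) (fw_disjoint F)).2.2.2.1 ω (fun p => Real.log p)
    (fun _ => 0) (fun _ => (b : ℝ)) ρ h fun j hj p hp =>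
      ⟨Real.log_natCast_nonneg p, tau_le_iff.1 (hb j hj p hp)⟩
  rw [log_pv (Sel_prime hF h)]
  simpa using h1.2

lemma PPs_sub {u μ : ℕ} {L : ℝ} (hμ : 1 ≤ μ) (h0 : 0 < L) (hL : L ≤ Real.exp (44 * μ)) :
    PPs u L ⊆ PR u (28 * μ - 1) := fun p hp => by
  obtain ⟨a, b, c⟩ := (mem_PPs h0.le).1 hp
  refine mem_PR.2 ⟨a, b, tau_le_iff.2 ?_⟩
  have h1 : Real.log p ≤ 3 / 5 * Real.log L := by
    rw [← Real.log_rpow h0]
    exact Real.log_le_log (by exact_mod_cast a.pos) c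
  have h2 : Real.log L ≤ 44 * μ := (Real.log_le_iff_le_exp h0).2 hL
  have h3 : (1 : ℝ) ≤ μ := by exact_mod_cast hμ
  rw [Nat.cast_sub (by omega)]
  push_cast
  linarith

lemma term_le {u μ a : ℕ} {δ L Y : ℝ} (hμ : 1 ≤ μ) (h0 : 0 < L) (hL : L ≤ Real.exp (44 * μ))
    (hδ : δ ≤ 1) (h1 : Real.exp (37 * μ) ≤ Y) (h2 : Y ≤ 3 * L) :
    ((cop (pv (PR u (28 * μ - 1))) a (a + ⌊Y⌋₊ + 1) : ℝ) -
      (2 - δ) * Y / (V0 u * (Real.log Y - 2))) ≤ cnt u L a Y - (2 - δ) * cs u L * Y := by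
  have hY : 0 < Y := (Real.exp_pos _).trans_le h1
  have h3 : (1 : ℝ) ≤ μ := by exact_mod_cast hμ
  have h4 : 37 * (μ : ℝ) ≤ Real.log Y := (Real.le_log_iff_exp_le hY).2 h1
  have h5 : Real.log Y ≤ Real.log 3 + Real.log L := by
    rw [← Real.log_mul (by norm_num) h0.ne']
    exact Real.log_le_log hY h2
  have h6 : Real.log 3 ≤ 2 := by linarith [Real.log_le_sub_one_of_pos (show (0 : ℝ) < 3 by norm_num)]
  have hV := V0_pos u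
  refine sub_le_sub ?_ ?_
  · refine Nat.cast_le.2 (card_le_card fun n hn => ?_)
    rw [mem_filter] at hn ⊢
    exact ⟨hn.1, hn.2.coprime_dvd_right (prod_dvd_prod_of_subset _ _ _ (PPs_sub hμ h0 hL))⟩
  · rw [cs, mul_assoc, mul_comm _ Y, ← mul_assoc, ← div_eq_mul_inv]
    refine div_le_div_of_nonneg_left (mul_nonneg (by linarith) hY.le)
      (mul_pos hV (by linarith)) ?_
    exact mul_le_mul_of_nonneg_left (by linarith) hV.le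

lemma len_aux {Λ T P2 R x1 x2 x3 : ℝ} {t1 : ℕ} (hΛ : 4 ≤ Λ) (hT : 0 < T) (hP : 0 < P2) (hR : 0 < R)
    (a1 : Real.exp (t1 - 1) ≤ x1) (b1 : x1 ≤ Real.exp t1) (a2 : P2 ≤ x2)
    (b2 : x2 ≤ P2 * (1 + (Λ ^ 3)⁻¹)) (a3 : R ≤ x3) (b3 : x3 ≤ R * (1 + (Λ ^ 3)⁻¹)) :
    T / (Real.exp t1 * (P2 * (1 + (Λ ^ 3)⁻¹)) * (R * (1 + (Λ ^ 3)⁻¹))) ≤ T / (x1 * x2 * x3) ∧
      T / (x1 * x2 * x3) ≤
        3 * (T / (Real.exp t1 * (P2 * (1 + (Λ ^ 3)⁻¹)) * (R * (1 + (Λ ^ 3)⁻¹)))) := by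
  have h1 : 0 < x1 := (Real.exp_pos _).trans_le a1
  have h2 : 0 < x2 := hP.trans_le a2
  have h3 : 0 < x3 := hR.trans_le a3
  have e0 : 0 < (Λ ^ 3)⁻¹ := by positivity
  have e1 : (Λ ^ 3)⁻¹ ≤ 1 / 64 := by
    rw [one_div]
    refine inv_anti₀ (by norm_num) ?_
    calc (64 : ℝ) = 4 ^ 3 := by norm_num
      _ ≤ _ := by gcongr
  generalize (Λ ^ 3)⁻¹ = ε at *
  constructor
  · refine div_le_div_of_nonneg_left hT.le (by positivity) ?_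
    gcongr
  · rw [← mul_div_assoc, div_le_div_iff₀ (by positivity) (by positivity)]
    have h4 : Real.exp t1 = Real.exp (t1 - 1) * Real.exp 1 := by
      rw [← Real.exp_add]
      congr 1
      ring
    have h5 : Real.exp 1 * (1 + ε) ^ 2 ≤ 3 := by
      have : Real.exp 1 * (1 + ε) ^ 2 ≤ 2.7182818286 * (1 + 1 / 64) ^ 2 := by
        gcongr
        exact Real.exp_one_lt_d9.le
      linarith [show (2.7182818286 : ℝ) * (1 + 1 / 64) ^ 2 ≤ 3 by norm_num]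
    calc T * (Real.exp t1 * (P2 * (1 + ε)) * (R * (1 + ε)))
        = T * (Real.exp (t1 - 1) * P2 * R) * (Real.exp 1 * (1 + ε) ^ 2) := by rw [h4]; ring
      _ ≤ T * (x1 * x2 * x3) * 3 := by gcongr
      _ = _ := by ring

lemma split (hSel : S_Sel) {w : ℕ → Finset ℕ} (hw : ∀ i j, i ≠ j → Disjoint (w i) (w j))
    {ω1 ω2 : Finset ℕ} (hd : Disjoint ω1 ω2) (W1 W2 : Finset ℕ) (g : ℕ → ℕ → ℕ → ℝ) :
    ∑ ρ ∈ Sel w (ω1 ∪ ω2), ∑ p1 ∈ W1, ∑ p2 ∈ W2, g p1 p2 (pv ρ) =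
      ∑ p1 ∈ W1, ∑ p2 ∈ W2, ∑ ρ1 ∈ Sel w ω1, ∑ ρ2 ∈ Sel w ω2, g p1 p2 (pv ρ1 * pv ρ2) := by
  rw [(hSel w hw).1 ω1 ω2 _ hd]
  have h1 : ∀ ρ1 ∈ Sel w ω1, ∑ ρ2 ∈ Sel w ω2, ∑ p1 ∈ W1, ∑ p2 ∈ W2, g p1 p2 (pv (ρ1 ∪ ρ2)) =
      ∑ p1 ∈ W1, ∑ p2 ∈ W2, ∑ ρ2 ∈ Sel w ω2, g p1 p2 (pv ρ1 * pv ρ2) := fun ρ1 h1 => by
    rw [sum_comm]
    refine sum_congr rfl fun p1 _ => ?_
    rw [sum_comm]
    refine sum_congr rfl fun p2 _ => sum_congr rfl fun ρ2 h2 => ?_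
    rw [pv_union (Sel_disj hw hd h1 h2)]
  rw [sum_congr rfl h1, sum_comm]
  refine sum_congr rfl fun p1 _ => ?_
  rw [sum_comm]

lemma ne_of_pos {W : Finset ℕ} {f : ℕ → ℝ} (h : 0 < ∑ p ∈ W, f p) : W.Nonempty := by
  rw [nonempty_iff_ne_empty]
  rintro rfl
  simp at h

lemma exp_le_rpow {Λ B c x : ℝ} (h0 : 0 < Λ) (h : x ≤ c * (B * Real.log Λ)) :
    Real.exp x ≤ Λ ^ (c * B) := by
  rw [Real.rpow_def_of_pos h0]
  exact Real.exp_le_exp.2 (by linarith)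

end Box1

open Box1 in
theorem pBox1 (hSel : S_Sel) (hKP : S_KP) : S_Box1 := by
  obtain ⟨u1, hKP⟩ := hKP
  refine ⟨u1, fun u hu => ?_⟩
  obtain ⟨δ, th, hδ0, hδ1, hth0, hth1, hKP⟩ := hKP u hu
  refine ⟨δ, 2 / th, hδ0, hδ1, fun B k hk => ?_⟩
  obtain ⟨Λ1, hKP⟩ := hKP ((44 + k * (3 ^ k * 43)) * B)
  obtain ⟨Λ2, hnum⟩ := num ((2 * k * (3 ^ k * 43) + 1) * max B 1) (by positivity)
  refine ⟨max (max Λ1 Λ2) (max 4 (4 * k)),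
    fun Λ T μ t1 j2 A ω1 ω2 hΛ hμ0 hμ1 hd hc1 hc2 ht1 hω hj2 hj2' hlen => ?_⟩
  have hΛ1 : Λ1 ≤ Λ := le_trans (le_trans (le_max_left _ _) (le_max_left _ _)) hΛ
  have hΛ2 : Λ2 ≤ Λ := le_trans (le_trans (le_max_right _ _) (le_max_left _ _)) hΛ
  have hΛ4 : 4 ≤ Λ := le_trans (le_trans (le_max_left _ _) (le_max_right _ _)) hΛ
  have hΛk : 4 * (k : ℝ) ≤ Λ := le_trans (le_trans (le_max_right _ _) (le_max_right _ _)) hΛ
  have h0 : 0 < Λ := by linarith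
  have hl : 1 ≤ Real.log Λ := by
    rw [Real.le_log_iff_exp_le h0]
    linarith [Real.exp_one_lt_d9]
  have hB0 : 2000 ≤ 2 / th := by
    rw [le_div_iff₀ hth0]
    linarith
  have hμ2 : 2000 * Real.log Λ ≤ μ := le_trans (by gcongr) hμ0
  have hμ3 : (1 : ℝ) ≤ μ := by linarith
  have hμ4 : 1 ≤ μ := by exact_mod_cast hμ3
  have hB : 1 ≤ B := by
    by_contra hB
    have : B * Real.log Λ ≤ 1 * Real.log Λ := by gcongr; linarith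
    linarith
  have hF := one_le_FF (Λ := Λ) (by linarith)
  have hw := fw_disjoint (FF Λ)
  by_contra hpos
  rw [not_le] at hpos
  set g : ℕ → ℕ → ℕ → ℝ := fun p1 p2 e =>
    ((cop (pv (PR u (28 * μ - 1))) (A / (p1 * p2 * e))
      (A / (p1 * p2 * e) + ⌊T / ((p1 * p2 * e : ℕ) : ℝ)⌋₊ + 1) : ℝ) -
      (2 - δ) * (T / ((p1 * p2 * e : ℕ) : ℝ)) /
        (V0 u * (Real.log (T / ((p1 * p2 * e : ℕ) : ℝ)) - 2))) with hg
  have hpos1 : 0 < ∑ ρ ∈ Sel (fw (FF Λ)) (ω1 ∪ ω2), ∑ p1 ∈ PR t1 t1, ∑ p2 ∈ fw (FF Λ) j2,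
      g p1 p2 (pv ρ) := by
    rw [split hSel hw hd]
    exact hpos
  have hn1 : 1 ≤ ⌈√Λ⌉₊ := Nat.ceil_pos.2 (Real.sqrt_pos.2 h0)
  obtain ⟨w', hs, hcard, hpos2⟩ := (hSel _ hw).2.2.2.2 (ω1 ∪ ω2) ⌈√Λ⌉₊ _ hn1
    (fun j hj => card_win hΛ4 (by linarith) (hω j hj).1 fun p hp =>
      ⟨((mem_fw hF).1 hp).1, ((hω j hj).2 p hp).1⟩) hpos1
  have hw' : ∀ i j, i ≠ j → Disjoint (w' i) (w' j) := fun i j hij =>
    (hw i j hij).mono (hs i) (hs j)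
  rw [split hSel hw' hd] at hpos2
  have hm : ∀ {ω ρ : Finset ℕ}, ρ ∈ Sel w' ω → ρ ∈ Sel (fw (FF Λ)) ω := fun h => Sel_mono hw hs h
  have hpr : ∀ {ω ρ : Finset ℕ}, ρ ∈ Sel w' ω → ∀ p ∈ ρ, p.Prime := fun h => Sel_prime hF (hm h)
  have hinj : ∀ ω : Finset ℕ, Set.InjOn pv (Sel w' ω : Set (Finset ℕ)) := fun ω a ha b hb e =>
    pv_inj (hpr ha) (hpr hb) e
  have hck : ∀ ω ⊆ ω1 ∪ ω2, ω.card = k → ((Sel w' ω).image pv).card = ⌈√Λ⌉₊ ^ k := fun ω a b => by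
    rw [card_image_of_injOn (hinj ω), (hSel w' hw').2.2.1 ω,
      prod_congr rfl fun j hj => hcard j (a hj), prod_const, b]
  obtain ⟨P2, hP0, hP1, hP2, hP3, hP4⟩ := win2 (by linarith) hj2 hj2'
  set R : ℝ := Real.exp (∑ j ∈ ω1, ((j : ℝ) - 1) / FF Λ + ∑ j ∈ ω2, ((j : ℝ) - 1) / FF Λ) with hR
  have hR0 : 0 < R := Real.exp_pos _
  have hRb : ∀ ρ1 ∈ Sel w' ω1, ∀ ρ2 ∈ Sel w' ω2, R ≤ ((pv ρ1 * pv ρ2 : ℕ) : ℝ) ∧
      ((pv ρ1 * pv ρ2 : ℕ) : ℝ) ≤ R * (1 + (Λ ^ 3)⁻¹) := fun ρ1 h1 ρ2 h2 => by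
    have a1 : (0 : ℝ) < pv ρ1 := by exact_mod_cast pv_pos (hpr h1)
    have a2 : (0 : ℝ) < pv ρ2 := by exact_mod_cast pv_pos (hpr h2)
    have b1 := log_sel hSel hF (hm h1)
    have b2 := log_sel hSel hF (hm h2)
    rw [hc1] at b1
    rw [hc2] at b2
    rw [Nat.cast_mul, ← Real.exp_log (mul_pos a1 a2), Real.log_mul a1.ne' a2.ne']
    refine ⟨Real.exp_le_exp.2 (by linarith [b1.1, b2.1]), le_trans ?_ (mul_le_mul_of_nonneg_left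
      (fine (m := 2 * k) (by linarith) (by positivity) (by linarith)) hR0.le)⟩
    rw [hR, ← Real.exp_add, mul_div_assoc]
    exact Real.exp_le_exp.2 (by linarith [b1.2, b2.2])
  obtain ⟨q1, hq1⟩ := ne_of_pos hpos2
  obtain ⟨q2, hq2⟩ : (fw (FF Λ) j2).Nonempty := card_pos.1 (by
    have : (0 : ℝ) < (fw (FF Λ) j2).card := lt_of_lt_of_le (by positivity) hP4
    exact_mod_cast this)
  have hne : ∀ ω ⊆ ω1 ∪ ω2, ω.card = k → (Sel w' ω).Nonempty := fun ω a b =>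
    (card_pos.1 (by rw [hck ω a b]; positivity)).of_image
  obtain ⟨σ1, hσ1⟩ := hne ω1 subset_union_left hc1
  obtain ⟨σ2, hσ2⟩ := hne ω2 subset_union_right hc2
  have hq := hlen q1 hq1 q2 hq2 σ1 (hm hσ1) σ2 (hm hσ2)
  have hT : 0 < T := by
    have := (Real.exp_pos _).trans_le hq.1
    exact (div_pos_iff_of_pos_right (by
      have := (mem_PR.1 hq1).1.pos
      have := (hP3 q2 hq2).1.pos
      have := pv_pos (hpr hσ1)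
      have := pv_pos (hpr hσ2)
      positivity)).1 this
  set L : ℝ := T / (Real.exp t1 * (P2 * (1 + (Λ ^ 3)⁻¹)) * (R * (1 + (Λ ^ 3)⁻¹))) with hL
  have hL0 : 0 < L := by positivity
  have hLb : ∀ p1 ∈ PR t1 t1, ∀ p2 ∈ fw (FF Λ) j2, ∀ ρ1 ∈ Sel w' ω1, ∀ ρ2 ∈ Sel w' ω2,
      L ≤ T / ((p1 * p2 * (pv ρ1 * pv ρ2) : ℕ) : ℝ) ∧
        T / ((p1 * p2 * (pv ρ1 * pv ρ2) : ℕ) : ℝ) ≤ 3 * L := fun p1 a1 p2 a2 ρ1 h1 ρ2 h2 => by
    obtain ⟨b1, b2, b3⟩ := mem_PR.1 a1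
    have c1 := exp_tau_lt b1.pos
    have c2 := le_exp_tau p1
    rw [le_antisymm b3 b2] at c1 c2
    rw [Nat.cast_mul, Nat.cast_mul p1 p2]
    exact len_aux hΛ4 hT hP0 hR0 c1.le c2 (hP3 p2 a2).2.1 (hP3 p2 a2).2.2.1
      (hRb ρ1 h1 ρ2 h2).1 (hRb ρ1 h1 ρ2 h2).2
  have hq' := hLb q1 hq1 q2 hq2 σ1 hσ1 σ2 hσ2
  have hL1 : L ≤ Real.exp (44 * μ) := hq'.1.trans hq.2
  have hL2 : Real.exp (36 * μ) ≤ L := by
    have a : Real.exp (37 * μ) = Real.exp (36 * μ) * Real.exp μ := by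
      rw [← Real.exp_add]
      congr 1
      ring
    have b : 3 ≤ Real.exp μ := by linarith [Real.add_one_le_exp (μ : ℝ)]
    have c := hq.1.trans hq'.2
    have d := Real.exp_pos (36 * (μ : ℝ))
    rw [a] at c
    nlinarith
  have hk0 : (0 : ℝ) ≤ k * (3 ^ k * 43) := by positivity
  have hBl : 0 ≤ B * Real.log Λ := by positivity
  have hCx : Cx th ((44 + k * (3 ^ k * 43)) * B) Λ L P2 t1 (fw (FF Λ) j2) := by
    refine ⟨hth0, hth1, le_trans (Real.one_le_exp (by positivity)) hL2, ?_,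
      hL1.trans (exp_le_rpow h0 (by nlinarith)), hP1, ht1, hP2, hP3, hP4⟩
    have e : Λ ^ 40 = Real.exp (40 * Real.log Λ) := by
      rw [show (40 : ℝ) = (40 : ℕ) by norm_num, Real.exp_nat_mul, Real.exp_log h0]
    have a : 36 * (μ : ℝ) ≤ Real.log L := (Real.le_log_iff_exp_le hL0).2 hL2
    have b : 2 * Real.log Λ ≤ μ * th := by
      have := mul_le_mul_of_nonneg_right hμ0 hth0.le
      rwa [mul_right_comm, div_mul_cancel₀ _ hth0.ne'] at this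
    rw [e, Real.rpow_def_of_pos hL0]
    refine Real.exp_le_exp.2 ?_
    nlinarith
  have hEa : ∀ ω ⊆ ω1 ∪ ω2, ω.card = k → ∀ e ∈ (Sel w' ω).image pv,
      0 < e ∧ (e : ℝ) ≤ Λ ^ ((44 + k * (3 ^ k * 43)) * B) ∧ Nat.Coprime e (PP u L) := by
    intro ω a b e he
    obtain ⟨ρ, hρ, rfl⟩ := mem_image.1 he
    have c0 := pv_pos (hpr hρ)
    refine ⟨c0, ?_, (coprime_pv PPs_prime _).2 fun p hp hdv => ?_⟩
    · have c1 := log_sel' hSel hF (hm hρ) fun j hj p hp => ((hω j (a hj)).2 p hp).2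
      rw [b, Real.log_le_iff_le_exp (by exact_mod_cast c0)] at c1
      refine c1.trans (exp_le_rpow h0 ?_)
      push_cast
      nlinarith
    · have c1 := (prime_dvd_pv (hpr hρ) (PPs_prime p hp)).1 hdv
      obtain ⟨j, hj, hpj⟩ := ex_win (hm hρ) c1
      have c2 := ((hω j (a hj)).2 p hpj).1
      have c3 := (mem_PR.1 (PPs_sub hμ4 hL0 hL1 hp)).2.2
      omega
  have hEc : ∀ ω ⊆ ω1 ∪ ω2, ω.card = k → L ≤ (((Sel w' ω).image pv).card : ℝ) := fun ω a b => by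
    rw [hck ω a b, Nat.cast_pow]
    refine hL1.trans (le_trans ?_ (pow_le_pow_left₀ (Real.sqrt_nonneg Λ) (Nat.le_ceil _) k))
    rw [Real.sqrt_eq_rpow, ← Real.rpow_natCast, ← Real.rpow_mul h0.le, Real.rpow_def_of_pos h0]
    refine Real.exp_le_exp.2 ?_
    nlinarith
  have hMp : ∀ p ∈ (ω1 ∪ ω2).biUnion w', p.Prime ∧ tau p ≤ 3 ^ k * (43 * μ) := fun p hp => by
    obtain ⟨j, hj, hpj⟩ := mem_biUnion.1 hp
    exact ⟨((mem_fw hF).1 (hs j hpj)).1, ((hω j hj).2 p (hs j hpj)).2⟩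
  have hM0 := pv_pos fun p hp => (hMp p hp).1
  have hSx : Sx u ((44 + k * (3 ^ k * 43)) * B) Λ L T R t1 (pv ((ω1 ∪ ω2).biUnion w'))
      (fw (FF Λ) j2) ((Sel w' ω1).image pv) ((Sel w' ω2).image pv) := by
    refine ⟨fun e he => ?_, hEc ω1 subset_union_left hc1, hEc ω2 subset_union_right hc2,
      fun e1 i1 e2 i2 => ?_, hM0, ?_, fun p1 a1 p2 a2 e1 i1 e2 i2 => ?_⟩
    · rcases mem_union.1 he with he | he
      · exact hEa ω1 subset_union_left hc1 e he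
      · exact hEa ω2 subset_union_right hc2 e he
    · obtain ⟨ρ1, h1, rfl⟩ := mem_image.1 i1
      obtain ⟨ρ2, h2, rfl⟩ := mem_image.1 i2
      refine ⟨?_, hRb ρ1 h1 ρ2 h2⟩
      rw [← pv_union (Sel_disj hw' hd h1 h2)]
      refine prod_dvd_prod_of_subset _ _ _ (union_subset ?_ ?_)
      · exact (mem_Sel.1 h1).1.trans (biUnion_subset_biUnion_of_subset_left _ subset_union_left)
      · exact (mem_Sel.1 h2).1.trans (biUnion_subset_biUnion_of_subset_left _ subset_union_right)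
    · rw [← Real.log_le_iff_le_exp (by exact_mod_cast hM0)]
      refine (log_pv_le fun p hp => (hMp p hp).1).trans (le_trans ?_ (hnum Λ hΛ2))
      have a : ts ((ω1 ∪ ω2).biUnion w') ≤ ((ω1 ∪ ω2).biUnion w').card * (3 ^ k * (43 * μ)) :=
        sum_le_card_nsmul _ _ _ fun p hp => (hMp p hp).2
      have b : ((ω1 ∪ ω2).biUnion w').card ≤ 2 * k * ⌈√Λ⌉₊ := by
        refine card_biUnion_le.trans (le_of_eq ?_)
        rw [sum_congr rfl hcard, sum_const, card_union_of_disjoint hd, hc1, hc2, smul_eq_mul, two_mul]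
      have c : (ts ((ω1 ∪ ω2).biUnion w') : ℝ) ≤ 2 * k * ⌈√Λ⌉₊ * (3 ^ k * (43 * μ)) := by
        exact_mod_cast a.trans (Nat.mul_le_mul_right _ b)
      have d : (⌈√Λ⌉₊ : ℝ) ≤ √Λ + 1 := (Nat.ceil_lt_add_one (Real.sqrt_nonneg Λ)).le
      rw [max_eq_left hB]
      calc (ts ((ω1 ∪ ω2).biUnion w') : ℝ) ≤ 2 * k * (√Λ + 1) * (3 ^ k * (43 * (B * Real.log Λ))) :=
            c.trans (by gcongr)
        _ = 2 * k * (3 ^ k * 43) * B * (√Λ + 1) * Real.log Λ := by ring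
        _ ≤ _ := by gcongr; linarith
    · obtain ⟨ρ1, h1, rfl⟩ := mem_image.1 i1
      obtain ⟨ρ2, h2, rfl⟩ := mem_image.1 i2
      exact hLb p1 a1 p2 a2 ρ1 h1 ρ2 h2
  have hfin := hKP t1 _ A Λ L P2 T R _ _ _ hΛ1 hCx hSx
  simp only [sum_image (hinj ω1), sum_image (hinj ω2)] at hfin
  rw [← sub_nonpos] at hfin
  simp only [mul_sum, ← sum_sub_distrib] at hfin
  refine absurd (lt_of_lt_of_le hpos2 (le_trans ?_ hfin)) (lt_irrefl _)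
  refine sum_le_sum fun p1 a1 => sum_le_sum fun p2 a2 => sum_le_sum fun ρ1 h1 =>
    sum_le_sum fun ρ2 h2 => ?_
  exact term_le hμ4 hL0 hL1 hδ1 (hlen p1 a1 p2 a2 ρ1 (hm h1) ρ2 (hm h2)).1
    (hLb p1 a1 p2 a2 ρ1 h1 ρ2 h2).2

end Pool.Agent.P.MP_26a8c3_nt.EC
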