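import Pool.Agent.P.MP_26a8c3_nt.EC.Base

/-! The concurrent case with a large denominator or a large numerator. -/

namespace Pool.Agent.P.MP_26a8c3_nt.EC

open Finset
open scoped Classical
open Hyb (ee)

namespace CaseA

lemma exists_rs {P : ℕ} (hP : 0 < P) (A : ℕ) (a v : ℤ) {d : ℕ} (hd : 0 < d)
    (hv : IsCoprime (d : ℤ) v) (hc : Nat.Coprime d P) : ∃ (r0 y : ℤ) (s : ℕ), -(d : ℤ) < r0 ∧
      r0 ≤ 0 ∧ a + v * r0 = d * y ∧ (P : ℤ) ∣ d * s - (A + r0) := by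
  obtain ⟨α, β, h1⟩ := hv
  obtain ⟨γ, δ, h2⟩ := Nat.isCoprime_iff_coprime.2 hc
  have hd' : (0 : ℤ) < d := by exact_mod_cast hd
  have hP' : (0 : ℤ) < P := by exact_mod_cast hP
  have e1 := Int.emod_add_mul_ediv (a * β) d
  have e2 := Int.emod_add_mul_ediv ((A - a * β % d) * γ) P
  have e3 := Int.toNat_of_nonneg (Int.emod_nonneg ((A - a * β % d) * γ) hP'.ne')
  refine ⟨-(a * β % d), a * α + v * (a * β / d), (((A : ℤ) - a * β % d) * γ % P).toNat,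
    by linarith [Int.emod_lt_of_pos (a * β) hd'], by linarith [Int.emod_nonneg (a * β) hd'.ne'],
    by linear_combination (-v) * e1 - a * h1,
    ⟨-((A : ℤ) - a * β % d) * δ - d * (((A : ℤ) - a * β % d) * γ / P), ?_⟩⟩
  rw [e3]
  linear_combination (d : ℤ) * e2 + ((A : ℤ) - a * β % d) * h2

lemma cx_le_cnt (u : ℕ) (L T : ℝ) (A : ℕ) {a v r0 y : ℤ} {d s : ℕ} (hd : 0 < d)
    (hv : IsCoprime (d : ℤ) v) (h1 : -(d : ℤ) < r0) (h2 : r0 ≤ 0) (h3 : a + v * r0 = d * y)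
    (h4 : (PP u L : ℤ) ∣ d * s - (A + r0)) : cx u L A T a v d ≤ cnt u L s (T / d) := by
  rw [cx, cnt, cop, Nat.cast_le]
  refine le_trans (card_le_card ?_)
    (card_image_le (f := fun m : ℕ => (r0 + d * ((m : ℤ) - s)).toNat))
  intro r hr
  obtain ⟨hr1, hr2, hr3⟩ := mem_filter.1 hr
  obtain ⟨hr0, hrT⟩ := mem_Ioc.1 hr1
  have hd' : (0 : ℤ) < d := by exact_mod_cast hd
  have k1 : (d : ℤ) ∣ v * (r - r0) := by
    have : v * (r - r0) = (a + v * r) - d * y := by linear_combination -h3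
    rw [this]
    exact dvd_sub hr2 (dvd_mul_right _ _)
  obtain ⟨t, ht⟩ := hv.dvd_of_dvd_mul_left k1
  have ht0 : 0 < t := by
    refine pos_of_mul_pos_left (b := (d : ℤ)) ?_ hd'.le
    have : (0 : ℤ) < r := by exact_mod_cast hr0
    linarith
  obtain ⟨n, rfl⟩ := Int.eq_ofNat_of_zero_le ht0.le
  have hn0 : 0 < n := by exact_mod_cast ht0
  refine mem_image.2 ⟨s + n, mem_filter.2 ⟨mem_Ioc.2 ⟨by omega, ?_⟩, ?_⟩, ?_⟩
  · rw [Nat.floor_div_natCast]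
    have : n - 1 ≤ ⌊T⌋₊ / d := by
      rw [Nat.le_div_iff_mul_le hd]
      have k2 : (r : ℤ) ≤ ⌊T⌋₊ := by exact_mod_cast hrT
      have k3 : (((n - 1) * d : ℕ) : ℤ) ≤ ⌊T⌋₊ := by
        push_cast [Nat.cast_sub hn0]
        linarith
      exact_mod_cast k3
    omega
  · rw [PP, coprime_pv PPs_prime] at hr3 ⊢
    intro p hp hps
    refine hr3 p hp ?_
    have k2 : (p : ℤ) ∣ PP u L :=
      Int.natCast_dvd_natCast.2 ((prime_dvd_pv PPs_prime (PPs_prime p hp)).2 hp)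
    have k3 : (p : ℤ) ∣ d * ((s + n : ℕ) : ℤ) :=
      dvd_mul_of_dvd_right (Int.natCast_dvd_natCast.2 hps) _
    have k4 := dvd_sub k3 (k2.trans h4)
    have : (d : ℤ) * ((s + n : ℕ) : ℤ) - (d * s - (A + r0)) = ((A + r : ℕ) : ℤ) := by
      push_cast
      linear_combination -ht
    rw [this] at k4
    exact Int.natCast_dvd_natCast.1 k4
  · have : r0 + d * (((s + n : ℕ) : ℤ) - s) = r := by
      push_cast
      linear_combination -ht
    simp only [this, Int.toNat_natCast]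

lemma phase {a v r0 y h : ℤ} {d s q : ℕ} {D : ℝ} (hD : D = d) (hd : 0 < d) (hq : 0 < q)
    (hv : 1 ≤ v) (h1 : -(d : ℤ) < r0) (h2 : r0 ≤ 0) (h3 : a + v * r0 = d * y) :
    ‖ee ((h : ℝ) * s / q) - ee ((h : ℝ) * ((v * s - y : ℤ) : ℝ) / (v * q) +
      (h : ℝ) * a / (v * q * D))‖ ≤ 2 * Real.pi * (|(h : ℝ)| / q) := by
  refine (Hyb.norm_ee_sub _ _).trans (mul_le_mul_of_nonneg_left ?_ (by positivity))
  have hd' : (0 : ℝ) < d := by exact_mod_cast hd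
  have hq' : (0 : ℝ) < q := by exact_mod_cast hq
  have hv' : (0 : ℝ) < v := by exact_mod_cast (by linarith : (0 : ℤ) < v)
  have h3' : (a : ℝ) + v * r0 = d * y := by exact_mod_cast h3
  have e : (h : ℝ) * s / q - ((h : ℝ) * ((v * s - y : ℤ) : ℝ) / (v * q) +
      (h : ℝ) * a / (v * q * D)) = h / q * (r0 / d) := by
    rw [hD]
    push_cast
    field_simp
    linear_combination -(h : ℝ) * h3'
  have k : |(r0 : ℝ) / d| ≤ 1 := by
    rw [abs_div, abs_of_pos hd', div_le_one hd', abs_le]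
    have k1 : -(d : ℝ) < r0 := by exact_mod_cast h1
    have k2 : (r0 : ℝ) ≤ 0 := by exact_mod_cast h2
    constructor <;> linarith
  rw [e, abs_mul, abs_div, abs_of_pos hq']
  exact mul_le_of_le_one_right (by positivity) k

lemma rem_bound {u : ℕ} {th L Y M : ℝ} {c : ℕ → ℤ → ℂ} (hc : SvOK u th L Y c) (hL : 0 < L)
    (W1 W2 : Finset ℕ) (s : ℕ → ℕ → ℕ) (hM0 : 0 ≤ M)
    (hM : ∀ q ∈ QS u th L, ∀ h ∈ HS th L,
      ‖∑ p1 ∈ W1, ∑ p2 ∈ W2, ee ((h : ℝ) * s p1 p2 / q)‖ ≤ M) :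
    ∑ p1 ∈ W1, ∑ p2 ∈ W2, cnt u L (s p1 p2) Y ≤
      ∑ _p1 ∈ W1, ∑ _p2 ∈ W2, (2 - th / 2) * cs u L * Y + L ^ (1 + 2 * th) * M := by
  refine (sum_le_sum fun p1 _ => sum_le_sum fun p2 _ => hc.2 (s p1 p2)).trans ?_
  simp only [sum_add_distrib]
  refine add_le_add le_rfl ?_
  have e : ∑ p1 ∈ W1, ∑ p2 ∈ W2,
      (∑ q ∈ QS u th L, ∑ h ∈ HS th L, c q h * ee ((h : ℝ) * s p1 p2 / q)).re =
      (∑ q ∈ QS u th L, ∑ h ∈ HS th L,
        c q h * ∑ p1 ∈ W1, ∑ p2 ∈ W2, ee ((h : ℝ) * s p1 p2 / q)).re := by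
    simp only [← Complex.re_sum, mul_sum]
    congr 1
    calc _ = ∑ p1 ∈ W1, ∑ q ∈ QS u th L, ∑ p2 ∈ W2, ∑ h ∈ HS th L,
          c q h * ee ((h : ℝ) * s p1 p2 / q) := sum_congr rfl fun _ _ => sum_comm
      _ = ∑ q ∈ QS u th L, ∑ p1 ∈ W1, ∑ p2 ∈ W2, ∑ h ∈ HS th L,
          c q h * ee ((h : ℝ) * s p1 p2 / q) := sum_comm
      _ = ∑ q ∈ QS u th L, ∑ p1 ∈ W1, ∑ h ∈ HS th L, ∑ p2 ∈ W2,
          c q h * ee ((h : ℝ) * s p1 p2 / q) :=
          sum_congr rfl fun _ _ => sum_congr rfl fun _ _ => sum_comm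
      _ = _ := sum_congr rfl fun _ _ => sum_comm
  rw [e]
  refine (Complex.re_le_norm _).trans ((norm_sum_le _ _).trans ?_)
  have k1 : ∀ q ∈ QS u th L, ‖∑ h ∈ HS th L,
      c q h * ∑ p1 ∈ W1, ∑ p2 ∈ W2, ee ((h : ℝ) * s p1 p2 / q)‖ ≤ L ^ th * M := fun q hq => by
    refine (norm_sum_le _ _).trans (le_trans ?_ (mul_le_mul_of_nonneg_right (hc.1 q) hM0))
    rw [sum_mul]
    refine sum_le_sum fun h hh => ?_
    rw [norm_mul]
    exact mul_le_mul_of_nonneg_left (hM q hq h hh) (norm_nonneg _)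
  have k2 : ((QS u th L).card : ℝ) ≤ L ^ (1 + th) := by
    have : (QS u th L).card ≤ ⌊L ^ (1 + th)⌋₊ := (card_filter_le _ _).trans (by simp)
    exact (Nat.cast_le.2 this).trans (Nat.floor_le (by positivity))
  refine (sum_le_card_nsmul _ _ _ k1).trans ?_
  rw [nsmul_eq_mul, show 1 + 2 * th = (1 + th) + th by ring, Real.rpow_add hL, mul_assoc]
  exact mul_le_mul_of_nonneg_right k2 (by positivity)

lemma large (B K : ℝ) : ∃ Λ0 : ℝ, ∀ Λ : ℝ, Λ0 ≤ Λ → K ≤ Λ ∧ K ≤ Λ ^ (3 / 5 : ℝ) ∧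
    B * Real.log Λ < Λ ^ (3 / 5 : ℝ) - 2 ∧ 3 * Λ ^ (13 / 25 : ℝ) < Λ ^ (3 / 5 : ℝ) - 2 := by
  have t1 := tendsto_rpow_atTop (by norm_num : (0 : ℝ) < 3 / 5)
  have t2 := tendsto_rpow_atTop (by norm_num : (0 : ℝ) < 2 / 25)
  have hB : (0 : ℝ) < |B| + 1 := by positivity
  have t3 := (isLittleO_log_rpow_atTop (by norm_num : (0 : ℝ) < 3 / 5)).bound
    (c := 1 / (2 * (|B| + 1))) (by positivity)
  refine Filter.eventually_atTop.1 ?_
  filter_upwards [Filter.eventually_ge_atTop K, Filter.eventually_ge_atTop 1,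
    t1.eventually_ge_atTop K, t1.eventually_ge_atTop 5, t2.eventually_ge_atTop 6, t3]
    with Λ a1 a2 a3 a4 a5 a6
  have hΛ : 0 < Λ := by linarith
  have hl : 0 ≤ Real.log Λ := Real.log_nonneg a2
  rw [Real.norm_of_nonneg hl, Real.norm_of_nonneg (by positivity), one_div, ← div_eq_inv_mul,
    le_div_iff₀ (by positivity)] at a6
  have e : Λ ^ (3 / 5 : ℝ) = Λ ^ (13 / 25 : ℝ) * Λ ^ (2 / 25 : ℝ) := by
    rw [← Real.rpow_add hΛ]
    norm_num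
  have b1 : B * Real.log Λ ≤ (|B| + 1) * Real.log Λ :=
    mul_le_mul_of_nonneg_right (by linarith [le_abs_self B]) hl
  have b2 : Λ ^ (13 / 25 : ℝ) * 6 ≤ Λ ^ (13 / 25 : ℝ) * Λ ^ (2 / 25 : ℝ) :=
    mul_le_mul_of_nonneg_left a5 (by positivity)
  exact ⟨a1, a3, by linarith, by linarith⟩

lemma cop_facts (u : ℕ) {L : ℝ} {v : ℤ} {p : ℕ} (hp : p.Prime) (hL : 1 ≤ L) (hLp : L < p)
    (hv : 1 ≤ v) (hvp : (v : ℝ) < p) : IsCoprime (p : ℤ) v ∧ Nat.Coprime p (PP u L) := by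
  constructor
  · rw [(Nat.prime_iff_prime_int.1 hp).coprime_iff_not_dvd]
    intro h
    have h1 := Int.le_of_dvd (by linarith) h
    have h2 : (p : ℝ) ≤ v := by exact_mod_cast h1
    linarith
  · rw [PP, coprime_pv PPs_prime]
    intro q hq h
    obtain ⟨h1, -, h2⟩ := (mem_PPs (by linarith)).1 hq
    have h3 : L ^ (3 / 5 : ℝ) ≤ L := Real.rpow_le_self_of_one_le hL (by norm_num)
    rw [(Nat.prime_dvd_prime_iff_eq h1 hp).1 h] at h2
    linarith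

/-- The products in one fine window are almost constant. -/
lemma window {th Λ P2 : ℝ} {p1 p2 : ℕ} (h0 : 0 < th) (h1 : th ≤ 1 / 1000) (hΛ : 200 ≤ th * Λ)
    (hP : 0 < P2) (hp : 0 < p1) (a1 : P2 ≤ p2) (a2 : (p2 : ℝ) ≤ P2 * (1 + (Λ ^ 3)⁻¹)) :
    Real.exp (((fi (FF Λ) p1 : ℝ) - 1) / FF Λ) * P2 ≤ ((p1 * p2 : ℕ) : ℝ) ∧
      ((p1 * p2 : ℕ) : ℝ) ≤ (1 + th / 16) * (Real.exp (((fi (FF Λ) p1 : ℝ) - 1) / FF Λ) * P2) := by
  have l1 : 1 ≤ Λ := by nlinarith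
  have l0 : 0 < Λ := by linarith
  obtain ⟨b1, b2⟩ := fi_bounds (one_le_FF l1) hp
  have f1 : Λ ≤ FF Λ := (le_self_pow₀ l1 (by norm_num)).trans (Nat.le_ceil _)
  have i0 : Λ⁻¹ ≤ th / 200 := by
    rw [inv_le_iff_one_le_mul₀ l0]
    linarith
  have i1 : (FF Λ : ℝ)⁻¹ ≤ th / 200 := (inv_anti₀ l0 f1).trans i0
  have i2 : (Λ ^ 3)⁻¹ ≤ th / 200 := (inv_anti₀ l0 (le_self_pow₀ l1 (by norm_num))).trans i0
  have i3 : Real.exp (th / 200) ≤ 1 + th / 100 := by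
    have k : |th / 200| = th / 200 := abs_of_pos (by positivity)
    have := (abs_le.1 (Real.abs_exp_sub_one_le (x := th / 200) (by rw [k]; linarith))).2
    rw [k] at this
    linarith
  have e : Real.exp ((fi (FF Λ) p1 : ℝ) / FF Λ) =
      Real.exp (((fi (FF Λ) p1 : ℝ) - 1) / FF Λ) * Real.exp (FF Λ : ℝ)⁻¹ := by
    rw [← Real.exp_add]
    congr 1
    ring
  have hE := Real.exp_pos (((fi (FF Λ) p1 : ℝ) - 1) / FF Λ)
  generalize Real.exp (((fi (FF Λ) p1 : ℝ) - 1) / FF Λ) = E at *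
  have c1 : (p1 : ℝ) ≤ E * (1 + th / 100) := b2.trans (by
    rw [e]
    exact mul_le_mul_of_nonneg_left ((Real.exp_le_exp.2 i1).trans i3) hE.le)
  have c2 : (p2 : ℝ) ≤ P2 * (1 + th / 200) :=
    a2.trans (mul_le_mul_of_nonneg_left (by linarith) hP.le)
  push_cast
  refine ⟨mul_le_mul b1.le a1 hP.le (by positivity), (mul_le_mul c1 c2 (by positivity)
    (by positivity)).trans ?_⟩
  have c3 : (1 + th / 100) * (1 + th / 200) ≤ 1 + th / 16 := by nlinarith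
  calc E * (1 + th / 100) * (P2 * (1 + th / 200))
      = (1 + th / 100) * (1 + th / 200) * (E * P2) := by ring
    _ ≤ _ := mul_le_mul_of_nonneg_right c3 (by positivity)

lemma cs_nonneg (u : ℕ) {L : ℝ} (hL : 1 ≤ L) : 0 ≤ cs u L :=
  inv_nonneg.2 (mul_nonneg (V0_pos u).le (Real.log_nonneg hL))

/-- The estimate for one fine window. -/
lemma group {u t1 A j : ℕ} {th B Λ L P2 T : ℝ} {W2 W1 : Finset ℕ} {a v : ℤ}
    (hx : Cx th B Λ L P2 t1 W2) (hlen : Len L T t1 W2) (hΛ : 200 ≤ th * Λ) (hLP : L < P2)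
    (hv : 1 ≤ v) (hvP : (v : ℝ) < P2)
    (hSv : ∀ Y : ℝ, L ≤ Y → Y ≤ 4 * L → ∃ c : ℕ → ℤ → ℂ, SvOK u th L Y c)
    (hW : W1 ⊆ PR t1 t1) (hj : ∀ p ∈ W1, fi (FF Λ) p = j)
    (hb : ∀ (q : ℕ) (h : ℤ) (z : ℕ → ℕ → ℤ), h ≠ 0 → |(h : ℝ)| ≤ L ^ (4 * th) →
      L ^ (1 - th) ≤ (q : ℝ) → (q : ℝ) ≤ L ^ (1 + th) →
      (∀ p1 ∈ W1, ∀ p2 ∈ W2, v * q ∣ (p1 * p2 : ℤ) * z p1 p2 - (v * A - a)) →
      ‖∑ p1 ∈ W1, ∑ p2 ∈ W2,
        ee ((h : ℝ) * z p1 p2 / (v * q) + (h : ℝ) * a / (v * q * (p1 * p2)))‖ ≤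
        L ^ (-(3 * th)) * (Real.exp t1 * P2)) :
    ∑ p1 ∈ W1, ∑ p2 ∈ W2, cx u L A T a v (p1 * p2) ≤
      ∑ p1 ∈ W1, ∑ p2 ∈ W2, ((2 - 3 * th / 8) * cs u L * (T / ((p1 * p2 : ℕ) : ℝ)) +
        2 * Real.pi * L ^ (7 * th)) + L ^ (1 - th) * (Real.exp t1 * P2) := by
  have hL1 := hx.L0
  have hL : 0 < L := by linarith
  have hP : 0 < P2 := by linarith
  have h0 := hx.th0
  have h1 := hx.th1
  have hcs := cs_nonneg u hL1
  rcases W1.eq_empty_or_nonempty with rfl | ⟨p1', hp1'⟩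
  · simp only [sum_empty, zero_add]
    positivity
  rcases W2.eq_empty_or_nonempty with rfl | ⟨p2', hp2'⟩
  · simp only [sum_empty, sum_const_zero, zero_add]
    positivity
  have hpr : ∀ p1 ∈ W1, ∀ p2 ∈ W2, 0 < p1 * p2 ∧ IsCoprime ((p1 * p2 : ℕ) : ℤ) v ∧
      Nat.Coprime (p1 * p2) (PP u L) := fun p1 hp1 p2 hp2 => by
    obtain ⟨b1, b2, -⟩ := mem_PR.1 (hW hp1)
    obtain ⟨c1, c2, -, c3⟩ := hx.W2a p2 hp2
    have c4 : (p2 : ℝ) < p1 := by exact_mod_cast lt_of_tau_lt (c3.trans_le b2)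
    obtain ⟨d1, d2⟩ := cop_facts u b1 hL1 (by linarith) hv (by linarith)
    obtain ⟨d3, d4⟩ := cop_facts u c1 hL1 (by linarith) hv (by linarith)
    refine ⟨Nat.mul_pos b1.pos c1.pos, ?_, Nat.Coprime.mul_left d2 d4⟩
    push_cast
    exact d1.mul_left d3
  have hex : ∀ p1 p2 : ℕ, ∃ (r0 y : ℤ) (s : ℕ), p1 ∈ W1 → p2 ∈ W2 →
      -((p1 * p2 : ℕ) : ℤ) < r0 ∧ r0 ≤ 0 ∧ a + v * r0 = ((p1 * p2 : ℕ) : ℤ) * y ∧
        (PP u L : ℤ) ∣ ((p1 * p2 : ℕ) : ℤ) * s - (A + r0) := fun p1 p2 => by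
    by_cases hh : p1 ∈ W1 ∧ p2 ∈ W2
    · obtain ⟨k1, k2, k3⟩ := hpr p1 hh.1 p2 hh.2
      obtain ⟨r0, y, s, k⟩ := exists_rs (pv_pos PPs_prime) A a v k1 k2 k3
      exact ⟨r0, y, s, fun _ _ => k⟩
    · exact ⟨0, 0, 0, fun k1 k2 => absurd ⟨k1, k2⟩ hh⟩
  choose r0 y s hrs using hex
  obtain ⟨lo, hlo⟩ : ∃ lo : ℝ, lo = Real.exp (((j : ℝ) - 1) / FF Λ) * P2 := ⟨_, rfl⟩
  have hlo0 : 0 < lo := by rw [hlo]; positivity
  have hY : ∀ p1 ∈ W1, ∀ p2 ∈ W2, T / ((p1 * p2 : ℕ) : ℝ) ≤ T / lo ∧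
      T / lo ≤ (1 + th / 16) * (T / ((p1 * p2 : ℕ) : ℝ)) := fun p1 hp1 p2 hp2 => by
    obtain ⟨-, c2, c3, -⟩ := hx.W2a p2 hp2
    obtain ⟨w1, w2⟩ := window h0 h1 hΛ hP (mem_PR.1 (hW hp1)).1.pos c2 c3
    rw [hj p1 hp1, ← hlo] at w1 w2
    have hd : (0 : ℝ) < ((p1 * p2 : ℕ) : ℝ) := by linarith
    have hT : 0 ≤ T := by
      have := (hlen p1 (hW hp1) p2 hp2).1
      rw [le_div_iff₀ hd] at this
      exact le_trans (by positivity) this
    refine ⟨div_le_div_of_nonneg_left hT hlo0 w1, ?_⟩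
    rw [← mul_div_assoc, div_le_div_iff₀ hlo0 hd]
    calc T * ((p1 * p2 : ℕ) : ℝ) ≤ T * ((1 + th / 16) * lo) := mul_le_mul_of_nonneg_left w2 hT
      _ = _ := by ring
  obtain ⟨c, hc⟩ := hSv (T / lo) ((hlen p1' (hW hp1') p2' hp2').1.trans (hY p1' hp1' p2' hp2').1)
    ((hY p1' hp1' p2' hp2').2.trans ((mul_le_mul_of_nonneg_left (hlen p1' (hW hp1') p2' hp2').2
      (by positivity)).trans (by nlinarith)))
  have hrem := rem_bound hc hL W1 W2 s (M := L ^ (-(3 * th)) * (Real.exp t1 * P2) +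
      ∑ _p1 ∈ W1, ∑ _p2 ∈ W2, 2 * Real.pi * L ^ (5 * th - 1)) (by positivity) fun q hq h hh => by
    obtain ⟨q1, q2, q3, -⟩ := mem_filter.1 hq
    obtain ⟨q4, q5⟩ := mem_Icc.1 q1
    obtain ⟨g1, g2⟩ := mem_erase.1 hh
    have g3 : |(h : ℝ)| ≤ L ^ (4 * th) := by
      have k : |h| ≤ (⌊L ^ (4 * th)⌋₊ : ℤ) := abs_le.2 (mem_Icc.1 g2)
      have k' : |(h : ℝ)| ≤ (⌊L ^ (4 * th)⌋₊ : ℝ) := by exact_mod_cast k
      exact k'.trans (Nat.floor_le (by positivity))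
    have hB := hb q h (fun p1 p2 => v * s p1 p2 - y p1 p2) g1 g3 q3
      ((Nat.cast_le.2 q5).trans (Nat.floor_le (by positivity))) fun p1 hp1 p2 hp2 => by
        obtain ⟨-, -, k3, k4⟩ := hrs p1 p2 hp1 hp2
        have k5 := mul_dvd_mul_left v ((Int.natCast_dvd_natCast.2 q2).trans k4)
        push_cast at k3 k5
        have e : (p1 * p2 : ℤ) * (v * s p1 p2 - y p1 p2) - (v * A - a) =
            v * (p1 * p2 * s p1 p2 - (A + r0 p1 p2)) := by linear_combination k3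
        rw [e]
        exact k5
    refine le_trans ?_ (add_le_add hB le_rfl)
    refine (norm_le_norm_add_norm_sub' _ _).trans (add_le_add le_rfl ?_)
    rw [← sum_sub_distrib]
    refine (norm_sum_le _ _).trans (sum_le_sum fun p1 hp1 => ?_)
    rw [← sum_sub_distrib]
    refine (norm_sum_le _ _).trans (sum_le_sum fun p2 hp2 => ?_)
    obtain ⟨k1, k2, k3, -⟩ := hrs p1 p2 hp1 hp2
    refine (phase (by push_cast; rfl) (hpr p1 hp1 p2 hp2).1 q4 hv k1 k2 k3).trans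
      (mul_le_mul_of_nonneg_left ?_ (by positivity))
    rw [show 5 * th - 1 = 4 * th - (1 - th) by ring, Real.rpow_sub hL]
    exact div_le_div₀ (by positivity) g3 (by positivity) q3
  refine le_trans (sum_le_sum fun p1 hp1 => sum_le_sum fun p2 hp2 => ?_) (hrem.trans ?_)
  · obtain ⟨k1, k2, k3, k4⟩ := hrs p1 p2 hp1 hp2
    exact (cx_le_cnt u L T A (hpr p1 hp1 p2 hp2).1 (hpr p1 hp1 p2 hp2).2.1 k1 k2 k3 k4).trans
      (cnt_mono _ _ _ (hY p1 hp1 p2 hp2).1)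
  · have e1 : L ^ (1 + 2 * th) * L ^ (-(3 * th)) = L ^ (1 - th) := by
      rw [← Real.rpow_add hL]
      congr 1
      ring
    have e2 : L ^ (1 + 2 * th) * (2 * Real.pi * L ^ (5 * th - 1)) = 2 * Real.pi * L ^ (7 * th) := by
      rw [mul_left_comm, ← Real.rpow_add hL]
      congr 2
      ring
    rw [mul_add, ← mul_assoc, e1, add_comm (L ^ (1 - th) * _), ← add_assoc]
    simp only [mul_sum, e2, ← sum_add_distrib]
    refine add_le_add (sum_le_sum fun p1 hp1 => sum_le_sum fun p2 hp2 =>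
      add_le_add ?_ le_rfl) le_rfl
    have k := (hlen p1 (hW hp1) p2 hp2).1
    calc (2 - th / 2) * cs u L * (T / lo)
        ≤ (2 - th / 2) * cs u L * ((1 + th / 16) * (T / ((p1 * p2 : ℕ) : ℝ))) :=
          mul_le_mul_of_nonneg_left (hY p1 hp1 p2 hp2).2 (mul_nonneg (by linarith) hcs)
      _ = (2 - th / 2) * (1 + th / 16) * (cs u L * (T / ((p1 * p2 : ℕ) : ℝ))) := by ring
      _ ≤ (2 - 3 * th / 8) * (cs u L * (T / ((p1 * p2 : ℕ) : ℝ))) :=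
          mul_le_mul_of_nonneg_right (by nlinarith) (mul_nonneg hcs (by linarith))
      _ = _ := by ring

end CaseA

theorem pCaseA (hPi : S_Pi) (hBil : S_Bil) : S_CaseA := by
  intro u th _ hSv B
  obtain ⟨L0, hL0⟩ := hSv
  obtain ⟨C, hC1, -, -, -, hC⟩ := pi_facts hPi
  obtain ⟨Λb, hb⟩ := hBil B th
  obtain ⟨Λ0, hl⟩ := CaseA.large B (max (max (2 * C) L0) (max Λb (200 / th)))
  refine ⟨Λ0, fun t1 A Λ L P2 T W2 a v hΛ hx hlen hav hv1 hv2 ha hcase => ?_⟩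
  obtain ⟨n1, n2, n3, n4⟩ := hl Λ hΛ
  simp only [max_le_iff] at n1 n2
  have h0 := hx.th0
  have h1 := hx.th1
  have hL1 := hx.L0
  have hL : 0 < L := by linarith
  have hth : 200 ≤ th * Λ := by
    have := n1.2.2
    rw [div_le_iff₀ h0] at this
    linarith
  have l1 : 1 ≤ Λ := by nlinarith
  have l2 : 2 ≤ Λ := by nlinarith
  have l0 : 0 < Λ := by linarith
  have hLL : Λ ≤ L := (le_self_pow₀ l1 (by norm_num)).trans
    (hx.L1.trans (Real.rpow_le_self_of_one_le hL1 (by linarith)))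
  have hlog : Real.log L < Λ ^ (3 / 5 : ℝ) - 2 := by
    refine lt_of_le_of_lt ?_ n3
    rw [← Real.log_rpow l0]
    exact Real.log_le_log hL hx.L2
  have hLP : L < P2 := ((Real.log_lt_iff_lt_exp hL).1 hlog).trans_le hx.P2a
  have hP : 0 < P2 := by linarith
  have hvP : (v : ℝ) < P2 := by
    refine hv2.trans_lt (lt_of_lt_of_le ?_ hx.P2a)
    rw [Xi, ← Real.exp_nat_mul]
    exact Real.exp_lt_exp.2 (by exact_mod_cast n4)
  have hcs : Λ⁻¹ ≤ cs u L := by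
    have k1 : 0 < Real.log L := Real.log_pos (by linarith)
    have k2 : Λ ^ (3 / 5 : ℝ) ≤ Λ := Real.rpow_le_self_of_one_le l1 (by norm_num)
    refine inv_anti₀ (mul_pos (V0_pos u) k1) ?_
    exact (mul_le_of_le_one_left k1.le (V0_le_one u)).trans (by linarith)
  have hcs0 : 0 ≤ cs u L := CaseA.cs_nonneg u hL1
  have ht : 2 * C ≤ (t1 : ℝ) := n2.1.1.trans hx.t1a
  have ht1 : 1 ≤ t1 := by exact_mod_cast (by linarith : (1 : ℝ) ≤ t1)
  have hF := one_le_FF l1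
  have hE : IsCoprime (v * A - a) v := by
    have := hav.neg_left.add_mul_left_left (A : ℤ)
    rwa [neg_add_eq_sub] at this
  have hmap : ∀ p ∈ PR t1 t1, fi (FF Λ) p ∈ Ioc (FF Λ * (t1 - 1)) (FF Λ * t1) := fun p hp => by
    obtain ⟨-, b2, b3⟩ := mem_PR.1 hp
    refine mem_Ioc.2 ⟨lt_of_not_ge fun h => ?_, (tau_le_iff_fi hF).1 b3⟩
    have := (tau_le_iff_fi hF).2 h
    omega
  have hsum := sum_le_sum fun j (_ : j ∈ Ioc (FF Λ * (t1 - 1)) (FF Λ * t1)) =>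
    CaseA.group (u := u) (A := A) (a := a) (j := j)
      (W1 := (PR t1 t1).filter fun p => fi (FF Λ) p = j) hx hlen hth hLP hv1 hvP
      (fun Y => hL0 L Y (n1.1.2.trans hLL)) (filter_subset _ _) (fun p hp => (mem_filter.1 hp).2)
      fun q h z g1 g2 g3 g4 g5 => hb t1 q Λ L P2 T W2 _ a v _ h z n1.2.1 hx hlen hE hv1 hv2 ha
        hcase g1 g2 g3 g4 (filter_subset _ _) g5
  rw [sum_add_distrib, sum_fiberwise_of_maps_to hmap, sum_fiberwise_of_maps_to hmap, sum_const,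
    Nat.card_Ioc, ← Nat.mul_sub, Nat.sub_sub_self ht1, mul_one, nsmul_eq_mul] at hsum
  refine hsum.trans ?_
  have hLi : L ^ (1 - th) ≤ L / Λ ^ 40 := by
    rw [Real.rpow_sub hL, Real.rpow_one]
    exact div_le_div_of_nonneg_left hL.le (by positivity) hx.L1
  have hA : ∑ p1 ∈ PR t1 t1, ∑ p2 ∈ W2, ((2 - 3 * th / 8) * cs u L * (T / ((p1 * p2 : ℕ) : ℝ)) +
      2 * Real.pi * L ^ (7 * th)) ≤
      (2 - 5 * th / 16) * cs u L * ∑ p1 ∈ PR t1 t1, ∑ p2 ∈ W2, T / ((p1 * p2 : ℕ) : ℝ) := by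
    simp only [mul_sum]
    refine sum_le_sum fun p1 hp1 => sum_le_sum fun p2 hp2 => ?_
    have k1 : L ^ (7 * th) ≤ L / Λ ^ 2 :=
      (Real.rpow_le_rpow_of_exponent_le hL1 (by linarith)).trans (hLi.trans
        (div_le_div_of_nonneg_left hL.le (by positivity) (pow_le_pow_right₀ l1 (by norm_num))))
    have k2 : Λ⁻¹ * L ≤ cs u L * (T / ((p1 * p2 : ℕ) : ℝ)) :=
      mul_le_mul hcs (hlen p1 hp1 p2 hp2).1 hL.le hcs0
    have k3 : 2 * Real.pi * (L / Λ ^ 2) ≤ th / 16 * (Λ⁻¹ * L) := by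
      have e : th / 16 * (Λ⁻¹ * L) = th * Λ / 16 * (L / Λ ^ 2) := by field_simp
      rw [e]
      exact mul_le_mul_of_nonneg_right (by linarith [Real.pi_le_four]) (by positivity)
    have k4 := mul_le_mul_of_nonneg_left k1 (by positivity : 0 ≤ 2 * Real.pi)
    have k5 := mul_le_mul_of_nonneg_left k2 (by positivity : 0 ≤ th / 16)
    linarith
  have hS : Real.exp t1 / (6 * Λ) * (P2 * (Λ ^ 9)⁻¹ * L) ≤
      ∑ p1 ∈ PR t1 t1, ∑ p2 ∈ W2, T / ((p1 * p2 : ℕ) : ℝ) := by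
    have k1 : Real.exp t1 / (6 * Λ) ≤ (PR t1 t1).card := by
      refine le_trans ?_ (hC t1 ht).2
      have k : Real.exp t1 = Real.exp (t1 - 1) * Real.exp 1 := by
        rw [← Real.exp_add, sub_add_cancel]
      have k0 : (0 : ℝ) < t1 := by linarith
      rw [k, div_le_div_iff₀ (by positivity) (by positivity), mul_assoc]
      refine mul_le_mul_of_nonneg_left ?_ (Real.exp_pos _).le
      nlinarith [Real.exp_one_lt_d9, hx.t1b]
    refine (mul_le_mul_of_nonneg_right k1 (by positivity)).trans ?_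
    rw [← nsmul_eq_mul]
    refine card_nsmul_le_sum _ _ _ fun p1 hp1 => ?_
    refine (mul_le_mul_of_nonneg_right hx.W2b hL.le).trans ?_
    rw [← nsmul_eq_mul]
    exact card_nsmul_le_sum _ _ _ fun p2 hp2 => (hlen p1 hp1 p2 hp2).1
  have hG : (FF Λ : ℝ) * (L ^ (1 - th) * (Real.exp t1 * P2)) ≤
      th / 16 * (Λ⁻¹ * (Real.exp t1 / (6 * Λ) * (P2 * (Λ ^ 9)⁻¹ * L))) := by
    have k1 : (FF Λ : ℝ) ≤ 2 * Λ ^ 4 := by
      have := Nat.ceil_lt_add_one (by positivity : 0 ≤ Λ ^ 4)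
      have k : 1 ≤ Λ ^ 4 := one_le_pow₀ l1
      rw [FF]
      linarith
    have k2 : L ^ (1 - th) ≤ L / Λ ^ 16 := hLi.trans
      (div_le_div_of_nonneg_left hL.le (by positivity) (pow_le_pow_right₀ l1 (by norm_num)))
    calc (FF Λ : ℝ) * (L ^ (1 - th) * (Real.exp t1 * P2))
        ≤ 2 * Λ ^ 4 * (L / Λ ^ 16 * (Real.exp t1 * P2)) := by gcongr
      _ = 2 * (L * Real.exp t1 * P2 / Λ ^ 12) := by field_simp
      _ ≤ th * Λ / 96 * (L * Real.exp t1 * P2 / Λ ^ 12) :=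
          mul_le_mul_of_nonneg_right (by linarith) (by positivity)
      _ = _ := by field_simp; norm_num
  have hH := mul_le_mul_of_nonneg_left (mul_le_mul hcs hS (by positivity) hcs0)
    (by positivity : 0 ≤ th / 16)
  linarith

end Pool.Agent.P.MP_26a8c3_nt.EC
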