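import Pool.Agent.P.MP_26a8c3_nt.EC.Base

/-! The concurrent case with small height. -/

namespace Pool.Agent.P.MP_26a8c3_nt.EC

open Finset
open scoped Classical

namespace CaseB

/-- The condition on the first prime for a fixed cofactor. -/
def Q (u : ℕ) (L : ℝ) (v p2 : ℕ) (E : ℤ) (α β : ℝ) (m : ℤ) (p1 : ℕ) : Prop :=
  α < (p1 : ℝ) * m.natAbs ∧ (p1 : ℝ) * m.natAbs ≤ β ∧
    (v : ℤ) ∣ p1 * p2 * m + E ∧ ∀ p ∈ PPs u L, ¬ ((v * p : ℕ) : ℤ) ∣ p1 * p2 * m + E

lemma comb (u A p1 p2 v M : ℕ) (L T Mp : ℝ) (a : ℤ) (hv : 1 ≤ v) (h1 : 0 < p1) (h2 : 0 < p2)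
    (hM : |(a : ℝ)| + v * T ≤ Mp * (p1 * p2)) :
    cx u L A T a v (p1 * p2) ≤ (2 * M + 1) +
      (((Ioc M ⌊Mp⌋₊).filter fun m : ℕ => Q u L v p2 (v * A - a) (max (a : ℝ) 0 / p2)
        (max ((a : ℝ) + v * T) 0 / p2) (m : ℤ) p1).card : ℝ) +
      (((Ioc M ⌊Mp⌋₊).filter fun m : ℕ => Q u L v p2 (v * A - a)
        (max (-(a : ℝ) - v * T - 1) 0 / p2) (max (-(a : ℝ)) 0 / p2) (-(m : ℤ)) p1).card : ℝ) := by
  set S1 := (Ioc M ⌊Mp⌋₊).filter fun m : ℕ => Q u L v p2 (v * A - a) (max (a : ℝ) 0 / p2)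
        (max ((a : ℝ) + v * T) 0 / p2) (m : ℤ) p1 with hS1
  set S2 := (Ioc M ⌊Mp⌋₊).filter fun m : ℕ => Q u L v p2 (v * A - a)
        (max (-(a : ℝ) - v * T - 1) 0 / p2) (max (-(a : ℝ)) 0 / p2) (-(m : ℤ)) p1 with hS2
  have hv' : (0 : ℤ) < v := by exact_mod_cast hv
  have hvr : (1 : ℝ) ≤ v := by exact_mod_cast hv
  have h1r : (0 : ℝ) < p1 := by exact_mod_cast h1
  have h2r : (0 : ℝ) < p2 := by exact_mod_cast h2
  have key : ((Ioc 0 ⌊T⌋₊).filter fun r : ℕ => (((p1 * p2 : ℕ) : ℤ) ∣ a + v * r ∧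
      Nat.Coprime (A + r) (PP u L))).card ≤
      (Icc (-(M : ℤ)) M ∪ (S1.image (fun m : ℕ => (m : ℤ)) ∪ S2.image (fun m : ℕ => -(m : ℤ)))).card := by
    refine card_le_card_of_injOn (fun r : ℕ => (a + v * r) / ((p1 * p2 : ℕ) : ℤ)) ?_ ?_
    · intro r hr
      obtain ⟨hr1, ⟨m, hm⟩, hc⟩ := mem_filter.1 (mem_coe.1 hr)
      obtain ⟨r0, rT⟩ := mem_Ioc.1 hr1
      have hd : (((p1 * p2 : ℕ) : ℤ)) ≠ 0 := by positivity
      have e : (a + v * r) / ((p1 * p2 : ℕ) : ℤ) = m := by rw [hm, Int.mul_ediv_cancel_left _ hd]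
      have r0' : (1 : ℝ) ≤ r := by exact_mod_cast r0
      have rT' : (r : ℝ) ≤ T := by
        have hT : 0 ≤ T := by
          by_contra hT
          rw [Nat.floor_of_nonpos (le_of_not_ge hT)] at rT
          omega
        exact (Nat.le_floor_iff hT).1 rT
      have hmr : (a : ℝ) + v * r = p1 * p2 * m := by exact_mod_cast hm
      have e2 : (p1 : ℤ) * p2 * m + (v * A - a) = v * ((A + r : ℕ) : ℤ) := by
        push_cast at hm ⊢
        linarith
      have d1 : (v : ℤ) ∣ p1 * p2 * m + (v * A - a) := e2 ▸ dvd_mul_right _ _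
      have d2 : ∀ p ∈ PPs u L, ¬ ((v * p : ℕ) : ℤ) ∣ p1 * p2 * m + (v * A - a) := by
        intro p hp h
        rw [e2, Nat.cast_mul, mul_dvd_mul_iff_left hv'.ne', Int.natCast_dvd_natCast] at h
        exact (coprime_pv PPs_prime _).1 hc p hp h
      have lo : (a : ℝ) < p1 * p2 * m := by nlinarith
      have hi : (p1 : ℝ) * p2 * m ≤ a + v * T := by nlinarith
      have hb : |(m : ℝ)| ≤ Mp := by
        have : (p1 : ℝ) * p2 * |(m : ℝ)| ≤ p1 * p2 * Mp := by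
          have h3 : |(p1 : ℝ) * p2 * m| ≤ |(a : ℝ)| + v * T := by
            have hvT : 0 ≤ (v : ℝ) * T := by nlinarith
            rw [abs_le]
            constructor <;> linarith [le_abs_self (a : ℝ), neg_abs_le (a : ℝ)]
          rw [abs_mul, abs_of_pos (mul_pos h1r h2r)] at h3
          linarith
        exact le_of_mul_le_mul_left this (mul_pos h1r h2r)
      have hn : ((m.natAbs : ℕ) : ℝ) = |(m : ℝ)| := by
        rw [← Int.cast_natCast, Int.natCast_natAbs, Int.cast_abs]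
      have hb' : m.natAbs ≤ ⌊Mp⌋₊ := Nat.le_floor (hn ▸ hb)
      show (a + v * r) / ((p1 * p2 : ℕ) : ℤ) ∈ _
      rw [e, mem_coe, mem_union, mem_union, mem_Icc, mem_image, mem_image]
      by_cases hs : m.natAbs ≤ M
      · left
        omega
      rcases le_total 0 m with h0 | h0
      · right; left
        have em : ((m.natAbs : ℕ) : ℤ) = m := Int.natAbs_of_nonneg h0
        have m0 : (0 : ℝ) < m := by exact_mod_cast (by omega : 0 < m)
        refine ⟨m.natAbs, mem_filter.2 ⟨mem_Ioc.2 ⟨by omega, hb'⟩, ?_⟩, em⟩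
        rw [em]
        refine ⟨?_, ?_, d1, d2⟩
        · rw [hn, abs_of_pos m0, div_lt_iff₀ h2r, max_lt_iff]
          exact ⟨by linarith, by positivity⟩
        · rw [hn, abs_of_pos m0, le_div_iff₀ h2r]
          exact le_max_of_le_left (by linarith)
      · right; right
        have em : -((m.natAbs : ℕ) : ℤ) = m := by omega
        have m0 : (m : ℝ) < 0 := by exact_mod_cast (by omega : m < 0)
        refine ⟨m.natAbs, mem_filter.2 ⟨mem_Ioc.2 ⟨by omega, hb'⟩, ?_⟩, em⟩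
        rw [em]
        refine ⟨?_, ?_, d1, d2⟩
        · rw [hn, abs_of_neg m0, div_lt_iff₀ h2r, max_lt_iff]
          exact ⟨by linarith, mul_pos (mul_pos h1r (neg_pos.2 m0)) h2r⟩
        · rw [hn, abs_of_neg m0, le_div_iff₀ h2r]
          exact le_max_of_le_left (by linarith)
    · intro r hr r' hr' h
      obtain ⟨-, hd, -⟩ := mem_filter.1 (mem_coe.1 hr)
      obtain ⟨-, hd', -⟩ := mem_filter.1 (mem_coe.1 hr')
      have h3 : a + v * r = a + v * r' := by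
        rw [← Int.mul_ediv_cancel' hd, ← Int.mul_ediv_cancel' hd']
        exact congrArg _ h
      have h4 : (r : ℤ) = r' := mul_left_cancel₀ hv'.ne' (add_left_cancel h3)
      exact_mod_cast h4
  have k2 : (Icc (-(M : ℤ)) M ∪ (S1.image (fun m : ℕ => (m : ℤ)) ∪
      S2.image (fun m : ℕ => -(m : ℤ)))).card ≤ (2 * M + 1) + S1.card + S2.card := by
    refine (card_union_le _ _).trans ?_
    have c1 : (Icc (-(M : ℤ)) M).card = 2 * M + 1 := by
      rw [Int.card_Icc]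
      omega
    have c2 := card_union_le (S1.image (fun m : ℕ => (m : ℤ))) (S2.image (fun m : ℕ => -(m : ℤ)))
    have c3 := card_image_le (s := S1) (f := fun m : ℕ => (m : ℤ))
    have c4 := card_image_le (s := S2) (f := fun m : ℕ => -(m : ℤ))
    omega
  have k3 := key.trans k2
  unfold cx
  exact_mod_cast k3

lemma VE_nonneg (u : ℕ) (L : ℝ) (E : ℤ) : 0 ≤ VE u L E := prod_nonneg fun p hp => by
  have : (1 : ℝ) < p := by exact_mod_cast (PPs_prime p (mem_filter.1 hp).1).one_lt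
  exact (sub_pos.2 (inv_lt_one_of_one_lt₀ this)).le

lemma GM_nonneg (u : ℕ) (L : ℝ) (v : ℕ) (E : ℤ) (m : ℕ) : 0 ≤ GM u L v E m := by
  unfold GM
  split_ifs
  · refine prod_nonneg fun p hp => inv_nonneg.2 ?_
    have : (1 : ℝ) < p := by exact_mod_cast (PPs_prime p (mem_filter.1 hp).1).one_lt
    exact (sub_pos.2 (inv_lt_one_of_one_lt₀ this)).le
  · exact le_rfl

lemma swap (W I : Finset ℕ) (R : ℕ → ℕ → Prop) :
    ∑ p ∈ W, (((I.filter fun m => R m p).card : ℕ) : ℝ) =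
      ∑ m ∈ I, (((W.filter fun p => R m p).card : ℕ) : ℝ) := by
  simp only [card_filter]
  push_cast
  exact sum_comm

/-- One sign of the cofactor. -/
lemma side (u t v p2 : ℕ) (L α β M1 Mp er : ℝ) (E : ℤ) (s : ℕ → ℤ) (hs : ∀ m, (s m).natAbs = m)
    (ht : 0 < (t : ℝ)) (hM1 : 1 < M1) (hMp : 0 ≤ Mp) (hab : α ≤ β) (her : 0 ≤ er)
    (hF : ∀ m : ℤ, m ≠ 0 → (((PR t t).filter fun p1 : ℕ => Q u L v p2 E α β m p1).card : ℝ) ≤
      (1 + 1 / 100) * om (Real.exp (t - 1)) α β m.natAbs / (t * Nat.totient v) * VE u L E *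
        GM u L v E m.natAbs + er)
    (hH : ∑ m ∈ Ioc ⌊M1⌋₊ ⌊Mp⌋₊, GM u L v E m * om (Real.exp (t - 1)) α β m ≤
      (1 + 1 / 100) * (1 + 1 / 100) * (β - α) / Real.log M1 * ∑ m ∈ Icc 1 ⌊Mp⌋₊, GM u L v E m / m)
    (hE : (Nat.totient v : ℝ)⁻¹ * VE u L E * ∑ m ∈ Icc 1 ⌊Mp⌋₊, GM u L v E m / m ≤
      8 / 5 / (v * V0 u)) :
    ∑ p1 ∈ PR t t, (((Ioc ⌊M1⌋₊ ⌊Mp⌋₊).filter fun m : ℕ => Q u L v p2 E α β (s m) p1).card : ℝ) ≤
      (101 / 100) ^ 3 * (8 / 5) / (t * Real.log M1 * (v * V0 u)) * (β - α) + Mp * er := by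
  rw [swap (PR t t) (Ioc ⌊M1⌋₊ ⌊Mp⌋₊) fun m p1 => Q u L v p2 E α β (s m) p1]
  have hl : 0 < Real.log M1 := Real.log_pos hM1
  have hVE := VE_nonneg u L E
  set c : ℝ := (1 + 1 / 100) / t * ((Nat.totient v : ℝ)⁻¹ * VE u L E) with hc
  have c0 : 0 ≤ c := by positivity
  have a1 : ∀ m ∈ Ioc ⌊M1⌋₊ ⌊Mp⌋₊,
      (((PR t t).filter fun p1 : ℕ => Q u L v p2 E α β (s m) p1).card : ℝ) ≤
        c * (GM u L v E m * om (Real.exp (t - 1)) α β m) + er := by
    intro m hm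
    have m0 : s m ≠ 0 := fun h => by
      have := hs m
      rw [h] at this
      have := (mem_Ioc.1 hm).1
      simp at *
      omega
    have := hF _ m0
    rw [hs] at this
    refine this.trans (le_of_eq ?_)
    rw [hc]
    ring
  refine (sum_le_sum a1).trans ?_
  rw [sum_add_distrib, ← mul_sum, sum_const, nsmul_eq_mul]
  have a2 : ((Ioc ⌊M1⌋₊ ⌊Mp⌋₊).card : ℝ) ≤ Mp := by
    rw [Nat.card_Ioc]
    exact (Nat.cast_le.2 (Nat.sub_le _ _)).trans (Nat.floor_le hMp)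
  refine add_le_add ((mul_le_mul_of_nonneg_left hH c0).trans ?_) (mul_le_mul_of_nonneg_right a2 her)
  have hd : 0 ≤ (101 / 100 : ℝ) ^ 3 / (t * Real.log M1) * (β - α) :=
    mul_nonneg (by positivity) (sub_nonneg.2 hab)
  refine le_trans (le_of_eq ?_) ((mul_le_mul_of_nonneg_left hE hd).trans (le_of_eq ?_))
  · rw [hc]
    ring
  · ring

lemma numMain (t l V v T p th : ℝ) (ht : 0 < t) (hl : 0 < l) (hV : 0 < V) (hv : 1 ≤ v)
    (hT : 100 ≤ T) (hp : 0 < p) (h1 : th ≤ 1 / 1000) :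
    (101 / 100) ^ 3 * (8 / 5) / (t * ((1 - th) * l) * (v * V)) * ((v * T + 1) / p) ≤
      17 / 10 * (V * l)⁻¹ * (T / p * (99 / 100 / t)) := by
  have h2 : 0 < 1 - th := by linarith
  have hvT : 100 ≤ v * T := by nlinarith
  have hX : 0 < T / (p * t * l * V) := by positivity
  have e1 : (101 / 100) ^ 3 * (8 / 5) / (t * ((1 - th) * l) * (v * V)) * ((v * T + 1) / p) =
      (101 / 100) ^ 3 * (8 / 5) * (((v * T + 1) / (v * T)) * (1 / (1 - th))) *
        (T / (p * t * l * V)) := by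
    field_simp
  have e2 : 17 / 10 * (V * l)⁻¹ * (T / p * (99 / 100 / t)) =
      17 / 10 * (99 / 100) * (T / (p * t * l * V)) := by
    field_simp
  have b1 : (v * T + 1) / (v * T) ≤ 101 / 100 := by
    rw [div_le_iff₀ (by linarith)]
    linarith
  have b2 : 1 / (1 - th) ≤ 1000 / 999 := by
    rw [div_le_iff₀ h2]
    linarith
  have b3 : ((v * T + 1) / (v * T)) * (1 / (1 - th)) ≤ 101 / 100 * (1000 / 999) :=
    mul_le_mul b1 b2 (by positivity) (by norm_num)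
  rw [e1, e2]
  exact mul_le_mul_of_nonneg_right (by linarith) hX.le

lemma numErr (t L l n1 Mp : ℝ) (n : ℕ) (ht : 200 ≤ t) (hL : 1 ≤ L) (hl : 0 < l) (hlL : l ≤ L)
    (hMp : Mp ≤ L ^ 2) (hLt : L ≤ t ^ (2 * n)) (hn : Real.exp (t - 1) / (2 * t) ≤ n1) :
    2 * (Mp * (Real.exp t / t ^ (4 * n + 2))) ≤ 1 / 10 * l⁻¹ * (n1 * L) := by
  have t0 : 0 < t := by linarith
  have e0 := Real.exp_pos (t - 1)
  have n0 : 0 ≤ n1 := le_trans (by positivity) hn
  have a1 : Mp ≤ t ^ (4 * n) := by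
    refine hMp.trans ((pow_le_pow_left₀ (by linarith) hLt 2).trans (le_of_eq ?_))
    ring
  have a2 : Real.exp t ≤ 3 * Real.exp (t - 1) := by
    have : Real.exp t = Real.exp 1 * Real.exp (t - 1) := by
      rw [← Real.exp_add]
      ring_nf
    rw [this]
    exact mul_le_mul_of_nonneg_right (by linarith [Real.exp_one_lt_d9]) e0.le
  have a3 : Mp * (Real.exp t / t ^ (4 * n + 2)) ≤
      t ^ (4 * n) * (3 * Real.exp (t - 1) / t ^ (4 * n + 2)) :=
    mul_le_mul a1 (div_le_div_of_nonneg_right a2 (by positivity)) (by positivity) (by positivity)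
  have a4 : t ^ (4 * n) * (3 * Real.exp (t - 1) / t ^ (4 * n + 2)) =
      6 / t * (Real.exp (t - 1) / (2 * t)) := by
    field_simp
    ring
  have a5 : 6 / t ≤ 1 / 20 := by
    rw [div_le_iff₀ t0]
    linarith
  have a6 : 6 / t * (Real.exp (t - 1) / (2 * t)) ≤ 1 / 20 * n1 :=
    mul_le_mul a5 hn (by positivity) (by norm_num)
  have a7 : 1 ≤ l⁻¹ * L := by
    rw [inv_mul_eq_div, le_div_iff₀ hl]
    linarith
  have a8 : n1 * 1 ≤ n1 * (l⁻¹ * L) := mul_le_mul_of_nonneg_left a7 n0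
  have a9 : 1 / 10 * l⁻¹ * (n1 * L) = 1 / 10 * (n1 * (l⁻¹ * L)) := by ring
  rw [a9]
  linarith

lemma lens (a x : ℝ) : (max (a + x) 0 - max a 0) + (max (-a) 0 - max (-a - x - 1) 0) ≤ x + 1 := by
  simp only [max_def]
  split_ifs <;> linarith

lemma large (K : ℝ) (n : ℕ) : ∃ Λ0 : ℝ, ∀ Λ : ℝ, Λ0 ≤ Λ → K ≤ Λ ∧ K ≤ Λ ^ (3 / 5 : ℝ) ∧
    Λ ≤ (Λ ^ (3 / 5 : ℝ)) ^ 2 ∧ Λ ^ n < Real.exp (Λ ^ (3 / 5 : ℝ) - 2) := by
  have t1 : Filter.Tendsto (fun Λ : ℝ => Λ ^ (3 / 5 : ℝ)) Filter.atTop Filter.atTop :=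
    tendsto_rpow_atTop (by norm_num)
  have t2 := (Real.tendsto_exp_div_pow_atTop (2 * n)).comp t1
  obtain ⟨Λ0, h⟩ := Filter.eventually_atTop.1 ((Filter.eventually_ge_atTop K).and
    ((t1.eventually_ge_atTop K).and ((Filter.eventually_ge_atTop (1 : ℝ)).and
      (t2.eventually_gt_atTop (Real.exp 2)))))
  refine ⟨Λ0, fun Λ hΛ => ?_⟩
  obtain ⟨a1, a2, a3, a4⟩ := h Λ hΛ
  have b1 : Λ ≤ (Λ ^ (3 / 5 : ℝ)) ^ 2 := by
    rw [← Real.rpow_natCast, ← Real.rpow_mul (by linarith)]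
    conv_lhs => rw [← Real.rpow_one Λ]
    exact Real.rpow_le_rpow_of_exponent_le a3 (by norm_num)
  refine ⟨a1, a2, b1, ?_⟩
  have x0 : 0 < Λ ^ (3 / 5 : ℝ) := Real.rpow_pos_of_pos (by linarith) _
  simp only [Function.comp] at a4
  rw [lt_div_iff₀ (by positivity)] at a4
  have b2 : Λ ^ n ≤ (Λ ^ (3 / 5 : ℝ)) ^ (2 * n) := by
    rw [pow_mul]
    exact pow_le_pow_left₀ (by linarith) b1 n
  rw [Real.exp_sub, lt_div_iff₀ (Real.exp_pos 2)]
  have := mul_le_mul_of_nonneg_right b2 (Real.exp_pos 2).le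
  linarith

end CaseB

open CaseB in
theorem pCaseB (hPi : S_Pi) (hFix : S_Fix) (hHall : S_Hall) (hEul : S_Eul) : S_CaseB := by
  obtain ⟨u1, hEul⟩ := hEul
  obtain ⟨C, hC, -, hlo, -, hcard⟩ := pi_facts hPi
  obtain ⟨M0, hHall⟩ := hHall (1 / 100) (by norm_num)
  refine ⟨max u1 2, fun u hu th B => ?_⟩
  obtain ⟨hG, L0, hEul⟩ := hEul u (le_of_max_le_left hu)
  set n := ⌈B⌉₊ with hn
  obtain ⟨Λ1, hFix⟩ := hFix (1 / 100) B (4 * n + 2) (by norm_num)
  obtain ⟨Λ0, hΛ0⟩ := large (200 + 100 * C + 30 * n + |M0| + |L0| + |Λ1|) n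
  refine ⟨Λ0, fun t A Λ L P2 T W2 a v hΛ hx hlen hav hv hvL haL => ?_⟩
  obtain ⟨k1, k2, k3, k4⟩ := hΛ0 Λ hΛ
  lift v to ℕ using (by omega)
  have hv1 : 1 ≤ v := by exact_mod_cast hv
  have hvr : (1 : ℝ) ≤ v := by exact_mod_cast hv1
  rw [Int.cast_natCast] at hvL haL
  have n0 : (0 : ℝ) ≤ n := Nat.cast_nonneg n
  have p1 := abs_nonneg M0
  have p2 := abs_nonneg L0
  have p3 := abs_nonneg Λ1
  have hL1 := hx.L0
  have hth := hx.th0
  have hth1 := hx.th1
  have L0' : 0 < L := by linarith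
  have Λ1' : 1 ≤ Λ := by linarith
  have ht : 200 + 100 * C ≤ (t : ℝ) := by linarith [hx.t1a]
  have t0 : (0 : ℝ) < t := by linarith
  have mono : ∀ x y : ℝ, x ≤ y → L ^ x ≤ L ^ y := fun x y h =>
    Real.rpow_le_rpow_of_exponent_le hL1 h
  have q1 : Λ ^ 2 ≤ L ^ th := (pow_le_pow_right₀ Λ1' (by norm_num)).trans hx.L1
  have q2 : Λ ≤ L ^ th := (le_self_pow₀ Λ1' (by norm_num)).trans q1
  have q3 : Λ ≤ L := q2.trans ((mono th 1 (by linarith)).trans_eq (Real.rpow_one L))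
  have q4 : L ≤ Λ ^ n := hx.L2.trans ((Real.rpow_le_rpow_of_exponent_le Λ1'
    (Nat.le_ceil B)).trans_eq (Real.rpow_natCast Λ n))
  have l0 : 0 < Real.log L := Real.log_pos (by linarith)
  have l1 : Real.log L ≤ L := (Real.log_le_sub_one_of_pos L0').trans (by linarith)
  have l2 : 30 * Real.log L ≤ L ^ th := by
    have b1 : Real.log L ≤ n * Λ := by
      refine (Real.log_le_log L0' q4).trans ?_
      rw [Real.log_pow]
      exact mul_le_mul_of_nonneg_left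
        ((Real.log_le_sub_one_of_pos (by linarith)).trans (by linarith)) n0
    have b2 : 30 * n * Λ ≤ Λ * Λ := mul_le_mul_of_nonneg_right (by linarith) (by linarith)
    linarith [sq Λ]
  have q5 : L ≤ (t : ℝ) ^ (2 * n) := by
    refine q4.trans ?_
    rw [pow_mul]
    exact pow_le_pow_left₀ (by linarith) (k3.trans (pow_le_pow_left₀ (by linarith) hx.t1a 2)) n
  set M1 : ℝ := L ^ (1 - th) with hM1
  set Mp : ℝ := L ^ (21 / 20 : ℝ) with hMp
  have m1 : Λ ≤ M1 := q2.trans (mono _ _ (by linarith))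
  have m2 : M1 * L ^ th = L := by
    rw [hM1, ← Real.rpow_add L0', sub_add_cancel, Real.rpow_one]
  have m3 : Real.log M1 = (1 - th) * Real.log L := Real.log_rpow L0' _
  have m4 : Mp ≤ L ^ 2 := (mono _ 2 (by norm_num)).trans_eq (Real.rpow_two L)
  have m5 : 0 ≤ Mp := Real.rpow_nonneg L0'.le _
  have m6 : 6 * L * (L ^ (20 * th) * L ^ (20 * th)) ≤ Mp := by
    have b1 : 6 ≤ L ^ th := by linarith
    have b2 : L ^ th * L * (L ^ (20 * th) * L ^ (20 * th)) = L ^ (1 + 41 * th) := by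
      rw [show 1 + 41 * th = th + 1 + (20 * th + 20 * th) by ring, Real.rpow_add L0',
        Real.rpow_add L0', Real.rpow_add L0', Real.rpow_one]
    refine le_trans ?_ (b2.le.trans (mono _ _ (by linarith)))
    exact mul_le_mul_of_nonneg_right (mul_le_mul_of_nonneg_right b1 L0'.le) (by positivity)
  have y1 : 1 ≤ L ^ (20 * th) := Real.one_le_rpow hL1 (by linarith)
  have hE : IsCoprime ((v : ℤ) * A - a) (v : ℤ) := by
    have := (hav.neg_left).add_mul_left_left (A : ℤ)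
    rwa [neg_add_eq_sub] at this
  have hc := (hcard t (by linarith)).2
  have hV := V0_pos u
  have cs1 : (Real.log L)⁻¹ ≤ cs u L :=
    inv_anti₀ (by positivity) (mul_le_of_le_one_left l0.le (V0_le_one u))
  have cs0 : 0 ≤ cs u L := le_trans (by positivity) cs1
  obtain ⟨p0, hp0⟩ : (PR t t).Nonempty :=
    card_pos.1 (Nat.cast_pos.1 (lt_of_lt_of_le (by positivity) hc))
  rw [sum_comm, sum_comm (s := PR t t) (t := W2), mul_sum]
  refine sum_le_sum fun q hq => ?_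
  obtain ⟨w1, w2, -, -⟩ := hx.W2a q hq
  have q0 : (0 : ℝ) < q := by exact_mod_cast w1.pos
  have hLq : L < q := by linarith [hx.P2a]
  have hT : 100 ≤ T := by
    have b1 := (hlen p0 hp0 q hq).1
    have b2 : (1 : ℝ) ≤ ((p0 * q : ℕ) : ℝ) := by
      exact_mod_cast Nat.mul_pos (mem_PR.1 hp0).1.pos w1.pos
    rw [le_div_iff₀ (by linarith)] at b1
    have := mul_le_mul_of_nonneg_left b2 L0'.le
    linarith
  have hvT : 0 ≤ (v : ℝ) * T := by positivity
  have side' : ∀ (α β : ℝ) (s : ℕ → ℤ), (∀ m, (s m).natAbs = m) → 0 ≤ α → α ≤ β → _ :=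
    fun α β s hs h0 hab => side u t v q L α β M1 Mp (Real.exp t / (t : ℝ) ^ (4 * n + 2))
      (v * A - a) s hs t0 (by linarith) m5 hab (by positivity)
      (fun m hm => by
        have := hFix u t v q Λ L α β (v * A - a) m (le_of_max_le_right hu)
          (by linarith [le_abs_self Λ1]) hL1 hx.L2 hx.t1a hv1
          (hvL.trans ((mono _ 1 (by linarith)).trans_eq (Real.rpow_one L))) hE hm w1 hLq hab
        refine le_trans (Nat.cast_le.2 (card_le_card fun p hp => ?_)) this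
        exact mem_filter.2 (mem_filter.1 hp))
      (hHall _ (1 / 100) _ α β M1 Mp (by norm_num) (by norm_num) (GM_nonneg u L v _) (hG L v _)
        (Real.exp_pos _) h0 hab (by linarith [le_abs_self M0]))
      (hEul L Mp v _ (by linarith [le_abs_self L0]) hv1 (hvL.trans (mono _ _ (by linarith))) hE
        le_rfl)
  have s1 := side' (max (a : ℝ) 0 / q) (max ((a : ℝ) + v * T) 0 / q) (fun m => (m : ℤ))
    (fun m => by simp) (by positivity)
    (div_le_div_of_nonneg_right (max_le_max_right _ (by linarith)) q0.le)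
  have s2 := side' (max (-(a : ℝ) - v * T - 1) 0 / q) (max (-(a : ℝ)) 0 / q) (fun m => -(m : ℤ))
    (fun m => by simp) (by positivity)
    (div_le_div_of_nonneg_right (max_le_max_right _ (by linarith)) q0.le)
  have s3 := sum_le_sum (s := PR t t) fun p hp => comb u A p q v ⌊M1⌋₊ L T Mp a hv1
    (mem_PR.1 hp).1.pos w1.pos (by
      have b1 := (hlen p hp q hq).2
      have b2 : (0 : ℝ) < p * q := mul_pos (by exact_mod_cast (mem_PR.1 hp).1.pos) q0
      rw [Nat.cast_mul, div_le_iff₀ b2] at b1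
      have b3 : (v : ℝ) * T ≤ L ^ (20 * th) * (3 * L * (p * q)) :=
        mul_le_mul hvL b1 (by linarith) (by linarith)
      have b4 := mul_le_mul_of_nonneg_left y1 hvT
      have b5 := mul_le_mul_of_nonneg_right b3 (zero_le_one.trans y1)
      have b6 := mul_le_mul_of_nonneg_right m6 b2.le
      linarith)
  rw [sum_add_distrib, sum_add_distrib, sum_const, nsmul_eq_mul] at s3
  set S := ∑ p ∈ PR t t, T / ((p * q : ℕ) : ℝ) with hS
  have S1 : ((PR t t).card : ℝ) * L ≤ S := by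
    rw [← nsmul_eq_mul]
    exact card_nsmul_le_sum _ _ _ fun p hp => (hlen p hp q hq).1
  have S2 : T / q * (99 / 100 / t) ≤ S := by
    have e : S = T / q * rc (PR t t) := by
      rw [hS, rc, mul_sum]
      refine sum_congr rfl fun p _ => ?_
      push_cast
      ring
    rw [e]
    refine mul_le_mul_of_nonneg_left (le_trans ?_ (hlo t (by exact_mod_cast (by linarith : (1 : ℝ) ≤ t))))
      (by positivity)
    refine div_le_div_of_nonneg_right ?_ t0.le
    have : C / t ≤ 1 / 100 := by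
      rw [div_le_iff₀ t0]
      linarith
    linarith
  have c0 : (0 : ℝ) ≤ (PR t t).card := Nat.cast_nonneg _
  have S0 : (Real.log L)⁻¹ * (((PR t t).card : ℝ) * L) ≤ cs u L * S :=
    mul_le_mul cs1 S1 (by positivity) cs0
  have e1 : ((PR t t).card : ℝ) * (2 * (⌊M1⌋₊ : ℝ) + 1) ≤
      1 / 10 * ((Real.log L)⁻¹ * (((PR t t).card : ℝ) * L)) := by
    have b1 : (⌊M1⌋₊ : ℝ) ≤ M1 := Nat.floor_le (by linarith)
    have b2 : 2 * (⌊M1⌋₊ : ℝ) + 1 ≤ 1 / 10 * ((Real.log L)⁻¹ * L) := by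
      rw [inv_mul_eq_div, ← mul_div_assoc, le_div_iff₀ l0]
      have b3 := mul_le_mul_of_nonneg_left l2 (by linarith : 0 ≤ M1)
      have b4 : (2 * (⌊M1⌋₊ : ℝ) + 1) * Real.log L ≤ 3 * M1 * Real.log L :=
        mul_le_mul_of_nonneg_right (by linarith) l0.le
      linarith
    have := mul_le_mul_of_nonneg_left b2 c0
    linarith
  have e2 := numErr t L (Real.log L) _ Mp n (by linarith) hL1 l0 l1 m4 q5 hc
  have e3 := numMain t (Real.log L) (V0 u) v T q th t0 l0 hV hvr hT q0 hth1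
  have e4 : 17 / 10 * (V0 u * Real.log L)⁻¹ * (T / q * (99 / 100 / t)) ≤ 17 / 10 * cs u L * S :=
    mul_le_mul_of_nonneg_left S2 (by positivity)
  rw [m3] at s1 s2
  set K : ℝ := (101 / 100) ^ 3 * (8 / 5) / (t * ((1 - th) * Real.log L) * (v * V0 u)) with hK
  have K0 : 0 ≤ K := by
    have : 0 < 1 - th := by linarith
    positivity
  have e5 := mul_le_mul_of_nonneg_left (div_le_div_of_nonneg_right (lens a (v * T)) q0.le) K0
  rw [add_div, sub_div, sub_div, mul_add] at e5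
  linarith

end Pool.Agent.P.MP_26a8c3_nt.EC
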