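import Pool.Agent.P.MP_26a8c3_nt.EC.Base

/-! Comparison of the sifted interval with the model sequence. -/

namespace Pool.Agent.P.MP_26a8c3_nt.EC

open Finset
open scoped Classical

namespace Cmp

lemma gen (hId : S_Id) {P : Finset ℕ} (hP : ∀ p ∈ P, p.Prime) (c : Finset ℕ → Prop)
    (I : Finset ℕ) (w : ℕ → ℝ) :
    ∑ n ∈ I.filter (fun n => ∀ q ∈ P, ¬ q ∣ n), w n =
      ∑ d ∈ P.powerset.filter (free c), (-1) ^ d.card * ∑ n ∈ I.filter (fun n => pv d ∣ n), w n +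
      ∑ d ∈ P.powerset.filter (first c), (-1) ^ d.card *
        ∑ n ∈ I.filter (fun n => pv d ∣ n ∧ ∀ q ∈ P, q ∣ n → mn d ≤ q), w n := by
  simp only [sum_filter (s := I), mul_sum]
  rw [sum_comm, sum_comm (s := P.powerset.filter (first c)), ← sum_add_distrib]
  refine sum_congr rfl fun n _ => ?_
  have h := hId P (P.filter (· ∣ n)) c (filter_subset _ _)
  have e0 : P.filter (· ∣ n) = ∅ ↔ ∀ q ∈ P, ¬ q ∣ n := filter_eq_empty_iff
  have e1 : ∀ d ⊆ P, d ⊆ P.filter (· ∣ n) ↔ pv d ∣ n := fun d hd => by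
    rw [pv_dvd_iff fun p hp => hP p (hd hp)]
    exact ⟨fun a p hp => (mem_filter.1 (a hp)).2, fun a p hp => mem_filter.2 ⟨hd hp, a p hp⟩⟩
  have e2 : ∀ d : Finset ℕ, (∀ q ∈ P.filter (· ∣ n), mn d ≤ q) ↔ ∀ q ∈ P, q ∣ n → mn d ≤ q :=
    fun d => by simp only [mem_filter, and_imp]
  have h2 := congrArg (· * w n) h
  simp only [add_mul, sum_mul, mul_assoc, ite_mul, one_mul, zero_mul] at h2
  rw [if_congr e0 rfl rfl] at h2
  refine Eq.trans (by congr) (h2.trans ?_)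
  congr 1
  · refine sum_congr rfl fun d hd => ?_
    have := e1 d (mem_powerset.1 (mem_filter.1 hd).1)
    simp only [this]
  · refine sum_congr rfl fun d hd => ?_
    have := e1 d (mem_powerset.1 (mem_filter.1 hd).1)
    simp only [this, e2]

lemma free_tree {Δ : ℕ} {S : Finset (Finset ℕ)} {d : Finset ℕ}
    (h : free (fun d => ¬ tree Δ d ∨ d ∈ S) d) : tree Δ d := by
  rcases d.eq_empty_or_nonempty with rfl | hd
  · exact tree_empty Δ
  · have := h _ (mn_mem hd)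
    rw [up_mn] at this
    exact not_not.1 fun a => this (Or.inl a)

lemma tree_up {Δ : ℕ} {d : Finset ℕ} (h : tree Δ d) (q : ℕ) : tree Δ (up d q) := fun r hr => by
  have e : up (up d q) r = up d r := by
    ext x
    have := (mem_up.1 hr).2
    simp only [mem_up]
    exact ⟨fun a => ⟨a.1.1, a.2⟩, fun a => ⟨⟨a.1, by omega⟩, a.2⟩⟩
  rw [e]
  exact h r (mem_up.1 hr).1

lemma first_of_mem {Δ : ℕ} {S : Finset (Finset ℕ)} {s : Finset ℕ} (hs : s ∈ S) (h0 : s.Nonempty)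
    (h1 : tree Δ s) (h2 : ∀ q ∈ s, up s q ∈ S → up s q = s) :
    first (fun d => ¬ tree Δ d ∨ d ∈ S) s := by
  refine ⟨h0, Or.inr hs, fun q hq => ?_⟩
  rw [up_erase (mn_lt hq)]
  rintro (a | a)
  · exact a (tree_up h1 q)
  · have h3 := mn_mem h0
    rw [← h2 q (mem_of_mem_erase hq) a] at h3
    have h4 := (mem_up.1 h3).2
    rw [h2 q (mem_of_mem_erase hq) a] at h4
    exact absurd (mn_lt hq) (not_lt.2 h4)

lemma bdry_of_first {Δ : ℕ} {S : Finset (Finset ℕ)} {d : Finset ℕ}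
    (h : first (fun d => ¬ tree Δ d ∨ d ∈ S) d) (hd : d ∉ S) : bdry Δ d := by
  have h1 : ¬ tree Δ d := h.2.1.resolve_right hd
  have h2 := free_tree h.2.2
  refine ⟨Nat.not_even_iff_odd.1 fun he => h1 ?_, h2, h1⟩
  rw [← insert_erase (mn_mem h.1), tree_insert fun q hq => mn_lt hq]
  refine ⟨h2, fun h3 => ?_⟩
  rw [← card_erase_add_one (mn_mem h.1), Nat.even_add_one] at he
  exact absurd h3 he

lemma mult (A N D : ℕ) (hD : 0 < D) :
    |∑ n ∈ (Ioc A (A + N)).filter (fun n => D ∣ n), (1 : ℝ) - N / D| ≤ 1 := by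
  have h1 : ((Ioc A (A + N)).filter (fun n => D ∣ n)).card + A / D = (A + N) / D := by
    rw [← Nat.Ioc_filter_dvd_card_eq_div A D, ← Nat.Ioc_filter_dvd_card_eq_div (A + N) D,
      ← card_union_of_disjoint (disjoint_filter_filter (disjoint_left.2 fun x a b => by
        have := mem_Ioc.1 a
        have := mem_Ioc.1 b
        omega)), ← filter_union, union_comm, Ioc_union_Ioc_eq_Ioc (by omega) (by omega)]
  have hD' : (0 : ℝ) < D := by exact_mod_cast hD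
  have h2 : ∀ x : ℕ, ((x / D : ℕ) : ℝ) ≤ x / D ∧ (x : ℝ) / D ≤ (x / D : ℕ) + 1 := fun x => by
    refine ⟨Nat.cast_div_le, ?_⟩
    rw [div_le_iff₀ hD']
    have := Nat.lt_mul_div_succ x hD
    rw [mul_comm] at this
    exact_mod_cast this.le
  have h3 := congrArg (Nat.cast : ℕ → ℝ) h1
  have h4 := h2 A
  have h5 := h2 (A + N)
  rw [Nat.cast_add] at h3
  rw [Nat.cast_add, add_div] at h5
  rw [sum_const, nsmul_eq_mul, mul_one, abs_le]
  constructor <;> linarith [h4.1, h4.2, h5.1, h5.2]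

lemma sum_sqrt (M : ℕ) : ∑ m ∈ Icc 1 M, (√(m : ℝ))⁻¹ ≤ 2 * √(M : ℝ) := by
  induction M with
  | zero => simp
  | succ M ih =>
    rw [sum_Icc_succ_top (by omega)]
    have h1 : (0 : ℝ) < √((M + 1 : ℕ) : ℝ) := Real.sqrt_pos.2 (by positivity)
    have h2 : √((M + 1 : ℕ) : ℝ) ^ 2 = √(M : ℝ) ^ 2 + 1 := by
      rw [Real.sq_sqrt (by positivity), Real.sq_sqrt (by positivity)]
      push_cast
      rfl
    have h3 : (√((M + 1 : ℕ) : ℝ))⁻¹ ≤ 2 * √((M + 1 : ℕ) : ℝ) - 2 * √(M : ℝ) := by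
      rw [inv_le_iff_one_le_mul₀ h1]
      nlinarith [sq_nonneg (√((M + 1 : ℕ) : ℝ) - √(M : ℝ))]
    linarith

lemma err {F : Finset (Finset ℕ)} {T X : ℝ} (hX : 0 ≤ X) (hT : 0 ≤ T)
    (hF : ∀ d ∈ F, (∀ p ∈ d, p.Prime) ∧ (pv d : ℝ) ≤ T) :
    ∑ d ∈ F, √(X / pv d) ≤ 2 * √(X * T) := by
  have h1 : ∑ d ∈ F, (√(pv d : ℝ))⁻¹ ≤ ∑ m ∈ Icc 1 ⌊T⌋₊, (√(m : ℝ))⁻¹ := by
    rw [← sum_image (g := pv) (f := fun m : ℕ => (√(m : ℝ))⁻¹)
      fun d hd d' hd' h => pv_inj (hF d hd).1 (hF d' hd').1 h]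
    refine sum_le_sum_of_subset_of_nonneg (fun m hm => ?_) fun _ _ _ => by positivity
    obtain ⟨d, hd, rfl⟩ := mem_image.1 hm
    exact mem_Icc.2 ⟨pv_pos (hF d hd).1, Nat.le_floor (hF d hd).2⟩
  have h2 := (h1.trans (sum_sqrt _)).trans
    (mul_le_mul_of_nonneg_left (Real.sqrt_le_sqrt (Nat.floor_le hT)) (by norm_num))
  simp only [Real.sqrt_div hX]
  simp only [div_eq_mul_inv]
  rw [← mul_sum, Real.sqrt_mul hX, mul_left_comm]
  exact mul_le_mul_of_nonneg_left h2 (Real.sqrt_nonneg _)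

lemma sign_le (k : ℕ) {a b e : ℝ} (h : |a - b| ≤ e) :
    (-1) ^ k * a ≤ (-1) ^ k * b + e ∧ (-1) ^ k * b ≤ (-1) ^ k * a + e := by
  have := abs_le.1 h
  rcases neg_one_pow_eq_or ℝ k with h1 | h1 <;> rw [h1] <;> constructor <;>
    linarith [this.1, this.2]

end Cmp

open Cmp in
theorem pCmp (hId : S_Id) (hNode : S_Node) (hMinus : S_Minus) : S_Cmp := by
  intro u hu
  obtain ⟨C, hC, hN⟩ := hNode u hu
  obtain ⟨C1, -, hM⟩ := hMinus
  have hV : 0 < V0 u * Real.log 2 := mul_pos (V0_pos u) (Real.log_pos one_lt_two)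
  generalize V0 u * Real.log 2 = V at hV hN ⊢
  refine ⟨2 * (V⁻¹ * C + 1), by positivity, fun Z Δ A N S hZ hΔ hS => ?_⟩
  obtain ⟨n1, n2⟩ := hN Z N hZ
  have hP : ∀ p ∈ PR u Z, p.Prime := fun p hp => (mem_PR.1 hp).1
  set c : Finset ℕ → Prop := fun d => ¬ tree Δ d ∨ d ∈ S with hc
  set F := (PR u Z).powerset.filter (free c) with hF
  set T := (PR u Z).powerset.filter (first c) with hT
  have hFs : ∀ d ∈ F, d ⊆ PR u Z := fun d hd => mem_powerset.1 (mem_filter.1 hd).1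
  have hFp : ∀ d ∈ F, (∀ p ∈ d, p.Prime) ∧ (pv d : ℝ) ≤ Real.exp Δ := fun d hd => by
    have h1 : ∀ p ∈ d, p.Prime := fun p hp => hP p (hFs d hd hp)
    exact ⟨h1, (pv_le_exp h1).trans (Real.exp_le_exp.2
      (by exact_mod_cast tree_ts (free_tree (mem_filter.1 hd).2)))⟩
  have hE := err (Nat.cast_nonneg N) (Real.exp_pos Δ).le hFp
  have hST : S ⊆ T := fun s hs => mem_filter.2 ⟨mem_powerset.2 (hS s hs).1,
    first_of_mem hs (hS s hs).2.1 (hS s hs).2.2.1 (hS s hs).2.2.2.2⟩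
  have hB : ∀ d ∈ T \ S, d ⊆ PR u Z ∧ bdry Δ d := fun d hd =>
    ⟨mem_powerset.1 (mem_filter.1 (mem_sdiff.1 hd).1).1,
      bdry_of_first (mem_filter.1 (mem_sdiff.1 hd).1).2 (mem_sdiff.1 hd).2⟩
  have a1 : (cop (pv (PR u Z)) A (A + N) : ℝ) ≤ ∑ d ∈ F, (-1) ^ d.card * ((N : ℝ) / pv d) +
      ∑ d ∈ F, √((N : ℝ) / pv d) + ∑ s ∈ S, (Sf u Z A N s : ℝ) := by
    have g := gen hId hP c (Ioc A (A + N)) fun _ => 1
    have e : (cop (pv (PR u Z)) A (A + N) : ℝ) =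
        ∑ n ∈ (Ioc A (A + N)).filter (fun n => ∀ q ∈ PR u Z, ¬ q ∣ n), (1 : ℝ) := by
      rw [sum_const, nsmul_eq_mul, mul_one, cop]
      congr 2
      exact filter_congr fun n _ => coprime_pv hP n
    rw [e, g, ← hF, ← hT, ← sum_sdiff hST, ← sum_add_distrib]
    refine add_le_add (sum_le_sum fun d hd => ?_) (add_le_of_nonpos_left ?_ |>.trans ?_)
    · have h0 := pv_pos (hFp d hd).1
      have h1 : (1 : ℝ) ≤ √((N : ℝ) / pv d) := Real.one_le_sqrt.2
        ((one_le_div (by exact_mod_cast h0)).2 ((hFp d hd).2.trans hΔ))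
      exact (sign_le _ ((mult A N _ h0).trans h1)).1
    · refine sum_nonpos fun d hd => ?_
      rw [(hB d hd).2.1.neg_one_pow, neg_one_mul]
      exact neg_nonpos.2 (sum_nonneg fun _ _ => zero_le_one)
    · refine le_of_eq (sum_congr rfl fun s hs => ?_)
      rw [(hS s hs).2.2.2.1.neg_one_pow, one_mul, sum_const, nsmul_eq_mul, mul_one, Sf]
      congr 2
      exact filter_congr fun n _ => and_congr_right fun _ => forall₂_congr fun q _ =>
        ⟨fun a b h => absurd (a h) (not_le.2 b), fun a h => not_lt.1 fun b => a b h⟩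
  have a2 : V * ∑ d ∈ F, (-1) ^ d.card * ((N : ℝ) / pv d) ≤ SM 1 N (rt Z) + Bd u Z Δ N +
      C * ∑ d ∈ F, √((N : ℝ) / pv d) - ∑ s ∈ S, SM 1 (N / pv s) (mn s) := by
    have g := gen hId hP c ((Ioc 0 ⌊(N : ℝ)⌋₊).filter fun n => Nat.Coprime n (pv (PR 0 (u - 1))))
      fun n => (1 - lam n) * ww (N / n)
    simp only [filter_filter] at g
    have g1 : ∑ d ∈ T, SM ((-1) ^ d.card) (N / pv d) (mn d) * (-1) ^ d.card = _ :=
      sum_congr rfl fun d hd => by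
        rw [← (n2 d (mem_powerset.1 (mem_filter.1 hd).1)).2 (mem_filter.1 hd).2.1, mul_comm]
    have g2 : SM 1 N (rt Z) = _ := n1.symm.trans (Eq.trans (by congr) g)
    have g3 : ∑ d ∈ T, SM ((-1) ^ d.card) (N / pv d) (mn d) * (-1) ^ d.card =
        ∑ s ∈ S, SM 1 (N / pv s) (mn s) - ∑ d ∈ T \ S, SM (-1) (N / pv d) (mn d) := by
      rw [← sum_sdiff hST, sub_eq_neg_add, ← sum_neg_distrib]
      congr 1
      · exact sum_congr rfl fun d hd => by rw [(hB d hd).2.1.neg_one_pow, mul_neg_one]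
      · exact sum_congr rfl fun s hs => by rw [(hS s hs).2.2.2.1.neg_one_pow, mul_one]
    have g4 : ∑ d ∈ T \ S, SM (-1) (N / pv d) (mn d) ≤ Bd u Z Δ N :=
      sum_le_sum_of_subset_of_nonneg
        (fun d hd => mem_filter.2 ⟨mem_powerset.2 (hB d hd).1, (hB d hd).2⟩) fun d hd _ =>
        (hM _ _ (by positivity) (hP _ (mem_powerset.1 (mem_filter.1 hd).1
          (mn_mem (card_pos.1 (mem_filter.1 hd).2.1.pos))))).1
    have g5 := sum_le_sum fun d (hd : d ∈ F) =>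
      (sign_le d.card ((n2 d (hFs d hd)).1 ((hFp d hd).2.trans hΔ))).2
    rw [sum_add_distrib, ← mul_sum] at g5
    rw [mul_sum]
    simp only [mul_left_comm V]
    rw [← hF, ← hT] at g2
    linarith
  have a3 := mul_le_mul_of_nonneg_left a2 (inv_pos.2 hV).le
  rw [← mul_assoc, inv_mul_cancel₀ hV.ne', one_mul] at a3
  have a4 := mul_le_mul_of_nonneg_left hE (by positivity : 0 ≤ V⁻¹ * C + 1)
  rw [sum_sub_distrib, ← mul_sum]
  linarith

end Pool.Agent.P.MP_26a8c3_nt.EC
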