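import Pool.Agent.P.MP_26a8c3_nt.EC.Base

/-! The colouring step: almost all pairs of large primes belong to one popular point. -/

namespace Pool.Agent.P.MP_26a8c3_nt.EC

open Finset Filter
open scoped Classical

namespace Col

lemma ev (c B : ℝ) : ∀ᶠ Λ : ℝ in atTop,
    c + B * Real.log Λ + Λ ^ (13 / 25 : ℝ) ≤ Λ ^ (3 / 5 : ℝ) := by
  have h1 := (tendsto_rpow_atTop (y := 13 / 25) (by norm_num)).eventually_ge_atTop c
  have h2 := (tendsto_rpow_atTop (y := 2 / 25) (by norm_num)).eventually_ge_atTop 3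
  have h3 := ((isLittleO_log_rpow_atTop (r := 13 / 25) (by norm_num)).const_mul_left B).bound
    one_pos
  filter_upwards [h1, h2, h3, eventually_gt_atTop 0] with Λ a1 a2 a3 a4
  have e : Λ ^ (3 / 5 : ℝ) = Λ ^ (13 / 25 : ℝ) * Λ ^ (2 / 25 : ℝ) := by
    rw [← Real.rpow_add a4]; norm_num
  have p : 0 ≤ Λ ^ (13 / 25 : ℝ) := Real.rpow_nonneg a4.le _
  rw [one_mul, Real.norm_of_nonneg p] at a3
  have a5 := (le_abs_self _).trans a3
  rw [e]
  nlinarith

lemma num (B ε C : ℝ) (hε : 0 < ε) : ∀ᶠ Λ : ℝ in atTop, 2 ≤ Λ ∧ C ≤ Λ ^ (3 / 5 : ℝ) ∧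
    1 ≤ Real.exp (Λ ^ (3 / 5 : ℝ) - 2) * (Λ ^ 9)⁻¹ ∧
    81 * Xi Λ * Λ * Λ ^ B ≤ ε * (Real.exp (Λ ^ (3 / 5 : ℝ) - 2) * (Λ ^ 9)⁻¹) := by
  filter_upwards [eventually_ge_atTop 2,
    (tendsto_rpow_atTop (y := 3 / 5) (by norm_num)).eventually_ge_atTop C,
    ev 2 9, ev (2 + Real.log (81 / ε)) (B + 10)] with Λ a1 a2 a3 a4
  have h0 : 0 < Λ := by linarith
  have p : 0 ≤ Λ ^ (13 / 25 : ℝ) := Real.rpow_nonneg h0.le _
  have e9 : Λ ^ 9 = Real.exp (9 * Real.log Λ) := by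
    rw [show (9 : ℝ) = (9 : ℕ) by norm_num, Real.exp_nat_mul, Real.exp_log h0]
  refine ⟨a1, a2, ?_, ?_⟩
  · rw [e9, ← Real.exp_neg, ← Real.exp_add]
    exact Real.one_le_exp (by linarith)
  · have e1 : 81 * Xi Λ * Λ * Λ ^ B = ε * Real.exp (Real.log (81 / ε) + Λ ^ (13 / 25 : ℝ) +
        Real.log Λ + Real.log Λ * B) := by
      rw [Real.exp_add, Real.exp_add, Real.exp_add, Real.exp_log (by positivity), Real.exp_log h0,
        ← Real.rpow_def_of_pos h0, Xi]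
      field_simp
    rw [e1, e9, ← Real.exp_neg, ← Real.exp_add]
    exact mul_le_mul_of_nonneg_left (Real.exp_le_exp.2 (by linarith)) hε.le

/-- The number of primes that divide a nonzero integer. -/
lemma omega_le {D : ℤ} (hD : D ≠ 0) (P : Finset ℕ) (hP : ∀ p ∈ P, p.Prime ∧ (p : ℤ) ∣ D) :
    (P.card : ℝ) ≤ 2 * Real.log |(D : ℝ)| := by
  have h1 : pv P ∣ D.natAbs := (pv_dvd_iff (fun p hp => (hP p hp).1) _).2 fun p hp =>
    Int.natCast_dvd.1 (hP p hp).2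
  have h2 : pv P ≤ D.natAbs := Nat.le_of_dvd (Int.natAbs_pos.2 hD) h1
  have h3 := log_nat_mono h2
  rw [log_pv fun p hp => (hP p hp).1, Nat.cast_natAbs, Int.cast_abs] at h3
  have h4 : (P.card : ℝ) * (1 / 2) ≤ ∑ p ∈ P, Real.log p := by
    rw [← nsmul_eq_mul]
    refine card_nsmul_le_sum _ _ _ fun p hp => ?_
    have := log_nat_mono (hP p hp).1.two_le
    push_cast at this
    linarith [Real.log_two_gt_d9]
  linarith

lemma common {u A : ℕ} {th Λ L : ℝ} (hΛ : 1 ≤ Λ) {x x' : ℤ × ℤ} (h : Pop u th Λ L A x)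
    (h' : Pop u th Λ L A x') (hne : x ≠ x') (P : Finset ℕ)
    (hP : ∀ p ∈ P, p.Prime ∧ (p : ℤ) ∣ x.2 * A - x.1 ∧ (p : ℤ) ∣ x'.2 * A - x'.1) :
    (P.card : ℝ) ≤ 18 * Λ := by
  obtain ⟨c, v, a1, a2, -⟩ := h
  obtain ⟨c', v', a1', a2', -⟩ := h'
  have hD : x.2 * x'.1 - x'.2 * x.1 ≠ 0 := fun e => by
    have e1 : x.2 * x'.1 = x'.2 * x.1 := by linarith
    have d1 : x.2 ∣ x'.2 := c.symm.dvd_of_dvd_mul_right ⟨_, e1.symm⟩
    have d2 : x'.2 ∣ x.2 := c'.symm.dvd_of_dvd_mul_right ⟨_, e1⟩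
    have e2 : x.2 = x'.2 := Int.dvd_antisymm (by omega) (by omega) d1 d2
    rw [e2] at e1
    exact hne (Prod.ext (mul_left_cancel₀ (by omega) e1).symm e2)
  refine (omega_le hD P fun p hp => ⟨(hP p hp).1, ?_⟩).trans ?_
  · have := ((hP p hp).2.1.mul_left x'.2).sub ((hP p hp).2.2.mul_left x.2)
    rwa [show x'.2 * (x.2 * A - x.1) - x.2 * (x'.2 * A - x'.1) = x.2 * x'.1 - x'.2 * x.1 by ring]
      at this
  · have v0 : (0 : ℝ) ≤ x.2 := by exact_mod_cast (by omega : 0 ≤ x.2)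
    have v0' : (0 : ℝ) ≤ x'.2 := by exact_mod_cast (by omega : 0 ≤ x'.2)
    have e : Real.exp (4 * Λ) * Real.exp (4 * Λ) = Real.exp (8 * Λ) := by
      rw [← Real.exp_add]; ring_nf
    have b : |((x.2 * x'.1 - x'.2 * x.1 : ℤ) : ℝ)| ≤ Real.exp (1 + 8 * Λ) := by
      push_cast
      refine (abs_sub _ _).trans ?_
      rw [abs_mul, abs_mul, abs_of_nonneg v0, abs_of_nonneg v0', Real.exp_add]
      have m1 := mul_le_mul a2 a1' (abs_nonneg _) (Real.exp_pos _).le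
      have m2 := mul_le_mul a2' a1 (abs_nonneg _) (Real.exp_pos _).le
      have m3 := mul_le_mul_of_nonneg_right (Real.add_one_le_exp 1) (Real.exp_pos (8 * Λ)).le
      linarith
    have p : 0 < |((x.2 * x'.1 - x'.2 * x.1 : ℤ) : ℝ)| := abs_pos.2 (Int.cast_ne_zero.2 hD)
    have := (Real.log_le_iff_le_exp p).2 b
    linarith

/-- Few elements have no partner. -/
lemma lonely {W1 W2 : Finset ℕ} {G : Finset (ℕ × ℕ)} (hG : G ⊆ W1 ×ˢ W2)
    (code : ℕ × ℕ → ℕ × ℕ) (Q : ℕ × ℕ → ℕ × ℕ → Prop) (M : ℕ)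
    (H : ∀ S ⊆ G, (∀ a ∈ S, ∀ b ∈ S, code a = code b) → S.card = M →
      ∃ a ∈ S, ∃ b ∈ S, a ≠ b ∧ Q a b) :
    ((G.filter fun a => ¬ ∃ b ∈ G, a.1 ≠ b.1 ∧ a.2 ≠ b.2 ∧ Q a b).card : ℝ) ≤
      (G.image code).card * ((W1.card + W2.card + 1) * M) := by
  set Lo := G.filter fun a => ¬ ∃ b ∈ G, a.1 ≠ b.1 ∧ a.2 ≠ b.2 ∧ Q a b with hLo
  have s : Lo ⊆ G := filter_subset _ _
  rw [card_eq_sum_card_fiberwise (f := code) (t := G.image code)
    (fun a ha => mem_coe.2 (mem_image_of_mem _ (s (mem_coe.1 ha)))), Nat.cast_sum, ← nsmul_eq_mul]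
  refine sum_le_card_nsmul _ _ _ fun c _ => le_of_not_gt fun hc => ?_
  have key : ∀ a : ℕ × ℕ, ∀ T ⊆ Lo, (∀ b ∈ T, a.1 = b.1 ∨ a.2 = b.2) →
      (T.card : ℝ) ≤ W1.card + W2.card := fun a T hT hr => by
    have : ((W1 ×ˢ ({a.2} : Finset ℕ) ∪ ({a.1} : Finset ℕ) ×ˢ W2).card : ℝ) ≤
        W1.card + W2.card := by
      have := card_union_le (W1 ×ˢ ({a.2} : Finset ℕ)) (({a.1} : Finset ℕ) ×ˢ W2)
      rw [card_product, card_product, card_singleton, card_singleton, mul_one, one_mul] at this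
      exact_mod_cast this
    refine le_trans (Nat.cast_le.2 (card_le_card fun b hb => ?_)) this
    have b2 := hr b hb
    have b3 := mem_product.1 (hG (s (hT hb)))
    simp only [mem_union, mem_product, mem_singleton]
    tauto
  obtain ⟨S, hS, h1, h2⟩ := greedy (fun a b : ℕ × ℕ => a.1 = b.1 ∨ a.2 = b.2)
    (fun a b h => h.imp Eq.symm Eq.symm) (D := (W1.card : ℝ) + W2.card) (by positivity) M
    (Lo.filter fun a => code a = c) (fun a _ => key a _ (fun b hb => by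
      simp only [mem_filter] at hb
      exact hb.1.1) fun b hb => by
      simp only [mem_filter] at hb
      exact hb.2) hc.le
  have s2 : S ⊆ Lo := hS.trans (filter_subset _ _)
  obtain ⟨a, ha, b, hb, hab, hq⟩ := H S (s2.trans s)
    (fun a ha b hb => (mem_filter.1 (hS ha)).2.trans (mem_filter.1 (hS hb)).2.symm) h1
  have := not_or.1 (h2 a ha b hb hab)
  exact (mem_filter.1 (s2 ha)).2 ⟨b, s (s2 hb), this.1, this.2, hq⟩

lemma sum_card_le {β : Type} (X : Finset β) (W : Finset ℕ) (c : ℕ → β → Prop)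
    [∀ x, DecidablePred fun p => c p x]
    (h : ∀ p, ∀ x ∈ X, ∀ x' ∈ X, c p x → c p x' → x = x') :
    ∑ x ∈ X, ((W.filter fun p => c p x).card : ℝ) ≤ W.card := by
  rw [← Nat.cast_sum, ← card_biUnion fun x hx x' hx' hne => disjoint_left.2 fun p a b =>
    hne (h p x hx x' hx' (mem_filter.1 a).2 (mem_filter.1 b).2)]
  exact Nat.cast_le.2 (card_le_card (biUnion_subset.2 fun _ _ => filter_subset _ _))

/-- One colour carries almost everything. -/
lemma colour {β : Type} (X : Finset β) (a b : β → ℝ) {n1 n2 η : ℝ} (h1 : 0 < n1) (h2 : 0 < n2)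
    (hη : η < 1) (a0 : ∀ x, 0 ≤ a x) (b0 : ∀ x, 0 ≤ b x) (ha : ∑ x ∈ X, a x ≤ n1)
    (hb : ∑ x ∈ X, b x ≤ n2) (h : (1 - η) * (n1 * n2) ≤ ∑ x ∈ X, a x * b x) :
    ∃ x ∈ X, (1 - η) * n1 ≤ a x ∧ (1 - 2 * η) * n2 ≤ b x := by
  have hX : X.Nonempty := nonempty_iff_ne_empty.2 fun e => by
    rw [e, sum_empty] at h
    exact h.not_gt (mul_pos (by linarith) (mul_pos h1 h2))
  obtain ⟨x, hx, hm⟩ := exists_max_image X a hX
  have bb : ∀ y ∈ X, b y ≤ n2 := fun y hy => (single_le_sum (fun z _ => b0 z) hy).trans hb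
  have aa : a x ≤ n1 := (single_le_sum (fun z _ => a0 z) hx).trans ha
  have e1 : ∑ y ∈ X, a y * b y ≤ a x * n2 :=
    (sum_le_sum fun y hy => mul_le_mul_of_nonneg_right (hm y hy) (b0 y)).trans
      (by rw [← mul_sum]; exact mul_le_mul_of_nonneg_left hb (a0 x))
  have e2 : (1 - η) * n1 ≤ a x := le_of_mul_le_mul_right (by linarith) h2
  have e3 : ∑ y ∈ X.erase x, a y * b y ≤ (∑ y ∈ X.erase x, a y) * n2 := by
    rw [sum_mul]
    exact sum_le_sum fun y hy => mul_le_mul_of_nonneg_left (bb y (mem_of_mem_erase hy)) (a0 y)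
  rw [← add_sum_erase _ _ hx] at ha h
  have e4 : (∑ y ∈ X.erase x, a y) * n2 ≤ (η * n1) * n2 :=
    mul_le_mul_of_nonneg_right (by linarith) h2.le
  have e5 := mul_le_mul_of_nonneg_right aa (b0 x)
  exact ⟨x, hx, e2, le_of_mul_le_mul_left (by linarith) h1⟩

/-- The counting argument with abstract colours. -/
lemma count {β : Type} (X : Finset β) (dv : ℕ → β → Prop) {W1 W2 : Finset ℕ}
    {G Lo : Finset (ℕ × ℕ)} (hG : G ⊆ W1 ×ˢ W2) {ε K : ℝ} (hε : 0 < ε) (hε' : ε ≤ 1 / 40)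
    (h1 : (0 : ℝ) < W1.card) (h2 : (0 : ℝ) < W2.card)
    (hc : (1 - ε) * (W1.card * W2.card) ≤ (G.card : ℝ))
    (hL : ∀ a ∈ G, a ∉ Lo → ∃ x ∈ X, dv a.1 x ∧ dv a.2 x)
    (hK : ∀ x ∈ X, ∀ x' ∈ X, x ≠ x' → ∀ P : Finset ℕ,
      (∀ p ∈ P, p ∈ W1 ∪ W2 ∧ dv p x ∧ dv p x') → (P.card : ℝ) ≤ K) (K0 : 0 ≤ K)
    (hs : Lo.card + (X.card : ℝ) ^ 2 * K * (W1.card + W2.card) ≤ ε * (W1.card * W2.card)) :
    ∃ x ∈ X, (∀ T : Finset (ℕ × ℕ), (∀ a ∈ T, a ∈ W1 ×ˢ W2 ∧ ¬ (dv a.1 x ∧ dv a.2 x)) →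
        (T.card : ℝ) ≤ 8 * ε * (W1.card * W2.card)) ∧
      ∃ G' ⊆ G, (W1.card * W2.card : ℝ) / 4 ≤ G'.card ∧ ∀ a ∈ G', ∀ x' ∈ X, dv a.1 x' → x' = x := by
  set Bd := (X ×ˢ X).biUnion fun y => if y.1 = y.2 then ∅ else
    (W1 ∪ W2).filter fun p => dv p y.1 ∧ dv p y.2 with hBd
  have b1 : (Bd.card : ℝ) ≤ (X.card : ℝ) ^ 2 * K := by
    refine (Nat.cast_le.2 card_biUnion_le).trans ?_
    rw [Nat.cast_sum, sq, ← Nat.cast_mul, ← card_product, ← nsmul_eq_mul]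
    refine sum_le_card_nsmul _ _ _ fun y hy => ?_
    split_ifs with e
    · simpa using K0
    · exact hK _ (mem_product.1 hy).1 _ (mem_product.1 hy).2 e _ fun p hp => mem_filter.1 hp
  have b2 : ∀ p ∈ W1 ∪ W2, p ∉ Bd → ∀ x ∈ X, ∀ x' ∈ X, dv p x → dv p x' → x = x' :=
    fun p hp hb x hx x' hx' d d' => by_contra fun e => hb (mem_biUnion.2
      ⟨(x, x'), mem_product.2 ⟨hx, hx'⟩, by rw [if_neg e]; exact mem_filter.2 ⟨hp, d, d'⟩⟩)
  set c : ℕ → β → Prop := fun p x => p ∈ W1 ∪ W2 ∧ p ∉ Bd ∧ dv p x with hcd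
  have cu : ∀ p, ∀ x ∈ X, ∀ x' ∈ X, c p x → c p x' → x = x' :=
    fun p x hx x' hx' d d' => b2 p d.1 d.2.1 x hx x' hx' d.2.2 d'.2.2
  have s : G ⊆ (X.biUnion fun x => (W1.filter fun p => c p x) ×ˢ (W2.filter fun p => c p x)) ∪
      (Lo ∪ (W1 ×ˢ Bd ∪ Bd ×ˢ W2)) := fun a ha => by
    have m := mem_product.1 (hG ha)
    by_cases l1 : a ∈ Lo
    · exact mem_union_right _ (mem_union_left _ l1)
    by_cases l2 : a.2 ∈ Bd
    · exact mem_union_right _ (mem_union_right _ (mem_union_left _ (mem_product.2 ⟨m.1, l2⟩)))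
    by_cases l3 : a.1 ∈ Bd
    · exact mem_union_right _ (mem_union_right _ (mem_union_right _ (mem_product.2 ⟨l3, m.2⟩)))
    obtain ⟨x, hx, d1, d2⟩ := hL a ha l1
    exact mem_union_left _ (mem_biUnion.2 ⟨x, hx, mem_product.2
      ⟨mem_filter.2 ⟨m.1, mem_union_left _ m.1, l3, d1⟩,
        mem_filter.2 ⟨m.2, mem_union_right _ m.2, l2, d2⟩⟩⟩)
  have s2 : G.card ≤ ∑ x ∈ X, (W1.filter fun p => c p x).card * (W2.filter fun p => c p x).card +
      (Lo.card + (W1.card * Bd.card + Bd.card * W2.card)) := by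
    refine (card_le_card s).trans ((card_union_le _ _).trans (add_le_add
      (card_biUnion_le.trans (sum_le_sum fun x _ => (card_product _ _).le))
      ((card_union_le _ _).trans (add_le_add le_rfl ((card_union_le _ _).trans ?_)))))
    rw [card_product, card_product]
  have s3 : (G.card : ℝ) ≤ ∑ x ∈ X, ((W1.filter fun p => c p x).card : ℝ) *
      (W2.filter fun p => c p x).card + (Lo.card + (W1.card * Bd.card + Bd.card * W2.card)) := by
    exact_mod_cast s2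
  have s4 := mul_le_mul_of_nonneg_right b1 (add_pos h1 h2).le
  obtain ⟨x, hx, a1, a2⟩ := colour X (fun x => ((W1.filter fun p => c p x).card : ℝ))
    (fun x => ((W2.filter fun p => c p x).card : ℝ)) h1 h2 (η := 2 * ε) (by linarith)
    (fun _ => Nat.cast_nonneg _) (fun _ => Nat.cast_nonneg _) (sum_card_le X W1 c cu)
    (sum_card_le X W2 c cu) (by linarith)
  have n0 := mul_pos h1 h2
  refine ⟨x, hx, fun T hT => ?_, G.filter fun a => c a.1 x, filter_subset _ _, ?_, fun a ha x' hx' d => ?_⟩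
  · have e1 := card_filter_add_card_filter_not (s := W1 ×ˢ W2) fun a => dv a.1 x ∧ dv a.2 x
    have e2 : ((W1.filter fun p => c p x) ×ˢ (W2.filter fun p => c p x)).card ≤
        ((W1 ×ˢ W2).filter fun a => dv a.1 x ∧ dv a.2 x).card := card_le_card fun a ha => by
      obtain ⟨m1, m2⟩ := mem_product.1 ha
      exact mem_filter.2 ⟨mem_product.2 ⟨(mem_filter.1 m1).1, (mem_filter.1 m2).1⟩,
        (mem_filter.1 m1).2.2.2, (mem_filter.1 m2).2.2.2⟩
    rw [card_product] at e1 e2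
    have e3 : ((W1.filter fun p => c p x).card : ℝ) * (W2.filter fun p => c p x).card +
        ((W1 ×ˢ W2).filter fun a => ¬ (dv a.1 x ∧ dv a.2 x)).card ≤ W1.card * W2.card := by
      exact_mod_cast (by omega)
    have e4 := mul_le_mul a1 a2 (mul_nonneg (by linarith) h2.le) (Nat.cast_nonneg _)
    have e5 := mul_pos hε n0
    have e6 := mul_pos hε e5
    refine le_trans (Nat.cast_le.2 (card_le_card (t := (W1 ×ˢ W2).filter
      fun a => ¬ (dv a.1 x ∧ dv a.2 x)) fun a ha => mem_filter.2 (hT a ha))) ?_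
    nlinarith
  · have e1 := card_filter_add_card_filter_not (s := G) fun a => c a.1 x
    have e2 : (G.filter fun a => ¬ c a.1 x).card ≤ ((W1.filter fun p => ¬ c p x) ×ˢ W2).card :=
      card_le_card fun a ha => mem_product.2 ⟨mem_filter.2
        ⟨(mem_product.1 (hG (mem_filter.1 ha).1)).1, (mem_filter.1 ha).2⟩,
        (mem_product.1 (hG (mem_filter.1 ha).1)).2⟩
    have e3 := card_filter_add_card_filter_not (s := W1) fun p => c p x
    rw [card_product] at e2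
    have e4 : (G.card : ℝ) ≤ (G.filter fun a => c a.1 x).card +
        (W1.filter fun p => ¬ c p x).card * W2.card := by exact_mod_cast (by omega)
    have e5 : ((W1.filter fun p => c p x).card : ℝ) + (W1.filter fun p => ¬ c p x).card =
        W1.card := by exact_mod_cast e3
    have e6 : ((W1.filter fun p => ¬ c p x).card : ℝ) * W2.card ≤ (2 * ε * W1.card) * W2.card :=
      mul_le_mul_of_nonneg_right (by linarith) h2.le
    have e7 := mul_le_mul_of_nonneg_right hε' n0.le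
    linarith
  · have m := (mem_filter.1 ha).2
    exact b2 _ m.1 m.2.1 x' hx' x hx d m.2.2

lemma small {n1 n2 H a b ε : ℝ} (H1 : 1 ≤ H) (h1 : H ≤ n1) (h2 : H ≤ n2) (a0 : 0 ≤ a) (b0 : 0 ≤ b)
    (h : 3 * (a + b) ≤ ε * H) : a * (n1 + n2 + 1) + b * (n1 + n2) ≤ ε * (n1 * n2) := by
  have e1 : H * n1 ≤ n1 * n2 := by nlinarith
  have e2 : H * n2 ≤ n1 * n2 := by nlinarith
  have e3 : H * 1 ≤ n1 * n2 := mul_le_mul h1 (H1.trans h2) zero_le_one (by linarith)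
  have e4 := mul_le_mul_of_nonneg_left (add_le_add (add_le_add e1 e2) e3) (add_nonneg a0 b0)
  have e5 := mul_le_mul_of_nonneg_right h (by linarith : 0 ≤ n1 * n2)
  have e6 : 0 ≤ H * b := by positivity
  exact le_of_mul_le_mul_left (a := H) (by nlinarith) (by linarith)

end Col

open Col in
theorem pCol (hPi : S_Pi) (hPair : S_Pair) (hList : S_List) : S_Col := by
  intro B th ε hε hε'
  by_cases h0 : 0 < th
  swap
  · exact ⟨0, fun _ _ _ _ _ _ _ _ _ _ c => absurd c.th0 h0⟩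
  obtain ⟨C, hC, -, -, -, hn⟩ := pi_facts hPi
  obtain ⟨Λ1, hP⟩ := hPair th h0
  obtain ⟨Λ2, hLi⟩ := hList B th h0
  obtain ⟨Λ3, hN⟩ := eventually_atTop.1 (num B ε (2 * C) hε)
  refine ⟨max Λ1 (max Λ2 Λ3), fun u t1 A Λ L P2 W2 G code hΛ c hG hc hXi hM => ?_⟩
  obtain ⟨l1, l2⟩ := max_le_iff.1 hΛ
  obtain ⟨l2, l3⟩ := max_le_iff.1 l2
  obtain ⟨n1, n2, n3, n4⟩ := hN Λ l3
  set H := Real.exp (Λ ^ (3 / 5 : ℝ) - 2) * (Λ ^ 9)⁻¹ with hH
  have Λ0 : 0 < Λ := by linarith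
  have t0 : (0 : ℝ) < t1 := by linarith [c.t1a]
  have w1 : H ≤ (PR t1 t1).card := by
    refine le_trans ?_ (hn t1 (n2.trans c.t1a)).2
    rw [div_eq_mul_inv]
    refine mul_le_mul (Real.exp_le_exp.2 (by linarith [c.t1a])) (inv_anti₀ (by positivity) ?_)
      (by positivity) (Real.exp_pos _).le
    have := pow_le_pow_right₀ (by linarith : 1 ≤ Λ) (by norm_num : 2 ≤ 9)
    nlinarith [c.t1b]
  have w2 : H ≤ W2.card := (mul_le_mul_of_nonneg_right c.P2a (by positivity)).trans c.W2b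
  set N : ℤ := ⌈Real.exp (4 * Λ)⌉ with hN'
  set X := (Icc (-N) N ×ˢ Icc (-N) N).filter (Pop u th Λ L A) with hX
  have mX : ∀ x, x ∈ X ↔ Pop u th Λ L A x := fun x => by
    refine ⟨fun h => (mem_filter.1 h).2, fun h => mem_filter.2 ⟨?_, h⟩⟩
    have e := Int.le_ceil (Real.exp (4 * Λ))
    have a1 : |x.1| ≤ N := by exact_mod_cast h.2.2.1.trans e
    have a2 : x.2 ≤ N := by exact_mod_cast h.2.2.2.1.trans e
    have a3 := h.2.1
    exact mem_product.2 ⟨mem_Icc.2 (abs_le.1 a1), mem_Icc.2 ⟨by omega, a2⟩⟩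
  have cX := hLi u A Λ L X l2 c.L0 c.L1 c.L2 fun x hx => (mX x).1 hx
  have pr1 : ∀ p ∈ PR t1 t1, p.Prime ∧ tau p = t1 := fun p hp =>
    ⟨(mem_PR.1 hp).1, le_antisymm (mem_PR.1 hp).2.2 (mem_PR.1 hp).2.1⟩
  have ne : ∀ p ∈ PR t1 t1, ∀ q ∈ W2, p ≠ q := fun p hp q hq e => by
    have := (c.W2a q hq).2.2.2
    rw [← e, (pr1 p hp).2] at this
    exact lt_irrefl _ this
  have sz : ∀ a ∈ G, ((a.1 * a.2 : ℕ) : ℝ) ≤ Real.exp (2 * Λ) := fun a ha => by
    have m := mem_product.1 (hG ha)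
    have e1 : (a.1 : ℝ) ≤ Real.exp Λ := (le_exp_tau _).trans (Real.exp_le_exp.2
      (by rw [(pr1 _ m.1).2]; exact c.t1b))
    have e2 : (a.2 : ℝ) ≤ Real.exp Λ := (le_exp_tau _).trans (Real.exp_le_exp.2
      (le_trans (Nat.cast_le.2 (c.W2a _ m.2).2.2.2.le) c.t1b))
    rw [Nat.cast_mul, two_mul, Real.exp_add]
    exact mul_le_mul e1 e2 (Nat.cast_nonneg _) (Real.exp_pos _).le
  have lo := lonely hG code (fun a b => L ^ (-(6 * th)) / 4 ≤
    ag u th L (((A / (a.1 * a.2) : ℕ) : ℤ) - ((A / (b.1 * b.2) : ℕ) : ℤ))) ⌈8 * L ^ (6 * th)⌉₊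
    fun S hS h1 h2 => hM S hS h1 (by rw [h2]; exact Nat.le_ceil _)
  have Lp : ∀ r : ℝ, r ≤ 1 → L ^ r ≤ Λ ^ B := fun r hr =>
    ((Real.rpow_le_rpow_of_exponent_le c.L0 hr).trans_eq (Real.rpow_one L)).trans c.L2
  have B1 : 1 ≤ Λ ^ B := c.L0.trans c.L2
  have Xi1 : 1 ≤ Xi Λ := Real.one_le_exp (Real.rpow_nonneg Λ0.le _)
  have M1 : (⌈8 * L ^ (6 * th)⌉₊ : ℝ) ≤ 9 * Λ ^ B := by
    have := Nat.ceil_lt_add_one (a := 8 * L ^ (6 * th)) (by have := c.L0; positivity)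
    linarith [Lp (6 * th) (by linarith [c.th1])]
  have X2 : (X.card : ℝ) ^ 2 ≤ Λ ^ B := by
    refine (pow_le_pow_left₀ (Nat.cast_nonneg _) cX 2).trans ?_
    rw [sq, ← Real.rpow_add (by linarith [c.L0])]
    exact Lp _ (by linarith [c.th1])
  obtain ⟨x, hx, r1, G', s, r2, r3⟩ := count X (fun p x => (p : ℤ) ∣ x.2 * A - x.1) hG hε hε'
    (by linarith) (by linarith) hc (K := 18 * Λ) (Lo := G.filter fun a => ¬ ∃ b ∈ G, a.1 ≠ b.1 ∧
      a.2 ≠ b.2 ∧ L ^ (-(6 * th)) / 4 ≤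
        ag u th L (((A / (a.1 * a.2) : ℕ) : ℤ) - ((A / (b.1 * b.2) : ℕ) : ℤ)))
    (fun a ha hl => by
      obtain ⟨b, hb, e1, e2, e3⟩ := not_not.1 fun h => hl (mem_filter.2 ⟨ha, h⟩)
      have m := mem_product.1 (hG ha)
      have m' := mem_product.1 (hG hb)
      have p1 := (pr1 _ m.1).1
      have p2 := (c.W2a _ m.2).1
      have q1 := (pr1 _ m'.1).1
      have q2 := (c.W2a _ m'.2).1
      have co : Nat.Coprime (a.1 * a.2) (b.1 * b.2) := Nat.Coprime.mul_left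
        (((Nat.coprime_primes p1 q1).2 e1).mul_right ((Nat.coprime_primes p1 q2).2 (ne _ m.1 _ m'.2)))
        (((Nat.coprime_primes p2 q1).2 (ne _ m'.1 _ m.2).symm).mul_right
          ((Nat.coprime_primes p2 q2).2 e2))
      have dn : a.1 * a.2 ≠ b.1 * b.2 := fun e => by
        rw [← e, Nat.coprime_self] at co
        exact p1.one_lt.ne' (Nat.eq_one_of_mul_eq_one_right co)
      obtain ⟨x, x1, -, -, x2⟩ := hP u A _ _ Λ L l1 c.L0 c.L1 (Nat.mul_pos p1.pos p2.pos)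
        (Nat.mul_pos q1.pos q2.pos) dn co (sz a ha) (sz b hb) e3
      push_cast at x2
      exact ⟨x, (mX x).2 x1, ((dvd_mul_right _ _).mul_right _).trans x2,
        ((dvd_mul_left _ _).mul_right _).trans x2⟩)
    (fun x hx x' hx' hne P hP => common (by linarith) ((mX x).1 hx) ((mX x').1 hx') hne _
      fun p hp => ⟨(mem_union.1 (hP p hp).1).elim (fun h => (pr1 p h).1) fun h => (c.W2a p h).1,
        (hP p hp).2⟩) (by positivity)
    (by
      refine le_trans (add_le_add (lo.trans ?_) ?_) (small n3 w1 w2 (a := Xi Λ * (9 * Λ ^ B))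
        (b := Λ ^ B * (18 * Λ)) (by positivity) (by positivity) (le_trans ?_ n4))
      · rw [mul_assoc, mul_comm (9 * Λ ^ B)]
        exact mul_le_mul hXi (mul_le_mul_of_nonneg_left M1 (by positivity)) (by positivity)
          (by linarith)
      · exact mul_le_mul_of_nonneg_right (mul_le_mul_of_nonneg_right X2 (by positivity))
          (by positivity)
      · have e1 : Xi Λ * Λ ^ B * 1 ≤ Xi Λ * Λ ^ B * Λ :=
          mul_le_mul_of_nonneg_left (by linarith) (by positivity)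
        have e2 : 1 * (Λ ^ B * Λ) ≤ Xi Λ * (Λ ^ B * Λ) :=
          mul_le_mul_of_nonneg_right Xi1 (by positivity)
        linarith)
  refine ⟨x, (mX x).1 hx, r1 _ fun a ha => ?_, G', s, r2,
    fun a ha x' h d => r3 a ha x' ((mX x').2 h) d⟩
  obtain ⟨m, d⟩ := mem_filter.1 ha
  refine ⟨m, fun h => d ?_⟩
  have m' := mem_product.1 m
  rw [Nat.cast_mul]
  exact (Nat.isCoprime_iff_coprime.2 ((Nat.coprime_primes (pr1 _ m'.1).1 (c.W2a _ m'.2).1).2
    (ne _ m'.1 _ m'.2))).mul_dvd h.1 h.2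

end Pool.Agent.P.MP_26a8c3_nt.EC
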