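import Pool.Agent.P.MP_26a8c3_nt.EC.Base

/-! A node with small remaining budget has many small primes. -/

namespace Pool.Agent.P.MP_26a8c3_nt.EC

open Finset
open scoped Classical

namespace Dec

lemma ts_erase {d : Finset ℕ} (hd : d.Nonempty) : ts d = tau (mn d) + ts (d.erase (mn d)) := by
  rw [← ts_insert (notMem_erase _ _), insert_erase (mn_mem hd)]

/-- removing the least element does not change the two greatest ones -/
lemma top_erase {d : Finset ℕ} (h : (rest (d.erase (mn d))).Nonempty) :
    top d = top (d.erase (mn d)) ∧ top (rest d) = top (rest (d.erase (mn d))) := by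
  have h1 := top_mem h
  have h2 := top_mem (h.mono (erase_subset _ _))
  have e : top d = top (d.erase (mn d)) := top_eq (mem_of_mem_erase h2) fun q hq => by
    by_cases a : q = mn d
    · exact a ▸ (mn_lt h2).le
    · exact le_top' (mem_erase.2 ⟨a, hq⟩)
  refine ⟨e, top_eq (mem_erase.2 ⟨e ▸ ne_of_mem_erase h1,
    mem_of_mem_erase (mem_of_mem_erase h1)⟩) fun q hq => ?_⟩
  by_cases a : q = mn d
  · exact a ▸ (mn_lt (mem_of_mem_erase h1)).le
  · exact le_top' (mem_erase.2 ⟨e ▸ ne_of_mem_erase hq, mem_erase.2 ⟨a, mem_of_mem_erase hq⟩⟩)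

lemma two_le {Δ r : ℕ} {s : Finset ℕ} (he : Even s.card) (h : Δ ≤ ts s + r) (hr : r < Δ) :
    2 ≤ s.card := by
  have : s.card ≠ 0 := fun e => by
    rw [card_eq_zero.1 e, ts, sum_empty] at h
    omega
  obtain ⟨j, hj⟩ := he
  omega

lemma rest_ne {s : Finset ℕ} (h : 2 ≤ s.card) : (rest s).Nonempty := by
  have := pred_card_le_card_erase (s := s) (a := top s)
  exact card_pos.1 (lt_of_lt_of_le (by omega) this)

end Dec

theorem pDec : S_Dec := by
  intro k Δ
  induction k with
  | zero =>
    intro r s _ he h hr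
    exact ⟨∅, empty_subset _, rfl, notMem_empty _, notMem_empty _,
      top_mem (Dec.rest_ne (Dec.two_le he h (by omega))), fun _ hp => absurd hp (notMem_empty _)⟩
  | succ k ih =>
    intro r s ht he h hr
    have r1 : r ≤ 3 ^ (k + 1) * r := Nat.le_mul_of_pos_left r (by positivity)
    have c2 := Dec.two_le he h (by omega)
    have n0 : s.Nonempty := card_pos.1 (by omega)
    have c1 := card_erase_add_one (mn_mem n0)
    have n1 : (s.erase (mn s)).Nonempty := card_pos.1 (by omega)
    have c0 := card_erase_add_one (mn_mem n1)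
    have ho : Odd (s.erase (mn s)).card := by
      rwa [← c1, Nat.even_add_one, Nat.not_even_iff_odd] at he
    have he' : Even ((s.erase (mn s)).erase (mn (s.erase (mn s)))).card := by
      rwa [← c0, Nat.odd_add_one, Nat.not_odd_iff_even] at ho
    have t0 := Dec.ts_erase n0
    have t1 := Dec.ts_erase n1
    have t2 := tree_odd (tree_erase ht) ho
    have t3 := tau_mono (mn_lt (mn_mem n1)).le
    have e3 : 3 ^ k * (3 * r) = 3 ^ (k + 1) * r := by ring
    obtain ⟨e, e1, e2, e4, e5, e6, e7⟩ := ih (3 * r) _ (tree_erase (tree_erase ht)) he'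
      (by omega) (by omega)
    obtain ⟨a1, a2⟩ := Dec.top_erase ⟨_, e6⟩
    have b1 : top (rest (s.erase (mn s))) ∈ rest (s.erase (mn s)) := by
      rw [a2]
      exact mem_erase.2 ⟨a1 ▸ ne_of_mem_erase e6, mem_of_mem_erase (mem_of_mem_erase e6)⟩
    obtain ⟨a3, a4⟩ := Dec.top_erase ⟨_, b1⟩
    have hp : mn (s.erase (mn s)) ∉ e := fun a => notMem_erase _ _ (e1 a)
    have hq : ∀ x ∈ (s.erase (mn s)).erase (mn (s.erase (mn s))), x ∉ e →
        x ∉ insert (mn s) (insert (mn (s.erase (mn s))) e) := fun x hx hx' a => by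
      rcases mem_insert.1 a with a | a
      · exact ne_of_mem_erase (mem_of_mem_erase hx) a
      · exact (mem_insert.1 a).elim (ne_of_mem_erase hx) hx'
    have sub : insert (mn (s.erase (mn s))) e ⊆ s.erase (mn s) :=
      insert_subset (mn_mem n1) (e1.trans (erase_subset _ _))
    refine ⟨insert (mn s) (insert (mn (s.erase (mn s))) e),
      insert_subset (mn_mem n0) (sub.trans (erase_subset _ _)), ?_, ?_, ?_, ?_, fun p hp' => ?_⟩
    · rw [card_insert_of_notMem fun a => notMem_erase _ _ (sub a), card_insert_of_notMem hp, e2]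
      ring
    · rw [a3, a1]
      exact hq _ (top_mem ⟨_, mem_of_mem_erase e6⟩) e4
    · rw [a4, a2]
      exact hq _ (mem_of_mem_erase e6) e5
    · exact top_mem (Dec.rest_ne c2)
    · rcases mem_insert.1 hp' with rfl | hp'
      · omega
      rcases mem_insert.1 hp' with rfl | hp'
      · omega
      · exact e3 ▸ e7 p hp'

end Pool.Agent.P.MP_26a8c3_nt.EC
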