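import Pool.Agent.P.MP_26a8c3_nt.EC.Base

/-! The Euler product bound for the local densities. -/

namespace Pool.Agent.P.MP_26a8c3_nt.EC

open Finset
open scoped Classical

namespace Eul

lemma geo {x : ℝ} (hx : 1 < x) (K : ℕ) : ∑ a ∈ range K, (x ^ (a + 1))⁻¹ ≤ (x - 1)⁻¹ := by
  have h : ∑ a ∈ range K, (x ^ (a + 1))⁻¹ = (x - 1)⁻¹ * (1 - (x ^ K)⁻¹) := by
    induction K with
    | zero => simp
    | succ K ih =>
      have : x - 1 ≠ 0 := by linarith
      have : x ≠ 0 := by linarith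
      rw [sum_range_succ, ih]
      field_simp
      ring
  have h1 : 0 < (x - 1)⁻¹ := inv_pos.2 (by linarith)
  have h2 : 0 < (x ^ K)⁻¹ := by positivity
  rw [h]
  nlinarith

/-- A sum over integers with prime factors in `R` is at most an Euler product. -/
lemma euler (f h : ℕ → ℝ) (hf : ∀ m, 0 ≤ f m) (hh : ∀ p, 0 ≤ h p)
    (hm : ∀ m p a : ℕ, p.Prime → f (m * p ^ (a + 1)) ≤ h p * f m) (R : Finset ℕ) :
    (∀ p ∈ R, p.Prime) → ∀ S : Finset ℕ, (∀ m ∈ S, m ≠ 0 ∧ ∀ q : ℕ, q.Prime → q ∣ m → q ∈ R) →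
      ∑ m ∈ S, f m / m ≤ f 1 * ∏ p ∈ R, (1 + h p * ((p : ℝ) - 1)⁻¹) := by
  induction R using Finset.induction_on with
  | empty =>
    intro _ S hS
    have : S ⊆ {1} := fun m hm => by
      rw [mem_singleton]
      by_contra hne
      obtain ⟨q, hq, hd⟩ := Nat.exists_prime_and_dvd hne
      exact notMem_empty _ ((hS m hm).2 q hq hd)
    refine (sum_le_sum_of_subset_of_nonneg this fun m _ _ => div_nonneg (hf m) m.cast_nonneg).trans ?_
    simp
  | insert p R hp ih =>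
    intro hR S hS
    have pp := hR p (mem_insert_self _ _)
    have p1 : (1 : ℝ) < p := by exact_mod_cast pp.one_lt
    set S' := S.image fun m => m / p ^ m.factorization p with hS'
    set K := S.sup fun m => m.factorization p with hK
    have i1 := ih (fun q hq => hR q (mem_insert_of_mem hq)) S' fun m' hm' => by
      obtain ⟨m, hm, rfl⟩ := mem_image.1 hm'
      refine ⟨(Nat.ordCompl_pos p (hS m hm).1).ne', fun q hq hd => ?_⟩
      rcases mem_insert.1 ((hS m hm).2 q hq (hd.trans (Nat.ordCompl_dvd m p))) with rfl | h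
      · exact absurd hd (Nat.not_dvd_ordCompl hq (hS m hm).1)
      · exact h
    have s1 : S ⊆ (S' ×ˢ range (K + 1)).image fun x => x.1 * p ^ x.2 := fun m hm =>
      mem_image.2 ⟨(m / p ^ m.factorization p, m.factorization p), mem_product.2
        ⟨mem_image_of_mem _ hm, mem_range.2 (Nat.lt_succ_of_le
          (le_sup (f := fun m => m.factorization p) hm))⟩, by
        rw [mul_comm]; exact Nat.ordProj_mul_ordCompl_eq_self m p⟩
    refine (sum_le_sum_of_subset_of_nonneg s1 fun m _ _ =>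
      div_nonneg (hf m) m.cast_nonneg).trans ?_
    refine (sum_image_le_of_nonneg fun m _ => div_nonneg (hf m) m.cast_nonneg).trans ?_
    have e1 : 0 ≤ 1 + h p * ((p : ℝ) - 1)⁻¹ := by
      have := mul_nonneg (hh p) (inv_pos.2 (sub_pos.2 p1)).le
      linarith
    rw [sum_product, prod_insert hp, mul_left_comm]
    refine le_trans ?_ (mul_le_mul_of_nonneg_left i1 e1)
    rw [mul_sum]
    refine sum_le_sum fun m _ => ?_
    have e2 : 0 ≤ f m / m := div_nonneg (hf m) m.cast_nonneg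
    rw [sum_range_succ', add_mul, one_mul, add_comm]
    simp only [pow_zero, mul_one]
    refine add_le_add le_rfl ?_
    calc ∑ a ∈ range K, f (m * p ^ (a + 1)) / ((m * p ^ (a + 1) : ℕ) : ℝ)
        ≤ ∑ a ∈ range K, h p * (f m / m) * ((p : ℝ) ^ (a + 1))⁻¹ := sum_le_sum fun a _ => by
          refine (div_le_div_of_nonneg_right (hm m p a pp) (Nat.cast_nonneg _)).trans (le_of_eq ?_)
          push_cast
          rw [div_eq_mul_inv, div_eq_mul_inv, mul_inv]
          ring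
      _ ≤ h p * (f m / m) * ((p : ℝ) - 1)⁻¹ := by
          rw [← mul_sum]
          exact mul_le_mul_of_nonneg_left (geo p1 K) (mul_nonneg (hh p) e2)
      _ = _ := by ring

lemma fac_pos {p : ℕ} (hp : p.Prime) : 0 < 1 - (p : ℝ)⁻¹ :=
  sub_pos.2 (inv_lt_one_of_one_lt₀ (by exact_mod_cast hp.one_lt))

lemma one_le_fac {p : ℕ} (hp : p.Prime) : 1 ≤ (1 - (p : ℝ)⁻¹)⁻¹ :=
  (one_le_inv₀ (fac_pos hp)).2 (by
    have : (0 : ℝ) ≤ (p : ℝ)⁻¹ := by positivity
    linarith)

lemma GM_nonneg (u : ℕ) (L : ℝ) (v : ℕ) (E : ℤ) (m : ℕ) : 0 ≤ GM u L v E m := by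
  unfold GM
  split_ifs
  · exact prod_nonneg fun p hp => (inv_pos.2 (fac_pos (PPs_prime p (mem_filter.1 hp).1))).le
  · exact le_rfl

lemma GM_one (u : ℕ) (L : ℝ) (v : ℕ) (E : ℤ) : GM u L v E 1 ≤ 1 := by
  unfold GM
  split_ifs
  · rw [filter_false_of_mem fun p hp => (PPs_prime p hp).not_dvd_one, prod_empty]
  · exact zero_le_one

/-- The extra factor of a prime. -/
noncomputable def ex (u : ℕ) (L : ℝ) (p : ℕ) : ℝ := if p ∈ PPs u L then (1 - (p : ℝ)⁻¹)⁻¹ else 1

lemma one_le_ex (u : ℕ) (L : ℝ) (p : ℕ) : 1 ≤ ex u L p := by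
  unfold ex
  split_ifs with h
  · exact one_le_fac (PPs_prime p h)
  · exact le_rfl

lemma GM_mul (u : ℕ) (L : ℝ) (v : ℕ) (E : ℤ) (m p a : ℕ) (hp : p.Prime) :
    GM u L v E (m * p ^ a) ≤ ex u L p * GM u L v E m := by
  have h0 := mul_nonneg (zero_le_one.trans (one_le_ex u L p)) (GM_nonneg u L v E m)
  by_cases hc : Nat.Coprime (m * p ^ a) v ∧ ∀ q ∈ PPs u L, (q : ℤ) ∣ E → ¬ q ∣ m * p ^ a
  swap
  · rw [GM, if_neg hc]
    exact h0
  have hc' : Nat.Coprime m v ∧ ∀ q ∈ PPs u L, (q : ℤ) ∣ E → ¬ q ∣ m :=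
    ⟨hc.1.coprime_mul_right, fun q hq hE hd => hc.2 q hq hE (hd.mul_right _)⟩
  rw [GM, GM, if_pos hc, if_pos hc', prod_filter, prod_filter]
  have e : ex u L p = ∏ q ∈ PPs u L, if p = q then (1 - (q : ℝ)⁻¹)⁻¹ else 1 := by
    rw [prod_ite_eq, ex]
  rw [e, ← prod_mul_distrib]
  refine prod_le_prod (fun q hq => ?_) fun q hq => ?_
  · have := one_le_fac (PPs_prime q hq)
    split_ifs <;> linarith
  · have h1 := one_le_fac (PPs_prime q hq)
    by_cases h2 : q ∣ m * p ^ a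
    · rcases ((PPs_prime q hq).dvd_mul).1 h2 with h3 | h3
      · rw [if_pos h2, if_pos h3]
        split_ifs <;> nlinarith
      · have h4 : p = q :=
          ((Nat.prime_dvd_prime_iff_eq (PPs_prime q hq) hp).1 ((PPs_prime q hq).dvd_of_dvd_pow h3)).symm
        rw [if_pos h2, if_pos h4]
        split_ifs <;> nlinarith
    · rw [if_neg h2]
      split_ifs <;> nlinarith

/-- The weight of a prime in the Euler product. -/
noncomputable def wt (u : ℕ) (L : ℝ) (v : ℕ) (E : ℤ) (p : ℕ) : ℝ :=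
  if p ∣ v ∨ (p ∈ PPs u L ∧ (p : ℤ) ∣ E) then 0 else ex u L p

lemma wt_nonneg (u : ℕ) (L : ℝ) (v : ℕ) (E : ℤ) (p : ℕ) : 0 ≤ wt u L v E p := by
  unfold wt
  split_ifs
  · exact le_rfl
  · exact zero_le_one.trans (one_le_ex u L p)

lemma GM_wt (u : ℕ) (L : ℝ) (v : ℕ) (E : ℤ) (m p a : ℕ) (hp : p.Prime) :
    GM u L v E (m * p ^ (a + 1)) ≤ wt u L v E p * GM u L v E m := by
  unfold wt
  split_ifs with h
  · have hd : p ∣ m * p ^ (a + 1) := (dvd_pow_self p a.succ_ne_zero).mul_left _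
    rw [zero_mul, GM, if_neg]
    rintro ⟨h1, h2⟩
    rcases h with h | h
    · exact hp.not_dvd_one (h1 ▸ Nat.dvd_gcd hd h)
    · exact h2 p h.1 h.2 hd
  · exact GM_mul u L v E m p _ hp

lemma big {u p : ℕ} {L : ℝ} (hu : 6 ≤ u) (hp : p ∈ PPs u L) : 100 < p := by
  have h1 := exp_tau_lt (PPs_prime p hp).pos
  have h2 : (6 : ℝ) ≤ tau p := by exact_mod_cast hu.trans (mem_filter.1 hp).2.2
  have h3 : Real.exp 5 ≤ Real.exp (tau p - 1) := Real.exp_le_exp.2 (by linarith)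
  have h4 : (2.7 : ℝ) ^ 5 ≤ Real.exp 5 := by
    have := Real.exp_nat_mul 1 5
    rw [mul_one] at this
    exact_mod_cast (pow_le_pow_left₀ (by norm_num)
      (by linarith [Real.exp_one_gt_d9]) 5).trans this.ge
  have : (100 : ℝ) < p := by
    norm_num at h4
    linarith
  exact_mod_cast this

lemma tele (N : ℕ) : ∑ n ∈ Ioc 100 (100 + N), ((n : ℝ) * (n - 1))⁻¹ = 1 / 100 - 1 / (100 + N) := by
  induction N with
  | zero => simp
  | succ N ih =>
    rw [← add_assoc, sum_Ioc_succ_top (by omega), ih]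
    push_cast
    have : (100 + (N : ℝ) + 1 - 1) = 100 + N := by ring
    rw [this]
    field_simp
    ring

lemma small {u : ℕ} (L : ℝ) (hu : 6 ≤ u) :
    ∏ p ∈ PPs u L, (1 + ((p : ℝ) * (p - 1))⁻¹) ≤ 100 / 99 := by
  have a : ∀ n : ℕ, 100 < n → 0 ≤ ((n : ℝ) * (n - 1))⁻¹ := fun n hn => by
    have : (100 : ℝ) < n := by exact_mod_cast hn
    exact inv_nonneg.2 (mul_nonneg (by linarith) (by linarith))
  refine (prod_one_add_le _ fun p hp => a p (big hu hp)).trans ?_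
  have s : PPs u L ⊆ Ioc 100 (100 + (PPs u L).sup id) := fun p hp =>
    mem_Ioc.2 ⟨big hu hp, le_add_left (le_sup (f := id) hp)⟩
  have h1 := sum_le_sum_of_subset_of_nonneg s fun n hn _ => a n (mem_Ioc.1 hn).1
  rw [tele] at h1
  have h2 : (0 : ℝ) ≤ 1 / (100 + ((PPs u L).sup id : ℕ)) := by positivity
  refine (Real.exp_le_exp.2 (h1.trans (by linarith : _ ≤ (1 / 100 : ℝ)))).trans ?_
  refine (Real.exp_bound_div_one_sub_of_interval (by norm_num) (by norm_num)).trans ?_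
  norm_num

/-- The product of all local factors. -/
lemma local_prod {u v : ℕ} {L : ℝ} {E : ℤ} (hu : 6 ≤ u) (hv : 1 ≤ v) (hE : IsCoprime E (v : ℤ))
    (R : Finset ℕ) (hR : ∀ p ∈ R, p.Prime) (h1 : PPs u L ⊆ R) (h2 : v.primeFactors ⊆ R)
    (h3 : ∀ p ∈ R, p ∉ PPs u L → p ∈ PR 0 (u - 1)) :
    (Nat.totient v : ℝ)⁻¹ * VE u L E * ∏ p ∈ R, (1 + wt u L v E p * ((p : ℝ) - 1)⁻¹) ≤
      100 / 99 / (v * V0 u) := by
  have v0 : (0 : ℝ) < v := by exact_mod_cast hv
  have e1 : (Nat.totient v : ℝ)⁻¹ =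
      (v : ℝ)⁻¹ * ∏ p ∈ R, if p ∣ v then (1 - (p : ℝ)⁻¹)⁻¹ else 1 := by
    have t : ((Nat.totient v : ℚ) : ℝ) = _ := congrArg _ (Nat.totient_eq_mul_prod_factors v)
    push_cast at t
    rw [t, mul_inv, ← prod_inv_distrib, ← prod_filter]
    congr 1
    refine prod_congr ?_ fun _ _ => rfl
    ext p
    rw [mem_filter]
    exact ⟨fun h => ⟨h2 h, Nat.dvd_of_mem_primeFactors h⟩, fun h =>
      Nat.mem_primeFactors.2 ⟨hR p h.1, h.2, by omega⟩⟩
  have e2 : VE u L E =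
      ∏ p ∈ R, if p ∈ PPs u L ∧ ¬ (p : ℤ) ∣ E then (1 - (p : ℝ)⁻¹) else 1 := by
    rw [VE, ← prod_filter]
    refine prod_congr ?_ fun _ _ => rfl
    ext p
    rw [mem_filter, mem_filter]
    exact ⟨fun h => ⟨h1 h.1, h⟩, fun h => h.2⟩
  have e3 : (∏ p ∈ R, if p ∈ PPs u L then 1 + ((p : ℝ) * (p - 1))⁻¹ else 1) ≤ 100 / 99 := by
    rw [← prod_filter, filter_mem_eq_inter, inter_eq_right.2 h1]
    exact small L hu
  have e4 : (∏ p ∈ R, if p ∉ PPs u L then (1 - (p : ℝ)⁻¹)⁻¹ else 1) ≤ (V0 u)⁻¹ := by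
    rw [← prod_filter, V0, ← prod_inv_distrib]
    exact prod_le_prod_of_subset_of_one_le
      (fun p hp => h3 p (mem_filter.1 hp).1 (mem_filter.1 hp).2)
      (fun p hp => zero_le_one.trans (one_le_fac (hR p (mem_filter.1 hp).1)))
      fun p hp _ => one_le_fac (mem_PR.1 hp).1
  have e5 : (0 : ℝ) ≤ ∏ p ∈ R, if p ∉ PPs u L then (1 - (p : ℝ)⁻¹)⁻¹ else 1 :=
    prod_nonneg fun p hp => by
      have := one_le_fac (hR p hp)
      split_ifs <;> linarith
  rw [e1, e2, mul_assoc, mul_assoc, ← prod_mul_distrib, ← prod_mul_distrib]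
  have e6 : (100 / 99 : ℝ) / (v * V0 u) = (v : ℝ)⁻¹ * (100 / 99 * (V0 u)⁻¹) := by
    rw [div_eq_mul_inv, mul_inv]
    ring
  rw [e6]
  refine mul_le_mul_of_nonneg_left (le_trans ?_ (mul_le_mul e3 e4 e5 (by norm_num)))
    (inv_nonneg.2 v0.le)
  rw [← prod_mul_distrib]
  refine prod_le_prod (fun p hp => ?_) fun p hp => ?_
  · have a1 := one_le_fac (hR p hp)
    have a2 := fac_pos (hR p hp)
    have a3 : (1 : ℝ) < p := by exact_mod_cast (hR p hp).one_lt
    have a4 := mul_nonneg (wt_nonneg u L v E p) (inv_pos.2 (sub_pos.2 a3)).le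
    refine mul_nonneg ?_ (mul_nonneg ?_ (by linarith))
    · split_ifs <;> linarith
    · split_ifs <;> linarith
  · have a2 := (fac_pos (hR p hp)).ne'
    have a3 : (1 : ℝ) < p := by exact_mod_cast (hR p hp).one_lt
    have a4 : (p : ℝ) - 1 ≠ 0 := by linarith
    have a5 : (0 : ℝ) ≤ ((p : ℝ) * (p - 1))⁻¹ :=
      inv_nonneg.2 (mul_nonneg (by linarith) (by linarith))
    have a6 : p ∣ v → ¬ (p : ℤ) ∣ E := fun b1 b2 =>
      (Nat.prime_iff_prime_int.1 (hR p hp)).not_isUnit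
        (hE.isUnit_of_dvd' b2 (Int.natCast_dvd_natCast.2 b1))
    unfold wt ex
    by_cases b1 : p ∣ v <;> by_cases b2 : p ∈ PPs u L <;> by_cases b3 : (p : ℤ) ∣ E
    · exact absurd b3 (a6 b1)
    · simp only [b1, b2, b3, if_true, true_or, not_false_eq_true, and_self, not_true_eq_false,
        if_false, zero_mul, add_zero, mul_one, inv_mul_cancel₀ a2]
      linarith
    · exact absurd b3 (a6 b1)
    · simp [b1, b2]
    · simp only [b1, b2, b3, if_true, or_true, and_self, not_true_eq_false, and_false,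
        if_false, zero_mul, add_zero, mul_one]
      linarith
    · simp only [b1, b2, b3, if_true, or_self, not_false_eq_true, and_self, not_true_eq_false,
        and_false, if_false, mul_one, one_mul]
      refine le_of_eq ?_
      field_simp
      ring
    · simp only [b1, b2, if_true, or_self, not_false_eq_true, false_and, if_false, one_mul]
      refine le_of_eq ?_
      field_simp
      ring
    · simp only [b1, b2, if_true, or_self, not_false_eq_true, false_and, if_false, one_mul]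
      refine le_of_eq ?_
      field_simp
      ring

lemma harm {a b : ℕ} (ha : 1 ≤ a) (hb : a ≤ b) :
    ∑ t ∈ Ioc a b, (t : ℝ)⁻¹ ≤ Real.log b - Real.log a := by
  induction b, hb using Nat.le_induction with
  | base => simp
  | succ b hb ih =>
    have b0 : (0 : ℝ) < b := by exact_mod_cast (by omega : 0 < b)
    have h := Real.log_le_sub_one_of_pos (div_pos b0 (by linarith : (0 : ℝ) < b + 1))
    rw [Real.log_div b0.ne' (by linarith)] at h
    have e : (b : ℝ) / (b + 1) - 1 = -((b : ℝ) + 1)⁻¹ := by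
      field_simp
      ring
    rw [sum_Ioc_succ_top hb]
    push_cast
    linarith

/-- The primes between `L ^ (3 / 5)` and `L ^ (21 / 20)`. -/
lemma large (hPi : S_Pi) : ∃ l0 : ℝ, ∀ l : ℝ, l0 ≤ l →
    rc (PR (⌊3 / 5 * l⌋₊ + 1) ⌈21 / 20 * l⌉₊) ≤ 0.58 := by
  obtain ⟨C, hC, h, -⟩ := pi_facts hPi
  refine ⟨500 + 200 * C, fun l hl => ?_⟩
  have l0 : 500 ≤ l := by linarith
  set a := ⌊3 / 5 * l⌋₊
  set b := ⌈21 / 20 * l⌉₊
  have a1 : 3 / 5 * l < a + 1 := Nat.lt_floor_add_one _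
  have a2 : (a : ℝ) ≤ 3 / 5 * l := Nat.floor_le (by linarith)
  have b1 : (b : ℝ) < 21 / 20 * l + 1 := Nat.ceil_lt_add_one (by linarith)
  have b2 : 21 / 20 * l ≤ b := Nat.le_ceil _
  have a3 : 1 ≤ a := by exact_mod_cast (by linarith : (1 : ℝ) ≤ a)
  have a4 : a ≤ b := by exact_mod_cast (by linarith : (a : ℝ) ≤ b)
  have h1 : Real.log b - Real.log a ≤ 0.57 := by
    have a0 : (0 : ℝ) < a := by linarith
    rw [← Real.log_div (by linarith) a0.ne', Real.log_le_iff_le_exp (div_pos (by linarith) a0)]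
    have e := Real.sum_le_exp_of_nonneg (x := 0.57) (by norm_num) 4
    refine le_trans ?_ e
    rw [div_le_iff₀ a0]
    simp only [sum_range_succ, range_zero, sum_empty, Nat.factorial]
    norm_num
    linarith
  have h2 : rc (PR (a + 1) b) ≤ 1.01 * ∑ t ∈ Ioc a b, (t : ℝ)⁻¹ := by
    have e : Ioc a b = Icc (a + 1) b := by
      ext t
      rw [mem_Ioc, mem_Icc, Nat.succ_le_iff]
    rw [rc_PR, mul_sum, e]
    refine sum_le_sum fun t ht => ?_
    have t1 : a + 1 ≤ t := (mem_Icc.1 ht).1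
    have t2 : (a : ℝ) + 1 ≤ t := by exact_mod_cast t1
    refine (h t (by omega)).trans ?_
    have : C / t ≤ 0.01 := by
      rw [div_le_iff₀ (by linarith)]
      linarith
    rw [div_eq_mul_inv]
    exact mul_le_mul_of_nonneg_right (by linarith) (by positivity)
  have h3 := harm a3 a4
  linarith

end Eul

open Eul

theorem pEul (hPi : S_Pi) : S_Eul := by
  refine ⟨6, fun u hu => ⟨fun L v E m p a hp => (GM_mul u L v E m p a hp).trans
    (mul_le_mul_of_nonneg_right ?_ (GM_nonneg u L v E m)), ?_⟩⟩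
  · unfold ex
    split_ifs with h
    · have h1 : (101 : ℝ) ≤ p := by exact_mod_cast big hu h
      have h2 : (p : ℝ)⁻¹ ≤ 101⁻¹ := inv_anti₀ (by norm_num) h1
      rw [inv_le_comm₀ (fac_pos hp) (by norm_num)]
      norm_num at h2 ⊢
      linarith
    · norm_num
  obtain ⟨l0, hl⟩ := large hPi
  refine ⟨max 1 (Real.exp l0), fun L Mp v E hL hv hvL hE hM => ?_⟩
  have L1 : 1 ≤ L := (le_max_left _ _).trans hL
  have L0 : 0 < L := by linarith
  have l1 : l0 ≤ Real.log L := (Real.le_log_iff_exp_le L0).2 ((le_max_right _ _).trans hL)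
  set z := L ^ (3 / 5 : ℝ) with hz
  have z0 : 0 < z := by positivity
  set R := (range (⌊z⌋₊ + 1)).filter Nat.Prime with hR
  have mR : ∀ p, p ∈ R ↔ p.Prime ∧ (p : ℝ) ≤ z := fun p => by
    rw [hR, mem_filter, mem_range, Nat.lt_succ_iff, Nat.le_floor_iff z0.le, and_comm]
  set Q := (PR (⌊3 / 5 * Real.log L⌋₊ + 1) ⌈21 / 20 * Real.log L⌉₊).filter fun q : ℕ => z < q
    with hQ
  set S := (Icc 1 ⌊Mp⌋₊).filter fun m => ∀ q : ℕ, q.Prime → q ∣ m → q ∈ R with hS
  have h1 := euler (GM u L v E) (wt u L v E) (GM_nonneg u L v E) (wt_nonneg u L v E)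
    (GM_wt u L v E) R (fun p hp => ((mR p).1 hp).1) S fun m hm =>
      ⟨by have := (mem_Icc.1 (mem_filter.1 hm).1).1; omega, (mem_filter.1 hm).2⟩
  have h2 := local_prod (L := L) hu hv hE R (fun p hp => ((mR p).1 hp).1)
    (fun p hp => (mR p).2 ⟨PPs_prime p hp, ((mem_PPs L0.le).1 hp).2.2⟩)
    (fun p hp => (mR p).2 ⟨Nat.prime_of_mem_primeFactors hp,
      le_trans (by exact_mod_cast Nat.le_of_mem_primeFactors hp) hvL⟩)
    fun p hp hn => mem_PR.2 ⟨((mR p).1 hp).1, Nat.zero_le _, by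
      by_contra hc
      exact hn ((mem_PPs L0.le).2 ⟨((mR p).1 hp).1, by omega, ((mR p).1 hp).2⟩)⟩
  have s1 : Icc 1 ⌊Mp⌋₊ ⊆ S ∪ (S ×ˢ Q).image fun x => x.1 * x.2 := fun m hm => by
    by_cases hc : ∀ q : ℕ, q.Prime → q ∣ m → q ∈ R
    · exact mem_union_left _ (mem_filter.2 ⟨hm, hc⟩)
    push Not at hc
    obtain ⟨q, hq, ⟨m', rfl⟩, hn⟩ := hc
    obtain ⟨m1, m2⟩ := mem_Icc.1 hm
    have m3 : 0 < m' := Nat.pos_of_ne_zero fun h => by simp [h] at m1
    have m4 : ((q * m' : ℕ) : ℝ) ≤ L ^ (21 / 20 : ℝ) :=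
      le_trans ((Nat.le_floor_iff' (by omega)).1 m2) hM
    have q1 : z < q := lt_of_not_ge fun h => hn ((mR q).2 ⟨hq, h⟩)
    have q2 : (q : ℝ) ≤ L ^ (21 / 20 : ℝ) :=
      le_trans (by exact_mod_cast Nat.le_mul_of_pos_right q m3) m4
    have m5 : (m' : ℝ) ≤ z := by
      have e1 : L ^ (21 / 20 : ℝ) ≤ z * z := by
        rw [hz, ← Real.rpow_add L0]
        exact Real.rpow_le_rpow_of_exponent_le L1 (by norm_num)
      push_cast at m4
      have : (0 : ℝ) ≤ m' := m'.cast_nonneg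
      by_contra hc
      nlinarith
    refine mem_union_right _ (mem_image.2 ⟨(m', q), mem_product.2 ⟨mem_filter.2 ⟨mem_Icc.2
      ⟨m3, (Nat.le_mul_of_pos_left m' hq.pos).trans m2⟩, fun r hr hd => (mR r).2 ⟨hr,
        le_trans (by exact_mod_cast Nat.le_of_dvd m3 hd) m5⟩⟩, mem_filter.2
          ⟨mem_PR.2 ⟨hq, ?_, ?_⟩, q1⟩⟩, mul_comm _ _⟩)
    · have e1 := Real.log_lt_log z0 q1
      rw [hz, Real.log_rpow L0] at e1
      exact (Nat.floor_lt (by have := Real.log_nonneg L1; positivity)).2 (e1.trans_le (log_le_tau q))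
    · have e1 := Real.log_le_log (z0.trans q1) q2
      rw [Real.log_rpow L0] at e1
      exact Nat.ceil_mono e1
  have n0 : ∀ m : ℕ, 0 ≤ GM u L v E m / m := fun m => div_nonneg (GM_nonneg u L v E m) m.cast_nonneg
  have h3 : ∑ m ∈ Icc 1 ⌊Mp⌋₊, GM u L v E m / m ≤ 1.58 * ∑ m ∈ S, GM u L v E m / m := by
    refine (sum_le_sum_of_subset_of_nonneg s1 fun m _ _ => n0 m).trans ?_
    have e1 := sum_union_inter (s₁ := S) (s₂ := (S ×ˢ Q).image fun x => x.1 * x.2)
      (f := fun m => GM u L v E m / m)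
    have e2 := sum_nonneg (s := S ∩ (S ×ˢ Q).image fun x => x.1 * x.2) fun m _ => n0 m
    have e3 : ∑ m ∈ (S ×ˢ Q).image (fun x => x.1 * x.2), GM u L v E m / m ≤
        0.58 * ∑ m ∈ S, GM u L v E m / m := by
      refine (sum_image_le_of_nonneg fun m _ => n0 m).trans ?_
      rw [sum_product, mul_sum]
      refine sum_le_sum fun m _ => ?_
      have e4 : rc Q ≤ 0.58 := (rc_mono (filter_subset _ _)).trans (hl _ l1)
      refine le_trans ?_ (mul_le_mul_of_nonneg_right e4 (n0 m))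
      rw [rc, sum_mul]
      refine sum_le_sum fun q hq => ?_
      have e5 := GM_mul u L v E m q 1 (mem_PR.1 (mem_filter.1 hq).1).1
      rw [pow_one, ex, if_neg fun h => absurd ((mem_PPs L0.le).1 h).2.2
        (not_le.2 (mem_filter.1 hq).2), one_mul] at e5
      refine (div_le_div_of_nonneg_right e5 (Nat.cast_nonneg _)).trans (le_of_eq ?_)
      push_cast
      rw [div_eq_mul_inv, div_eq_mul_inv, mul_inv]
      ring
    linarith
  have p0 : 0 ≤ ∏ p ∈ R, (1 + wt u L v E p * ((p : ℝ) - 1)⁻¹) := prod_nonneg fun p hp => by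
    have a3 : (1 : ℝ) < p := by exact_mod_cast ((mR p).1 hp).1.one_lt
    have := mul_nonneg (wt_nonneg u L v E p) (inv_pos.2 (sub_pos.2 a3)).le
    linarith
  have h4 := h1.trans (mul_le_of_le_one_left p0 (GM_one u L v E))
  have c0 : 0 ≤ (Nat.totient v : ℝ)⁻¹ * VE u L E := mul_nonneg (by positivity)
    (prod_nonneg fun p hp => (fac_pos (PPs_prime p (mem_filter.1 hp).1)).le)
  have d0 : 0 < (v * V0 u)⁻¹ := inv_pos.2 (mul_pos (by exact_mod_cast hv) (V0_pos u))
  have h5 := mul_le_mul_of_nonneg_left (h3.trans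
    (mul_le_mul_of_nonneg_left h4 (by norm_num))) c0
  rw [div_eq_mul_inv] at h2 ⊢
  nlinarith

end Pool.Agent.P.MP_26a8c3_nt.EC
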