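import Pool.Agent.P.MP_26a8c3_nt.EC.Base

/-! The good stopping nodes split into boxes. -/

namespace Pool.Agent.P.MP_26a8c3_nt.EC

open Finset
open scoped Classical

namespace Fib

lemma facts {Λ : ℝ} {u Z Δ μ : ℕ} (hΛ : 1 ≤ Λ) {s : Finset ℕ} (hs : s ∈ SG Λ u Z Δ μ) :
    top s ∈ PR (tau (top s)) (tau (top s)) ∧
      rest s ∈ Sel (fw (FF Λ)) ((rest s).image (fi (FF Λ))) ∧ insert (top s) (rest s) = s := by
  obtain ⟨h0, ha, -⟩ := mem_filter.1 hs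
  obtain ⟨h1, -, -, -, -, -, p, hp, -⟩ := mem_filter.1 h0
  have hF := one_le_FF hΛ
  have pr : ∀ q ∈ s, q.Prime := fun q hq => (mem_PR.1 (mem_powerset.1 h1 hq)).1
  have ht := top_mem ⟨p, hp⟩
  refine ⟨mem_PR.2 ⟨pr _ ht, le_rfl, le_rfl⟩, mem_filter.2 ⟨mem_powerset.2 fun q hq => ?_,
    fun j hj => ?_⟩, insert_erase ht⟩
  · exact mem_biUnion.2 ⟨_, mem_image_of_mem _ hq,
      (mem_fw hF).2 ⟨pr q (mem_of_mem_erase hq), rfl⟩⟩
  · obtain ⟨q, hq, rfl⟩ := mem_image.1 hj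
    refine card_eq_one.2 ⟨q, eq_singleton_iff_unique_mem.2 ⟨mem_inter.2 ⟨hq,
      (mem_fw hF).2 ⟨pr q (mem_of_mem_erase hq), rfl⟩⟩, fun r hr => ?_⟩⟩
    exact ha.2.2.1 (mem_coe.2 (mem_inter.1 hr).1) (mem_coe.2 hq)
      ((mem_fw hF).1 (mem_inter.1 hr).2).2

end Fib

theorem pFib (hInv : S_Inv) : S_Fib := by
  intro Λ u Z Δ μ f hΛ h
  obtain ⟨key, hk⟩ : ∃ key : Finset ℕ → ℕ × Finset ℕ,
      ∀ s, key s = (tau (top s), (rest s).image (fi (FF Λ))) := ⟨_, fun _ => rfl⟩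
  rw [← sum_fiberwise_of_maps_to (g := key) (t := (SG Λ u Z Δ μ).image key)
    fun s hs => mem_image_of_mem _ hs]
  refine sum_nonpos fun k hk' => ?_
  obtain ⟨s, hs, rfl⟩ := mem_image.1 hk'
  refine le_trans (le_of_eq ?_) (h s hs)
  rw [← sum_product']
  refine sum_nbij' (fun t => (top t, rest t)) (fun x => insert x.1 x.2) (fun t ht => ?_)
    (fun x hx => ?_) (fun t ht => ?_) (fun x hx => ?_) fun t ht => ?_
  · obtain ⟨h1, h2⟩ := mem_filter.1 ht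
    rw [hk, hk, Prod.mk.injEq] at h2
    obtain ⟨a, b, -⟩ := Fib.facts hΛ h1
    rw [← h2.1, ← h2.2]
    exact mem_product.2 ⟨a, b⟩
  · obtain ⟨a, b⟩ := mem_product.1 hx
    obtain ⟨c1, c2, c3, c4⟩ := hInv Λ u Z Δ μ hΛ s hs x.1 a x.2 b
    refine mem_filter.2 ⟨c1, ?_⟩
    rw [hk, hk, c2, c3, c4, le_antisymm (mem_PR.1 a).2.2 (mem_PR.1 a).2.1]
  · exact (Fib.facts hΛ (mem_filter.1 ht).1).2.2
  · obtain ⟨a, b⟩ := mem_product.1 hx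
    obtain ⟨-, c2, c3, -⟩ := hInv Λ u Z Δ μ hΛ s hs x.1 a x.2 b
    exact Prod.ext c2 c3
  · exact congrArg f (Fib.facts hΛ (mem_filter.1 ht).1).2.2.symm

end Pool.Agent.P.MP_26a8c3_nt.EC
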