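import Pool.Agent.P.MP_26a8c3_nt.EC.Base
import Pool.Agent.P.MP_a14ce1_nt.Ch.Sieve

/-! The sieve for a fixed cofactor. -/

namespace Pool.Agent.P.MP_26a8c3_nt.EC

open Finset
open scoped Classical

namespace Fix

/-- The upper bound sieve of dimension two with real weights. -/
lemma sieveR : ∃ C : ℝ, 0 < C ∧ ∀ (A S P : Finset ℕ) (z k : ℕ) (D : ℕ → ℕ → Prop) (g : ℕ → ℝ)
    (X R : ℝ), 2 ≤ z → 0 ≤ X → 0 ≤ R → (∀ p ∈ P, p.Prime ∧ p ≤ z) →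
    (∀ p ∈ P, 0 ≤ g p ∧ g p ≤ 2 / p ∧ g p ≤ 1 - 1 / 2) →
    (∀ T ⊆ P, pv T ≤ z ^ (4 * k + 6) → ∀ S' : Finset ℕ,
      (∀ x, x ∈ S' ↔ x ∈ A ∧ ∀ p ∈ T, D x p) → |(S'.card : ℝ) - X * ∏ p ∈ T, g p| ≤ R) →
    (∀ x ∈ S, x ∈ A ∧ ∀ p ∈ P, ¬ D x p) →
    (S.card : ℝ) ≤ (1 + C / 2 ^ k) * (X * ∏ p ∈ P, (1 - g p)) + 2 * (z : ℝ) ^ (4 * k + 8) * R := by
  obtain ⟨C, hC, h⟩ := MP_a14ce1_nt.Ch.sieve 2 (1 / 2) (by norm_num) (by norm_num)
  refine ⟨C, hC, fun A S P z k D g X R hz hX hR hP hg hT hS => ?_⟩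
  have cast : ∀ (S' : Finset ℕ) (y : ℝ),
      ‖∑ _x ∈ S', (1 : ℂ) - (X : ℂ) * (y : ℂ)‖ = |(S'.card : ℝ) - X * y| := fun S' y => by
    rw [← Real.norm_eq_abs, ← Complex.norm_real]
    simp
  have h1 := h ℕ A (fun _ => 1) z k P D g X R X (fun _ => R) hz hX
    (by rw [Complex.norm_real, Real.norm_of_nonneg hX]) (fun _ _ => by simp) hP hg (fun _ => hR)
    (fun T hTP hle => hT T hTP hle _ fun x => mem_filter)
    (fun T hTP hle => by rw [cast]; exact hT T hTP hle _ fun x => mem_filter)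
  rw [cast, sum_const, Nat.card_Icc, nsmul_eq_mul, Nat.add_sub_cancel] at h1
  have h2 : (S.card : ℝ) ≤ (A.filter fun x => ∀ p ∈ P, ¬ D x p).card := by
    exact_mod_cast card_le_card fun x hx => mem_filter.2 (hS x hx)
  have h3 : ((z ^ (4 * k + 6) : ℕ) : ℝ) * R ≤ (z : ℝ) ^ (4 * k + 8) * R := by
    refine mul_le_mul_of_nonneg_right ?_ hR
    exact_mod_cast Nat.pow_le_pow_right (by omega) (by omega)
  have h4 := (abs_le.1 h1).2
  linarith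

/-- The density of the classes. -/
noncomputable def g (v p : ℕ) : ℝ := if p ∣ v then (p : ℝ)⁻¹ else ((p : ℝ) - 1)⁻¹

lemma g_bd (v : ℕ) {p : ℕ} (hp : 3 ≤ p) :
    (0 ≤ g v p ∧ g v p ≤ 2 / p ∧ g v p ≤ 1 - 1 / 2) ∧ (p : ℝ)⁻¹ ≤ g v p := by
  have h3 : (3 : ℝ) ≤ p := by exact_mod_cast hp
  have h1 : (p : ℝ)⁻¹ ≤ ((p : ℝ) - 1)⁻¹ := inv_anti₀ (by linarith) (by linarith)
  have h2 : ((p : ℝ) - 1)⁻¹ ≤ 2 / p := by
    rw [inv_eq_one_div, div_le_div_iff₀ (by linarith) (by linarith)]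
    linarith
  have h4 : ((p : ℝ) - 1)⁻¹ ≤ 1 - 1 / 2 := by
    rw [inv_le_comm₀ (by linarith) (by norm_num)]
    linarith
  have h0 : 0 ≤ (p : ℝ)⁻¹ := by positivity
  rw [g]
  split_ifs
  · exact ⟨⟨h0, h1.trans h2, h1.trans h4⟩, le_rfl⟩
  · exact ⟨⟨h0.trans h1, h2, h4⟩, h1⟩

lemma totient_inv (v : ℕ) {T : Finset ℕ} (hT : ∀ p ∈ T, p.Prime) :
    ((Nat.totient (v * pv T) : ℕ) : ℝ)⁻¹ = (Nat.totient v : ℝ)⁻¹ * ∏ p ∈ T, g v p := by
  induction T using Finset.induction_on with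
  | empty => simp [pv]
  | insert p T hp ih =>
    have hT' : ∀ q ∈ T, q.Prime := fun q hq => hT q (mem_insert_of_mem hq)
    have pp := hT p (mem_insert_self _ _)
    rw [pv_insert hp, prod_insert hp, mul_left_comm, mul_left_comm _ (g v p), ← ih hT', g]
    split_ifs with h
    · rw [Nat.totient_mul_of_prime_of_dvd pp (h.mul_right _), Nat.cast_mul, mul_inv]
    · rw [Nat.totient_mul_of_prime_of_not_dvd pp, Nat.cast_mul, mul_inv, Nat.cast_pred pp.pos]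
      rw [pp.dvd_mul, prime_dvd_pv hT' pp]
      exact fun h' => h'.elim h hp

lemma dvd_all {v : ℕ} (hv : 1 ≤ v) {T : Finset ℕ} (hT : ∀ p ∈ T, p.Prime) (n : ℤ) :
    ((v : ℤ) ∣ n ∧ ∀ p ∈ T, ((v * p : ℕ) : ℤ) ∣ n) ↔ ((v * pv T : ℕ) : ℤ) ∣ n := by
  simp only [Int.natCast_dvd]
  constructor
  · rintro ⟨⟨w, hw⟩, h⟩
    rw [hw] at h ⊢
    exact Nat.mul_dvd_mul_left v ((pv_dvd_iff hT w).2 fun p hp =>
      Nat.dvd_of_mul_dvd_mul_left hv (h p hp))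
  · intro h
    exact ⟨(dvd_mul_right _ _).trans h,
      fun p hp => (Nat.mul_dvd_mul_left v (dvd_prod_of_mem _ hp)).trans h⟩

lemma cls {q w E : ℤ} (hw : IsCoprime w q) (hE : IsCoprime E q) :
    ∃ c : ℤ, IsCoprime c q ∧ ∀ x : ℤ, q ∣ x * w + E ↔ q ∣ x - c := by
  obtain ⟨a, b, hab⟩ := hw
  refine ⟨-(E * a), (hE.mul_left ⟨w, b, by linarith⟩).neg_left, fun x => ⟨?_, ?_⟩⟩
  · rintro ⟨y, hy⟩
    exact ⟨a * y + b * x, by linear_combination a * hy - x * hab⟩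
  · rintro ⟨y, hy⟩
    exact ⟨w * y + b * E, by linear_combination w * hy - E * hab⟩

lemma three_le {u p : ℕ} {L : ℝ} (hu : 2 ≤ u) (hL : 0 ≤ L) (hp : p ∈ PPs u L) : 3 ≤ p := by
  obtain ⟨pp, h, -⟩ := (mem_PPs hL).1 hp
  have h1 := exp_tau_lt pp.pos
  have h2 : (2 : ℝ) ≤ tau p := by exact_mod_cast hu.trans h
  have h3 := Real.add_one_le_exp ((tau p : ℝ) - 1)
  have h4 : (2 : ℝ) < p := by linarith
  exact_mod_cast h4

lemma om_nonneg (P : ℝ) {α β : ℝ} (h : α ≤ β) {s : ℝ} (hs : 0 ≤ s) : 0 ≤ om P α β s :=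
  sub_nonneg.2 (min_le_min le_rfl (max_le_max le_rfl (div_le_div_of_nonneg_right h hs)))

lemma ve_gm {u v μ : ℕ} {L : ℝ} {E : ℤ}
    (h : Nat.Coprime μ v ∧ ∀ p ∈ PPs u L, (p : ℤ) ∣ E → ¬ p ∣ μ) :
    VE u L E * GM u L v E μ =
      ∏ p ∈ (PPs u L).filter (fun p : ℕ => ¬ (p : ℤ) ∣ E ∧ ¬ p ∣ μ), (1 - (p : ℝ)⁻¹) := by
  rw [GM, if_pos h, VE, prod_filter, prod_filter, prod_filter, ← prod_mul_distrib]
  refine prod_congr rfl fun p hp => ?_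
  have h2 : (2 : ℝ) ≤ p := by exact_mod_cast (PPs_prime p hp).two_le
  have h3 : 1 - (p : ℝ)⁻¹ ≠ 0 := (sub_pos.2 (inv_lt_one_of_one_lt₀ (by linarith))).ne'
  by_cases a : (p : ℤ) ∣ E
  · simp [a, h.2 p hp a]
  · by_cases b : p ∣ μ
    · simp [a, b, h3]
    · simp [a, b]

lemma good {u v p2 x : ℕ} {L : ℝ} {E m : ℤ} (hE : IsCoprime E (v : ℤ))
    (h1 : (v : ℤ) ∣ x * p2 * m + E) (h2 : ∀ p ∈ PPs u L, ¬ ((v * p : ℕ) : ℤ) ∣ x * p2 * m + E) :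
    Nat.Coprime m.natAbs v ∧ ∀ p ∈ PPs u L, (p : ℤ) ∣ E → ¬ p ∣ m.natAbs := by
  constructor
  · obtain ⟨w, hw⟩ := h1
    obtain ⟨a, b, hab⟩ := hE
    have h : IsCoprime m (v : ℤ) :=
      ⟨-(a * x * p2), b + a * w, by linear_combination hab - a * hw⟩
    simpa [Int.gcd] using Int.isCoprime_iff_gcd_eq_one.1 h
  · intro p hp hpE hpm
    refine h2 p hp ?_
    rw [Nat.cast_mul]
    exact (hE.of_isCoprime_of_dvd_left hpE).symm.mul_dvd h1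
      (dvd_add ((Int.natCast_dvd.2 hpm).mul_left _) hpE)

lemma fin {s e ε X W W' o t f R Z G : ℝ} (hs : s ≤ e) (hs0 : 0 ≤ s) (he : e ≤ 1) (heε : 3 * e ≤ ε)
    (hW0 : 0 ≤ W) (hW : W ≤ W') (hW1 : W' ≤ 1) (ho : 0 ≤ o) (ht : 2 ≤ t) (hte : 2 ≤ e * t)
    (hf : 1 ≤ f) (hR : 0 ≤ R) (hZ : 1 ≤ Z) (hX0 : 0 ≤ X) (hX : X ≤ o / (t - 1) + R)
    (hG : 4 * Z * R ≤ G) :
    (1 + s) * (X / f * W) + 2 * Z * R ≤ (1 + ε) * o / (t * f) * W' + G := by
  have he0 : 0 ≤ e := hs0.trans hs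
  have h1 : o / (t - 1) ≤ (1 + e) * o / t := by
    rw [div_le_div_iff₀ (by linarith) (by linarith)]
    have : t ≤ (1 + e) * (t - 1) := by nlinarith
    nlinarith
  have h2 : X / f ≤ (1 + e) * o / (t * f) + R := by
    rw [← div_div]
    calc X / f ≤ ((1 + e) * o / t + R) / f := by gcongr; linarith
      _ = (1 + e) * o / t / f + R / f := add_div _ _ _
      _ ≤ _ := by gcongr; exact div_le_self hR hf
  have h3 : (1 + e) * (1 + e) ≤ 1 + ε := by nlinarith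
  have h0 : 0 ≤ W' := hW0.trans hW
  have h4 : (1 + e) * R * W' ≤ 2 * Z * R :=
    calc (1 + e) * R * W' ≤ (1 + 1) * R * Z := by gcongr; linarith
      _ = _ := by ring
  calc (1 + s) * (X / f * W) + 2 * Z * R
      ≤ (1 + e) * (((1 + e) * o / (t * f) + R) * W') + 2 * Z * R := by gcongr
    _ = (1 + e) * (1 + e) * o / (t * f) * W' + ((1 + e) * R * W' + 2 * Z * R) := by ring
    _ ≤ _ := by gcongr; linarith

lemma big {B Λ L t M : ℝ} (hM : 1 ≤ M) (hΛ : M ^ 2 ≤ Λ) (hL : L ≤ Λ ^ B)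
    (ht : Λ ^ (3 / 5 : ℝ) ≤ t) : M ≤ t ∧ L ≤ t ^ (2 * ⌈B⌉₊) := by
  have h1 : 1 ≤ Λ := (one_le_pow₀ hM).trans hΛ
  have h2 : √Λ ≤ t := by
    rw [Real.sqrt_eq_rpow]
    exact (Real.rpow_le_rpow_of_exponent_le h1 (by norm_num)).trans ht
  have h3 : Λ ≤ t ^ 2 := (Real.sqrt_le_iff.1 h2).2
  refine ⟨(Real.le_sqrt' (by linarith)).2 hΛ |>.trans h2, hL.trans ?_⟩
  calc Λ ^ B ≤ Λ ^ (⌈B⌉₊ : ℝ) := Real.rpow_le_rpow_of_exponent_le h1 (Nat.le_ceil B)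
    _ = Λ ^ ⌈B⌉₊ := Real.rpow_natCast _ _
    _ ≤ (t ^ 2) ^ ⌈B⌉₊ := by gcongr
    _ = _ := by rw [pow_mul]

end Fix

open _root_.Pool.Agent.P.MP_26a8c3_nt.EC.Fix in
theorem pFix (hPAP : S_PAP) : S_Fix := by
  intro ε B A hε
  obtain ⟨C₁, hC₁, hsv⟩ := sieveR
  set e : ℝ := min ε 1 / 3 with he
  have he0 : 0 < e := by positivity
  have he1 : e ≤ 1 := by linarith [min_le_right ε 1]
  have he2 : 3 * e ≤ ε := by linarith [min_le_left ε 1]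
  obtain ⟨k, hk⟩ := pow_unbounded_of_one_lt (C₁ / e) (one_lt_two (α := ℝ))
  have hk' : C₁ / 2 ^ k ≤ e := by
    rw [div_lt_iff₀ he0] at hk
    rw [div_le_iff₀ (by positivity)]
    linarith
  set b : ℕ := 2 * ⌈B⌉₊ + 1 with hb
  obtain ⟨C, hC, hp⟩ := hPAP (A + 1 + b * (4 * k + 8)) (b * (4 * k + 7))
  refine ⟨(2 + 2 / e + 4 * C) ^ 2, ?_⟩
  intro u t v p2 Λ L α β E m hu hΛ hL1 hL ht hv hvL hE hm hp2 hLp hαβ
  have h2e : 0 < 2 / e := by positivity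
  obtain ⟨ht1, ht2⟩ := big (by linarith) hΛ hL ht
  have ht3 : (2 : ℝ) ≤ t := by linarith
  have ht4 : 2 ≤ t := by exact_mod_cast ht3
  have hG : 0 ≤ Real.exp t / (t : ℝ) ^ A := by positivity
  by_cases hgood : Nat.Coprime m.natAbs v ∧ ∀ p ∈ PPs u L, (p : ℤ) ∣ E → ¬ p ∣ m.natAbs
  swap
  · rw [GM, if_neg hgood, mul_zero, zero_add, filter_false_of_mem, card_empty, Nat.cast_zero]
    · exact hG
    · exact fun x _ hx => hgood (good hE hx.2.2.1 hx.2.2.2)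
  have hμ : (0 : ℝ) < m.natAbs := by exact_mod_cast Int.natAbs_pos.2 hm
  have hab : α / m.natAbs ≤ β / m.natAbs := div_le_div_of_nonneg_right hαβ hμ.le
  have hz : L ≤ ((t ^ b : ℕ) : ℝ) := by
    push_cast
    exact ht2.trans (pow_le_pow_right₀ (by linarith) (by omega))
  have hz2 : 2 ≤ t ^ b := ht4.trans (Nat.le_self_pow (by omega) t)
  have hpL : ∀ p ∈ PPs u L, (p : ℝ) ≤ L := fun p hp =>
    ((mem_PPs (by linarith)).1 hp).2.2.trans (by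
      simpa using Real.rpow_le_rpow_of_exponent_le hL1 (show (3 / 5 : ℝ) ≤ 1 by norm_num))
  have hφ : (1 : ℝ) ≤ Nat.totient v := by exact_mod_cast Nat.totient_pos.2 hv
  set P := (PPs u L).filter (fun p : ℕ => ¬ (p : ℤ) ∣ E ∧ ¬ p ∣ m.natAbs) with hP
  have hP3 : ∀ p ∈ P, 3 ≤ p := fun p hp => three_le hu (by linarith) (mem_filter.1 hp).1
  have hPp : ∀ p ∈ P, p.Prime := fun p hp => PPs_prime p (mem_filter.1 hp).1
  set N : ℝ := (((PR t t).filter fun p : ℕ => α / m.natAbs < p ∧ (p : ℝ) ≤ β / m.natAbs).card : ℝ)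
    with hN
  have hN0 : 0 ≤ N := Nat.cast_nonneg _
  set R : ℝ := C * Real.exp t / (t : ℝ) ^ (A + 1 + b * (4 * k + 8)) with hR
  have hR0 : 0 ≤ R := by positivity
  refine (hsv ((PR t t).filter fun p : ℕ => α / m.natAbs < p ∧ (p : ℝ) ≤ β / m.natAbs ∧
    (v : ℤ) ∣ p * p2 * m + E) _ P (t ^ b) k (fun x p => ((v * p : ℕ) : ℤ) ∣ x * p2 * m + E) (g v)
    (N / Nat.totient v) R hz2 (by positivity) hR0
    (fun p hp => ⟨hPp p hp, by exact_mod_cast (hpL p (mem_filter.1 hp).1).trans hz⟩)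
    (fun p hp => (g_bd v (hP3 p hp)).1) (fun T hT hle S' hS' => ?_) fun x hx => ?_).trans ?_
  · have hTp : ∀ p ∈ T, p.Prime := fun p hp => hPp p (hT hp)
    have c1 : Nat.Coprime (p2 * m.natAbs) (v * pv T) := by
      refine Nat.Coprime.mul_left (Nat.Coprime.mul_right ?_ ?_) (hgood.1.mul_right ?_)
      · exact (Nat.coprime_of_lt_prime (by omega) (by exact_mod_cast hvL.trans_lt hLp) hp2)
      · refine (coprime_pv hTp _).2 fun p hp hd => ?_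
        have := (hpL p (mem_filter.1 (hT hp)).1).trans_lt hLp
        rw [(Nat.prime_dvd_prime_iff_eq (hTp p hp) hp2).1 hd] at this
        exact lt_irrefl _ this
      · exact (coprime_pv hTp _).2 fun p hp => (mem_filter.1 (hT hp)).2.2
    have c2 : IsCoprime ((p2 : ℤ) * m) ((v * pv T : ℕ) : ℤ) := by
      rw [Int.isCoprime_iff_gcd_eq_one, Int.gcd, Int.natAbs_mul, Int.natAbs_natCast,
        Int.natAbs_natCast]
      exact c1
    have c3 : IsCoprime E ((v * pv T : ℕ) : ℤ) := by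
      rw [Nat.cast_mul]
      refine hE.mul_right ?_
      rw [Int.isCoprime_iff_gcd_eq_one, Int.gcd, Int.natAbs_natCast]
      exact (coprime_pv hTp _).2 fun p hp hd =>
        (mem_filter.1 (hT hp)).2.1 (Int.natCast_dvd.2 hd)
    obtain ⟨c, hc, hcl⟩ := cls c2 c3
    have hq : v * pv T ≤ t ^ (b * (4 * k + 7)) := by
      have hvz : v ≤ t ^ b := by exact_mod_cast hvL.trans hz
      rw [pow_mul, pow_succ']
      exact Nat.mul_le_mul hvz hle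
    have h1 := (hp t (v * pv T) c _ _ ht4 (Nat.mul_pos hv (pv_pos hTp)) hq hc hab).1
    have e1 : S' = (PR t t).filter fun p : ℕ => α / m.natAbs < p ∧ (p : ℝ) ≤ β / m.natAbs ∧
        ((v * pv T : ℕ) : ℤ) ∣ p - c := by
      ext x
      rw [hS', mem_filter, mem_filter, ← hcl, ← mul_assoc, ← dvd_all hv hTp]
      simp only [and_assoc]
    rw [e1, div_eq_mul_inv N, mul_assoc, ← totient_inv v hTp]
    exact h1
  · obtain ⟨h1, h2, h3, h4, h5⟩ := mem_filter.1 hx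
    exact ⟨mem_filter.2 ⟨h1, (div_lt_iff₀ hμ).2 h2, (le_div_iff₀ hμ).2 h3, h4⟩,
      fun p hp => h5 p (mem_filter.1 hp).1⟩
  have h2 := (hp t 1 0 _ _ ht4 le_rfl (Nat.one_le_pow _ _ (by omega))
    (by simpa using isCoprime_one_right) hab).2
  have ho : om (Real.exp (t - 1)) (α / m.natAbs) (β / m.natAbs) 1 =
      om (Real.exp (t - 1)) α β m.natAbs := by
    rw [om, om, div_one, div_one]
  rw [ho] at h2
  have hle : ∀ p ∈ P, 0 ≤ 1 - g v p := fun p hp => by linarith [(g_bd v (hP3 p hp)).1.2.2]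
  have hlt : ∀ p ∈ P, 1 - g v p ≤ 1 - (p : ℝ)⁻¹ := fun p hp => by linarith [(g_bd v (hP3 p hp)).2]
  rw [mul_assoc _ (VE u L E), ve_gm hgood]
  refine fin hk' (by positivity) he1 he2 (prod_nonneg hle) (prod_le_prod hle hlt)
    (prod_le_one (fun p hp => (hle p hp).trans (hlt p hp)) fun p _ => sub_le_self _ (by positivity))
    (om_nonneg _ hαβ hμ.le) ht3 ?_ hφ hR0 (one_le_pow₀ (by exact_mod_cast one_le_two.trans hz2))
    hN0 h2 ?_
  · rw [mul_comm, ← div_le_iff₀ he0]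
    linarith
  · have h4 : 4 * C / t ≤ 1 := (div_le_one (by linarith)).2 (by linarith)
    calc 4 * ((t ^ b : ℕ) : ℝ) ^ (4 * k + 8) * R = 4 * C / t * (Real.exp t / (t : ℝ) ^ A) := by
          rw [hR, Nat.cast_pow, ← pow_mul, pow_add, pow_add, pow_one]
          field_simp
      _ ≤ _ := mul_le_of_le_one_left hG h4

end Pool.Agent.P.MP_26a8c3_nt.EC
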