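import Pool.Agent.P.MP_26a8c3_nt.EC.Base

/-! Lower bounds for the sum of the Selberg weights. -/

namespace Pool.Agent.P.MP_26a8c3_nt.EC

open Finset
open scoped Classical

namespace G

lemma one_lt {p : ℕ} (hp : p.Prime) : (1 : ℝ) < p := by exact_mod_cast hp.one_lt

lemma fac_pos {p : ℕ} (hp : p.Prime) : 0 < 1 - (p : ℝ)⁻¹ :=
  sub_pos.2 (inv_lt_one_of_one_lt₀ (one_lt hp))

lemma gg_nonneg {U : Finset ℕ} (h : ∀ p ∈ U, p.Prime) : 0 ≤ gg U :=
  prod_nonneg fun p hp => inv_nonneg.2 (sub_pos.2 (one_lt (h p hp))).le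

lemma euler {R N : Finset ℕ} (hR : ∀ p ∈ R, p.Prime)
    (hN : ∀ n ∈ N, ∀ p : ℕ, p.Prime → p ∣ n → p ∈ R) :
    ∑ n ∈ N, (n : ℝ)⁻¹ ≤ ∏ p ∈ R, (1 - (p : ℝ)⁻¹)⁻¹ := by
  let f : ℕ →* ℝ := ⟨⟨fun n => (n : ℝ)⁻¹, by simp⟩, fun a b => by simp [mul_comm]⟩
  have h := (EulerProduct.summable_and_hasSum_factoredNumbers_prod_filter_prime_geometric (f := f)
    (fun {p} hp => by
      change ‖(p : ℝ)⁻¹‖ < 1
      rw [Real.norm_of_nonneg (by positivity)]
      exact inv_lt_one_of_one_lt₀ (one_lt hp)) R).2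
  rw [filter_true_of_mem hR] at h
  have h2 := sum_le_hasSum (N.subtype (· ∈ Nat.factoredNumbers R))
    (fun n _ => (by positivity : (0 : ℝ) ≤ ((n : ℕ) : ℝ)⁻¹)) h
  rwa [sum_subtype_of_mem (fun n : ℕ => (n : ℝ)⁻¹)
    fun n hn => Nat.mem_factoredNumbers'.2 (hN n hn)] at h2

lemma gg_eq {U : Finset ℕ} (h : ∀ p ∈ U, p.Prime) :
    gg U = (pv U : ℝ)⁻¹ * ∏ p ∈ U, (1 - (p : ℝ)⁻¹)⁻¹ := by
  rw [gg, pv, Nat.cast_prod, ← prod_inv_distrib, ← prod_mul_distrib]
  refine prod_congr rfl fun p hp => ?_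
  have := one_lt (h p hp)
  rw [← mul_inv, mul_sub, mul_one, mul_inv_cancel₀ (by linarith)]

lemma part1 (u : ℕ) (L Q : ℝ) (hu : 1 ≤ u) (hQ : 1 ≤ Q) (hL : 0 ≤ L) (h : Q ≤ L ^ (3 / 5 : ℝ)) :
    V0 u * Real.log Q ≤ ∑ U ∈ (PPs u L).powerset.filter (fun U => (pv U : ℝ) ≤ Q), gg U := by
  have h1 : Real.log Q ≤ ∑ n ∈ Icc 1 ⌊Q⌋₊, (n : ℝ)⁻¹ := by
    have := log_le_harmonic_floor Q (by linarith)
    rw [harmonic_eq_sum_Icc] at this
    push_cast at this
    exact this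
  have hn : ∀ n ∈ Icc 1 ⌊Q⌋₊, n ≠ 0 ∧ (n : ℝ) ≤ Q := fun n hn =>
    ⟨by have := (mem_Icc.1 hn).1; omega, (Nat.le_floor_iff (by linarith)).1 (mem_Icc.1 hn).2⟩
  have hd : ∀ n : ℕ, pv (n.primeFactors.filter fun p => u ≤ tau p) ∣ n := fun n =>
    (prod_dvd_prod_of_subset _ _ _ (filter_subset _ _)).trans (Nat.prod_primeFactors_dvd n)
  rw [← sum_fiberwise_of_maps_to (g := fun n : ℕ => n.primeFactors.filter fun p => u ≤ tau p)
    (t := (PPs u L).powerset.filter (fun U => (pv U : ℝ) ≤ Q)) fun n hn' => by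
      obtain ⟨a, b⟩ := hn n hn'
      refine mem_filter.2 ⟨mem_powerset.2 fun p hp => ?_, le_trans ?_ b⟩
      · obtain ⟨c, d⟩ := mem_filter.1 hp
        refine (mem_PPs hL).2 ⟨Nat.prime_of_mem_primeFactors c, d, le_trans ?_ (b.trans h)⟩
        exact_mod_cast Nat.le_of_mem_primeFactors c
      · exact_mod_cast Nat.le_of_dvd (Nat.pos_of_ne_zero a) (hd n)] at h1
  refine (mul_le_mul_of_nonneg_left h1 (V0_pos u).le).trans ?_
  rw [mul_sum]
  refine sum_le_sum fun U hU => ?_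
  have hU' := mem_powerset.1 (mem_filter.1 hU).1
  have hp : ∀ p ∈ U, p.Prime := fun p hp => PPs_prime p (hU' hp)
  have h0 : (0 : ℝ) < pv U := by exact_mod_cast pv_pos hp
  obtain ⟨F, hF⟩ : ∃ F, F = (Icc 1 ⌊Q⌋₊).filter
    fun n : ℕ => (n.primeFactors.filter fun p => u ≤ tau p) = U := ⟨_, rfl⟩
  have hF' : ∀ n ∈ F, n ≠ 0 ∧ pv U ∣ n ∧ ∀ p : ℕ, p.Prime → p ∣ n → p ∈ U ∪ PR 0 (u - 1) := by
    intro n hn'
    rw [hF] at hn'
    obtain ⟨a, b⟩ := mem_filter.1 hn'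
    refine ⟨(hn n a).1, b ▸ hd n, fun p c d => ?_⟩
    rcases le_or_gt u (tau p) with e | e
    · exact mem_union_left _ (b ▸ mem_filter.2 ⟨Nat.mem_primeFactors.2 ⟨c, d, (hn n a).1⟩, e⟩)
    · exact mem_union_right _ (mem_PR.2 ⟨c, Nat.zero_le _, by omega⟩)
  have hdj : Disjoint U (PR 0 (u - 1)) := disjoint_left.2 fun p a b => by
    have := ((mem_PPs hL).1 (hU' a)).2.1
    have := (mem_PR.1 b).2.2
    omega
  have h2 := euler (R := U ∪ PR 0 (u - 1)) (N := F.image (· / pv U))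
    (fun p a => (mem_union.1 a).elim (hp p) fun b => (mem_PR.1 b).1) fun m hm p c d => by
      obtain ⟨n, a, rfl⟩ := mem_image.1 hm
      exact (hF' n a).2.2 p c (d.trans (Nat.div_dvd_of_dvd (hF' n a).2.1))
  rw [sum_image fun a ha b hb e => by
    rw [← Nat.div_mul_cancel (hF' a ha).2.1, ← Nat.div_mul_cancel (hF' b hb).2.1]
    exact congrArg (· * pv U) e, prod_union hdj, prod_inv_distrib (s := PR 0 (u - 1))] at h2
  have h3 : ∑ n ∈ F, (n : ℝ)⁻¹ = (pv U : ℝ)⁻¹ * ∑ n ∈ F, ((n / pv U : ℕ) : ℝ)⁻¹ := by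
    rw [mul_sum]
    refine sum_congr rfl fun n a => ?_
    rw [← mul_inv, ← Nat.cast_mul, Nat.mul_div_cancel' (hF' n a).2.1]
  have h4 := V0_pos u
  rw [← hF, h3, gg_eq hp, mul_left_comm]
  refine mul_le_mul_of_nonneg_left ((mul_le_mul_of_nonneg_left h2 h4.le).trans (le_of_eq ?_))
    (by positivity)
  rw [mul_left_comm]
  exact mul_right_eq_self₀.2 (Or.inl (mul_inv_cancel₀ h4.ne'))

lemma sum_sq (S : Finset ℕ) : ∑ i ∈ S, ((i : ℝ) ^ 2)⁻¹ ≤ 2 := by
  have h := sum_Ioo_inv_sq_le (α := ℝ) 0 (S.sup id + 1)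
  rw [← sum_erase S (a := 0) (by simp)]
  refine (sum_le_sum_of_subset_of_nonneg (fun i hi => ?_) fun _ _ _ => by positivity).trans
    (by simpa using h)
  exact mem_Ioo.2 ⟨Nat.pos_of_ne_zero (ne_of_mem_erase hi),
    Nat.lt_succ_of_le (le_sup (f := id) (mem_of_mem_erase hi))⟩

lemma PR_zero : PR 0 0 = ∅ := eq_empty_of_forall_notMem fun p hp => by
  have := one_le_tau (mem_PR.1 hp).1
  have := (mem_PR.1 hp).2.2
  omega

lemma mertens {C : ℝ} (hC : 1 ≤ C) (h : ∀ t : ℕ, 1 ≤ t → rc (PR t t) ≤ (1 + C / t) / t) {b : ℕ}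
    (hb : 1 ≤ b) : ∏ p ∈ PR 0 b, (1 - (p : ℝ)⁻¹)⁻¹ ≤ Real.exp (5 + 2 * C) * b := by
  have h1 : rc (PR 0 b) ≤ 1 + Real.log b + 2 * C := by
    have e := harmonic_le_one_add_log b
    rw [harmonic_eq_sum_Icc] at e
    push_cast at e
    have e2 : PR 0 b ⊆ PR 1 b := fun p hp =>
      mem_PR.2 ⟨(mem_PR.1 hp).1, one_le_tau (mem_PR.1 hp).1, (mem_PR.1 hp).2.2⟩
    refine (rc_mono e2).trans ?_
    rw [rc_PR]
    refine (sum_le_sum fun t ht => (h t (mem_Icc.1 ht).1).trans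
      (le_of_eq (show _ = (t : ℝ)⁻¹ + C * ((t : ℝ) ^ 2)⁻¹ by ring))).trans ?_
    rw [sum_add_distrib, ← mul_sum]
    nlinarith [sum_sq (Icc 1 b)]
  have h2 : ∏ p ∈ PR 0 b, (1 - (p : ℝ)⁻¹)⁻¹ ≤
      ∏ p ∈ PR 0 b, (1 + ((p : ℝ)⁻¹ + 2 * ((p : ℝ) ^ 2)⁻¹)) :=
    prod_le_prod (fun p hp => (inv_pos.2 (fac_pos (mem_PR.1 hp).1)).le) fun p hp => by
      have a : (2 : ℝ) ≤ p := by exact_mod_cast (mem_PR.1 hp).1.two_le
      have a1 : (p : ℝ)⁻¹ ≤ 2⁻¹ := inv_anti₀ two_pos a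
      have a2 : (0 : ℝ) ≤ (p : ℝ)⁻¹ := by positivity
      rw [inv_le_iff_one_le_mul₀ (fac_pos (mem_PR.1 hp).1), ← inv_pow]
      nlinarith [mul_nonneg (mul_nonneg a2 a2) (sub_nonneg.2 a1)]
  refine h2.trans ((prod_one_add_le _ fun _ _ => by positivity).trans ?_)
  rw [sum_add_distrib, ← mul_sum, ← Real.exp_log (show (0 : ℝ) < b by exact_mod_cast hb),
    ← Real.exp_add]
  refine Real.exp_le_exp.2 ?_
  have := sum_sq (PR 0 b)
  unfold rc at h1
  linarith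

lemma logsum {C : ℝ} (h : ∀ t : ℕ, 1 ≤ t → rc (PR t t) ≤ 2 * C / t) (b : ℕ) :
    ∑ p ∈ PR 1 b, Real.log p * (p : ℝ)⁻¹ ≤ 2 * C * b := by
  rw [sum_PR]
  refine (sum_le_card_nsmul _ _ (2 * C) fun t ht => ?_).trans (le_of_eq (by simp [mul_comm]))
  have h1 := (mem_Icc.1 ht).1
  have h2 : (0 : ℝ) < t := by exact_mod_cast h1
  have h3 := h t h1
  rw [le_div_iff₀' h2, rc, mul_sum] at h3
  refine (sum_le_sum fun p hp => mul_le_mul_of_nonneg_right ?_ (by positivity)).trans h3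
  exact tau_le_iff.1 (mem_PR.1 hp).2.2

/-- the bound of Rankin -/
lemma rankin {C : ℝ} (hC : 1 ≤ C) (h1 : ∀ t : ℕ, 1 ≤ t → rc (PR t t) ≤ (1 + C / t) / t)
    (h2 : ∀ t : ℕ, 1 ≤ t → rc (PR t t) ≤ 2 * C / t) {u : ℕ} (hu : 1 ≤ u) {l Q : ℝ} (hl : 1 ≤ l)
    (hQ : 1 ≤ Q) (P : Finset ℕ) (hP : ∀ p ∈ P, p.Prime ∧ u ≤ tau p ∧ Real.log p ≤ l) :
    ∑ U ∈ P.powerset.filter (fun U => Q < (pv U : ℝ)), gg U ≤
      V0 u * (Real.exp (5 + 10 * C - Real.log Q / l) * (2 * l)) := by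
  have hV := V0_pos u
  have l0 : 0 < l := by linarith
  rcases P.eq_empty_or_nonempty with rfl | ⟨q, hq⟩
  · rw [powerset_empty, filter_singleton, if_neg (by simpa [pv] using hQ), sum_empty]
    positivity
  obtain ⟨b, hb⟩ : ∃ b, b = ⌈l⌉₊ := ⟨_, rfl⟩
  have b1 : l ≤ b := hb ▸ Nat.le_ceil l
  have b2 : (b : ℝ) ≤ 2 * l := by
    have := Nat.ceil_lt_add_one l0.le
    rw [← hb] at this
    linarith
  have b3 : ∀ p ∈ P, tau p ≤ b := fun p hp => tau_le_iff.2 ((hP p hp).2.2.trans b1)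
  have b4 : u ≤ b := (hP q hq).2.1.trans (b3 q hq)
  have s1 : ∑ U ∈ P.powerset.filter (fun U => Q < (pv U : ℝ)), gg U ≤ Real.exp (-Real.log Q / l) *
      ∏ p ∈ P, (1 + Real.exp (Real.log p / l) * ((p : ℝ) - 1)⁻¹) := by
    rw [prod_one_add, mul_sum, sum_filter]
    refine sum_le_sum fun U hU => ?_
    have hp : ∀ p ∈ U, p.Prime := fun p hp => (hP p (mem_powerset.1 hU hp)).1
    have g0 := gg_nonneg hp
    rw [prod_mul_distrib, ← Real.exp_sum, ← sum_div, ← log_pv hp, ← mul_assoc, ← Real.exp_add]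
    split_ifs with h
    · refine le_mul_of_one_le_left g0 (Real.one_le_exp ?_)
      have := Real.log_le_log (by linarith) h.le
      rw [← add_div]
      exact div_nonneg (by linarith) l0.le
    · exact mul_nonneg (Real.exp_pos _).le g0
  have s2 : ∏ p ∈ P, (1 + Real.exp (Real.log p / l) * ((p : ℝ) - 1)⁻¹) ≤
      (∏ p ∈ P, (1 - (p : ℝ)⁻¹)⁻¹) * ∏ p ∈ P, (1 + 2 / l * (Real.log p * (p : ℝ)⁻¹)) := by
    rw [← prod_mul_distrib]
    refine prod_le_prod (fun p hp => ?_) fun p hp => ?_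
    · have := sub_pos.2 (one_lt (hP p hp).1)
      positivity
    · have a := one_lt (hP p hp).1
      have a0 : 0 ≤ Real.log p / l := div_nonneg (Real.log_natCast_nonneg p) l0.le
      have a1 := (le_abs_self _).trans (Real.abs_exp_sub_one_le (x := Real.log p / l)
        (by rw [abs_of_nonneg a0]; exact (div_le_one l0).2 (hP p hp).2.2))
      rw [abs_of_nonneg a0] at a1
      have a2 : (1 - (p : ℝ)⁻¹)⁻¹ * (1 + 2 / l * (Real.log p * (p : ℝ)⁻¹)) =
          1 + (1 + 2 * (Real.log p / l)) * ((p : ℝ) - 1)⁻¹ := by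
        have : (p : ℝ) - 1 ≠ 0 := by linarith
        have : (p : ℝ) ≠ 0 := by linarith
        field_simp
        ring
      rw [a2]
      have := inv_pos.2 (sub_pos.2 a)
      gcongr
      linarith
  have s3 : ∏ p ∈ P, (1 + 2 / l * (Real.log p * (p : ℝ)⁻¹)) ≤ Real.exp (8 * C) := by
    refine (prod_one_add_le _ fun p _ => by
      have := Real.log_natCast_nonneg p
      positivity).trans (Real.exp_le_exp.2 ?_)
    have a : ∑ p ∈ P, Real.log p * (p : ℝ)⁻¹ ≤ 2 * C * (2 * l) :=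
      (sum_le_sum_of_subset_of_nonneg (fun p hp => mem_PR.2
        ⟨(hP p hp).1, one_le_tau (hP p hp).1, b3 p hp⟩) fun p _ _ => by
          have := Real.log_natCast_nonneg p
          positivity).trans ((logsum h2 b).trans (by gcongr))
    rw [← mul_sum]
    refine (mul_le_mul_of_nonneg_left a (by positivity)).trans (le_of_eq ?_)
    field_simp
    ring
  have s4 : ∏ p ∈ P, (1 - (p : ℝ)⁻¹)⁻¹ ≤ V0 u * (Real.exp (5 + 2 * C) * (2 * l)) := by
    have hdj : Disjoint P (PR 0 (u - 1)) := disjoint_left.2 fun p a b => by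
      have := (hP p a).2.1
      have := (mem_PR.1 b).2.2
      omega
    have a : ∏ p ∈ P ∪ PR 0 (u - 1), (1 - (p : ℝ)⁻¹)⁻¹ ≤ ∏ p ∈ PR 0 b, (1 - (p : ℝ)⁻¹)⁻¹ :=
      prod_le_prod_of_subset_of_one_le (union_subset
        (fun p hp => mem_PR.2 ⟨(hP p hp).1, Nat.zero_le _, b3 p hp⟩) (PR_mono le_rfl (by omega)))
        (fun p hp => (inv_pos.2 (fac_pos ((mem_union.1 hp).elim (fun a => (hP p a).1)
          fun a => (mem_PR.1 a).1))).le)
        fun p hp _ => (one_le_inv₀ (fac_pos (mem_PR.1 hp).1)).2 (sub_le_self _ (by positivity))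
    rw [prod_union hdj, prod_inv_distrib (s := PR 0 (u - 1))] at a
    have a2 := a.trans ((mertens hC h1 (hu.trans b4)).trans
      (mul_le_mul_of_nonneg_left b2 (Real.exp_pos _).le))
    exact (mul_inv_le_iff₀' hV).1 a2
  refine s1.trans ((mul_le_mul_of_nonneg_left (s2.trans (mul_le_mul s4 s3 (prod_nonneg fun p _ => by
    have := Real.log_natCast_nonneg p
    positivity) (by positivity))) (Real.exp_pos _).le).trans (le_of_eq ?_))
  rw [show 5 + 10 * C - Real.log Q / l = -Real.log Q / l + (5 + 2 * C) + 8 * C by ring,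
    Real.exp_add _ (8 * C), Real.exp_add _ (5 + 2 * C)]
  ring

end G

theorem pG (hPi : S_Pi) : S_G := by
  obtain ⟨C, hC, h1, -, h2, -⟩ := pi_facts hPi
  refine ⟨fun u L Q hu hQ h => ?_, 1 / (100000 * C), Real.exp (5000 * C), by positivity,
    one_div_le_one_div_of_le (by norm_num) (by linarith), fun u L hu hL => ?_⟩
  · rcases le_or_gt 0 L with hL | hL
    · exact G.part1 u L Q hu hQ hL h
    · have := Real.rpow_def_of_neg hL (3 / 5)
      have h3 : Real.cos (3 / 5 * Real.pi) ≤ 0 :=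
        Real.cos_nonpos_of_pi_div_two_le_of_le (by linarith [Real.pi_pos]) (by linarith [Real.pi_pos])
      nlinarith [Real.exp_pos (Real.log L * (3 / 5))]
  obtain ⟨th, hth⟩ : ∃ th : ℝ, th = 1 / (100000 * C) := ⟨_, rfl⟩
  rw [← hth]
  have t0 : 0 < th := by rw [hth]; positivity
  have t1 : th * C = 1 / 100000 := by rw [hth]; field_simp
  have t2 : th ≤ 1 / 100000 := by nlinarith
  have L0 : 0 < L := (Real.exp_pos _).trans_le hL
  have L1 : 5000 * C ≤ Real.log L := (Real.le_log_iff_exp_le L0).2 hL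
  have L2 : 1 ≤ L := (Real.one_le_exp (by linarith)).trans hL
  have hl : 1 ≤ 20 * th * Real.log L := by nlinarith
  have a1 := G.part1 u L (L ^ ((1 + th) / 2)) hu (Real.one_le_rpow L2 (by linarith)) L0.le
    (Real.rpow_le_rpow_of_exponent_le L2 (by linarith))
  have a2 := G.rankin hC h1 h2 hu hl (Q := L ^ ((1 - th) / 2)) (Real.one_le_rpow L2 (by linarith))
    ((PPs u L).filter fun p => (p : ℝ) < L ^ (20 * th)) fun p hp => by
      obtain ⟨a, b⟩ := mem_filter.1 hp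
      obtain ⟨c, d, -⟩ := (mem_PPs L0.le).1 a
      refine ⟨c, d, ?_⟩
      rw [← Real.log_rpow L0]
      exact Real.log_le_log (by exact_mod_cast c.pos) b.le
  rw [Real.log_rpow L0] at a1 a2
  have a3 : Real.exp (5 + 10 * C - (1 - th) / 2 * Real.log L / (20 * th * Real.log L)) ≤ 1 / 320 := by
    have e : (1 - th) / 2 * Real.log L / (20 * th * Real.log L) = (1 - th) * (2500 * C) := by
      have : Real.log L ≠ 0 := by linarith
      field_simp
      linear_combination (-100000) * (1 - th) * t1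
    have e2 := Real.add_one_le_exp 320
    rw [e, le_one_div (Real.exp_pos _) (by norm_num), one_div (Real.exp _),
      ← Real.exp_neg]
    exact le_trans (by linarith) (e2.trans (Real.exp_le_exp.2 (by nlinarith)))
  have a4 : ∑ U ∈ (PPs u L).powerset.filter (fun U => (pv U : ℝ) ≤ L ^ ((1 + th) / 2)), gg U ≤
      ∑ U ∈ DDs u th L, gg U + ∑ U ∈ ((PPs u L).filter
        fun p : ℕ => (p : ℝ) < L ^ (20 * th)).powerset.filter
          (fun U => L ^ ((1 - th) / 2) < (pv U : ℝ)), gg U := by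
    have g0 : ∀ U ∈ (PPs u L).powerset, 0 ≤ gg U := fun U hU =>
      G.gg_nonneg fun p hp => PPs_prime p (mem_powerset.1 hU hp)
    rw [← sum_union_inter]
    refine le_trans (sum_le_sum_of_subset_of_nonneg (fun U hU => ?_) fun U hU _ => ?_)
      (le_add_of_nonneg_right (sum_nonneg fun U hU => g0 U (mem_filter.1 (mem_inter.1 hU).1).1))
    · obtain ⟨a, b⟩ := mem_filter.1 hU
      by_cases c : U ∈ DDs u th L
      · exact mem_union_left _ c
      · have d := fun e => c (mem_filter.2 ⟨a, b, e⟩)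
        refine mem_union_right _ (mem_filter.2 ⟨mem_powerset.2 fun p hp =>
          mem_filter.2 ⟨mem_powerset.1 a hp, ?_⟩, not_le.1 fun e => d (Or.inl e)⟩)
        exact not_le.1 fun e => d (Or.inr ⟨p, hp, e⟩)
    · rcases mem_union.1 hU with a | a
      · exact g0 U (mem_filter.1 a).1
      · exact g0 U (powerset_mono.2 (filter_subset _ _) (mem_filter.1 a).1)
  have a5 := mul_le_mul_of_nonneg_left (mul_le_mul_of_nonneg_right a3
    (show 0 ≤ 2 * (20 * th * Real.log L) by linarith)) (V0_pos u).le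
  linarith

end Pool.Agent.P.MP_26a8c3_nt.EC
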