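import Pool.Agent.P.MP_26a8c3_nt.EC.Base

/-! Grandchildren of the even nodes are stopping nodes. -/

namespace Pool.Agent.P.MP_26a8c3_nt.EC

open Finset
open scoped Classical

namespace Gc

lemma inj_le {α β : Type} (s : Finset α) (t : Finset β) (e : α → β) (f : β → ℝ)
    (hf : ∀ b, 0 ≤ f b) (hi : Set.InjOn e s) (hm : ∀ a ∈ s, e a ∈ t) :
    ∑ a ∈ s, f (e a) ≤ ∑ b ∈ t, f b := by
  rw [← sum_image hi]
  exact sum_le_sum_of_subset_of_nonneg (image_subset_iff.2 hm) fun b _ _ => hf b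

lemma rc_low {C : ℝ} (h : ∀ t : ℕ, 2 * C ≤ t → 1 / (2 * t) ≤ rc (PR t t)) {a μ : ℕ} (h0 : 1 ≤ μ)
    (h1 : 2 * C ≤ μ) (ha : 1 ≤ a) (hb : a ≤ 31) : 1 / 33 ≤ rc (PR (a * μ) ((a + 2) * μ)) := by
  have m0 : (0 : ℝ) < μ := by exact_mod_cast h0
  have h2 := card_nsmul_le_sum (Icc (a * μ) ((a + 2) * μ)) (fun t => rc (PR t t)) (1 / (66 * μ))
    fun t ht => by
      have t1 : μ ≤ t := le_trans (Nat.le_mul_of_pos_left μ ha) (mem_Icc.1 ht).1
      have t2 : t ≤ 33 * μ := (mem_Icc.1 ht).2.trans (Nat.mul_le_mul_right _ (by omega))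
      have t3 : (μ : ℝ) ≤ t := by exact_mod_cast t1
      have t4 : (t : ℝ) ≤ 33 * μ := by exact_mod_cast t2
      exact (one_div_le_one_div_of_le (by linarith) (by linarith)).trans (h t (h1.trans t3))
  rw [Nat.card_Icc, show (a + 2) * μ + 1 - a * μ = 2 * μ + 1 by rw [add_mul]; omega,
    nsmul_eq_mul] at h2
  rw [rc_PR]
  refine le_trans ?_ h2
  push_cast
  rw [mul_one_div, div_le_div_iff₀ (by norm_num) (by positivity)]
  linarith

lemma ins_inj {p p' : ℕ} {d d' : Finset ℕ} (h : ∀ q ∈ d, p < q) (h' : ∀ q ∈ d', p' < q)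
    (e : insert p d = insert p' d') : p = p' ∧ d = d' := by
  have m : ∀ {p : ℕ} {d : Finset ℕ}, (∀ q ∈ d, p < q) → mn (insert p d) = p := fun h =>
    mn_eq (mem_insert_self _ _) (forall_mem_insert _ _ _ |>.2 ⟨le_rfl, fun q hq => (h q hq).le⟩)
  obtain rfl : p = p' := by rw [← m h, e, m h']
  exact ⟨rfl, by rw [← erase_insert fun a => lt_irrefl _ (h p a), e,
    erase_insert fun a => lt_irrefl _ (h' p a)]⟩

end Gc

open Gc

theorem pGc (hPi : S_Pi) : S_Gc := by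
  obtain ⟨C, -, -, -, -, hC⟩ := pi_facts hPi
  refine ⟨1 / 33 * (1 / 33), ⌈2 * C⌉₊ + 1, by norm_num, fun u Z Δ μ h1 h2 h3 => ?_⟩
  have m1 : 1 ≤ μ := by omega
  have m2 : 2 * C ≤ μ := Nat.ceil_le.1 (by omega)
  have r1 := rc_low (fun t h => (hC t h).1) m1 m2 (a := 31) (by norm_num) le_rfl
  have r2 := rc_low (fun t h => (hC t h).1) m1 m2 (a := 28) (by norm_num) (by norm_num)
  have key : ∀ x ∈ ((Ico (100 * μ) (102 * μ)).sigma fun l =>
      (PR ((l + 2) / 3) Δ).powerset.filter fun d => tree Δ d ∧ d.card % 2 = 0 ∧ ts d + l = Δ) ×ˢ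
      (PR (31 * μ) ((31 + 2) * μ) ×ˢ PR (28 * μ) ((28 + 2) * μ)),
      (∀ r ∈ x.1.2, x.2.1 < r) ∧ (∀ r ∈ insert x.2.1 x.1.2, x.2.2 < r) ∧ ts x.1.2 + x.1.1 = Δ ∧
        insert x.2.2 (insert x.2.1 x.1.2) ∈ S0 u Z Δ μ := by
    rintro ⟨⟨l, d⟩, p, q⟩ hx
    simp only [mem_product, mem_sigma, mem_Ico, mem_filter, mem_powerset, mem_PR] at hx
    obtain ⟨⟨⟨l1, l2⟩, d1, d2, d3, d4⟩, ⟨p1, p2, p3⟩, q1, q2, q3⟩ := hx
    have a0 : ∀ r ∈ d, r.Prime ∧ 33 * μ < tau r := fun r hr =>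
      ⟨(mem_PR.1 (d1 hr)).1, by have := (mem_PR.1 (d1 hr)).2.1; omega⟩
    have a1 : ∀ r ∈ d, p < r := fun r hr => lt_of_tau_lt (by have := (a0 r hr).2; omega)
    have a2 : ∀ r ∈ insert p d, q < r := (forall_mem_insert _ _ _).2
      ⟨lt_of_tau_lt (by omega), fun r hr => lt_of_tau_lt (by have := (a0 r hr).2; omega)⟩
    have n1 : p ∉ d := fun a => lt_irrefl _ (a1 p a)
    have n2 : q ∉ insert p d := fun a => lt_irrefl _ (a2 q a)
    have a3 : tree Δ (insert q (insert p d)) := (tree_insert a2).2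
      ⟨(tree_insert a1).2 ⟨d2, fun _ => by omega⟩, fun a => by
        rw [card_insert_of_notMem n1, Nat.even_iff] at a
        omega⟩
    have a4 : ∀ r ∈ insert q (insert p d), r.Prime ∧ 28 * μ ≤ tau r :=
      (forall_mem_insert _ _ _).2 ⟨⟨q1, q2⟩, (forall_mem_insert _ _ _).2
        ⟨⟨p1, by omega⟩, fun r hr => ⟨(a0 r hr).1, by have := (a0 r hr).2; omega⟩⟩⟩
    refine ⟨a1, a2, d4, mem_filter.2 ⟨mem_powerset.2 fun r hr => mem_PR.2
      ⟨(a4 r hr).1, h2.trans (a4 r hr).2, by have := tree_top a3 hr; omega⟩, a3, ?_, ?_, ?_,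
      fun r hr => (a4 r hr).2, q, mem_insert_self _ _, by omega⟩⟩
    · rw [card_insert_of_notMem n2, card_insert_of_notMem n1, Nat.even_iff]
      omega
    · rw [ts_insert n2, ts_insert n1]
      omega
    · rw [ts_insert n2, ts_insert n1]
      omega
  refine le_trans ?_ (inj_le _ _ (fun x => insert x.2.2 (insert x.2.1 x.1.2))
    (fun d => (pv d : ℝ)⁻¹) (fun _ => by positivity) (fun x hx y hy e => ?_)
    fun x hx => (key x hx).2.2.2)
  · refine le_of_le_of_eq ?_ (sum_congr rfl fun x hx => show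
      (pv x.1.2 : ℝ)⁻¹ * ((x.2.1 : ℝ)⁻¹ * (x.2.2 : ℝ)⁻¹) = _ by
      rw [pv_insert fun a => lt_irrefl _ ((key x hx).2.1 _ a),
        pv_insert fun a => lt_irrefl _ ((key x hx).1 _ a)]
      push_cast
      ring)
    rw [sum_product, mul_comm]
    simp only [← mul_sum, ← sum_mul]
    rw [sum_product, sum_sigma]
    simp only [← mul_sum, ← sum_mul]
    exact mul_le_mul_of_nonneg_left (mul_le_mul r1 r2 (by norm_num) (rc_nonneg _))
      (sum_nonneg fun l _ => RR_nonneg _ _ _ _)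
  · obtain ⟨e1, e2⟩ := ins_inj (key x hx).2.1 (key y hy).2.1 e
    obtain ⟨e3, e4⟩ := ins_inj (key x hx).1 (key y hy).1 e2
    have e5 := (key x hx).2.2.1
    have e6 := (key y hy).2.2.1
    rw [e4] at e5
    exact Prod.ext (Sigma.ext (by omega) (heq_of_eq e4)) (Prod.ext e3 e1)

end Pool.Agent.P.MP_26a8c3_nt.EC
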