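import Pool.Agent.P.MP_26a8c3_nt.EC.Base

/-! A large family of biased intervals contains two whose difference has many large primes. -/

namespace Pool.Agent.P.MP_26a8c3_nt.EC

open Finset
open scoped Classical ComplexConjugate
open Hyb (ee)

namespace HM

lemma conj_ee (x : ℝ) : conj (ee x) = ee (-x) := by
  rw [Hyb.ee_eq, Hyb.ee_eq, ← Complex.exp_conj, map_mul, Complex.conj_I, Complex.conj_ofReal]
  push_cast
  ring_nf

lemma cau {ι κ : Type*} (S : Finset ι) (K : Finset κ) (w : κ → ℝ) (hw : ∀ k, 0 ≤ w k)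
    (z : ι → κ → ℂ) : (∑ k ∈ K, w k * ‖∑ i ∈ S, z i k‖) ^ 2 ≤ (∑ k ∈ K, w k) *
      ∑ i ∈ S, ∑ j ∈ S, (∑ k ∈ K, (w k : ℂ) * (z i k * conj (z j k))).re := by
  refine (sum_sq_le_sum_mul_sum_of_sq_le_mul K (f := w)
    (g := fun k => w k * ‖∑ i ∈ S, z i k‖ ^ 2) (fun k _ => hw k)
    (fun k _ => mul_nonneg (hw k) (sq_nonneg _)) fun k _ => le_of_eq (by ring)).trans (le_of_eq ?_)
  congr 1
  simp only [← Complex.re_sum]
  rw [sum_congr rfl fun i _ => sum_comm, sum_comm, Complex.re_sum]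
  refine sum_congr rfl fun k _ => ?_
  simp only [← mul_sum, ← map_sum, ← sum_mul]
  rw [Complex.mul_conj', ← Complex.ofReal_pow, ← Complex.ofReal_mul, Complex.ofReal_re]

lemma div_sub {a b e : ℕ} (he : 0 < e) (h : a ≡ b [MOD e]) :
    ((a : ℤ) - b) / e = ((a / e : ℕ) : ℤ) - ((b / e : ℕ) : ℤ) := by
  have h1 : (a : ℤ) = e * (a / e : ℕ) + (a % e : ℕ) := by exact_mod_cast (Nat.div_add_mod a e).symm
  have h2 : (b : ℤ) = e * (b / e : ℕ) + (a % e : ℕ) := by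
    rw [h]; exact_mod_cast (Nat.div_add_mod b e).symm
  refine Int.ediv_eq_of_eq_mul_right (by exact_mod_cast he.ne') ?_
  linarith

lemma mem_QS {u q : ℕ} {th L : ℝ} (hL : 0 ≤ L) (h : q ∈ QS u th L) :
    0 < q ∧ (q : ℝ) ≤ L ^ (1 + th) ∧ q ∣ PP u L ∧
      ∃ p : ℕ, p.Prime ∧ p ∣ q ∧ L ^ (20 * th) ≤ (p : ℝ) := by
  obtain ⟨h1, h2, -, h3⟩ := mem_filter.1 h
  exact ⟨(mem_Icc.1 h1).1, (Nat.le_floor_iff (Real.rpow_nonneg hL _)).1 (mem_Icc.1 h1).2, h2, h3⟩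

lemma card_QS (u : ℕ) (th : ℝ) {L : ℝ} (hL : 0 ≤ L) : ((QS u th L).card : ℝ) ≤ L ^ (1 + th) := by
  refine le_trans ?_ (Nat.floor_le (Real.rpow_nonneg hL _))
  exact_mod_cast (card_filter_le _ _).trans (by simp)

/-- the moduli with a large prime factor that divides `D` -/
lemma card_bad (u : ℕ) (th : ℝ) {L : ℝ} (hL : 0 ≤ L) (D : ℤ) :
    (((QS u th L).filter fun q => ¬ ∃ p : ℕ, p.Prime ∧ p ∣ q ∧ L ^ (20 * th) ≤ (p : ℝ) ∧
      ¬ (p : ℤ) ∣ D).card : ℝ) ≤ L ^ (1 + th) * ag u th L D := by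
  rw [ag, rc, mul_sum]
  refine le_trans (Nat.cast_le.2 ((card_le_card (t := ((PPs u L).filter fun p : ℕ =>
    L ^ (20 * th) ≤ (p : ℝ) ∧ (p : ℤ) ∣ D).biUnion fun p =>
      (Ioc 0 ⌊L ^ (1 + th)⌋₊).filter (p ∣ ·)) fun q hq => ?_).trans card_biUnion_le)) ?_
  · obtain ⟨h1, h2⟩ := mem_filter.1 hq
    obtain ⟨-, -, h3, p, hp, h4, h5⟩ := mem_QS hL h1
    exact mem_biUnion.2 ⟨p, mem_filter.2 ⟨(prime_dvd_pv PPs_prime hp).1 (h4.trans h3), h5,
      not_not.1 fun e => h2 ⟨p, hp, h4, h5, e⟩⟩, mem_filter.2 ⟨(mem_filter.1 h1).1, h4⟩⟩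
  · rw [Nat.cast_sum]
    refine sum_le_sum fun p _ => ?_
    rw [Nat.Ioc_filter_dvd_card_eq_div, ← div_eq_mul_inv]
    exact Nat.cast_div_le.trans (div_le_div_of_nonneg_right
      (Nat.floor_le (Real.rpow_nonneg hL _)) (Nat.cast_nonneg _))

lemma gcd_le {q p : ℕ} {th L : ℝ} {h D : ℤ} (hL : 1 < L) (h0 : 0 < th) (hq : 0 < q)
    (hp : p.Prime) (h1 : p ∣ q) (h2 : L ^ (20 * th) ≤ (p : ℝ)) (h3 : ¬ (p : ℤ) ∣ D)
    (hh : h ∈ HS th L) : L ^ (16 * th) * (Int.gcd (q : ℤ) (h * D) : ℝ) ≤ q := by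
  obtain ⟨a1, a2⟩ := mem_erase.1 hh
  have a3 : ¬ (p : ℤ) ∣ h := fun e => by
    have b1 := (Int.le_of_dvd (abs_pos.2 a1) ((dvd_abs _ _).2 e)).trans (abs_le.2 (mem_Icc.1 a2))
    have b2 : (p : ℝ) ≤ ⌊L ^ (4 * th)⌋₊ := by exact_mod_cast b1
    have b3 := Real.rpow_lt_rpow_of_exponent_lt hL (by linarith : 4 * th < 20 * th)
    linarith [Nat.floor_le (Real.rpow_nonneg (by linarith : 0 ≤ L) (4 * th))]
  have a4 : Nat.Coprime p (Int.gcd (q : ℤ) (h * D)) := hp.coprime_iff_not_dvd.2 fun e =>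
    ((Nat.prime_iff_prime_int.1 hp).dvd_or_dvd
      ((Int.natCast_dvd_natCast.2 e).trans (Int.gcd_dvd_right _ _))).elim a3 h3
  have a5 := Nat.le_of_dvd hq (a4.mul_dvd_of_dvd_of_dvd h1
    (Int.natCast_dvd_natCast.1 (Int.gcd_dvd_left _ _)))
  refine le_trans (mul_le_mul_of_nonneg_right ((Real.rpow_le_rpow_of_exponent_le hL.le
    (by linarith)).trans h2) (Nat.cast_nonneg _)) ?_
  exact_mod_cast a5

lemma norm_le (E1 E2 : Finset ℕ) (f : ℕ → ℕ → ℝ) :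
    ‖∑ e1 ∈ E1, ∑ e2 ∈ E2, ee (f e1 e2)‖ ≤ E1.card * E2.card := by
  refine (norm_sum_le_of_le _ fun e1 _ => norm_sum_le_of_le _ fun e2 _ =>
    (Hyb.norm_ee _).le).trans (le_of_eq ?_)
  simp

/-- the off diagonal terms -/
lemma off {u : ℕ} {th L β m : ℝ} (hL : 1 < L) (h0 : 0 < th) {c : ℕ → ℤ → ℝ}
    (c0 : ∀ q h, 0 ≤ c q h) (hc : ∀ q, ∑ h ∈ HS th L, c q h ≤ L ^ th) {g : ℕ → ℤ → ℝ}
    (g0 : ∀ q h, 0 ≤ g q h) (g1 : ∀ q h, g q h ≤ m) (D : ℤ)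
    (hB : ∀ (Q : Finset ℕ) (hh : ℕ → ℤ), Q ⊆ QS u th L →
      (∀ q ∈ Q, L ^ (16 * th) * (Int.gcd (q : ℤ) (hh q * D) : ℝ) ≤ q) →
        ∑ q ∈ Q, g q (hh q) ≤ β) :
    ∑ q ∈ QS u th L, ∑ h ∈ HS th L, c q h * g q h ≤
      L ^ th * (β + L ^ (1 + th) * ag u th L D * m) := by
  have hne : (HS th L).Nonempty := ⟨1, mem_erase.2 ⟨one_ne_zero, mem_Icc.2 ⟨by omega, by
    exact_mod_cast (Nat.one_le_floor_iff _).2 (Real.one_le_rpow hL.le (by linarith))⟩⟩⟩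
  choose hh h1 h2 using fun q => exists_max_image (HS th L) (g q) hne
  have hw : 0 ≤ L ^ th := by positivity
  refine (sum_le_sum (g := fun q => L ^ th * g q (hh q)) fun q _ =>
    (sum_le_sum fun h e => mul_le_mul_of_nonneg_left (h2 q h e) (c0 q h)).trans (by
      rw [← sum_mul]; exact mul_le_mul_of_nonneg_right (hc q) (g0 _ _))).trans ?_
  rw [← mul_sum, ← sum_filter_add_sum_filter_not _ fun q => ∃ p : ℕ, p.Prime ∧ p ∣ q ∧
    L ^ (20 * th) ≤ (p : ℝ) ∧ ¬ (p : ℤ) ∣ D]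
  refine mul_le_mul_of_nonneg_left (add_le_add (hB _ hh (filter_subset _ _) fun q hq => ?_)
    ((sum_le_card_nsmul _ _ m fun q _ => g1 _ _).trans ?_)) hw
  · obtain ⟨a, p, hp, a1, a2, a3⟩ := mem_filter.1 hq
    exact gcd_le hL h0 (mem_QS (by linarith) a).1 hp a1 a2 a3 (h1 q)
  · rw [nsmul_eq_mul]
    exact mul_le_mul_of_nonneg_right (card_bad u th (by linarith) D) ((g0 0 0).trans (g1 0 0))

lemma num {n w L m : ℝ} (hw : 2 ≤ w) (hL : 0 < L) (hm : 0 < m) (hn : 8 * w ^ 6 ≤ n)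
    (h : (n * (L / w * m)) ^ 2 ≤ L * w * w * m * (n * (L * w * w * m +
      n * (w * (L / w ^ 6 * m + L * w * ((w ^ 6)⁻¹ / 4) * m))))) : False := by
  have w0 : 0 < w := by linarith
  have n0 : 0 < n := lt_of_lt_of_le (by positivity) hn
  have h1 : n * w ≤ w ^ 7 + n * (1 + w / 4) := by
    refine le_of_mul_le_mul_left (le_trans (le_of_eq ?_) (h.trans (le_of_eq ?_)))
      (show 0 < n * (L * m) ^ 2 / w ^ 3 by positivity) <;> field_simp
  have h2 : 8 * w ^ 6 * (3 * w / 4 - 1) ≤ n * (3 * w / 4 - 1) :=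
    mul_le_mul_of_nonneg_right hn (by linarith)
  have h3 : 0 < w ^ 6 * (5 * w - 8) := mul_pos (by positivity) (by linarith)
  linarith

end HM

open HM in
theorem pHM (hBias : S_Bias) : S_HM := by
  intro B th h0 h1
  obtain ⟨Λ0, hB⟩ := hBias B th h0 h1
  refine ⟨max Λ0 2, fun u M Λ L Y c E1 E2 S a hΛ hL hw hc hE c1 c2 hM ha hS hn => ?_⟩
  by_contra hcon
  push Not at hcon
  have L0 : 0 < L := by linarith
  have w2 : 2 ≤ L ^ th := le_trans (le_trans ((le_max_right _ _).trans hΛ) (le_self_pow₀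
    (by linarith [(le_max_right _ _).trans hΛ]) (by norm_num))) hw
  have L1 : 1 < L := lt_of_le_of_ne hL fun e => by rw [← e, Real.one_rpow] at w2; linarith
  have p6 : L ^ (6 * th) = (L ^ th) ^ 6 := by
    rw [mul_comm, Real.rpow_mul L0.le]; exact_mod_cast Real.rpow_natCast _ 6
  have m0 : (0 : ℝ) < E1.card * E2.card := mul_pos (by linarith) (by linarith)
  have he : ∀ e1 ∈ E1, ∀ e2 ∈ E2, 0 < e1 * e2 := fun e1 a1 e2 a2 =>
    mul_pos (hE e1 (mem_union_left _ a1)).1 (hE e2 (mem_union_right _ a2)).1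
  have hW : ∑ q ∈ QS u th L, ∑ h ∈ HS th L, ‖c q h‖ ≤ L * L ^ th * L ^ th := by
    refine (sum_le_card_nsmul _ _ _ fun q _ => hc.1 q).trans ?_
    rw [nsmul_eq_mul, ← Real.rpow_one_add' L0.le (by linarith)]
    exact mul_le_mul_of_nonneg_right (card_QS u th L0.le) (by positivity)
  have k1 := cau S ((QS u th L ×ˢ HS th L) ×ˢ E1 ×ˢ E2) (fun k => ‖c k.1.1 k.1.2‖)
    (fun _ => norm_nonneg _) fun i k => ee ((k.1.2 : ℝ) * (a i / (k.2.1 * k.2.2) : ℕ) / k.1.1)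
  have k2 : S.card * (L / L ^ th * (E1.card * E2.card)) ≤
      ∑ k ∈ (QS u th L ×ˢ HS th L) ×ˢ E1 ×ˢ E2, ‖c k.1.1 k.1.2‖ *
        ‖∑ i ∈ S, ee ((k.1.2 : ℝ) * (a i / (k.2.1 * k.2.2) : ℕ) / k.1.1)‖ := by
    refine le_trans ?_ (sum_le_sum fun k _ => (Complex.re_le_norm _).trans_eq (norm_mul _ _))
    simp only [mul_sum, Complex.re_sum]
    rw [sum_comm, ← nsmul_eq_mul]
    refine card_nsmul_le_sum _ _ _ fun i hi => ?_
    have b := (hS i hi).trans (sum_le_sum fun e1 _ => sum_le_sum fun e2 _ => hc.2 _)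
    simp only [sum_add_distrib, sum_const, nsmul_eq_mul, Complex.re_sum] at b
    rw [Real.rpow_sub L0, Real.rpow_one] at b
    rw [sum_product_right, sum_product]
    simp only [sum_product]
    linarith
  have k3 : ∀ i ∈ S, ∀ j ∈ S, (∑ k ∈ (QS u th L ×ˢ HS th L) ×ˢ E1 ×ˢ E2,
      (‖c k.1.1 k.1.2‖ : ℂ) * (ee ((k.1.2 : ℝ) * (a i / (k.2.1 * k.2.2) : ℕ) / k.1.1) *
        conj (ee ((k.1.2 : ℝ) * (a j / (k.2.1 * k.2.2) : ℕ) / k.1.1)))).re ≤
      ∑ q ∈ QS u th L, ∑ h ∈ HS th L, ‖c q h‖ * ‖∑ e1 ∈ E1, ∑ e2 ∈ E2,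
        ee (((h * (((a i : ℤ) - a j) / ((e1 * e2 : ℕ) : ℤ)) : ℤ) : ℝ) / q)‖ := fun i hi j hj => by
    simp only [sum_product, ← mul_sum]
    refine (Complex.re_le_norm _).trans (norm_sum_le_of_le _ fun q _ =>
      norm_sum_le_of_le _ fun h _ => le_of_eq ?_)
    rw [norm_mul, Complex.norm_real, norm_norm]
    congr 2
    refine sum_congr rfl fun e1 a1 => sum_congr rfl fun e2 a2 => ?_
    rw [conj_ee, ← Hyb.ee_add, div_sub (he e1 a1 e2 a2) ((ha i hi j hj).of_dvd (hM e1 a1 e2 a2)),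
      Int.cast_mul, Int.cast_sub, Int.cast_natCast, Int.cast_natCast]
    congr 1
    ring
  have hβ : 0 ≤ L ^ th * (L / (L ^ th) ^ 6 * (E1.card * E2.card) +
      L * L ^ th * (((L ^ th) ^ 6)⁻¹ / 4) * (E1.card * E2.card)) := by positivity
  refine num w2 L0 m0 (p6 ▸ hn) ((pow_le_pow_left₀ (by positivity) k2 2).trans (k1.trans
    ((mul_le_mul_of_nonneg_left ?_ (by positivity)).trans (mul_le_mul_of_nonneg_right ?_
      (by positivity)))))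
  · rw [← nsmul_eq_mul]
    refine sum_le_card_nsmul _ _ _ fun i hi => ?_
    rw [← add_sum_erase _ _ hi]
    refine add_le_add ((k3 i hi i hi).trans ((sum_le_sum fun q _ => sum_le_sum fun h _ =>
      mul_le_mul_of_nonneg_left (norm_le _ _ _) (norm_nonneg _)).trans ?_))
      ((sum_le_card_nsmul _ _ _ fun j hj => (k3 i hi j (mem_of_mem_erase hj)).trans ?_).trans (by
        rw [nsmul_eq_mul]
        exact mul_le_mul_of_nonneg_right (Nat.cast_le.2 card_erase_le) hβ))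
    · simp only [← sum_mul]
      exact mul_le_mul_of_nonneg_right hW m0.le
    · have b := (hcon i hi j (mem_of_mem_erase hj) (ne_of_mem_erase hj).symm).le
      rw [Real.rpow_neg L0.le, p6] at b
      refine (off (u := u) (c := fun q h => ‖c q h‖) (g := fun q h => ‖∑ e1 ∈ E1, ∑ e2 ∈ E2,
        ee (((h * (((a i : ℤ) - a j) / ((e1 * e2 : ℕ) : ℤ)) : ℤ) : ℝ) / q)‖) L1 h0
        (fun _ _ => norm_nonneg _) hc.1 (fun _ _ => norm_nonneg _)
        (fun _ _ => norm_le _ _ _) ((a i : ℤ) - a j) fun Q hh a1 a2 =>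
          hB Λ L E1 E2 Q ((a i : ℤ) - a j) hh ((le_max_left _ _).trans hΛ) hL hw
            (fun e a => ⟨(hE e a).1, (hE e a).2.1⟩) c1 c2 (fun e1 a3 e2 a4 =>
              ((ha i hi j (mem_of_mem_erase hj)).of_dvd (hM e1 a3 e2 a4)).symm.dvd)
            fun q hq => ⟨(mem_QS L0.le (a1 hq)).1, (mem_QS L0.le (a1 hq)).2.1, fun e a =>
              (hE e a).2.2.coprime_dvd_right (mem_QS L0.le (a1 hq)).2.2.1, a2 q hq⟩).trans ?_
      rw [Real.rpow_sub L0, Real.rpow_one, p6, Real.rpow_one_add' L0.le (by linarith), mul_assoc]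
      gcongr
  · simp only [sum_product, sum_const, nsmul_eq_mul, ← mul_sum, card_product, Nat.cast_mul]
    rw [mul_comm]
    exact mul_le_mul_of_nonneg_right hW m0.le

end Pool.Agent.P.MP_26a8c3_nt.EC
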