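import Pool.Agent.P.MP_26a8c3_nt.EC.Base
import Pool.Agent.P.MP_0ad054_nt.An.All

/-! A bound of Hall type for almost submultiplicative weights against a window. -/

namespace Pool.Agent.P.MP_26a8c3_nt.EC

open Finset
open scoped Classical ArithmeticFunction.vonMangoldt

namespace Hall

lemma psi_rel (θ : ℝ) (hθ : 0 < θ) : ∃ X0 : ℕ, ∀ X : ℕ, X0 ≤ X →
    |∑ n ∈ Icc 1 X, Λ n - X| ≤ θ * X := by
  obtain ⟨C, hC, h⟩ := MP_0ad054_nt.An.pnt_all 1
  refine ⟨⌈Real.exp (C / θ)⌉₊ + 2, fun X hX => ?_⟩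
  have h2 : 2 ≤ X := by omega
  have hX0 : (0 : ℝ) < X := by exact_mod_cast (by omega : 0 < X)
  have h3 : Real.exp (C / θ) ≤ X := by
    refine (Nat.le_ceil _).trans ?_
    exact_mod_cast (by omega : ⌈Real.exp (C / θ)⌉₊ ≤ X)
  have h4 : C / θ ≤ Real.log X := (Real.le_log_iff_exp_le hX0).2 h3
  have h5 : 0 < Real.log X := lt_of_lt_of_le (by positivity) h4
  refine (h X h2).trans ?_
  rw [pow_one, div_le_iff₀ h5]
  rw [div_le_iff₀ hθ] at h4
  nlinarith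

/-- The weighted sum over a window. -/
noncomputable def W (n0 N : ℕ) (y z : ℝ) : ℝ :=
  ∑ n ∈ (Icc n0 N).filter (fun n : ℕ => y < n ∧ (n : ℝ) ≤ z), Λ n / n

lemma W_split (n0 N : ℕ) (x y z : ℝ) : W n0 N x z ≤ W n0 N x y + W n0 N y z := by
  unfold W
  rw [sum_filter, sum_filter, sum_filter, ← sum_add_distrib]
  refine sum_le_sum fun n _ => ?_
  have h0 : 0 ≤ Λ n / (n : ℝ) := div_nonneg ArithmeticFunction.vonMangoldt_nonneg (by positivity)
  by_cases h1 : x < n ∧ (n : ℝ) ≤ z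
  · rcases le_or_gt (n : ℝ) y with h2 | h2
    · rw [if_pos h1, if_pos ⟨h1.1, h2⟩]; split_ifs <;> linarith
    · rw [if_pos h1, if_pos (show y < n ∧ (n : ℝ) ≤ z from ⟨h2, h1.2⟩)]; split_ifs <;> linarith
  · rw [if_neg h1]; split_ifs <;> linarith

lemma piece (θ : ℝ) (hθ : 0 < θ) (_hθ1 : θ ≤ 1) : ∃ n0 : ℕ, 1 ≤ n0 ∧ ∀ (N : ℕ) (r y : ℝ), 1 ≤ r →
    r ≤ 3 → 0 < y → W n0 N y (r * y) ≤ r - 1 + 5 * θ := by
  obtain ⟨X0, h⟩ := psi_rel θ hθ
  refine ⟨3 * (X0 + ⌈1 / θ⌉₊) + 1, by omega, fun N r y hr hr3 hy => ?_⟩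
  rcases lt_or_ge y ((X0 + ⌈1 / θ⌉₊ : ℕ) : ℝ) with hy0 | hy0
  · have : W (3 * (X0 + ⌈1 / θ⌉₊) + 1) N y (r * y) = 0 := by
      refine sum_eq_zero fun n hn => ?_
      exfalso
      obtain ⟨hn1, -, hn3⟩ := mem_filter.1 hn
      have h1 : ((3 * (X0 + ⌈1 / θ⌉₊) + 1 : ℕ) : ℝ) ≤ n := by exact_mod_cast (mem_Icc.1 hn1).1
      push_cast at h1 hy0
      nlinarith
    rw [this]; linarith
  · have hab : ⌊y⌋₊ ≤ ⌊r * y⌋₊ := Nat.floor_mono (by nlinarith)
    have hX : X0 ≤ ⌊y⌋₊ := Nat.le_floor (le_trans (by exact_mod_cast Nat.le_add_right _ _) hy0)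
    have hθy : 1 ≤ θ * y := by
      have : 1 / θ ≤ y := (Nat.le_ceil _).trans
        (le_trans (by exact_mod_cast Nat.le_add_left _ _) hy0)
      rw [div_le_iff₀ hθ] at this; linarith
    have h1 : W (3 * (X0 + ⌈1 / θ⌉₊) + 1) N y (r * y) ≤ (∑ n ∈ Ioc ⌊y⌋₊ ⌊r * y⌋₊, Λ n) / y := by
      rw [sum_div]
      refine le_trans (sum_le_sum (g := fun n => Λ n / y) fun n hn => ?_)
        (sum_le_sum_of_subset_of_nonneg (fun n hn => ?_) fun n _ _ =>
          div_nonneg ArithmeticFunction.vonMangoldt_nonneg hy.le)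
      · exact div_le_div_of_nonneg_left ArithmeticFunction.vonMangoldt_nonneg hy
          (mem_filter.1 hn).2.1.le
      · obtain ⟨-, h2, h3⟩ := mem_filter.1 hn
        exact mem_Ioc.2 ⟨(Nat.floor_lt hy.le).2 h2, Nat.le_floor h3⟩
    have h2 : ∑ n ∈ Icc 1 ⌊y⌋₊, Λ n + ∑ n ∈ Ioc ⌊y⌋₊ ⌊r * y⌋₊, Λ n = ∑ n ∈ Icc 1 ⌊r * y⌋₊, Λ n :=
      sum_Ioc_consecutive (fun n => Λ n) (Nat.zero_le _) hab
    have h3 := (abs_le.1 (h _ hX)).1
    have h4 := (abs_le.1 (h _ (hX.trans hab))).2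
    have h5 : (⌊r * y⌋₊ : ℝ) ≤ r * y := Nat.floor_le (by positivity)
    have h6 : y < ⌊y⌋₊ + 1 := Nat.lt_floor_add_one y
    have h7 : (⌊y⌋₊ : ℝ) ≤ y := Nat.floor_le hy.le
    refine h1.trans ?_
    rw [div_le_iff₀ hy]
    have h8 : θ * (⌊r * y⌋₊ : ℝ) ≤ θ * (3 * y) :=
      mul_le_mul_of_nonneg_left (h5.trans (by nlinarith)) hθ.le
    have h9 : θ * (⌊y⌋₊ : ℝ) ≤ θ * y := mul_le_mul_of_nonneg_left h7 hθ.le
    nlinarith

lemma window (ε : ℝ) (hε : 0 < ε) : ∃ (n0 : ℕ) (r : ℝ), 1 ≤ n0 ∧ 1 < r ∧ ∀ (N : ℕ) (y : ℝ), 0 < y →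
    W n0 N y (Real.exp 1 * r * y) ≤ 1 + ε := by
  obtain ⟨j, hj⟩ : ∃ j : ℕ, 6 / ε + 1 ≤ j := ⟨_, Nat.le_ceil _⟩
  have hj1 : (1 : ℝ) ≤ j := le_trans (by have : 0 < 6 / ε := by positivity
                                         linarith) hj
  have hj0 : (0 : ℝ) < j := by linarith
  have hθ : 0 < min 1 (ε / (10 * (j + 1))) := lt_min one_pos (by positivity)
  obtain ⟨n0, hn0, h⟩ := piece _ hθ (min_le_left _ _)
  have ht : 1 / (j : ℝ) ≤ 1 := by rw [div_le_one hj0]; exact hj1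
  have ht0 : 0 < 1 / (j : ℝ) := by positivity
  have hr1 : 1 < Real.exp (1 / j) := Real.one_lt_exp_iff.2 ht0
  have hr2 : Real.exp (1 / j) - 1 - 1 / j ≤ (1 / j) ^ 2 :=
    (abs_le.1 (Real.abs_exp_sub_one_sub_id_le (by rw [abs_of_pos ht0]; exact ht))).2
  have hr3 : Real.exp (1 / j) ≤ 3 := by nlinarith
  refine ⟨n0, Real.exp (1 / j), hn0, hr1, fun N y hy => ?_⟩
  have key : ∀ k : ℕ, W n0 N y (Real.exp (1 / j) ^ k * y) ≤
      k * (Real.exp (1 / j) - 1 + 5 * min 1 (ε / (10 * (j + 1)))) := by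
    intro k
    induction k with
    | zero =>
      have : W n0 N y (Real.exp (1 / j) ^ 0 * y) = 0 := sum_eq_zero fun n hn => by
        obtain ⟨-, h2, h3⟩ := mem_filter.1 hn
        rw [pow_zero, one_mul] at h3
        linarith
      rw [this]; simp
    | succ k ih =>
      have h1 := W_split n0 N y (Real.exp (1 / j) ^ k * y) (Real.exp (1 / j) ^ (k + 1) * y)
      have h2 := h N _ (Real.exp (1 / j) ^ k * y) hr1.le hr3 (by positivity)
      rw [← mul_assoc, ← pow_succ'] at h2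
      push_cast
      linarith
  have h1 := key (j + 1)
  rw [pow_succ, ← Real.exp_nat_mul, mul_one_div_cancel hj0.ne'] at h1
  refine h1.trans ?_
  have h2 : min 1 (ε / (10 * (j + 1))) * (10 * (j + 1)) ≤ ε := by
    rw [← le_div_iff₀ (by positivity)]; exact min_le_right _ _
  have h3 : ((j : ℝ) + 1) * (1 / j + (1 / j) ^ 2) ≤ 1 + 3 * (1 / j) := by
    have : (j : ℝ) * (1 / j) = 1 := mul_one_div_cancel hj0.ne'
    nlinarith
  have h4 : 6 * (1 / (j : ℝ)) ≤ ε := by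
    rw [mul_one_div, div_le_iff₀ hj0]
    have : 6 / ε ≤ j := by linarith
    rw [div_le_iff₀ hε] at this; linarith
  have h5 : ((j : ℝ) + 1) * (Real.exp (1 / j) - 1) ≤ (j + 1) * (1 / j + (1 / j) ^ 2) :=
    mul_le_mul_of_nonneg_left (by linarith) (by positivity)
  push_cast
  nlinarith

lemma cl_mono (P : ℝ) {a b : ℝ} (h : a ≤ b) : cl P a ≤ cl P b :=
  min_le_min le_rfl (max_le_max le_rfl h)

lemma cl_lip (P : ℝ) {a b : ℝ} (h : a ≤ b) : cl P b - cl P a ≤ b - a := by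
  unfold cl
  simp only [min_def, max_def]
  split_ifs <;> linarith

lemma cl_low {P a : ℝ} (h : a ≤ P) : cl P a = cl P P := by
  unfold cl; rw [max_eq_left h, max_self]

lemma cl_high {P a b : ℝ} (h : Real.exp 1 * P ≤ a) (hab : a ≤ b) : cl P b = cl P a := by
  unfold cl
  rw [min_eq_left (h.trans (le_max_right _ _)), min_eq_left ((h.trans hab).trans (le_max_right _ _))]

lemma om_nonneg (P : ℝ) {α β s : ℝ} (h : α ≤ β) (hs : 0 ≤ s) : 0 ≤ om P α β s :=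
  sub_nonneg.2 (cl_mono P (div_le_div_of_nonneg_right h hs))

lemma short {n0 N : ℕ} {r c : ℝ} (hn0 : 1 ≤ n0) (hr : 1 < r)
    (h : ∀ y : ℝ, 0 < y → W n0 N y (Real.exp 1 * r * y) ≤ c) {P s α β : ℝ} (hP : 0 < P) (hs : 0 < s)
    (hα : 0 < α) (hαβ : α ≤ β) (hβ : β ≤ r * α) :
    ∑ n ∈ Icc n0 N, Λ n * om P α β (s * n) ≤ c * (β - α) / s := by
  have he := Real.exp_pos 1
  have hy : 0 < α / (Real.exp 1 * P * s) := by positivity
  have h1 := mul_le_mul_of_nonneg_right (h _ hy) (div_nonneg (sub_nonneg.2 hαβ) hs.le)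
  rw [mul_div_assoc]
  refine le_trans ?_ h1
  unfold W
  rw [sum_filter, sum_mul]
  refine sum_le_sum fun n hn => ?_
  have hn1 : (0 : ℝ) < n := by exact_mod_cast lt_of_lt_of_le hn0 (mem_Icc.1 hn).1
  have hL : 0 ≤ Λ n := ArithmeticFunction.vonMangoldt_nonneg
  have hab : α / (s * n) ≤ β / (s * n) := div_le_div_of_nonneg_right hαβ (by positivity)
  split_ifs with hc
  · have : om P α β (s * n) ≤ β / (s * n) - α / (s * n) := cl_lip P hab
    refine (mul_le_mul_of_nonneg_left this hL).trans (le_of_eq ?_)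
    field_simp
  · have : om P α β (s * n) = 0 := by
      unfold om
      rcases not_and_or.1 hc with h2 | h2
      · rw [not_lt, le_div_iff₀ (by positivity)] at h2
        rw [cl_high _ hab, sub_self]
        rw [le_div_iff₀ (by positivity)]; nlinarith
      · have h3 : Real.exp 1 * r * (α / (Real.exp 1 * P * s)) = r * α / (P * s) := by field_simp
        rw [not_le, h3, div_lt_iff₀ (by positivity)] at h2
        have h4 : β / (s * n) ≤ P := by rw [div_le_iff₀ (by positivity)]; nlinarith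
        rw [cl_low h4, cl_low (hab.trans h4), sub_self]
    rw [this]; simp

lemma long {n0 N : ℕ} {r c : ℝ} (hn0 : 1 ≤ n0) (hr : 1 < r) (hc : 0 ≤ c)
    (h : ∀ y : ℝ, 0 < y → W n0 N y (Real.exp 1 * r * y) ≤ c) {P s α β : ℝ} (hP : 0 < P) (hs : 0 < s)
    (hαβ : α ≤ β) : ∑ n ∈ Icc n0 N, Λ n * om P α β (s * n) ≤ c * (β - α) / s := by
  have key : ∀ (k : ℕ) (a : ℝ), 0 < a → a ≤ β → β ≤ r ^ k * a →
      ∑ n ∈ Icc n0 N, Λ n * om P a β (s * n) ≤ c * (β - a) / s := by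
    intro k
    induction k with
    | zero => intro a ha h1 h2; exact short hn0 hr h hP hs ha h1 (by rw [pow_zero] at h2; nlinarith)
    | succ k ih =>
      intro a ha h1 h2
      rcases le_or_gt β (r * a) with h3 | h3
      · exact short hn0 hr h hP hs ha h1 h3
      · have h4 := ih (r * a) (by positivity) h3.le (by rw [← mul_assoc, ← pow_succ]; exact h2)
        have h5 := short hn0 hr h hP hs ha (show a ≤ r * a by nlinarith) le_rfl
        have h6 : ∑ n ∈ Icc n0 N, Λ n * om P a β (s * n) =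
            ∑ n ∈ Icc n0 N, Λ n * om P (r * a) β (s * n) +
              ∑ n ∈ Icc n0 N, Λ n * om P a (r * a) (s * n) := by
          rw [← sum_add_distrib]
          exact sum_congr rfl fun n _ => by unfold om; ring
        have h7 : c * (β - a) / s = c * (β - r * a) / s + c * (r * a - a) / s := by ring
        linarith
  have low : ∀ n ∈ Icc n0 N, ∀ a : ℝ, a ≤ s * P → cl P (a / (s * n)) = cl P P := by
    intro n hn a ha
    have hn1 : (1 : ℝ) ≤ n := by exact_mod_cast hn0.trans (mem_Icc.1 hn).1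
    refine cl_low ?_
    rw [div_le_iff₀ (by positivity)]
    have : 0 < s * P := by positivity
    nlinarith
  have hsP : 0 < s * P := by positivity
  rcases le_or_gt β (s * P) with h1 | h1
  · rw [sum_eq_zero fun n hn => by
      unfold om; rw [low n hn β h1, low n hn α (hαβ.trans h1), sub_self, mul_zero]]
    exact div_nonneg (mul_nonneg hc (sub_nonneg.2 hαβ)) hs.le
  · have ha : 0 < max α (s * P) := lt_max_of_lt_right hsP
    obtain ⟨k, hk⟩ := pow_unbounded_of_one_lt (β / max α (s * P)) hr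
    rw [div_lt_iff₀ ha] at hk
    have h2 := key k _ ha (max_le hαβ h1.le) hk.le
    have h3 : ∑ n ∈ Icc n0 N, Λ n * om P α β (s * n) =
        ∑ n ∈ Icc n0 N, Λ n * om P (max α (s * P)) β (s * n) := by
      refine sum_congr rfl fun n hn => ?_
      rcases le_total α (s * P) with h4 | h4
      · unfold om; rw [max_eq_right h4, low n hn α h4, low n hn _ le_rfl]
      · rw [max_eq_left h4]
    rw [h3]
    refine h2.trans (div_le_div_of_nonneg_right (mul_le_mul_of_nonneg_left ?_ hc) hs.le)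
    linarith [le_max_left α (s * P)]

lemma log_le (n0 N m : ℕ) (hm : 0 < m) (hN : m ≤ N) : Real.log m ≤ ∑ n ∈ range n0, Λ n +
    ∑ n ∈ Icc n0 N, if n ∣ m then Λ n else 0 := by
  rw [← ArithmeticFunction.vonMangoldt_sum, ← sum_filter,
    ← sum_filter_add_sum_filter_not m.divisors (fun n => n < n0)]
  refine add_le_add (sum_le_sum_of_subset_of_nonneg (fun n hn => ?_) fun _ _ _ =>
    ArithmeticFunction.vonMangoldt_nonneg) (sum_le_sum_of_subset_of_nonneg (fun n hn => ?_)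
      fun _ _ _ => ArithmeticFunction.vonMangoldt_nonneg)
  · exact mem_range.2 (mem_filter.1 hn).2
  · obtain ⟨h1, h2⟩ := mem_filter.1 hn
    have h3 := Nat.dvd_of_mem_divisors h1
    exact mem_filter.2 ⟨mem_Icc.2 ⟨not_lt.1 h2, (Nat.le_of_dvd hm h3).trans hN⟩, h3⟩

lemma mult (a N n : ℕ) (hn : 0 < n) (f : ℕ → ℝ) (hf : ∀ m, 0 ≤ f m) :
    (∑ m ∈ Ioc a N, if n ∣ m then f m else 0) ≤ ∑ m ∈ Icc 1 N, f (m * n) := by
  rw [← sum_filter, ← sum_image (s := Icc 1 N) (g := fun m => m * n) (f := f)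
    (fun x _ y _ hxy => Nat.eq_of_mul_eq_mul_right hn hxy)]
  refine sum_le_sum_of_subset_of_nonneg (fun m hm => ?_) fun _ _ _ => hf _
  obtain ⟨h1, c, rfl⟩ := mem_filter.1 hm
  obtain ⟨h2, h3⟩ := mem_Ioc.1 h1
  refine mem_image.2 ⟨c, mem_Icc.2 ⟨?_, le_trans (Nat.le_mul_of_pos_left c hn) h3⟩, mul_comm _ _⟩
  rcases Nat.eq_zero_or_pos c with rfl | h4
  · simp at h2
  · exact h4

end Hall

open Hall in
theorem pHall : S_Hall := by
  intro ε hε
  have he0 : 0 < min 1 (ε / 3) := lt_min one_pos (by positivity)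
  have he1 : min 1 (ε / 3) ≤ 1 := min_le_left _ _
  have he2 : min 1 (ε / 3) ≤ ε / 3 := min_le_right _ _
  generalize min 1 (ε / 3) = e at he0 he1 he2
  obtain ⟨n0, r, hn0, hr, hW⟩ := window e he0
  have hK0 : 0 ≤ ∑ n ∈ range n0, Λ n := sum_nonneg fun _ _ => ArithmeticFunction.vonMangoldt_nonneg
  refine ⟨Real.exp ((∑ n ∈ range n0, Λ n) * (1 + e) / e + 1), ?_⟩
  intro G η P α β M1 Mp hη _ hG hGm hP _ hαβ hM
  have hM0 : 0 < M1 := lt_of_lt_of_le (Real.exp_pos _) hM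
  have hl := (Real.le_log_iff_exp_le hM0).2 hM
  have hl1 : (∑ n ∈ range n0, Λ n) * (1 + e) ≤ Real.log M1 * e := by
    rw [← div_le_iff₀ he0]; linarith
  have hl0 : 0 < Real.log M1 := lt_of_lt_of_le (by positivity) hl
  have hf : ∀ m : ℕ, 0 ≤ G m * om P α β m := fun m =>
    mul_nonneg (hG m) (om_nonneg P hαβ (Nat.cast_nonneg m))
  have h1 : (Real.log M1 - ∑ n ∈ range n0, Λ n) * ∑ m ∈ Ioc ⌊M1⌋₊ ⌊Mp⌋₊, G m * om P α β m ≤
      ∑ n ∈ Icc n0 ⌊Mp⌋₊, Λ n * ∑ m ∈ Ioc ⌊M1⌋₊ ⌊Mp⌋₊, if n ∣ m then G m * om P α β m else 0 := by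
    simp_rw [mul_sum]
    rw [sum_comm]
    refine sum_le_sum fun m hm => ?_
    obtain ⟨h2, h3⟩ := mem_Ioc.1 hm
    have h4 := log_le n0 ⌊Mp⌋₊ m (by omega) h3
    have h5 : Real.log M1 ≤ Real.log m := Real.log_le_log hM0 ((Nat.floor_lt hM0.le).1 h2).le
    refine (mul_le_mul_of_nonneg_right (show _ ≤ ∑ n ∈ Icc n0 ⌊Mp⌋₊, if n ∣ m then Λ n else 0 by
      linarith) (hf m)).trans (le_of_eq ?_)
    rw [sum_mul]
    exact sum_congr rfl fun n _ => by split_ifs <;> simp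
  have h2 : (∑ n ∈ Icc n0 ⌊Mp⌋₊, Λ n * ∑ m ∈ Ioc ⌊M1⌋₊ ⌊Mp⌋₊,
      if n ∣ m then G m * om P α β m else 0) ≤
      ∑ n ∈ Icc n0 ⌊Mp⌋₊, ∑ m ∈ Icc 1 ⌊Mp⌋₊, (1 + η) * G m * (Λ n * om P α β (m * n)) := by
    refine sum_le_sum fun n hn => ?_
    have hn1 : 0 < n := lt_of_lt_of_le hn0 (mem_Icc.1 hn).1
    refine (mul_le_mul_of_nonneg_left (mult _ _ n hn1 _ hf)
      ArithmeticFunction.vonMangoldt_nonneg).trans ?_
    rw [mul_sum]
    refine sum_le_sum fun m _ => ?_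
    by_cases hp : IsPrimePow n
    · obtain ⟨p, a, hp1, -, rfl⟩ := (isPrimePow_nat_iff n).1 hp
      have h3 := hGm m p a hp1
      have h4 : 0 ≤ Λ (p ^ a) * om P α β (m * ((p ^ a : ℕ) : ℝ)) :=
        mul_nonneg ArithmeticFunction.vonMangoldt_nonneg (om_nonneg P hαβ (by positivity))
      rw [Nat.cast_mul]
      nlinarith
    · rw [ArithmeticFunction.vonMangoldt_eq_zero_iff.2 hp]; simp
  have h3 : ∑ n ∈ Icc n0 ⌊Mp⌋₊, ∑ m ∈ Icc 1 ⌊Mp⌋₊, (1 + η) * G m * (Λ n * om P α β (m * n)) ≤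
      (1 + η) * (1 + e) * (β - α) * ∑ m ∈ Icc 1 ⌊Mp⌋₊, G m / m := by
    rw [sum_comm, mul_sum]
    refine sum_le_sum fun m hm => ?_
    have hm1 : (0 : ℝ) < m := by exact_mod_cast (mem_Icc.1 hm).1
    rw [← mul_sum]
    refine (mul_le_mul_of_nonneg_left (long hn0 hr (by linarith) (hW _) hP hm1 hαβ)
      (mul_nonneg (by linarith) (hG m))).trans (le_of_eq ?_)
    ring
  have hS : 0 ≤ ∑ m ∈ Ioc ⌊M1⌋₊ ⌊Mp⌋₊, G m * om P α β m := sum_nonneg fun m _ => hf m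
  have hT : 0 ≤ (1 + η) * (β - α) * ∑ m ∈ Icc 1 ⌊Mp⌋₊, G m / m :=
    mul_nonneg (mul_nonneg (by linarith) (by linarith))
      (sum_nonneg fun m _ => div_nonneg (hG m) (Nat.cast_nonneg m))
  have h4 := h1.trans (h2.trans h3)
  rw [div_mul_eq_mul_div, le_div_iff₀ hl0]
  generalize ∑ m ∈ Ioc ⌊M1⌋₊ ⌊Mp⌋₊, G m * om P α β m = S at h4 hS ⊢
  generalize ∑ m ∈ Icc 1 ⌊Mp⌋₊, G m / m = T at h4 hT ⊢
  generalize ∑ n ∈ range n0, Λ n = K at h4 hl1
  have h5 : S * Real.log M1 ≤ (1 + e) * ((Real.log M1 - K) * S) := by nlinarith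
  have h6 := mul_le_mul_of_nonneg_left h4 (show 0 ≤ 1 + e by linarith)
  have h7 : (1 + e) * (1 + e) ≤ 1 + ε := by nlinarith
  have h8 := mul_le_mul_of_nonneg_right h7 hT
  nlinarith

end Pool.Agent.P.MP_26a8c3_nt.EC
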