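import Pool.Agent.P.MP_26a8c3_nt.EC.Base

/-! The height of the single popular point is small. -/

namespace Pool.Agent.P.MP_26a8c3_nt.EC

open Finset
open scoped Classical

namespace Ht

lemma fib_le {α β : Type} [DecidableEq β] (T : Finset α) (W : Finset β) (f : α → β) (hf : ∀ a ∈ T, f a ∈ W)
    {K : ℝ} (h : ∀ p ∈ W, ((T.filter fun a => f a = p).card : ℝ) ≤ K) :
    (T.card : ℝ) ≤ W.card * K := by
  rw [card_eq_sum_card_fiberwise (f := f) (t := W) (fun a ha => mem_coe.2 (hf a ha)), Nat.cast_sum,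
    ← nsmul_eq_mul]
  exact sum_le_card_nsmul _ _ _ h

lemma spread {α : Type} (S : Finset α) (g : α → ℤ) (hg : ∀ s ∈ S, ∀ s' ∈ S, g s = g s' → s = s')
    {v : ℤ} (hv : 1 ≤ v) {l : ℝ} (hl : 0 ≤ l) (h1 : ∀ s ∈ S, ∀ s' ∈ S, v ∣ g s - g s')
    (h2 : ∀ s ∈ S, ∀ s' ∈ S, (g s : ℝ) - g s' ≤ l) : (S.card : ℝ) ≤ l / v + 1 := by
  have hv' : (0 : ℝ) < v := by exact_mod_cast (by omega : (0 : ℤ) < v)
  have h0 : 0 ≤ l / v := by positivity
  rcases S.eq_empty_or_nonempty with rfl | hS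
  · simp only [card_empty, Nat.cast_zero]
    linarith
  obtain ⟨m, hm, hmin⟩ := exists_min_image S g hS
  have key : ∀ s ∈ S, g s - g m = v * (((g s - g m) / v).toNat : ℤ) := fun s hs => by
    rw [Int.toNat_of_nonneg (Int.ediv_nonneg (sub_nonneg.2 (hmin s hs)) (by omega)),
      Int.mul_ediv_cancel' (h1 s hs m hm)]
  have hc : S.card ≤ (range (⌊l / v⌋₊ + 1)).card := by
    refine card_le_card_of_injOn (fun s => ((g s - g m) / v).toNat) (fun s hs => ?_)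
      (fun s hs s' hs' e => ?_)
    · rw [mem_coe] at hs
      rw [mem_coe, mem_range, Nat.lt_succ_iff, Nat.le_floor_iff h0, le_div_iff₀ hv']
      have e : ((g s : ℝ) - g m) = v * ((((g s - g m) / v).toNat : ℕ) : ℝ) := by
        exact_mod_cast key s hs
      have := h2 s hs m hm
      rw [e] at this
      linarith
    · rw [mem_coe] at hs hs'
      have e1 := key s hs
      have e2 := key s' hs'
      simp only at e
      rw [e] at e1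
      exact hg s hs s' hs' (by linarith)
  rw [card_range] at hc
  have hc' : (S.card : ℝ) ≤ ⌊l / v⌋₊ + 1 := by exact_mod_cast hc
  linarith [Nat.floor_le h0]

lemma fiber_bound {G : Finset (ℕ × ℕ)} {code : ℕ × ℕ → ℕ × ℕ} (r : ℕ × ℕ → ℕ × ℕ → Prop)
    (hr : ∀ a b, r a b → r b a) {D X : ℝ} (hD : 0 ≤ D) (n : ℕ)
    (h1 : ∀ a ∈ G, ((G.filter (r a)).card : ℝ) ≤ D)
    (h2 : ∀ S ⊆ G, (∀ a ∈ S, ∀ b ∈ S, code a = code b) → S.card = n →
      ∃ a ∈ S, ∃ b ∈ S, a ≠ b ∧ r a b)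
    (h3 : ((G.image code).card : ℝ) ≤ X) : (G.card : ℝ) ≤ X * ((D + 1) * n) := by
  refine (fib_le G (G.image code) code (fun a ha => mem_image_of_mem _ ha)
    (K := (D + 1) * n) fun c _ => ?_).trans (mul_le_mul_of_nonneg_right h3 (by positivity))
  by_contra hc
  obtain ⟨S, hS, hn, hp⟩ := greedy r hr hD n (G.filter fun a => code a = c) (fun a ha => le_trans
    (Nat.cast_le.2 (card_le_card (filter_subset_filter _ (filter_subset _ _))))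
    (h1 a (mem_filter.1 ha).1)) (not_le.1 hc).le
  obtain ⟨a, ha, b, hb, hab, h⟩ := h2 S (hS.trans (filter_subset _ _))
    (fun a ha b hb => (mem_filter.1 (hS ha)).2.trans (mem_filter.1 (hS hb)).2.symm) hn
  exact hp a ha b hb hab h

lemma final_num {n1 n2 X P E M w : ℝ} (hw : 1 ≤ w) (hM0 : 0 ≤ M) (hX : 1 ≤ X)
    (hM : 1000 * (M * w) ≤ X) (hP : X ^ 2 ≤ P) (h2 : P ≤ n2 * w) (hE : X ^ 2 ≤ E)
    (h1 : E ≤ 6 * (n1 * w)) (hn1 : 1 ≤ n1) (hn2 : 1 ≤ n2) :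
    X * ((n1 + n2 + (n1 * (P / X ^ 2 + 1) + n2 * (8 * E / X ^ 2 + 1)) + 1) * M) < n1 * n2 / 4 := by
  have hX0 : 0 < X := by linarith
  have hw0 : 0 < w := by linarith
  have b0 : 1000 * (X * M) * w ≤ X ^ 2 := by nlinarith [mul_le_mul_of_nonneg_left hM hX0.le]
  have a1 : 1000 * (X * M) ≤ n2 := le_of_mul_le_mul_right (by linarith) hw0
  have a2 : 1000 * (X * M) ≤ 6 * n1 := le_of_mul_le_mul_right (by linarith) hw0
  have a3 : 1000 * (X * M * (P / X ^ 2)) ≤ n2 := by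
    have e : 1000 * (X * M * (P / X ^ 2)) = 1000 * M * P / X := by field_simp
    rw [e, div_le_iff₀ hX0]
    nlinarith [mul_le_mul_of_nonneg_left h2 hM0, mul_le_mul_of_nonneg_left hM (by linarith : 0 ≤ n2)]
  have a4 : 1000 * (X * M * (E / X ^ 2)) ≤ 6 * n1 := by
    have e : 1000 * (X * M * (E / X ^ 2)) = 1000 * M * E / X := by field_simp
    rw [e, div_le_iff₀ hX0]
    nlinarith [mul_le_mul_of_nonneg_left h1 hM0, mul_le_mul_of_nonneg_left hM (by linarith : 0 ≤ n1)]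
  have e : X * ((n1 + n2 + (n1 * (P / X ^ 2 + 1) + n2 * (8 * E / X ^ 2 + 1)) + 1) * M) =
      2 * (n1 * (X * M)) + 2 * (n2 * (X * M)) + n1 * (X * M * (P / X ^ 2)) +
        8 * (n2 * (X * M * (E / X ^ 2))) + X * M := by ring
  rw [e]
  have c1 := mul_le_mul_of_nonneg_left a1 (by linarith : 0 ≤ n1)
  have c2 := mul_le_mul_of_nonneg_left a2 (by linarith : 0 ≤ n2)
  have c3 := mul_le_mul_of_nonneg_left a3 (by linarith : 0 ≤ n1)
  have c4 := mul_le_mul_of_nonneg_left a4 (by linarith : 0 ≤ n2)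
  have c5 : n2 ≤ n1 * n2 := by nlinarith
  nlinarith

lemma large (B C Λ1 : ℝ) : ∃ Λ0 : ℝ, ∀ Λ : ℝ, Λ0 ≤ Λ → Λ1 ≤ Λ ∧ 1 ≤ Λ ∧ 2 * C ≤ Λ ^ (3 / 5 : ℝ) ∧
    10000 * (Λ ^ B * Λ ^ 9) ≤ Xi Λ ∧ Xi Λ ^ 2 ≤ Real.exp (Λ ^ (3 / 5 : ℝ) - 2) := by
  have t1 := (tendsto_rpow_atTop (by norm_num : (0 : ℝ) < 3 / 5)).eventually_ge_atTop (2 * C)
  have t2 := (tendsto_rpow_atTop (by norm_num : (0 : ℝ) < 2 / 25)).eventually_ge_atTop 4
  have t3 := ((tendsto_exp_div_rpow_atTop ((B + 9) * (25 / 13))).comp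
    (tendsto_rpow_atTop (by norm_num : (0 : ℝ) < 13 / 25))).eventually_ge_atTop 10000
  obtain ⟨Λ0, h⟩ := Filter.eventually_atTop.1
    ((Filter.eventually_ge_atTop Λ1).and ((Filter.eventually_ge_atTop 1).and (t1.and (t2.and t3))))
  refine ⟨Λ0, fun Λ hΛ => ?_⟩
  obtain ⟨a0, a1, a2, a3, a4⟩ := h Λ hΛ
  have h0 : 0 < Λ := by linarith
  refine ⟨a0, a1, a2, ?_, ?_⟩
  · simp only [Function.comp] at a4
    rw [← Real.rpow_mul h0.le, le_div_iff₀ (Real.rpow_pos_of_pos h0 _)] at a4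
    have e : (13 / 25 * ((B + 9) * (25 / 13)) : ℝ) = B + (9 : ℕ) := by push_cast; ring
    rw [e, Real.rpow_add h0, Real.rpow_natCast] at a4
    exact a4
  · rw [Xi, ← Real.exp_nat_mul, Real.exp_le_exp]
    have e : Λ ^ (3 / 5 : ℝ) = Λ ^ (13 / 25 : ℝ) * Λ ^ (2 / 25 : ℝ) := by
      rw [← Real.rpow_add h0]
      norm_num
    have b : 1 ≤ Λ ^ (13 / 25 : ℝ) := Real.one_le_rpow a1 (by norm_num)
    rw [e]
    push_cast
    nlinarith

/-- The relation between two pairs of primes. -/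
def rel (x : ℤ × ℤ) (b b' : ℕ × ℕ) : Prop :=
  b.1 = b'.1 ∨ b.2 = b'.2 ∨ (x.2 ∣ ((b'.1 * b'.2 : ℕ) : ℤ) - ((b.1 * b.2 : ℕ) : ℤ) ∧
    |x.1| * |((b'.1 * b'.2 : ℕ) : ℤ) - ((b.1 * b.2 : ℕ) : ℤ)| ≤
      x.2 * (((b.1 * b.2 : ℕ) : ℤ) * ((b'.1 * b'.2 : ℕ) : ℤ)))

lemma rel_symm (x : ℤ × ℤ) (a b : ℕ × ℕ) (h : rel x a b) : rel x b a := by
  rcases h with h | h | ⟨h1, h2⟩
  · exact Or.inl h.symm
  · exact Or.inr (Or.inl h.symm)
  · refine Or.inr (Or.inr ⟨dvd_sub_comm.1 h1, ?_⟩)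
    rw [abs_sub_comm, mul_comm ((b.1 * b.2 : ℕ) : ℤ)]
    exact h2

/-- The third kind of relatives. -/
noncomputable def TT (x : ℤ × ℤ) (G : Finset (ℕ × ℕ)) (b : ℕ × ℕ) : Finset (ℕ × ℕ) :=
  G.filter fun b' => b.1 ≠ b'.1 ∧ x.2 ∣ ((b'.1 * b'.2 : ℕ) : ℤ) - ((b.1 * b.2 : ℕ) : ℤ) ∧
    |x.1| * |((b'.1 * b'.2 : ℕ) : ℤ) - ((b.1 * b.2 : ℕ) : ℤ)| ≤
      x.2 * (((b.1 * b.2 : ℕ) : ℤ) * ((b'.1 * b'.2 : ℕ) : ℤ))

lemma card_rel (x : ℤ × ℤ) {G : Finset (ℕ × ℕ)} {W1 W2 : Finset ℕ} (hG : G ⊆ W1 ×ˢ W2)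
    (b : ℕ × ℕ) : ((G.filter (rel x b)).card : ℝ) ≤ W1.card + W2.card + (TT x G b).card := by
  have s : G.filter (rel x b) ⊆ (W1 ×ˢ {b.2} ∪ {b.1} ×ˢ W2) ∪ TT x G b := fun c hc => by
    obtain ⟨h1, h2⟩ := mem_filter.1 hc
    have h3 := mem_product.1 (hG h1)
    by_cases e : b.1 = c.1
    · exact mem_union_left _ (mem_union_right _ (mem_product.2 ⟨mem_singleton.2 e.symm, h3.2⟩))
    rcases h2 with h2 | h2 | h2
    · exact absurd h2 e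
    · exact mem_union_left _ (mem_union_left _ (mem_product.2 ⟨h3.1, mem_singleton.2 h2.symm⟩))
    · exact mem_union_right _ (mem_filter.2 ⟨h1, e, h2⟩)
  have c1 := card_le_card s
  have c2 := card_union_le (W1 ×ˢ {b.2} ∪ {b.1} ×ˢ W2) (TT x G b)
  have c3 := card_union_le (W1 ×ˢ ({b.2} : Finset ℕ)) (({b.1} : Finset ℕ) ×ˢ W2)
  rw [card_product, card_product, card_singleton, card_singleton] at c3
  exact_mod_cast (by omega)

lemma caseV {x : ℤ × ℤ} {G : Finset (ℕ × ℕ)} {t : ℕ} {W2 : Finset ℕ} {P Y : ℝ}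
    (hG : G ⊆ PR t t ×ˢ W2) (hP : 0 ≤ P) (hY : 0 < Y) (hv : 1 ≤ x.2) (hYv : Y ≤ x.2)
    (hW : ∀ p ∈ W2, p.Prime ∧ P ≤ (p : ℝ) ∧ (p : ℝ) ≤ 2 * P ∧ tau p < t) {b : ℕ × ℕ}
    (hb : b ∈ G) : ((TT x G b).card : ℝ) ≤ (PR t t).card * (P / Y + 1) := by
  refine fib_le _ _ Prod.fst (fun a ha => (mem_product.1 (hG (mem_filter.1 ha).1)).1)
    fun p hp => ?_
  refine (spread _ (fun c : ℕ × ℕ => (c.2 : ℤ)) (fun s hs s' hs' e => ?_) hv hP
    (fun s hs s' hs' => ?_) (fun s hs s' hs' => ?_)).trans ?_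
  · exact Prod.ext ((mem_filter.1 hs).2.trans (mem_filter.1 hs').2.symm) (by exact_mod_cast e)
  · obtain ⟨a1, a2⟩ := mem_filter.1 hs
    obtain ⟨a3, a4⟩ := mem_filter.1 hs'
    obtain ⟨-, a5, a6, -⟩ := mem_filter.1 a1
    obtain ⟨-, -, a7, -⟩ := mem_filter.1 a3
    rw [a2] at a5 a6
    rw [a4] at a7
    obtain ⟨p1, p2, -⟩ := mem_PR.1 hp
    obtain ⟨q1, q2⟩ := mem_product.1 (hG hb)
    have hc : IsCoprime x.2 (p : ℤ) := by
      refine ((Nat.prime_iff_prime_int.1 p1).coprime_iff_not_dvd.2 fun hd => ?_).symm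
      have d1 := hd.trans a6
      rw [Nat.cast_mul, dvd_sub_right (dvd_mul_right _ _), Int.natCast_dvd_natCast] at d1
      rcases (Nat.Prime.dvd_mul p1).1 d1 with d2 | d2
      · exact a5 ((Nat.prime_dvd_prime_iff_eq p1 (mem_PR.1 q1).1).1 d2).symm
      · have e1 := (Nat.prime_dvd_prime_iff_eq p1 (hW _ q2).1).1 d2
        have e2 := (hW _ q2).2.2.2
        rw [← e1] at e2
        omega
    refine hc.dvd_of_dvd_mul_left ?_
    have := dvd_sub a6 a7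
    convert this using 1
    push_cast
    ring
  · have a1 := hW _ (mem_product.1 (hG (mem_filter.1 (mem_filter.1 hs).1).1)).2
    have a2 := hW _ (mem_product.1 (hG (mem_filter.1 (mem_filter.1 hs').1).1)).2
    push_cast
    linarith [a1.2.2.1, a2.2.1]
  · have := div_le_div_of_nonneg_left hP hY hYv
    linarith

lemma caseA {x : ℤ × ℤ} {G : Finset (ℕ × ℕ)} {t : ℕ} {W2 : Finset ℕ} {P Y : ℝ}
    (hG : G ⊆ PR t t ×ˢ W2) (hP : 0 < P) (hY : 0 < Y) (hv : 1 ≤ x.2)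
    (ha : x.2 * (Real.exp t * P) * Y ≤ |(x.1 : ℝ)|)
    (hW : ∀ p ∈ W2, p.Prime ∧ P ≤ (p : ℝ) ∧ (p : ℝ) ≤ 2 * P ∧ tau p < t) {b : ℕ × ℕ}
    (hb : b ∈ G) : ((TT x G b).card : ℝ) ≤ W2.card * (8 * Real.exp t / Y + 1) := by
  have hE := Real.exp_pos t
  have hv' : (0 : ℝ) < x.2 := by exact_mod_cast (by omega : (0 : ℤ) < x.2)
  have hd : ∀ c ∈ G, ((c.1 * c.2 : ℕ) : ℝ) ≤ Real.exp t * (2 * P) := fun c hc => by
    obtain ⟨q1, q2⟩ := mem_product.1 (hG hc)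
    have := (le_exp_tau c.1).trans (Real.exp_le_exp.2 (Nat.cast_le.2 (mem_PR.1 q1).2.2))
    rw [Nat.cast_mul]
    exact mul_le_mul this (hW _ q2).2.2.1 (Nat.cast_nonneg _) hE.le
  have key : ∀ c ∈ TT x G b, |((c.1 * c.2 : ℕ) : ℝ) - ((b.1 * b.2 : ℕ) : ℝ)| ≤
      4 * Real.exp t / Y * P := fun c hc => by
    obtain ⟨a1, -, -, a2⟩ := mem_filter.1 hc
    have a3 : |(x.1 : ℝ)| * |((c.1 * c.2 : ℕ) : ℝ) - ((b.1 * b.2 : ℕ) : ℝ)| ≤
        x.2 * (((b.1 * b.2 : ℕ) : ℝ) * ((c.1 * c.2 : ℕ) : ℝ)) := by exact_mod_cast a2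
    have a4 := mul_le_mul (hd b hb) (hd c a1) (Nat.cast_nonneg _) (by positivity)
    have a5 := ((mul_le_mul_of_nonneg_right ha (abs_nonneg _)).trans a3).trans
      (mul_le_mul_of_nonneg_left a4 hv'.le)
    have a6 : 0 < x.2 * (Real.exp t * P) * Y := by positivity
    refine le_of_mul_le_mul_left (a5.trans (le_of_eq ?_)) a6
    field_simp
    ring
  refine fib_le _ _ Prod.snd (fun a ha => (mem_product.1 (hG (mem_filter.1 ha).1)).2)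
    fun p hp => ?_
  refine (spread _ (fun c : ℕ × ℕ => (c.1 : ℤ)) (fun s hs s' hs' e => ?_) le_rfl
    (l := 8 * Real.exp t / Y) (by positivity)
    (fun s hs s' hs' => one_dvd _) (fun s hs s' hs' => ?_)).trans (by simp)
  · exact Prod.ext (by exact_mod_cast e) ((mem_filter.1 hs).2.trans (mem_filter.1 hs').2.symm)
  · obtain ⟨a1, a2⟩ := mem_filter.1 hs
    obtain ⟨a3, a4⟩ := mem_filter.1 hs'
    have k1 := (abs_le.1 (key s a1)).2
    have k2 := (abs_le.1 (key s' a3)).1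
    rw [a2] at k1
    rw [a4] at k2
    have hp1 := (hW p hp).2.1
    have hp0 : (0 : ℝ) < p := by linarith
    have h4 : 0 ≤ 4 * Real.exp t / Y := by positivity
    have h5 := mul_le_mul_of_nonneg_left hp1 h4
    have e : 8 * Real.exp t / Y = 2 * (4 * Real.exp t / Y) := by ring
    push_cast at k1 k2 ⊢
    rw [e]
    refine le_of_mul_le_mul_right ?_ hp0
    nlinarith

end Ht

theorem pHt (hPi : S_Pi) (hPair : S_Pair) : S_Ht := by
  intro B th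
  by_cases hth : 0 < th
  swap
  · exact ⟨0, fun _ _ _ _ _ _ _ _ _ _ _ h => absurd h.th0 hth⟩
  obtain ⟨Λ1, hpair⟩ := hPair th hth
  obtain ⟨C, -, -, -, -, hC⟩ := pi_facts hPi
  obtain ⟨Λ0, hl⟩ := Ht.large B C Λ1
  refine ⟨Λ0, fun u t1 A Λ L P2 W2 G code x hΛ cx hG hGc hX hM hx hone => ?_⟩
  obtain ⟨l0, l1, l2, l3, l4⟩ := hl Λ hΛ
  have h0 : 0 < Λ := by linarith
  have hv : 1 ≤ x.2 := hx.2.1
  have hw : Λ ≤ Λ ^ 9 := le_self_pow₀ l1 (by norm_num)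
  have hQ : 1 ≤ Λ ^ B := cx.L0.trans cx.L2
  have hw1 : 1 ≤ Λ ^ 9 := l1.trans hw
  have hXw : 10000 * Λ ^ 9 ≤ Xi Λ := by nlinarith
  have hX1 : 1 ≤ Xi Λ := by linarith
  have hY : 0 < Xi Λ ^ 2 := by positivity
  have hXX : Xi Λ ≤ Xi Λ ^ 2 := le_self_pow₀ hX1 (by norm_num)
  have hP : Xi Λ ^ 2 ≤ P2 := l4.trans cx.P2a
  have hP0 : 0 < P2 := by linarith
  have hE : Xi Λ ^ 2 ≤ Real.exp t1 := l4.trans (Real.exp_le_exp.2 (by linarith [cx.t1a]))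
  have hW : ∀ p ∈ W2, p.Prime ∧ P2 ≤ (p : ℝ) ∧ (p : ℝ) ≤ 2 * P2 ∧ tau p < t1 := fun p hp => by
    obtain ⟨a1, a2, a3, a4⟩ := cx.W2a p hp
    have : (Λ ^ 3)⁻¹ ≤ 1 := inv_le_one_of_one_le₀ (one_le_pow₀ l1)
    exact ⟨a1, a2, by nlinarith, a4⟩
  have h2 : P2 ≤ W2.card * Λ ^ 9 := by
    have := cx.W2b
    rwa [← div_eq_mul_inv, div_le_iff₀ (by positivity)] at this
  have ht0 : (0 : ℝ) < t1 := lt_of_lt_of_le (Real.rpow_pos_of_pos h0 _) cx.t1a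
  have h1 : Real.exp t1 ≤ 6 * ((PR t1 t1).card * Λ ^ 9) := by
    have a1 := (hC t1 (l2.trans cx.t1a)).2
    rw [div_le_iff₀ (by positivity), Real.exp_sub, div_le_iff₀ (Real.exp_pos 1)] at a1
    have a2 : Real.exp 1 ≤ 3 := by linarith [Real.exp_one_lt_d9]
    have a3 : ((PR t1 t1).card : ℝ) * t1 ≤ (PR t1 t1).card * Λ ^ 9 :=
      mul_le_mul_of_nonneg_left (cx.t1b.trans hw) (Nat.cast_nonneg _)
    have a4 : (0 : ℝ) ≤ (PR t1 t1).card * (2 * t1) := by positivity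
    nlinarith [mul_le_mul_of_nonneg_left a2 a4]
  have hn1 : (1 : ℝ) ≤ (PR t1 t1).card := le_of_mul_le_mul_right (by linarith) (by linarith : 0 < Λ ^ 9)
  have hn2 : (1 : ℝ) ≤ W2.card := le_of_mul_le_mul_right (by linarith) (by linarith : 0 < Λ ^ 9)
  have hL6 : L ^ (6 * th) ≤ Λ ^ B := by
    refine le_trans ?_ cx.L2
    conv_rhs => rw [← Real.rpow_one L]
    exact Real.rpow_le_rpow_of_exponent_le cx.L0 (by linarith [cx.th1])
  have hL0 : 0 ≤ 8 * L ^ (6 * th) := by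
    have := Real.rpow_nonneg (by linarith [cx.L0] : 0 ≤ L) (6 * th)
    linarith
  have hM9 : (⌈8 * L ^ (6 * th)⌉₊ : ℝ) ≤ 9 * Λ ^ B := by linarith [Nat.ceil_lt_add_one hL0]
  have hMw : 1000 * ((⌈8 * L ^ (6 * th)⌉₊ : ℝ) * Λ ^ 9) ≤ Xi Λ := by
    have := mul_le_mul_of_nonneg_right hM9 (by linarith : 0 ≤ Λ ^ 9)
    have : 0 ≤ Λ ^ B * Λ ^ 9 := by positivity
    nlinarith
  have fin := Ht.final_num hw1 (Nat.cast_nonneg _) hX1 hMw hP h2 hE h1 hn1 hn2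
  by_contra hcon
  refine absurd (hGc.trans (Ht.fiber_bound (Ht.rel x) (Ht.rel_symm x) (by positivity) _
    (fun b hb => (Ht.card_rel x hG b).trans ?_) (fun S hS hc hn => ?_) hX)) (not_le.2 fin)
  · have n1 : (0 : ℝ) ≤ (PR t1 t1).card * (P2 / Xi Λ ^ 2 + 1) := by positivity
    have n2 : (0 : ℝ) ≤ W2.card * (8 * Real.exp t1 / Xi Λ ^ 2 + 1) := by positivity
    rcases not_and_or.1 hcon with h | h
    · linarith [Ht.caseV hG hP0.le hY hv (not_le.1 h).le hW hb]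
    · linarith [Ht.caseA hG hP0 hY hv (not_le.1 h).le hW hb]
  · obtain ⟨a, ha, b, hb, hab, h⟩ := hM S hS hc (by rw [hn]; exact Nat.le_ceil _)
    refine ⟨a, ha, b, hb, hab, ?_⟩
    by_cases e1 : a.1 = b.1
    · exact Or.inl e1
    by_cases e2 : a.2 = b.2
    · exact Or.inr (Or.inl e2)
    obtain ⟨a1, a2⟩ := mem_product.1 (hG (hS ha))
    obtain ⟨b1, b2⟩ := mem_product.1 (hG (hS hb))
    have pa := mem_PR.1 a1
    have pb := mem_PR.1 b1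
    have qa := hW _ a2
    have qb := hW _ b2
    have sz : ∀ p q : ℕ, tau p ≤ t1 → tau q < t1 → ((p * q : ℕ) : ℝ) ≤ Real.exp (2 * Λ) :=
      fun p q hp hq => by
        have c1 := (le_exp_tau p).trans (Real.exp_le_exp.2 ((Nat.cast_le.2 hp).trans cx.t1b))
        have c2 := (le_exp_tau q).trans (Real.exp_le_exp.2 ((Nat.cast_le.2 hq.le).trans cx.t1b))
        rw [Nat.cast_mul, two_mul, Real.exp_add]
        exact mul_le_mul c1 c2 (Nat.cast_nonneg _) (Real.exp_pos _).le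
    have cop : Nat.Coprime (a.1 * a.2) (b.1 * b.2) := by
      refine Nat.Coprime.mul_left (Nat.Coprime.mul_right ?_ ?_) (Nat.Coprime.mul_right ?_ ?_)
      · exact (Nat.coprime_primes pa.1 pb.1).2 e1
      · exact (Nat.coprime_primes pa.1 qb.1).2 (lt_of_tau_lt (qb.2.2.2.trans_le pa.2.1)).ne'
      · exact (Nat.coprime_primes qa.1 pb.1).2 (lt_of_tau_lt (qa.2.2.2.trans_le pb.2.1)).ne
      · exact (Nat.coprime_primes qa.1 qb.1).2 e2
    have ne : a.1 * a.2 ≠ b.1 * b.2 := fun e => by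
      rw [← e, Nat.coprime_self] at cop
      exact pa.1.ne_one (Nat.eq_one_of_mul_eq_one_right cop)
    obtain ⟨x', y1, y2, y3, y4⟩ := hpair u A (a.1 * a.2) (b.1 * b.2) Λ L l0 cx.L0 cx.L1
      (Nat.mul_pos pa.1.pos qa.1.pos) (Nat.mul_pos pb.1.pos qb.1.pos) ne cop
      (sz _ _ pa.2.2 qa.2.2.2) (sz _ _ pb.2.2 qb.2.2.2) h
    have e := hone a (hS ha) x' y1 (dvd_trans (Int.natCast_dvd_natCast.2
      ((dvd_mul_right _ _).trans (dvd_mul_right _ _))) y4)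
    rw [e] at y2 y3
    exact Or.inr (Or.inr ⟨y2, y3⟩)

end Pool.Agent.P.MP_26a8c3_nt.EC
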