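import Pool.Agent.P.MP_26a8c3_nt.EC.Base

/-! The combinatorial identity of the sieve tree. -/

namespace Pool.Agent.P.MP_26a8c3_nt.EC

open Finset
open scoped Classical

namespace Id

lemma red {P U : Finset ℕ} (h : U ⊆ P) (f g : Finset ℕ → Prop) [DecidablePred f]
    [∀ d, Decidable (d ⊆ U ∧ g d)] :
    ∑ d ∈ P.powerset.filter f, (-1) ^ d.card * (if d ⊆ U ∧ g d then (1 : ℝ) else 0) =
      ∑ d ∈ U.powerset, (-1) ^ d.card * (if f d ∧ g d then (1 : ℝ) else 0) := by
  rw [sum_filter, ← sum_subset (powerset_mono.2 h) fun d _ e => by simp [mem_powerset.not.1 e]]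
  refine sum_congr rfl fun d hd => ?_
  by_cases e : f d <;> simp [e, mem_powerset.1 hd]

lemma free_insert {c : Finset ℕ → Prop} {d : Finset ℕ} {a : ℕ} (h : ∀ x ∈ d, a < x) :
    free c (insert a d) ↔ ¬ c (insert a d) ∧ free c d := by
  have e : up (insert a d) a = insert a d :=
    filter_true_of_mem ((forall_mem_insert ..).2 ⟨le_rfl, fun q hq => (h q hq).le⟩)
  rw [free, forall_mem_insert, e]
  exact and_congr_right fun _ => forall₂_congr fun q hq => by rw [up_insert (h q hq)]

end Id

theorem pId : S_Id := by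
  intro P U c h
  have h1 := Id.red h (free c) fun _ => True
  simp only [and_true] at h1
  rw [h1, Id.red h (first c) fun d => ∀ q ∈ U, mn d ≤ q]
  induction U using Finset.induction_on_min with
  | empty => simp [free, first]
  | insert a U ha _ =>
    have hn : a ∉ U := fun e => lt_irrefl _ (ha a e)
    rw [if_neg (insert_ne_empty _ _), sum_powerset_insert hn, sum_powerset_insert hn,
      ← sum_add_distrib, ← sum_add_distrib, ← sum_add_distrib]
    refine (sum_eq_zero fun d hd => ?_).symm
    have hd' := mem_powerset.1 hd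
    have h2 : ∀ x ∈ d, a < x := fun x e => ha x (hd' e)
    have h3 : a ∉ d := fun e => hn (hd' e)
    have h4 : mn (insert a d) = a := mn_eq (mem_insert_self _ _)
      ((forall_mem_insert ..).2 ⟨le_rfl, fun q hq => (h2 q hq).le⟩)
    have h5 : ¬ (first c d ∧ ∀ q ∈ insert a U, mn d ≤ q) := fun e =>
      (h2 _ (mn_mem e.1.1)).not_ge (e.2 a (mem_insert_self _ _))
    have h6 : (first c (insert a d) ∧ ∀ q ∈ insert a U, mn (insert a d) ≤ q) ↔
        c (insert a d) ∧ free c d := by
      rw [first, h4, erase_insert h3, and_iff_right (insert_nonempty _ _), and_iff_left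
        ((forall_mem_insert ..).2 ⟨le_rfl, fun q hq => (ha q hq).le⟩)]
    simp only [if_neg h5, h6, Id.free_insert h2, card_insert_of_notMem h3, pow_succ]
    by_cases e : free c d <;> by_cases e' : c (insert a d) <;> simp [e, e']

end Pool.Agent.P.MP_26a8c3_nt.EC
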