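import Pool.Agent.P.MP_26a8c3_nt.EC.Base

/-! The good stopping nodes are invariant under moving the primes inside their windows. -/

namespace Pool.Agent.P.MP_26a8c3_nt.EC

open Finset
open scoped Classical

namespace Inv

variable {φ : ℕ → ℕ} {s : Finset ℕ}

lemma ts_image (hm : StrictMonoOn φ s) (ht : ∀ p ∈ s, tau (φ p) = tau p) {d : Finset ℕ}
    (hd : d ⊆ s) : ts (d.image φ) = ts d := by
  rw [ts, sum_image (hm.injOn.mono (coe_subset.2 hd))]
  exact sum_congr rfl fun p hp => ht p (hd hp)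

lemma up_image (hm : StrictMonoOn φ s) {q : ℕ} (hq : q ∈ s) :
    up (s.image φ) (φ q) = (up s q).image φ := by
  ext r
  simp only [mem_up, mem_image]
  constructor
  · rintro ⟨⟨p, hp, rfl⟩, h⟩
    exact ⟨p, ⟨hp, (hm.le_iff_le hq hp).1 h⟩, rfl⟩
  · rintro ⟨p, ⟨hp, h⟩, rfl⟩
    exact ⟨⟨p, hp, rfl⟩, (hm.le_iff_le hq hp).2 h⟩

lemma tree_image (hm : StrictMonoOn φ s) (ht : ∀ p ∈ s, tau (φ p) = tau p) {Δ : ℕ}
    (h : tree Δ s) : tree Δ (s.image φ) := by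
  intro r hr
  obtain ⟨q, hq, rfl⟩ := mem_image.1 hr
  rw [up_image hm hq, card_image_of_injOn (hm.injOn.mono (coe_subset.2 (up_subset s q))),
    ts_image hm ht (up_subset s q), ht q hq]
  exact h q hq

lemma tau_top_image (hm : StrictMonoOn φ s) (ht : ∀ p ∈ s, tau (φ p) = tau p) {d : Finset ℕ}
    (hd : d ⊆ s) : tau (top (d.image φ)) = tau (top d) := by
  rcases d.eq_empty_or_nonempty with rfl | hne
  · rw [image_empty]
  · rw [top_eq (mem_image_of_mem φ (top_mem hne)), ht _ (hd (top_mem hne))]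
    intro r hr
    obtain ⟨q, hq, rfl⟩ := mem_image.1 hr
    exact hm.monotoneOn (hd hq) (hd (top_mem hne)) (le_top' hq)

end Inv

open EC.Inv

theorem pInv : S_Inv := by
  intro Λ u Z Δ μ hΛ s hs p1 hp1 ρ hρ
  have hF := one_le_FF hΛ
  set F := FF Λ with hFdef
  obtain ⟨hs0, ⟨ga1, ga2, ga3, ga4⟩, hgb⟩ := mem_filter.1 hs
  obtain ⟨hsP, htree, hev, h43, h37, h28, p0, hp0, h30⟩ := mem_filter.1 hs0
  rw [mem_powerset] at hsP
  obtain ⟨hρ1, hρ2⟩ := mem_filter.1 hρ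
  rw [mem_powerset] at hρ1
  obtain ⟨p1p, p1a, p1b⟩ := mem_PR.1 hp1
  have tp1 : tau p1 = tau (top s) := le_antisymm p1b p1a
  have hne : s.Nonempty := ⟨p0, hp0⟩
  have hRs : rest s ⊆ s := erase_subset _ _
  have a1 : ∀ q ∈ ρ, q.Prime ∧ ∃ p ∈ rest s, fi F p = fi F q := by
    intro q hq
    obtain ⟨j, hj, hqj⟩ := mem_biUnion.1 (hρ1 hq)
    obtain ⟨p, hp, rfl⟩ := mem_image.1 hj
    exact ⟨((mem_fw hF).1 hqj).1, p, hp, ((mem_fw hF).1 hqj).2.symm⟩
  have a2 : ∀ p ∈ rest s, ∃ q ∈ ρ, fi F q = fi F p := by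
    intro p hp
    obtain ⟨q, hq⟩ := card_eq_one.1 (hρ2 _ (mem_image_of_mem _ hp))
    have : q ∈ ρ ∩ fw F (fi F p) := hq ▸ mem_singleton_self q
    exact ⟨q, (mem_inter.1 this).1, ((mem_fw hF).1 (mem_inter.1 this).2).2⟩
  have a3 : Set.InjOn (fi F) (ρ : Set ℕ) := by
    intro q hq q' hq' h
    obtain ⟨qp, p, hp, hpq⟩ := a1 q hq
    exact card_le_one.1 (hρ2 _ (mem_image_of_mem _ hp)).le q
      (mem_inter.2 ⟨hq, (mem_fw hF).2 ⟨qp, hpq.symm⟩⟩) q'
      (mem_inter.2 ⟨hq', (mem_fw hF).2 ⟨(a1 q' hq').1, (hpq.trans h).symm⟩⟩)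
  have a4 : ρ.image (fi F) = (rest s).image (fi F) := by
    ext j
    simp only [mem_image]
    constructor
    · rintro ⟨q, hq, rfl⟩
      exact (a1 q hq).2
    · rintro ⟨p, hp, rfl⟩
      exact a2 p hp
  choose! ψ hψ1 hψ2 using a2
  set φ : ℕ → ℕ := fun p => if p = top s then p1 else ψ p with hφ
  have b0 : φ (top s) = p1 := if_pos rfl
  have b1 : ∀ p ∈ rest s, φ p = ψ p := fun p hp => if_neg (ne_of_mem_erase hp)
  have b2 : ∀ p ∈ s, p = top s ∨ p ∈ rest s := fun p hp =>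
    (eq_or_ne p (top s)).imp_right fun h => mem_erase.2 ⟨h, hp⟩
  have ht : ∀ p ∈ s, tau (φ p) = tau p := by
    intro p hp
    rcases b2 p hp with rfl | h
    · rw [b0, tp1]
    · rw [b1 p h]
      exact tau_eq_of_fi hF (hψ2 p h)
  have hm : StrictMonoOn φ s := by
    intro p hp q hq hpq
    have hpR : p ∈ rest s := mem_erase.2 ⟨(hpq.trans_le (le_top' hq)).ne, hp⟩
    rcases b2 q hq with rfl | h
    · refine lt_of_tau_lt ?_
      rw [ht p hp, ht _ hq]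
      exact (tau_mono (le_top' hpR)).trans_lt hgb
    · rw [b1 p hpR, b1 q h]
      have h1 : fi F p < fi F q :=
        lt_of_le_of_ne (fi_mono F hpq.le) fun e => hpq.ne (ga3 hpR h e)
      by_contra h2
      have h3 := fi_mono F (not_lt.1 h2)
      rw [hψ2 p hpR, hψ2 q h] at h3
      omega
  have c1 : (rest s).image φ = ρ := by
    ext q
    rw [mem_image]
    constructor
    · rintro ⟨p, hp, rfl⟩
      rw [b1 p hp]
      exact hψ1 p hp
    · intro hq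
      obtain ⟨_, p, hp, h⟩ := a1 q hq
      exact ⟨p, hp, (b1 p hp).trans (a3 (hψ1 p hp) hq ((hψ2 p hp).trans h))⟩
  have c2 : s.image φ = insert p1 ρ := by
    conv_lhs => rw [← insert_erase (top_mem hne)]
    rw [image_insert, b0]
    exact congrArg _ c1
  have c3 : ∀ q ∈ ρ, q < p1 := by
    intro q hq
    rw [← c1] at hq
    obtain ⟨p, hp, rfl⟩ := mem_image.1 hq
    rw [← b0]
    exact hm (hRs hp) (top_mem hne) (lt_top' hp)
  have c4 : top (insert p1 ρ) = p1 := top_eq (mem_insert_self _ _) fun q hq => by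
    rcases mem_insert.1 hq with rfl | h
    · exact le_rfl
    · exact (c3 q h).le
  have c5 : rest (insert p1 ρ) = ρ := by
    rw [rest, c4, erase_insert fun h => lt_irrefl _ (c3 p1 h)]
  have c6 : tau (top ρ) = tau (top (rest s)) := by
    rw [← c1]
    exact tau_top_image hm ht hRs
  have c7 : (insert p1 ρ).card = s.card := by rw [← c2, card_image_of_injOn hm.injOn]
  have c8 : ts (insert p1 ρ) = ts s := by rw [← c2, ts_image hm ht subset_rfl]
  have c9 : ∀ q ∈ insert p1 ρ, ∃ p ∈ s, tau q = tau p := by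
    intro q hq
    rw [← c2] at hq
    obtain ⟨p, hp, rfl⟩ := mem_image.1 hq
    exact ⟨p, hp, ht p hp⟩
  refine ⟨mem_filter.2 ⟨mem_filter.2 ⟨mem_powerset.2 fun q hq => ?_, ?_, ?_, ?_, ?_, ?_, ?_⟩,
    ⟨?_, ?_, ?_, ?_⟩, ?_⟩, c4, c5, a4⟩
  · obtain ⟨p, hp, h⟩ := c9 q hq
    refine mem_PR.2 ⟨?_, h ▸ (mem_PR.1 (hsP hp)).2⟩
    rcases mem_insert.1 hq with rfl | h'
    · exact p1p
    · exact (a1 q h').1
  · rw [← c2]
    exact tree_image hm ht htree
  · rwa [c7]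
  · rwa [c8]
  · rwa [c8]
  · intro q hq
    obtain ⟨p, hp, h⟩ := c9 q hq
    exact h ▸ h28 p hp
  · exact ⟨φ p0, c2 ▸ mem_image_of_mem φ hp0, (ht p0 hp0).symm ▸ h30⟩
  · rwa [c7]
  · rwa [c5, c6]
  · rwa [c5]
  · rw [c5]
    intro q hq
    obtain ⟨_, p, hp, h⟩ := a1 q hq
    exact h ▸ ga4 p hp
  · rw [gb, c5, c4, c6, tp1]
    exact hgb

end Pool.Agent.P.MP_26a8c3_nt.EC
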