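import Pool.Agent.P.MP_26a8c3_nt.EC.Base

/-! The key proposition from rigidity and the two concurrent cases. -/

namespace Pool.Agent.P.MP_26a8c3_nt.EC

open Finset
open scoped Classical

namespace KP

lemma cnt_le {u d A : ℕ} {L T : ℝ} {a v : ℤ} (hd : 0 < d) (hc : Nat.Coprime d (PP u L))
    (h : (d : ℤ) ∣ a - v * A) : cnt u L (A / d) (T / d) ≤ 1 + cx u L A T a v d := by
  unfold cnt cx cop
  have h1 : ((Ioc (A / d) (A / d + ⌊T / d⌋₊ + 1)).filter fun m => Nat.Coprime m (PP u L)) ⊆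
      insert (A / d + ⌊T / d⌋₊ + 1)
        ((Ioc (A / d) (A / d + ⌊T / d⌋₊)).filter fun m => Nat.Coprime m (PP u L)) := by
    intro j hj
    rw [mem_filter, mem_Ioc] at hj
    rw [mem_insert, mem_filter, mem_Ioc]
    by_cases e : j = A / d + ⌊T / d⌋₊ + 1
    · exact Or.inl e
    · exact Or.inr ⟨⟨hj.1.1, by omega⟩, hj.2⟩
  have h2 : ((Ioc (A / d) (A / d + ⌊T / d⌋₊)).filter fun m => Nat.Coprime m (PP u L)).card ≤
      ((Ioc 0 ⌊T⌋₊).filter fun r : ℕ =>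
        (d : ℤ) ∣ a + v * r ∧ Nat.Coprime (A + r) (PP u L)).card := by
    have lt : ∀ j ∈ (Ioc (A / d) (A / d + ⌊T / d⌋₊)).filter fun m => Nat.Coprime m (PP u L),
        A < d * j := fun j hj => by
      rw [mul_comm]
      exact (Nat.div_lt_iff_lt_mul hd).1 (mem_Ioc.1 (mem_filter.1 hj).1).1
    refine card_le_card_of_injOn (fun j => d * j - A) (fun j hj => ?_) fun i hi j hj e => ?_
    · have l := lt j hj
      rw [mem_coe, mem_filter, mem_Ioc, Nat.floor_div_natCast] at hj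
      have h3 := Nat.mul_le_mul_left d hj.1.2
      have h4 := Nat.mul_div_le A d
      have h5 := Nat.mul_div_le ⌊T⌋₊ d
      rw [mul_add] at h3
      rw [mem_coe, mem_filter, mem_Ioc]
      beta_reduce
      refine ⟨⟨by omega, by omega⟩, ?_, ?_⟩
      · rw [Nat.cast_sub l.le, Nat.cast_mul,
          show a + v * ((d : ℤ) * j - A) = a - v * A + d * (v * j) by ring]
        exact h.add (dvd_mul_right _ _)
      · rw [Nat.add_sub_cancel' l.le]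
        exact Nat.Coprime.mul_left hc hj.2
    · have l1 := lt i hi
      have l2 := lt j hj
      exact Nat.eq_of_mul_eq_mul_left hd (by simp only at e; omega)
  have h3 := ((card_le_card h1).trans (card_insert_le _ _)).trans (Nat.succ_le_succ h2)
  rw [add_comm (1 : ℝ)]
  exact_mod_cast h3

lemma comb {α : Type} (S : Finset α) (p : α → Prop) (f g y : α → ℝ) {th c L : ℝ} (h0 : 0 < th)
    (h1 : th ≤ 1) (hc : 0 ≤ c) (hL : 0 ≤ L) (hf : ∀ b ∈ S, p b → f b ≤ 1 + g b)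
    (hf' : ∀ b ∈ S, f b ≤ 9 * (c * L)) (hg : ∀ b ∈ S, 0 ≤ g b) (hy : ∀ b ∈ S, L ≤ y b)
    (hb : ((S.filter fun b => ¬ p b).card : ℝ) ≤ th / 50 * S.card)
    (hs : ∑ b ∈ S, g b ≤ (2 - th / 4) * c * ∑ b ∈ S, y b) (h2 : 1 ≤ th / 100 * (c * L)) :
    ∑ b ∈ S, f b ≤ (2 - th ^ 2 / 10000) * c * ∑ b ∈ S, y b := by
  have a1 : ∑ b ∈ S, f b ≤ ∑ b ∈ S, (1 + g b + if ¬ p b then 9 * (c * L) else 0) := by
    refine sum_le_sum fun b hb => ?_
    by_cases e : p b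
    · rw [if_neg (not_not.2 e), add_zero]
      exact hf b hb e
    · rw [if_pos e]
      linarith [hf' b hb, hg b hb]
  rw [sum_add_distrib, sum_add_distrib, ← sum_filter, sum_const, sum_const, nsmul_eq_mul,
    nsmul_eq_mul, mul_one] at a1
  have a2 : S.card * L ≤ ∑ b ∈ S, y b := by
    rw [← nsmul_eq_mul]
    exact card_nsmul_le_sum _ _ _ hy
  have n0 : (0 : ℝ) ≤ S.card := Nat.cast_nonneg _
  have a3 : S.card * (c * L) ≤ c * ∑ b ∈ S, y b := by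
    rw [mul_left_comm]
    exact mul_le_mul_of_nonneg_left a2 hc
  have a4 := mul_le_mul_of_nonneg_right hb (by positivity : 0 ≤ 9 * (c * L))
  have a5 := mul_le_mul_of_nonneg_left h2 n0
  have a6 := mul_le_mul_of_nonneg_left a3 h0.le
  have a7 : 0 ≤ c * ∑ b ∈ S, y b := le_trans (by positivity) a3
  have a8 := mul_le_mul_of_nonneg_right (by nlinarith : th ^ 2 ≤ th) a7
  have a9 := mul_nonneg h0.le a7
  nlinarith

lemma num {th : ℝ} (h : 0 < th) : ∃ Λ0 : ℝ, 2 ≤ Λ0 ∧ ∀ Λ, Λ0 ≤ Λ → 4 ≤ Xi Λ ∧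
    Xi Λ ^ 3 < Real.exp (Λ ^ (3 / 5 : ℝ) - 2) ∧ Real.log Λ ≤ th / 100 * Λ := by
  obtain ⟨a, ha⟩ := Filter.eventually_atTop.1
    (((tendsto_rpow_atTop (by norm_num : (0 : ℝ) < 2 / 25)).eventually_ge_atTop 4).and
      (Real.isLittleO_log_id_atTop.bound (by positivity : 0 < th / 100)))
  refine ⟨max 2 a, le_max_left _ _, fun Λ hΛ => ?_⟩
  have h2 : 2 ≤ Λ := (le_max_left _ _).trans hΛ
  obtain ⟨h3, h4⟩ := ha Λ ((le_max_right _ _).trans hΛ)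
  have h5 : Λ ^ (2 / 25 : ℝ) ≤ Λ ^ (13 / 25 : ℝ) :=
    Real.rpow_le_rpow_of_exponent_le (by linarith) (by norm_num)
  have h6 : Λ ^ (3 / 5 : ℝ) = Λ ^ (13 / 25 : ℝ) * Λ ^ (2 / 25 : ℝ) := by
    rw [← Real.rpow_add (by linarith)]
    norm_num
  refine ⟨?_, ?_, ?_⟩
  · have := Real.add_one_le_exp (Λ ^ (13 / 25 : ℝ))
    unfold Xi
    linarith
  · unfold Xi
    rw [← Real.exp_nat_mul, Real.exp_lt_exp, h6]
    push_cast
    nlinarith
  · rw [Real.norm_eq_abs, Real.norm_eq_abs, id, abs_of_pos (by linarith : 0 < Λ)] at h4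
    exact (le_abs_self _).trans h4

lemma red (a v : ℤ) (hv : 1 ≤ v) : ∃ (g : ℕ) (a' v' : ℤ), 0 < g ∧ (g : ℤ) ≤ v ∧ IsCoprime a' v' ∧
    1 ≤ v' ∧ a = g * a' ∧ v = g * v' := by
  have hg : 0 < Int.gcd a v := Int.gcd_pos_of_ne_zero_right _ (by omega)
  obtain ⟨a', v', h1, h2, h3⟩ := Int.exists_gcd_one hg
  have h4 : (0 : ℤ) < Int.gcd a v := by exact_mod_cast hg
  have h5 : 0 < v' := by
    by_contra h
    nlinarith
  refine ⟨_, a', v', hg, by nlinarith, Int.isCoprime_iff_gcd_eq_one.2 h1, h5, ?_, ?_⟩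
  · rw [mul_comm]; exact h2
  · rw [mul_comm]; exact h3

lemma ht {a v r e g a' v' X Q T : ℝ} (k1 : a - v * r = g * a') (ev : v * e = g * v') (r0 : 0 ≤ r)
    (k2 : r ≤ e) (v1 : 1 ≤ v) (e1 : 1 ≤ e) (g0 : 1 ≤ g) (x1 : 4 ≤ X) (ha : |a| ≤ v * Q * X ^ 2)
    (h1 : Q ≤ 3 * T) (t1 : 1 ≤ T) : |a'| ≤ v' * T * X ^ 3 := by
  have k3 : g * |a'| ≤ |a| + v * e := by
    rw [← abs_of_pos (by linarith : 0 < g), ← abs_mul, ← k1]
    refine (abs_sub _ _).trans (add_le_add le_rfl ?_)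
    rw [abs_of_nonneg (by positivity)]
    exact mul_le_mul_of_nonneg_left k2 (by linarith)
  have k4 : |a| ≤ v * e * T * (3 * X ^ 2) := by
    calc _ ≤ v * (3 * T) * X ^ 2 := ha.trans (by gcongr)
      _ = v * 1 * T * (3 * X ^ 2) := by ring
      _ ≤ _ := by gcongr
  have k5 : v * e ≤ v * e * T := le_mul_of_one_le_right (by positivity) t1
  have k6 : 3 * X ^ 2 + 1 ≤ X ^ 3 := by nlinarith
  have k7 := mul_le_mul_of_nonneg_left k6 (by positivity : 0 ≤ v * e * T)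
  refine le_of_mul_le_mul_left ?_ (by linarith : 0 < g)
  rw [← mul_assoc, ← mul_assoc, ← ev]
  linarith

lemma tb {t q1 q2 : ℕ} {P L T : ℝ} (hq : q1 ∈ PR t t) (k2 : q2.Prime) (k4 : P ≤ q2) (P0 : 0 ≤ P)
    (L1 : 1 ≤ L) (k5 : L ≤ T / ((q1 * q2 : ℕ) : ℝ)) : Real.exp t * P ≤ 3 * T ∧ 1 ≤ T := by
  rw [mem_PR] at hq
  have k6 : (1 : ℝ) ≤ ((q1 * q2 : ℕ) : ℝ) := by exact_mod_cast mul_pos hq.1.pos k2.pos
  rw [le_div_iff₀ (by linarith)] at k5
  have k7 : ((q1 * q2 : ℕ) : ℝ) ≤ T := le_trans (le_mul_of_one_le_left (by linarith) L1) k5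
  refine ⟨?_, k6.trans k7⟩
  have k8 := exp_tau_lt hq.1.pos
  rw [le_antisymm hq.2.2 hq.2.1, Real.exp_sub, div_lt_iff₀ (Real.exp_pos _)] at k8
  have k9 := Real.exp_one_lt_d9
  have k10 : (0 : ℝ) ≤ q1 := Nat.cast_nonneg _
  calc _ ≤ (3 * q1 : ℝ) * q2 := mul_le_mul (by nlinarith) k4 P0 (by positivity)
    _ ≤ _ := by rw [mul_assoc, ← Nat.cast_mul]; linarith

end KP

open KP in
theorem pKP (hTriv : S_Triv) (hSv : S_Sv) (hRig : S_Rig) (hCaseA : S_CaseA) (hCaseB : S_CaseB) :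
    S_KP := by
  obtain ⟨th, th0, th1, hsv⟩ := hSv
  obtain ⟨uB, hB⟩ := hCaseB
  refine ⟨max 1 uB, fun u hu => ⟨th ^ 2 / 10000, th, by positivity, by nlinarith, th0, th1,
    fun B => ?_⟩⟩
  have u1 : 1 ≤ u := (le_max_left _ _).trans hu
  obtain ⟨ΛR, hR⟩ := hRig u th u1 (hsv u u1) B
  obtain ⟨ΛA, hA⟩ := hCaseA u th u1 (hsv u u1) B
  obtain ⟨ΛB, hB⟩ := hB u ((le_max_right _ _).trans hu) th B
  obtain ⟨L0, hT⟩ := hTriv u 1 u1 one_pos
  obtain ⟨Λ1, Λ2, hN⟩ := num th0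
  refine ⟨max (max (max ΛR ΛA) (max ΛB L0)) Λ1, ?_⟩
  intro t1 M A Λ L P2 T R W2 E1 E2 hΛ C S
  simp only [max_le_iff] at hΛ
  obtain ⟨⟨⟨l1, l2⟩, l3, l4⟩, l5⟩ := hΛ
  by_contra hcon
  obtain ⟨a, v, hav, v1, v2, ha, hbad⟩ := hR t1 M A Λ L P2 T R W2 E1 E2 l1 C S (not_le.1 hcon).le
  refine hcon ?_
  obtain ⟨x1, x2, -⟩ := hN Λ l5
  have ΛL : Λ ≤ L := by
    have h1 : Λ ^ 1 ≤ Λ ^ 40 := pow_le_pow_right₀ (by linarith) (by norm_num)
    have h2 : L ^ th ≤ L ^ (1 : ℝ) := Real.rpow_le_rpow_of_exponent_le C.L0 (by linarith)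
    rw [Real.rpow_one] at h2
    rw [pow_one] at h1
    exact h1.trans (C.L1.trans h2)
  have L1 := C.L0
  have lg : 0 < Real.log L := Real.log_pos (by linarith)
  have c0 : 0 < cs u L := inv_pos.2 (mul_pos (V0_pos u) lg)
  have c1 : 1 ≤ th / 100 * (cs u L * L) := by
    have h1 := (hN L (l5.trans ΛL)).2.2
    have h2 : V0 u * Real.log L ≤ Real.log L := mul_le_of_le_one_left lg.le (V0_le_one u)
    rw [mul_left_comm, cs, ← div_eq_inv_mul, one_le_div (mul_pos (V0_pos u) lg)]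
    linarith
  have MX : (M : ℝ) ≤ Xi Λ := S.M1.trans (Real.exp_le_exp.2
    (Real.rpow_le_rpow_of_exponent_le (by linarith) (by norm_num)))
  have X3 : Xi Λ ^ 3 < P2 := x2.trans_le C.P2a
  have X13 : Xi Λ ≤ Xi Λ ^ 3 := le_self_pow₀ (by linarith) (by norm_num)
  have key : ∀ e1 ∈ E1, ∀ e2 ∈ E2, ∑ p1 ∈ PR t1 t1, ∑ p2 ∈ W2,
      cnt u L (A / (p1 * p2 * (e1 * e2))) (T / ((p1 * p2 * (e1 * e2) : ℕ) : ℝ)) ≤
      (2 - th ^ 2 / 10000) * cs u L * ∑ p1 ∈ PR t1 t1, ∑ p2 ∈ W2,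
        T / ((p1 * p2 * (e1 * e2) : ℕ) : ℝ) := by
    intro e1 he1 e2 he2
    rcases (PR t1 t1).eq_empty_or_nonempty with h | ⟨q1, hq1⟩
    · simp [h]
    rcases W2.eq_empty_or_nonempty with h | ⟨q2, hq2⟩
    · simp [h]
    have LM : L ≤ M := by
      refine S.c1.trans (Nat.cast_le.2 ?_)
      have : E1 ⊆ Ioc 0 M := fun e he => mem_Ioc.2 ⟨(S.Ea e (mem_union_left _ he)).1,
        Nat.le_of_dvd S.M0 ((dvd_mul_right _ _).trans (S.dv e he e2 he2).1)⟩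
      simpa using card_le_card this
    have e0 : 0 < e1 * e2 :=
      mul_pos (S.Ea _ (mem_union_left _ he1)).1 (S.Ea _ (mem_union_right _ he2)).1
    have eX : ((e1 * e2 : ℕ) : ℝ) ≤ Xi Λ :=
      (Nat.cast_le.2 (Nat.le_of_dvd S.M0 (S.dv e1 he1 e2 he2).1)).trans MX
    have len := fun p1 h1 p2 h2 => S.len p1 h1 p2 h2 e1 he1 e2 he2
    generalize e1 * e2 = e at *
    have e1' : (1 : ℝ) ≤ e := by exact_mod_cast e0
    have eqT : ∀ d : ℕ, T / ((d * e : ℕ) : ℝ) = T / e / d := fun d => by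
      rw [Nat.cast_mul, div_div, mul_comm]
    have eqA : ∀ d : ℕ, A / (d * e) = A / e / d := fun d => by
      rw [Nat.div_div_eq_div_mul, mul_comm]
    simp only [eqT, eqA] at len ⊢
    have hA' := Nat.div_add_mod A e
    have hr := Nat.mod_lt A e0
    generalize T / e = T' at *
    generalize A / e = A' at *
    generalize A % e = r at *
    have big : ∀ p1 ∈ PR t1 t1, ∀ p2 ∈ W2, p1.Prime ∧ p2.Prime ∧ P2 ≤ p1 ∧ P2 ≤ p2 := by
      intro p1 h1 p2 h2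
      obtain ⟨k1, k2, -, k3⟩ := C.W2a p2 h2
      rw [mem_PR] at h1
      exact ⟨h1.1, k1, k2.trans (Nat.cast_le.2 (lt_of_tau_lt (k3.trans_le h1.2.1)).le), k2⟩
    have hT' : Real.exp t1 * P2 ≤ 3 * T' ∧ 1 ≤ T' :=
      tb hq1 (big q1 hq1 q2 hq2).2.1 (big q1 hq1 q2 hq2).2.2.2 (by linarith only [X3, X13, x1]) L1
        (len q1 hq1 q2 hq2).1
    have e0' : (1 : ℤ) ≤ e := by exact_mod_cast e0
    obtain ⟨g, a', v', g0, g1, hc, w1, ea, ev⟩ :=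
      red (a - v * r) (v * e) (one_le_mul_of_one_le_of_one_le v1 e0')
    have v1' : (1 : ℝ) ≤ v := by exact_mod_cast v1
    have w1' : (1 : ℝ) ≤ v' := by exact_mod_cast w1
    have g0' : (1 : ℝ) ≤ g := by exact_mod_cast g0
    have ev' : (v : ℝ) * e = g * v' := by exact_mod_cast ev
    have ve : (v : ℝ) * e ≤ Xi Λ ^ 3 := by
      rw [pow_succ]
      exact mul_le_mul v2 eX (by linarith) (by positivity)
    have w2 : (v' : ℝ) ≤ Xi Λ ^ 3 :=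
      le_trans (le_mul_of_one_le_left (by linarith) g0') (ev' ▸ ve)
    have g2 : (g : ℝ) < P2 :=
      (le_trans (le_mul_of_one_le_right (by linarith) w1') (ev' ▸ ve)).trans_lt X3
    have w3 : |(a' : ℝ)| ≤ v' * T' * Xi Λ ^ 3 :=
      ht (by exact_mod_cast ea) ev' (Nat.cast_nonneg r) (Nat.cast_le.2 hr.le) v1' e1' g0' x1 ha
        hT'.1 hT'.2
    have hx : ∑ p1 ∈ PR t1 t1, ∑ p2 ∈ W2, cx u L A' T' a' v' (p1 * p2) ≤
        (2 - th / 4) * cs u L * ∑ p1 ∈ PR t1 t1, ∑ p2 ∈ W2, T' / ((p1 * p2 : ℕ) : ℝ) := by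
      by_cases h : L ^ (20 * th) ≤ (v' : ℝ) ∨ v' * T' * L ^ (20 * th) ≤ |(a' : ℝ)|
      · exact hA t1 _ Λ L P2 T' W2 a' v' l2 C len hc w1 w2 w3 h
      · rw [not_or, not_le, not_le] at h
        refine (hB t1 _ Λ L P2 T' W2 a' v' l3 C len hc w1 h.1.le h.2.le).trans ?_
        have := hT'.2
        gcongr
        linarith
    rw [← sum_product', ← sum_product'] at hx ⊢
    refine comb _ (fun b => ((b.1 * b.2 : ℕ) : ℤ) ∣ v * A - a) _ _ _ th0 (by linarith) c0.le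
      (by linarith) (fun b hb h => ?_) (fun b hb => ?_) (fun b _ => Nat.cast_nonneg _)
      (fun b hb => (len _ (mem_product.1 hb).1 _ (mem_product.1 hb).2).1)
      (by rw [card_product, Nat.cast_mul]; convert hbad) hx c1
    · obtain ⟨k1, k2, k3, k4⟩ := big _ (mem_product.1 hb).1 _ (mem_product.1 hb).2
      have k5 : ∀ p : ℕ, p.Prime → P2 ≤ p → Nat.Coprime p (PP u L) ∧ Nat.Coprime p g := by
        intro p hp h
        refine ⟨hp.coprime_iff_not_dvd.2 fun k => ?_, hp.coprime_iff_not_dvd.2 fun k => ?_⟩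
        · have k6 := ((mem_PPs (by linarith)).1 ((prime_dvd_pv PPs_prime hp).1 k)).2.2
          have k7 : L ^ (3 / 5 : ℝ) ≤ L ^ (1 : ℝ) :=
            Real.rpow_le_rpow_of_exponent_le L1 (by norm_num)
          rw [Real.rpow_one] at k7
          linarith
        · have k6 : (p : ℝ) ≤ g := Nat.cast_le.2 (Nat.le_of_dvd g0 k)
          linarith
      refine cnt_le (mul_pos k1.pos k2.pos) ((k5 _ k1 k3).1.mul_left (k5 _ k2 k4).1) ?_
      refine (Nat.isCoprime_iff_coprime.2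
        ((k5 _ k1 k3).2.mul_left (k5 _ k2 k4).2)).dvd_of_dvd_mul_left ?_
      have k6 : (A : ℤ) = e * A' + r := by exact_mod_cast hA'.symm
      rw [mul_sub, ← mul_assoc, ← ea, ← ev,
        show a - v * r - v * e * A' = -(v * A - a) by rw [k6]; ring]
      exact h.neg_right
    · obtain ⟨k1, k2⟩ := len _ (mem_product.1 hb).1 _ (mem_product.1 hb).2
      refine (hT L _ _ (l4.trans ΛL) k1 (by linarith)).trans ?_
      have := mul_le_mul_of_nonneg_left k2 c0.le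
      linarith
  have sw : ∀ f : ℕ → ℕ → ℕ → ℕ → ℝ, ∑ p1 ∈ PR t1 t1, ∑ p2 ∈ W2, ∑ e1 ∈ E1, ∑ e2 ∈ E2,
      f p1 p2 e1 e2 = ∑ e1 ∈ E1, ∑ e2 ∈ E2, ∑ p1 ∈ PR t1 t1, ∑ p2 ∈ W2, f p1 p2 e1 e2 := by
    intro f
    calc _ = ∑ p1 ∈ PR t1 t1, ∑ e1 ∈ E1, ∑ e2 ∈ E2, ∑ p2 ∈ W2, f p1 p2 e1 e2 :=
          sum_congr rfl fun _ _ => sum_comm.trans (sum_congr rfl fun _ _ => sum_comm)
      _ = _ := sum_comm.trans (sum_congr rfl fun _ _ => sum_comm)
  rw [sw, sw fun p1 p2 e1 e2 => T / ((p1 * p2 * (e1 * e2) : ℕ) : ℝ), mul_sum]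
  refine sum_le_sum fun e1 he1 => ?_
  rw [mul_sum]
  exact sum_le_sum fun e2 he2 => key e1 he1 e2 he2

end Pool.Agent.P.MP_26a8c3_nt.EC
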