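import Pool.Agent.P.MP_26a8c3_nt.EC.Base

/-! Incomplete sums of reciprocals modulo `m`, twisted by a slowly varying phase. -/

namespace Pool.Agent.P.MP_26a8c3_nt.EC

open Finset
open scoped Classical
open Hyb (ee)

namespace KS

open Hyb

lemma window {f : ℕ → ℂ} {m : ℕ} (hf : ∀ n, f (n + m) = f n) (s : ℕ) :
    ∑ n ∈ Ico s (s + m), f n = ∑ n ∈ range m, f n := by
  induction s with
  | zero => rw [zero_add, range_eq_Ico]
  | succ s ih =>
    have h1 := sum_Ico_succ_top (Nat.le_add_right s m) f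
    have h2 := sum_eq_sum_Ico_succ_bot (Nat.lt_succ_of_le (Nat.le_add_right s m)) f
    rw [← ih, show s + 1 + m = s + m + 1 by ring]
    rw [h1, hf] at h2
    linear_combination -h2

lemma window' {f : ℕ → ℂ} {m : ℕ} (hf : ∀ n, f (n + m) = f n) (s : ℕ) :
    ∑ n ∈ Ioc s (s + m), f n = ∑ n ∈ range m, f n := by
  rw [← window hf (s + 1)]
  refine sum_congr ?_ fun _ _ => rfl
  ext n
  rw [mem_Ioc, mem_Ico]
  omega

lemma part {g : ℕ → ℂ} {m : ℕ} (hm : 0 < m) (hg : ∀ n, ‖g n‖ ≤ 2)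
    (h0 : ∀ s, ∑ n ∈ Ioc s (s + m), g n = 0) (a t : ℕ) : ‖∑ n ∈ Ioc a t, g n‖ ≤ 2 * m := by
  induction t using Nat.strong_induction_on with
  | _ t ih =>
    by_cases h : t ≤ a + m
    · refine (norm_sum_le _ _).trans ((sum_le_card_nsmul _ _ 2 fun n _ => hg n).trans ?_)
      rw [Nat.card_Ioc, nsmul_eq_mul, mul_comm]
      have : ((t - a : ℕ) : ℝ) ≤ m := by exact_mod_cast (by omega : t - a ≤ m)
      linarith
    · obtain ⟨s, rfl⟩ : ∃ s, t = s + m := ⟨t - m, by omega⟩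
      rw [← sum_Ioc_consecutive g (by omega : a ≤ s) (Nat.le_add_right s m), h0, add_zero]
      exact ih s (by omega)

lemma abel1 {g w : ℕ → ℂ} {a : ℕ} {M η : ℝ} (hg : ∀ t, ‖∑ n ∈ Ioc a t, g n‖ ≤ M)
    (hw : ∀ n, a < n → ‖w n - w (n + 1)‖ ≤ η) (t : ℕ) (ht : a ≤ t) :
    ‖∑ n ∈ Ioc a t, g n * w n - (∑ n ∈ Ioc a t, g n) * w (t + 1)‖ ≤ M * η * ((t : ℝ) - a) := by
  induction t, ht using Nat.le_induction with
  | base => simp
  | succ t ht ih =>
    have e : ∑ n ∈ Ioc a (t + 1), g n * w n - (∑ n ∈ Ioc a (t + 1), g n) * w (t + 1 + 1) =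
        (∑ n ∈ Ioc a t, g n * w n - (∑ n ∈ Ioc a t, g n) * w (t + 1)) +
          (∑ n ∈ Ioc a (t + 1), g n) * (w (t + 1) - w (t + 1 + 1)) := by
      rw [sum_Ioc_succ_top ht, sum_Ioc_succ_top ht]; ring
    rw [e]
    refine (norm_add_le _ _).trans ?_
    rw [norm_mul]
    have h1 := mul_le_mul (hg (t + 1)) (hw (t + 1) (by omega)) (norm_nonneg _)
      ((norm_nonneg _).trans (hg 0))
    push_cast
    linarith

lemma abel2 {u : ℕ → ℝ} {w : ℕ → ℂ} (hu : ∀ n, u n ≤ u (n + 1)) (h0 : ∀ n, 0 ≤ u n)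
    (hw : ∀ n, ‖w n‖ ≤ 1) (a t : ℕ) (ht : a ≤ t) :
    ‖∑ n ∈ Ioc a t, (u n : ℂ) * (w (n + 1) - w n) - u t * w (t + 1)‖ ≤ u t := by
  induction t, ht using Nat.le_induction with
  | base =>
    rw [Ioc_self, sum_empty, zero_sub, norm_neg, norm_mul, Complex.norm_real,
      Real.norm_of_nonneg (h0 a)]
    exact mul_le_of_le_one_right (h0 a) (hw _)
  | succ t ht ih =>
    have e : ∑ n ∈ Ioc a (t + 1), (u n : ℂ) * (w (n + 1) - w n) - u (t + 1) * w (t + 1 + 1) =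
        (∑ n ∈ Ioc a t, (u n : ℂ) * (w (n + 1) - w n) - u t * w (t + 1)) -
          ((u (t + 1) - u t : ℝ) : ℂ) * w (t + 1) := by
      rw [sum_Ioc_succ_top ht]; push_cast; ring
    rw [e]
    refine (norm_sub_le _ _).trans ?_
    have h1 : 0 ≤ u (t + 1) - u t := sub_nonneg.2 (hu t)
    rw [norm_mul, Complex.norm_real, Real.norm_of_nonneg h1]
    have := mul_le_of_le_one_right h1 (hw (t + 1))
    linarith

lemma expo (x : ℝ) :
    ‖ee x - 1 - Complex.I * (2 * Real.pi * x : ℝ)‖ ≤ 2 * (2 * Real.pi * x) ^ 2 := by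
  have hn : ‖Complex.I * (2 * Real.pi * x : ℝ)‖ = |2 * Real.pi * x| := by
    rw [norm_mul, Complex.norm_I, one_mul, Complex.norm_real, Real.norm_eq_abs]
  rw [← sq_abs]
  by_cases h : |2 * Real.pi * x| ≤ 1
  · have := Complex.norm_exp_sub_one_sub_id_le (hn.trans_le h)
    rw [← ee_eq, hn] at this
    nlinarith [sq_nonneg |2 * Real.pi * x|]
  · refine (norm_sub_le _ _).trans ?_
    have h1 := norm_ee_sub x 0
    rw [ee_zero, sub_zero] at h1
    have h2 : |2 * Real.pi * x| = 2 * Real.pi * |x| := by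
      rw [abs_mul, abs_of_pos (by positivity)]
    rw [hn]
    rw [← h2] at h1
    nlinarith [not_le.1 h]

lemma step {Θ : ℝ} {n : ℕ} (hn : 0 < n) :
    Θ / n - Θ / ((n + 1 : ℕ) : ℝ) = Θ / ((n : ℝ) * (n + 1)) := by
  have : (0 : ℝ) < n := by exact_mod_cast hn
  push_cast
  field_simp
  ring

lemma sq_le {P : ℝ} {a n : ℕ} (hP : 1 ≤ P) (ha : P ≤ (a : ℝ) + 1) (hn : a < n) :
    P ^ 2 ≤ (n : ℝ) * (n + 1) := by
  have : (a : ℝ) + 1 ≤ n := by exact_mod_cast hn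
  nlinarith

lemma sumw {a b : ℕ} {Θ P : ℝ} (hP : 1 ≤ P) (ha : P ≤ (a : ℝ) + 1) (hab : a ≤ b)
    (hb : (b : ℝ) ≤ 2 * P) (hΘ : Θ ≠ 0) :
    ‖∑ n ∈ Ioc a b, ee (Θ / n)‖ ≤ 2 * (P ^ 2 / |Θ|) + 13 * (((b : ℝ) - a) * |Θ| / P ^ 2) := by
  have hpi := Real.pi_gt_three
  have hpi' := Real.pi_lt_d2
  have hT : 0 < |Θ| := abs_pos.2 hΘ
  have hP2 : 0 < P ^ 2 := by positivity
  set u : ℕ → ℝ := fun n => (n : ℝ) * (n + 1) with hu
  have h0 : ∀ n, 0 ≤ u n := fun n => by positivity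
  have h1 := abel2 (u := u) (w := fun n => ee (Θ / n))
    (fun n => by simp only [hu]; push_cast; nlinarith [Nat.cast_nonneg (α := ℝ) n]) h0
    (fun n => (norm_ee _).le) a b hab
  have h2 : ‖∑ n ∈ Ioc a b, (u n : ℂ) * (ee (Θ / ((n + 1 : ℕ) : ℝ)) - ee (Θ / n))‖ ≤ 2 * u b := by
    have := norm_sub_norm_le (∑ n ∈ Ioc a b, (u n : ℂ) * (ee (Θ / ((n + 1 : ℕ) : ℝ)) - ee (Θ / n)))
      (u b * ee (Θ / ((b + 1 : ℕ) : ℝ)))
    rw [norm_mul, norm_ee, Complex.norm_real, Real.norm_of_nonneg (h0 b)] at this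
    linarith
  have h3 : ∀ n ∈ Ioc a b, ‖(u n : ℂ) * (ee (Θ / ((n + 1 : ℕ) : ℝ)) - ee (Θ / n)) +
      Complex.I * (2 * Real.pi * Θ : ℝ) * ee (Θ / n)‖ ≤ 2 * (2 * Real.pi * Θ) ^ 2 / P ^ 2 := by
    intro n hn
    have hn1 := (mem_Ioc.1 hn).1
    have hs := sq_le hP ha hn1
    have hu0 : 0 < u n := hP2.trans_le hs
    have e1 : Θ / ((n + 1 : ℕ) : ℝ) = Θ / n + -(Θ / u n) := by
      have := step (Θ := Θ) (by omega : 0 < n)
      simp only [hu]
      linarith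
    have e2 : (u n : ℂ) * (ee (Θ / ((n + 1 : ℕ) : ℝ)) - ee (Θ / n)) +
        Complex.I * (2 * Real.pi * Θ : ℝ) * ee (Θ / n) = (u n : ℂ) * ee (Θ / n) *
          (ee (-(Θ / u n)) - 1 - Complex.I * (2 * Real.pi * -(Θ / u n) : ℝ)) := by
      have : (u n : ℂ) ≠ 0 := by exact_mod_cast hu0.ne'
      rw [e1, ee_add]
      push_cast
      field_simp
      ring
    rw [e2, norm_mul, norm_mul, norm_ee, mul_one, Complex.norm_real, Real.norm_of_nonneg hu0.le]
    refine (mul_le_mul_of_nonneg_left (expo _) hu0.le).trans ?_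
    have e3 : u n * (2 * (2 * Real.pi * -(Θ / u n)) ^ 2) = 2 * (2 * Real.pi * Θ) ^ 2 / u n := by
      field_simp
    rw [e3]
    exact div_le_div_of_nonneg_left (by positivity) hP2 hs
  have h4 := (norm_sum_le _ _).trans (sum_le_card_nsmul _ _ _ h3)
  rw [sum_add_distrib, ← mul_sum, Nat.card_Ioc, nsmul_eq_mul, Nat.cast_sub hab] at h4
  have h5 := (norm_le_add_norm_add' _ _).trans (add_le_add h4 h2)
  rw [norm_mul, norm_mul, Complex.norm_I, one_mul, Complex.norm_real, Real.norm_eq_abs, abs_mul,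
    abs_of_pos (by positivity : 0 < 2 * Real.pi), mul_pow, ← sq_abs Θ] at h5
  have h6 : u b ≤ 6 * P ^ 2 := by
    simp only [hu]
    nlinarith [Nat.cast_nonneg (α := ℝ) b]
  have hba : (0 : ℝ) ≤ (b : ℝ) - a := sub_nonneg.2 (by exact_mod_cast hab)
  refine le_of_mul_le_mul_left (h5.trans ?_) (by positivity : 0 < 2 * Real.pi * |Θ|)
  have e4 : 2 * Real.pi * |Θ| * (2 * (P ^ 2 / |Θ|) + 13 * (((b : ℝ) - a) * |Θ| / P ^ 2)) =
      4 * Real.pi * P ^ 2 + 26 * Real.pi * (((b : ℝ) - a) * |Θ| ^ 2 / P ^ 2) := by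
    field_simp
    ring
  have e5 : ((b : ℝ) - a) * (2 * ((2 * Real.pi) ^ 2 * |Θ| ^ 2) / P ^ 2) =
      8 * Real.pi * Real.pi * (((b : ℝ) - a) * |Θ| ^ 2 / P ^ 2) := by ring
  rw [e4, e5]
  have h7 : 0 ≤ ((b : ℝ) - a) * |Θ| ^ 2 / P ^ 2 := by positivity
  have h8 : 8 * Real.pi * Real.pi ≤ 26 * Real.pi := by nlinarith
  have := mul_le_mul_of_nonneg_right h8 h7
  nlinarith

lemma sum_zmod (m : ℕ) [NeZero m] (F : ZMod m → ℂ) :
    ∑ n ∈ range m, F (n : ZMod m) = ∑ x : ZMod m, F x :=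
  sum_nbij' (fun n => (n : ZMod m)) ZMod.val (fun _ _ => mem_univ _)
    (fun x _ => mem_range.2 (ZMod.val_lt x)) (fun _ hn => ZMod.val_cast_of_lt (mem_range.1 hn))
    (fun x _ => ZMod.natCast_zmod_val x) fun _ _ => rfl

lemma ch_mul (m : ℕ) [NeZero m] (κ : ℤ) (n : ℕ) :
    ch m ((n : ZMod m) * κ) = ee ((n : ℝ) * κ / m) := by
  have := ch_int m (n * κ)
  push_cast at this
  exact this

lemma geo (κ : ℤ) {e : ℕ} (he : 0 < e) :
    ‖∑ y ∈ range e, ee ((y : ℝ) * κ / e)‖ ≤ if (e : ℤ) ∣ κ then (e : ℝ) else 0 := by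
  have : NeZero e := ⟨he.ne'⟩
  have h := AddChar.sum_mulShift (ψ := ch e) (κ : ZMod e) (ZMod.isPrimitive_stdAddChar e)
  rw [← sum_zmod e fun x => ch e (x * κ)] at h
  simp only [ch_mul, ZMod.intCast_zmod_eq_zero_iff_dvd, ZMod.card] at h
  rw [h]
  split_ifs <;> simp

lemma ind (n : ℕ) {m : ℕ} (hm : 0 < m) :
    ∑ d ∈ m.divisors, (if d ∣ n then (ArithmeticFunction.moebius d : ℂ) else 0) =
      if Nat.Coprime n m then 1 else 0 := by
  have h := ArithmeticFunction.coe_mul_zeta_apply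
    (f := (ArithmeticFunction.moebius : ArithmeticFunction ℂ)) (x := Nat.gcd n m)
  rw [ArithmeticFunction.coe_moebius_mul_coe_zeta, ArithmeticFunction.one_apply] at h
  rw [← sum_filter]
  refine Eq.trans (sum_congr ?_ fun _ _ => rfl) h.symm
  ext d
  have := (Nat.gcd_pos_of_pos_right n hm).ne'
  simp only [mem_filter, Nat.mem_divisors, Nat.dvd_gcd_iff]
  have := hm.ne'
  tauto

lemma sub (κ : ℤ) {d e : ℕ} (hd : 0 < d) :
    ∑ n ∈ range (d * e), (if d ∣ n then ee ((n : ℝ) * κ / (d * e : ℕ)) else 0) =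
      ∑ y ∈ range e, ee ((y : ℝ) * κ / e) := by
  rw [← sum_filter]
  symm
  refine sum_nbij' (fun y => d * y) (fun n => n / d) (fun y hy => ?_) (fun n hn => ?_)
    (fun y _ => Nat.mul_div_cancel_left y hd) (fun n hn => Nat.mul_div_cancel' (mem_filter.1 hn).2)
    fun y _ => ?_
  · exact mem_filter.2 ⟨mem_range.2 (Nat.mul_lt_mul_of_pos_left (mem_range.1 hy) hd), dvd_mul_right _ _⟩
  · exact mem_range.2 (Nat.div_lt_of_lt_mul (mem_range.1 (mem_filter.1 hn).1))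
  · have : (d : ℝ) ≠ 0 := by exact_mod_cast hd.ne'
    push_cast
    rw [mul_assoc, mul_div_mul_left _ _ this]

lemma sigma_le {g : ℕ} (hg : 0 < g) : ∑ e ∈ g.divisors, (e : ℝ) ≤ g * (1 + Real.log g) := by
  rw [← Nat.sum_div_divisors g fun e => (e : ℝ)]
  have h := harmonic_le_one_add_log g
  rw [harmonic_eq_sum_Icc] at h
  push_cast at h
  refine le_trans ?_ (mul_le_mul_of_nonneg_left h (Nat.cast_nonneg g))
  rw [mul_sum]
  refine (sum_le_sum fun e _ => ?_).trans (sum_le_sum_of_subset_of_nonneg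
    (fun e he => mem_Icc.2 ⟨Nat.pos_of_mem_divisors he, Nat.divisor_le he⟩)
    fun _ _ _ => by positivity)
  rw [← div_eq_mul_inv]
  exact Nat.cast_div_le

lemma ram (m : ℕ) [NeZero m] (κ : ℤ) :
    ‖∑ x : ZMod m, (if IsUnit x then ch m (x⁻¹ * κ) else 0)‖ ≤
      (Int.gcd κ m : ℝ) * (1 + Real.log m) := by
  have hm : 0 < m := Nat.pos_of_ne_zero (NeZero.ne m)
  have hi : ∀ x : ZMod m, IsUnit x → IsUnit x⁻¹ := fun x hx =>
    IsUnit.of_mul_eq_one x (ZMod.inv_mul_of_unit x hx)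
  have hii : ∀ x : ZMod m, IsUnit x → x⁻¹⁻¹ = x := fun x hx =>
    ZMod.inv_eq_of_mul_eq_one m _ _ (ZMod.inv_mul_of_unit x hx)
  have e1 : ∑ x : ZMod m, (if IsUnit x then ch m (x⁻¹ * κ) else 0) =
      ∑ x : ZMod m, (if IsUnit x then ch m (x * κ) else 0) := by
    rw [← sum_filter, ← sum_filter]
    exact sum_nbij' (fun x => x⁻¹) (fun x => x⁻¹)
      (fun x hx => mem_filter.2 ⟨mem_univ _, hi x (mem_filter.1 hx).2⟩)
      (fun x hx => mem_filter.2 ⟨mem_univ _, hi x (mem_filter.1 hx).2⟩)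
      (fun x hx => hii x (mem_filter.1 hx).2) (fun x hx => hii x (mem_filter.1 hx).2) fun _ _ => rfl
  have e2 : ∑ x : ZMod m, (if IsUnit x then ch m (x * κ) else 0) =
      ∑ d ∈ m.divisors, (ArithmeticFunction.moebius d : ℂ) *
        ∑ n ∈ range m, (if d ∣ n then ee ((n : ℝ) * κ / m) else 0) := by
    rw [← sum_zmod m fun x => if IsUnit x then ch m (x * κ) else 0]
    simp only [mul_sum]
    rw [sum_comm]
    refine sum_congr rfl fun n _ => ?_
    have := congrArg (· * ee ((n : ℝ) * κ / m)) (ind n hm)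
    simp only [sum_mul, ite_mul, one_mul, zero_mul] at this
    simp only [ZMod.isUnit_iff_coprime, ch_mul, mul_ite, mul_zero]
    convert this.symm
  rw [e1, e2]
  have e3 : ∀ d ∈ m.divisors, ‖(ArithmeticFunction.moebius d : ℂ) *
      ∑ n ∈ range m, (if d ∣ n then ee ((n : ℝ) * κ / m) else 0)‖ ≤
        if ((m / d : ℕ) : ℤ) ∣ κ then ((m / d : ℕ) : ℝ) else 0 := by
    intro d hd
    have hd0 := Nat.pos_of_mem_divisors hd
    obtain ⟨e, he⟩ := Nat.dvd_of_mem_divisors hd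
    have he0 : 0 < e := Nat.pos_of_mul_pos_left (he ▸ hm)
    have h1 : ‖(ArithmeticFunction.moebius d : ℂ)‖ ≤ 1 := by
      rw [Complex.norm_intCast]
      exact_mod_cast ArithmeticFunction.abs_moebius_le_one
    rw [norm_mul, he, sub κ hd0, Nat.mul_div_cancel_left e hd0]
    exact (mul_le_of_le_one_left (norm_nonneg _) h1).trans (geo κ he0)
  refine (norm_sum_le _ _).trans ((sum_le_sum e3).trans ?_)
  rw [Nat.sum_div_divisors m fun e => if (e : ℤ) ∣ κ then (e : ℝ) else 0, ← sum_filter]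
  have hg : 0 < Int.gcd κ m := Int.gcd_pos_of_ne_zero_right κ (by exact_mod_cast hm.ne')
  have hgm : Int.gcd κ m ≤ m :=
    Nat.le_of_dvd hm (by exact_mod_cast Int.gcd_dvd_right κ (m : ℤ))
  refine (sum_le_sum_of_subset_of_nonneg (t := (Int.gcd κ m).divisors) (fun e he => ?_)
    fun _ _ _ => Nat.cast_nonneg _).trans ((sigma_le hg).trans ?_)
  · have h1 := mem_filter.1 he
    exact Nat.mem_divisors.2 ⟨Int.dvd_gcd h1.2
      (by exact_mod_cast Nat.dvd_of_mem_divisors h1.1), hg.ne'⟩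
  · have := log_nat_mono hgm
    gcongr

end KS

open Hyb in
theorem pKS : S_KS := by
  refine ⟨26, by norm_num, fun m a b κ Θ P z hm hP ha hab hb hz => ?_⟩
  have : NeZero m := ⟨hm.ne'⟩
  have hpi := Real.pi_pos
  have hpi' := Real.pi_lt_d2
  have hm1 : (1 : ℝ) ≤ m := by exact_mod_cast hm
  have hm0 : (0 : ℝ) < m := by linarith
  have hP2 : 0 < P ^ 2 := by positivity
  have hba : (0 : ℝ) ≤ (b : ℝ) - a := sub_nonneg.2 (by exact_mod_cast hab)
  set F : ZMod m → ℂ := fun x => if IsUnit x then ch m (x⁻¹ * κ) else 0 with hF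
  set c : ℂ := ∑ x : ZMod m, F x with hc
  have hF1 : ∀ x, ‖F x‖ ≤ 1 := fun x => by
    simp only [hF]
    split_ifs
    · exact (AddChar.norm_apply _ _).le
    · simp
  have hc1 : ‖c / m‖ ≤ 1 := by
    rw [norm_div, Complex.norm_natCast, div_le_one hm0]
    refine (norm_sum_le _ _).trans ((sum_le_card_nsmul _ _ 1 fun x _ => hF1 x).trans ?_)
    rw [card_univ, ZMod.card, nsmul_eq_mul, mul_one]
  have hc2 : ‖c / m‖ ≤ (Int.gcd κ m : ℝ) / m * (1 + Real.log m) := by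
    rw [norm_div, Complex.norm_natCast, div_mul_eq_mul_div]
    exact div_le_div_of_nonneg_right (KS.ram m κ) hm0.le
  have e1 : ∑ n ∈ (Ioc a b).filter (fun n => Nat.Coprime n m), ee ((z n : ℝ) / m + Θ / n) =
      ∑ n ∈ Ioc a b, (F n - c / m) * ee (Θ / n) + c / m * ∑ n ∈ Ioc a b, ee (Θ / n) := by
    rw [sum_filter, mul_sum, ← sum_add_distrib]
    refine sum_congr rfl fun n _ => ?_
    rw [← add_mul, sub_add_cancel]
    simp only [hF, ZMod.isUnit_iff_coprime]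
    split_ifs with h
    · have h1 : (((n : ℤ) * z n - κ : ℤ) : ZMod m) = 0 :=
        (ZMod.intCast_zmod_eq_zero_iff_dvd _ _).2 (hz n h)
      push_cast at h1
      have h2 := ZMod.inv_mul_of_unit (n : ZMod m) ((ZMod.isUnit_iff_coprime n m).2 h)
      have h3 : (n : ZMod m)⁻¹ * κ = (z n : ZMod m) := by
        linear_combination (z n : ZMod m) * h2 - (n : ZMod m)⁻¹ * h1
      rw [h3, ch_int, ee_add]
    · rw [zero_mul]
  have hg : ∀ t, ‖∑ n ∈ Ioc a t, (F n - c / m)‖ ≤ 2 * m := by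
    refine KS.part hm (fun n => (norm_sub_le _ _).trans (by linarith [hF1 n])) (fun s => ?_) a
    rw [KS.window' (f := fun n => F n - c / m) (fun n => by simp), sum_sub_distrib, KS.sum_zmod,
      sum_const, card_range, nsmul_eq_mul, ← hc, mul_div_cancel₀, sub_self]
    exact_mod_cast hm.ne'
  have hw : ∀ n : ℕ, a < n → ‖ee (Θ / n) - ee (Θ / ((n + 1 : ℕ) : ℝ))‖ ≤
      2 * Real.pi * (|Θ| / P ^ 2) := fun n hn => by
    refine (norm_ee_sub _ _).trans (mul_le_mul_of_nonneg_left ?_ (by positivity))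
    have hs := KS.sq_le hP ha hn
    rw [KS.step (by omega), abs_div, abs_of_pos (hP2.trans_le hs)]
    exact div_le_div_of_nonneg_left (abs_nonneg _) hP2 hs
  have h1 := KS.abel1 (w := fun n => ee (Θ / n)) hg hw b hab
  set R := ((b : ℝ) - a) * m * |Θ| / P ^ 2 with hR
  have hR0 : 0 ≤ R := by positivity
  have h2 : ‖∑ n ∈ Ioc a b, (F n - c / m) * ee (Θ / n)‖ ≤ 2 * m + 13 * R := by
    have h3 := norm_sub_norm_le (∑ n ∈ Ioc a b, (F n - c / m) * ee (Θ / n))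
      ((∑ n ∈ Ioc a b, (F n - c / m)) * ee (Θ / ((b + 1 : ℕ) : ℝ)))
    rw [norm_mul, norm_ee, mul_one] at h3
    have e2 : 2 * m * (2 * Real.pi * (|Θ| / P ^ 2)) * ((b : ℝ) - a) = 4 * Real.pi * R := by
      rw [hR]; ring
    rw [e2] at h1
    have := mul_le_mul_of_nonneg_right (by linarith : 4 * Real.pi ≤ 13) hR0
    linarith [hg b]
  rw [e1]
  refine ⟨(norm_add_le _ _).trans ?_, fun hΘ => (norm_add_le _ _).trans ?_⟩
  · have h3 : ‖∑ n ∈ Ioc a b, ee (Θ / n)‖ ≤ (b : ℝ) - a := by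
      refine (norm_sum_le _ _).trans ((sum_le_card_nsmul _ _ 1 fun n _ => (norm_ee _).le).trans ?_)
      rw [Nat.card_Ioc, nsmul_eq_mul, mul_one, Nat.cast_sub hab]
    have h4 := mul_le_mul hc2 h3 (norm_nonneg _) ((norm_nonneg _).trans hc2)
    have h5 := mul_nonneg ((norm_nonneg _).trans hc2) hba
    rw [norm_mul]
    linarith
  · have h3 := KS.sumw hP ha hab hb hΘ
    have h4 := mul_le_of_le_one_left (norm_nonneg (∑ n ∈ Ioc a b, ee (Θ / n))) hc1
    have h5 : ((b : ℝ) - a) * |Θ| / P ^ 2 ≤ R := by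
      rw [hR]
      gcongr
      exact le_mul_of_one_le_right hba hm1
    have h6 : 0 ≤ P ^ 2 / |Θ| := by positivity
    rw [norm_mul]
    linarith

end Pool.Agent.P.MP_26a8c3_nt.EC
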