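import Pool.Agent.P.MP_26a8c3_nt.EC.Base
import Pool.Agent.P.MP_26a8c3_nt.Selberg

/-! The weights of the Selberg sieve on a down-closed family. -/

namespace Pool.Agent.P.MP_26a8c3_nt.EC

open Finset
open scoped Classical

namespace Lam

lemma two_le {U : Finset ℕ} (hU : ∀ p ∈ U, p.Prime) {p : ℕ} (hp : p ∈ U) : (2 : ℝ) ≤ p := by
  exact_mod_cast (hU p hp).two_le

lemma gg_pos {U : Finset ℕ} (hU : ∀ p ∈ U, p.Prime) : 0 < gg U :=
  prod_pos fun p hp => inv_pos.2 (by linarith [two_le hU hp])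

lemma pv_gg {S : Finset ℕ} (hS : ∀ p ∈ S, p.Prime) : (pv S : ℝ) * gg S ≤ 2 ^ S.card := by
  rw [pv, gg, Nat.cast_prod, ← prod_mul_distrib, ← prod_const]
  refine prod_le_prod (fun p hp => ?_) fun p hp => ?_
  · have := two_le hS hp
    exact mul_nonneg (by linarith) (inv_nonneg.2 (by linarith))
  · have := two_le hS hp
    rw [← div_eq_mul_inv, div_le_iff₀ (by linarith)]
    linarith

lemma swap {𝓛 : Finset (Finset ℕ)} (hd : ∀ U ∈ 𝓛, ∀ S ⊆ U, S ∈ 𝓛) (F : Finset ℕ → Finset ℕ → ℝ) :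
    ∑ S ∈ 𝓛, ∑ U ∈ 𝓛.filter (S ⊆ ·), F S U = ∑ U ∈ 𝓛, ∑ S ∈ U.powerset, F S U :=
  sum_comm' fun S U => by
    simp only [mem_filter, mem_powerset]
    exact ⟨fun h => ⟨h.2.2, h.2.1⟩, fun h => ⟨hd U h.2 S h.1, h.2, h.1⟩⟩

end Lam

open Lam in
theorem pLam : S_Lam := by
  intro 𝓛 hp h0 hd
  have hG : 0 < ∑ U ∈ 𝓛, gg U := sum_pos (fun U hU => gg_pos (hp U hU)) ⟨_, h0⟩
  refine ⟨fun S => (-1) ^ S.card * pv S / (∑ U ∈ 𝓛, gg U) * ∑ U ∈ 𝓛.filter (S ⊆ ·), gg U, ?_,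
    fun S => ?_, ?_⟩
  · simp [pv, hG.ne']
  · by_cases hS : S ∈ 𝓛
    swap
    · beta_reduce
      rw [filter_false_of_mem (p := (S ⊆ ·)) fun U hU h => hS (hd U hU S h)]
      simp
    have h1 : ∑ U ∈ 𝓛.filter (S ⊆ ·), gg U ≤ gg S * ∑ U ∈ 𝓛, gg U := by
      have e : ∑ U ∈ 𝓛.filter (S ⊆ ·), gg U = gg S * ∑ U ∈ 𝓛.filter (S ⊆ ·), gg (U \ S) := by
        rw [mul_sum]
        refine sum_congr rfl fun U hU => ?_
        rw [gg, ← prod_sdiff (mem_filter.1 hU).2, mul_comm]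
        rfl
      rw [e]
      refine mul_le_mul_of_nonneg_left ?_ (gg_pos (hp S hS)).le
      rw [← sum_image (f := gg) (g := fun U => U \ S) fun U hU V hV h => by
        rw [← sdiff_union_of_subset (mem_filter.1 hU).2, ← sdiff_union_of_subset (mem_filter.1 hV).2]
        exact congrArg (· ∪ S) h]
      refine sum_le_sum_of_subset_of_nonneg (fun W hW => ?_) fun U hU _ => (gg_pos (hp U hU)).le
      obtain ⟨U, hU, rfl⟩ := mem_image.1 hW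
      exact hd U (mem_filter.1 hU).1 _ sdiff_subset
    have h2 : 0 ≤ ∑ U ∈ 𝓛.filter (S ⊆ ·), gg U :=
      sum_nonneg fun U hU => (gg_pos (hp U (mem_filter.1 hU).1)).le
    rw [abs_mul, abs_div, abs_mul, abs_pow, abs_neg, abs_one, one_pow, one_mul, Nat.abs_cast,
      abs_of_pos hG, abs_of_nonneg h2]
    refine (mul_le_mul_of_nonneg_left h1 (by positivity)).trans ?_
    rw [mul_comm (gg S), ← mul_assoc, div_mul_cancel₀ _ hG.ne']
    exact pv_gg (hp S hS)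
  · generalize hG' : ∑ U ∈ 𝓛, gg U = G at hG ⊢
    have e1 : ∀ S ∈ 𝓛, ∀ T ∈ 𝓛, ((-1) ^ S.card * pv S / G * ∑ U ∈ 𝓛.filter (S ⊆ ·), gg U) *
        ((-1) ^ T.card * pv T / G * ∑ U ∈ 𝓛.filter (T ⊆ ·), gg U) / (pv (S ∪ T) : ℝ) =
        ∑ U ∈ 𝓛.filter (S ⊆ ·), ∑ V ∈ 𝓛.filter (T ⊆ ·), gg U * gg V / G ^ 2 *
          ((-1 : ℝ) ^ S.card * (-1) ^ T.card * ∏ p ∈ S ∩ T, (p : ℝ)) := by
      intro S hS T hT
      have a1 : (pv S : ℝ) * pv T = pv (S ∪ T) * ∏ p ∈ S ∩ T, (p : ℝ) := by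
        simp only [pv, Nat.cast_prod]
        exact prod_union_inter.symm
      have a2 : (pv (S ∪ T) : ℝ) ≠ 0 := by
        exact_mod_cast (pv_pos fun p h => (mem_union.1 h).elim (hp S hS p) (hp T hT p)).ne'
      simp_rw [← sum_mul, ← sum_div]
      rw [← sum_mul_sum]
      field_simp
      linear_combination (∑ U ∈ 𝓛.filter (S ⊆ ·), gg U) * (∑ U ∈ 𝓛.filter (T ⊆ ·), gg U) * a1
    rw [sum_congr rfl fun S hS => sum_congr rfl fun T hT => e1 S hS T hT]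
    simp_rw [sum_comm (s := 𝓛) (t := 𝓛.filter _), swap hd]
    have e2 : ∀ U ∈ 𝓛, ∑ S ∈ U.powerset, ∑ V ∈ 𝓛, ∑ T ∈ V.powerset, gg U * gg V / G ^ 2 *
        ((-1 : ℝ) ^ S.card * (-1) ^ T.card * ∏ p ∈ S ∩ T, (p : ℝ)) = gg U / G ^ 2 := by
      intro U hU
      rw [sum_comm]
      simp_rw [← mul_sum, orth, mul_ite, mul_zero]
      rw [sum_ite_eq, if_pos hU]
      have : gg U * ∏ p ∈ U, ((p : ℝ) - 1) = 1 := by
        rw [gg, ← prod_mul_distrib]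
        exact prod_eq_one fun p h => inv_mul_cancel₀ (by linarith [two_le (hp U hU) h])
      linear_combination gg U / G ^ 2 * this
    rw [sum_congr rfl e2, ← sum_div, hG']
    field_simp

end Pool.Agent.P.MP_26a8c3_nt.EC
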