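import Pool.Agent.P.MP_26a8c3_nt.EC.Col

/-! There are few popular points. -/

namespace Pool.Agent.P.MP_26a8c3_nt.EC

open Finset Filter
open scoped Classical

namespace Lst

lemma rc_le {P : Finset ℕ} {n : ℕ} (h : P ⊆ Icc 1 n) : rc P ≤ 1 + Real.log n := by
  refine (rc_mono h).trans ?_
  have := harmonic_le_one_add_log n
  rwa [harmonic_eq_sum_Icc, Rat.cast_sum, sum_congr rfl fun i _ => by
    rw [Rat.cast_inv, Rat.cast_natCast]] at this

/-- Cauchy-Schwarz for a family of subsets. -/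
lemma csw {α : Type} (X : Finset α) (P : Finset ℕ) (r : ℕ → α → Prop)
    [∀ p x, Decidable (r p x)] :
    (∑ x ∈ X, rc (P.filter (r · x))) ^ 2 ≤
      rc P * ∑ x ∈ X, ∑ x' ∈ X, rc (P.filter fun p => r p x ∧ r p x') := by
  have e1 : ∑ x ∈ X, rc (P.filter (r · x)) =
      ∑ p ∈ P, √(p : ℝ)⁻¹ * (√(p : ℝ)⁻¹ * ∑ x ∈ X, if r p x then 1 else 0) := by
    simp only [rc, sum_filter]
    rw [sum_comm]
    refine sum_congr rfl fun p _ => ?_
    rw [← mul_assoc, Real.mul_self_sqrt (by positivity), mul_sum]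
    exact sum_congr rfl fun x _ => by split_ifs <;> simp
  rw [e1]
  refine (sum_mul_sq_le_sq_mul_sq _ _ _).trans (le_of_eq ?_)
  congr 1
  · exact sum_congr rfl fun p _ => Real.sq_sqrt (by positivity)
  · simp only [rc, sum_filter]
    rw [sum_congr rfl fun x _ => sum_comm, sum_comm]
    refine sum_congr rfl fun p _ => ?_
    rw [mul_pow, Real.sq_sqrt (by positivity), sq, sum_mul_sum, mul_sum]
    refine sum_congr rfl fun x _ => ?_
    rw [mul_sum]
    refine sum_congr rfl fun x' _ => ?_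
    by_cases a : r p x <;> by_cases b : r p x' <;> simp [a, b]

end Lst

open Lst in
theorem pList : S_List := by
  intro B th hth
  have h := (Real.isLittleO_log_id_atTop.bound (show 0 < 1 / (2 * (|B| + 1)) by positivity)).and
    (eventually_ge_atTop 2)
  obtain ⟨Λ0, h0⟩ := eventually_atTop.1 h
  refine ⟨Λ0, fun u A Λ L X a1 hL a2 a3 hX => ?_⟩
  obtain ⟨b1, b2⟩ := h0 Λ a1
  have hL0 : 0 < L := by linarith
  have hlog : 0 ≤ Real.log Λ := Real.log_nonneg (by linarith)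
  rw [Real.norm_of_nonneg hlog, id, Real.norm_of_nonneg (by linarith)] at b1
  set P := (PPs u L).filter fun p : ℕ => L ^ (20 * th) ≤ (p : ℝ) with hP
  have c1 : rc P ≤ Λ := by
    have d1 : P ⊆ Icc 1 ⌊L⌋₊ := fun p hp => by
      obtain ⟨e1, -, e2⟩ := (mem_PPs hL0.le).1 (mem_filter.1 hp).1
      exact mem_Icc.2 ⟨e1.pos, Nat.le_floor (e2.trans (Real.rpow_le_self_of_one_le hL (by norm_num)))⟩
    have d2 : Real.log (⌊L⌋₊ : ℝ) ≤ B * Real.log Λ := by
      rw [← Real.log_rpow (by linarith)]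
      exact Real.log_le_log (by exact_mod_cast Nat.floor_pos.2 hL) ((Nat.floor_le hL0.le).trans a3)
    have d3 : B * Real.log Λ ≤ (|B| + 1) * (1 / (2 * (|B| + 1)) * Λ) :=
      mul_le_mul (by linarith [le_abs_self B]) b1 hlog (by positivity)
    have d4 : (|B| + 1) * (1 / (2 * (|B| + 1)) * Λ) = Λ / 2 := by field_simp
    linarith [rc_le d1]
  have k := csw X P fun p x => (p : ℤ) ∣ x.2 * A - x.1
  obtain ⟨w, hw⟩ : ∃ w, w = L ^ th := ⟨_, rfl⟩
  have hw0 : 0 < w := by rw [hw]; positivity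
  have pw : ∀ n : ℕ, L ^ ((n : ℝ) * th) = w ^ n := fun n => by
    rw [hw, mul_comm, Real.rpow_mul hL0.le, Real.rpow_natCast]
  have p20 := pw 20
  have p8 := pw 8
  have p7 := pw 7
  push_cast at p20 p8 p7
  rw [← hw] at a2
  have c2 : ∀ x ∈ X, (w ^ 7)⁻¹ ≤ rc (P.filter fun p : ℕ => (p : ℤ) ∣ x.2 * A - x.1) := fun x hx => by
    have := (hX x hx).2.2.2.2
    rwa [Real.rpow_neg hL0.le, p7, ag, ← filter_filter] at this
  have c3 : ∀ x ∈ X, ∑ x' ∈ X, rc (P.filter fun p : ℕ =>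
      (p : ℤ) ∣ x.2 * A - x.1 ∧ (p : ℤ) ∣ x'.2 * A - x'.1) ≤
      rc (P.filter fun p : ℕ => (p : ℤ) ∣ x.2 * A - x.1) + X.card * (18 * Λ * (w ^ 20)⁻¹) := by
    intro x hx
    rw [← add_sum_erase _ _ hx]
    refine add_le_add (by simp) ((sum_le_card_nsmul _ _ (18 * Λ * (w ^ 20)⁻¹) fun x' hx' => ?_).trans ?_)
    · refine (sum_le_card_nsmul _ _ (w ^ 20)⁻¹ fun p hp => ?_).trans ?_
      · exact inv_anti₀ (by positivity) (p20 ▸ (mem_filter.1 (mem_filter.1 hp).1).2)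
      · rw [nsmul_eq_mul]
        refine mul_le_mul_of_nonneg_right (Col.common (by linarith) (hX x hx)
          (hX x' (mem_of_mem_erase hx')) (ne_of_mem_erase hx').symm _ fun p hp => ?_) (by positivity)
        exact ⟨PPs_prime p (mem_filter.1 (mem_filter.1 hp).1).1, (mem_filter.1 hp).2⟩
    · rw [nsmul_eq_mul]
      exact mul_le_mul_of_nonneg_right (Nat.cast_le.2 (card_erase_le)) (by positivity)
  have c4 := sum_le_sum c3
  have c5 := card_nsmul_le_sum _ _ _ c2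
  rw [sum_add_distrib, sum_const, nsmul_eq_mul] at c4
  rw [nsmul_eq_mul] at c5
  have c6 := k.trans (mul_le_mul c1 c4
    (sum_nonneg fun _ _ => sum_nonneg fun _ _ => rc_nonneg _) (by linarith))
  rw [p8]
  generalize ∑ x ∈ X, rc (P.filter fun p : ℕ => (p : ℤ) ∣ x.2 * A - x.1) = σ at c5 c6
  have n0 : (0 : ℝ) ≤ X.card := Nat.cast_nonneg _
  generalize (X.card : ℝ) = n at c5 c6 n0
  rw [← div_eq_mul_inv, div_le_iff₀ (by positivity)] at c5
  have l1 : Λ ^ 8 ≤ w := (pow_le_pow_right₀ (by linarith) (by norm_num)).trans a2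
  have l2 : 36 * Λ ^ 2 ≤ w := by
    have : 2 ^ 6 ≤ Λ ^ 6 := pow_le_pow_left₀ (by norm_num) b2 6
    nlinarith [sq_nonneg Λ]
  have l3 : 1 ≤ w := by nlinarith
  have s0 : 0 ≤ σ := by
    by_contra hs
    nlinarith [pow_pos hw0 7]
  have l4 : Λ * (n * (n * (18 * Λ * (w ^ 20)⁻¹))) ≤ σ ^ 2 / 2 := by
    have f1 : n * n ≤ (σ * w ^ 7) * (σ * w ^ 7) := mul_le_mul c5 c5 n0 (by positivity)
    have f2 : 36 * Λ ^ 2 * w ^ 14 ≤ w ^ 20 :=
      (mul_le_mul_of_nonneg_right (l2.trans (le_self_pow₀ l3 (by norm_num : 6 ≠ 0)))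
        (by positivity)).trans (le_of_eq (by ring))
    have f3 := mul_le_mul_of_nonneg_left f1 (show 0 ≤ 18 * Λ ^ 2 by positivity)
    have f4 := mul_le_mul_of_nonneg_left f2 (sq_nonneg σ)
    rw [show Λ * (n * (n * (18 * Λ * (w ^ 20)⁻¹))) = 18 * Λ ^ 2 * (n * n) / w ^ 20 by ring,
      div_le_iff₀ (by positivity)]
    nlinarith
  have l5 : σ ≤ 2 * Λ := by
    by_contra hs
    nlinarith
  have l6 : σ ≤ w := by nlinarith
  exact c5.trans ((mul_le_mul_of_nonneg_right l6 (by positivity)).trans (le_of_eq (by ring)))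

end Pool.Agent.P.MP_26a8c3_nt.EC
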