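import Pool.Agent.P.MP_26a8c3_nt.EC.Base
import Pool.Agent.P.MP_26a8c3_nt.Inf.Sv4

/-! From the sifted interval to primes in progressions. -/

namespace Pool.Agent.P.MP_26a8c3_nt.EC

open Finset Filter
open scoped Classical

namespace Main

lemma cop_split {W P N a b : ℕ} (hW : 0 < W) (hP : 0 < P) (hc : W.Coprime P) {Bd : ℝ}
    (h : ∀ A, (cop P A (A + N) : ℝ) ≤ Bd) (hab : b ≤ a + W * N) :
    (cop (W * P) a b : ℝ) ≤ W.totient * Bd := by
  rw [← Nat.filter_coprime_Ico_eq_totient W (a + 1), cop,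
    card_eq_sum_card_fiberwise (f := fun n => a + 1 + (n - (a + 1)) % W)
      (t := (Ico (a + 1) (a + 1 + W)).filter fun x => W.Coprime x), ← nsmul_eq_mul, Nat.cast_sum]
  · refine sum_le_card_nsmul _ _ _ fun c _ => ?_
    obtain ⟨m, hm⟩ := Nat.exists_mul_mod_eq_of_coprime c hc hP.ne'
    refine le_trans (Nat.cast_le.2 ?_) (h (m + P - 1))
    refine card_le_card_of_injOn (fun n => m + P + (n - (a + 1)) / W) (fun n hn => ?_) ?_
    · simp only [coe_filter, mem_filter, mem_Ioc, Set.mem_ofPred_eq] at hn ⊢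
      obtain ⟨⟨⟨h1, h2⟩, h3⟩, h4⟩ := hn
      have h5 : (n - (a + 1)) / W < N := Nat.div_lt_of_lt_mul (by omega)
      refine ⟨⟨(Nat.sub_lt (by omega) one_pos).trans_le (Nat.le_add_right _ _), by omega⟩, ?_⟩
      have h6 := Nat.mod_add_div (n - (a + 1)) W
      have h7 : W * (m + P + (n - (a + 1)) / W) ≡ n [MOD P] := by
        rw [mul_add, mul_add, show n = c + 0 + W * ((n - (a + 1)) / W) by omega]
        rw [show c + 0 + W * ((n - (a + 1)) / W) - (a + 1) = n - (a + 1) by omega]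
        exact (Nat.ModEq.add hm.2 (Nat.modEq_zero_iff_dvd.2 (dvd_mul_left P W))).add_right _
      exact Nat.Coprime.coprime_mul_left
        (h7.gcd_eq.trans (Nat.Coprime.coprime_mul_left_right h3) :)
    · intro n hn n' hn' he
      simp only [coe_filter, mem_filter, mem_Ioc, Set.mem_ofPred_eq] at hn hn' he
      have h6 := Nat.mod_add_div (n - (a + 1)) W
      have h7 := Nat.mod_add_div (n' - (a + 1)) W
      rw [Nat.add_left_cancel he] at h6
      omega
  · intro n hn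
    simp only [coe_filter, mem_Ioc, mem_Ico, Set.mem_ofPred_eq] at hn ⊢
    have h5 := Nat.mod_lt (n - (a + 1)) hW
    refine ⟨⟨by omega, by omega⟩, ?_⟩
    have h7 : a + 1 + (n - (a + 1)) % W ≡ n [MOD W] := by
      conv_rhs => rw [show n = a + 1 + (n - (a + 1)) by omega]
      exact (Nat.mod_modEq _ _).add_left _
    exact Nat.Coprime.symm (h7.gcd_eq.trans (Nat.Coprime.coprime_mul_right_right hn.2) :)

lemma totient_pv {d : Finset ℕ} (hd : ∀ p ∈ d, p.Prime) :
    ((pv d).totient : ℝ) = pv d * ∏ p ∈ d, (1 - (p : ℝ)⁻¹) := by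
  have h := congrArg (Rat.cast : ℚ → ℝ) (Nat.totient_eq_mul_prod_factors (pv d))
  rw [primeFactors_pv hd] at h
  push_cast at h
  exact h

lemma card_PR (a b : ℕ) : ((PR a b).card : ℝ) ≤ Real.exp b := by
  have h : PR a b ⊆ Ioc 0 ⌊Real.exp b⌋₊ := fun p hp => mem_Ioc.2 ⟨(mem_PR.1 hp).1.pos,
    Nat.le_floor ((le_exp_tau p).trans (Real.exp_le_exp.2 (by exact_mod_cast (mem_PR.1 hp).2.2)))⟩
  refine le_trans (Nat.cast_le.2 (card_le_card h)) ?_
  simpa using Nat.floor_le (Real.exp_pos _).le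

lemma ev (c K : ℝ) (hc : 0 ≤ c) : ∀ᶠ Y : ℝ in atTop, K ≤ Y ∧ K ≤ Real.log Y ∧
    K ≤ Real.log (Real.log Y) ∧ (c + 1) * Real.log (Real.log Y) ≤ Real.log Y ∧
    K ≤ Y ^ ((6 : ℕ) : ℝ)⁻¹ ∧ 3 * Real.log Y ≤ Y ^ ((6 : ℕ) : ℝ)⁻¹ := by
  have h1 := (isLittleO_log_rpow_atTop (show (0 : ℝ) < ((6 : ℕ) : ℝ)⁻¹ by norm_num)).bound
    (show (0 : ℝ) < 1 / 3 by norm_num)
  have h2 := Real.tendsto_log_atTop.eventually (Real.isLittleO_log_id_atTop.bound
    (show (0 : ℝ) < (c + 1)⁻¹ by positivity))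
  filter_upwards [h1, h2, eventually_ge_atTop K, eventually_ge_atTop 1,
    Real.tendsto_log_atTop.eventually_ge_atTop K,
    (Real.tendsto_log_atTop.comp Real.tendsto_log_atTop).eventually_ge_atTop K,
    (tendsto_rpow_atTop (show (0 : ℝ) < ((6 : ℕ) : ℝ)⁻¹ by norm_num)).eventually_ge_atTop K]
    with Y a1 a2 a3 a4 a5 a6 a7
  rw [Real.norm_eq_abs, Real.norm_of_nonneg (Real.rpow_nonneg (by linarith) _)] at a1
  rw [Real.norm_eq_abs, id, Real.norm_of_nonneg (Real.log_nonneg a4), le_inv_mul_iff₀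
    (by positivity)] at a2
  exact ⟨a3, a5, a6, (mul_le_mul_of_nonneg_left (le_abs_self _) (by positivity)).trans a2, a7,
    by linarith [le_abs_self (Real.log Y)]⟩

lemma last_num {s Λ E W : ℝ} (hs : 3 ≤ s) (h1 : 0 < Λ) (h2 : Λ + 1 ≤ s)
    (hW : 1 + W ≤ s) (hE : E ≤ s + 2 * s ^ 3) :
    E + 2 * (s ^ 6 + 1 + W) / (Λ + 1) < 2 * s ^ 6 / Λ := by
  have c1 : 2 * (s ^ 6 + 1 + W) / (Λ + 1) =
      2 * s ^ 6 / Λ - (2 * s ^ 6 - 2 * Λ * (1 + W)) / (Λ * (Λ + 1)) := by
    field_simp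
    ring
  have c2 : s + 2 * s ^ 3 < (2 * s ^ 6 - 2 * Λ * (1 + W)) / (Λ * (Λ + 1)) := by
    rw [lt_div_iff₀ (by positivity)]
    have b1 : Λ * (Λ + 1) ≤ s ^ 2 := by nlinarith
    have b2 : Λ * (1 + W) ≤ s ^ 2 := by nlinarith
    have b3 := mul_le_mul_of_nonneg_left b1 (show 0 ≤ s + 2 * s ^ 3 by positivity)
    have b4 : s ^ 2 ≤ s ^ 5 := pow_le_pow_right₀ (by linarith) (by norm_num)
    have b5 : s ^ 3 ≤ s ^ 5 := pow_le_pow_right₀ (by linarith) (by norm_num)
    have b6 := mul_le_mul_of_nonneg_right hs (show 0 ≤ s ^ 5 by positivity)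
    have b7 : 0 < s ^ 5 := by positivity
    nlinarith
  linarith

end Main

open Main in
theorem pMain (hMain0 : S_Main0) : S_Main := by
  obtain ⟨u, hu, h⟩ := hMain0
  intro C
  obtain ⟨N0, h0⟩ := h (|C| + 1)
  have hp : ∀ {a b : ℕ}, ∀ p ∈ PR a b, p.Prime := fun p hp => (mem_PR.1 hp).1
  have hW := pv_pos (hp (a := 0) (b := u - 1))
  have hφW := totient_pv (hp (a := 0) (b := u - 1))
  change _ = _ * V0 u at hφW
  set W := pv (PR 0 (u - 1)) with hWd
  have hW1 : (1 : ℝ) ≤ W := by exact_mod_cast hW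
  have hV : 0 < V0 u := pos_of_mul_pos_left (a := V0 u) (b := W)
    (by rw [mul_comm, ← hφW]; exact_mod_cast Nat.totient_pos.2 hW) (by linarith)
  have hlW := Real.log_nonneg hW1
  have hC := abs_nonneg C
  have hex := Real.exp_pos ((u - 1 : ℕ) : ℝ)
  have hN0 : (0 : ℝ) ≤ W * N0 := by positivity
  obtain ⟨t₀, ht⟩ := eventually_atTop.1 (ev |C|
    (W * N0 + 2 * Real.log W + W + |C| + Real.exp ((u - 1 : ℕ) : ℝ) + 3) hC)
  refine ⟨t₀, fun k l x y hk hy => ?_⟩
  obtain ⟨a1, a2, a3, a4, a5, a6⟩ := ht _ hy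
  obtain ⟨l', S, hS, hcard⟩ := Inf.exists_fin (k := k) hk l x y
  have hk' : (0 : ℝ) < k := by exact_mod_cast hk
  have hφ : (0 : ℝ) < k.totient := by exact_mod_cast Nat.totient_pos.2 hk
  have hy' : y = k * (y / k) := by field_simp
  generalize y / k = Y at *
  have hY : 0 < Y := by linarith
  obtain ⟨N, b1, b2⟩ : ∃ N : ℕ, Y + 1 < W * N ∧ (W : ℝ) * N ≤ Y + 1 + W := by
    refine ⟨⌊(Y + 1) / W⌋₊ + 1, ?_, ?_⟩
    · rw [← div_lt_iff₀' (by linarith)]
      push_cast
      exact Nat.lt_floor_add_one _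
    · have := (le_div_iff₀' (by linarith : (0 : ℝ) < W)).1
        (Nat.floor_le (show 0 ≤ (Y + 1) / W by positivity))
      push_cast
      linarith
  have b3 : N0 ≤ N := Nat.cast_le.1 (le_of_mul_le_mul_left
    (show (W : ℝ) * N0 ≤ W * N by linarith) (by linarith))
  have b4 : (0 : ℝ) < N := pos_of_mul_pos_left (a := (N : ℝ)) (b := W)
    (by rw [mul_comm]; linarith) (by linarith)
  have b5 : Real.log Y - Real.log W ≤ Real.log N := by
    have := Real.log_le_log hY (show Y ≤ W * N by linarith)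
    rw [Real.log_mul (by linarith) b4.ne'] at this
    linarith
  have b6 : Real.log (Real.log Y) - 1 ≤ Real.log (Real.log N) := by
    have := Real.log_le_log (by linarith) (show Real.log Y / 2 ≤ Real.log N by linarith)
    rw [Real.log_div (by linarith) two_ne_zero] at this
    linarith [Real.log_two_lt_d9]
  have b7 : Real.log Y + |C| * Real.log (Real.log Y) + 1 ≤
      Real.log N + (|C| + 1) * Real.log (Real.log N) := by nlinarith
  have b8 : 0 ≤ |C| * Real.log (Real.log Y) := mul_nonneg hC (by linarith)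
  have b9 : (N : ℝ) ≤ Y + 2 := by nlinarith
  have hd : Disjoint (PR 0 (u - 1)) (PR u (ZZ N)) := disjoint_left.2 fun p h1 h2 => by
    have := (mem_PR.1 h1).2.2
    have := (mem_PR.1 h2).2.1
    omega
  have hpu : ∀ p ∈ PR 0 (u - 1) ∪ PR u (ZZ N), p.Prime := fun p h1 =>
    (mem_union.1 h1).elim (hp p) (hp p)
  have c1 := gen_bound (y := y) hS hk (squarefree_pv hpu)
    (fun p h1 h2 => (prime_dvd_pv hpu h1).1 h2)
    (Bd := 2 * (Y + 1 + W) / (Real.log Y + |C| * Real.log (Real.log Y) + 1))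
    (fun a b hab h1 => by
      rw [pv_union hd]
      refine (cop_split hW (pv_pos hp) ((coprime_pv hp _).2 fun p h2 h3 =>
        disjoint_left.1 hd ((prime_dvd_pv hp (hp p h2)).1 h3) h2) (fun A => h0 N A b3) ?_).trans ?_
      · rw [hy', mul_div_cancel_left₀ _ hk'.ne'] at h1
        exact_mod_cast (show (b : ℝ) ≤ a + W * N by linarith)
      · rw [hφW]
        calc _ = 2 * (W * N) / (Real.log N + (|C| + 1) * Real.log (Real.log N)) := by
              field_simp
          _ ≤ _ := div_le_div₀ (by linarith) (by linarith) (by linarith) b7)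
    (div_nonneg (by linarith) (by linarith))
  have h4 := Real.rpow_inv_natCast_pow (x := Y) (n := 6) hY.le (by norm_num)
  generalize Y ^ ((6 : ℕ) : ℝ)⁻¹ = s at a5 a6 h4
  have hs : 3 ≤ s := by linarith
  have c2 : ((PR 0 (u - 1) ∪ PR u (ZZ N)).card : ℝ) ≤ s + 2 * s ^ 3 := by
    have d1 : Real.exp (ZZ N) ≤ 2 * s ^ 3 := by
      have d2 := Real.log_natCast_nonneg N
      have d3 : (ZZ N : ℝ) ≤ 2 / 5 * Real.log N := Nat.floor_le (by positivity)
      refine le_of_pow_le_pow_left₀ two_ne_zero (by positivity) ?_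
      rw [← Real.exp_nat_mul]
      refine (Real.exp_le_exp.2 (show _ ≤ Real.log N by push_cast; linarith)).trans ?_
      rw [Real.exp_log b4]
      nlinarith
    rw [card_union_of_disjoint hd, Nat.cast_add]
    linarith [card_PR 0 (u - 1), card_PR u (ZZ N)]
  have c3 := last_num (Λ := Real.log Y + |C| * Real.log (Real.log Y)) (W := W) hs (by linarith)
    (by linarith) (by linarith) c2
  rw [h4] at c3
  have c4 : 0 < Real.log Y + C * Real.log (Real.log Y) := by nlinarith [neg_abs_le C]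
  have c5 : 2 * Y / (Real.log Y + |C| * Real.log (Real.log Y)) ≤
      2 * Y / (Real.log Y + C * Real.log (Real.log Y)) :=
    div_le_div_of_nonneg_left (by linarith) c4 (by nlinarith [le_abs_self C])
  rw [hcard, mul_comm (k.totient : ℝ), ← div_div, lt_div_iff₀ hφ]
  refine c1.trans_lt ((mul_lt_mul_of_pos_left (c3.trans_le c5) hk').trans_le (le_of_eq ?_))
  rw [hy']
  ring

end Pool.Agent.P.MP_26a8c3_nt.EC
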