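import Pool.Agent.P.MP_26a8c3_nt.EC.Base

/-! The sieve bound in an interval with the gain `C log log`. -/

namespace Pool.Agent.P.MP_26a8c3_nt.EC

open Finset
open scoped Classical

namespace Main0

lemma num {M x : ℝ} (hM : 1 ≤ M) (hx : 6 * M ≤ x) : M * x ^ 2 ≤ Real.exp x := by
  have h := Real.pow_div_factorial_le_exp x (by linarith) 3
  have e : ((Nat.factorial 3 : ℕ) : ℝ) = 6 := by norm_num [Nat.factorial]
  rw [e] at h
  nlinarith [sq_nonneg x]

lemma mem_SG {Λ : ℝ} {u Z Δ μ : ℕ} {s : Finset ℕ} (h : s ∈ SG Λ u Z Δ μ) :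
    s ⊆ PR u Z ∧ tree Δ s ∧ Even s.card ∧ Δ ≤ ts s + 43 * μ ∧ ts s + 37 * μ ≤ Δ ∧
      (∀ p ∈ s, 28 * μ ≤ tau p) ∧ (∃ p ∈ s, tau p ≤ 30 * μ) ∧ (s.card : ℝ) ≤ 10 * Real.log Λ := by
  obtain ⟨h1, h2, -⟩ := mem_filter.1 h
  obtain ⟨h3, h4, h5, h6, h7, h8, h9⟩ := mem_filter.1 h1
  exact ⟨mem_powerset.1 h3, h4, h5, h6, h7, h8, h9, h2.1⟩

lemma anti {Λ : ℝ} {u Z Δ μ : ℕ} (hμ : 0 < μ) {s : Finset ℕ} (h : s ∈ SG Λ u Z Δ μ) (q : ℕ)
    (h' : up s q ∈ SG Λ u Z Δ μ) : up s q = s := by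
  by_contra hne
  obtain ⟨p, hp, hp'⟩ := exists_of_ssubset (ssubset_of_subset_of_ne (up_subset s q) hne)
  have h1 : ts (insert p (up s q)) ≤ ts s :=
    sum_le_sum_of_subset (insert_subset hp (up_subset s q))
  rw [ts_insert hp'] at h1
  have h2 := (mem_SG h).2.2.2.2.1
  have h3 := (mem_SG h').2.2.2.1
  have h4 := (mem_SG h).2.2.2.2.2.1 p hp
  omega

lemma gap {δ C y : ℝ} (hδ : 0 < δ) (hδ1 : δ ≤ 1) (hC : 0 < C) (hy : (8 + 4 * C) / δ ≤ y) :
    (2 - δ) / (y - 2) + δ / (2 * y) ≤ 2 / y * (1 - C / y) := by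
  rw [div_le_iff₀ hδ] at hy
  have h8 : 8 ≤ y := by nlinarith
  have h1 : 0 < y - 2 := by linarith
  have h2 : 0 < y := by linarith
  have e : 2 / y * (1 - C / y) - ((2 - δ) / (y - 2) + δ / (2 * y)) =
      (y * (y * δ - (8 + 4 * C)) + 8 * C + 2 * δ * y) / (2 * y ^ 2 * (y - 2)) := by
    field_simp
    ring
  rw [← sub_nonneg, e]
  have := mul_nonneg h2.le (sub_nonneg.2 hy)
  positivity

/-- The gain at one stopping node. -/
lemma term {δ C Y V m S : ℝ} (hδ : 0 < δ) (hδ1 : δ ≤ 1) (hC : 0 < C) (hV : 0 < V) (hY : 0 < Y)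
    (hy : (8 + 4 * C) / δ ≤ Real.log Y) (hm : Real.log Y ≤ 44 * m)
    (h : 2 * Real.log 2 * Y / Real.log Y * (1 - C / Real.log Y) ≤ S) :
    (2 - δ) * Y / (V * (Real.log Y - 2)) + δ / (88 * V * m) * Y ≤ (V * Real.log 2)⁻¹ * S := by
  have h2 : 0 < Real.log 2 := Real.log_pos one_lt_two
  have h0 : 0 < Real.log Y := lt_of_lt_of_le (by positivity) hy
  have h1 := gap hδ hδ1 hC hy
  generalize Real.log Y = y at *
  have hm0 : 0 < m := by linarith
  have h3 : δ / (88 * m) ≤ δ / (2 * y) :=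
    div_le_div_of_nonneg_left hδ.le (by linarith) (by linarith)
  calc (2 - δ) * Y / (V * (y - 2)) + δ / (88 * V * m) * Y
      = Y / V * ((2 - δ) / (y - 2) + δ / (88 * m)) := by
        rw [mul_add, div_mul_div_comm, mul_comm Y]
        congr 1
        field_simp
    _ ≤ Y / V * (2 / y * (1 - C / y)) :=
        mul_le_mul_of_nonneg_left (by linarith) (by positivity)
    _ = (V * Real.log 2)⁻¹ * (2 * Real.log 2 * Y / y * (1 - C / y)) := by field_simp
    _ ≤ _ := mul_le_mul_of_nonneg_left h (by positivity)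

lemma fin {N V Λ x C C1 C2 C3 G a b r g : ℝ} (hN : 0 < N) (hV : 0 < V) (hV1 : V ≤ 1) (hx : 1 ≤ x)
    (hΛ : (|C| + 1) * x ≤ Λ) (h1 : 0 < C1) (h2 : 0 < C2) (h3 : 0 < C3)
    (hG : 2 * C2 + 144 * C3 + C1 + 2 * |C| ≤ G)
    (ha : a ≤ 2 * Real.log 2 * N / Λ * (1 + C2 / Λ)) (hb : b ≤ 72 * C3 * x * N / Λ ^ 2)
    (hr : r ≤ N / Λ ^ 3) (hg : G * x * N / (V * Λ ^ 2) ≤ g) :
    (V * Real.log 2)⁻¹ * (a + b) + C1 * r - g ≤ 2 * N / (V * (Λ + C * x)) := by
  have hl : 1 / 2 < Real.log 2 := by linarith [Real.log_two_gt_d9]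
  have hC := abs_nonneg C
  have hΛ1 : 1 ≤ Λ := by linarith [mul_nonneg hC (by linarith : 0 ≤ x)]
  have hΛ0 : 0 < Λ := by linarith
  obtain ⟨w, hw⟩ : ∃ w, w = x * N / (V * Λ ^ 2) := ⟨_, rfl⟩
  have hw0 : 0 < w := by rw [hw]; positivity
  have e1 : (V * Real.log 2)⁻¹ * a ≤ 2 * N / (V * Λ) + 2 * C2 * w := by
    refine (mul_le_mul_of_nonneg_left ha (by positivity)).trans ?_
    have : (V * Real.log 2)⁻¹ * (2 * Real.log 2 * N / Λ * (1 + C2 / Λ)) =
        2 * N / (V * Λ) + 2 * C2 * (1 * N / (V * Λ ^ 2)) := by field_simp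
    rw [this, hw]
    gcongr
  have e2 : (V * Real.log 2)⁻¹ * b ≤ 144 * C3 * w := by
    refine (mul_le_mul_of_nonneg_left hb (by positivity)).trans ?_
    have : (V * Real.log 2)⁻¹ * (72 * C3 * x * N / Λ ^ 2) = 72 * C3 * w / Real.log 2 := by
      rw [hw]
      field_simp
    rw [this, div_le_iff₀ (by linarith)]
    linarith [mul_le_mul_of_nonneg_left hl.le (mul_pos h3 hw0).le]
  have e3 : r ≤ w := by
    refine hr.trans ?_
    rw [hw, div_le_div_iff₀ (by positivity) (by positivity)]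
    have : V * 1 ≤ x * Λ := mul_le_mul (by linarith) hΛ1 zero_le_one (by linarith)
    linarith [mul_le_mul_of_nonneg_left this (mul_pos hN (pow_pos hΛ0 2)).le]
  have e4 : G * w ≤ g := by
    refine le_trans (le_of_eq ?_) hg
    rw [hw]
    ring
  have e5 : 2 * N / (V * Λ) - 2 * |C| * w ≤ 2 * N / (V * (Λ + C * x)) := by
    have a1 : C * x ≤ |C| * x := mul_le_mul_of_nonneg_right (le_abs_self C) (by linarith)
    have a2 := mul_le_mul_of_nonneg_right (neg_abs_le C) (by linarith : 0 ≤ x)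
    have a3 : 0 < Λ + C * x := by linarith
    have : 2 * N / (V * Λ) - 2 * |C| * w = 2 * N * (Λ - |C| * x) / (V * Λ ^ 2) := by
      rw [hw]
      field_simp
    rw [this, div_le_div_iff₀ (by positivity) (by positivity)]
    have a4 : (Λ - |C| * x) * (Λ + C * x) ≤ Λ ^ 2 := by
      have : (Λ - |C| * x) * (Λ + C * x) ≤ (Λ - |C| * x) * (Λ + |C| * x) :=
        mul_le_mul_of_nonneg_left (by linarith) (by linarith)
      linarith [sq_nonneg (|C| * x)]
    linarith [mul_le_mul_of_nonneg_left a4 (mul_pos hN hV).le]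
  have e6 : C1 * r ≤ C1 * w := mul_le_mul_of_nonneg_left e3 h1.le
  have e7 := mul_le_mul_of_nonneg_right hG hw0.le
  rw [mul_add]
  linarith

end Main0

open Main0 in
theorem pMain0 (hCmp : S_Cmp) (hPlus : S_Plus) (hBd : S_Bd) (hMass : S_Mass) (hBox : S_Box) :
    S_Main0 := by
  obtain ⟨ua, hBd⟩ := hBd
  obtain ⟨ub, hBox⟩ := hBox
  obtain ⟨u, hu1, hua, hub⟩ : ∃ u, 1 ≤ u ∧ ua ≤ u ∧ ub ≤ u :=
    ⟨ua + ub + 1, by omega, by omega, by omega⟩
  obtain ⟨C1, hC1, hCmp⟩ := hCmp u hu1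
  obtain ⟨C2, hC2, hPlus⟩ := hPlus
  obtain ⟨C3, hC3, hBd⟩ := hBd u hua
  obtain ⟨c, hc, B1, hMass⟩ := hMass
  obtain ⟨δ, B0, hδ, hδ1, hBox⟩ := hBox u hub
  refine ⟨u, hu1, fun C => ?_⟩
  have hC := abs_nonneg C
  obtain ⟨G, hG⟩ : ∃ G, G = 2 * C2 + 144 * C3 + C1 + 2 * |C| := ⟨_, rfl⟩
  obtain ⟨B, hB1, hB0, hB17, hBG⟩ : ∃ B, B1 ≤ B ∧ B0 ≤ c * B ∧ 17 ≤ c * B ∧
      G ≤ δ * c * (c * B) / 88 := by
    refine ⟨max (max B1 (B0 / c)) (max (17 / c) (88 * G / (δ * c) / c)),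
      (le_max_left _ _).trans (le_max_left _ _), ?_, ?_, ?_⟩
    · rw [← div_le_iff₀' hc]
      exact (le_max_right _ _).trans (le_max_left _ _)
    · rw [← div_le_iff₀' hc]
      exact (le_max_left _ _).trans (le_max_right _ _)
    · rw [le_div_iff₀' (by norm_num), ← div_le_iff₀' (mul_pos hδ hc), ← div_le_iff₀' hc]
      exact (le_max_right _ _).trans (le_max_right _ _)
  obtain ⟨Na, hMass⟩ := hMass B u hB1
  obtain ⟨Nb, hBox⟩ := hBox (B / c)
  obtain ⟨M, hM⟩ : ∃ M : ℝ, M = 648 + |C| + 3 * u + (8 + 4 * C2) / δ := ⟨_, rfl⟩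
  have hy0 : 0 < (8 + 4 * C2) / δ := by positivity
  have hu0 : (0 : ℝ) ≤ u := Nat.cast_nonneg u
  refine ⟨Na + Nb + ⌈Real.exp (Real.exp (6 * M))⌉₊, fun N A hN => ?_⟩
  obtain ⟨μ, m1, m2, m3⟩ := hMass N (by omega)
  have n1 : Real.exp (Real.exp (6 * M)) ≤ N := Nat.ceil_le.1 (by omega)
  have hN0 : (0 : ℝ) < N := (Real.exp_pos _).trans_le n1
  have n2 : Real.exp (6 * M) ≤ Real.log N := (Real.le_log_iff_exp_le hN0).2 n1
  have hΛ0 : 0 < Real.log N := (Real.exp_pos _).trans_le n2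
  have n3 : 6 * M ≤ Real.log (Real.log N) := (Real.le_log_iff_exp_le hΛ0).2 n2
  have n4 := num (by linarith) n3
  rw [Real.exp_log hΛ0] at n4
  have hbox := hBox N μ A (by omega)
  have eN : Real.exp (Real.log N) = N := Real.exp_log hN0
  have eΛ : Real.exp (Real.log (Real.log N)) = Real.log N := Real.exp_log hΛ0
  have z1 : (ZZ N : ℝ) ≤ 2 / 5 * Real.log N := Nat.floor_le (by linarith)
  have z2 : 2 / 5 * Real.log N < ZZ N + 1 := Nat.lt_floor_add_one _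
  have d2 : Real.log N - 6 * Real.log (Real.log N) < DL N + 1 := Nat.lt_floor_add_one _
  have d1 : 0 ≤ Real.log N - 6 * Real.log (Real.log N) →
      (DL N : ℝ) ≤ Real.log N - 6 * Real.log (Real.log N) := fun h => Nat.floor_le h
  have eY : ∀ s : Finset ℕ, 0 < pv s → Real.log (N / pv s) = Real.log N - Real.log (pv s) :=
    fun s hs => Real.log_div hN0.ne' (by exact_mod_cast hs.ne')
  have n5 : (2 : ℝ) ≤ N := by
    linarith [Real.add_one_le_exp (Real.log N), Real.add_one_le_exp (6 * M)]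
  have hp1 := (hPlus N (rt (ZZ N)) n5).2
  generalize Real.log (Real.log N) = x at *
  generalize hΛ : Real.log N = Λ at *
  generalize ZZ N = Z at *
  generalize DL N = Δ at *
  have x1 : 1 ≤ x := by linarith
  have x2 : x ≤ x ^ 2 := le_self_pow₀ x1 two_ne_zero
  have x3 : 648 * x ^ 2 ≤ Λ := le_trans (mul_le_mul_of_nonneg_right (by linarith) (sq_nonneg x)) n4
  have x4 : M * x ≤ Λ := le_trans (mul_le_mul_of_nonneg_left x2 (by linarith)) n4
  have x5 : M ≤ Λ := le_trans (le_mul_of_one_le_right (by linarith) x1) x4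
  replace d1 := d1 (by linarith)
  have μ1 : 17 * x ≤ μ := le_trans (mul_le_mul_of_nonneg_right hB17 (by linarith)) m1
  have μ0 : (0 : ℝ) < μ := by linarith
  have hΔ : Λ / 2 ≤ Δ := by linarith
  have hΔ0 : (0 : ℝ) < Δ := by linarith
  have hE : Real.exp Δ ≤ N / Λ ^ 6 := by
    rw [le_div_iff₀ (by positivity), ← eN, ← eΛ, ← Real.exp_nat_mul, ← Real.exp_add, eΛ]
    exact Real.exp_le_exp.2 (by push_cast; linarith)
  have hΛ1 : 1 ≤ Λ := by linarith
  have hcmp := hCmp Z Δ A N (SG Λ u Z Δ μ) (by exact_mod_cast (by linarith : (u : ℝ) ≤ Z))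
    (hE.trans (div_le_self hN0.le (one_le_pow₀ hΛ1))) fun s hs =>
      ⟨(mem_SG hs).1, (mem_SG hs).2.2.2.2.2.2.1.imp fun p hp => hp.1, (mem_SG hs).2.1,
        (mem_SG hs).2.2.1, fun q _ => anti (by exact_mod_cast μ0) hs q⟩
  refine hcmp.trans (fin (G := G) hN0 (V0_pos u) (V0_le_one u) x1
    (le_trans (mul_le_mul_of_nonneg_right (by linarith) (by linarith)) x4) hC1 hC2 hC3 hG.ge
    (hp1 ?_) ?_ ?_ ?_)
  · have h1 : Real.exp Z < rt Z := by
      rw [rt, Nat.cast_add_one]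
      exact Nat.lt_floor_add_one _
    refine lt_of_le_of_lt ?_ (pow_lt_pow_left₀ h1 (Real.exp_pos _).le three_ne_zero)
    rw [← eN, ← Real.exp_nat_mul]
    exact Real.exp_le_exp.2 (by push_cast; linarith)
  · have h1 : Real.log Δ ≤ x := by
      rw [Real.log_le_iff_le_exp hΔ0, eΛ]
      linarith
    have h2 : (⌈10 * x⌉₊ : ℝ) < 10 * x + 1 := Nat.ceil_lt_add_one (by linarith)
    have h3 : Real.exp Δ * (Δ : ℝ) ^ 2 ≤ N := by
      refine (mul_le_mul hE (pow_le_pow_left₀ hΔ0.le (by linarith : (Δ : ℝ) ≤ Λ) 2) (by positivity)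
        (by positivity)).trans ?_
      rw [div_mul_eq_mul_div, div_le_iff₀ (by positivity)]
      exact mul_le_mul_of_nonneg_left (pow_le_pow_right₀ hΛ1 (by norm_num)) hN0.le
    refine (hBd Z Δ ⌈10 * x⌉₊ N (18 * x) 1 (by exact_mod_cast (by linarith : (Z : ℝ) ≤ Δ))
      (by linarith) (by rw [mul_pow]; linarith) (le_trans (by linarith) (Nat.le_ceil _)) (by rw [hΛ]; linarith)
      h3 one_pos le_rfl).1.trans ?_
    rw [div_le_div_iff₀ (by positivity) (by positivity)]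
    have h4 : Λ ^ 2 ≤ (2 * Δ : ℝ) ^ 2 := pow_le_pow_left₀ hΛ0.le (by linarith) 2
    linarith [mul_le_mul_of_nonneg_left h4 (by positivity : 0 ≤ 18 * C3 * x * N)]
  · refine Real.sqrt_le_iff.2 ⟨by positivity, (mul_le_mul_of_nonneg_left hE hN0.le).trans
      (le_of_eq ?_)⟩
    field_simp
  · have hV := V0_pos u
    have key : ∀ s ∈ SG Λ u Z Δ μ, δ * N / (88 * V0 u * μ) * (pv s : ℝ)⁻¹ -
        ((Sf u Z A N s : ℝ) - (2 - δ) * (N / pv s) / (V0 u * (Real.log (N / pv s) - 2))) ≤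
        (V0 u * Real.log 2)⁻¹ * SM 1 (N / pv s) (mn s) - Sf u Z A N s := fun s hs => by
      obtain ⟨s1, -, -, s4, s5, -, ⟨p, hp, s7⟩, s8⟩ := mem_SG hs
      have hs' : ∀ p ∈ s, p.Prime := fun p hp => (mem_PR.1 (s1 hp)).1
      have hY : (0 : ℝ) < N / pv s := div_pos hN0 (by exact_mod_cast pv_pos hs')
      have s4' : (Δ : ℝ) ≤ ts s + 43 * μ := by exact_mod_cast s4
      have s5' : (ts s : ℝ) + 37 * μ ≤ Δ := by exact_mod_cast s5
      have s7' : (tau p : ℝ) ≤ 30 * μ := by exact_mod_cast s7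
      rw [← eΛ, Real.log_exp] at s8
      have y1 : 37 * μ ≤ Real.log (N / pv s) := by
        rw [eY s (pv_pos hs')]
        linarith [log_pv_le hs']
      have y2 : Real.log (N / pv s) ≤ 44 * μ := by
        rw [eY s (pv_pos hs')]
        linarith [le_log_pv hs']
      have y3 : (2 : ℝ) ≤ N / pv s := by
        rw [← Real.exp_log hY]
        linarith [Real.add_one_le_exp (Real.log (N / pv s))]
      have y4 : (mn s : ℝ) ≤ (N / pv s) ^ (9 / 10 : ℝ) := by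
        rw [Real.rpow_def_of_pos hY]
        exact (Nat.cast_le.2 (mn_le hp)).trans ((le_exp_tau p).trans
          (Real.exp_le_exp.2 (by linarith)))
      have h := term hδ hδ1 hC2 hV hY (by linarith) y2 ((hPlus _ (mn s) y3).1 y4)
      have e : δ * N / (88 * V0 u * μ) * (pv s : ℝ)⁻¹ = δ / (88 * V0 u * μ) * (N / pv s) := by ring
      linarith
    refine le_trans ?_ (sum_le_sum key)
    rw [sum_sub_distrib, ← mul_sum]
    have h1 := hbox (le_trans (mul_le_mul_of_nonneg_right hB0 (by linarith)) m1)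
      (m2.trans (le_of_eq (by ring)))
    have h2 : δ * N / (88 * V0 u * μ) * (c * (μ : ℝ) ^ 2 / Λ ^ 2) ≤
        δ * N / (88 * V0 u * μ) * ∑ s ∈ SG Λ u Z Δ μ, (pv s : ℝ)⁻¹ :=
      mul_le_mul_of_nonneg_left m3 (by positivity)
    have h3 : δ * N / (88 * V0 u * μ) * (c * (μ : ℝ) ^ 2 / Λ ^ 2) =
        δ * c * μ / 88 * N / (V0 u * Λ ^ 2) := by field_simp
    have h4 : G * x ≤ δ * c * μ / 88 := by
      have a1 := mul_le_mul_of_nonneg_right hBG (by linarith : 0 ≤ x)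
      have a2 := mul_le_mul_of_nonneg_left m1 (mul_pos hδ hc).le
      linarith
    have h5 : G * x * N / (V0 u * Λ ^ 2) ≤ δ * c * μ / 88 * N / (V0 u * Λ ^ 2) := by gcongr
    linarith

end Pool.Agent.P.MP_26a8c3_nt.EC
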