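import Pool.Agent.P.MP_26a8c3_nt.EC.Base

/-! The mass of the good stopping nodes. -/

namespace Pool.Agent.P.MP_26a8c3_nt.EC

open Finset
open scoped Classical

namespace Mass

theorem num (K M L : ℝ) : ∃ N0 : ℕ, ∀ N : ℕ, N0 ≤ N → L ≤ Real.log N ∧
    M ≤ Real.log (Real.log N) ∧ K * Real.log (Real.log N) ≤ Real.log N := by
  have t1 : Filter.Tendsto (fun N : ℕ => Real.log N) Filter.atTop Filter.atTop :=
    Real.tendsto_log_atTop.comp tendsto_natCast_atTop_atTop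
  have t2 := (Real.isLittleO_log_id_atTop.const_mul_left K).bound one_pos
  obtain ⟨N0, h⟩ := Filter.eventually_atTop.1 ((t1.eventually_ge_atTop L).and
    (((Real.tendsto_log_atTop.comp t1).eventually_ge_atTop M).and
      ((t1.eventually t2).and (t1.eventually_ge_atTop 0))))
  refine ⟨N0, fun N hN => ?_⟩
  obtain ⟨h1, h2, h3, h4⟩ := h N hN
  refine ⟨h1, h2, (le_abs_self _).trans ?_⟩
  simpa [abs_of_nonneg h4] using h3

theorem split (S : Finset (Finset ℕ)) (p q : Finset ℕ → Prop) :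
    ms S = ms (S.filter fun s => p s ∧ q s) + ms (S.filter fun s => ¬ p s) +
      ms (S.filter fun s => p s ∧ ¬ q s) := by
  simp only [ms, sum_filter, ← sum_add_distrib]
  refine sum_congr rfl fun s _ => ?_
  by_cases h1 : p s <;> by_cases h2 : q s <;> simp [h1, h2]

end Mass

theorem pMass (hPar : S_Par) (hGc : S_Gc) (hBad1 : S_Bad1) (hBad3 : S_Bad3) : S_Mass := by
  obtain ⟨c, hc, B1, hP⟩ := hPar
  obtain ⟨c1, μ0, hc1, hG⟩ := hGc
  obtain ⟨L1, h1⟩ := hBad1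
  have he : 0 < c * c1 / 4 := by positivity
  obtain ⟨L3, h3⟩ := hBad3 _ he
  have hc' : 0 < min c (c * c1 / 2) := lt_min hc (by positivity)
  refine ⟨min c (c * c1 / 2), hc', max B1 (1 / c), fun B u hB => ?_⟩
  obtain ⟨N1, hN1⟩ := hP B ((le_max_left _ _).trans hB)
  have b1 : 1 ≤ c * B := by
    have := (le_max_right _ _).trans hB
    rwa [div_le_iff₀' hc] at this
  have b0 : 0 ≤ B := (one_div_pos.2 hc).le.trans ((le_max_right _ _).trans hB)
  obtain ⟨N2, hN2⟩ := Mass.num (430 * (B / c) + 120) (μ0 + u + 1)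
    (max (max L1 L3) (max 20 ((c * c1 / 4)⁻¹ ^ 2)))
  refine ⟨max N1 N2, fun N hN => ?_⟩
  obtain ⟨μ, m1, m2, m3⟩ := hN1 N ((le_max_left _ _).trans hN)
  obtain ⟨a1, a2, a3⟩ := hN2 N ((le_max_right _ _).trans hN)
  simp only [max_le_iff] at a1
  obtain ⟨⟨a4, a5⟩, a6, a7⟩ := a1
  have z1 : (ZZ N : ℝ) ≤ 2 / 5 * Real.log N := Nat.floor_le (by linarith)
  have z2 : 2 / 5 * Real.log N < ZZ N + 1 := Nat.lt_floor_add_one _
  have d2 : Real.log N - 6 * Real.log (Real.log N) < DL N + 1 := Nat.lt_floor_add_one _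
  have d1 : (DL N : ℝ) ≤ Real.log N := (Nat.cast_le.2 (Nat.floor_mono (sub_le_self _ (by
    linarith [Nat.cast_nonneg (α := ℝ) u, Nat.cast_nonneg (α := ℝ) μ0])))).trans
      (Nat.floor_le (by linarith))
  generalize Real.log N = Λ at *
  have u0 : (0 : ℝ) ≤ u := Nat.cast_nonneg _
  have v0 : (0 : ℝ) ≤ μ0 := Nat.cast_nonneg _
  have l0 : 0 ≤ Real.log Λ := by linarith
  have k0 : 0 ≤ B / c * Real.log Λ := by positivity
  have k1 : B * Real.log Λ / c = B / c * Real.log Λ := by ring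
  have m4 : Real.log Λ ≤ μ := le_trans (le_mul_of_one_le_left l0 b1) m1
  have m5 : 430 * (μ : ℝ) ≤ Λ := by linarith
  have d3 : 9 / 10 * Λ ≤ DL N := by linarith
  have g := hG u (ZZ N) (DL N) μ (by exact_mod_cast (by linarith : (μ0 : ℝ) ≤ μ))
    (by exact_mod_cast (by linarith : (u : ℝ) ≤ 28 * μ))
    (by exact_mod_cast (by linarith : (DL N : ℝ) ≤ 3 * ZZ N))
  have e1 := h1 Λ u (ZZ N) (DL N) μ a4 (by linarith) d3 m5 m4
  have e3 := h3 Λ u (ZZ N) (DL N) μ a5 d3 m5 m4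
  have e2 : Λ ^ (-(5 / 2) : ℝ) ≤ c * c1 / 4 * (μ : ℝ) ^ 2 / Λ ^ 2 := by
    have p0 : 0 < Λ := by linarith
    have s1 : (c * c1 / 4)⁻¹ ≤ √Λ := Real.le_sqrt_of_sq_le a7
    have s2 : Λ ^ (-(5 / 2) : ℝ) = (√Λ)⁻¹ / Λ ^ 2 := by
      rw [Real.sqrt_eq_rpow, ← Real.rpow_neg p0.le, ← Real.rpow_two, ← Real.rpow_sub p0]
      norm_num
    rw [s2]
    refine div_le_div_of_nonneg_right ((inv_le_of_inv_le₀ he s1).trans
      (le_mul_of_one_le_right he.le (one_le_pow₀ (by linarith)))) (by positivity)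
  refine ⟨μ, le_trans ?_ m1, m2.trans (div_le_div_of_nonneg_left (by positivity) hc'
    (min_le_left _ _)), ?_⟩
  · exact mul_le_mul_of_nonneg_right (mul_le_mul_of_nonneg_right (min_le_left _ _) b0) l0
  · have s1 := Mass.split (S0 u (ZZ N) (DL N) μ) (ga Λ) gb
    have s2 := mul_le_mul_of_nonneg_left m3 hc1.le
    have s3 : min c (c * c1 / 2) * (μ : ℝ) ^ 2 / Λ ^ 2 ≤ c * c1 / 2 * (μ : ℝ) ^ 2 / Λ ^ 2 := by
      gcongr
      exact min_le_right _ _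
    have s4 : c1 * (c * (μ : ℝ) ^ 2 / Λ ^ 2) = 4 * (c * c1 / 4 * (μ : ℝ) ^ 2 / Λ ^ 2) := by ring
    have s5 : c * c1 / 2 * (μ : ℝ) ^ 2 / Λ ^ 2 = 2 * (c * c1 / 4 * (μ : ℝ) ^ 2 / Λ ^ 2) := by ring
    rw [SG]
    linarith

end Pool.Agent.P.MP_26a8c3_nt.EC
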