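import Pool.Agent.P.MP_26a8c3_nt.EC.Base
import Pool.Agent.P.MP_26a8c3_nt.Lg.SV

/-! Bounds for the lower extremal example. -/

namespace Pool.Agent.P.MP_26a8c3_nt.EC

open Finset
open scoped Classical

namespace Minus

/-- The rough numbers with an even number of prime factors. -/
noncomputable def EE (Y : ℝ) (p : ℕ) : Finset ℕ :=
  (Ioc 0 ⌊Y⌋₊).filter fun n => rough p n ∧ lam n = 1

lemma lam_one : lam 1 = 1 := by simp [lam]

lemma nonneg (Y : ℝ) (p : ℕ) : 0 ≤ SM (-1) Y p := sum_nonneg fun n _ =>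
  mul_nonneg (by rcases lam_mem n with h | h <;> rw [h] <;> norm_num) (ww_nonneg _)

lemma le_card (Y : ℝ) (p : ℕ) : SM (-1) Y p ≤ 2 * (EE Y p).card := by
  have e : EE Y p = ((Ioc 0 ⌊Y⌋₊).filter (rough p)).filter fun n => lam n = 1 := by
    rw [filter_filter, EE]
  rw [e, card_filter, Nat.cast_sum, mul_sum, SM]
  refine sum_le_sum fun n _ => ?_
  have h1 := ww_le_one (Y / n)
  rcases lam_mem n with h | h
  · rw [if_pos h, h]
    push_cast
    linarith
  · rw [if_neg (by rw [h]; norm_num), h]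
    simp

lemma mem_EE {Y : ℝ} (hY : 0 ≤ Y) {p n : ℕ} :
    n ∈ EE Y p ↔ (0 < n ∧ (n : ℝ) ≤ Y) ∧ rough p n ∧ lam n = 1 := by
  rw [EE, mem_filter, mem_Ioc, Nat.le_floor_iff hY]

lemma card_le {Y : ℝ} (hY : 0 ≤ Y) (p : ℕ) : ((EE Y p).card : ℝ) ≤ Y := by
  refine le_trans ?_ (Nat.floor_le hY)
  have := card_filter_le (Ioc 0 ⌊Y⌋₊) fun n => rough p n ∧ lam n = 1
  rw [Nat.card_Ioc] at this
  exact_mod_cast this

/-- Removing the least prime factor. -/
lemma peel {p n : ℕ} (h0 : 0 < n) (h1 : n ≠ 1) (h : rough p n) :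
    ∃ q m : ℕ, q.Prime ∧ p ≤ q ∧ n = q * m ∧ 0 < m ∧ rough q m ∧ lam m = -lam n := by
  have hq := Nat.minFac_prime h1
  obtain ⟨m, hm⟩ := Nat.minFac_dvd n
  have hm0 : 0 < m := Nat.pos_of_ne_zero fun e => by rw [e, mul_zero] at hm; omega
  refine ⟨n.minFac, m, hq, h _ hq (Nat.minFac_dvd n), hm, hm0, fun r hr hd =>
    Nat.minFac_le_of_dvd hr.two_le (hd.trans (Dvd.intro_left _ hm.symm)), ?_⟩
  conv_rhs => rw [hm, lam_mul hq.ne_zero hm0.ne', lam_prime hq]
  ring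

lemma ne_one {m : ℕ} (h : lam m = -1) : m ≠ 1 := fun e => by
  rw [e, lam_one] at h
  norm_num at h

/-- Removing two prime factors. -/
lemma peel2 {p n : ℕ} (h0 : 0 < n) (h1 : n ≠ 1) (h : rough p n) (hl : lam n = 1) :
    ∃ q r m : ℕ, q.Prime ∧ r.Prime ∧ p ≤ q ∧ q ≤ r ∧ n = q * (r * m) ∧ 0 < m ∧ rough r m ∧
      lam m = 1 := by
  obtain ⟨q, m, a1, a2, a3, a4, a5, a6⟩ := peel h0 h1 h
  rw [hl] at a6
  obtain ⟨r, m', b1, b2, b3, b4, b5, b6⟩ := peel a4 (ne_one a6) a5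
  exact ⟨q, r, m', a1, b1, a2, b2, by rw [a3, b3], b4, b5, by rw [b6, a6, neg_neg]⟩

lemma sq_le {p n : ℕ} (h0 : 0 < n) (h1 : n ≠ 1) (h : rough p n) (hl : lam n = 1) : p ^ 2 ≤ n := by
  obtain ⟨q, r, m, -, -, a3, a4, a5, a6, -, -⟩ := peel2 h0 h1 h hl
  rw [a5, sq]
  exact Nat.mul_le_mul a3 ((a3.trans a4).trans (Nat.le_mul_of_pos_right _ a6))

lemma small {Y : ℝ} (hY : 0 ≤ Y) {p : ℕ} (h : Y < (p : ℝ) ^ 2) : SM (-1) Y p ≤ 2 := by
  have h1 : (EE Y p).card ≤ 1 := by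
    refine le_trans (card_le_card (t := {1}) fun n hn => ?_) (by simp)
    obtain ⟨⟨a1, a2⟩, a3, a4⟩ := (mem_EE hY).1 hn
    by_contra hne
    have : ((p ^ 2 : ℕ) : ℝ) ≤ n := Nat.cast_le.2 (sq_le a1 (by simpa using hne) a3 a4)
    push_cast at this
    linarith
  have h2 : ((EE Y p).card : ℝ) ≤ 1 := by exact_mod_cast h1
  linarith [le_card Y p]

lemma rc_ge {C : ℝ} (hC : 0 ≤ C) (h : ∀ t : ℕ, 1 ≤ t → (1 - C / t) / t ≤ rc (PR t t)) (s : ℕ) :
    Real.log (s + 1) - 2 * C ≤ rc (PR 1 s) := by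
  have key : Real.log (s + 1) - 2 * C * (1 - 1 / (s + 1)) ≤ ∑ t ∈ Icc 1 s, rc (PR t t) := by
    induction s with
    | zero => simp
    | succ s ih =>
      rw [sum_Icc_succ_top (by omega)]
      have h1 := h (s + 1) (by omega)
      push_cast at h1 ⊢
      have hs : (0 : ℝ) < s + 1 := by positivity
      have h2 : Real.log (s + 1 + 1) - Real.log (s + 1) ≤ 1 / (s + 1) := by
        rw [← Real.log_div (by positivity) hs.ne']
        refine (Real.log_le_sub_one_of_pos (by positivity)).trans (le_of_eq ?_)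
        field_simp
        ring
      have h3 : (1 - C / (s + 1)) / (s + 1) = 1 / (s + 1) - C * (1 / (s + 1) ^ 2) := by
        field_simp
      have h4 : 1 / ((s : ℝ) + 1) ^ 2 ≤ 2 * (1 / (s + 1) - 1 / (s + 1 + 1)) := by
        rw [div_sub_div _ _ hs.ne' (by positivity), ← mul_div_assoc,
          div_le_div_iff₀ (by positivity) (by positivity)]
        nlinarith
      nlinarith [mul_le_mul_of_nonneg_left h4 hC]
  rw [rc_PR]
  have : 0 ≤ 2 * C * (1 / ((s : ℝ) + 1)) := by positivity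
  linarith

lemma VV_le (P : Finset ℕ) (hP : ∀ p ∈ P, p.Prime) : Inf.VV P ≤ Real.exp (-rc P) := by
  rw [Inf.VV, rc, ← sum_neg_distrib, Real.exp_sum]
  refine prod_le_prod (fun p hp => sub_nonneg.2 (inv_le_one_of_one_le₀ ?_)) fun p _ => ?_
  · exact_mod_cast (hP p hp).one_le
  · linarith [Real.add_one_le_exp (-(p : ℝ)⁻¹)]

lemma third (hPi : S_Pi) : ∃ C : ℝ, 0 < C ∧ ∀ (Y : ℝ) (p : ℕ), p.Prime → (p : ℝ) ^ 2 ≤ Y →
    ((EE Y p).card : ℝ) ≤ C * Y / tau p := by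
  obtain ⟨C, hC, -, h, -⟩ := pi_facts hPi
  obtain ⟨D, hD, hs⟩ := Lg.sv
  refine ⟨D * (5 * Real.exp (2 * C)), by positivity, fun Y p hp hY => ?_⟩
  have hY0 : 0 ≤ Y := le_trans (by positivity) hY
  have ht := one_le_tau hp
  have ht' : (0 : ℝ) < tau p := by exact_mod_cast ht
  obtain ⟨s, h1, h2⟩ : ∃ s : ℕ, 5 * s + 1 ≤ tau p ∧ tau p ≤ 5 * (s + 1) :=
    ⟨(tau p - 1) / 5, by omega, by omega⟩
  have h1' : 5 * (s : ℝ) + 1 ≤ tau p := by exact_mod_cast h1
  have h2' : (tau p : ℝ) ≤ 5 * (s + 1) := by exact_mod_cast h2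
  have hP : ∀ q ∈ PR 1 s, q.Prime := fun q hq => (mem_PR.1 hq).1
  have h3 := hs (PR 1 s) ⌊Real.exp s⌋₊ (fun q hq => ⟨hP q hq, Nat.le_floor ((le_exp_tau q).trans
    (Real.exp_le_exp.2 (by exact_mod_cast (mem_PR.1 hq).2.2)))⟩) Y (by
      refine le_trans ?_ hY
      calc (⌊Real.exp s⌋₊ : ℝ) ^ 10 ≤ Real.exp s ^ 10 :=
            pow_le_pow_left₀ (by positivity) (Nat.floor_le (Real.exp_pos _).le) _
        _ ≤ Real.exp (tau p - 1) ^ 2 := by
            rw [← Real.exp_nat_mul, ← Real.exp_nat_mul]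
            exact Real.exp_le_exp.2 (by push_cast; linarith)
        _ ≤ _ := pow_le_pow_left₀ (by positivity) (exp_tau_lt hp.pos).le _)
    (EE Y p) fun n hn => by
      obtain ⟨⟨a1, a2⟩, a3, -⟩ := (mem_EE hY0).1 hn
      refine ⟨a1, a2, (coprime_pv hP n).2 fun q hq hd => ?_⟩
      have b1 := tau_mono (a3 q (hP q hq) hd)
      have b2 := (mem_PR.1 hq).2.2
      omega
  have h4 : Inf.VV (PR 1 s) ≤ 5 * Real.exp (2 * C) / tau p := by
    refine (VV_le _ hP).trans ((Real.exp_le_exp.2 (neg_le_neg (rc_ge (by linarith) h s))).trans ?_)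
    rw [neg_sub, Real.exp_sub, Real.exp_log (by positivity),
      div_le_div_iff₀ (by positivity) ht']
    nlinarith [Real.exp_pos (2 * C)]
  refine h3.trans (le_trans (mul_le_mul_of_nonneg_right
    (mul_le_mul_of_nonneg_left h4 (by linarith)) hY0) (le_of_eq ?_))
  ring

lemma primes_le {x : ℝ} (hx : 0 ≤ x) {p : ℕ} (hp : p.Prime) (ht : 2 ≤ tau p) :
    (((Ioc 0 ⌊x⌋₊).filter fun r => r.Prime ∧ p ≤ r).card : ℝ) ≤ 4 * x / tau p := by
  have ht' : (2 : ℝ) ≤ tau p := by exact_mod_cast ht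
  have h1 := Chebyshev.theta_le_log4_mul_x hx
  have h2 : Real.log 4 ≤ 2 := by
    rw [show (4 : ℝ) = 2 ^ 2 by norm_num, Real.log_pow]
    push_cast
    linarith [Real.log_two_lt_d9]
  have h3 : (((Ioc 0 ⌊x⌋₊).filter fun r => r.Prime ∧ p ≤ r).card : ℝ) * (tau p / 2) ≤
      Chebyshev.theta x := by
    rw [← nsmul_eq_mul]
    refine (card_nsmul_le_sum _ (fun r : ℕ => Real.log r) _ fun r hr => ?_).trans
      (sum_le_sum_of_subset_of_nonneg (fun r hr => mem_filter.2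
        ⟨(mem_filter.1 hr).1, (mem_filter.1 hr).2.1⟩) fun r _ _ => Real.log_natCast_nonneg r)
    have := log_nat_mono (mem_filter.1 hr).2.2
    linarith [tau_lt p]
  rw [le_div_iff₀ (by linarith)]
  nlinarith

lemma fourth (hPi : S_Pi) : ∃ C : ℝ, 0 < C ∧ ∀ (Y : ℝ) (p : ℕ), 0 ≤ Y → p.Prime → 4 ≤ tau p →
    ∀ K : ℝ, 0 ≤ K → K ≤ tau p → Real.log Y ≤ 2 * tau p + K →
      ((EE Y p).card : ℝ) ≤ 1 + C * Y * (K + 3) / (tau p : ℝ) ^ 2 := by
  obtain ⟨C, hC, -, -, h, -⟩ := pi_facts hPi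
  refine ⟨8 * C, by positivity, fun Y p hY hp ht K hK hK' hl => ?_⟩
  have ht' : (4 : ℝ) ≤ tau p := by exact_mod_cast ht
  set k := ⌈K / 2⌉₊ with hk
  have k1 : K / 2 ≤ k := Nat.le_ceil _
  have k2 : (k : ℝ) < K / 2 + 1 := Nat.ceil_lt_add_one (by positivity)
  have hsub : EE Y p ⊆ {1} ∪ (PR (tau p) (tau p + k)).biUnion fun q =>
      ((Ioc 0 ⌊Y / q⌋₊).filter fun r => r.Prime ∧ p ≤ r).image (q * ·) := by
    intro n hn
    obtain ⟨⟨a1, a2⟩, a3, a4⟩ := (mem_EE hY).1 hn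
    by_cases h1 : n = 1
    · exact mem_union_left _ (mem_singleton.2 h1)
    obtain ⟨q, r, m, b1, b2, b3, b4, b5, b6, b7, b8⟩ := peel2 a1 h1 a3 a4
    have hn0 : (0 : ℝ) < n := by exact_mod_cast a1
    have hln : Real.log n ≤ 2 * tau p + K := (Real.log_le_log hn0 a2).trans hl
    have hm : m = 1 := by
      by_contra hm
      have c1 := sq_le b6 hm b7 b8
      have c2 : p ^ 4 ≤ n := by
        rw [b5, show p ^ 4 = p * (p * p ^ 2) by ring]
        exact Nat.mul_le_mul b3 (Nat.mul_le_mul (b3.trans b4)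
          ((Nat.pow_le_pow_left (b3.trans b4) 2).trans c1))
      have c3 := log_nat_mono c2
      rw [Nat.cast_pow, Real.log_pow] at c3
      push_cast at c3
      linarith [tau_lt p]
    rw [hm, mul_one] at b5
    have hq0 : (0 : ℝ) < q := by exact_mod_cast b1.pos
    refine mem_union_right _ (mem_biUnion.2 ⟨q, mem_PR.2 ⟨b1, tau_mono b3, tau_le_iff.2 ?_⟩,
      mem_image.2 ⟨r, mem_filter.2 ⟨mem_Ioc.2 ⟨b2.pos, Nat.le_floor ?_⟩, b2, b3.trans b4⟩,
        b5.symm⟩⟩)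
    · have c1 : q ^ 2 ≤ n := by
        rw [b5, sq]
        exact Nat.mul_le_mul_left _ b4
      have c3 := log_nat_mono c1
      rw [Nat.cast_pow, Real.log_pow] at c3
      push_cast at c3 ⊢
      linarith
    · rw [le_div_iff₀ hq0, mul_comm, ← Nat.cast_mul, ← b5]
      exact a2
  have h1 : ((EE Y p).card : ℝ) ≤ 1 + ∑ q ∈ PR (tau p) (tau p + k),
      (((Ioc 0 ⌊Y / q⌋₊).filter fun r => r.Prime ∧ p ≤ r).card : ℝ) := by
    have := (card_le_card hsub).trans ((card_union_le _ _).trans (Nat.add_le_add_left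
      (card_biUnion_le.trans (sum_le_sum fun q _ => card_image_le)) _))
    rw [card_singleton] at this
    exact_mod_cast this
  have h2 : rc (PR (tau p) (tau p + k)) ≤ (K + 3) * (2 * C / tau p) := by
    rw [rc_PR]
    refine (sum_le_card_nsmul _ _ (2 * C / tau p) fun t ht2 => ?_).trans ?_
    · have := (mem_Icc.1 ht2).1
      exact (h t (by omega)).trans (div_le_div_of_nonneg_left (by linarith) (by linarith)
        (by exact_mod_cast this))
    · rw [nsmul_eq_mul, Nat.card_Icc, show tau p + k + 1 - tau p = k + 1 by omega]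
      refine mul_le_mul_of_nonneg_right ?_ (by positivity)
      push_cast
      linarith
  refine h1.trans (add_le_add_right ?_ 1)
  calc _ ≤ ∑ q ∈ PR (tau p) (tau p + k), 4 * Y / tau p * (q : ℝ)⁻¹ := sum_le_sum fun q _ =>
        (primes_le (by positivity) hp (by omega)).trans (le_of_eq (by ring))
    _ = 4 * Y / tau p * rc (PR (tau p) (tau p + k)) := by rw [rc, mul_sum]
    _ ≤ 4 * Y / tau p * ((K + 3) * (2 * C / tau p)) :=
        mul_le_mul_of_nonneg_left h2 (by positivity)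
    _ = _ := by ring

end Minus

open Minus in
theorem pMinus (hPi : S_Pi) : S_Minus := by
  obtain ⟨C, hC, h3⟩ := third hPi
  obtain ⟨D, hD, h4⟩ := fourth hPi
  refine ⟨2 * C + 2 * D + 6, by positivity, fun Y p hY hp => ?_⟩
  have a := le_card Y p
  have b := card_le hY p
  have ht : (1 : ℝ) ≤ tau p := by exact_mod_cast one_le_tau hp
  refine ⟨nonneg Y p, by linarith, small hY, ?_, fun K hK hK' hl => ?_⟩
  · have e : (2 * C + 2 * D + 6) * Y / tau p = 2 * (C * Y / tau p) + (2 * D + 6) * Y / tau p := by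
      ring
    have e2 : 0 ≤ (2 * D + 6) * Y / tau p := by positivity
    have e3 : 0 ≤ C * Y / tau p := by positivity
    rcases lt_or_ge Y ((p : ℝ) ^ 2) with h | h
    · linarith [small hY h]
    · linarith [h3 Y p hp h]
  · have e : (2 * C + 2 * D + 6) * Y * (K + 3) / (tau p : ℝ) ^ 2 =
        2 * (D * Y * (K + 3) / (tau p : ℝ) ^ 2) + 2 * (C * Y * (K + 3) / (tau p : ℝ) ^ 2) +
          6 * (Y * ((K + 3) / (tau p : ℝ) ^ 2)) := by ring
    have e1 : 0 ≤ D * Y * (K + 3) / (tau p : ℝ) ^ 2 := by positivity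
    have e2 : 0 ≤ C * Y * (K + 3) / (tau p : ℝ) ^ 2 := by positivity
    have e3 : 0 ≤ Y * ((K + 3) / (tau p : ℝ) ^ 2) := by positivity
    rcases lt_or_ge (tau p) 4 with h | h
    · have h5 : (tau p : ℝ) ≤ 3 := by exact_mod_cast Nat.lt_succ_iff.1 h
      have h6 : 1 / 3 ≤ (K + 3) / (tau p : ℝ) ^ 2 := by
        rw [le_div_iff₀ (by positivity)]
        nlinarith
      linarith [mul_le_mul_of_nonneg_left h6 hY]
    · linarith [h4 Y p hY hp h K hK hK' hl]

end Pool.Agent.P.MP_26a8c3_nt.EC
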