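import Pool.Agent.P.MP_26a8c3_nt.EC.Base

/-! The model sequence: sums of the Chebyshev weight. -/

namespace Pool.Agent.P.MP_26a8c3_nt.EC

open Finset
open scoped Classical

namespace Mod

open ArithmeticFunction

/-- The parity. -/
noncomputable def w (k : ℕ) : ℝ := (k : ℝ) - 2 * ((k / 2 : ℕ) : ℝ)

lemma w_eq (k : ℕ) : w k = ((k % 2 : ℕ) : ℝ) := by
  have h : (k : ℝ) = 2 * ((k / 2 : ℕ) : ℝ) + ((k % 2 : ℕ) : ℝ) := by
    exact_mod_cast (Nat.div_add_mod k 2).symm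
  rw [w]
  linarith

lemma ww_eq {Y : ℝ} (hY : 0 ≤ Y) (n : ℕ) : ww (Y / n) = w (⌊Y⌋₊ / n) := by
  have h0 : 0 ≤ Y / n := by positivity
  have h2 : ⌊Y / n / 2⌋₊ = ⌊Y⌋₊ / n / 2 := by
    rw [← Nat.floor_div_natCast Y n]
    exact_mod_cast Nat.floor_div_natCast (Y / n) 2
  rw [ww, w, ← Int.natCast_floor_eq_floor h0, ← Int.natCast_floor_eq_floor (by positivity),
    h2, Nat.floor_div_natCast]
  simp only [Int.cast_natCast]

/-- The sifted sum. -/
noncomputable def F (g : ℕ → ℝ) (P : Finset ℕ) (M : ℕ) : ℝ :=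
  ∑ n ∈ (Ioc 0 M).filter (fun n => ∀ p ∈ P, ¬ p ∣ n), g n * w (M / n)

lemma F_insert {g : ℕ → ℝ} (hg : ∀ a b, a ≠ 0 → b ≠ 0 → g (a * b) = g a * g b) {P : Finset ℕ}
    {p : ℕ} (hp : p.Prime) (hP : ∀ q ∈ P, q.Prime) (hn : p ∉ P) (M : ℕ) :
    F g (insert p P) M = F g P M - g p * F g P (M / p) := by
  have e1 : F g P M = F g (insert p P) M + ∑ n ∈ ((Ioc 0 M).filter
      (fun n => ∀ q ∈ P, ¬ q ∣ n)).filter (fun n => p ∣ n), g n * w (M / n) := by
    rw [F, ← sum_filter_add_sum_filter_not _ (fun n => p ∣ n), add_comm, F]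
    congr 2
    ext n
    simp only [mem_filter, forall_mem_insert]
    tauto
  rw [e1, add_sub_assoc, eq_comm, add_eq_left, sub_eq_zero, F, mul_sum, eq_comm]
  refine sum_bij (fun m _ => p * m) (fun m hm => ?_) (fun a _ b _ e => ?_) (fun n hn' => ?_)
    fun m hm => ?_
  · obtain ⟨h1, h2⟩ := mem_filter.1 hm
    obtain ⟨h3, h4⟩ := mem_Ioc.1 h1
    refine mem_filter.2 ⟨mem_filter.2 ⟨mem_Ioc.2 ⟨Nat.mul_pos hp.pos h3, ?_⟩, fun q hq hd => ?_⟩,
      dvd_mul_right _ _⟩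
    · rw [mul_comm]
      exact (Nat.le_div_iff_mul_le hp.pos).1 h4
    · rcases ((hP q hq).dvd_mul).1 hd with h | h
      · exact hn (((Nat.prime_dvd_prime_iff_eq (hP q hq) hp).1 h) ▸ hq)
      · exact h2 q hq h
  · exact Nat.eq_of_mul_eq_mul_left hp.pos e
  · obtain ⟨h1, m, rfl⟩ := mem_filter.1 hn'
    obtain ⟨h2, h3⟩ := mem_filter.1 h1
    obtain ⟨h4, h5⟩ := mem_Ioc.1 h2
    refine ⟨m, mem_filter.2 ⟨mem_Ioc.2 ⟨Nat.pos_of_mul_pos_left h4, ?_⟩,
      fun q hq hd => h3 q hq (hd.mul_left _)⟩, rfl⟩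
    exact (Nat.le_div_iff_mul_le hp.pos).2 (by rwa [mul_comm])
  · rw [hg p m hp.ne_zero (mem_Ioc.1 (mem_filter.1 hm).1).1.ne', Nat.div_div_eq_div_mul, mul_assoc]

lemma div_err (M k : ℕ) :
    0 ≤ (M : ℝ) / k - ((M / k : ℕ) : ℝ) ∧ (M : ℝ) / k - ((M / k : ℕ) : ℝ) ≤ 1 := by
  have h1 : ((M / k : ℕ) : ℝ) ≤ (M : ℝ) / k := Nat.cast_div_le
  have h2 := Nat.lt_floor_add_one ((M : ℝ) / k)
  rw [Nat.floor_div_natCast, Nat.floor_natCast] at h2
  constructor <;> linarith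

lemma sieve {g : ℕ → ℝ} (hg : ∀ a b, a ≠ 0 → b ≠ 0 → g (a * b) = g a * g b) {c : ℝ}
    (h0 : ∀ M : ℕ, |F g ∅ M - c * M| ≤ 3 * √M) (P : Finset ℕ) : (∀ q ∈ P, q.Prime) →
    ∃ C : ℝ, 0 < C ∧ ∀ M : ℕ, |F g P M - c * (∏ p ∈ P, (1 - g p * (p : ℝ)⁻¹)) * M| ≤ C * √M := by
  induction P using Finset.induction_on with
  | empty => exact fun _ => ⟨3, by norm_num, by simpa using h0⟩
  | insert p P hn ih =>
    intro hP
    have hp := hP p (mem_insert_self _ _)
    have hP' : ∀ q ∈ P, q.Prime := fun q hq => hP q (mem_insert_of_mem hq)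
    obtain ⟨C, hC, h⟩ := ih hP'
    set V := c * ∏ p ∈ P, (1 - g p * (p : ℝ)⁻¹) with hV
    refine ⟨C + |g p| * C + |g p| * |V|, by positivity, fun M => ?_⟩
    rcases Nat.eq_zero_or_pos M with rfl | hM
    · simp [F]
    have h1 : (1 : ℝ) ≤ √M := Real.one_le_sqrt.2 (by exact_mod_cast hM)
    have h2 : √((M / p : ℕ) : ℝ) ≤ √M := Real.sqrt_le_sqrt (by exact_mod_cast Nat.div_le_self M p)
    obtain ⟨h3, h4⟩ := div_err M p
    have e : F g (insert p P) M - c * (∏ q ∈ insert p P, (1 - g q * (q : ℝ)⁻¹)) * M =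
        (F g P M - V * M) - g p * (F g P (M / p) - V * (M / p : ℕ)) +
          g p * (V * ((M : ℝ) / p - ((M / p : ℕ) : ℝ))) := by
      rw [F_insert hg hp hP' hn, prod_insert hn, hV]
      ring
    have a1 := h M
    have a2 : |g p * (F g P (M / p) - V * (M / p : ℕ))| ≤ |g p| * (C * √M) := by
      rw [abs_mul]
      exact mul_le_mul_of_nonneg_left ((h _).trans (by gcongr)) (abs_nonneg _)
    have a3 : |g p * (V * ((M : ℝ) / p - ((M / p : ℕ) : ℝ)))| ≤ |g p| * (|V| * √M) := by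
      rw [abs_mul, abs_mul, abs_of_nonneg h3]
      gcongr
      linarith
    rw [e]
    refine (abs_add_le _ _).trans ((add_le_add (abs_sub _ _) le_rfl).trans ?_)
    linarith

lemma conv (m : ℕ) : (liouville * zeta : ArithmeticFunction ℤ) m = 0 ∨
    ((liouville * zeta : ArithmeticFunction ℤ) m = 1 ∧ IsSquare m) := by
  have hm : (liouville * zeta : ArithmeticFunction ℤ).IsMultiplicative :=
    isMultiplicative_liouville.mul isMultiplicative_zeta.natCast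
  induction m using Nat.recOnPosPrimePosCoprime with
  | zero => simp
  | one => exact Or.inr ⟨hm.1, IsSquare.one⟩
  | prime_pow p n hp hn =>
    have e : (liouville * zeta : ArithmeticFunction ℤ) (p ^ n) = ∑ i ∈ range (n + 1), (-1) ^ i := by
      rw [coe_mul_zeta_apply, Nat.sum_divisors_prime_pow hp]
      exact sum_congr rfl fun i _ => by
        rw [liouville_apply (pow_ne_zero i hp.ne_zero), cardFactors_apply_prime_pow hp]
    rw [e, neg_one_geom_sum]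
    rcases Nat.even_or_odd n with h | h
    · exact Or.inr ⟨if_neg (Nat.not_even_iff_odd.2 h.add_one), h.isSquare_pow p⟩
    · exact Or.inl (if_pos h.add_one)
  | coprime a b _ _ hab ha hb =>
    rw [hm.2 hab]
    rcases ha with ha | ha
    · simp [ha]
    · rcases hb with hb | hb
      · simp [hb]
      · exact Or.inr ⟨by rw [ha.1, hb.1, mul_one], ha.2.mul hb.2⟩

lemma Q_le (M : ℕ) : |∑ n ∈ Ioc 0 M, lam n * ((M / n : ℕ) : ℝ)| ≤ √M := by
  have e : ∑ n ∈ Ioc 0 M, lam n * ((M / n : ℕ) : ℝ) =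
      ∑ n ∈ Ioc 0 M, (((liouville * zeta : ArithmeticFunction ℤ) n : ℤ) : ℝ) := by
    rw [← Int.cast_sum, sum_Ioc_mul_zeta_eq_sum, Int.cast_sum]
    refine sum_congr rfl fun n hn => ?_
    rw [liouville_apply (mem_Ioc.1 hn).1.ne', lam, Int.cast_mul, Int.cast_natCast]
    simp
  rw [e]
  refine (abs_sum_le_sum_abs _ _).trans ((sum_le_sum (g := fun n => if IsSquare n then 1 else 0)
    fun n _ => ?_).trans ?_)
  · rcases conv n with h | h
    · rw [h]
      split_ifs <;> simp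
    · simp [h.1, h.2]
  · rw [sum_boole]
    refine le_trans (Nat.cast_le.2 ?_) (Real.nat_sqrt_le_real_sqrt (a := M))
    refine le_trans (card_le_card (t := (Ioc 0 M.sqrt).image fun k => k * k) fun n hn => ?_)
      (card_image_le.trans (by simp))
    obtain ⟨h1, k, rfl⟩ := mem_filter.1 hn
    obtain ⟨h2, h3⟩ := mem_Ioc.1 h1
    exact mem_image.2 ⟨k, mem_Ioc.2 ⟨Nat.pos_of_mul_pos_left h2, Nat.le_sqrt.2 h3⟩, rfl⟩

lemma baseB (M : ℕ) : |F lam ∅ M - 0 * M| ≤ 3 * √M := by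
  have e : F lam ∅ M - 0 * M = ∑ n ∈ Ioc 0 M, lam n * ((M / n : ℕ) : ℝ) -
      2 * ∑ n ∈ Ioc 0 (M / 2), lam n * ((M / 2 / n : ℕ) : ℝ) := by
    rw [sum_subset (Ioc_subset_Ioc_right (Nat.div_le_self M 2)) fun n h1 h2 => by
      rw [Nat.div_eq_of_lt (by simp only [mem_Ioc] at h1 h2; omega)]; simp]
    rw [mul_sum, ← sum_sub_distrib, zero_mul, sub_zero, F, filter_true_of_mem (by simp)]
    refine sum_congr rfl fun n _ => ?_
    rw [w, Nat.div_div_eq_div_mul, Nat.div_div_eq_div_mul, mul_comm n 2]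
    ring
  have h2 : √((M / 2 : ℕ) : ℝ) ≤ √M := Real.sqrt_le_sqrt (by exact_mod_cast Nat.div_le_self M 2)
  have h3 := abs_le.1 (Q_le M)
  have h4 := abs_le.1 (Q_le (M / 2))
  rw [e, abs_le]
  constructor <;> linarith [h3.1, h3.2, h4.1, h4.2]

lemma block (M k : ℕ) (hk : 0 < k) : ∑ n ∈ Ioc (M / (k + 1)) (M / k), w (M / n) =
    (((M / k : ℕ) : ℝ) - ((M / (k + 1) : ℕ) : ℝ)) * w k := by
  rw [sum_congr rfl (g := fun _ => w k) fun n hn => ?_, sum_const, Nat.card_Ioc, nsmul_eq_mul,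
    Nat.cast_sub (Nat.div_le_div_left k.le_succ hk)]
  obtain ⟨h1, h2⟩ := mem_Ioc.1 hn
  have h3 : 0 < n := (Nat.zero_le _).trans_lt h1
  rw [Nat.div_lt_iff_lt_mul k.succ_pos, mul_comm, ← Nat.div_lt_iff_lt_mul h3] at h1
  rw [Nat.le_div_iff_mul_le hk, mul_comm, ← Nat.le_div_iff_mul_le h3] at h2
  rw [show M / n = k by omega]

lemma tail (M j : ℕ) : |∑ n ∈ Ioc (M / (2 * j + 1)) M, w (M / n) -
    M * ((harmonic (2 * j) : ℝ) - harmonic j)| ≤ j := by
  induction j with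
  | zero => simp
  | succ j ih =>
    have l1 : M / (2 * j + 1 + 1 + 1) ≤ M / (2 * j + 1 + 1) := Nat.div_le_div_left (by omega) (by omega)
    have l2 : M / (2 * j + 1 + 1) ≤ M / (2 * j + 1) := Nat.div_le_div_left (by omega) (by omega)
    have w1 : w (2 * j + 1) = 1 := by rw [w_eq, show (2 * j + 1) % 2 = 1 by omega, Nat.cast_one]
    have w2 : w (2 * j + 1 + 1) = 0 := by
      rw [w_eq, show (2 * j + 1 + 1) % 2 = 0 by omega, Nat.cast_zero]
    rw [show 2 * (j + 1) = 2 * j + 1 + 1 by ring, ← sum_Ioc_consecutive _ (l1.trans l2)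
      (Nat.div_le_self M _), ← sum_Ioc_consecutive _ l1 l2, block M _ (by omega),
      block M _ (by omega), w1, w2, harmonic_succ, harmonic_succ, harmonic_succ]
    have a := div_err M (2 * j + 1)
    have b := div_err M (2 * j + 1 + 1)
    have e : (M : ℝ) * ((j : ℝ) + 1)⁻¹ = 2 * (M * (2 * (j : ℝ) + 1 + 1)⁻¹) := by
      field_simp
      ring
    have ih' := abs_le.1 ih
    rw [abs_le]
    push_cast at a b ⊢
    rw [div_eq_mul_inv] at a b
    constructor <;> linarith [a.1, a.2, b.1, b.2, ih'.1, ih'.2]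

lemma harm {j : ℕ} (hj : 0 < j) :
    |((harmonic (2 * j) : ℝ) - harmonic j) - Real.log 2| ≤ 1 / (j + 1) := by
  have h0 : (0 : ℝ) < j := by exact_mod_cast hj
  have h1 := Real.strictMono_eulerMascheroniSeq.monotone (show j ≤ 2 * j by omega)
  have h2 := Real.strictAnti_eulerMascheroniSeq'.antitone (show j ≤ 2 * j by omega)
  simp only [Real.eulerMascheroniSeq, Real.eulerMascheroniSeq', if_neg hj.ne',
    if_neg (show 2 * j ≠ 0 by omega)] at h1 h2
  push_cast at h1 h2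
  rw [Real.log_mul two_ne_zero h0.ne'] at h2
  have h3 := Real.log_le_sub_one_of_pos (show 0 < 2 * ((j : ℝ) + 1) / (2 * j + 1) by positivity)
  rw [Real.log_div (by positivity) (by positivity), Real.log_mul two_ne_zero (by positivity)] at h3
  have h4 : 2 * ((j : ℝ) + 1) / (2 * j + 1) - 1 ≤ 1 / (j + 1) := by
    rw [show 2 * ((j : ℝ) + 1) / (2 * j + 1) - 1 = 1 / (2 * j + 1) by field_simp; ring]
    exact one_div_le_one_div_of_le (by positivity) (by linarith)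
  have h5 : (0 : ℝ) ≤ 1 / (j + 1) := by positivity
  rw [abs_le]
  constructor <;> linarith

lemma baseA (M : ℕ) : |F (fun _ => 1) ∅ M - Real.log 2 * M| ≤ 3 * √M := by
  rcases Nat.eq_zero_or_pos M with rfl | hM
  · simp [F]
  have hj : 0 < M.sqrt := Nat.sqrt_pos.2 hM
  have h1 : (M.sqrt : ℝ) ≤ √M := Real.nat_sqrt_le_real_sqrt
  have h2 : √M ≤ (M.sqrt : ℝ) + 1 := Real.real_sqrt_le_nat_sqrt_succ
  set j := M.sqrt
  have h3 : (M : ℝ) * (1 / (j + 1)) ≤ √M := by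
    rw [mul_one_div, div_le_iff₀ (by positivity)]
    nlinarith [Real.mul_self_sqrt (Nat.cast_nonneg (α := ℝ) M), Real.sqrt_nonneg (M : ℝ)]
  have e : F (fun _ => 1) ∅ M = ∑ n ∈ Ioc 0 (M / (2 * j + 1)), w (M / n) +
      ∑ n ∈ Ioc (M / (2 * j + 1)) M, w (M / n) := by
    rw [sum_Ioc_consecutive _ (Nat.zero_le _) (Nat.div_le_self M _), F,
      filter_true_of_mem (by simp)]
    simp
  have a1 : 0 ≤ ∑ n ∈ Ioc 0 (M / (2 * j + 1)), w (M / n) :=
    sum_nonneg fun n _ => by rw [w_eq]; positivity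
  have a2 : ∑ n ∈ Ioc 0 (M / (2 * j + 1)), w (M / n) ≤ M * (1 / (j + 1)) := by
    refine (sum_le_card_nsmul _ _ 1 fun n _ => ?_).trans ?_
    · rw [w_eq]
      exact_mod_cast (by omega : M / n % 2 ≤ 1)
    · rw [Nat.card_Ioc, nsmul_eq_mul, mul_one, Nat.sub_zero, mul_one_div]
      refine Nat.cast_div_le.trans (div_le_div_of_nonneg_left (by positivity) (by positivity) ?_)
      push_cast
      linarith [Nat.cast_nonneg (α := ℝ) j]
  have a3 := abs_le.1 (tail M j)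
  have a4 := abs_le.1 (harm hj)
  have a5 := mul_le_mul_of_nonneg_left a4.1 (Nat.cast_nonneg (α := ℝ) M)
  have a6 := mul_le_mul_of_nonneg_left a4.2 (Nat.cast_nonneg (α := ℝ) M)
  rw [e, abs_le]
  constructor <;> nlinarith [a3.1, a3.2]

end Mod

open EC.Mod in
theorem pMod : S_Mod := by
  intro u
  have hP : ∀ q ∈ PR 0 (u - 1), q.Prime := fun q hq => (mem_PR.1 hq).1
  obtain ⟨C, hC, h⟩ := sieve (g := fun _ => 1) (fun _ _ _ _ => (one_mul 1).symm) baseA _ hP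
  obtain ⟨C', hC', h'⟩ := sieve (fun _ _ => lam_mul) baseB _ hP
  refine ⟨C + C' + 1, by positivity, fun Y hY => ?_⟩
  have h0 : 0 ≤ Y := by linarith
  have h1 : (1 : ℝ) ≤ √Y := Real.one_le_sqrt.2 hY
  have h2 : √(⌊Y⌋₊ : ℝ) ≤ √Y := Real.sqrt_le_sqrt (Nat.floor_le h0)
  have e : ∀ g : ℕ → ℝ, F g (PR 0 (u - 1)) ⌊Y⌋₊ = ∑ n ∈ (Ioc 0 ⌊Y⌋₊).filter
      (fun n => Nat.Coprime n (pv (PR 0 (u - 1)))), g n * ww (Y / n) := fun g => by
    refine sum_congr ?_ fun n _ => by rw [ww_eq h0]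
    ext n
    simp only [mem_filter, coprime_pv hP n]
  have a := abs_le.1 (h ⌊Y⌋₊)
  have b := h' ⌊Y⌋₊
  simp only [e, one_mul, zero_mul, sub_zero] at a b
  have c1 := mul_le_mul_of_nonneg_left h2 hC.le
  have c2 := mul_le_mul_of_nonneg_left h2 hC'.le
  have c3 : 0 ≤ C * √Y := by positivity
  have c4 : 0 ≤ C' * √Y := by positivity
  refine ⟨?_, by linarith⟩
  have v0 := (V0_pos u).le
  have l0 : 0 ≤ Real.log 2 := Real.log_nonneg one_le_two
  have v1 : V0 u * Real.log 2 ≤ 1 :=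
    mul_le_one₀ (V0_le_one u) l0 (by linarith [Real.log_two_lt_d9])
  have f1 := Nat.floor_le h0
  have f2 := (Nat.lt_floor_add_one Y).le
  have g1 : 0 ≤ V0 u * Real.log 2 * (Y - ⌊Y⌋₊) := mul_nonneg (mul_nonneg v0 l0) (by linarith)
  have g2 : V0 u * Real.log 2 * (Y - ⌊Y⌋₊) ≤ 1 := mul_le_one₀ v1 (by linarith) (by linarith)
  rw [← V0] at a
  rw [abs_le]
  constructor <;> linarith [a.1, a.2]

end Pool.Agent.P.MP_26a8c3_nt.EC
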