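import Pool.Agent.P.MP_26a8c3_nt.EC.Base

/-! The exact sieve identity for the model sequence. -/

namespace Pool.Agent.P.MP_26a8c3_nt.EC

open Finset
open scoped Classical

namespace ModId

lemma tree_up {Δ q : ℕ} {d : Finset ℕ} (h : tree Δ d) : tree Δ (up d q) := fun r hr => by
  have e : up (up d q) r = up d r := by
    ext s
    simp only [mem_up]
    exact ⟨fun a => ⟨a.1.1, a.2⟩, fun a => ⟨⟨a.1, (mem_up.1 hr).2.trans a.2⟩, a.2⟩⟩
  rw [e]
  exact h r (mem_up.1 hr).1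

lemma free_iff (Δ : ℕ) (d : Finset ℕ) : free (fun s => ¬ tree Δ s) d ↔ tree Δ d := by
  refine ⟨fun h => ?_, fun h q _ => not_not.2 (tree_up h)⟩
  rcases d.eq_empty_or_nonempty with rfl | hd
  · exact tree_empty Δ
  · have := not_not.1 (h _ (mn_mem hd))
    rwa [up_mn] at this

lemma first_iff (Δ : ℕ) (d : Finset ℕ) : first (fun s => ¬ tree Δ s) d ↔ bdry Δ d := by
  rw [first, bdry, free_iff]
  refine ⟨fun ⟨hd, h1, h2⟩ => ⟨?_, h2, h1⟩, fun ⟨ho, h2, h1⟩ => ⟨card_pos.1 ho.pos, h1, h2⟩⟩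
  have e := insert_erase (mn_mem hd)
  have c := card_erase_add_one (mn_mem hd)
  rw [← e, tree_insert fun q hq => mn_lt hq] at h1
  have he : Even (d.erase (mn d)).card := by
    by_contra hn
    exact h1 ⟨h2, fun a => absurd a hn⟩
  rw [← c]
  exact he.add_one

lemma sum_inv_sqrt (M : ℕ) : ∑ m ∈ Icc 1 M, (√(m : ℝ))⁻¹ ≤ 2 * √(M : ℝ) := by
  induction M with
  | zero => simp
  | succ M ih =>
    rw [sum_Icc_succ_top (by omega)]
    have h1 : (0 : ℝ) < √((M + 1 : ℕ) : ℝ) := Real.sqrt_pos.2 (by positivity)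
    have h2 : √((M + 1 : ℕ) : ℝ) ^ 2 = M + 1 := by rw [Real.sq_sqrt (by positivity)]; push_cast; ring
    have h3 : √(M : ℝ) ^ 2 = M := Real.sq_sqrt (by positivity)
    have h4 : (√((M + 1 : ℕ) : ℝ))⁻¹ ≤ 2 * √((M + 1 : ℕ) : ℝ) - 2 * √(M : ℝ) := by
      rw [inv_le_iff_one_le_mul₀ h1]
      nlinarith [sq_nonneg (√((M + 1 : ℕ) : ℝ) - √(M : ℝ))]
    linarith

lemma sum_err (u Z Δ : ℕ) {X : ℝ} (hX : 0 ≤ X) :
    ∑ d ∈ (PR u Z).powerset.filter (tree Δ), √(X / pv d) ≤ 2 * √(X * Real.exp Δ) := by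
  have hp : ∀ d ∈ (PR u Z).powerset.filter (tree Δ), ∀ p ∈ d, p.Prime := fun d hd p hp =>
    (mem_PR.1 (mem_powerset.1 (mem_filter.1 hd).1 hp)).1
  have h1 : ∑ d ∈ (PR u Z).powerset.filter (tree Δ), (√((pv d : ℕ) : ℝ))⁻¹ ≤
      ∑ m ∈ Icc 1 ⌊Real.exp Δ⌋₊, (√(m : ℝ))⁻¹ := by
    rw [← sum_image (f := fun m : ℕ => (√(m : ℝ))⁻¹) (g := pv)
      fun d hd d' hd' h => pv_inj (hp d hd) (hp d' hd') h]
    refine sum_le_sum_of_subset_of_nonneg (fun m hm => ?_) fun _ _ _ => by positivity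
    obtain ⟨d, hd, rfl⟩ := mem_image.1 hm
    refine mem_Icc.2 ⟨pv_pos (hp d hd), Nat.le_floor ((pv_le_exp (hp d hd)).trans ?_)⟩
    exact Real.exp_le_exp.2 (by exact_mod_cast tree_ts (mem_filter.1 hd).2)
  have h2 : √((⌊Real.exp Δ⌋₊ : ℕ) : ℝ) ≤ √(Real.exp Δ) :=
    Real.sqrt_le_sqrt (Nat.floor_le (Real.exp_pos _).le)
  have h3 := sum_inv_sqrt ⌊Real.exp Δ⌋₊
  calc _ = √X * ∑ d ∈ (PR u Z).powerset.filter (tree Δ), (√((pv d : ℕ) : ℝ))⁻¹ := by
        rw [mul_sum]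
        exact sum_congr rfl fun d _ => by rw [Real.sqrt_div hX, div_eq_mul_inv]
    _ ≤ √X * (2 * √(Real.exp Δ)) := mul_le_mul_of_nonneg_left (by linarith) (Real.sqrt_nonneg _)
    _ = _ := by rw [Real.sqrt_mul hX]; ring

lemma sum_ite_w (I : Finset ℕ) (a b c : ℕ → Prop) {i1 : DecidablePred a} {i2 : DecidablePred b}
    {i3 : DecidablePred fun n => a n ∧ c n} (w : ℕ → ℝ) (h : ∀ n, b n ↔ c n) :
    ∑ n ∈ I.filter a, (if b n then (1 : ℝ) else 0) * w n =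
      ∑ n ∈ I.filter (fun n => a n ∧ c n), w n := by
  rw [sum_filter, sum_filter]
  refine sum_congr rfl fun n _ => ?_
  by_cases ha : a n <;> by_cases hb : b n <;> simp [ha, hb, ← h n]

end ModId

open ModId in
theorem pModId (hId : S_Id) (hNode : S_Node) : S_ModId := by
  intro u hu
  obtain ⟨C, hC, hN⟩ := hNode u hu
  refine ⟨2 * C, by positivity, fun Z Δ X hZ hX => ?_⟩
  obtain ⟨h1, h2⟩ := hN Z X hZ
  have hX0 : 0 ≤ X := (Real.exp_pos _).le.trans hX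
  have hp : ∀ d ⊆ PR u Z, ∀ p ∈ d, p.Prime := fun d hd p hp => (mem_PR.1 (hd hp)).1
  set w : ℕ → ℝ := fun n => (1 - lam n) * ww (X / n) with hw
  set a : ℕ → Prop := fun n => Nat.Coprime n (pv (PR 0 (u - 1))) with ha
  set T : Finset ℕ → ℝ := fun d => ∑ n ∈ (Ioc 0 ⌊X⌋₊).filter (fun n => a n ∧ pv d ∣ n), w n with hT
  have hsub : ∀ d ⊆ PR u Z, ∀ n, d ⊆ (PR u Z).filter (· ∣ n) ↔ pv d ∣ n := fun d hd n => by
    rw [pv_dvd_iff (hp d hd)]
    exact ⟨fun h p hp => (mem_filter.1 (h hp)).2, fun h p hp => mem_filter.2 ⟨hd hp, h p hp⟩⟩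
  have key : SM 1 X (rt Z) =
      ∑ d ∈ (PR u Z).powerset.filter (tree Δ), (-1) ^ d.card * T d - Bd u Z Δ X := by
    have e := sum_congr (rfl : (Ioc 0 ⌊X⌋₊).filter a = _) fun n _ =>
      congrArg (· * w n) (hId (PR u Z) ((PR u Z).filter (· ∣ n)) (fun s => ¬ tree Δ s)
        (filter_subset _ _))
    simp only [add_mul, sum_add_distrib, sum_mul, mul_assoc] at e
    rw [sum_comm, sum_comm (s := (Ioc 0 ⌊X⌋₊).filter a)] at e
    simp only [← mul_sum] at e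
    rw [filter_congr fun d _ => free_iff Δ d, filter_congr fun d _ => first_iff Δ d] at e
    rw [← h1, sub_eq_add_neg, Bd, ← sum_neg_distrib]
    refine Eq.trans ?_ (e.trans ?_)
    · exact (sum_ite_w (Ioc 0 ⌊X⌋₊) a (fun n => (PR u Z).filter (· ∣ n) = ∅)
        (fun n => ∀ q ∈ PR u Z, ¬ q ∣ n) w fun n => filter_eq_empty_iff).symm
    · congr 1
      · refine sum_congr (by congr) fun d hd => ?_
        have hd' := mem_powerset.1 (mem_filter.1 hd).1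
        congr 1
        exact sum_ite_w (Ioc 0 ⌊X⌋₊) a (fun n => d ⊆ (PR u Z).filter (· ∣ n))
          (fun n => pv d ∣ n) w (hsub d hd')
      · refine sum_congr (by congr) fun d hd => ?_
        have hd' := mem_powerset.1 (mem_filter.1 hd).1
        have ho := (mem_filter.1 hd).2.1
        have e2 := (h2 d hd').2 (card_pos.1 ho.pos)
        rw [ho.neg_one_pow] at e2 ⊢
        rw [← e2, neg_one_mul, neg_inj]
        refine sum_ite_w (Ioc 0 ⌊X⌋₊) a (fun n => d ⊆ (PR u Z).filter (· ∣ n) ∧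
          ∀ q ∈ (PR u Z).filter (· ∣ n), mn d ≤ q)
          (fun n => pv d ∣ n ∧ ∀ q ∈ PR u Z, q ∣ n → mn d ≤ q) w (fun n => ?_)
        rw [hsub d hd']
        simp only [mem_filter, and_imp]
  have e3 : V0 u * Real.log 2 * GT u Z Δ * X - SM 1 X (rt Z) - Bd u Z Δ X =
      ∑ d ∈ (PR u Z).powerset.filter (tree Δ),
        -((-1) ^ d.card * (T d - V0 u * Real.log 2 * (X / pv d))) := by
    rw [key, GT, mul_sum, sum_mul, sub_sub, sub_add_cancel, ← sum_sub_distrib]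
    exact sum_congr rfl fun d _ => by ring
  rw [e3]
  refine (abs_sum_le_sum_abs _ _).trans ?_
  have e4 := mul_le_mul_of_nonneg_left (sum_err u Z Δ hX0) hC.le
  rw [mul_sum] at e4
  refine (sum_le_sum fun d hd => ?_).trans (e4.trans (le_of_eq (by ring)))
  have hd' := mem_powerset.1 (mem_filter.1 hd).1
  rw [abs_neg, abs_mul, abs_pow, abs_neg, abs_one, one_pow, one_mul]
  refine (h2 d hd').1 ((pv_le_exp (hp d hd')).trans (le_trans ?_ hX))
  exact Real.exp_le_exp.2 (by exact_mod_cast tree_ts (mem_filter.1 hd).2)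

end Pool.Agent.P.MP_26a8c3_nt.EC
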