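import Pool.Agent.P.MP_26a8c3_nt.EC.Base

/-! The model sums over the multiples of a node. -/

namespace Pool.Agent.P.MP_26a8c3_nt.EC

open Finset
open scoped Classical

namespace Node

lemma subst {D : ℕ} (hD : 0 < D) (X : ℝ) (P Q : ℕ → Prop) [DecidablePred P] [DecidablePred Q]
    (h1 : ∀ n, P n → D ∣ n) (h2 : ∀ m, P (D * m) ↔ Q m) :
    ∑ n ∈ (Ioc 0 ⌊X⌋₊).filter P, (1 - lam n) * ww (X / n) =
      ∑ m ∈ (Ioc 0 ⌊X / D⌋₊).filter Q, (1 - lam D * lam m) * ww (X / D / m) := by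
  symm
  rw [Nat.floor_div_natCast]
  refine sum_bij (fun m _ => D * m) (fun m hm => ?_) (fun a _ b _ e => Nat.eq_of_mul_eq_mul_left hD e)
    (fun n hn => ?_) fun m hm => ?_
  · obtain ⟨a, b⟩ := mem_filter.1 hm
    exact mem_filter.2 ⟨mem_Ioc.2 ⟨Nat.mul_pos hD (mem_Ioc.1 a).1,
      mul_comm m D ▸ (Nat.le_div_iff_mul_le hD).1 (mem_Ioc.1 a).2⟩, (h2 m).2 b⟩
  · obtain ⟨a, b⟩ := mem_filter.1 hn
    obtain ⟨m, rfl⟩ := h1 n b
    exact ⟨m, mem_filter.2 ⟨mem_Ioc.2 ⟨Nat.pos_of_mul_pos_left (mem_Ioc.1 a).1,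
      (Nat.le_div_iff_mul_le hD).2 (mul_comm D m ▸ (mem_Ioc.1 a).2)⟩, (h2 m).1 b⟩, rfl⟩
  · rw [lam_mul hD.ne' (mem_Ioc.1 (mem_filter.1 hm).1).1.ne', Nat.cast_mul, div_div]

lemma prime_PR (a b : ℕ) : ∀ p ∈ PR a b, p.Prime := fun _ h => (mem_PR.1 h).1

lemma cop_iff {u n : ℕ} (hu : 1 ≤ u) :
    Nat.Coprime n (pv (PR 0 (u - 1))) ↔ ∀ q : ℕ, q.Prime → q ∣ n → u ≤ tau q := by
  rw [coprime_pv (prime_PR _ _)]
  refine ⟨fun h q hq e => not_lt.1 fun c => h q (mem_PR.2 ⟨hq, Nat.zero_le _, by omega⟩) e,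
    fun h q hq e => ?_⟩
  have := h q (mem_PR.1 hq).1 e
  have := (mem_PR.1 hq).2.2
  omega

lemma rt_le {Z q : ℕ} (hq : q.Prime) : rt Z ≤ q ↔ Z < tau q := by
  rw [rt, Nat.succ_le_iff, Nat.floor_lt (Real.exp_pos _).le, ← not_le (a := tau q), tau_le_iff,
    not_le, Real.lt_log_iff_exp_lt (by exact_mod_cast hq.pos)]

end Node

open Node in
theorem pNode (hMod : S_Mod) : S_Node := by
  intro u hu
  obtain ⟨C, hC, h⟩ := hMod u
  refine ⟨2 * C, by positivity, fun Z X hZ => ⟨?_, fun d hd => ?_⟩⟩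
  · refine sum_congr (filter_congr fun n _ => ?_) fun n _ => by rw [one_mul]
    rw [cop_iff hu]
    refine ⟨fun a q hq e => (rt_le hq).2 (not_le.1 fun c =>
      a.2 q (mem_PR.2 ⟨hq, a.1 q hq e, c⟩) e), fun a => ⟨fun q hq e => ?_, fun q hq e => ?_⟩⟩
    · exact hZ.trans ((rt_le hq).1 (a q hq e)).le
    · exact ((rt_le (mem_PR.1 hq).1).1 (a q (mem_PR.1 hq).1 e)).not_ge (mem_PR.1 hq).2.2
  have hp : ∀ p ∈ d, p.Prime := fun p a => (mem_PR.1 (hd a)).1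
  have h0 := pv_pos hp
  have hc : ∀ q : ℕ, q.Prime → q ∣ pv d → q ∈ d := fun q hq e => (prime_dvd_pv hp hq).1 e
  refine ⟨fun hX => ?_, fun hne => ?_⟩
  · rw [subst h0 X _ (fun m => Nat.Coprime m (pv (PR 0 (u - 1)))) (fun n a => a.2) fun m =>
      ⟨fun a => a.1.coprime_mul_left, fun a => ⟨Nat.Coprime.mul_left ((cop_iff hu).2 fun q hq e =>
        (mem_PR.1 (hd (hc q hq e))).2.1) a, dvd_mul_right _ _⟩⟩]
    obtain ⟨a, b⟩ := h (X / pv d) ((one_le_div (by exact_mod_cast h0)).2 hX)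
    simp only [sub_mul, one_mul, mul_assoc (lam (pv d)), sum_sub_distrib, ← mul_sum]
    rw [abs_le] at a b ⊢
    rcases lam_mem (pv d) with e | e <;> rw [e] <;> constructor <;> linarith [a.1, a.2, b.1, b.2]
  have hm := mem_PR.1 (hd (mn_mem hne))
  refine (subst h0 X _ (rough (mn d)) (fun n a => a.2.1) fun m => ⟨fun a q hq e => ?_, fun a =>
    ⟨(cop_iff hu).2 fun q hq e => ?_, dvd_mul_right _ _, fun q hq e => ?_⟩⟩).trans
    (by rw [lam_pv hp, SM])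
  · have e' := e.mul_left (pv d)
    rcases le_or_gt (tau q) Z with c | c
    · exact a.2.2 q (mem_PR.2 ⟨hq, (cop_iff hu).1 a.1 q hq e', c⟩) e'
    · exact (lt_of_tau_lt (hm.2.2.trans_lt c)).le
  · rcases hq.dvd_mul.1 e with c | c
    · exact (mem_PR.1 (hd (hc q hq c))).2.1
    · exact hm.2.1.trans (tau_mono (a q hq c))
  · rcases (mem_PR.1 hq).1.dvd_mul.1 e with c | c
    · exact mn_le (hc q (mem_PR.1 hq).1 c)
    · exact a q (mem_PR.1 hq).1 c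

end Pool.Agent.P.MP_26a8c3_nt.EC
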