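import Pool.Agent.P.MP_26a8c3_nt.EC.Base

/-! Two partners give a popular rational point. -/

namespace Pool.Agent.P.MP_26a8c3_nt.EC

open Finset
open scoped Classical

namespace Pair

/-- A nonzero integer of size at most `exp (2 Λ)` has at most `3 Λ` prime divisors. -/
lemma card_le {S : Finset ℕ} {w : ℤ} {Λ : ℝ} (hw : w ≠ 0) (hS : ∀ p ∈ S, p.Prime ∧ (p : ℤ) ∣ w)
    (hb : |(w : ℝ)| ≤ Real.exp (2 * Λ)) : (S.card : ℝ) ≤ 3 * Λ := by
  have h1 : pv S ∣ w.natAbs := (pv_dvd_iff (fun p hp => (hS p hp).1) _).2 fun p hp =>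
    Int.natCast_dvd.1 (hS p hp).2
  have h2 : pv S ≤ w.natAbs := Nat.le_of_dvd (Int.natAbs_pos.2 hw) h1
  have h3 : 2 ^ S.card ≤ pv S :=
    Finset.pow_card_le_prod S (fun p => p) 2 fun p hp => (hS p hp).1.two_le
  have h4 : (2 : ℝ) ^ S.card ≤ Real.exp (2 * Λ) := by
    refine le_trans ?_ hb
    have : ((2 ^ S.card : ℕ) : ℝ) ≤ (w.natAbs : ℝ) := Nat.cast_le.2 (h3.trans h2)
    rw [Nat.cast_natAbs, Int.cast_abs] at this
    exact_mod_cast this
  have h5 := Real.log_le_log (by positivity) h4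
  rw [Real.log_pow, Real.log_exp] at h5
  have h6 := Real.log_two_gt_d9
  have h7 : (0 : ℝ) ≤ S.card := Nat.cast_nonneg _
  nlinarith

/-- The mass of the large primes dividing `D` is carried by `E` up to the primes of `w`. -/
lemma ag_le (u : ℕ) {th L Λ : ℝ} (hL : 1 ≤ L) {D E w : ℤ} (hw : w ≠ 0)
    (hb : |(w : ℝ)| ≤ Real.exp (2 * Λ))
    (h : ∀ p : ℕ, p.Prime → (p : ℤ) ∣ D → (p : ℤ) ∣ E ∨ (p : ℤ) ∣ w) :
    ag u th L D ≤ ag u th L E + 3 * Λ * (L ^ (20 * th))⁻¹ := by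
  have hy : 0 < L ^ (20 * th) := Real.rpow_pos_of_pos (by linarith) _
  set S : Finset ℕ := (PPs u L).filter fun p : ℕ => L ^ (20 * th) ≤ (p : ℝ) ∧ (p : ℤ) ∣ w with hS
  have h1 : rc S ≤ 3 * Λ * (L ^ (20 * th))⁻¹ := by
    have a1 : rc S ≤ S.card * (L ^ (20 * th))⁻¹ := by
      rw [← nsmul_eq_mul]
      exact sum_le_card_nsmul _ _ _ fun p hp => inv_anti₀ hy (mem_filter.1 hp).2.1
    refine a1.trans (mul_le_mul_of_nonneg_right ?_ (inv_nonneg.2 hy.le))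
    exact card_le hw (fun p hp => ⟨PPs_prime p (mem_filter.1 hp).1, (mem_filter.1 hp).2.2⟩) hb
  refine le_trans ?_ (add_le_add le_rfl h1)
  unfold ag rc
  rw [hS, sum_filter, sum_filter, sum_filter, ← sum_add_distrib]
  refine sum_le_sum fun p hp => ?_
  have hp0 : (0 : ℝ) ≤ (p : ℝ)⁻¹ := by positivity
  by_cases c1 : L ^ (20 * th) ≤ (p : ℝ) ∧ (p : ℤ) ∣ D
  · rw [if_pos c1]
    rcases h p (PPs_prime p hp) c1.2 with c2 | c2
    · rw [if_pos ⟨c1.1, c2⟩]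
      split_ifs <;> linarith
    · rw [if_pos (show L ^ (20 * th) ≤ (p : ℝ) ∧ (p : ℤ) ∣ w from ⟨c1.1, c2⟩)]
      split_ifs <;> linarith
  · rw [if_neg c1]
    split_ifs <;> linarith

lemma num {th L Λ : ℝ} (hΛ : 2 ≤ Λ) (hL : 1 ≤ L) (h : Λ ^ 40 ≤ L ^ th) :
    L ^ (-(7 * th)) + 3 * Λ * (L ^ (20 * th))⁻¹ ≤ L ^ (-(6 * th)) / 4 := by
  have hL0 : 0 < L := by linarith
  set s := L ^ th with hs
  have e (n : ℕ) : L ^ ((n : ℝ) * th) = s ^ n := by
    rw [mul_comm, Real.rpow_mul hL0.le, Real.rpow_natCast]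
  have e7 : L ^ (-(7 * th)) = (s ^ 7)⁻¹ := by
    rw [Real.rpow_neg hL0.le, ← e 7]; norm_num
  have e6 : L ^ (-(6 * th)) = (s ^ 6)⁻¹ := by
    rw [Real.rpow_neg hL0.le, ← e 6]; norm_num
  have e20 : L ^ (20 * th) = s ^ 20 := by
    rw [← e 20]; norm_num
  rw [e7, e6, e20]
  have a1 : (2 : ℝ) ^ 39 ≤ Λ ^ 39 := pow_le_pow_left₀ (by norm_num) hΛ 39
  have a2 : 4 * Λ ≤ s := by
    have : Λ ^ 40 = Λ ^ 39 * Λ := pow_succ _ _
    nlinarith
  have a3 : 8 ≤ s := by linarith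
  have s0 : 0 < s := by linarith
  have a4 : s ≤ s ^ 13 := le_self_pow₀ (by linarith) (by norm_num)
  have b1 : 3 * Λ * (s ^ 20)⁻¹ ≤ (s ^ 7)⁻¹ := by
    rw [← div_eq_mul_inv, div_le_iff₀ (by positivity)]
    have : (s ^ 7)⁻¹ * s ^ 20 = s ^ 13 := by field_simp
    linarith
  have b2 : 2 * (s ^ 7)⁻¹ ≤ (s ^ 6)⁻¹ / 4 := by
    have : (s ^ 6)⁻¹ = s * (s ^ 7)⁻¹ := by field_simp
    rw [this]
    have : 0 ≤ (s ^ 7)⁻¹ := by positivity
    nlinarith
  linarith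

/-- The reduced fraction `r / w` with positive denominator. -/
lemma red (r w : ℤ) (hw : w ≠ 0) :
    ∃ g a v : ℤ, g ≠ 0 ∧ r = g * a ∧ w = g * v ∧ 1 ≤ v ∧ IsCoprime a v := by
  have h0 : 0 < Int.gcd r w := Int.gcd_pos_of_ne_zero_right r hw
  obtain ⟨a, v, hc, ha, hv⟩ := Int.exists_gcd_one h0
  have hg : ((Int.gcd r w : ℕ) : ℤ) ≠ 0 := by exact_mod_cast h0.ne'
  have hc' : IsCoprime a v := Int.isCoprime_iff_gcd_eq_one.2 hc
  have hv0 : v ≠ 0 := fun h => hw (by rw [hv, h, zero_mul])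
  rcases lt_or_gt_of_ne hv0 with h | h
  · refine ⟨-(Int.gcd r w : ℤ), -a, -v, neg_ne_zero.2 hg, ?_, ?_, by omega, hc'.neg_neg⟩
    · rw [neg_mul_neg, mul_comm]; exact ha
    · rw [neg_mul_neg, mul_comm]; exact hv
  · exact ⟨(Int.gcd r w : ℤ), a, v, hg, by rw [mul_comm]; exact ha, by rw [mul_comm]; exact hv,
      by omega, hc'⟩

end Pair

theorem pPair : S_Pair := by
  intro th _
  refine ⟨2, fun u A d d' Λ L hΛ hL hLΛ hd hd' hne hco hb hb' hag => ?_⟩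
  set D : ℤ := ((A / d : ℕ) : ℤ) - ((A / d' : ℕ) : ℤ) with hD
  set w : ℤ := (d' : ℤ) - d with hw
  set r : ℤ := (d' : ℤ) * (A % d : ℕ) - (d : ℤ) * (A % d' : ℕ) with hr
  have hw0 : w ≠ 0 := by omega
  have k1 : (d : ℤ) * (A / d : ℕ) + (A % d : ℕ) = A := by exact_mod_cast Nat.div_add_mod A d
  have k2 : (d' : ℤ) * (A / d' : ℕ) + (A % d' : ℕ) = A := by exact_mod_cast Nat.div_add_mod A d'
  have key : (d : ℤ) * d' * D = w * A - r := by
    rw [hD, hw, hr]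
    linear_combination (d' : ℤ) * k1 - (d : ℤ) * k2
  have hr1 : |r| ≤ (d : ℤ) * d' := by
    have m1 : ((A % d : ℕ) : ℤ) ≤ d := by exact_mod_cast (Nat.mod_lt A hd).le
    have m2 : ((A % d' : ℕ) : ℤ) ≤ d' := by exact_mod_cast (Nat.mod_lt A hd').le
    have m3 : (0 : ℤ) ≤ ((A % d : ℕ) : ℤ) := Int.natCast_nonneg _
    have m4 : (0 : ℤ) ≤ ((A % d' : ℕ) : ℤ) := Int.natCast_nonneg _
    have m5 : (0 : ℤ) ≤ d := Int.natCast_nonneg _
    have m6 : (0 : ℤ) ≤ d' := Int.natCast_nonneg _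
    rw [hr, abs_le]
    constructor <;> nlinarith
  obtain ⟨g, a, v, hg, ha, hv, hv1, hav⟩ := Pair.red r w hw0
  have hg1 : 1 ≤ |g| := Int.one_le_abs hg
  have hE : g * (v * A - a) = (d : ℤ) * d' * D := by
    rw [key, ha, hv]; ring
  have c0 : IsCoprime (d : ℤ) (d' : ℤ) := Nat.isCoprime_iff_coprime.2 hco
  have c1 : IsCoprime ((d : ℤ) * d') w := by
    refine IsCoprime.mul_left ?_ ?_
    · have := c0.add_mul_left_right (-1)
      rwa [show (d' : ℤ) + d * (-1) = w by rw [hw]; ring] at this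
    · have := c0.symm.neg_right.add_mul_left_right 1
      rwa [show -(d : ℤ) + d' * 1 = w by rw [hw]; ring] at this
  have c2 : IsCoprime ((d : ℤ) * d') g := by
    rw [hv] at c1
    exact c1.of_mul_right_left
  have hdvd : (d : ℤ) * d' ∣ v * A - a := c2.dvd_of_dvd_mul_left ⟨D, hE⟩
  have hwb : |(w : ℝ)| ≤ Real.exp (2 * Λ) := by
    have p1 : (0 : ℝ) ≤ d := Nat.cast_nonneg _
    have p2 : (0 : ℝ) ≤ d' := Nat.cast_nonneg _
    rw [hw, abs_le]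
    push_cast
    constructor <;> linarith
  have e4 : Real.exp (4 * Λ) = Real.exp (2 * Λ) * Real.exp (2 * Λ) := by
    rw [← Real.exp_add]; ring_nf
  have e1 : 1 ≤ Real.exp (2 * Λ) := Real.one_le_exp (by linarith)
  have haw : |w| = |g| * v := by rw [hv, abs_mul, abs_of_nonneg (by omega : 0 ≤ v)]
  have har : |r| = |g| * |a| := by rw [ha, abs_mul]
  refine ⟨(a, v), ⟨hav, hv1, ?_, ?_, ?_⟩, ⟨g, by rw [mul_comm]; exact hv⟩, ?_, ?_⟩
  · have t1 : |a| ≤ (d : ℤ) * d' := by nlinarith [abs_nonneg a]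
    have t2 : |(a : ℝ)| ≤ (d : ℝ) * d' := by exact_mod_cast t1
    rw [e4]
    exact t2.trans (mul_le_mul hb hb' (Nat.cast_nonneg _) (Real.exp_pos _).le)
  · have t1 : v ≤ |w| := by nlinarith
    have t2 : (v : ℝ) ≤ |(w : ℝ)| := by exact_mod_cast t1
    rw [e4]
    nlinarith
  · have t1 := Pair.ag_le u (th := th) (D := D) (E := v * A - a) hL hw0 hwb fun p hp hpD => by
      have hp' : Prime (p : ℤ) := Nat.prime_iff_prime_int.1 hp
      have : (p : ℤ) ∣ g * (v * A - a) := by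
        rw [hE]
        exact hpD.mul_left _
      rcases hp'.dvd_or_dvd this with h | h
      · exact Or.inr (by rw [hv]; exact h.mul_right _)
      · exact Or.inl h
    have t2 := Pair.num hΛ hL hLΛ
    show L ^ (-(7 * th)) ≤ ag u th L (v * A - a)
    linarith
  · show |a| * |w| ≤ v * ((d : ℤ) * d')
    rw [haw]
    nlinarith
  · show ((d * d' : ℕ) : ℤ) ∣ v * A - a
    push_cast
    exact hdvd

end Pool.Agent.P.MP_26a8c3_nt.EC
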