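import Pool.Agent.P.MP_26a8c3_nt.EC.Base

/-! A scale that carries a positive share of the even nodes. -/

namespace Pool.Agent.P.MP_26a8c3_nt.EC

open Finset
open scoped Classical

namespace Par

lemma large (E : ℝ) : ∃ Λ0 : ℝ, ∀ Λ : ℝ, Λ0 ≤ Λ → E ≤ Real.log Λ ∧ E * Real.log Λ ^ 2 ≤ Λ := by
  have h1 : ∀ᶠ Λ : ℝ in Filter.atTop, E ≤ Real.log Λ :=
    Real.tendsto_log_atTop.eventually_ge_atTop E
  have h2 := (Real.isLittleO_pow_log_id_atTop (n := 2)).bound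
    (c := (|E| + 1)⁻¹) (by positivity)
  obtain ⟨Λ0, h⟩ := Filter.eventually_atTop.1 (h1.and (h2.and (Filter.eventually_ge_atTop 0)))
  refine ⟨Λ0, fun Λ hΛ => ⟨(h Λ hΛ).1, ?_⟩⟩
  obtain ⟨-, a, b⟩ := h Λ hΛ
  rw [Real.norm_of_nonneg (sq_nonneg _), id, Real.norm_of_nonneg b, ← div_eq_inv_mul,
    le_div_iff₀ (by positivity)] at a
  nlinarith [le_abs_self E, sq_nonneg (Real.log Λ)]

lemma cover (P : ℕ → ℝ) (hP : ∀ l, 0 ≤ P l) {a b : ℕ} (ha : 10200 ≤ a) (hab : a ≤ b) :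
    ∃ μ : ℕ, a < 102 * μ ∧ 100 * μ ≤ b ∧
      (a : ℝ) / (10200 * b) * ∑ l ∈ Icc a b, P l ≤ ∑ l ∈ Ico (100 * μ) (102 * μ), P l := by
  set M : Finset ℕ := (Icc 1 b).filter fun μ => a < 102 * μ ∧ 100 * μ ≤ b with hM
  have hb : (0 : ℝ) < b := by exact_mod_cast (by omega)
  have hS : 0 ≤ ∑ l ∈ Icc a b, P l := sum_nonneg fun l _ => hP l
  have hne : M.Nonempty := ⟨a / 100, by
    rw [hM, mem_filter, mem_Icc]
    omega⟩
  have hc : (M.card : ℝ) ≤ b := by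
    have := card_filter_le (Icc 1 b) fun μ => a < 102 * μ ∧ 100 * μ ≤ b
    rw [Nat.card_Icc, ← hM] at this
    exact_mod_cast (by omega : M.card ≤ b)
  have h1 : (a : ℝ) / 10200 * ∑ l ∈ Icc a b, P l ≤
      ∑ μ ∈ M, ∑ l ∈ Ico (100 * μ) (102 * μ), P l := by
    calc (a : ℝ) / 10200 * ∑ l ∈ Icc a b, P l
        ≤ ∑ l ∈ Icc a b, ∑ μ ∈ M, if l ∈ Ico (100 * μ) (102 * μ) then P l else 0 := by
          rw [mul_sum]
          refine sum_le_sum fun l hl => ?_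
          rw [← sum_filter, sum_const, nsmul_eq_mul]
          refine mul_le_mul_of_nonneg_right ?_ (hP l)
          have hl' := mem_Icc.1 hl
          have s : Ioc (l / 102) (l / 100) ⊆ M.filter fun μ => l ∈ Ico (100 * μ) (102 * μ) := by
            intro μ hμ
            rw [mem_Ioc] at hμ
            rw [mem_filter, hM, mem_filter, mem_Icc, mem_Ico]
            omega
          have c := card_le_card s
          rw [Nat.card_Ioc] at c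
          rw [div_le_iff₀ (by norm_num)]
          exact_mod_cast (by omega :
            a ≤ (M.filter fun μ => l ∈ Ico (100 * μ) (102 * μ)).card * 10200)
      _ ≤ _ := by
          rw [sum_comm]
          refine sum_le_sum fun μ _ => ?_
          rw [← sum_filter]
          exact sum_le_sum_of_subset_of_nonneg (fun l hl => (mem_filter.1 hl).2)
            fun l _ _ => hP l
  obtain ⟨μ, hμ, h⟩ := exists_le_of_sum_le (f := fun _ => (a : ℝ) / (10200 * b) *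
    ∑ l ∈ Icc a b, P l) (g := fun μ => ∑ l ∈ Ico (100 * μ) (102 * μ), P l) hne (by
      refine le_trans ?_ h1
      rw [sum_const, nsmul_eq_mul]
      refine (mul_le_mul_of_nonneg_right hc (by positivity)).trans (le_of_eq ?_)
      field_simp)
  exact ⟨μ, (mem_filter.1 hμ).2.1, (mem_filter.1 hμ).2.2, h⟩

lemma low {Λ κ C1 C2 g N X D : ℝ} (hΛ : 1 ≤ Λ) (hκ : 0 ≤ κ) (hκ' : 5 * κ ≤ Λ) (h1 : 0 ≤ C1)
    (h2 : 0 ≤ C2) (hN : 0 < N) (hX : 0 < X)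
    (a : 2 * Real.log 2 * N / Λ * (1 - C2 / Λ) - C1 * (N / Λ ^ 3) ≤ g * N)
    (b : g * X - 2 * Real.log 2 * X / (Λ + κ) * (1 + C2 / (Λ + κ)) - C1 * (X / Λ ^ 3) ≤ D) :
    X * ((κ - (3 * C2 + 2 * C1)) / Λ ^ 2) ≤ D := by
  have l1 := Real.log_two_gt_d9
  have l2 := Real.log_two_lt_d9
  set L := Real.log 2
  have hΛ0 : 0 < Λ := by linarith
  have a' : 2 * L / Λ * (1 - C2 / Λ) - C1 / Λ ^ 3 ≤ g := by
    refine le_of_mul_le_mul_right (le_trans (le_of_eq ?_) a) hN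
    ring
  refine le_trans ?_ b
  have e : g * X - 2 * L * X / (Λ + κ) * (1 + C2 / (Λ + κ)) - C1 * (X / Λ ^ 3) =
      X * (g - 2 * L / (Λ + κ) * (1 + C2 / (Λ + κ)) - C1 / Λ ^ 3) := by ring
  rw [e]
  refine mul_le_mul_of_nonneg_left ?_ hX.le
  have p1 : κ / Λ ^ 2 ≤ 2 * L / Λ - 2 * L / (Λ + κ) := by
    rw [div_sub_div _ _ hΛ0.ne' (by positivity), div_le_div_iff₀ (by positivity) (by positivity)]
    have : 0 ≤ κ * Λ * (2 * L * Λ - Λ - κ) := mul_nonneg (by positivity) (by nlinarith)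
    nlinarith
  have p2 : 2 * L / Λ * (C2 / Λ) ≤ 3 / 2 * C2 / Λ ^ 2 := by
    rw [div_mul_div_comm, ← sq]
    exact div_le_div_of_nonneg_right (by nlinarith) (by positivity)
  have p3 : 2 * L / (Λ + κ) * (C2 / (Λ + κ)) ≤ 3 / 2 * C2 / Λ ^ 2 := by
    rw [div_mul_div_comm, ← sq]
    exact div_le_div₀ (by positivity) (by nlinarith) (by positivity) (by nlinarith)
  have p4 : C1 / Λ ^ 3 ≤ C1 / Λ ^ 2 :=
    div_le_div_of_nonneg_left h1 (by positivity) (by nlinarith [sq_nonneg Λ])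
  have e2 : (κ - (3 * C2 + 2 * C1)) / Λ ^ 2 =
      κ / Λ ^ 2 - 2 * (3 / 2 * C2 / Λ ^ 2) - 2 * (C1 / Λ ^ 2) := by ring
  rw [e2]
  nlinarith

lemma Bd_nonneg (hMinus : S_Minus) (u Z Δ : ℕ) {X : ℝ} (hX : 0 ≤ X) : 0 ≤ Bd u Z Δ X := by
  obtain ⟨C, -, h⟩ := hMinus
  refine sum_nonneg fun d hd => ?_
  obtain ⟨h1, h2⟩ := mem_filter.1 hd
  exact (h _ _ (by positivity)
    (mem_PR.1 (mem_powerset.1 h1 (mn_mem (card_pos.1 h2.1.pos)))).1).1

lemma sqrt_le {X D Λ : ℝ} (hX : 0 ≤ X) (hΛ : 0 < Λ) (h : D ≤ X / Λ ^ 6) :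
    √(X * D) ≤ X / Λ ^ 3 := by
  rw [Real.sqrt_le_left (by positivity)]
  refine (mul_le_mul_of_nonneg_left h hX).trans (le_of_eq ?_)
  ring

lemma up {Λ κ K C C' ε X D Δ S : ℝ} (hΛ : 0 < Λ) (hκ : 0 < κ) (k1 : κ ≤ K) (k2 : K ≤ 2 * κ)
    (hC : 0 < C) (hε : ε = 1 / (32 * (C + 1))) (hX : 0 < X) (hΔ : Λ / 2 ≤ Δ) (hS : 0 ≤ S)
    (hb : 4 * (C' + 4 * C) ≤ κ) (a : X * ((κ - C') / Λ ^ 2) ≤ D)
    (b : D ≤ X * (C * (1 + ε * K) / Δ ^ 2 + C / (ε * K) * S)) :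
    16 * ε ^ 2 * κ ^ 2 / Λ ^ 2 ≤ S := by
  have he : 0 < ε := by rw [hε]; positivity
  have e1 : ε * (C + 1) = 1 / 32 := by rw [hε]; field_simp
  have c := le_of_mul_le_mul_left (a.trans b) hX
  have p1 : C * (1 + ε * K) / Δ ^ 2 ≤ (4 * C + κ / 4) / Λ ^ 2 := by
    have q1 : C * (1 + ε * K) ≤ C + κ / 16 := by
      have : ε * C * K ≤ 1 / 32 * (2 * κ) :=
        mul_le_mul (by nlinarith) k2 (by linarith) (by norm_num)
      nlinarith
    refine (div_le_div₀ (by positivity) q1 (by positivity : 0 < (Λ / 2) ^ 2)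
      (pow_le_pow_left₀ (by positivity) hΔ 2)).trans (le_of_eq ?_)
    field_simp
    ring
  have p2 : C / (ε * K) * S ≤ 1 / (32 * ε ^ 2 * κ) * S := by
    refine mul_le_mul_of_nonneg_right ?_ hS
    rw [div_le_div_iff₀ (mul_pos he (by linarith)) (by positivity)]
    have q : ε * C * 32 * κ ≤ 1 * K := mul_le_mul (by nlinarith) k1 hκ.le (by norm_num)
    nlinarith
  have p3 : κ / 2 / Λ ^ 2 ≤ 1 / (32 * ε ^ 2 * κ) * S := by
    have q : κ / 2 / Λ ^ 2 + (4 * C + κ / 4) / Λ ^ 2 ≤ (κ - C') / Λ ^ 2 := by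
      rw [← add_div]
      exact div_le_div_of_nonneg_right (by linarith) (by positivity)
    linarith
  rw [one_div_mul_eq_div, le_div_iff₀ (by positivity)] at p3
  refine le_trans (le_of_eq ?_) p3
  ring

lemma num {B u C q ll Λ : ℝ} (hB : 18 ≤ B) (u0 : 0 ≤ u) (C0 : 0 ≤ C) (q0 : 0 ≤ q)
    (g1 : 8 * B ^ 2 + 3 * u + 4 * C + q ≤ ll) (g2 : (8 * B ^ 2 + 3 * u + 4 * C + q) * ll ^ 2 ≤ Λ) :
    1 ≤ ll ∧ 3 * u ≤ Λ ∧ 18 * ll ≤ B * ll ∧ 144 * (B * ll) ≤ Λ ∧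
      (B * ll + 18 * ll) ^ 2 ≤ Λ / 2 ∧ 4 * C ≤ ll ∧ q ≤ ll := by
  have B2 : 18 * B ≤ B ^ 2 := by nlinarith
  have l1 : 1 ≤ ll := by linarith
  have l2 : ll ≤ ll ^ 2 := by nlinarith
  have l3 : 8 * B ^ 2 * ll ^ 2 ≤ Λ := le_trans (mul_le_mul_of_nonneg_right (by linarith)
    (sq_nonneg _)) g2
  have l4 : 3 * u * 1 ≤ (8 * B ^ 2 + 3 * u + 4 * C + q) * ll ^ 2 :=
    mul_le_mul (by linarith) (by linarith) (by norm_num) (by linarith)
  have k0 : 18 * ll ≤ B * ll := mul_le_mul_of_nonneg_right hB (by linarith)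
  have k1 : 8 * (B * ll) ^ 2 ≤ Λ := le_trans (le_of_eq (by ring)) l3
  have k2 : 18 * (B * ll) ≤ B * ll * (B * ll) :=
    mul_le_mul_of_nonneg_right (by linarith) (by linarith)
  have k3 : (B * ll + 18 * ll) ^ 2 ≤ (2 * (B * ll)) ^ 2 :=
    pow_le_pow_left₀ (by linarith) (by linarith) 2
  refine ⟨l1, by linarith, k0, by nlinarith, by nlinarith, by linarith, by linarith⟩

lemma fin {ε κ μ a b S T Λ : ℝ} (he : 0 < ε) (he1 : ε ≤ 1) (hκ : 0 < κ) (hΛ : 0 < Λ) (μ0 : 0 ≤ μ)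
    (b1 : 0 < b) (a1 : ε * κ ≤ a) (a2 : b ≤ 6 * κ / ε) (c1 : a ≤ 102 * μ) (c2 : 100 * μ ≤ b)
    (hS : 16 * ε ^ 2 * κ ^ 2 / Λ ^ 2 ≤ S) (c3 : a / (10200 * b) * S ≤ T) :
    ε ^ 6 / 10200 * κ ≤ μ ∧ μ ≤ κ / (ε ^ 6 / 10200) ∧ ε ^ 6 / 10200 * μ ^ 2 / Λ ^ 2 ≤ T := by
  have he5 : ε ^ 5 ≤ 1 := pow_le_one₀ he.le he1
  have e61 : ε ^ 6 ≤ ε := by nlinarith
  have c2' : ε * μ ≤ κ := by
    have := c2.trans a2
    rw [le_div_iff₀ he] at this
    linarith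
  have p1 := mul_le_mul_of_nonneg_right e61 hκ.le
  have p2 := mul_le_mul_of_nonneg_right e61 μ0
  have a0 : 0 ≤ a := le_trans (by positivity) a1
  refine ⟨by linarith, ?_, le_trans ?_ c3⟩
  · rw [le_div_iff₀ (by positivity)]
    linarith
  · have b2 : ε ^ 2 / 61200 ≤ a / (10200 * b) := by
      refine le_trans (le_of_eq ?_) (div_le_div₀ a0 a1 (by positivity)
        (mul_le_mul_of_nonneg_left a2 (by norm_num)))
      field_simp
      norm_num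
    refine le_trans ?_ (mul_le_mul b2 hS (by positivity) (by positivity))
    have b3 : (ε * μ) ^ 2 ≤ κ ^ 2 := pow_le_pow_left₀ (by positivity) c2' 2
    rw [← mul_div_assoc]
    refine div_le_div_of_nonneg_right ?_ (by positivity)
    have b4 := mul_le_mul_of_nonneg_left b3 (show 0 ≤ ε ^ 4 by positivity)
    have b5 : 0 ≤ ε ^ 4 * κ ^ 2 := by positivity
    nlinarith

end Par

open Par in
theorem pPar (hModId : S_ModId) (hPlus : S_Plus) (hMinus : S_Minus) (hBd : S_Bd) : S_Par := by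
  obtain ⟨u1, hBd⟩ := hBd
  set u := max u1 1 with hu
  obtain ⟨C, hC, hBd⟩ := hBd u (le_max_left _ _)
  obtain ⟨C1, hC1, hM⟩ := hModId u (le_max_right _ _)
  obtain ⟨C2, hC2, hP⟩ := hPlus
  obtain ⟨ε, hε⟩ : ∃ ε : ℝ, ε = 1 / (32 * (C + 1)) := ⟨_, rfl⟩
  have he : 0 < ε := by rw [hε]; positivity
  have he1 : ε ≤ 1 := by
    rw [hε, div_le_one (by positivity)]
    linarith
  refine ⟨ε ^ 6 / 10200, by positivity, 18, fun B hB => ?_⟩
  obtain ⟨Λ0, hL⟩ := large (8 * B ^ 2 + 3 * u + 4 * (3 * C2 + 2 * C1 + 4 * C) + 10200 / ε)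
  refine ⟨⌈Real.exp Λ0⌉₊, fun N hN => ?_⟩
  have hN1 : Real.exp Λ0 ≤ N := Nat.ceil_le.1 hN
  have hN0 : (0 : ℝ) < N := (Real.exp_pos _).trans_le hN1
  obtain ⟨g1, g2⟩ := hL _ ((Real.le_log_iff_exp_le hN0).2 hN1)
  obtain ⟨Λ, hΛ⟩ : ∃ Λ, Λ = Real.log N := ⟨_, rfl⟩
  obtain ⟨ll, hll⟩ : ∃ ll, ll = Real.log Λ := ⟨_, rfl⟩
  have eZ : ZZ N = ⌊2 / 5 * Λ⌋₊ := by rw [hΛ, ZZ]
  have eD : DL N = ⌊Λ - 6 * ll⌋₊ := by rw [hll, hΛ, DL]
  rw [← hΛ, ← hll] at g1 g2 ⊢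
  have eN : (N : ℝ) = Real.exp Λ := by rw [hΛ, Real.exp_log hN0]
  obtain ⟨l1, l4, k0, k2, k3, k4, k5⟩ := num hB (Nat.cast_nonneg u) (by positivity)
    (by positivity) g1 g2
  obtain ⟨κ, hκ⟩ : ∃ κ, κ = B * ll := ⟨_, rfl⟩
  rw [← hκ] at k0 k2 k3
  clear g1 g2 hL hN1
  have hΛ0 : 0 < Λ := by linarith
  have z1 : (ZZ N : ℝ) ≤ 2 / 5 * Λ := by rw [eZ]; exact Nat.floor_le (by positivity)
  have z2 : 2 / 5 * Λ < ZZ N + 1 := by rw [eZ]; exact Nat.lt_floor_add_one _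
  have d1 : (DL N : ℝ) ≤ Λ - 6 * ll := by rw [eD]; exact Nat.floor_le (by linarith)
  have d2 : Λ - 6 * ll < DL N + 1 := by rw [eD]; exact Nat.lt_floor_add_one _
  have uZ : u ≤ ZZ N := by rw [eZ]; exact Nat.le_floor (by linarith)
  have ZD : ZZ N ≤ DL N := by exact_mod_cast (by linarith : (ZZ N : ℝ) ≤ DL N)
  have e6 : Real.exp (DL N) ≤ N / Λ ^ 6 := by
    refine (Real.exp_le_exp.2 d1).trans (le_of_eq ?_)
    rw [Real.exp_sub, ← eN, hll, show (6 : ℝ) = (6 : ℕ) by norm_num, Real.exp_nat_mul,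
      Real.exp_log hΛ0]
  obtain ⟨X, hX⟩ : ∃ X, X = Real.exp (Λ + κ) := ⟨_, rfl⟩
  have hX0 : 0 < X := by rw [hX]; exact Real.exp_pos _
  have lX : Real.log X = Λ + κ := by rw [hX, Real.log_exp]
  have NX : (N : ℝ) ≤ X := by rw [hX, eN]; exact Real.exp_le_exp.2 (by linarith)
  have N2 : (2 : ℝ) ≤ N := by
    rw [eN]
    linarith [Real.add_one_le_exp Λ]
  have eDN : Real.exp (DL N) ≤ N := by rw [eN]; exact Real.exp_le_exp.2 (by linarith)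
  have r1 : (rt (ZZ N) : ℝ) ≤ (N : ℝ) ^ (9 / 10 : ℝ) := by
    have a1 : (rt (ZZ N) : ℝ) ≤ Real.exp (ZZ N) + 1 := by
      rw [rt]
      push_cast
      linarith [Nat.floor_le (Real.exp_pos (ZZ N)).le]
    have a2 : Real.exp (ZZ N) ≤ Real.exp (2 / 5 * Λ) := Real.exp_le_exp.2 z1
    have a3 : 1 ≤ Real.exp (2 / 5 * Λ) := Real.one_le_exp (by positivity)
    have a4 : 2 ≤ Real.exp (1 / 2 * Λ) := by linarith [Real.add_one_le_exp (1 / 2 * Λ)]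
    rw [eN, ← Real.exp_mul, show Λ * (9 / 10) = 2 / 5 * Λ + 1 / 2 * Λ by ring, Real.exp_add]
    have a5 := mul_le_mul_of_nonneg_left a4 (Real.exp_pos (2 / 5 * Λ)).le
    linarith
  have r2 : X < (rt (ZZ N) : ℝ) ^ 3 := by
    have a1 : Real.exp (ZZ N) < rt (ZZ N) := by
      rw [rt]
      push_cast
      exact Nat.lt_floor_add_one _
    refine lt_of_le_of_lt ?_ (pow_lt_pow_left₀ a1 (Real.exp_pos _).le (by norm_num))
    rw [← Real.exp_nat_mul, hX]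
    refine Real.exp_le_exp.2 ?_
    push_cast
    linarith
  have m1 := abs_le.1 (hM (ZZ N) (DL N) N uZ eDN)
  have m2 := abs_le.1 (hM (ZZ N) (DL N) X uZ (eDN.trans NX))
  have s1 := mul_le_mul_of_nonneg_left (sqrt_le hN0.le hΛ0 e6) hC1.le
  have s2 := mul_le_mul_of_nonneg_left (sqrt_le hX0.le hΛ0
    (e6.trans (div_le_div_of_nonneg_right NX (by positivity)))) hC1.le
  have p1 := (hP N (rt (ZZ N)) N2).1 r1
  have p2 := (hP X (rt (ZZ N)) (N2.trans NX)).2 r2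
  rw [← hΛ] at p1
  rw [lX] at p2
  have b0 := Bd_nonneg hMinus u (ZZ N) (DL N) hN0.le
  have lo := low (g := V0 u * Real.log 2 * GT u (ZZ N) (DL N)) (D := Bd u (ZZ N) (DL N) X)
    (by linarith : 1 ≤ Λ) (by linarith : 0 ≤ κ) (by linarith) hC1.le hC2.le hN0 hX0
    (by linarith [m1.1]) (by linarith [m2.2])
  have D0 : (1 : ℝ) ≤ DL N := by linarith
  have lD : Real.log (DL N) ≤ ll := by
    rw [hll]
    exact Real.log_le_log (by linarith) (by linarith)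
  have lD0 : 0 ≤ Real.log (DL N) := Real.log_nonneg D0
  have hi := (hBd (ZZ N) (DL N) ⌈10 * Real.log (DL N)⌉₊ X (κ + 18 * ll) ε ZD (by linarith)
    (by linarith) (Nat.le_ceil _) (by
      have := Nat.ceil_lt_add_one (show 0 ≤ 10 * Real.log (DL N) by positivity)
      linarith) (by
      have a1 : (DL N : ℝ) ^ 2 ≤ Λ ^ 6 := (pow_le_pow_left₀ (by linarith) (by linarith) 2).trans
        (pow_le_pow_right₀ (by linarith : 1 ≤ Λ) (by norm_num))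
      have a2 := (le_div_iff₀ (by positivity)).1 e6
      exact ((mul_le_mul_of_nonneg_left a1 (Real.exp_pos _).le).trans a2).trans NX) he he1).2
  obtain ⟨K, hK⟩ : ∃ K, K = κ + 18 * ll := ⟨_, rfl⟩
  rw [← hK] at hi
  have S0 : 0 ≤ ∑ l ∈ Icc ⌈ε * K⌉₊ ⌊3 * K / ε⌋₊, RR (DL N) 0 l ((l + 2) / 3) :=
    sum_nonneg fun l _ => RR_nonneg _ _ _ _
  have hS := Par.up hΛ0 (by linarith) (by linarith : κ ≤ K) (by linarith) hC hε hX0
    (by linarith) S0 (by linarith) lo hi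
  have a1 : ε * κ ≤ ⌈ε * K⌉₊ :=
    (mul_le_mul_of_nonneg_left (by linarith) he.le).trans (Nat.le_ceil _)
  have a2 : (⌊3 * K / ε⌋₊ : ℝ) ≤ 6 * κ / ε :=
    (Nat.floor_le (div_nonneg (by linarith) he.le)).trans
      (div_le_div_of_nonneg_right (by linarith) he.le)
  have a3 : 10200 ≤ ⌈ε * K⌉₊ := by
    have : 10200 / ε ≤ κ := by linarith
    rw [div_le_iff₀ he] at this
    exact_mod_cast (by linarith : (10200 : ℝ) ≤ ⌈ε * K⌉₊)
  have hκ0 : 0 < κ := by linarith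
  have a4 : ⌈ε * K⌉₊ ≤ ⌊3 * K / ε⌋₊ := by
    by_contra hc
    rw [Icc_eq_empty hc, sum_empty] at hS
    exact absurd hS (not_le.2 (by positivity))
  obtain ⟨μ, c1, c2, c3⟩ := cover (fun l => RR (DL N) 0 l ((l + 2) / 3))
    (fun l => RR_nonneg _ _ _ _) a3 a4
  refine ⟨μ, ?_⟩
  rw [mul_assoc _ B, ← hκ]
  exact Par.fin he he1 hκ0 hΛ0 (Nat.cast_nonneg μ) (by exact_mod_cast (by omega)) a1 a2
    (by exact_mod_cast c1.le) (by exact_mod_cast c2) hS c3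

end Pool.Agent.P.MP_26a8c3_nt.EC
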