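import Pool.Agent.P.MP_26a8c3_nt.EC.Base

/-! The upper model sum at a node with at most two prime factors left. -/

namespace Pool.Agent.P.MP_26a8c3_nt.EC

open Finset
open scoped Classical

namespace Plus

open ArithmeticFunction (vonMangoldt)

lemma logfac (N : ℕ) : ∀ m : ℕ, m ≤ N →
    ∑ n ∈ Ioc 0 N, vonMangoldt n * ((m / n : ℕ) : ℝ) = Real.log (m.factorial : ℕ) := by
  intro m
  induction m with
  | zero => intro _; simp
  | succ m ih =>
    intro hm
    have h1 : ∀ n ∈ Ioc 0 N, vonMangoldt n * (((m + 1) / n : ℕ) : ℝ) =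
        vonMangoldt n * ((m / n : ℕ) : ℝ) + if n ∣ m + 1 then vonMangoldt n else 0 := by
      intro n _
      rw [Nat.succ_div]
      split_ifs <;> push_cast <;> ring
    have h2 : (Ioc 0 N).filter (fun n => n ∣ m + 1) = (m + 1).divisors := by
      ext n
      simp only [mem_filter, mem_Ioc, Nat.mem_divisors]
      constructor
      · rintro ⟨_, h⟩; exact ⟨h, by omega⟩
      · rintro ⟨h, _⟩
        exact ⟨⟨Nat.pos_of_dvd_of_pos h (by omega), (Nat.le_of_dvd (by omega) h).trans hm⟩, h⟩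
    rw [sum_congr rfl h1, sum_add_distrib, ih (by omega), ← sum_filter, h2,
      ArithmeticFunction.vonMangoldt_sum, Nat.factorial_succ, Nat.cast_mul,
      Real.log_mul (by positivity) (by positivity)]
    ring

lemma ww_div {Y : ℝ} (hY : 0 ≤ Y) (n : ℕ) :
    ww (Y / n) = ((⌊Y⌋₊ / n : ℕ) : ℝ) - 2 * ((⌊Y⌋₊ / 2 / n : ℕ) : ℝ) := by
  have h1 : ∀ y : ℝ, 0 ≤ y → ((⌊y⌋ : ℤ) : ℝ) = ((⌊y⌋₊ : ℕ) : ℝ) := by
    intro y hy
    rw [← Int.natCast_floor_eq_floor hy]; simp
  have h2 : Y / n / 2 = Y / (2 : ℕ) / n := by push_cast; ring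
  unfold ww
  rw [h1 _ (by positivity), h1 _ (by positivity), h2, Nat.floor_div_natCast,
    Nat.floor_div_natCast, Nat.floor_div_natCast]

/-- The Chebyshev sum. -/
noncomputable def TT (Y : ℝ) : ℝ := ∑ n ∈ Ioc 0 ⌊Y⌋₊, vonMangoldt n * ww (Y / n)

lemma TT_eq {Y : ℝ} (hY : 0 ≤ Y) : TT Y =
    Real.log ((⌊Y⌋₊).factorial : ℕ) - 2 * Real.log ((⌊Y⌋₊ / 2).factorial : ℕ) := by
  rw [← logfac ⌊Y⌋₊ _ le_rfl, ← logfac ⌊Y⌋₊ _ (Nat.div_le_self _ 2), mul_sum, ← sum_sub_distrib]
  refine sum_congr rfl fun n _ => ?_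
  rw [ww_div hY]; ring

lemma cb (k : ℕ) (hk : 0 < k) :
    2 * k * Real.log 2 - Real.log (2 * k) ≤
      Real.log ((2 * k).factorial : ℕ) - 2 * Real.log (k.factorial : ℕ) ∧
    Real.log ((2 * k).factorial : ℕ) - 2 * Real.log (k.factorial : ℕ) ≤ 2 * k * Real.log 2 := by
  have h0 := Nat.choose_mul_factorial_mul_factorial (n := 2 * k) (k := k) (by omega)
  rw [show 2 * k - k = k by omega] at h0
  have hc : 0 < (2 * k).choose k := Nat.choose_pos (by omega)
  have h1 : Real.log ((2 * k).factorial : ℕ) - 2 * Real.log (k.factorial : ℕ) =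
      Real.log ((2 * k).choose k : ℕ) := by
    rw [← h0, Nat.cast_mul, Nat.cast_mul, Real.log_mul (by positivity) (by positivity),
      Real.log_mul (by positivity) (by positivity)]
    ring
  have h4 : (2 * k : ℝ) * Real.log 2 = Real.log ((2 : ℝ) ^ (2 * k)) := by
    rw [Real.log_pow]; push_cast; ring
  have hk' : (0 : ℝ) < k := by exact_mod_cast hk
  rw [h1, h4]
  constructor
  · have h2 := Nat.four_pow_le_two_mul_self_mul_centralBinom k hk
    rw [Nat.centralBinom_eq_two_mul_choose] at h2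
    have h3 : (2 : ℝ) ^ (2 * k) ≤ 2 * k * ((2 * k).choose k : ℕ) := by
      rw [pow_mul, show (2 : ℝ) ^ 2 = 4 by norm_num]; exact_mod_cast h2
    have h5 := Real.log_le_log (by positivity) h3
    rw [Real.log_mul (by positivity) (by positivity)] at h5
    linarith
  · refine Real.log_le_log (by positivity) ?_
    exact_mod_cast Nat.choose_le_two_pow (2 * k) k

lemma TT_bounds {Y : ℝ} (hY : 2 ≤ Y) :
    (Y - 2) * Real.log 2 - Real.log Y ≤ TT Y ∧ TT Y ≤ Y * Real.log 2 + Real.log Y := by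
  have hl : 0 < Real.log 2 := Real.log_pos (by norm_num)
  have hM : 2 ≤ ⌊Y⌋₊ := Nat.le_floor (by exact_mod_cast hY)
  have hM1 : (⌊Y⌋₊ : ℝ) ≤ Y := Nat.floor_le (by linarith)
  have hM2 : Y < ⌊Y⌋₊ + 1 := Nat.lt_floor_add_one Y
  have hlY : 0 ≤ Real.log Y := Real.log_nonneg (by linarith)
  rw [TT_eq (by linarith)]
  generalize ⌊Y⌋₊ = M at *
  obtain ⟨k, hk | hk⟩ := Nat.even_or_odd' M
  · subst hk
    have hk0 : 0 < k := by omega
    have hk' : (0 : ℝ) < k := by exact_mod_cast hk0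
    rw [show 2 * k / 2 = k by omega]
    obtain ⟨h1, h2⟩ := cb k hk0
    push_cast at hM1 hM2
    have h3 : Real.log (2 * k) ≤ Real.log Y := Real.log_le_log (by positivity) hM1
    constructor <;> nlinarith
  · subst hk
    have hk0 : 0 < k := by omega
    have hk' : (0 : ℝ) < k := by exact_mod_cast hk0
    rw [show (2 * k + 1) / 2 = k by omega, Nat.factorial_succ, Nat.cast_mul,
      Real.log_mul (by positivity) (by positivity)]
    obtain ⟨h1, h2⟩ := cb k hk0
    have h3 : Real.log ((2 * k + 1 : ℕ) : ℝ) ≤ Real.log Y := Real.log_le_log (by positivity) hM1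
    have h5 : 0 ≤ Real.log ((2 * k + 1 : ℕ) : ℝ) := Real.log_natCast_nonneg _
    push_cast at hM1 hM2
    have h4 : Real.log (2 * k) ≤ Real.log Y := Real.log_le_log (by positivity) (by linarith)
    constructor <;> nlinarith

/-- The logarithmically weighted prime sum. -/
noncomputable def FL (Y : ℝ) : ℝ :=
  ∑ q ∈ (Ioc 0 ⌊Y⌋₊).filter Nat.Prime, Real.log q * Real.log (Y / q)

lemma FL_step {Y : ℝ} (hY : 0 < Y) : FL Y ≤ FL (Y / 2) + Real.log 2 * Chebyshev.theta Y := by
  have h1 : (Ioc 0 ⌊Y / 2⌋₊).filter Nat.Prime =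
      ((Ioc 0 ⌊Y⌋₊).filter Nat.Prime).filter (fun q : ℕ => (q : ℝ) ≤ Y / 2) := by
    ext q
    simp only [mem_filter, mem_Ioc, Nat.le_floor_iff hY.le,
      Nat.le_floor_iff (show 0 ≤ Y / 2 by positivity)]
    constructor
    · rintro ⟨⟨a, b⟩, c⟩; exact ⟨⟨⟨a, by linarith⟩, c⟩, b⟩
    · rintro ⟨⟨⟨a, _⟩, c⟩, b⟩; exact ⟨⟨a, b⟩, c⟩
  unfold FL Chebyshev.theta
  rw [h1, sum_filter (p := fun q : ℕ => (q : ℝ) ≤ Y / 2), mul_sum, ← sum_add_distrib]
  refine sum_le_sum fun q hq => ?_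
  have hq0 : (0 : ℝ) < q := by exact_mod_cast (mem_filter.1 hq).2.pos
  have hl : 0 ≤ Real.log q := Real.log_natCast_nonneg q
  split_ifs with h
  · rw [show Y / q = Y / 2 / q * 2 by ring, Real.log_mul (by positivity) (by norm_num)]
    linarith
  · have h2 : Real.log (Y / q) ≤ Real.log 2 :=
      Real.log_le_log (by positivity) (by rw [div_le_iff₀ hq0]; linarith [not_le.1 h])
    nlinarith

lemma FL_le {Y : ℝ} (hY : 0 < Y) : FL Y ≤ 2 * Y := by
  have hl : Real.log 2 * Real.log 4 ≤ 1 := by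
    have h4 : Real.log 4 = 2 * Real.log 2 := by
      rw [show (4 : ℝ) = 2 ^ 2 by norm_num, Real.log_pow]; norm_num
    have := Real.log_two_lt_d9
    have := Real.log_two_gt_d9
    rw [h4]; nlinarith
  have hl2 : 0 < Real.log 2 := Real.log_pos (by norm_num)
  have key : ∀ k : ℕ, ∀ y : ℝ, 0 < y → y < 2 ^ k → FL y ≤ 2 * y := by
    intro k
    induction k with
    | zero =>
      intro y hy h
      have : ⌊y⌋₊ = 0 := Nat.floor_eq_zero.2 (by simpa using h)
      unfold FL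
      rw [this]
      simp [hy.le]
    | succ k ih =>
      intro y hy h
      have h1 := ih (y / 2) (by positivity) (by rw [pow_succ] at h; linarith)
      have h2 := FL_step hy
      have h3 := mul_le_mul_of_nonneg_left (Chebyshev.theta_le_log4_mul_x hy.le) hl2.le
      nlinarith
  obtain ⟨k, hk⟩ := pow_unbounded_of_one_lt Y (show (1 : ℝ) < 2 by norm_num)
  exact key k Y hY hk

lemma term_nonneg (Y : ℝ) (n : ℕ) : 0 ≤ (1 - 1 * lam n) * ww (Y / n) := by
  refine mul_nonneg ?_ (ww_nonneg _)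
  rcases lam_mem n with h | h <;> rw [h] <;> norm_num

lemma lower {Y : ℝ} (hY : 2 ≤ Y) (p : ℕ) :
    2 * (TT Y - Real.log 4 * p - 2 * √Y * Real.log Y) ≤ Real.log Y * SM 1 Y p := by
  have hlY : 0 ≤ Real.log Y := Real.log_nonneg (by linarith)
  have h1 := Chebyshev.psi_sub_theta_le (x := Y) (by linarith)
  rw [Chebyshev.psi_sub_theta_eq_sum_not_prime, sum_filter] at h1
  have h2 : ∑ n ∈ Ioc 0 ⌊Y⌋₊, (if n.Prime ∧ n ≤ p then Real.log n else 0) ≤ Real.log 4 * p := by
    refine le_trans ?_ (Chebyshev.theta_le_log4_mul_x (x := p) (by positivity))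
    rw [← sum_filter]
    unfold Chebyshev.theta
    refine sum_le_sum_of_subset_of_nonneg (fun n hn => ?_) fun n _ _ => Real.log_natCast_nonneg n
    simp only [mem_filter, mem_Ioc, Nat.floor_natCast] at hn ⊢
    exact ⟨⟨hn.1.1, hn.2.2⟩, hn.2.1⟩
  have h3 : 2 * TT Y ≤ Real.log Y * SM 1 Y p +
      2 * ∑ n ∈ Ioc 0 ⌊Y⌋₊, (if n.Prime ∧ n ≤ p then Real.log n else 0) +
      2 * ∑ n ∈ Ioc 0 ⌊Y⌋₊, (if ¬ n.Prime then vonMangoldt n else 0) := by
    unfold TT SM
    rw [sum_filter, mul_sum, mul_sum, mul_sum, mul_sum, ← sum_add_distrib, ← sum_add_distrib]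
    refine sum_le_sum fun n hn => ?_
    have hw0 := ww_nonneg (Y / n)
    have hw1 := ww_le_one (Y / n)
    have hv : 0 ≤ vonMangoldt n := ArithmeticFunction.vonMangoldt_nonneg
    have hln : 0 ≤ Real.log n := Real.log_natCast_nonneg n
    have ht : 0 ≤ Real.log Y * (if rough p n then (1 - 1 * lam n) * ww (Y / n) else 0) := by
      refine mul_nonneg hlY ?_
      split_ifs
      · exact term_nonneg Y n
      · exact le_rfl
    by_cases hp : n.Prime
    · rw [ArithmeticFunction.vonMangoldt_apply_prime hp, if_neg (not_not.2 hp)]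
      by_cases hle : n ≤ p
      · rw [if_pos (show n.Prime ∧ n ≤ p from ⟨hp, hle⟩)]
        nlinarith
      · have hr : rough p n := fun q hq hd => by
          rw [(Nat.prime_dvd_prime_iff_eq hq hp).1 hd]; omega
        have hn' : (n : ℝ) ≤ Y := (Nat.le_floor_iff (by linarith)).1 (mem_Ioc.1 hn).2
        have hlog : Real.log n ≤ Real.log Y :=
          Real.log_le_log (by exact_mod_cast hp.pos) hn'
        rw [if_pos hr, if_neg (fun h => hle h.2), lam_prime hp]
        nlinarith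
    · rw [if_pos hp, if_neg (show ¬ (n.Prime ∧ n ≤ p) from fun h => hp h.1)]
      nlinarith
  linarith

lemma lam_one {Y : ℝ} {p n : ℕ} (hY : Y < (p : ℝ) ^ 3) (hn0 : 0 < n) (hn : (n : ℝ) ≤ Y)
    (hr : rough p n) (hp : ¬ n.Prime) : lam n = 1 := by
  have h1 : p ^ ArithmeticFunction.cardFactors n ≤ n := by
    rw [ArithmeticFunction.cardFactors_apply]
    conv_rhs => rw [← Nat.prod_primeFactorsList hn0.ne']
    exact List.pow_card_le_prod _ _ fun q hq =>
      hr q (Nat.prime_of_mem_primeFactorsList hq) (Nat.dvd_of_mem_primeFactorsList hq)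
  have h2 : n < p ^ 3 := by exact_mod_cast hn.trans_lt hY
  have hp1 : 1 ≤ p := by
    rcases Nat.eq_zero_or_pos p with h | h
    · subst h; omega
    · exact h
  have h3 : ArithmeticFunction.cardFactors n < 3 := by
    by_contra h
    have := Nat.pow_le_pow_right hp1 (not_lt.1 h)
    omega
  have h4 : ArithmeticFunction.cardFactors n ≠ 1 := fun h =>
    hp (ArithmeticFunction.cardFactors_eq_one_iff_prime.1 h)
  unfold lam
  generalize ArithmeticFunction.cardFactors n = k at *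
  interval_cases k
  · norm_num
  · omega
  · norm_num

lemma upper {Y : ℝ} (hY : 2 ≤ Y) {p : ℕ} (hp3 : Y < (p : ℝ) ^ 3) :
    Real.log Y ^ 2 * SM 1 Y p ≤ 2 * Real.log Y * TT Y + 6 * FL Y := by
  have hlY : 0 ≤ Real.log Y := Real.log_nonneg (by linarith)
  unfold TT SM FL
  rw [sum_filter, sum_filter, mul_sum, mul_sum, mul_sum, ← sum_add_distrib]
  refine sum_le_sum fun n hn => ?_
  have hw0 := ww_nonneg (Y / n)
  have hw1 := ww_le_one (Y / n)
  have hv : 0 ≤ vonMangoldt n := ArithmeticFunction.vonMangoldt_nonneg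
  have hln : 0 ≤ Real.log n := Real.log_natCast_nonneg n
  have hn0 : (0 : ℝ) < n := by exact_mod_cast (mem_Ioc.1 hn).1
  have hn' : (n : ℝ) ≤ Y := (Nat.le_floor_iff (by linarith)).1 (mem_Ioc.1 hn).2
  have hlog : Real.log n ≤ Real.log Y := Real.log_le_log hn0 hn'
  have hd : Real.log (Y / n) = Real.log Y - Real.log n := Real.log_div (by linarith) hn0.ne'
  have hA : 0 ≤ 2 * Real.log Y * (vonMangoldt n * ww (Y / n)) := by positivity
  have hB : 0 ≤ Real.log n * Real.log (Y / n) := mul_nonneg hln (by linarith)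
  by_cases hp : n.Prime
  · rw [if_pos hp]
    by_cases hr : rough p n
    · have hpn : (p : ℝ) ≤ n := by exact_mod_cast hr n hp dvd_rfl
      have h3 : Real.log Y ≤ 3 * Real.log n := by
        have h4 : Y ≤ (n : ℝ) ^ 3 := hp3.le.trans (pow_le_pow_left₀ (by positivity) hpn 3)
        have h5 := Real.log_le_log (by linarith) h4
        rw [Real.log_pow] at h5
        exact_mod_cast h5
      rw [if_pos hr, lam_prime hp, ArithmeticFunction.vonMangoldt_apply_prime hp, hd]
      have h6 := mul_nonneg (sub_nonneg.2 h3) (sub_nonneg.2 hlog)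
      rcases ww_mem (Y / n) with h | h
      · rw [h]; rw [hd] at hB; nlinarith
      · rw [h]; nlinarith
    · rw [if_neg hr]; nlinarith
  · rw [if_neg hp]
    by_cases hr : rough p n
    · rw [if_pos hr, lam_one hp3 (mem_Ioc.1 hn).1 hn' hr hp]; nlinarith
    · rw [if_neg hr]; nlinarith

lemma numer {Y : ℝ} (hY : 2 ≤ Y) : Real.log Y ≤ Y ∧ √Y * Real.log Y ^ 2 ≤ 16 * Y ∧
    Real.log Y ^ 2 ≤ 16 * Y ∧ Y ^ (9 / 10 : ℝ) * Real.log Y ≤ 10 * Y := by
  have hY0 : 0 < Y := by linarith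
  have hlY : 0 ≤ Real.log Y := Real.log_nonneg (by linarith)
  have h1 : Real.log Y ≤ Y ^ (1 / 4 : ℝ) / (1 / 4) := Real.log_le_rpow_div hY0.le (by norm_num)
  have h2 : Real.log Y ≤ Y ^ (1 / 10 : ℝ) / (1 / 10) := Real.log_le_rpow_div hY0.le (by norm_num)
  have h3 : (Y ^ (1 / 4 : ℝ)) ^ 2 = √Y := by
    rw [← Real.rpow_natCast, ← Real.rpow_mul hY0.le, Real.sqrt_eq_rpow]; norm_num
  have h4 : Y ^ (9 / 10 : ℝ) * Y ^ (1 / 10 : ℝ) = Y := by
    rw [← Real.rpow_add hY0]; norm_num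
  have h5 : Real.log Y ^ 2 ≤ 16 * √Y := by
    rw [← h3]
    have := pow_le_pow_left₀ hlY h1 2
    linarith [show (Y ^ (1 / 4 : ℝ) / (1 / 4)) ^ 2 = 16 * (Y ^ (1 / 4 : ℝ)) ^ 2 by ring]
  have h6 : √Y * √Y = Y := Real.mul_self_sqrt hY0.le
  have h7 : 1 ≤ √Y := Real.one_le_sqrt.2 (by linarith)
  have h8 : 0 ≤ Y ^ (9 / 10 : ℝ) := by positivity
  refine ⟨by linarith [Real.log_le_sub_one_of_pos hY0], by nlinarith, by nlinarith, ?_⟩
  have := mul_le_mul_of_nonneg_left h2 h8
  linarith [show Y ^ (9 / 10 : ℝ) * (Y ^ (1 / 10 : ℝ) / (1 / 10)) =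
    10 * (Y ^ (9 / 10 : ℝ) * Y ^ (1 / 10 : ℝ)) by ring]

end Plus

theorem pPlus : S_Plus := by
  refine ⟨200, by norm_num, fun Y p hY => ?_⟩
  have hl : 0 < Real.log Y := Real.log_pos (by linarith)
  have hY0 : 0 < Y := by linarith
  obtain ⟨n1, n2, n3, n4⟩ := Plus.numer hY
  obtain ⟨t1, t2⟩ := Plus.TT_bounds hY
  have l1 := Real.log_two_lt_d9
  have l2 := Real.log_two_gt_d9
  have h4 : Real.log 4 = 2 * Real.log 2 := by
    rw [show (4 : ℝ) = 2 ^ 2 by norm_num, Real.log_pow]; norm_num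
  have l3 : 1 / 2 * Y ≤ Real.log 2 * Y := mul_le_mul_of_nonneg_right (by linarith) hY0.le
  constructor
  · intro hp
    have h1 := Plus.lower hY p
    have h2 : 2 * Real.log 2 * Y / Real.log Y * (1 - 200 / Real.log Y) =
        (2 * Real.log 2 * Y * Real.log Y - 400 * (Real.log 2 * Y)) / Real.log Y ^ 2 := by
      field_simp; ring
    rw [h2, div_le_iff₀ (by positivity)]
    have h3 := mul_le_mul_of_nonneg_left h1 hl.le
    have h5 := mul_le_mul_of_nonneg_left t1 hl.le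
    have h6 : (p : ℝ) * Real.log Y ≤ 10 * Y := (mul_le_mul_of_nonneg_right hp hl.le).trans n4
    have h7 : Real.log 2 * ((p : ℝ) * Real.log Y) ≤ 1 * (10 * Y) :=
      mul_le_mul (by linarith) h6 (by positivity) (by norm_num)
    have h8 : Real.log 2 * Real.log Y ≤ 1 * Y := mul_le_mul (by linarith) n1 hl.le (by norm_num)
    rw [h4] at h3
    nlinarith
  · intro hp
    have h1 := Plus.upper hY hp
    have h2 : 2 * Real.log 2 * Y / Real.log Y * (1 + 200 / Real.log Y) =
        (2 * Real.log 2 * Y * Real.log Y + 400 * (Real.log 2 * Y)) / Real.log Y ^ 2 := by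
      field_simp; ring
    rw [h2, le_div_iff₀ (by positivity)]
    have h3 := Plus.FL_le hY0
    have h5 := mul_le_mul_of_nonneg_left t2 hl.le
    nlinarith

end Pool.Agent.P.MP_26a8c3_nt.EC
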