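import Pool.Agent.P.MP_26a8c3_nt.EC.Base

/-! Recursions and a crude bound for the masses of the sieve tree. -/

namespace Pool.Agent.P.MP_26a8c3_nt.EC

open Finset
open scoped Classical

namespace Rec

lemma one (S T : Finset (Finset ℕ)) (p : ℕ) (h : ∀ d ∈ S, p ∈ d ∧ d.erase p ∈ T) :
    ms S ≤ (p : ℝ)⁻¹ * ms T := by
  have hi : Set.InjOn (fun d : Finset ℕ => d.erase p) S := fun d hd d' hd' e => by
    rw [← insert_erase (h d hd).1, ← insert_erase (h d' hd').1]
    exact congrArg (insert p) e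
  have e : ms S = (p : ℝ)⁻¹ * ms (S.image fun d => d.erase p) := by
    rw [ms, ms, sum_image hi, mul_sum]
    refine sum_congr rfl fun d hd => ?_
    conv_lhs => rw [← insert_erase (h d hd).1, pv_insert (notMem_erase p d)]
    rw [Nat.cast_mul, mul_inv]
  rw [e]
  refine mul_le_mul_of_nonneg_left (ms_mono fun d hd => ?_) (by positivity)
  obtain ⟨d', a, rfl⟩ := mem_image.1 hd
  exact (h d' a).2

lemma ts_erase {d : Finset ℕ} {p : ℕ} (hp : p ∈ d) : ts d = tau p + ts (d.erase p) := by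
  rw [← ts_insert (notMem_erase _ _), insert_erase hp]

lemma step (Δ par l u b : ℕ) (S : Finset (Finset ℕ))
    (h : ∀ d ∈ S, d.Nonempty ∧ d ⊆ PR u Δ ∧ tree Δ d ∧ (d.card + 1) % 2 = par ∧ ts d + l = Δ ∧
      tau (mn d) ≤ b) :
    ms S ≤ ∑ t ∈ Icc u b, rc (PR t t) * RR Δ par (l + t) t := by
  have h1 : ∀ d ∈ S, mn d ∈ PR u b := fun d hd => by
    obtain ⟨a1, a2, -, -, -, a6⟩ := h d hd
    have := mem_PR.1 (a2 (mn_mem a1))
    exact mem_PR.2 ⟨this.1, this.2.1, a6⟩
  rw [ms, ← sum_fiberwise_of_maps_to h1, sum_PR]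
  refine sum_le_sum fun t _ => ?_
  rw [rc, sum_mul]
  refine sum_le_sum fun p hp => one _ _ p fun d hd => ?_
  obtain ⟨hd', rfl⟩ := mem_filter.1 hd
  obtain ⟨a1, a2, a3, a4, a5, -⟩ := h d hd'
  have a6 : tau (mn d) = t := le_antisymm (mem_PR.1 hp).2.2 (mem_PR.1 hp).2.1
  have a7 := card_erase_add_one (mn_mem a1)
  have a8 := ts_erase (mn_mem a1)
  refine ⟨mn_mem a1, mem_filter.2 ⟨mem_powerset.2 fun q hq => ?_, tree_erase a3, by omega, by omega⟩⟩
  have := mem_PR.1 (a2 (mem_of_mem_erase hq))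
  exact mem_PR.2 ⟨this.1, a6 ▸ tau_mono (mn_lt hq).le, this.2.2⟩

lemma harm {C : ℝ} (hC : 0 ≤ C) {u s : ℕ} (hu : 1 ≤ u) (h : u ≤ s) :
    ∑ t ∈ Icc u s, (1 + C / t) / (t : ℝ) ≤ 1 + Real.log s - Real.log u + C * (2 - 1 / s) := by
  induction s, h using Nat.le_induction with
  | base =>
    have h1 : (1 : ℝ) ≤ u := by exact_mod_cast hu
    have h2 : 1 / (u : ℝ) ≤ 1 := by rw [div_le_one (by linarith)]; exact h1
    have h3 : C / u ≤ C := div_le_self hC h1
    have h4 : (1 + C / u) / (u : ℝ) ≤ 1 + C / u := div_le_self (by positivity) h1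
    have h5 : C * 1 ≤ C * (2 - 1 / u) := mul_le_mul_of_nonneg_left (by linarith) hC
    rw [Icc_self, sum_singleton]
    linarith
  | succ s hs ih =>
    have h1 : (1 : ℝ) ≤ s := by exact_mod_cast hu.trans hs
    have h2 := Real.one_sub_inv_le_log_of_pos (x := ((s : ℝ) + 1) / s) (by positivity)
    rw [Real.log_div (by positivity) (by positivity)] at h2
    have e1 : 1 - (((s : ℝ) + 1) / s)⁻¹ = 1 / (s + 1) := by field_simp; ring
    have e2 : (1 + C / (s + 1)) / ((s : ℝ) + 1) = 1 / (s + 1) + C * (1 / ((s + 1) * (s + 1))) := by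
      field_simp
    have e3 : 1 / (s : ℝ) - 1 / (s + 1) = 1 / (s * (s + 1)) := by field_simp; ring
    have h3 : 1 / (((s : ℝ) + 1) * (s + 1)) ≤ 1 / (s : ℝ) - 1 / (s + 1) := by
      rw [e3]; gcongr; linarith
    have h4 := mul_le_mul_of_nonneg_left h3 hC
    rw [sum_Icc_succ_top (by omega)]
    push_cast
    rw [e2]
    linarith

lemma crude {C : ℝ} (hC : 1 ≤ C) (h1 : ∀ t : ℕ, 1 ≤ t → rc (PR t t) ≤ (1 + C / t) / t)
    (h2 : ∀ t : ℕ, 1 ≤ t → rc (PR t t) ≤ 2 * C / t) {u s : ℕ} (hu : 1 ≤ u)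
    (S : Finset (Finset ℕ)) (h : ∀ d ∈ S, d ⊆ PR u s ∧ ts d = s) :
    s * ms S ≤ 2 * C * Real.exp (1 + 2 * C) * s / u := by
  set N : ℕ → Finset (Finset ℕ) := fun t => (PR u s).powerset.filter fun d => s - ts d = t with hN
  have e1 : s * ms S = ∑ p ∈ PR u s, (tau p : ℝ) * ms (S.filter fun d => p ∈ d) := by
    simp only [ms, mul_sum, sum_filter, mul_ite, mul_zero]
    rw [sum_comm]
    refine sum_congr rfl fun d hd => ?_
    rw [← sum_filter, filter_mem_eq_inter, inter_eq_right.2 (h d hd).1, ← sum_mul, ← (h d hd).2, ts,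
      Nat.cast_sum]
  have e2 : s * ms S ≤ ∑ t ∈ Icc u s, 2 * C * ms (N t) := by
    rw [e1, sum_PR]
    refine sum_le_sum fun t ht => ?_
    have t1 : 1 ≤ t := hu.trans (mem_Icc.1 ht).1
    have t0 : (0 : ℝ) < t := by exact_mod_cast t1
    have a1 : (t : ℝ) * rc (PR t t) ≤ 2 * C := by
      have := h2 t t1
      rwa [le_div_iff₀' t0] at this
    refine le_trans ?_ (mul_le_mul_of_nonneg_right a1 (ms_nonneg (N t)))
    rw [rc, mul_assoc, sum_mul, mul_sum]
    refine sum_le_sum fun p hp => ?_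
    have a2 : tau p = t := le_antisymm (mem_PR.1 hp).2.2 (mem_PR.1 hp).2.1
    rw [a2]
    refine mul_le_mul_of_nonneg_left (one _ _ p fun d hd => ?_) t0.le
    obtain ⟨b1, b2⟩ := mem_filter.1 hd
    have b3 := ts_erase b2
    have b4 := (h d b1).2
    exact ⟨b2, mem_filter.2 ⟨mem_powerset.2 ((erase_subset _ _).trans (h d b1).1), by omega⟩⟩
  have u0 : (0 : ℝ) < u := by exact_mod_cast hu
  rcases lt_or_ge s u with hs | hs
  · rw [Icc_eq_empty_of_lt hs, sum_empty] at e2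
    exact e2.trans (by positivity)
  have s0 : (0 : ℝ) < s := by exact_mod_cast hu.trans hs
  have e3 : ∑ t ∈ Icc u s, ms (N t) ≤ ms (PR u s).powerset :=
    sum_fiberwise_le_sum_of_sum_fiber_nonneg fun _ _ => sum_nonneg fun _ _ => by positivity
  have e4 : rc (PR u s) ≤ 1 + 2 * C + Real.log s - Real.log u := by
    rw [rc_PR]
    refine (sum_le_sum fun t ht => h1 t (hu.trans (mem_Icc.1 ht).1)).trans
      ((harm (by linarith) hu hs).trans ?_)
    have : 0 ≤ C * (1 / s) := by positivity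
    linarith
  have e5 : ms (PR u s).powerset ≤ Real.exp (1 + 2 * C) * s / u := by
    refine (ms_powerset_le _).trans ((Real.exp_le_exp.2 e4).trans (le_of_eq ?_))
    rw [Real.exp_sub, Real.exp_add, Real.exp_log s0, Real.exp_log u0]
  rw [← mul_sum] at e2
  calc _ ≤ 2 * C * (Real.exp (1 + 2 * C) * s / u) :=
        e2.trans (mul_le_mul_of_nonneg_left (e3.trans e5) (by positivity))
    _ = _ := by ring

end Rec

theorem pRec (hPi : S_Pi) : S_Rec := by
  refine ⟨fun Δ l u => ?_, fun Δ l u => ?_, ?_⟩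
  · rw [RR, ms, ← sum_filter_add_sum_filter_not _ (fun d : Finset ℕ => d = ∅)]
    refine add_le_add ?_ (Rec.step Δ 1 l u l _ fun d hd => ?_)
    · split_ifs with h
      · refine (ms_mono (S' := {∅}) fun d hd => mem_singleton.2 (mem_filter.1 hd).2).trans ?_
        simp [ms, pv]
      · refine le_of_eq (sum_eq_zero fun d hd => absurd ?_ h)
        obtain ⟨a1, rfl⟩ := mem_filter.1 hd
        simpa [ts] using (mem_filter.1 a1).2.2.2
    · obtain ⟨a1, a2⟩ := mem_filter.1 hd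
      obtain ⟨a3, a4, a5, a6⟩ := mem_filter.1 a1
      have a7 := nonempty_iff_ne_empty.2 a2
      have a8 := tree_rem a4 a7
      exact ⟨a7, mem_powerset.1 a3, a4, by omega, a6, by omega⟩
  · refine Rec.step Δ 0 l u (l / 2) _ fun d hd => ?_
    obtain ⟨a3, a4, a5, a6⟩ := mem_filter.1 hd
    have a7 : Odd d.card := Nat.odd_iff.2 a5
    have a8 := tree_odd a4 a7
    exact ⟨card_pos.1 a7.pos, mem_powerset.1 a3, a4, by omega, a6, by omega⟩
  · obtain ⟨C, hC, h1, -, h2, -⟩ := pi_facts hPi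
    refine ⟨2 * C * Real.exp (1 + 2 * C), by positivity, fun Δ par l u hu hl => ?_⟩
    have s0 : (0 : ℝ) < (Δ - l : ℕ) := by exact_mod_cast Nat.sub_pos_of_lt hl
    have h3 := Rec.crude hC h1 h2 hu (s := Δ - l)
      ((PR u Δ).powerset.filter fun d => tree Δ d ∧ d.card % 2 = par ∧ ts d + l = Δ) fun d hd => by
      obtain ⟨a3, -, -, a6⟩ := mem_filter.1 hd
      refine ⟨fun p hp => ?_, by omega⟩
      have a7 := mem_PR.1 (mem_powerset.1 a3 hp)
      have a8 := Rec.ts_erase hp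
      exact mem_PR.2 ⟨a7.1, a7.2.1, by omega⟩
    rw [mul_div_right_comm, mul_comm] at h3
    exact le_of_mul_le_mul_right h3 s0

end Pool.Agent.P.MP_26a8c3_nt.EC
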