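import Pool.Agent.P.MP_26a8c3_nt.EC.Base

/-! Rigidity: a nearly extremal box forces a rational point of small height. -/

namespace Pool.Agent.P.MP_26a8c3_nt.EC

open Finset
open scoped Classical

namespace Rig

lemma num1 {Λ : ℝ} (h : 2 ^ 100 ≤ Λ) :
    Real.exp (Λ ^ (51 / 100 : ℝ)) * (Λ ^ 4 + 1) ≤ Xi Λ := by
  have h1 : (1 : ℝ) ≤ Λ := le_trans (by norm_num) h
  have h0 : (0 : ℝ) < Λ := by linarith
  have a1 : (2 : ℝ) ≤ Λ ^ (1 / 100 : ℝ) := by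
    have : ((2 : ℝ) ^ 100) ^ (1 / 100 : ℝ) = 2 := by
      rw [← Real.rpow_natCast, ← Real.rpow_mul (by norm_num)]
      norm_num
    rw [← this]
    exact Real.rpow_le_rpow (by positivity) h (by norm_num)
  set x := Λ ^ (51 / 100 : ℝ) with hx
  have a2 : Λ ≤ x ^ 2 := by
    rw [hx, ← Real.rpow_natCast, ← Real.rpow_mul h0.le]
    conv_lhs => rw [← Real.rpow_one Λ]
    exact Real.rpow_le_rpow_of_exponent_le h1 (by norm_num)
  have x0 : 0 ≤ x := Real.rpow_nonneg h0.le _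
  have a3 : (1000000 : ℝ) ≤ x := by
    by_contra hn
    have : x ^ 2 ≤ 1000000 ^ 2 := pow_le_pow_left₀ x0 (not_le.1 hn).le 2
    have h2 : (1000000 : ℝ) ^ 2 < 2 ^ 100 := by norm_num
    linarith
  have a4 : Λ ^ 4 ≤ x ^ 8 := by
    calc Λ ^ 4 ≤ (x ^ 2) ^ 4 := pow_le_pow_left₀ h0.le a2 4
      _ = x ^ 8 := by ring
  have a5 : x ^ 9 / 362880 ≤ Real.exp x := by
    have := Real.pow_div_factorial_le_exp x x0 9
    norm_num [Nat.factorial] at this
    exact this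
  have a6 : (1 : ℝ) ≤ x ^ 8 := one_le_pow₀ (by linarith)
  have a7 : Λ ^ 4 + 1 ≤ Real.exp x := by
    refine le_trans ?_ a5
    rw [le_div_iff₀ (by norm_num)]
    have : x ^ 9 = x ^ 8 * x := by ring
    nlinarith
  have a8 : Λ ^ (13 / 25 : ℝ) = x * Λ ^ (1 / 100 : ℝ) := by
    rw [hx, ← Real.rpow_add h0]
    norm_num
  unfold Xi
  calc Real.exp x * (Λ ^ 4 + 1) ≤ Real.exp x * Real.exp x :=
        mul_le_mul_of_nonneg_left a7 (Real.exp_pos _).le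
    _ = Real.exp (x + x) := (Real.exp_add _ _).symm
    _ ≤ _ := Real.exp_le_exp.2 (by rw [a8]; nlinarith)

lemma num2 {th Λ L Y : ℝ} (u : ℕ) (h0 : 0 < th) (hΛ : 64 / th ≤ Λ) (h1 : 1 ≤ Λ) (hL : 1 < L)
    (hz : Λ ^ 40 ≤ L ^ th) (hY : L ≤ Y) : L ^ (1 - th) ≤ th / 8 * cs u L * Y := by
  have L0 : 0 < L := by linarith
  have l0 : 0 < Real.log L := Real.log_pos hL
  have c1 : (Real.log L)⁻¹ ≤ cs u L := by
    unfold cs
    refine inv_anti₀ (mul_pos (V0_pos u) l0) ?_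
    nlinarith [V0_le_one u]
  set z := L ^ th with hzd
  have z0 : 0 < z := Real.rpow_pos_of_pos L0 _
  have lz : Real.log z = th * Real.log L := Real.log_rpow L0 _
  set s := √z with hs
  have s0 : 0 < s := Real.sqrt_pos.2 z0
  have sz : z = s * s := (Real.mul_self_sqrt z0.le).symm
  have b1 : Real.log z ≤ 2 * s := by
    rw [sz, Real.log_mul s0.ne' s0.ne']
    linarith [Real.log_le_sub_one_of_pos s0]
  have b2 : Λ ^ 2 ≤ s := by
    rw [hs]
    refine Real.le_sqrt_of_sq_le (le_trans ?_ hz)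
    rw [← pow_mul]
    exact pow_le_pow_right₀ h1 (by norm_num)
  have b3 : 64 ≤ th * Λ := by
    rw [div_le_iff₀ h0] at hΛ
    linarith
  have b4 : 16 ≤ th ^ 2 * s := by
    have : (64 : ℝ) ^ 2 ≤ (th * Λ) ^ 2 := pow_le_pow_left₀ (by norm_num) b3 2
    have h2 : th ^ 2 * Λ ^ 2 ≤ th ^ 2 * s := mul_le_mul_of_nonneg_left b2 (sq_nonneg _)
    nlinarith
  have b5 : 8 * Real.log L ≤ th * z := by
    have : th * (8 * Real.log L) ≤ th * (th * z) := by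
      rw [sz]
      nlinarith
    exact le_of_mul_le_mul_left this h0
  have e1 : L ^ (1 - th) = L / z := by
    rw [Real.rpow_sub L0, Real.rpow_one]
  rw [e1]
  calc L / z ≤ th / 8 * (Real.log L)⁻¹ * L := by
        rw [div_le_iff₀ z0]
        have : th / 8 * (Real.log L)⁻¹ * L * z = L * (th * z / (8 * Real.log L)) := by
          field_simp
        rw [this]
        exact le_mul_of_one_le_right L0.le ((one_le_div (by positivity)).2 b5)
    _ ≤ th / 8 * cs u L * Y := by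
        have : 0 ≤ th / 8 * (Real.log L)⁻¹ := by positivity
        exact mul_le_mul (mul_le_mul_of_nonneg_left c1 (by positivity)) hY L0.le
          (le_trans this (mul_le_mul_of_nonneg_left c1 (by positivity)))

lemma fi_close {Λ : ℝ} (h : 2 ≤ Λ) {p q : ℕ} (hp : 0 < p) (hq : 0 < q)
    (e : fi (FF Λ) p = fi (FF Λ) q) : (p : ℝ) ≤ q * (1 + (Λ ^ 3)⁻¹) := by
  have hF := one_le_FF (Λ := Λ) (by linarith)
  have hF' : (1 : ℝ) ≤ FF Λ := by exact_mod_cast hF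
  have b1 := (fi_bounds hF hp).2
  have b2 := (fi_bounds hF hq).1
  rw [← e] at b2
  have b3 : Real.exp (1 / (FF Λ : ℝ)) ≤ 1 + (Λ ^ 3)⁻¹ := by
    have i0 : 0 < 1 / (FF Λ : ℝ) := by positivity
    have i1 : 1 / (FF Λ : ℝ) ≤ 1 := (div_le_one (by linarith)).2 hF'
    have := Real.abs_exp_sub_one_le (x := 1 / (FF Λ : ℝ)) (by rw [abs_of_pos i0]; exact i1)
    rw [abs_of_pos i0] at this
    have i2 := (abs_le.1 this).2
    have i3 : Λ ^ 4 ≤ (FF Λ : ℝ) := Nat.le_ceil _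
    have i4 : 2 * (1 / (FF Λ : ℝ)) ≤ (Λ ^ 3)⁻¹ := by
      have p3 : 0 < Λ ^ 3 := by positivity
      rw [mul_one_div, ← one_div, div_le_div_iff₀ (by linarith) p3]
      have : Λ ^ 4 = Λ ^ 3 * Λ := by ring
      nlinarith
    linarith
  have b4 : (fi (FF Λ) p : ℝ) / FF Λ = ((fi (FF Λ) p : ℝ) - 1) / FF Λ + 1 / FF Λ := by ring
  rw [b4, Real.exp_add] at b1
  exact b1.trans (mul_le_mul b2.le b3 (Real.exp_pos _).le (Nat.cast_nonneg _))

lemma few_bad {α : Type} (W : Finset α) (Cn Ys : α → ℝ) {c δ th K : ℝ} (hc : 0 < c) (hK : 0 < K)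
    (hδ : δ = th ^ 2 / 10000) (h0 : 0 < th) (h1 : ∀ d ∈ W, K ≤ Ys d ∧ Ys d ≤ 3 * K)
    (h2 : ∀ d ∈ W, Cn d ≤ (2 + δ) * c * Ys d) (h3 : (2 - δ) * c * ∑ d ∈ W, Ys d ≤ ∑ d ∈ W, Cn d) :
    (1 - 24 * th / 10000) * W.card ≤
      ((W.filter fun d => (2 - th / 4) * c * Ys d ≤ Cn d).card : ℝ) := by
  set P : α → Prop := fun d => (2 - th / 4) * c * Ys d ≤ Cn d with hP
  set Bad := W.filter fun d => ¬ P d with hB
  have δ0 : 0 < δ := by rw [hδ]; positivity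
  have s1 : ∑ d ∈ W, Cn d ≤ ∑ d ∈ W, ((2 + δ) * c * Ys d - if ¬ P d then th / 4 * c * K else 0) := by
    refine sum_le_sum fun d hd => ?_
    by_cases hd' : P d
    · simp only [hd', not_true_eq_false, if_false, sub_zero]
      exact h2 d hd
    · simp only [hd', not_false_eq_true, if_true]
      have a1 : Cn d ≤ (2 - th / 4) * c * Ys d := (not_le.1 hd').le
      have a2 := (h1 d hd).1
      have a3 : 0 ≤ δ * c * Ys d := by
        have : 0 ≤ Ys d := by linarith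
        positivity
      have a4 : th / 4 * c * K ≤ th / 4 * c * Ys d := mul_le_mul_of_nonneg_left a2 (by positivity)
      nlinarith
  rw [sum_sub_distrib, ← mul_sum, ← sum_filter, sum_const, nsmul_eq_mul, ← hB] at s1
  have s2 : ∑ d ∈ W, Ys d ≤ W.card * (3 * K) := by
    rw [← nsmul_eq_mul]
    exact sum_le_card_nsmul _ _ _ fun d hd => (h1 d hd).2
  have s3 : (Bad.card : ℝ) * (th / 4 * c * K) ≤ 2 * δ * c * (W.card * (3 * K)) := by
    have : 2 * δ * c * ∑ d ∈ W, Ys d ≤ 2 * δ * c * (W.card * (3 * K)) :=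
      mul_le_mul_of_nonneg_left s2 (by positivity)
    nlinarith
  have s4 : (Bad.card : ℝ) ≤ 24 * th / 10000 * W.card := by
    refine le_of_mul_le_mul_right (s3.trans (le_of_eq ?_)) (by positivity : 0 < th / 4 * c * K)
    rw [hδ]
    ring
  have s5 : ((W.filter P).card : ℝ) + Bad.card = W.card := by
    exact_mod_cast card_filter_add_card_filter_not (s := W) P
  linarith

lemma code_card {Λ : ℝ} (h : 1 ≤ Λ) (t1 M A : ℕ) (hM : 0 < M) (W2 : Finset ℕ)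
    (G : Finset (ℕ × ℕ)) (hG : G ⊆ PR t1 t1 ×ˢ W2) :
    ((G.image fun d : ℕ × ℕ => ((A / (d.1 * d.2)) % M, fi (FF Λ) d.1)).card : ℝ) ≤
      M * (Λ ^ 4 + 1) := by
  have hF := one_le_FF h
  have s1 : (G.image fun d : ℕ × ℕ => ((A / (d.1 * d.2)) % M, fi (FF Λ) d.1)) ⊆
      range M ×ˢ Ioc (FF Λ * (t1 - 1)) (FF Λ * t1) := by
    intro x hx
    obtain ⟨d, hd, rfl⟩ := mem_image.1 hx
    obtain ⟨b1, b2, b3⟩ := mem_PR.1 (mem_product.1 (hG hd)).1
    have b4 := one_le_tau b1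
    refine mem_product.2 ⟨mem_range.2 (Nat.mod_lt _ hM), mem_Ioc.2 ⟨?_, (tau_le_iff_fi hF).1 b3⟩⟩
    by_contra hn
    have := (tau_le_iff_fi hF).2 (not_lt.1 hn)
    omega
  have s2 := card_le_card s1
  rw [card_product, card_range, Nat.card_Ioc] at s2
  have s3 : FF Λ * t1 - FF Λ * (t1 - 1) ≤ FF Λ := by
    rcases Nat.eq_zero_or_pos t1 with rfl | ht
    · simp
    · obtain ⟨k, rfl⟩ : ∃ k, t1 = k + 1 := ⟨t1 - 1, by omega⟩
      simp [Nat.mul_succ]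
  have s4 : (FF Λ : ℝ) ≤ Λ ^ 4 + 1 := (Nat.ceil_lt_add_one (by positivity)).le
  calc _ ≤ ((M * FF Λ : ℕ) : ℝ) := by exact_mod_cast s2.trans (Nat.mul_le_mul_left _ s3)
    _ ≤ _ := by
      push_cast
      exact mul_le_mul_of_nonneg_left s4 (Nat.cast_nonneg _)

lemma ratio {T D D' κ : ℝ} (hT : 0 ≤ T) (hD : 0 < D) (hD' : 0 < D') (hκ : 0 ≤ κ)
    (h : D ≤ D' * (1 + κ) ^ 3) : T / D' * (1 - 3 * κ) ≤ T / D := by
  rw [le_div_iff₀ hD]
  have q0 : 0 ≤ T / D' := by positivity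
  rcases le_total (1 - 3 * κ) 0 with hk | hk
  · have : T / D' * (1 - 3 * κ) ≤ 0 := mul_nonpos_of_nonneg_of_nonpos q0 hk
    nlinarith
  · have a1 : (1 - 3 * κ) * (1 + κ) ^ 3 ≤ 1 := by
      have : 0 ≤ κ ^ 2 * (6 + 8 * κ + 3 * κ ^ 2) := by positivity
      nlinarith
    calc T / D' * (1 - 3 * κ) * D ≤ T / D' * (1 - 3 * κ) * (D' * (1 + κ) ^ 3) :=
          mul_le_mul_of_nonneg_left h (mul_nonneg q0 hk)
      _ = T * ((1 - 3 * κ) * (1 + κ) ^ 3) := by field_simp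
      _ ≤ T := mul_le_of_le_one_right hT a1

end Rig

open Rig in
theorem pRig (hTriv : S_Triv) (hHM : S_HM) (hCol : S_Col) (hHt : S_Ht) : S_Rig := by
  intro u th hu hSv B
  by_cases hth : 0 < th ∧ th ≤ 1 / 1000
  swap
  · exact ⟨0, fun t1 M A Λ L P2 T R W2 E1 E2 _ hC => absurd ⟨hC.th0, hC.th1⟩ hth⟩
  obtain ⟨h0, h1⟩ := hth
  obtain ⟨La, hLa⟩ := hTriv u (th ^ 2 / 10000) hu (by positivity)
  obtain ⟨Lb, hLb⟩ := hSv
  obtain ⟨Λ1, hΛ1⟩ := hHM B th h0 h1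
  obtain ⟨Λ2, hΛ2⟩ := hCol B th (24 * th / 10000) (by positivity) (by linarith)
  obtain ⟨Λ3, hΛ3⟩ := hHt B th
  refine ⟨max (max (max La Lb) (max Λ1 Λ2)) (max Λ3 (max (2 ^ 100) (64 / th))), ?_⟩
  intro t1 M A Λ L P2 T R W2 E1 E2 hΛ hC hS hsum
  simp only [max_le_iff] at hΛ
  obtain ⟨⟨⟨ka, kb⟩, k1, k2⟩, k3, k4, k5⟩ := hΛ
  have Λ2' : (2 : ℝ) ≤ Λ := le_trans (by norm_num) k4
  have Λ1' : (1 : ℝ) ≤ Λ := by linarith
  have hΛL : Λ ≤ L := by
    have a1 : Λ ≤ Λ ^ 40 := le_self_pow₀ Λ1' (by norm_num)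
    have a2 : L ^ th ≤ L := by
      conv_rhs => rw [← Real.rpow_one L]
      exact Real.rpow_le_rpow_of_exponent_le hC.L0 (by linarith)
    linarith [hC.L1]
  have hL1 : 1 < L := by linarith
  have cs0 : 0 < cs u L := inv_pos.2 (mul_pos (V0_pos u) (Real.log_pos hL1))
  have e10 : (0 : ℝ) < E1.card := by linarith [hS.c1]
  have e20 : (0 : ℝ) < E2.card := by linarith [hS.c2]
  set W := PR t1 t1 ×ˢ W2 with hW
  set Yv : ℕ × ℕ → ℕ → ℕ → ℝ := fun d e1 e2 => T / ((d.1 * d.2 * (e1 * e2) : ℕ) : ℝ) with hYv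
  set Ys : ℕ × ℕ → ℝ := fun d => ∑ e1 ∈ E1, ∑ e2 ∈ E2, Yv d e1 e2 with hYs
  set Cn : ℕ × ℕ → ℝ := fun d => ∑ e1 ∈ E1, ∑ e2 ∈ E2,
    cnt u L (A / (d.1 * d.2 * (e1 * e2))) (Yv d e1 e2) with hCn
  have hlen : ∀ d ∈ W, ∀ e1 ∈ E1, ∀ e2 ∈ E2, L ≤ Yv d e1 e2 ∧ Yv d e1 e2 ≤ 3 * L :=
    fun d hd e1 h1 e2 h2 => hS.len d.1 (mem_product.1 hd).1 d.2 (mem_product.1 hd).2 e1 h1 e2 h2
  have csum : ∀ y : ℝ, ∑ _e1 ∈ E1, ∑ _e2 ∈ E2, y = y * E1.card * E2.card := fun y => by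
    simp only [sum_const, nsmul_eq_mul]
    ring
  set G := W.filter fun d => (2 - th / 4) * cs u L * Ys d ≤ Cn d with hG
  have hGW : G ⊆ W := filter_subset _ _
  have hWc : (W.card : ℝ) = (PR t1 t1).card * W2.card := by
    rw [hW, card_product]
    push_cast
    ring
  have hGc : (1 - 24 * th / 10000) * ((PR t1 t1).card * W2.card) ≤ (G.card : ℝ) := by
    rw [← hWc]
    refine few_bad W Cn Ys (K := L * E1.card * E2.card) cs0 (by positivity) rfl h0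
      (fun d hd => ⟨?_, ?_⟩) (fun d hd => ?_) ?_
    · rw [← csum]
      exact sum_le_sum fun e1 h1 => sum_le_sum fun e2 h2 => (hlen d hd e1 h1 e2 h2).1
    · have : 3 * (L * E1.card * E2.card) = 3 * L * E1.card * E2.card := by ring
      rw [this, ← csum]
      exact sum_le_sum fun e1 h1 => sum_le_sum fun e2 h2 => (hlen d hd e1 h1 e2 h2).2
    · simp only [hYs, hCn, mul_sum]
      refine sum_le_sum fun e1 h1 => sum_le_sum fun e2 h2 => ?_
      have := hlen d hd e1 h1 e2 h2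
      exact hLa L _ _ (by linarith) this.1 (by linarith [this.2])
    · rw [hW, sum_product, sum_product]
      exact hsum
  set code : ℕ × ℕ → ℕ × ℕ := fun d => ((A / (d.1 * d.2)) % M, fi (FF Λ) d.1) with hcode
  have hcc : ∀ G' ⊆ G, ((G'.image code).card : ℝ) ≤ Xi Λ := fun G' hG' =>
    (code_card Λ1' t1 M A hS.M0 W2 G' (hG'.trans hGW)).trans
      (le_trans (mul_le_mul_of_nonneg_right hS.M1 (by positivity)) (num1 k4))
  have hHMo : HMo u th L A G code := by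
    intro S hSG hcd hSc
    have Sne : S.Nonempty := by
      have : (0 : ℝ) < S.card := lt_of_lt_of_le (by positivity) hSc
      exact card_pos.1 (Nat.cast_pos.1 this)
    have ne : (S ×ˢ E1 ×ˢ E2).Nonempty :=
      Sne.product ((card_pos.1 (Nat.cast_pos.1 e10)).product (card_pos.1 (Nat.cast_pos.1 e20)))
    obtain ⟨z, hz, hmax⟩ := exists_max_image (S ×ˢ E1 ×ˢ E2) (fun z => Yv z.1 z.2.1 z.2.2) ne
    obtain ⟨j, f1, f2⟩ := z
    simp only [mem_product] at hz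
    obtain ⟨hj, hf1, hf2⟩ := hz
    set Y := Yv j f1 f2 with hY
    have hjW := hGW (hSG hj)
    have hYl := hlen j hjW f1 hf1 f2 hf2
    obtain ⟨c, hc⟩ := hLb L Y (by linarith) hYl.1 (by linarith [hYl.2])
    refine hΛ1 u M Λ L Y c E1 E2 S (fun d => A / (d.1 * d.2)) k1 hC.L0 hC.L1 hc hS.Ea hS.c1 hS.c2
      (fun e1 h1 e2 h2 => (hS.dv e1 h1 e2 h2).1)
      (fun a ha b hb => congrArg Prod.fst (hcd a ha b hb)) (fun i hi => ?_) hSc
    have hiW := hGW (hSG hi)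
    set κ := (Λ ^ 3)⁻¹ with hκ
    have κ0 : 0 < κ := by positivity
    have pos : ∀ d ∈ W, ∀ e1 ∈ E1, ∀ e2 ∈ E2,
        (0 : ℝ) < d.1 ∧ (0 : ℝ) < d.2 ∧ (0 : ℝ) < ((e1 * e2 : ℕ) : ℝ) := fun d hd e1 h1 e2 h2 =>
      ⟨by exact_mod_cast (mem_PR.1 (mem_product.1 hd).1).1.pos,
        by exact_mod_cast (hC.W2a _ (mem_product.1 hd).2).1.pos,
        by exact_mod_cast Nat.mul_pos (hS.Ea e1 (mem_union_left _ h1)).1
            (hS.Ea e2 (mem_union_right _ h2)).1⟩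
    have cast : ∀ (d : ℕ × ℕ) (e : ℕ), ((d.1 * d.2 * e : ℕ) : ℝ) = (d.1 : ℝ) * d.2 * e :=
      fun d e => by push_cast; ring
    obtain ⟨j1, j2, j3⟩ := pos j hjW f1 hf1 f2 hf2
    have T0 : 0 ≤ T := by
      by_contra hn
      have : Y ≤ 0 := div_nonpos_of_nonpos_of_nonneg (not_le.1 hn).le (Nat.cast_nonneg _)
      linarith [hYl.1]
    have low : ∀ e1 ∈ E1, ∀ e2 ∈ E2, Y * (1 - 3 * κ) ≤ Yv i e1 e2 := by
      intro e1 h1 e2 h2
      obtain ⟨i1, i2, i3⟩ := pos i hiW e1 h1 e2 h2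
      refine ratio T0 (by rw [cast]; positivity) (by rw [cast]; positivity) κ0.le ?_
      have r1 : (i.1 : ℝ) ≤ j.1 * (1 + κ) :=
        fi_close Λ2' (by exact_mod_cast i1) (by exact_mod_cast j1)
          (congrArg Prod.snd (hcd i hi j hj))
      have r2 : (i.2 : ℝ) ≤ j.2 * (1 + κ) :=
        (hC.W2a _ (mem_product.1 hiW).2).2.2.1.trans
          (mul_le_mul_of_nonneg_right (hC.W2a _ (mem_product.1 hjW).2).2.1 (by linarith))
      have r3 : ((e1 * e2 : ℕ) : ℝ) ≤ ((f1 * f2 : ℕ) : ℝ) * (1 + κ) :=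
        (hS.dv e1 h1 e2 h2).2.2.trans
          (mul_le_mul_of_nonneg_right (hS.dv f1 hf1 f2 hf2).2.1 (by linarith))
      rw [cast, cast]
      calc (i.1 : ℝ) * i.2 * ((e1 * e2 : ℕ) : ℝ)
          ≤ (j.1 * (1 + κ)) * (j.2 * (1 + κ)) * (((f1 * f2 : ℕ) : ℝ) * (1 + κ)) := by gcongr
        _ = _ := by ring
    have s1 : Y * (1 - 3 * κ) * E1.card * E2.card ≤ Ys i := by
      rw [← csum]
      exact sum_le_sum fun e1 h1 => sum_le_sum fun e2 h2 => low e1 h1 e2 h2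
    have s2 : (2 - th / 4) * cs u L * Ys i ≤ Cn i := (mem_filter.1 (hSG hi)).2
    have s3 : Cn i ≤ ∑ e1 ∈ E1, ∑ e2 ∈ E2, cnt u L (A / (i.1 * i.2) / (e1 * e2)) Y := by
      refine sum_le_sum fun e1 h1 => sum_le_sum fun e2 h2 => ?_
      rw [Nat.div_div_eq_div_mul]
      exact cnt_mono u L _ (hmax (i, e1, e2) (by simp only [mem_product]; exact ⟨hi, h1, h2⟩))
    have s4 := num2 u h0 k5 Λ1' hL1 hC.L1 hYl.1
    have s5 : 64 * κ ≤ th := by
      have a1 : Λ ≤ Λ ^ 3 := le_self_pow₀ Λ1' (by norm_num)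
      have a2 : κ ≤ Λ⁻¹ := inv_anti₀ (by linarith) a1
      have a3 : 64 * Λ⁻¹ ≤ th := by
        rw [← div_eq_mul_inv, div_le_iff₀ (by linarith)]
        rw [div_le_iff₀ h0] at k5
        linarith
      linarith
    have cY : 0 ≤ cs u L * Y := mul_nonneg cs0.le (by linarith [hYl.1])
    have s6 : (2 - th / 2) * cs u L * Y + L ^ (1 - th) ≤
        (2 - th / 4) * cs u L * (Y * (1 - 3 * κ)) := by
      have a1 : 2 - th / 2 + th / 8 ≤ (2 - th / 4) * (1 - 3 * κ) := by nlinarith [mul_pos h0 κ0]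
      have a2 := mul_le_mul_of_nonneg_right a1 cY
      nlinarith
    have s7 : (2 - th / 4) * cs u L * (Y * (1 - 3 * κ) * E1.card * E2.card) ≤
        (2 - th / 4) * cs u L * Ys i :=
      mul_le_mul_of_nonneg_left s1 (mul_nonneg (by linarith) cs0.le)
    calc _ ≤ (2 - th / 4) * cs u L * (Y * (1 - 3 * κ)) * E1.card * E2.card := by gcongr
      _ = (2 - th / 4) * cs u L * (Y * (1 - 3 * κ) * E1.card * E2.card) := by ring
      _ ≤ _ := s7.trans (s2.trans s3)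
  obtain ⟨x, hx, hb, G', hG', hG'c, hsing⟩ :=
    hΛ2 u t1 A Λ L P2 W2 G code k2 hC hGW hGc (hcc G Subset.rfl) hHMo
  obtain ⟨v1, v2⟩ := hΛ3 u t1 A Λ L P2 W2 G' code x k3 hC (hG'.trans hGW) hG'c (hcc G' hG')
    (hHMo.mono hG') hx hsing
  refine ⟨x.1, x.2, hx.1, hx.2.1, v1, v2, hb.trans ?_⟩
  exact mul_le_mul_of_nonneg_right (by linarith) (by positivity)

end Pool.Agent.P.MP_26a8c3_nt.EC
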