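import Pool.Agent.P.MP_26a8c3_nt.EC.Base

/-! Sums over the selections of one element from each window. -/

namespace Pool.Agent.P.MP_26a8c3_nt.EC

open Finset
open scoped Classical

namespace Sel

variable {w : ℕ → Finset ℕ} {ω ω1 ω2 ρ : Finset ℕ}

theorem mem : ρ ∈ Sel w ω ↔ ρ ⊆ ω.biUnion w ∧ ∀ j ∈ ω, (ρ ∩ w j).card = 1 := by
  simp only [Sel, mem_filter, mem_powerset]

theorem dis (h : ∀ i j, i ≠ j → Disjoint (w i) (w j)) (hd : Disjoint ω1 ω2) :
    Disjoint (ω1.biUnion w) (ω2.biUnion w) :=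
  (disjoint_biUnion_left _ _ _).2 fun i hi => (disjoint_biUnion_right _ _ _).2 fun j hj =>
    h i j fun e => disjoint_left.1 hd hi (e ▸ hj)

theorem res (hρ : ρ ∈ Sel w ω) (hs : ω1 ⊆ ω) : ρ ∩ ω1.biUnion w ∈ Sel w ω1 :=
  mem.2 ⟨inter_subset_right, fun j hj => by
    rw [inter_assoc, inter_eq_right.2 (subset_biUnion_of_mem w hj)]
    exact (mem.1 hρ).2 j (hs hj)⟩

theorem cut {a b U V : Finset ℕ} (ha : a ⊆ U) (hb : b ⊆ V) (h : Disjoint U V) :
    (a ∪ b) ∩ U = a := by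
  rw [union_inter_distrib_right, inter_eq_left.2 ha,
    disjoint_iff_inter_eq_empty.1 (h.symm.mono_left hb), union_empty]

theorem union (h : ∀ i j, i ≠ j → Disjoint (w i) (w j)) (f : Finset ℕ → ℝ) (hd : Disjoint ω1 ω2) :
    ∑ ρ ∈ Sel w (ω1 ∪ ω2), f ρ = ∑ ρ1 ∈ Sel w ω1, ∑ ρ2 ∈ Sel w ω2, f (ρ1 ∪ ρ2) := by
  have D := dis h hd
  have e : ∀ ρ ∈ Sel w (ω1 ∪ ω2), ρ ∩ ω1.biUnion w ∪ ρ ∩ ω2.biUnion w = ρ := fun ρ hρ => by
    rw [← inter_union_distrib_left, ← union_biUnion, inter_eq_left.2 (mem.1 hρ).1]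
  rw [← sum_product']
  refine sum_nbij' (fun ρ => (ρ ∩ ω1.biUnion w, ρ ∩ ω2.biUnion w)) (fun x => x.1 ∪ x.2)
    (fun ρ hρ => mem_product.2 ⟨res hρ subset_union_left, res hρ subset_union_right⟩)
    (fun x hx => ?_) e (fun x hx => ?_) fun ρ hρ => by rw [e ρ hρ]
  · obtain ⟨⟨a1, a2⟩, b1, b2⟩ := (mem_product.1 hx).imp mem.1 mem.1
    refine mem.2 ⟨by rw [union_biUnion]; exact union_subset_union a1 b1, fun j hj => ?_⟩
    rcases mem_union.1 hj with hj | hj
    · rw [← inter_eq_right.2 (subset_biUnion_of_mem w hj), ← inter_assoc, cut a1 b1 D]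
      exact a2 j hj
    · rw [← inter_eq_right.2 (subset_biUnion_of_mem w hj), ← inter_assoc, union_comm,
        cut b1 a1 D.symm]
      exact b2 j hj
  · obtain ⟨⟨a1, -⟩, b1, -⟩ := (mem_product.1 hx).imp mem.1 mem.1
    exact Prod.ext (cut a1 b1 D) (by rw [union_comm]; exact cut b1 a1 D.symm)

theorem single (j : ℕ) (f : Finset ℕ → ℝ) : ∑ ρ ∈ Sel w {j}, f ρ = ∑ p ∈ w j, f {p} := by
  have e : Sel w {j} = (w j).image fun p => {p} := by
    ext ρ
    simp only [mem, singleton_biUnion, mem_singleton, forall_eq, mem_image]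
    constructor
    · rintro ⟨a, b⟩
      rw [inter_eq_left.2 a] at b
      obtain ⟨p, rfl⟩ := card_eq_one.1 b
      exact ⟨p, a (mem_singleton_self p), rfl⟩
    · rintro ⟨p, hp, rfl⟩
      exact ⟨singleton_subset_iff.2 hp, by rw [singleton_inter_of_mem hp, card_singleton]⟩
  rw [e, sum_image fun _ _ _ _ h => singleton_injective h]

theorem ins (h : ∀ i j, i ≠ j → Disjoint (w i) (w j)) {j : ℕ} (hj : j ∉ ω) (f : Finset ℕ → ℝ) :
    ∑ ρ ∈ Sel w (insert j ω), f ρ = ∑ p ∈ w j, ∑ ρ ∈ Sel w ω, f ({p} ∪ ρ) := by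
  rw [insert_eq, union h f (disjoint_singleton_left.2 hj),
    single j fun ρ1 => ∑ ρ ∈ Sel w ω, f (ρ1 ∪ ρ)]

theorem card_eq (h : ∀ i j, i ≠ j → Disjoint (w i) (w j)) (ω : Finset ℕ) :
    (Sel w ω).card = ∏ j ∈ ω, (w j).card := by
  induction ω using Finset.induction_on with
  | empty => simp [Sel]
  | insert j ω hj ih =>
    have := ins h hj fun _ => 1
    simp only [sum_const, nsmul_eq_mul, mul_one] at this
    rw [prod_insert hj, ← ih]
    exact_mod_cast this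

theorem drop (F : ℕ → ℝ) {n : ℕ} (hn : 1 ≤ n) (m : ℕ) : ∀ s : Finset ℕ, s.card = n + m →
    0 < ∑ p ∈ s, F p → ∃ S ⊆ s, S.card = n ∧ 0 < ∑ p ∈ S, F p := by
  induction m with
  | zero => exact fun s h1 h2 => ⟨s, subset_rfl, h1, h2⟩
  | succ m ih =>
    intro s h1 h2
    obtain ⟨x, hx, hm⟩ := exists_min_image s F (card_pos.1 (by omega))
    have hc : (s.erase x).card = n + m := by rw [card_erase_of_mem hx]; omega
    obtain ⟨S, a, b⟩ := ih _ hc (by
      rcases le_or_gt (F x) 0 with l | l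
      · rw [← add_sum_erase s F hx] at h2
        linarith
      · exact sum_pos (fun y hy => l.trans_le (hm y (mem_of_mem_erase hy)))
          (card_pos.1 (by omega)))
    exact ⟨S, a.trans (erase_subset _ _), b⟩

theorem congr {w' : ℕ → Finset ℕ} (h : ∀ j ∈ ω, w j = w' j) : Sel w ω = Sel w' ω := by
  ext ρ
  rw [mem, mem, biUnion_congr rfl h]
  exact and_congr_right' (forall₂_congr fun j hj => by rw [h j hj])

theorem sample (h : ∀ i j, i ≠ j → Disjoint (w i) (w j)) {n : ℕ} (hn : 1 ≤ n) (ω : Finset ℕ) :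
    ∀ f : Finset ℕ → ℝ, (∀ j ∈ ω, n ≤ (w j).card) → 0 < ∑ ρ ∈ Sel w ω, f ρ →
      ∃ w' : ℕ → Finset ℕ, (∀ j, w' j ⊆ w j) ∧ (∀ j ∈ ω, (w' j).card = n) ∧
        0 < ∑ ρ ∈ Sel w' ω, f ρ := by
  induction ω using Finset.induction_on with
  | empty => exact fun f _ h0 => ⟨w, fun _ => subset_rfl, by simp, h0⟩
  | insert j ω hj ih =>
    intro f hc h0
    rw [ins h hj] at h0
    obtain ⟨m, hm⟩ := Nat.exists_eq_add_of_le (hc j (mem_insert_self _ _))
    obtain ⟨S, s1, s2, s3⟩ := drop _ hn m _ hm h0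
    rw [sum_comm] at s3
    obtain ⟨w', a, b, c⟩ := ih _ (fun i hi => hc i (mem_insert_of_mem hi)) s3
    have e : ∀ i ∈ ω, Function.update w' j S i = w' i := fun i hi =>
      Function.update_of_ne (ne_of_mem_of_not_mem hi hj) _ _
    have sub : ∀ i, Function.update w' j S i ⊆ w i := fun i => by
      rcases eq_or_ne i j with rfl | q
      · rwa [Function.update_self]
      · rw [Function.update_of_ne q]
        exact a i
    refine ⟨Function.update w' j S, sub, fun i hi => ?_, ?_⟩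
    · rcases mem_insert.1 hi with rfl | hi
      · rwa [Function.update_self]
      · rw [e i hi, b i hi]
    · rwa [ins (fun x y q => (h x y q).mono (sub x) (sub y)) hj, Function.update_self, congr e,
        sum_comm]

end Sel

theorem pSel : S_Sel := by
  intro w h
  refine ⟨fun _ _ f hd => Sel.union h f hd, Sel.single, Sel.card_eq h, fun ω g lo hi ρ hρ hb => ?_,
    fun ω n f hn => Sel.sample h hn ω f⟩
  obtain ⟨a, b⟩ := Sel.mem.1 hρ
  have e : ∑ p ∈ ρ, g p = ∑ j ∈ ω, ∑ p ∈ ρ ∩ w j, g p := by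
    rw [← sum_biUnion fun i _ j _ q => (h i j q).mono inter_subset_right inter_subset_right,
      ← inter_biUnion, inter_eq_left.2 a]
  have k : ∀ j ∈ ω, lo j ≤ ∑ p ∈ ρ ∩ w j, g p ∧ ∑ p ∈ ρ ∩ w j, g p ≤ hi j := fun j hj => by
    obtain ⟨p, hp⟩ := card_eq_one.1 (b j hj)
    rw [hp, sum_singleton]
    exact hb j hj p (mem_inter.1 (hp ▸ mem_singleton_self p)).2
  rw [e]
  exact ⟨sum_le_sum fun j hj => (k j hj).1, sum_le_sum fun j hj => (k j hj).2⟩

end Pool.Agent.P.MP_26a8c3_nt.EC
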