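import Pool.Agent.P.MP_26a8c3_nt.EC.Base

/-! The Selberg sieve of level above the length, with the remainder in Fourier form. -/

namespace Pool.Agent.P.MP_26a8c3_nt.EC

open Finset
open scoped Classical
open Hyb (ee hat dv trm)

namespace Sv

lemma two_pow_le {m : ℕ} (hm : m ≠ 0) : (2 : ℝ) ^ m.primeFactors.card ≤ m.divisors.card := by
  rw [Nat.card_divisors hm, ← Finset.prod_const, Nat.cast_prod]
  refine Finset.prod_le_prod (fun _ _ => by norm_num) fun p hp => ?_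
  have := (Nat.prime_of_mem_primeFactors hp).factorization_pos_of_dvd hm
    (Nat.dvd_of_mem_primeFactors hp)
  exact_mod_cast Nat.succ_le_succ this

lemma pv_le {S U : Finset ℕ} (hU : ∀ p ∈ U, p.Prime) (h : S ⊆ U) : (pv S : ℝ) ≤ pv U := by
  exact_mod_cast Nat.le_of_dvd (pv_pos hU) (prod_dvd_prod_of_subset _ _ _ h)

lemma pv_union_le {S T : Finset ℕ} (hS : ∀ p ∈ S, p.Prime) : (pv (S ∪ T) : ℝ) ≤ pv S * pv T := by
  have h : pv (S ∪ T) * pv (S ∩ T) = pv S * pv T := prod_union_inter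
  have h1 : 0 < pv (S ∩ T) := pv_pos fun p hp => hS p (mem_inter.1 hp).1
  exact_mod_cast h ▸ Nat.le_mul_of_pos_right _ h1

lemma DDs_sub {u : ℕ} {th L : ℝ} {U : Finset ℕ} (h : U ∈ DDs u th L) : U ⊆ PPs u L :=
  mem_powerset.1 (mem_filter.1 h).1

lemma DDs_prime {u : ℕ} {th L : ℝ} : ∀ U ∈ DDs u th L, ∀ p ∈ U, p.Prime :=
  fun _ h p hp => PPs_prime p (DDs_sub h hp)

lemma DDs_empty {u : ℕ} {th L : ℝ} (h0 : 0 < th) (h1 : th ≤ 1) (hL : 1 ≤ L) : ∅ ∈ DDs u th L := by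
  refine mem_filter.2 ⟨empty_mem_powerset _, ?_, Or.inl ?_⟩
  · simpa [pv] using Real.one_le_rpow hL (by linarith : 0 ≤ (1 + th) / 2)
  · simpa [pv] using Real.one_le_rpow hL (by linarith : 0 ≤ (1 - th) / 2)

lemma DDs_down {u : ℕ} {th L : ℝ} (h0 : 0 < th) (hL : 1 ≤ L) :
    ∀ U ∈ DDs u th L, ∀ S ⊆ U, S ∈ DDs u th L := by
  intro U hU S hS
  have hp := DDs_prime U hU
  obtain ⟨h1, h2, h3⟩ := mem_filter.1 hU
  refine mem_filter.2 ⟨mem_powerset.2 (hS.trans (mem_powerset.1 h1)), (pv_le hp hS).trans h2, ?_⟩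
  rcases h3 with h3 | ⟨p, h3, h4⟩
  · exact Or.inl ((pv_le hp hS).trans h3)
  by_cases h5 : p ∈ S
  · exact Or.inr ⟨p, h5, h4⟩
  refine Or.inl ?_
  have h6 := (pv_le hp (insert_subset h3 hS)).trans h2
  rw [pv_insert h5, Nat.cast_mul] at h6
  have hL0 : 0 < L := by linarith
  refine le_of_mul_le_mul_left ?_ (Real.rpow_pos_of_pos hL0 (20 * th))
  rw [← Real.rpow_add hL0]
  exact ((mul_le_mul_of_nonneg_right h4 (Nat.cast_nonneg _)).trans h6).trans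
    (Real.rpow_le_rpow_of_exponent_le hL (by linarith))

/-- The coefficients of the square of the sieve weights. -/
noncomputable def gam (𝓛 : Finset (Finset ℕ)) (l : Finset ℕ → ℝ) (q : ℕ) : ℝ :=
  ∑ x ∈ (𝓛 ×ˢ 𝓛).filter (fun x => pv (x.1 ∪ x.2) = q), l x.1 * l x.2

variable {𝓛 : Finset (Finset ℕ)} {l : Finset ℕ → ℝ}

lemma sum_gam {MM : Finset ℕ} (h : ∀ S ∈ 𝓛, ∀ T ∈ 𝓛, pv (S ∪ T) ∈ MM) (F : ℕ → ℝ) :
    ∑ S ∈ 𝓛, ∑ T ∈ 𝓛, l S * l T * F (pv (S ∪ T)) = ∑ q ∈ MM, gam 𝓛 l q * F q := by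
  rw [← sum_product', ← sum_fiberwise_of_maps_to (g := fun x => pv (x.1 ∪ x.2)) (t := MM)
    fun x hx => h _ (mem_product.1 hx).1 _ (mem_product.1 hx).2]
  refine sum_congr rfl fun q _ => ?_
  rw [gam, sum_mul]
  exact sum_congr rfl fun x hx => by rw [(mem_filter.1 hx).2]

lemma gam_ne {q : ℕ} (h : gam 𝓛 l q ≠ 0) : ∃ S ∈ 𝓛, ∃ T ∈ 𝓛, pv (S ∪ T) = q := by
  obtain ⟨x, hx, -⟩ := exists_ne_zero_of_sum_ne_zero h
  obtain ⟨h1, h2⟩ := mem_filter.1 hx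
  exact ⟨_, (mem_product.1 h1).1, _, (mem_product.1 h1).2, h2⟩

lemma gam_le (hp : ∀ U ∈ 𝓛, ∀ p ∈ U, p.Prime) (hl : ∀ S, |l S| ≤ 2 ^ S.card) {q : ℕ}
    (hq : q ≠ 0) : |gam 𝓛 l q| ≤ (q.divisors.card : ℝ) ^ 4 := by
  have hsub : (𝓛 ×ˢ 𝓛).filter (fun x => pv (x.1 ∪ x.2) = q) ⊆
      q.primeFactors.powerset ×ˢ q.primeFactors.powerset := by
    intro x hx
    obtain ⟨h1, h2⟩ := mem_filter.1 hx
    rw [← h2, primeFactors_pv
      (forall_mem_union.2 ⟨hp _ (mem_product.1 h1).1, hp _ (mem_product.1 h1).2⟩)]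
    exact mem_product.2 ⟨mem_powerset.2 subset_union_left, mem_powerset.2 subset_union_right⟩
  have hb : ∀ S ∈ q.primeFactors.powerset, |l S| ≤ 2 ^ q.primeFactors.card := fun S hS =>
    (hl S).trans (pow_le_pow_right₀ one_le_two (card_le_card (mem_powerset.1 hS)))
  refine (abs_sum_le_sum_abs _ _).trans ((sum_le_sum_of_subset_of_nonneg hsub
    fun _ _ _ => abs_nonneg _).trans ((sum_le_card_nsmul _ _
      ((2 : ℝ) ^ q.primeFactors.card * 2 ^ q.primeFactors.card) fun x hx => ?_).trans ?_))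
  · rw [abs_mul]
    exact mul_le_mul (hb _ (mem_product.1 hx).1) (hb _ (mem_product.1 hx).2) (abs_nonneg _)
      (by positivity)
  · rw [card_product, card_powerset, nsmul_eq_mul]
    push_cast
    refine le_trans (le_of_eq (by ring)) (pow_le_pow_left₀ (by positivity) (two_pow_le hq) 4)

lemma dv_union {S T : Finset ℕ} (hS : ∀ p ∈ S, p.Prime) (hT : ∀ p ∈ T, p.Prime) (n : ℤ) :
    dv (pv S) n * dv (pv T) n = dv (pv (S ∪ T)) n := by
  have e : (pv (S ∪ T) : ℤ) ∣ n ↔ (pv S : ℤ) ∣ n ∧ (pv T : ℤ) ∣ n := by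
    simp only [Int.natCast_dvd]
    rw [pv_dvd_iff hS, pv_dvd_iff hT, pv_dvd_iff (forall_mem_union.2 ⟨hS, hT⟩), forall_mem_union]
  unfold dv
  by_cases a : (pv S : ℤ) ∣ n <;> by_cases b : (pv T : ℤ) ∣ n <;> simp [e, a, b]

variable {g : ℝ → ℝ} {C : ℝ}

lemma selberg (hg : Hyb.Good g C) (hg1 : ∀ v, 0 ≤ v → v ≤ 1 → g v = 1) {P : Finset ℕ}
    (hP : ∀ p ∈ P, p.Prime) (h𝓛 : ∀ S ∈ 𝓛, S ⊆ P) (h0 : ∅ ∈ 𝓛) (hl : l ∅ = 1) (s : ℕ) {Y : ℝ}
    (hY : 0 ≤ Y) : (cop (pv P) s (s + ⌊Y⌋₊ + 1) : ℝ) ≤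
      ∑ S ∈ 𝓛, ∑ T ∈ 𝓛, l S * l T * Hyb.cnt g 1 0 s (Y + 1) (pv (S ∪ T)) := by
  have e : ∑ S ∈ 𝓛, ∑ T ∈ 𝓛, l S * l T * Hyb.cnt g 1 0 s (Y + 1) (pv (S ∪ T)) =
      ∑ n ∈ Hyb.win 1 0 s (Y + 1), g ((n - s) / (Y + 1)) * (∑ S ∈ 𝓛, l S * dv (pv S) n) ^ 2 := by
    simp only [sq, sum_mul_sum]
    simp only [Hyb.cnt, mul_sum]
    refine ((sum_congr rfl fun S _ => sum_comm).trans sum_comm).trans
      (sum_congr rfl fun n _ => sum_congr rfl fun S hS => sum_congr rfl fun T hT => ?_)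
    rw [← dv_union (fun p hp => hP p (h𝓛 S hS hp)) fun p hp => hP p (h𝓛 T hT hp)]
    ring
  have hfl := Nat.floor_le hY
  have hm : ∀ m ∈ (Ioc s (s + ⌊Y⌋₊ + 1)).filter (fun m => Nat.Coprime m (pv P)),
      (s : ℝ) ≤ m ∧ (m : ℝ) ≤ s + (Y + 1) := fun m hm => by
    obtain ⟨h1, h2⟩ := mem_Ioc.1 (mem_filter.1 hm).1
    have h3 : (m : ℝ) ≤ s + ⌊Y⌋₊ + 1 := by exact_mod_cast h2
    exact ⟨by exact_mod_cast h1.le, by linarith⟩
  rw [e, cop, card_eq_sum_ones, Nat.cast_sum]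
  refine le_trans (le_of_eq ?_) (sum_le_sum_of_subset_of_nonneg
    (s := ((Ioc s (s + ⌊Y⌋₊ + 1)).filter (fun m => Nat.Coprime m (pv P))).image (Nat.cast : ℕ → ℤ))
    (fun n hn => ?_) fun n _ _ => mul_nonneg (hg.nonneg _) (sq_nonneg _))
  · rw [sum_image fun _ _ _ _ h => Nat.cast_injective h]
    refine sum_congr rfl fun m hm' => ?_
    obtain ⟨h1, h2⟩ := hm m hm'
    have h3 := (coprime_pv hP m).1 (mem_filter.1 hm').2
    rw [sum_eq_single_of_mem ∅ h0 fun S hS hne => ?_, Int.cast_natCast,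
      hg1 _ (div_nonneg (by linarith) (by linarith)) ((div_le_one (by linarith)).2 (by linarith))]
    · simp [hl, dv, pv]
    · obtain ⟨p, hp⟩ := nonempty_iff_ne_empty.2 hne
      have : ¬ ((pv S : ℤ) ∣ (m : ℤ)) := fun h => h3 p (h𝓛 S hS hp)
        ((dvd_prod_of_mem (fun p => p) hp).trans (Int.natCast_dvd_natCast.1 h))
      rw [dv, if_neg this, mul_zero]
  · obtain ⟨m, hm', rfl⟩ := mem_image.1 hn
    obtain ⟨h1, h2⟩ := hm m hm'
    refine mem_filter.2 ⟨mem_Icc.2 ⟨Int.floor_le_iff.2 ?_, Int.le_ceil_iff.2 ?_⟩,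
      Subsingleton.elim _ _⟩ <;> rw [Int.cast_natCast] <;> linarith

lemma sum_sym {M : Type*} [AddCommMonoid M] (f : ℤ → M) (H : ℕ) :
    ∑ h ∈ (Icc (-(H : ℤ)) H).erase 0, f h = ∑ n ∈ range H, (f (n + 1) + f (-(n + 1))) := by
  induction H with
  | zero => simp
  | succ H ih =>
    have e : (Icc (-((H + 1 : ℕ) : ℤ)) (H + 1 : ℕ)).erase 0 =
        insert ((H : ℤ) + 1) (insert (-((H : ℤ) + 1)) ((Icc (-(H : ℤ)) H).erase 0)) := by
      ext x
      simp only [mem_erase, mem_Icc, mem_insert]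
      omega
    rw [e, sum_insert, sum_insert, ih, sum_range_succ]
    · abel
    · simp only [mem_erase, mem_Icc]
      omega
    · simp only [mem_erase, mem_Icc, mem_insert]
      omega

lemma norm_hat (hg : Hyb.Good g C) (ξ : ℝ) : ‖hat g ξ‖ ≤ 2 := by
  refine (MeasureTheory.norm_integral_le_integral_norm _).trans (le_trans (le_of_eq ?_) hg.int_le)
  refine MeasureTheory.integral_congr_ae (.of_forall fun v => ?_)
  simp only [norm_mul, Hyb.norm_ee, mul_one, Complex.norm_real, Real.norm_of_nonneg (hg.nonneg v)]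

lemma hat_le (hg : Hyb.Good g C) {a t ξ : ℝ} (ha : 0 < a) (ht : 0 < t) (hξ : |ξ| = t * a) :
    ‖(a : ℂ) * hat g ξ‖ ≤ (2 + C) / t := by
  have hC := hg.pos
  rw [norm_mul, Complex.norm_real, Real.norm_of_nonneg ha.le, le_div_iff₀ ht,
    show a * ‖hat g ξ‖ * t = t * a * ‖hat g ξ‖ by ring]
  have h0 : 0 < t * a := by positivity
  rcases le_total (t * a) 1 with h | h
  · have := mul_le_mul h (norm_hat hg ξ) (norm_nonneg _) zero_le_one
    linarith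
  · have h1 := hg.decay ξ (abs_pos.1 (hξ ▸ h0))
    rw [← sq_abs, hξ, le_div_iff₀ (by positivity)] at h1
    have h2 : t * a * ‖hat g ξ‖ * 1 ≤ t * a * ‖hat g ξ‖ * (t * a) :=
      mul_le_mul_of_nonneg_left h (by positivity)
    nlinarith

lemma sum_hat_le (hg : Hyb.Good g C) {a : ℝ} (ha : 0 < a) (H : ℕ) :
    ∑ h ∈ (Icc (-(H : ℤ)) H).erase 0, ‖(a : ℂ) * hat g (-h * a)‖ ≤
      2 * (2 + C) * (1 + Real.log H) := by
  have hC := hg.pos
  have h1 := harmonic_le_one_add_log H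
  rw [harmonic, Rat.cast_sum] at h1
  rw [sum_sym]
  refine le_trans ?_ (mul_le_mul_of_nonneg_left h1 (by positivity))
  rw [mul_sum]
  refine sum_le_sum fun n _ => ?_
  have h0 : (0 : ℝ) < n + 1 := by positivity
  have h2 := hat_le hg ha h0 (ξ := -(((n : ℤ) + 1 : ℤ) : ℝ) * a) (by
    push_cast
    rw [abs_mul, abs_neg, abs_of_pos h0, abs_of_pos ha])
  have h3 := hat_le hg ha h0 (ξ := -((-((n : ℤ) + 1) : ℤ) : ℝ) * a) (by
    push_cast
    rw [abs_mul, neg_neg, abs_of_pos h0, abs_of_pos ha])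
  refine (add_le_add h2 h3).trans (le_of_eq ?_)
  push_cast
  field_simp
  ring

lemma trm_neg (g : ℝ → ℝ) (s y : ℝ) (q : ℕ) (h : ℤ) :
    trm g 1 0 s y q (-h) = ((y / q : ℝ) : ℂ) * hat g (-h * (y / q)) * ee ((h : ℝ) * s / q) := by
  rw [trm, Subsingleton.elim (((-h : ℤ) : ZMod 1) * 0 * (q : ZMod 1)⁻¹) 0, AddChar.map_zero_eq_one]
  simp only [Nat.cast_one, one_mul, Int.cast_neg, neg_mul, neg_div, neg_neg, mul_div_assoc]
  ring

lemma rem_le (hg : Hyb.Good g C) (s : ℝ) {y : ℝ} (hy : 0 < y) {q : ℕ} (hq : q ≠ 0) {H : ℕ}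
    (hH : 1 ≤ H) (γ : ℝ) : γ * Hyb.rem g 1 0 s y q ≤ |γ| * (2 * (C * q / y) / H) +
      (∑ h ∈ (Icc (-(H : ℤ)) H).erase 0,
        (γ : ℂ) * (((y / q : ℝ) : ℂ) * hat g (-h * (y / q))) * ee ((h : ℝ) * s / q)).re := by
  have h1 := Hyb.rem_approx hg 1 0 s hy hq (Nat.coprime_one_right q) hH
  have e : ∑ h ∈ (Icc (-(H : ℤ)) H).erase 0,
      (γ : ℂ) * (((y / q : ℝ) : ℂ) * hat g (-h * (y / q))) * ee ((h : ℝ) * s / q) =
      γ * ∑ n ∈ range H, (trm g 1 0 s y q (n + 1) + trm g 1 0 s y q (-(n + 1))) := by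
    simp only [mul_assoc (γ : ℂ), ← trm_neg]
    rw [← mul_sum, sum_sym (fun h => trm g 1 0 s y q (-h))]
    simp only [neg_neg, add_comm (trm g 1 0 s y q (-_))]
  rw [e]
  generalize ∑ n ∈ range H, (trm g 1 0 s y q (n + 1) + trm g 1 0 s y q (-(n + 1))) = Z at h1 ⊢
  rw [Nat.cast_one, div_one] at h1
  have h2 := (Complex.re_le_norm ((γ : ℂ) * ((Hyb.rem g 1 0 s y q : ℂ) - Z))).trans
    ((norm_mul_le _ _).trans (mul_le_mul_of_nonneg_left h1 (norm_nonneg _)))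
  rw [mul_sub, Complex.sub_re, ← Complex.ofReal_mul, Complex.ofReal_re, Complex.norm_real,
    Real.norm_eq_abs] at h2
  linarith

lemma core (hg : Hyb.Good g C) {MM Q : Finset ℕ} (hQ : Q ⊆ MM) {γ : ℕ → ℝ} {Γ A B y : ℝ} (s : ℝ)
    (hy : 0 < y) {H : ℕ} (hH : 1 ≤ H) (hA0 : 0 ≤ A) (hB0 : 0 ≤ B) (hΓ0 : 0 ≤ Γ)
    (hB : ∀ q ∈ MM, q ≠ 0 ∧ (q : ℝ) ≤ B) (hΓ : ∀ q ∈ MM, |γ q| ≤ Γ)
    (hA : ∀ q ∈ MM, q ∉ Q → γ q ≠ 0 → (q : ℝ) ≤ A) :
    ∑ q ∈ MM, γ q * Hyb.rem g 1 0 s y q ≤ A * (Γ * (4 * (C * A / y))) +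
      (B * (Γ * (2 * (C * B / y) / H)) + (∑ q ∈ Q, ∑ h ∈ (Icc (-(H : ℤ)) H).erase 0,
        (γ q : ℂ) * (((y / q : ℝ) : ℂ) * hat g (-h * (y / q))) * ee ((h : ℝ) * s / q)).re) := by
  have hC := hg.pos
  rw [← sum_sdiff hQ]
  refine add_le_add ?_ ?_
  · rw [← sum_filter_of_ne (p := fun q => γ q ≠ 0) fun _ _ h => left_ne_zero_of_mul h]
    have hm : ∀ q ∈ (MM \ Q).filter (fun q => γ q ≠ 0), q ∈ MM ∧ (q : ℝ) ≤ A := fun q hq =>
      have h := mem_sdiff.1 (mem_filter.1 hq).1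
      ⟨h.1, hA q h.1 h.2 (mem_filter.1 hq).2⟩
    refine (sum_le_card_nsmul _ _ (Γ * (4 * (C * A / y))) fun q hq => ?_).trans ?_
    · obtain ⟨h1, h2⟩ := hm q hq
      have h3 := Hyb.rem_triv hg 1 0 s hy (hB q h1).1 (Nat.coprime_one_right q)
      rw [Nat.cast_one, div_one] at h3
      refine (le_abs_self _).trans ((abs_mul _ _).le.trans
        (mul_le_mul (hΓ q h1) (h3.trans ?_) (abs_nonneg _) hΓ0))
      gcongr
    · rw [nsmul_eq_mul]
      exact mul_le_mul_of_nonneg_right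
        (Hyb.card_le_of_le _ hA0 fun q hq => ⟨(hB q (hm q hq).1).1, (hm q hq).2⟩) (by positivity)
  · refine (sum_le_sum fun q hq => rem_le hg s hy (hB q (hQ hq)).1 hH (γ q)).trans ?_
    rw [sum_add_distrib, Complex.re_sum]
    refine add_le_add ((sum_le_card_nsmul _ _ (Γ * (2 * (C * B / y) / H)) fun q hq => ?_).trans ?_)
      le_rfl
    · have h1 := (hB q (hQ hq)).2
      have h2 := hΓ q (hQ hq)
      gcongr
    · rw [nsmul_eq_mul]
      exact mul_le_mul_of_nonneg_right (Hyb.card_le_of_le _ hB0 fun q hq => hB q (hQ hq))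
        (by positivity)

lemma num {th V lg W I L Y x K E : ℝ} (h0 : 0 < th) (h1 : th ≤ 1 / 1000) (hV0 : 0 < V) (hV1 : V ≤ 1)
    (hlg : 0 < lg) (hlx : th * lg ≤ 3 * x) (hW : V * ((1 / 2 + 3 * th / 8) * lg) ≤ W)
    (hI : I ≤ 1 + th / 8) (hL : 16 / th ≤ L) (hY : L ≤ Y) (hx1 : 1 ≤ x) (hK : 0 ≤ K)
    (hx : 24 * K / th ^ 2 ≤ x) (hE : E ≤ K * L / x ^ 5) :
    I * (Y + 1) * W⁻¹ + E ≤ (2 - th / 2) * (V * lg)⁻¹ * Y := by
  have hL0 : 0 < L := lt_of_lt_of_le (by positivity) hL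
  have hW0 : 0 < W := lt_of_lt_of_le (by positivity) hW
  have hc : 0 < V * lg := by positivity
  rw [div_le_iff₀ h0] at hL
  rw [div_le_iff₀ (by positivity)] at hx
  have a1 : I * W⁻¹ ≤ (2 - 3 * th / 4) * (V * lg)⁻¹ := by
    rw [← div_eq_mul_inv, ← div_eq_mul_inv, div_le_div_iff₀ hW0 hc]
    have b1 : I ≤ (2 - 3 * th / 4) * (1 / 2 + 3 * th / 8) := by nlinarith
    have b2 := mul_le_mul_of_nonneg_right b1 hc.le
    have b3 := mul_le_mul_of_nonneg_left hW (by linarith : 0 ≤ 2 - 3 * th / 4)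
    linarith
  have a2 : K * L / x ^ 5 ≤ th / 8 * L * (V * lg)⁻¹ := by
    rw [← div_eq_mul_inv, div_le_div_iff₀ (by positivity) hc]
    have b1 : V * lg ≤ lg := mul_le_of_le_one_left hlg.le hV1
    have b2 : x ^ 2 ≤ x ^ 5 := pow_le_pow_right₀ hx1 (by norm_num)
    have b3 : th * (K * (V * lg)) ≤ th * (th / 8 * x ^ 5) := by
      have c1 : K * (th * (V * lg)) ≤ K * (3 * x) :=
        mul_le_mul_of_nonneg_left ((mul_le_mul_of_nonneg_left b1 h0.le).trans hlx) hK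
      have c2 := mul_le_mul_of_nonneg_right hx (by linarith : 0 ≤ x)
      have c3 := mul_le_mul_of_nonneg_left b2 (sq_nonneg th)
      nlinarith
    have b4 := mul_le_mul_of_nonneg_left (le_of_mul_le_mul_left b3 h0) hL0.le
    linarith
  have a3 := mul_le_mul_of_nonneg_right a1 (by linarith : 0 ≤ Y + 1)
  have a4 : (2 - 3 * th / 4) * (Y + 1) + th / 8 * L ≤ (2 - th / 2) * Y := by nlinarith
  have a5 := mul_le_mul_of_nonneg_right a4 (inv_nonneg.2 hc.le)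
  linarith

end Sv

open Sv in
theorem pSv (hLam : S_Lam) (hG : S_G) : S_Sv := by
  obtain ⟨th, L0, h0, h1, hG⟩ := hG.2
  refine ⟨th, h0, h1, fun u hu => ?_⟩
  obtain ⟨g, C, hg, hg1, hg2⟩ := Hyb.exists_good (κ := th / 8) (by positivity) (by linarith)
  obtain ⟨D, hD1, hD⟩ := Hyb.div_bound (ε := th / 24) (by positivity)
  have hC := hg.pos
  obtain ⟨L1, hL1⟩ := Filter.eventually_atTop.1
    (((tendsto_rpow_atTop (by positivity : 0 < th / 3)).eventually_ge_atTop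
      (1 + 26 * D ^ 4 * (2 + C) + 24 * (8 * C * D ^ 4) / th ^ 2)).and
        ((Filter.eventually_ge_atTop L0).and (Filter.eventually_ge_atTop (16 / th))))
  refine ⟨L1, fun L Y hL hY _ => ?_⟩
  obtain ⟨hx, hL0, hL2⟩ := hL1 L hL
  have hL3 : 1 < L := lt_of_lt_of_le ((one_lt_div h0).2 (by linarith)) hL2
  have hL4 : 0 < L := by linarith
  obtain ⟨l, hl0, hl1, hl2⟩ := hLam (DDs u th L) DDs_prime (DDs_empty h0 (by linarith) hL3.le)
    (DDs_down h0 hL3.le)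
  have hp : ∀ (n : ℕ) (t : ℝ), t = th / 3 * n → L ^ t = (L ^ (th / 3)) ^ n := fun n t h =>
    h ▸ Real.rpow_mul_natCast hL4.le _ n
  have e3 := hp 3 th (by push_cast; ring)
  have e12 := hp 12 (4 * th) (by push_cast; ring)
  have ep : L ^ (1 + th) = L * L ^ th := by rw [Real.rpow_add hL4, Real.rpow_one]
  have em : L ^ (1 - th) = L / L ^ th := by rw [Real.rpow_sub hL4, Real.rpow_one]
  have hlx : th * Real.log L ≤ 3 * L ^ (th / 3) := by
    have := Real.log_le_self (Real.rpow_nonneg hL4.le (th / 3))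
    rw [Real.log_rpow hL4] at this
    linarith
  have hq : ∀ a : ℝ, L ^ (a / 2) * L ^ (a / 2) = L ^ a := fun a => by
    rw [← Real.rpow_add hL4, add_halves]
  have hMM : ∀ q ∈ Icc 1 ⌊L ^ (1 + th)⌋₊, q ≠ 0 ∧ (q : ℝ) ≤ L ^ (1 + th) := fun q h =>
    ⟨Nat.one_le_iff_ne_zero.1 (mem_Icc.1 h).1,
      (Nat.le_floor_iff (by positivity)).1 (mem_Icc.1 h).2⟩
  have hm : ∀ S ∈ DDs u th L, ∀ T ∈ DDs u th L, pv (S ∪ T) ∈ Icc 1 ⌊L ^ (1 + th)⌋₊ :=
    fun S hS T hT => mem_Icc.2 ⟨pv_pos (forall_mem_union.2 ⟨DDs_prime S hS, DDs_prime T hT⟩),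
      Nat.le_floor ((pv_union_le (DDs_prime S hS)).trans ((mul_le_mul (mem_filter.1 hS).2.1
        (mem_filter.1 hT).2.1 (Nat.cast_nonneg _) (by positivity)).trans (hq _).le))⟩
  have hΓ : ∀ q ∈ Icc 1 ⌊L ^ (1 + th)⌋₊, |gam (DDs u th L) l q| ≤ D ^ 4 * L ^ (th / 3) := by
    intro q h
    obtain ⟨a1, a2⟩ := hMM q h
    refine (gam_le DDs_prime hl1 a1).trans ((pow_le_pow_left₀ (Nat.cast_nonneg _) ((hD q a1).trans
      (mul_le_mul_of_nonneg_left (Real.rpow_le_rpow (Nat.cast_nonneg _) a2 (by positivity))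
        (by linarith))) 4).trans ?_)
    rw [mul_pow, ← Real.rpow_mul hL4.le, ← Real.rpow_mul_natCast hL4.le]
    refine mul_le_mul_of_nonneg_left (Real.rpow_le_rpow_of_exponent_le hL3.le ?_) (by positivity)
    push_cast
    nlinarith
  have hA : ∀ q ∈ Icc 1 ⌊L ^ (1 + th)⌋₊, q ∉ QS u th L → gam (DDs u th L) l q ≠ 0 →
      (q : ℝ) ≤ L ^ (1 - th) := by
    intro q h hn hne
    obtain ⟨S, hS, T, hT, rfl⟩ := gam_ne hne
    by_contra hlt
    have b1 : ∀ p ∈ S ∪ T, ¬ L ^ (20 * th) ≤ (p : ℝ) := fun p hp hle => hn (mem_filter.2 ⟨h,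
      prod_dvd_prod_of_subset _ _ _ (union_subset (DDs_sub hS) (DDs_sub hT)), (not_le.1 hlt).le,
      p, PPs_prime p (union_subset (DDs_sub hS) (DDs_sub hT) hp), dvd_prod_of_mem (fun p => p) hp,
      hle⟩)
    exact hlt ((pv_union_le (DDs_prime S hS)).trans ((mul_le_mul
      ((mem_filter.1 hS).2.2.resolve_right fun ⟨p, c1, c2⟩ => b1 p (mem_union_left _ c1) c2)
      ((mem_filter.1 hT).2.2.resolve_right fun ⟨p, c1, c2⟩ => b1 p (mem_union_right _ c1) c2)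
      (Nat.cast_nonneg _) (by positivity)).trans (hq _).le))
  have hG1 := hG u L hu hL0
  have hlg := Real.log_pos hL3
  have k1 : 0 ≤ 26 * D ^ 4 * (2 + C) := by positivity
  have k2 : 0 ≤ 24 * (8 * C * D ^ 4) / th ^ 2 := by positivity
  have hlH : Real.log ⌊L ^ (4 * th)⌋₊ ≤ 12 * L ^ (th / 3) := by
    have : 1 ≤ L ^ (4 * th) := Real.one_le_rpow hL3.le (by positivity)
    have := Real.log_le_log (Nat.cast_pos.2 (Nat.floor_pos.2 this)) (Nat.floor_le (by linarith))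
    rw [Real.log_rpow hL4] at this
    linarith
  have hy : 0 < Y + 1 := by linarith
  refine ⟨fun q h => (gam (DDs u th L) l q : ℂ) * ((((Y + 1) / q : ℝ) : ℂ) *
    hat g (-h * ((Y + 1) / q))), fun q => ?_, fun s => ?_⟩
  · by_cases hz : gam (DDs u th L) l q = 0
    · simp only [hz, Complex.ofReal_zero, zero_mul, norm_zero, sum_const_zero]
      positivity
    obtain ⟨S, hS, T, hT, h⟩ := gam_ne hz
    have a1 := h ▸ hm S hS T hT
    have a2 := sum_hat_le hg (div_pos hy (Nat.cast_pos.2 (mem_Icc.1 a1).1)) ⌊L ^ (4 * th)⌋₊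
    simp only [norm_mul (gam (DDs u th L) l q : ℂ), ← mul_sum, Complex.norm_real, Real.norm_eq_abs]
    refine (mul_le_mul (hΓ q a1) a2 (sum_nonneg fun _ _ => norm_nonneg _) (by positivity)).trans ?_
    rw [e3]
    generalize L ^ (th / 3) = x at *
    have a3 : 1 + Real.log ⌊L ^ (4 * th)⌋₊ ≤ 13 * x := by linarith
    have a4 : 26 * D ^ 4 * (2 + C) ≤ x := by linarith
    have a5 : 0 < x := by linarith
    calc _ ≤ D ^ 4 * x * (2 * (2 + C) * (13 * x)) := by gcongr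
      _ = 26 * D ^ 4 * (2 + C) * x ^ 2 := by ring
      _ ≤ x * x ^ 2 := by gcongr
      _ = _ := by ring
  · have hH : L ^ (4 * th) ≤ 2 * ⌊L ^ (4 * th)⌋₊ ∧ 1 ≤ ⌊L ^ (4 * th)⌋₊ := by
      have a1 := Nat.floor_pos.2 (Real.one_le_rpow hL3.le (by positivity : 0 ≤ 4 * th))
      have a2 := Nat.lt_floor_add_one (L ^ (4 * th))
      have a3 : (1 : ℝ) ≤ ⌊L ^ (4 * th)⌋₊ := by exact_mod_cast a1
      exact ⟨by linarith, a1⟩
    have a1 := Sv.core hg (Q := QS u th L) (filter_subset _ _) s hy hH.2 (by positivity)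
      (by positivity) (by positivity) hMM hΓ hA
    have a2 := Sv.selberg hg hg1 PPs_prime (fun S => DDs_sub (u := u) (th := th))
      (DDs_empty h0 (by linarith) hL3.le) hl0 s (by linarith : 0 ≤ Y)
    have a3 : ∀ q : ℕ, Hyb.cnt g 1 0 s (Y + 1) q =
        Hyb.rem g 1 0 s (Y + 1) q + (∫ v, g v) * (Y + 1) / q := fun q => by simp [Hyb.rem]
    have a4 : ∑ S ∈ DDs u th L, ∑ T ∈ DDs u th L, l S * l T * ((∫ v, g v) * (Y + 1) / pv (S ∪ T)) =
        (∫ v, g v) * (Y + 1) * (∑ U ∈ DDs u th L, gg U)⁻¹ := by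
      rw [← hl2]
      simp only [mul_sum]
      exact sum_congr rfl fun _ _ => sum_congr rfl fun _ _ => by ring
    simp only [a3, mul_add (l _ * l _), sum_add_distrib] at a2
    rw [a4, sum_gam hm] at a2
    have a5 : L ^ (1 - th) * (D ^ 4 * L ^ (th / 3) * (4 * (C * L ^ (1 - th) / (Y + 1)))) +
        L ^ (1 + th) * (D ^ 4 * L ^ (th / 3) *
          (2 * (C * L ^ (1 + th) / (Y + 1)) / ⌊L ^ (4 * th)⌋₊)) ≤
        8 * C * D ^ 4 * L / (L ^ (th / 3)) ^ 5 := by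
      have b1 : L ^ (4 * th) / 2 ≤ ⌊L ^ (4 * th)⌋₊ := by linarith [hH.1]
      have b2 : L ≤ Y + 1 := by linarith
      generalize (⌊L ^ (4 * th)⌋₊ : ℝ) = H at *
      rw [ep, em, e3]
      rw [e12] at b1
      generalize L ^ (th / 3) = x at *
      have b3 : 0 < x := by linarith
      calc _ ≤ L / x ^ 3 * (D ^ 4 * x * (4 * (C * (L / x ^ 3) / L))) +
          L * x ^ 3 * (D ^ 4 * x * (2 * (C * (L * x ^ 3) / L) / (x ^ 12 / 2))) := by gcongr
        _ = _ := by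
          field_simp
          ring
    have a6 := Sv.num h0 h1 (V0_pos u) (V0_le_one u) hlg hlx hG1 hg2 hL2 hY (by linarith)
      (by positivity) (by linarith) a5
    rw [cnt, cs, PP, HS]
    linarith

end Pool.Agent.P.MP_26a8c3_nt.EC
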