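import Pool.Agent.P.MP_26a8c3_nt.EC.Base

/-! The upper bound for the mass of the even nodes with small remaining budget. -/

namespace Pool.Agent.P.MP_26a8c3_nt.EC

open Finset
open scoped Classical

namespace U

/-- Majorant for the odd nodes. -/
noncomputable def Fm (C a u : ℝ) : ℝ := a ^ 2 / u - 2 * a + (4 * C + 12) * (a ^ 2 / u ^ 2 - 4)

/-- Majorant for the even nodes. -/
noncomputable def Fp (C a u : ℝ) : ℝ := (a - u) ^ 2 / u + (7 * C + 22) * (a - u) ^ 2 / u ^ 2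

/-- Auxiliary majorant for the even nodes. -/
noncomputable def Fg (C a u : ℝ) : ℝ := (a - u) ^ 2 / u + (5 * C + 15) / 2 * (a ^ 2 / u ^ 2 - 1) +
  2 * (4 * C + 12) * (a / u - 1) + 3 * (4 * C + 12) * ((u + 1) / a - 1)

lemma tele (f g : ℕ → ℝ) {u b : ℕ} (h : u ≤ b + 1) (hg : ∀ t ∈ Icc u b, g t ≤ f t - f (t + 1)) :
    ∑ t ∈ Icc u b, g t ≤ f u - f (b + 1) := by
  refine (sum_le_sum hg).trans (le_of_eq ?_)
  rw [← Ico_add_one_right_eq_Icc]
  clear hg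
  generalize b + 1 = n at h
  induction n, h using Nat.le_induction with
  | base => simp
  | succ n hn ih => rw [sum_Ico_succ_top hn, ih]; ring

lemma n1 {C u : ℝ} (a : ℝ) (hC : 1 ≤ C) (hu : 300 * C ^ 2 ≤ u) :
    (1 + C / u) / u * Fp C (a + u) u ≤ Fm C a u - Fm C a (u + 1) := by
  have h1 : C ≤ C ^ 2 := by nlinarith
  have h0 : 1 ≤ u := by nlinarith
  have e1 : (1 + C / u) / u * Fp C (a + u) u =
      a ^ 2 / (u ^ 4 * (u + 1) ^ 2) * ((u + C) * (u + (7 * C + 22)) * (u + 1) ^ 2) := by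
    rw [Fp]; field_simp; ring
  have e2 : Fm C a u - Fm C a (u + 1) = a ^ 2 / (u ^ 4 * (u + 1) ^ 2) *
      (u ^ 3 * (u + 1) + (4 * C + 12) * (2 * u + 1) * u ^ 2) := by
    rw [Fm, Fm]; field_simp; ring
  rw [e1, e2]
  refine mul_le_mul_of_nonneg_left ?_ (by positivity)
  have h2 : u ≤ u ^ 2 := by nlinarith
  have h3 : 300 * C ^ 2 * u ^ 2 ≤ u ^ 3 := by nlinarith
  have h4 : C * u ^ 2 ≤ C ^ 2 * u ^ 2 := by gcongr
  have h5 : u ^ 2 ≤ C ^ 2 * u ^ 2 := by nlinarith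
  have h6 : C ^ 2 * u ≤ C ^ 2 * u ^ 2 := by gcongr
  have h7 : C * u ≤ C ^ 2 * u := by gcongr
  have h8 : C ^ 2 ≤ C ^ 2 * u := by nlinarith
  nlinarith

lemma n2 {C u a : ℝ} (hC : 1 ≤ C) (hu : 300 * C ^ 2 ≤ u) (ha : u ≤ a) :
    (1 + C / u) / u * Fm C (a + u) u ≤ Fg C a u - Fg C a (u + 1) := by
  have h1 : C ≤ C ^ 2 := by nlinarith
  have h0 : 1 ≤ u := by nlinarith
  have ha0 : 0 < a := by linarith
  obtain ⟨s, rfl⟩ : ∃ s, a = s * u := ⟨a / u, by field_simp⟩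
  have hs : 1 ≤ s := by nlinarith
  obtain ⟨w, hw⟩ : ∃ w, w = u⁻¹ := ⟨_, rfl⟩
  have hw0 : 0 < w := by rw [hw]; positivity
  have hw1 : 300 * C ^ 2 * w ≤ 1 := by rw [hw, ← div_eq_mul_inv, div_le_one (by linarith)]; exact hu
  have e1 : (1 + C / u) / u * Fm C (s * u + u) u =
      (1 + C * w) * (s ^ 2 - 1 + (4 * C + 12) * w * (s ^ 2 + 2 * s - 3)) := by
    rw [Fm, hw]; field_simp; ring
  have e2 : Fg C (s * u) u - Fg C (s * u) (u + 1) = s ^ 2 * (u / (u + 1)) - 1 +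
      (5 * C + 15) / 2 * s ^ 2 * ((2 * u + 1) / (u + 1) ^ 2) + 2 * (4 * C + 12) * s * (1 / (u + 1)) -
      3 * (4 * C + 12) * (w / s) := by
    rw [Fg, Fg, hw]; field_simp; ring
  have i1 : 1 - w ≤ u / (u + 1) := by
    rw [hw, le_div_iff₀ (by linarith)]; field_simp; nlinarith
  have i2 : 2 * w - 3 * w ^ 2 ≤ (2 * u + 1) / (u + 1) ^ 2 := by
    rw [hw, le_div_iff₀ (by positivity)]; field_simp; nlinarith
  have i3 : w - w ^ 2 ≤ 1 / (u + 1) := by
    rw [hw, le_div_iff₀ (by linarith)]; field_simp; nlinarith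
  have i4 : w / s ≤ w := div_le_self hw0.le hs
  rw [e1, e2]
  have j1 := mul_le_mul_of_nonneg_left i1 (sq_nonneg s)
  have j2 := mul_le_mul_of_nonneg_left i2 (show 0 ≤ (5 * C + 15) / 2 * s ^ 2 by positivity)
  have j3 := mul_le_mul_of_nonneg_left i3 (show 0 ≤ 2 * (4 * C + 12) * s by positivity)
  have j4 := mul_le_mul_of_nonneg_left i4 (show 0 ≤ 3 * (4 * C + 12) by positivity)
  have k1 : s ≤ s ^ 2 := by nlinarith
  have k2 : 3 * ((5 * C + 15) / 2) * s ^ 2 + 2 * (4 * C + 12) * s +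
      C * (4 * C + 12) * (s ^ 2 + 2 * s - 3) ≤ 300 * C ^ 2 * s ^ 2 := by
    have a1 : C * (4 * C + 12) * (s ^ 2 + 2 * s - 3) ≤ 16 * C ^ 2 * (3 * s ^ 2) :=
      mul_le_mul (by nlinarith) (by linarith) (by nlinarith) (by positivity)
    have a2 : 2 * (4 * C + 12) * s ≤ 32 * C ^ 2 * s ^ 2 :=
      mul_le_mul (by linarith) k1 (by linarith) (by positivity)
    have a3 : 3 * ((5 * C + 15) / 2) * s ^ 2 ≤ 30 * C ^ 2 * s ^ 2 :=
      mul_le_mul_of_nonneg_right (by linarith) (sq_nonneg s)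
    nlinarith [mul_nonneg (sq_nonneg C) (sq_nonneg s)]
  have k3 := mul_le_mul_of_nonneg_left k2 (sq_nonneg w)
  have k4 := mul_le_mul_of_nonneg_left hw1 (show 0 ≤ w * s ^ 2 by positivity)
  have k5 : 0 ≤ w * s ^ 2 := by positivity
  have k6 : 0 ≤ w * C := by positivity
  nlinarith

lemma n3 {C u a : ℝ} (hC : 1 ≤ C) (hu : 300 * C ^ 2 ≤ u) (ha : 3 * u ≤ a) :
    Fg C a u ≤ Fp C a u := by
  have h1 : C ≤ C ^ 2 := by nlinarith
  have h0 : 1 ≤ u := by nlinarith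
  have ha0 : 0 < a := by linarith
  have h2 : 3 * (4 * C + 12) / a ≤ 1 := by rw [div_le_one ha0]; linarith
  obtain ⟨s, rfl⟩ : ∃ s, a = s * u := ⟨a / u, by field_simp⟩
  have hs : 3 ≤ s := by nlinarith
  have e : Fp C (s * u) u - Fg C (s * u) u = (7 * C + 22) * (s - 1) ^ 2 -
      (5 * C + 15) / 2 * (s ^ 2 - 1) - 2 * (4 * C + 12) * (s - 1) +
      3 * (4 * C + 12) * ((s - 1) / s) - 3 * (4 * C + 12) / (s * u) := by
    rw [Fp, Fg]; field_simp; ring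
  have i : (s ^ 2 - 1) / 2 + 2 * (s - 1) - 3 / 2 * (s - 1) ^ 2 ≤ 3 * ((s - 1) / s) := by
    rw [mul_div_assoc', le_div_iff₀ (by linarith)]
    nlinarith [mul_nonneg (mul_nonneg (sub_nonneg.2 hs) (sub_nonneg.2 hs)) (sub_nonneg.2 hs),
      mul_nonneg (sub_nonneg.2 hs) (sub_nonneg.2 hs)]
  have j := mul_le_mul_of_nonneg_left i (show 0 ≤ 4 * C + 12 by positivity)
  have k : (s ^ 2 - 1) / 2 ≤ (s - 1) ^ 2 := by nlinarith
  have k' := mul_le_mul_of_nonneg_left k (show 0 ≤ C + 3 by positivity)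
  nlinarith

lemma Fm_nonneg {C u a : ℝ} (hC : 1 ≤ C) (hu : 0 < u) (ha : 2 * u ≤ a) : 0 ≤ Fm C a u := by
  have h1 : 2 * a ≤ a ^ 2 / u := by rw [le_div_iff₀ hu]; nlinarith
  have h2 : 4 ≤ a ^ 2 / u ^ 2 := by rw [le_div_iff₀ (by positivity)]; nlinarith
  have := mul_nonneg (show 0 ≤ 4 * C + 12 by positivity) (sub_nonneg.2 h2)
  rw [Fm]; linarith

lemma Fg_nonneg {C u : ℝ} (hC : 1 ≤ C) (hu : 0 < u) : 0 ≤ Fg C (u + 1) u := by
  have h1 : 1 ≤ (u + 1) / u := by rw [le_div_iff₀ hu]; linarith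
  have h2 : 1 ≤ (u + 1) ^ 2 / u ^ 2 := by rw [le_div_iff₀ (by positivity)]; nlinarith
  have h3 := sub_nonneg.2 h1
  have h4 := sub_nonneg.2 h2
  rw [Fg, div_self (by linarith), sub_self, mul_zero, add_zero]
  positivity

lemma key {C C0 : ℝ} (hC : 1 ≤ C) (hC0 : 0 < C0)
    (hp : ∀ t : ℕ, 1 ≤ t → rc (PR t t) ≤ (1 + C / t) / t)
    (r0 : ∀ Δ l u : ℕ, RR Δ 0 l u ≤ (if l = Δ then 1 else 0) +
      ∑ t ∈ Icc u l, rc (PR t t) * RR Δ 1 (l + t) t)
    (r1 : ∀ Δ l u : ℕ, RR Δ 1 l u ≤ ∑ t ∈ Icc u (l / 2), rc (PR t t) * RR Δ 0 (l + t) t)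
    (r2 : ∀ Δ par l u : ℕ, 1 ≤ u → l < Δ → RR Δ par l u ≤ C0 / u) (Δ n : ℕ) :
    ∀ l u : ℕ, Δ ≤ l + n → 300 * C ^ 2 ≤ u → 3 * u ≤ l → l < Δ →
      RR Δ 0 l u ≤ 36 * C0 / (Δ : ℝ) ^ 2 * Fp C (l + 2) u := by
  have one : ∀ u : ℕ, 300 * C ^ 2 ≤ u → 1 ≤ u := fun u hu => by
    have : (1 : ℝ) ≤ u := by nlinarith
    exact_mod_cast this
  induction n with
  | zero => intro l u h1 _ _ h2; omega
  | succ n ih =>
    intro l u h1 hu h2 h3
    have hΔ : (0 : ℝ) < Δ := by exact_mod_cast (by omega : 0 < Δ)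
    have hu1 := one u hu
    have hu0 : (0 : ℝ) < u := by exact_mod_cast hu1
    have hK : 0 ≤ 36 * C0 / (Δ : ℝ) ^ 2 := by positivity
    have h2' : 3 * (u : ℝ) ≤ l := by exact_mod_cast h2
    rcases le_or_gt Δ (4 * l) with h4 | h4
    · refine (r2 Δ 0 l u hu1 h3).trans ?_
      have h5 : (Δ : ℝ) ≤ 4 * l := by exact_mod_cast h4
      have h6 : (Δ : ℝ) ^ 2 / 36 / u ≤ Fp C (l + 2) u := by
        rw [Fp]
        refine le_add_of_le_of_nonneg (div_le_div_of_nonneg_right ?_ hu0.le) (by positivity)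
        have : (Δ : ℝ) / 6 ≤ l + 2 - u := by linarith
        nlinarith
      refine le_trans (le_of_eq ?_) (mul_le_mul_of_nonneg_left h6 hK)
      field_simp
    · have odd : ∀ l' v : ℕ, l ≤ l' → 2 * l' ≤ Δ → 300 * C ^ 2 ≤ v → 2 * v ≤ l' →
          RR Δ 1 l' v ≤ 36 * C0 / (Δ : ℝ) ^ 2 * Fm C (l' + 2) v := by
        intro l' v a1 a2 a3 a4
        have hv1 := one v a3
        refine (r1 Δ l' v).trans ((tele
          (fun t => 36 * C0 / (Δ : ℝ) ^ 2 * Fm C (l' + 2) t) _ (by omega) fun t ht => ?_).trans ?_)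
        · obtain ⟨b1, b2⟩ := mem_Icc.1 ht
          have b3 : 300 * C ^ 2 ≤ t := a3.trans (by exact_mod_cast b1)
          have b4 := ih (l' + t) t (by omega) b3 (by omega) (by omega)
          refine (mul_le_mul (hp t (by omega)) b4 (RR_nonneg _ _ _ _) (by positivity)).trans ?_
          have b5 := mul_le_mul_of_nonneg_left (n1 ((l' : ℝ) + 2) hC b3) hK
          push_cast
          rw [add_right_comm (l' : ℝ) t 2]
          linarith
        · refine sub_le_self _ (mul_nonneg hK (Fm_nonneg hC (by positivity) ?_))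
          exact_mod_cast (by omega : 2 * (l' / 2 + 1) ≤ l' + 2)
      refine (r0 Δ l u).trans ?_
      rw [if_neg h3.ne, zero_add]
      refine (tele (fun t => 36 * C0 / (Δ : ℝ) ^ 2 * Fg C (l + 2) t) _ (by omega)
        fun t ht => ?_).trans ?_
      · obtain ⟨b1, b2⟩ := mem_Icc.1 ht
        have b3 : 300 * C ^ 2 ≤ t := hu.trans (by exact_mod_cast b1)
        have b4 := odd (l + t) t (by omega) (by omega) b3 (by omega)
        refine (mul_le_mul (hp t (by omega)) b4 (RR_nonneg _ _ _ _) (by positivity)).trans ?_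
        have b6 : (t : ℝ) ≤ l := by exact_mod_cast b2
        have b5 := mul_le_mul_of_nonneg_left (n2 (a := (l : ℝ) + 2) hC b3 (by linarith)) hK
        push_cast
        rw [add_right_comm (l : ℝ) t 2]
        linarith
      · refine (sub_le_self _ (mul_nonneg hK ?_)).trans
          (mul_le_mul_of_nonneg_left (n3 hC hu (by linarith)) hK)
        have := Fg_nonneg hC (u := ((l + 1 : ℕ) : ℝ)) (by positivity)
        rwa [show ((l + 1 : ℕ) : ℝ) + 1 = l + 2 by push_cast; ring] at this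

lemma Fp_le {C a u v : ℝ} (hC : 1 ≤ C) (hv : 1 ≤ v) (h1 : v ≤ a) (h2 : a ≤ 6 * v) (h3 : a ≤ 6 * u) :
    Fp C a v ≤ 900 * C * u := by
  have a1 : (a - v) ^ 2 / v ≤ 5 * a := by rw [div_le_iff₀ (by linarith)]; nlinarith
  have a2 : (7 * C + 22) * (a - v) ^ 2 / v ^ 2 ≤ 29 * C * (5 * a) := by
    rw [mul_div_assoc]
    refine mul_le_mul (by linarith) (le_trans ?_ a1) (by positivity) (by positivity)
    exact div_le_div_of_nonneg_left (sq_nonneg _) (by linarith) (by nlinarith)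
  rw [Fp]
  nlinarith [mul_le_mul_of_nonneg_left h3 (zero_le_one.trans hC)]

end U

open U in
theorem pU (hPi : S_Pi) (hRec : S_Rec) : S_U := by
  obtain ⟨C, hC, hp, -⟩ := pi_facts hPi
  obtain ⟨r0, r1, C0, hC0, r2⟩ := hRec
  refine ⟨3 * ⌈300 * C ^ 2⌉₊ + 6, 36 * C0 * (900 * C), by positivity, fun Δ l u h1 h2 h3 h4 => ?_⟩
  have k := key hC hC0 hp r0 r1 r2 Δ Δ l (min u (l / 3)) (by omega)
    (Nat.ceil_le.1 (by omega)) (by omega) h4
  refine (RR_anti Δ 0 l (min_le_left u (l / 3))).trans (k.trans ?_)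
  have b := Fp_le (a := (l : ℝ) + 2) (u := u) (v := (min u (l / 3) : ℕ)) hC
    (by exact_mod_cast (by omega)) (by exact_mod_cast (by omega)) (by exact_mod_cast (by omega))
    (by exact_mod_cast (by omega))
  refine (mul_le_mul_of_nonneg_left b (by positivity)).trans (le_of_eq ?_)
  ring

end Pool.Agent.P.MP_26a8c3_nt.EC
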