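import Pool.Agent.P.MP_26a8c3_nt.EC.Pi
import Pool.Agent.P.MP_26a8c3_nt.EC.Id
import Pool.Agent.P.MP_26a8c3_nt.EC.Mod
import Pool.Agent.P.MP_26a8c3_nt.EC.Plus
import Pool.Agent.P.MP_26a8c3_nt.EC.Minus
import Pool.Agent.P.MP_26a8c3_nt.EC.Node
import Pool.Agent.P.MP_26a8c3_nt.EC.Cmp
import Pool.Agent.P.MP_26a8c3_nt.EC.ModId
import Pool.Agent.P.MP_26a8c3_nt.EC.Rec
import Pool.Agent.P.MP_26a8c3_nt.EC.U
import Pool.Agent.P.MP_26a8c3_nt.EC.Bd0
import Pool.Agent.P.MP_26a8c3_nt.EC.Bd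
import Pool.Agent.P.MP_26a8c3_nt.EC.Par
import Pool.Agent.P.MP_26a8c3_nt.EC.Gc
import Pool.Agent.P.MP_26a8c3_nt.EC.Bad1
import Pool.Agent.P.MP_26a8c3_nt.EC.Bad3
import Pool.Agent.P.MP_26a8c3_nt.EC.Mass
import Pool.Agent.P.MP_26a8c3_nt.EC.Sel
import Pool.Agent.P.MP_26a8c3_nt.EC.Inv
import Pool.Agent.P.MP_26a8c3_nt.EC.Fib
import Pool.Agent.P.MP_26a8c3_nt.EC.Dec
import Pool.Agent.P.MP_26a8c3_nt.EC.Lam
import Pool.Agent.P.MP_26a8c3_nt.EC.G
import Pool.Agent.P.MP_26a8c3_nt.EC.Triv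
import Pool.Agent.P.MP_26a8c3_nt.EC.Sv
import Pool.Agent.P.MP_26a8c3_nt.EC.Bias
import Pool.Agent.P.MP_26a8c3_nt.EC.HM
import Pool.Agent.P.MP_26a8c3_nt.EC.Pair
import Pool.Agent.P.MP_26a8c3_nt.EC.List
import Pool.Agent.P.MP_26a8c3_nt.EC.Col
import Pool.Agent.P.MP_26a8c3_nt.EC.Ht
import Pool.Agent.P.MP_26a8c3_nt.EC.Rig
import Pool.Agent.P.MP_26a8c3_nt.EC.KS
import Pool.Agent.P.MP_26a8c3_nt.EC.Bil
import Pool.Agent.P.MP_26a8c3_nt.EC.CaseA
import Pool.Agent.P.MP_26a8c3_nt.EC.PAP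
import Pool.Agent.P.MP_26a8c3_nt.EC.Fix
import Pool.Agent.P.MP_26a8c3_nt.EC.Hall
import Pool.Agent.P.MP_26a8c3_nt.EC.Eul
import Pool.Agent.P.MP_26a8c3_nt.EC.CaseB
import Pool.Agent.P.MP_26a8c3_nt.EC.KP
import Pool.Agent.P.MP_26a8c3_nt.EC.Box1
import Pool.Agent.P.MP_26a8c3_nt.EC.Box
import Pool.Agent.P.MP_26a8c3_nt.EC.Main0
import Pool.Agent.P.MP_26a8c3_nt.EC.Main

/-! Assembly. -/

namespace Pool.Agent.P.MP_26a8c3_nt.EC

theorem aPi : S_Pi := pPi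

theorem aId : S_Id := pId

theorem aMod : S_Mod := pMod

theorem aPlus : S_Plus := pPlus

theorem aMinus : S_Minus := pMinus aPi

theorem aNode : S_Node := pNode aMod

theorem aCmp : S_Cmp := pCmp aId aNode aMinus

theorem aModId : S_ModId := pModId aId aNode

theorem aRec : S_Rec := pRec aPi

theorem aU : S_U := pU aPi aRec

theorem aBd0 : S_Bd0 := pBd0 aPi aMinus

theorem aBd : S_Bd := pBd aPi aBd0 aU

theorem aPar : S_Par := pPar aModId aPlus aMinus aBd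

theorem aGc : S_Gc := pGc aPi

theorem aBad1 : S_Bad1 := pBad1 aPi

theorem aBad3 : S_Bad3 := pBad3 aPi aU

theorem aMass : S_Mass := pMass aPar aGc aBad1 aBad3

theorem aSel : S_Sel := pSel

theorem aInv : S_Inv := pInv

theorem aFib : S_Fib := pFib aInv

theorem aDec : S_Dec := pDec

theorem aLam : S_Lam := pLam

theorem aG : S_G := pG aPi

theorem aTriv : S_Triv := pTriv aLam aG

theorem aSv : S_Sv := pSv aLam aG

theorem aBias : S_Bias := pBias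

theorem aHM : S_HM := pHM aBias

theorem aPair : S_Pair := pPair

theorem aList : S_List := pList

theorem aCol : S_Col := pCol aPi aPair aList

theorem aHt : S_Ht := pHt aPi aPair

theorem aRig : S_Rig := pRig aTriv aHM aCol aHt

theorem aKS : S_KS := pKS

theorem aBil : S_Bil := pBil aKS

theorem aCaseA : S_CaseA := pCaseA aPi aBil

theorem aPAP : S_PAP := pPAP

theorem aFix : S_Fix := pFix aPAP

theorem aHall : S_Hall := pHall

theorem aEul : S_Eul := pEul aPi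

theorem aCaseB : S_CaseB := pCaseB aPi aFix aHall aEul

theorem aKP : S_KP := pKP aTriv aSv aRig aCaseA aCaseB

theorem aBox1 : S_Box1 := pBox1 aSel aKP

theorem aBox : S_Box := pBox aSel aInv aFib aDec aBox1

theorem aMain0 : S_Main0 := pMain0 aCmp aPlus aBd aMass aBox

theorem aMain : S_Main := pMain aMain0

end Pool.Agent.P.MP_26a8c3_nt.EC
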