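import Pool.Agent.P.MP_26a8c3_nt.EC.Defs

/-! Basic tools for the definitions of `EC.Defs`. -/

namespace Pool.Agent.P.MP_26a8c3_nt.EC

open Finset
open scoped Classical

lemma log_le_tau (p : ℕ) : Real.log p ≤ tau p := Nat.le_ceil _

lemma tau_lt (p : ℕ) : (tau p : ℝ) < Real.log p + 1 :=
  Nat.ceil_lt_add_one (Real.log_natCast_nonneg p)

lemma tau_le_iff {p b : ℕ} : tau p ≤ b ↔ Real.log p ≤ b := Nat.ceil_le

lemma log_nat_mono {p q : ℕ} (h : p ≤ q) : Real.log p ≤ Real.log q := by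
  rcases Nat.eq_zero_or_pos p with rfl | hp
  · simpa using Real.log_natCast_nonneg q
  · exact Real.log_le_log (by exact_mod_cast hp) (by exact_mod_cast h)

lemma tau_mono {p q : ℕ} (h : p ≤ q) : tau p ≤ tau q := Nat.ceil_mono (log_nat_mono h)

lemma lt_of_tau_lt {p q : ℕ} (h : tau p < tau q) : p < q :=
  lt_of_not_ge fun h' => absurd (tau_mono h') (not_le.2 h)

lemma le_exp_tau (p : ℕ) : (p : ℝ) ≤ Real.exp (tau p) := by
  rcases Nat.eq_zero_or_pos p with rfl | hp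
  · simpa using (Real.exp_pos _).le
  · exact (Real.log_le_iff_le_exp (by exact_mod_cast hp)).1 (log_le_tau p)

lemma exp_tau_lt {p : ℕ} (hp : 0 < p) : Real.exp (tau p - 1) < p :=
  (Real.lt_log_iff_exp_lt (by exact_mod_cast hp)).1 (by linarith [tau_lt p])

lemma one_le_tau {p : ℕ} (hp : p.Prime) : 1 ≤ tau p :=
  Nat.ceil_pos.2 (Real.log_pos (by exact_mod_cast hp.one_lt))

lemma exp_nat_le (b : ℕ) : Real.exp b ≤ 3 ^ b := by
  rw [← mul_one (b : ℝ), Real.exp_nat_mul]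
  exact pow_le_pow_left₀ (Real.exp_pos _).le (by linarith [Real.exp_one_lt_d9]) b

lemma mem_PR {a b p : ℕ} : p ∈ PR a b ↔ p.Prime ∧ a ≤ tau p ∧ tau p ≤ b := by
  rw [PR, mem_filter, mem_range]
  refine ⟨fun h => h.2, fun h => ⟨Nat.lt_succ_of_le ?_, h⟩⟩
  have h1 : (p : ℝ) ≤ 3 ^ b := (le_exp_tau p).trans
    ((Real.exp_le_exp.2 (by exact_mod_cast h.2.2)).trans (exp_nat_le b))
  exact_mod_cast h1

lemma PR_mono {a b a' b' : ℕ} (ha : a' ≤ a) (hb : b ≤ b') : PR a b ⊆ PR a' b' := fun _ hp =>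
  mem_PR.2 ⟨(mem_PR.1 hp).1, ha.trans (mem_PR.1 hp).2.1, (mem_PR.1 hp).2.2.trans hb⟩

lemma sum_PR (a b : ℕ) (f : ℕ → ℝ) :
    ∑ p ∈ PR a b, f p = ∑ t ∈ Icc a b, ∑ p ∈ PR t t, f p := by
  rw [← sum_fiberwise_of_maps_to (g := tau) (t := Icc a b)
    (fun p hp => mem_Icc.2 (mem_PR.1 hp).2)]
  refine sum_congr rfl fun t ht => sum_congr ?_ fun _ _ => rfl
  ext p
  rw [mem_filter, mem_PR, mem_PR]
  have := mem_Icc.1 ht
  constructor
  · rintro ⟨⟨h1, -⟩, h2⟩
    exact ⟨h1, h2.ge, h2.le⟩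
  · rintro ⟨h1, h2, h3⟩
    exact ⟨⟨h1, by omega, by omega⟩, by omega⟩

lemma rc_PR (a b : ℕ) : rc (PR a b) = ∑ t ∈ Icc a b, rc (PR t t) := sum_PR a b _

lemma rc_nonneg (d : Finset ℕ) : 0 ≤ rc d := sum_nonneg fun _ _ => by positivity

lemma rc_mono {d d' : Finset ℕ} (h : d ⊆ d') : rc d ≤ rc d' :=
  sum_le_sum_of_subset_of_nonneg h fun _ _ _ => by positivity

lemma pv_pos {d : Finset ℕ} (hd : ∀ p ∈ d, p.Prime) : 0 < pv d :=
  prod_pos fun p hp => (hd p hp).pos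

lemma pv_insert {d : Finset ℕ} {p : ℕ} (hp : p ∉ d) : pv (insert p d) = p * pv d := prod_insert hp

lemma pv_union {d d' : Finset ℕ} (h : Disjoint d d') : pv (d ∪ d') = pv d * pv d' := prod_union h

lemma ts_insert {d : Finset ℕ} {p : ℕ} (hp : p ∉ d) : ts (insert p d) = tau p + ts d :=
  sum_insert hp

lemma log_pv {d : Finset ℕ} (hd : ∀ p ∈ d, p.Prime) :
    Real.log (pv d) = ∑ p ∈ d, Real.log p := by
  rw [pv, Nat.cast_prod, Real.log_prod fun p hp => by exact_mod_cast (hd p hp).ne_zero]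

lemma log_pv_le {d : Finset ℕ} (hd : ∀ p ∈ d, p.Prime) : Real.log (pv d) ≤ ts d := by
  rw [log_pv hd, ts, Nat.cast_sum]
  exact sum_le_sum fun p _ => log_le_tau p

lemma le_log_pv {d : Finset ℕ} (hd : ∀ p ∈ d, p.Prime) :
    (ts d : ℝ) - d.card ≤ Real.log (pv d) := by
  rw [log_pv hd, ts, Nat.cast_sum, card_eq_sum_ones, Nat.cast_sum, ← sum_sub_distrib]
  exact sum_le_sum fun p _ => by push_cast; linarith [tau_lt p]

lemma pv_le_exp {d : Finset ℕ} (hd : ∀ p ∈ d, p.Prime) : (pv d : ℝ) ≤ Real.exp (ts d) :=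
  (Real.log_le_iff_le_exp (by exact_mod_cast pv_pos hd)).1 (log_pv_le hd)

lemma primeFactors_pv {d : Finset ℕ} (hd : ∀ p ∈ d, p.Prime) : (pv d).primeFactors = d :=
  Nat.primeFactors_prod hd

lemma pv_inj {d d' : Finset ℕ} (hd : ∀ p ∈ d, p.Prime) (hd' : ∀ p ∈ d', p.Prime)
    (h : pv d = pv d') : d = d' := by
  rw [← primeFactors_pv hd, h, primeFactors_pv hd']

lemma prime_dvd_pv {d : Finset ℕ} (hd : ∀ p ∈ d, p.Prime) {q : ℕ} (hq : q.Prime) :
    q ∣ pv d ↔ q ∈ d := by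
  conv_rhs => rw [← primeFactors_pv hd]
  simp [hq, (pv_pos hd).ne']

lemma pv_dvd_iff {d : Finset ℕ} (hd : ∀ p ∈ d, p.Prime) (n : ℕ) : pv d ∣ n ↔ ∀ p ∈ d, p ∣ n :=
  prod_dvd_iff hd n

lemma coprime_pv {d : Finset ℕ} (hd : ∀ p ∈ d, p.Prime) (n : ℕ) :
    Nat.Coprime n (pv d) ↔ ∀ p ∈ d, ¬ p ∣ n := by
  rw [pv, Nat.coprime_prod_right_iff]
  exact forall₂_congr fun p hp => by
    rw [Nat.coprime_comm, (hd p hp).coprime_iff_not_dvd]

lemma squarefree_pv {d : Finset ℕ} (hd : ∀ p ∈ d, p.Prime) : Squarefree (pv d) :=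
  Finset.squarefree_prod_of_pairwise_isCoprime
    (fun p hp q hq hne => Nat.coprime_iff_isRelPrime.1
      ((Nat.coprime_primes (hd p hp) (hd q hq)).2 hne)) fun p hp => (hd p hp).prime.squarefree

lemma mn_mem {d : Finset ℕ} (hd : d.Nonempty) : mn d ∈ d :=
  mem_coe.1 (Nat.sInf_mem (coe_nonempty.2 hd))

lemma mn_le {d : Finset ℕ} {p : ℕ} (hp : p ∈ d) : mn d ≤ p := Nat.sInf_le (mem_coe.2 hp)

lemma mn_eq {d : Finset ℕ} {p : ℕ} (hp : p ∈ d) (h : ∀ q ∈ d, p ≤ q) : mn d = p :=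
  le_antisymm (mn_le hp) (h _ (mn_mem ⟨p, hp⟩))

lemma mn_lt {d : Finset ℕ} {q : ℕ} (hq : q ∈ d.erase (mn d)) : mn d < q :=
  lt_of_le_of_ne (mn_le (mem_of_mem_erase hq)) (ne_of_mem_erase hq).symm

lemma le_top' {d : Finset ℕ} {p : ℕ} (hp : p ∈ d) : p ≤ top d := le_sup (f := id) hp

lemma top_mem {d : Finset ℕ} (hd : d.Nonempty) : top d ∈ d := by
  obtain ⟨p, hp, h⟩ := exists_mem_eq_sup d hd id
  rw [top, h]
  exact hp

lemma top_eq {d : Finset ℕ} {p : ℕ} (hp : p ∈ d) (h : ∀ q ∈ d, q ≤ p) : top d = p :=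
  le_antisymm (h _ (top_mem ⟨p, hp⟩)) (le_top' hp)

lemma lt_top' {d : Finset ℕ} {q : ℕ} (hq : q ∈ rest d) : q < top d :=
  lt_of_le_of_ne (le_top' (mem_of_mem_erase hq)) (ne_of_mem_erase hq)

lemma mem_up {d : Finset ℕ} {p q : ℕ} : p ∈ up d q ↔ p ∈ d ∧ q ≤ p := mem_filter

lemma up_subset (d : Finset ℕ) (q : ℕ) : up d q ⊆ d := filter_subset _ _

lemma up_mn (d : Finset ℕ) : up d (mn d) = d := filter_true_of_mem fun _ hp => mn_le hp

lemma mn_up {d : Finset ℕ} {q : ℕ} (hq : q ∈ d) : mn (up d q) = q :=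
  mn_eq (mem_up.2 ⟨hq, le_rfl⟩) fun _ hp => (mem_up.1 hp).2

lemma up_insert {d : Finset ℕ} {p q : ℕ} (h : p < q) : up (insert p d) q = up d q := by
  rw [up, filter_insert, if_neg (not_le.2 h), up]

lemma up_erase {d : Finset ℕ} {p q : ℕ} (h : p < q) : up (d.erase p) q = up d q := by
  ext r
  simp only [mem_up, mem_erase]
  exact ⟨fun a => ⟨a.1.2, a.2⟩, fun a => ⟨⟨by omega, a.1⟩, a.2⟩⟩

lemma tree_empty (Δ : ℕ) : tree Δ ∅ := fun _ h => absurd h (notMem_empty _)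

/-- Adding a new least element. -/
lemma tree_insert {Δ p : ℕ} {d : Finset ℕ} (h : ∀ q ∈ d, p < q) :
    tree Δ (insert p d) ↔ tree Δ d ∧ (Even d.card → ts d + 3 * tau p ≤ Δ) := by
  have hp : p ∉ d := fun a => lt_irrefl _ (h p a)
  have e : up (insert p d) p = insert p d := filter_true_of_mem fun q hq => by
    rcases mem_insert.1 hq with rfl | hq
    · exact le_rfl
    · exact (h q hq).le
  constructor
  · intro ht
    refine ⟨fun q hq => ?_, fun he => ?_⟩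
    · have := ht q (mem_insert_of_mem hq)
      rwa [up_insert (h q hq)] at this
    · have := ht p (mem_insert_self _ _)
      rw [e, card_insert_of_notMem hp, ts_insert hp] at this
      have := this he.add_one
      omega
  · rintro ⟨h1, h2⟩ q hq
    rcases mem_insert.1 hq with rfl | hq
    · rw [e, card_insert_of_notMem hp, ts_insert hp]
      intro ho
      have := h2 (by rwa [Nat.odd_add_one, Nat.not_odd_iff_even] at ho)
      omega
    · rw [up_insert (h q hq)]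
      exact h1 q hq

lemma tree_erase {Δ : ℕ} {d : Finset ℕ} (h : tree Δ d) : tree Δ (d.erase (mn d)) := fun q hq => by
  rw [up_erase (mn_lt hq)]
  exact h q (mem_of_mem_erase hq)

lemma tree_odd {Δ : ℕ} {d : Finset ℕ} (h : tree Δ d) (ho : Odd d.card) :
    ts d + 2 * tau (mn d) ≤ Δ := by
  have := h _ (mn_mem (card_pos.1 ho.pos))
  rw [up_mn] at this
  exact this ho

/-- The remaining budget of a node is at least the size of its least element. -/
lemma tree_rem {Δ : ℕ} {d : Finset ℕ} (h : tree Δ d) (hd : d.Nonempty) :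
    ts d + tau (mn d) ≤ Δ := by
  rcases Nat.even_or_odd d.card with he | ho
  · have h1 := card_erase_add_one (mn_mem hd)
    have ho : Odd (d.erase (mn d)).card := by
      rw [← h1, Nat.even_add_one, Nat.not_even_iff_odd] at he
      exact he
    have h2 := tree_odd (tree_erase h) ho
    have h3 := tau_mono (mn_lt (mn_mem (card_pos.1 ho.pos))).le
    have h4 : ts d = tau (mn d) + ts (d.erase (mn d)) := by
      rw [← ts_insert (notMem_erase _ _), insert_erase (mn_mem hd)]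
    omega
  · have := tree_odd h ho
    omega

lemma tree_ts {Δ : ℕ} {d : Finset ℕ} (h : tree Δ d) : ts d ≤ Δ := by
  rcases d.eq_empty_or_nonempty with rfl | hd
  · simp [ts]
  · have := tree_rem h hd
    omega

lemma tree_top {Δ : ℕ} {d : Finset ℕ} (h : tree Δ d) {p : ℕ} (hp : p ∈ d) : 3 * tau p ≤ Δ := by
  have e : up d (top d) = {top d} := by
    ext q
    rw [mem_up, mem_singleton]
    exact ⟨fun a => le_antisymm (le_top' a.1) a.2, fun a => by rw [a]; exact ⟨top_mem ⟨p, hp⟩, le_rfl⟩⟩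
  have h1 := h _ (top_mem ⟨p, hp⟩)
  rw [e, card_singleton, ts, sum_singleton] at h1
  have h2 := h1 odd_one
  have h3 := tau_mono (le_top' hp)
  omega

lemma ms_nonneg (S : Finset (Finset ℕ)) : 0 ≤ ms S := sum_nonneg fun _ _ => by positivity

lemma ms_mono {S S' : Finset (Finset ℕ)} (h : S ⊆ S') : ms S ≤ ms S' :=
  sum_le_sum_of_subset_of_nonneg h fun _ _ _ => by positivity

/-- Euler product for the subsets of a finite set. -/
lemma sum_powerset_pv (P : Finset ℕ) (f : ℕ → ℝ) :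
    ∑ d ∈ P.powerset, (∏ p ∈ d, f p) * (pv d : ℝ)⁻¹ = ∏ p ∈ P, (1 + f p * (p : ℝ)⁻¹) := by
  rw [prod_one_add]
  refine sum_congr rfl fun d _ => ?_
  rw [prod_mul_distrib, pv, Nat.cast_prod, prod_inv_distrib]

lemma prod_one_add_le (P : Finset ℕ) {f : ℕ → ℝ} (hf : ∀ p ∈ P, 0 ≤ f p) :
    ∏ p ∈ P, (1 + f p) ≤ Real.exp (∑ p ∈ P, f p) := by
  rw [Real.exp_sum]
  exact prod_le_prod (fun p hp => by linarith [hf p hp]) fun p _ => by
    linarith [Real.add_one_le_exp (f p)]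

lemma ms_powerset_le (P : Finset ℕ) : ms P.powerset ≤ Real.exp (rc P) := by
  have h := sum_powerset_pv P fun _ => 1
  simp only [prod_const_one, one_mul] at h
  rw [ms, h]
  exact prod_one_add_le P fun _ _ => by positivity

lemma RR_nonneg (Δ par l u : ℕ) : 0 ≤ RR Δ par l u := ms_nonneg _

lemma RR_anti (Δ par l : ℕ) {u u' : ℕ} (h : u ≤ u') : RR Δ par l u' ≤ RR Δ par l u :=
  ms_mono (filter_subset_filter _ (powerset_mono.2 (PR_mono h le_rfl)))

lemma V0_pos (u : ℕ) : 0 < V0 u := prod_pos fun p hp => by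
  have : (1 : ℝ) < p := by exact_mod_cast (mem_PR.1 hp).1.one_lt
  exact sub_pos.2 (inv_lt_one_of_one_lt₀ this)

lemma V0_le_one (u : ℕ) : V0 u ≤ 1 := prod_le_one (fun p hp => by
  have : (1 : ℝ) < p := by exact_mod_cast (mem_PR.1 hp).1.one_lt
  exact (sub_pos.2 (inv_lt_one_of_one_lt₀ this)).le) fun p _ => by
    have : (0 : ℝ) ≤ (p : ℝ)⁻¹ := by positivity
    linarith

lemma ww_mem (y : ℝ) : ww y = 0 ∨ ww y = 1 := by
  have h : ⌊y / 2⌋ = ⌊y⌋ / 2 := by
    have := Int.floor_div_natCast y 2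
    simpa using this
  have h2 : ⌊y⌋ - 2 * (⌊y⌋ / 2) = 0 ∨ ⌊y⌋ - 2 * (⌊y⌋ / 2) = 1 := by omega
  rw [ww, h]
  rcases h2 with h2 | h2
  · left; exact_mod_cast h2
  · right; exact_mod_cast h2

lemma ww_nonneg (y : ℝ) : 0 ≤ ww y := by rcases ww_mem y with h | h <;> simp [h]

lemma ww_le_one (y : ℝ) : ww y ≤ 1 := by rcases ww_mem y with h | h <;> simp [h]

lemma lam_mem (n : ℕ) : lam n = 1 ∨ lam n = -1 := neg_one_pow_eq_or ℝ _

lemma lam_mul {a b : ℕ} (ha : a ≠ 0) (hb : b ≠ 0) : lam (a * b) = lam a * lam b := by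
  rw [lam, lam, lam, ArithmeticFunction.cardFactors_mul ha hb, pow_add]

lemma lam_prime {p : ℕ} (hp : p.Prime) : lam p = -1 := by
  rw [lam, ArithmeticFunction.cardFactors_apply_prime hp, pow_one]

lemma lam_pv {d : Finset ℕ} (hd : ∀ p ∈ d, p.Prime) : lam (pv d) = (-1) ^ d.card := by
  induction d using Finset.induction_on with
  | empty => simp [lam, pv]
  | insert p d hp ih =>
    have h1 : ∀ q ∈ d, q.Prime := fun q hq => hd q (mem_insert_of_mem hq)
    have h2 := hd p (mem_insert_self _ _)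
    rw [pv_insert hp, lam_mul h2.ne_zero (pv_pos h1).ne', ih h1, lam_prime h2,
      card_insert_of_notMem hp, pow_succ']

lemma one_le_FF {Λ : ℝ} (h : 1 ≤ Λ) : 1 ≤ FF Λ := Nat.ceil_pos.2 (by positivity)

lemma fi_mono (F : ℕ) {p q : ℕ} (h : p ≤ q) : fi F p ≤ fi F q :=
  Nat.ceil_mono (mul_le_mul_of_nonneg_left (log_nat_mono h) (Nat.cast_nonneg F))

lemma tau_le_iff_fi {F : ℕ} (hF : 1 ≤ F) {p b : ℕ} : tau p ≤ b ↔ fi F p ≤ F * b := by
  have : (0 : ℝ) < F := by exact_mod_cast hF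
  rw [tau_le_iff, fi, Nat.ceil_le, Nat.cast_mul, mul_le_mul_iff_right₀ this]

/-- The fine window determines the coarse one. -/
lemma tau_eq_of_fi {F : ℕ} (hF : 1 ≤ F) {p q : ℕ} (h : fi F p = fi F q) : tau p = tau q :=
  le_antisymm ((tau_le_iff_fi hF).2 (h ▸ (tau_le_iff_fi hF).1 le_rfl))
    ((tau_le_iff_fi hF).2 (h ▸ (tau_le_iff_fi hF).1 le_rfl))

lemma mem_fw {F : ℕ} (hF : 1 ≤ F) {j p : ℕ} : p ∈ fw F j ↔ p.Prime ∧ fi F p = j := by
  rw [fw, mem_filter, mem_PR]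
  refine ⟨fun h => ⟨h.1.1, h.2⟩, fun h => ⟨⟨h.1, Nat.zero_le _, (tau_le_iff_fi hF).2 ?_⟩, h.2⟩⟩
  rw [h.2]
  exact Nat.le_mul_of_pos_left _ hF

lemma fw_disjoint (F : ℕ) : ∀ i j, i ≠ j → Disjoint (fw F i) (fw F j) := fun _ _ hij =>
  disjoint_left.2 fun _ h1 h2 => hij ((mem_filter.1 h1).2.symm.trans (mem_filter.1 h2).2)

lemma fi_bounds {F : ℕ} (hF : 1 ≤ F) {p : ℕ} (hp : 0 < p) :
    Real.exp (((fi F p : ℝ) - 1) / F) < p ∧ (p : ℝ) ≤ Real.exp ((fi F p : ℝ) / F) := by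
  have hF' : (0 : ℝ) < F := by exact_mod_cast hF
  have hp' : (0 : ℝ) < p := by exact_mod_cast hp
  have h1 : (F : ℝ) * Real.log p ≤ fi F p := Nat.le_ceil _
  have h2 : (fi F p : ℝ) < F * Real.log p + 1 :=
    Nat.ceil_lt_add_one (mul_nonneg hF'.le (Real.log_natCast_nonneg p))
  constructor
  · rw [← Real.lt_log_iff_exp_lt hp', div_lt_iff₀ hF']
    linarith
  · rw [← Real.log_le_iff_le_exp hp', le_div_iff₀ hF']
    linarith

lemma mem_PPs {u p : ℕ} {L : ℝ} (hL : 0 ≤ L) :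
    p ∈ PPs u L ↔ p.Prime ∧ u ≤ tau p ∧ (p : ℝ) ≤ L ^ (3 / 5 : ℝ) := by
  rw [PPs, mem_filter, mem_range, Nat.lt_succ_iff, Nat.le_floor_iff (Real.rpow_nonneg hL _)]
  tauto

lemma PPs_prime {u : ℕ} {L : ℝ} : ∀ p ∈ PPs u L, p.Prime := fun _ hp => (mem_filter.1 hp).2.1

lemma cnt_nonneg (u : ℕ) (L : ℝ) (s : ℕ) (Y : ℝ) : 0 ≤ cnt u L s Y := Nat.cast_nonneg _

lemma cnt_mono (u : ℕ) (L : ℝ) (s : ℕ) {Y Y' : ℝ} (h : Y ≤ Y') : cnt u L s Y ≤ cnt u L s Y' :=
  Nat.cast_le.2 (card_le_card (filter_subset_filter _ (Ioc_subset_Ioc_right (by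
    have := Nat.floor_mono h
    omega))))

lemma HMo.mono {u : ℕ} {th L : ℝ} {A : ℕ} {G G' : Finset (ℕ × ℕ)} {code : ℕ × ℕ → ℕ × ℕ}
    (h : HMo u th L A G code) (hG : G' ⊆ G) : HMo u th L A G' code :=
  fun S hS => h S (hS.trans hG)

/-- Greedy choice of pairwise unrelated elements. -/
lemma greedy {α : Type} (r : α → α → Prop) (hr : ∀ a b, r a b → r b a) {D : ℝ} (hD : 0 ≤ D) :
    ∀ (n : ℕ) (C : Finset α), (∀ a ∈ C, ((C.filter (r a)).card : ℝ) ≤ D) →
      (D + 1) * n ≤ C.card → ∃ S ⊆ C, S.card = n ∧ ∀ a ∈ S, ∀ b ∈ S, a ≠ b → ¬ r a b := by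
  intro n
  induction n with
  | zero => exact fun C _ _ => ⟨∅, empty_subset _, rfl, fun _ h => absurd h (notMem_empty _)⟩
  | succ n ih =>
    intro C h1 h2
    push_cast at h2
    have h3 : (0 : ℝ) < C.card := lt_of_lt_of_le (by positivity) h2
    obtain ⟨a, ha⟩ := card_pos.1 (Nat.cast_pos.1 h3)
    set C' := (C.filter fun b => ¬ r a b).erase a with hC'
    have s1 : C' ⊆ C := (erase_subset _ _).trans (filter_subset _ _)
    have c1 : (C.card : ℝ) ≤ C'.card + 1 + D := by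
      have e1 := card_filter_add_card_filter_not (s := C) (r a)
      have e2 : (C.filter fun b => ¬ r a b).card ≤ C'.card + 1 := by
        have := pred_card_le_card_erase (s := C.filter fun b => ¬ r a b) (a := a)
        rw [← hC'] at this
        omega
      have e3 : (C.card : ℝ) ≤ (C.filter (r a)).card + (C'.card + 1 : ℕ) := by
        exact_mod_cast (by omega)
      push_cast at e3
      linarith [h1 a ha]
    obtain ⟨S, hS, hc, hp⟩ := ih C' (fun b hb => le_trans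
      (Nat.cast_le.2 (card_le_card (filter_subset_filter _ s1))) (h1 b (s1 hb))) (by linarith)
    have ha' : a ∉ S := fun h => notMem_erase _ _ (hS h)
    have hn : ∀ b ∈ S, ¬ r a b := fun b hb => (mem_filter.1 (mem_of_mem_erase (hS hb))).2
    refine ⟨insert a S, insert_subset ha (hS.trans s1), by rw [card_insert_of_notMem ha', hc],
      fun x hx y hy hxy => ?_⟩
    rcases mem_insert.1 hx with rfl | hx' <;> rcases mem_insert.1 hy with rfl | hy'
    · exact absurd rfl hxy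
    · exact hn y hy'
    · exact fun h => hn x hx' (hr _ _ h)
    · exact hp x hx' y hy' hxy

/-- Consequences of the prime number theorem for the windows. -/
lemma pi_facts (h : S_Pi) : ∃ C : ℝ, 1 ≤ C ∧ (∀ t : ℕ, 1 ≤ t → rc (PR t t) ≤ (1 + C / t) / t) ∧
    (∀ t : ℕ, 1 ≤ t → (1 - C / t) / t ≤ rc (PR t t)) ∧ (∀ t : ℕ, 1 ≤ t → rc (PR t t) ≤ 2 * C / t) ∧
    ∀ t : ℕ, 2 * C ≤ t → 1 / (2 * t) ≤ rc (PR t t) ∧
      Real.exp (t - 1) / (2 * t) ≤ (PR t t).card := by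
  obtain ⟨C, hC, h⟩ := h
  have a : ∀ t : ℕ, 1 ≤ t → rc (PR t t) ≤ (1 + (C + 1) / t) / t ∧
      (1 - (C + 1) / t) / t ≤ rc (PR t t) := fun t ht => by
    have ht' : (0 : ℝ) < t := by exact_mod_cast ht
    have h1 := abs_le.1 (h t ht)
    have h2 : C / t ≤ (C + 1) / t := div_le_div_of_nonneg_right (by linarith) ht'.le
    rw [le_div_iff₀ ht', div_le_iff₀ ht']
    constructor <;> linarith [h1.1, h1.2]
  refine ⟨C + 1, by linarith, fun t ht => (a t ht).1, fun t ht => (a t ht).2, fun t ht => ?_,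
    fun t ht => ?_⟩
  · have ht' : (1 : ℝ) ≤ t := by exact_mod_cast ht
    refine (a t ht).1.trans (div_le_div_of_nonneg_right ?_ (by linarith))
    have : (C + 1) / t ≤ C + 1 := div_le_self (by linarith) ht'
    linarith
  · have ht' : (1 : ℝ) ≤ t := by linarith
    have h1 : 1 / (2 * t) ≤ rc (PR t t) := by
      refine le_trans ?_ (a t (by exact_mod_cast ht')).2
      have : (C + 1) / t ≤ 1 / 2 := by
        rw [div_le_iff₀ (by linarith)]
        linarith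
      rw [← div_div]
      exact div_le_div_of_nonneg_right (by linarith) (by linarith)
    refine ⟨h1, ?_⟩
    have h2 : rc (PR t t) ≤ (PR t t).card * (Real.exp (t - 1))⁻¹ := by
      rw [← nsmul_eq_mul]
      refine sum_le_card_nsmul _ _ _ fun p hp => ?_
      obtain ⟨b1, b2, b3⟩ := mem_PR.1 hp
      have := exp_tau_lt b1.pos
      rw [le_antisymm b3 b2] at this
      exact inv_anti₀ (Real.exp_pos _) this.le
    have h3 := h1.trans h2
    rw [← div_eq_mul_inv, le_div_iff₀ (Real.exp_pos _)] at h3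
    refine le_trans (le_of_eq ?_) h3
    ring

end Pool.Agent.P.MP_26a8c3_nt.EC
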