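import Pool.Agent.P.MP_26a8c3_nt.EC.Base

/-! The two upper bounds for the boundary sum of the model. -/

namespace Pool.Agent.P.MP_26a8c3_nt.EC

open Finset
open scoped Classical

namespace Bd

lemma RR_gt {Δ l t : ℕ} (h : Δ < l) : RR Δ 0 l t = 0 := by
  rw [RR, filter_false_of_mem, ms, sum_empty]
  rintro d - ⟨-, -, h3⟩
  omega

lemma RR_eq (Δ t : ℕ) : RR Δ 0 Δ t ≤ 1 := by
  have h : ms {(∅ : Finset ℕ)} = 1 := by simp [ms, pv]
  rw [RR, ← h]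
  refine ms_mono fun d hd => ?_
  obtain ⟨h1, -, -, h3⟩ := mem_filter.1 hd
  rw [mem_singleton]
  by_contra hne
  obtain ⟨p, hp⟩ := nonempty_iff_ne_empty.2 hne
  have h4 := one_le_tau (mem_PR.1 (mem_powerset.1 h1 hp)).1
  have h5 : tau p ≤ ts d := single_le_sum (f := tau) (fun _ _ => Nat.zero_le _) hp
  omega

lemma sA (s : Finset ℕ) (Δ : ℕ) {K c : ℝ} (hK : 1 ≤ K) (hc : 0 ≤ c) :
    ∑ t ∈ s, (if Δ ≤ 3 * t ∧ 3 * (t : ℝ) ≤ Δ + K + 2 then c else 0) ≤ 4 * K * c := by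
  rw [← sum_filter, sum_const, nsmul_eq_mul]
  refine mul_le_mul_of_nonneg_right ?_ hc
  have h1 : (s.filter fun t : ℕ => Δ ≤ 3 * t ∧ 3 * (t : ℝ) ≤ Δ + K + 2).card ≤
      (Icc Δ (Δ + ⌊K⌋₊ + 2)).card := by
    refine card_le_card_of_injOn (fun t => 3 * t) (fun t ht => ?_) fun a _ b _ h => by
      simpa using h
    obtain ⟨-, h1, h2⟩ := mem_filter.1 (mem_coe.1 ht)
    refine mem_coe.2 (mem_Icc.2 ⟨h1, ?_⟩)
    have h3 := Nat.lt_floor_add_one K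
    have h4 : ((3 * t : ℕ) : ℝ) < ((Δ + ⌊K⌋₊ + 2 + 1 : ℕ) : ℝ) := by push_cast; linarith
    have h5 := Nat.cast_lt.1 h4
    show 3 * t ≤ _
    omega
  rw [Nat.card_Icc] at h1
  have h2 : Δ + ⌊K⌋₊ + 2 + 1 - Δ = ⌊K⌋₊ + 3 := by omega
  rw [h2] at h1
  have h3 := Nat.floor_le (show 0 ≤ K by linarith)
  have h4 := (Nat.cast_le (α := ℝ)).2 h1
  push_cast at h4
  linarith

lemma sB {s : Finset ℕ} (hs : ∀ t ∈ s, 1 ≤ t) {x c : ℝ} (hx : 0 ≤ x) (hc : 0 ≤ c) :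
    ∑ t ∈ s, (if (t : ℝ) < x then c else 0) ≤ x * c := by
  rw [← sum_filter, sum_const, nsmul_eq_mul]
  refine mul_le_mul_of_nonneg_right ?_ hc
  have h1 : (s.filter fun t : ℕ => (t : ℝ) < x).card ≤ (Icc 1 ⌊x⌋₊).card :=
    card_le_card fun t ht => mem_Icc.2 ⟨hs t (mem_filter.1 ht).1,
      Nat.le_floor (mem_filter.1 ht).2.le⟩
  rw [Nat.card_Icc, Nat.add_sub_cancel] at h1
  exact ((Nat.cast_le (α := ℝ)).2 h1).trans (Nat.floor_le hx)

lemma sC (s : Finset ℕ) {x c : ℝ} (hx : 0 < x) (hc : 0 ≤ c) :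
    ∑ t ∈ s, (if x ≤ (t : ℝ) then c / (t : ℝ) ^ 2 else 0) ≤ 2 * c / x := by
  rw [← sum_filter]
  have ha : 1 ≤ ⌈x⌉₊ := Nat.ceil_pos.2 hx
  have h1 : (s.filter fun t : ℕ => x ≤ (t : ℝ)) ⊆ Ioo (⌈x⌉₊ - 1) (s.sup id + 1) := fun t ht => by
    have h2 := Nat.ceil_le.2 (mem_filter.1 ht).2
    have h3 : t ≤ s.sup id := le_sup (f := id) (mem_filter.1 ht).1
    exact mem_Ioo.2 ⟨by omega, by omega⟩
  have h2 := sum_Ioo_inv_sq_le (α := ℝ) (⌈x⌉₊ - 1) (s.sup id + 1)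
  have h3 : ((⌈x⌉₊ - 1 : ℕ) : ℝ) + 1 = ⌈x⌉₊ := by
    rw [Nat.cast_sub ha]; push_cast; ring
  rw [h3] at h2
  calc ∑ t ∈ s.filter fun t : ℕ => x ≤ (t : ℝ), c / (t : ℝ) ^ 2
      ≤ ∑ t ∈ Ioo (⌈x⌉₊ - 1) (s.sup id + 1), c / (t : ℝ) ^ 2 :=
        sum_le_sum_of_subset_of_nonneg h1 fun _ _ _ => by positivity
    _ = c * ∑ t ∈ Ioo (⌈x⌉₊ - 1) (s.sup id + 1), ((t : ℝ) ^ 2)⁻¹ := by
        rw [mul_sum]; exact sum_congr rfl fun _ _ => div_eq_mul_inv _ _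
    _ ≤ c * (2 / x) := mul_le_mul_of_nonneg_left
        (h2.trans (div_le_div_of_nonneg_left (by norm_num) hx (Nat.le_ceil x))) hc
    _ = 2 * c / x := by ring

/-- The admissible remaining budgets. -/
noncomputable def Fl (K : ℝ) (t : ℕ) : Finset ℕ :=
  (Icc t (3 * t)).filter (fun l : ℕ => 3 * (t : ℝ) ≤ l + K + 2)

/-- The weight. -/
noncomputable def mm (K : ℝ) (t : ℕ) : ℝ :=
  if K ≤ (t : ℝ) then (K + 3) / (t : ℝ) ^ 2 else 1 / (t : ℝ)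

lemma mm_nonneg {K : ℝ} (hK : 1 ≤ K) (t : ℕ) : 0 ≤ mm K t := by
  unfold mm
  split_ifs
  · have : 0 ≤ K + 3 := by linarith
    positivity
  · positivity

lemma mm_le {K : ℝ} {t : ℕ} (ht : 1 ≤ t) : mm K t ≤ 4 / t := by
  have ht' : (1 : ℝ) ≤ t := by exact_mod_cast ht
  unfold mm
  split_ifs with h
  · rw [div_le_div_iff₀ (by positivity) (by positivity)]
    nlinarith
  · exact div_le_div_of_nonneg_right (by norm_num) (by linarith)

lemma Fl_card1 (K : ℝ) {t : ℕ} (ht : 1 ≤ t) : ((Fl K t).card : ℝ) ≤ 3 * t := by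
  have h1 : (Fl K t).card ≤ (Icc t (3 * t)).card := card_filter_le _ _
  rw [Nat.card_Icc] at h1
  exact_mod_cast (by omega : (Fl K t).card ≤ 3 * t)

lemma Fl_card2 {K : ℝ} (hK : 1 ≤ K) (t : ℕ) : ((Fl K t).card : ℝ) ≤ 4 * K := by
  have h1 : (Fl K t).card ≤ (Icc (3 * t - (⌊K⌋₊ + 2)) (3 * t)).card := by
    refine card_le_card fun l hl => ?_
    obtain ⟨h1, h2⟩ := mem_filter.1 hl
    refine mem_Icc.2 ⟨?_, (mem_Icc.1 h1).2⟩
    have h3 := Nat.lt_floor_add_one K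
    have h4 : ((3 * t : ℕ) : ℝ) < ((l + ⌊K⌋₊ + 2 + 1 : ℕ) : ℝ) := by push_cast; linarith
    have h5 := Nat.cast_lt.1 h4
    omega
  rw [Nat.card_Icc] at h1
  have h2 : (Fl K t).card ≤ ⌊K⌋₊ + 3 := by omega
  have h3 := Nat.floor_le (show 0 ≤ K by linarith)
  have h4 := (Nat.cast_le (α := ℝ)).2 h2
  push_cast at h4
  linarith

/-- The bound for the inner sum. -/
lemma inner {u1 : ℕ} {CU : ℝ} (hCU : 0 < CU)
    (hU : ∀ Δ l u : ℕ, u1 ≤ u → u ≤ l → l ≤ 4 * u → l < Δ → RR Δ 0 l u ≤ CU * u / (Δ : ℝ) ^ 2)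
    (Δ : ℕ) (K : ℝ) {t : ℕ} (ht : u1 ≤ t) :
    ∑ l ∈ Fl K t, RR Δ 0 l t ≤ (if Δ ≤ 3 * t ∧ 3 * (t : ℝ) ≤ Δ + K + 2 then 1 else 0) +
      (Fl K t).card * (CU * t / (Δ : ℝ) ^ 2) := by
  have h0 : 0 ≤ CU * t / (Δ : ℝ) ^ 2 := by positivity
  have h1 : ∀ l ∈ Fl K t, RR Δ 0 l t ≤ (if l = Δ then 1 else 0) + CU * t / (Δ : ℝ) ^ 2 := by
    intro l hl
    obtain ⟨h2, h3⟩ := mem_Icc.1 (mem_filter.1 hl).1
    rcases lt_trichotomy l Δ with h | h | h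
    · rw [if_neg h.ne, zero_add]
      exact hU Δ l t ht h2 (by omega) h
    · rw [if_pos h, h]
      linarith [RR_eq Δ t]
    · rw [RR_gt h, if_neg h.ne', zero_add]
      exact h0
  refine (sum_le_sum h1).trans ?_
  rw [sum_add_distrib, sum_const, nsmul_eq_mul, sum_ite_eq']
  refine add_le_add ?_ le_rfl
  split_ifs with h2 h3
  · exact le_rfl
  · exact absurd ⟨(mem_Icc.1 (mem_filter.1 h2).1).2, (mem_filter.1 h2).2⟩ h3
  · norm_num
  · exact le_rfl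

/-- The bound for one window, from the upper bound on the masses. -/
lemma key1 {u1 : ℕ} {C CU : ℝ} (hC : 1 ≤ C) (hCU : 0 < CU)
    (hP : ∀ t : ℕ, 1 ≤ t → rc (PR t t) ≤ 2 * C / t)
    (hU : ∀ Δ l u : ℕ, u1 ≤ u → u ≤ l → l ≤ 4 * u → l < Δ → RR Δ 0 l u ≤ CU * u / (Δ : ℝ) ^ 2)
    {Δ : ℕ} {K : ℝ} (hK : 1 ≤ K) (hΔ : K ^ 2 ≤ Δ) {t : ℕ} (ht : u1 ≤ t) (ht3 : 3 ≤ t) :
    rc (PR t t) * ∑ l ∈ Fl K t, RR Δ 0 l t * mm K t ≤
      (if Δ ≤ 3 * t ∧ 3 * (t : ℝ) ≤ Δ + K + 2 then 216 * C * K / (Δ : ℝ) ^ 3 else 0) +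
      (if K ≤ (t : ℝ) then 32 * C * CU * K ^ 2 / (Δ : ℝ) ^ 2 / (t : ℝ) ^ 2
        else 6 * C * CU / (Δ : ℝ) ^ 2) := by
  have ht' : (3 : ℝ) ≤ t := by exact_mod_cast ht3
  have ht0 : (0 : ℝ) < t := by linarith
  have hΔ1 : (1 : ℝ) ≤ Δ := by nlinarith
  have hΔ0 : (0 : ℝ) < Δ := by linarith
  have hK0 : 0 < K := by linarith
  have hC0 : 0 < C := by linarith
  have hm := mm_nonneg hK t
  have hp := hP t (by omega)
  have hp0 := rc_nonneg (PR t t)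
  rw [← sum_mul]
  have h1 := inner hCU hU Δ K ht
  have h2 : 0 ≤ ∑ l ∈ Fl K t, RR Δ 0 l t := sum_nonneg fun _ _ => RR_nonneg _ _ _ _
  have h3 : rc (PR t t) * ((∑ l ∈ Fl K t, RR Δ 0 l t) * mm K t) ≤ 2 * C / t *
      (((if Δ ≤ 3 * t ∧ 3 * (t : ℝ) ≤ Δ + K + 2 then 1 else 0) +
      (Fl K t).card * (CU * t / (Δ : ℝ) ^ 2)) * mm K t) :=
    mul_le_mul hp (mul_le_mul_of_nonneg_right h1 hm) (mul_nonneg h2 hm) (by positivity)
  refine h3.trans ?_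
  rw [add_mul, mul_add]
  refine add_le_add ?_ ?_
  · split_ifs with h
    · have h4 : (Δ : ℝ) ≤ 3 * t := by exact_mod_cast h.1
      have h5 : K ≤ t := by
        by_contra h6
        have h6 := not_le.1 h6
        nlinarith
      have h6 : mm K t ≤ 4 * K / (t : ℝ) ^ 2 := by
        rw [mm, if_pos h5]
        exact div_le_div_of_nonneg_right (by linarith) (by positivity)
      have h7 : (Δ : ℝ) ^ 3 ≤ (3 * t) ^ 3 := pow_le_pow_left₀ hΔ0.le h4 3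
      calc 2 * C / t * (1 * mm K t) ≤ 2 * C / t * (4 * K / (t : ℝ) ^ 2) := by
            rw [one_mul]; exact mul_le_mul_of_nonneg_left h6 (by positivity)
        _ = 216 * C * K / (3 * (t : ℝ)) ^ 3 := by field_simp; ring
        _ ≤ 216 * C * K / (Δ : ℝ) ^ 3 :=
            div_le_div_of_nonneg_left (by positivity) (by positivity) h7
    · simp
  · split_ifs with h
    · have h6 : mm K t ≤ 4 * K / (t : ℝ) ^ 2 := by
        rw [mm, if_pos h]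
        exact div_le_div_of_nonneg_right (by linarith) (by positivity)
      have h7 := Fl_card2 hK t
      calc 2 * C / t * ((Fl K t).card * (CU * t / (Δ : ℝ) ^ 2) * mm K t)
          ≤ 2 * C / t * (4 * K * (CU * t / (Δ : ℝ) ^ 2) * (4 * K / (t : ℝ) ^ 2)) := by
            gcongr
        _ = 32 * C * CU * K ^ 2 / (Δ : ℝ) ^ 2 / (t : ℝ) ^ 2 := by field_simp; ring
    · have h6 : mm K t = 1 / t := by rw [mm, if_neg h]
      have h7 := Fl_card1 K (show 1 ≤ t by omega)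
      rw [h6]
      calc 2 * C / t * ((Fl K t).card * (CU * t / (Δ : ℝ) ^ 2) * (1 / t))
          ≤ 2 * C / t * (3 * t * (CU * t / (Δ : ℝ) ^ 2) * (1 / t)) := by
            gcongr
        _ = 6 * C * CU / (Δ : ℝ) ^ 2 := by field_simp; ring

/-- The bound for one window in the middle range. -/
lemma key2 {C : ℝ} (hC : 1 ≤ C) (hP : ∀ t : ℕ, 1 ≤ t → rc (PR t t) ≤ 2 * C / t)
    (Δ : ℕ) {K ε : ℝ} (hK : 1 ≤ K) {t : ℕ} (ht : 1 ≤ t) (h1 : ε * K ≤ t) (h2 : (t : ℝ) ≤ K / ε) :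
    rc (PR t t) * ∑ l ∈ Fl K t, RR Δ 0 l t * mm K t ≤
      8 * C * (∑ l ∈ Icc ⌈ε * K⌉₊ ⌊3 * K / ε⌋₊, RR Δ 0 l ((l + 2) / 3)) / (t : ℝ) ^ 2 := by
  have ht' : (1 : ℝ) ≤ t := by exact_mod_cast ht
  have hC0 : 0 < C := by linarith
  have hm := mm_nonneg hK t
  have h3 : ∑ l ∈ Fl K t, RR Δ 0 l t ≤
      ∑ l ∈ Icc ⌈ε * K⌉₊ ⌊3 * K / ε⌋₊, RR Δ 0 l ((l + 2) / 3) := by
    refine (sum_le_sum fun l hl => RR_anti Δ 0 l (u := (l + 2) / 3) ?_).trans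
      (sum_le_sum_of_subset_of_nonneg (fun l hl => ?_) fun _ _ _ => RR_nonneg _ _ _ _)
    · have := (mem_Icc.1 (mem_filter.1 hl).1).2
      omega
    · obtain ⟨h4, h5⟩ := mem_Icc.1 (mem_filter.1 hl).1
      refine mem_Icc.2 ⟨(Nat.ceil_le.2 h1).trans h4, Nat.le_floor ?_⟩
      have h6 : (l : ℝ) ≤ 3 * t := by exact_mod_cast h5
      rw [mul_div_assoc]
      linarith
  have h4 : 0 ≤ ∑ l ∈ Fl K t, RR Δ 0 l t := sum_nonneg fun _ _ => RR_nonneg _ _ _ _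
  rw [← sum_mul]
  calc rc (PR t t) * ((∑ l ∈ Fl K t, RR Δ 0 l t) * mm K t)
      ≤ 2 * C / t * ((∑ l ∈ Icc ⌈ε * K⌉₊ ⌊3 * K / ε⌋₊, RR Δ 0 l ((l + 2) / 3)) * (4 / t)) :=
        mul_le_mul (hP t ht) (mul_le_mul h3 (mm_le ht) hm (h4.trans h3)) (mul_nonneg h4 hm)
          (by positivity)
    _ = _ := by field_simp; ring

end Bd

open Bd in
theorem pBd (hPi : S_Pi) (hBd0 : S_Bd0) (hU : S_U) : S_Bd := by
  obtain ⟨C, hC, -, -, hP, -⟩ := pi_facts hPi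
  obtain ⟨C0, hC0, h0⟩ := hBd0
  obtain ⟨u1, CU, hCU, hU⟩ := hU
  have hCp : 0 < C := by linarith
  refine ⟨max u1 3, fun u hu => ⟨2 + C0 + C0 * (864 * C + 70 * C * CU), by positivity, ?_⟩⟩
  intro Z Δ m X K ε hZ hK hΔ hm hX hE hε hε1
  have hΔ1 : (1 : ℝ) ≤ Δ := by nlinarith
  have hΔ0 : (0 : ℝ) < Δ := by linarith
  have hK0 : 0 < K := by linarith
  have hX0 : 0 < X := lt_of_lt_of_le (by positivity) hE
  have hB := h0 u Z Δ m X K hZ (by exact_mod_cast hΔ1) hK0.le hX0 hm hX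
  change Bd u Z Δ X ≤ _ + _ + C0 * X * ∑ t ∈ Icc u Z, rc (PR t t) *
    ∑ l ∈ Fl K t, RR Δ 0 l t * mm K t at hB
  have hE' : Real.exp Δ ≤ X / (Δ : ℝ) ^ 2 := by rwa [le_div_iff₀ (by positivity)]
  have ht1 : ∀ t ∈ Icc u Z, u1 ≤ t := fun t ht =>
    ((le_max_left _ _).trans hu).trans (mem_Icc.1 ht).1
  have ht3 : ∀ t ∈ Icc u Z, 3 ≤ t := fun t ht =>
    ((le_max_right _ _).trans hu).trans (mem_Icc.1 ht).1
  set S := ∑ l ∈ Icc ⌈ε * K⌉₊ ⌊3 * K / ε⌋₊, RR Δ 0 l ((l + 2) / 3) with hS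
  have hS0 : 0 ≤ S := sum_nonneg fun _ _ => RR_nonneg _ _ _ _
  set T := ∑ t ∈ Icc u Z, rc (PR t t) * ∑ l ∈ Fl K t, RR Δ 0 l t * mm K t with hT
  set W := ((Δ : ℝ) ^ 2)⁻¹ with hW
  have hW0 : 0 < W := by positivity
  have hA : ∑ t ∈ Icc u Z, (if Δ ≤ 3 * t ∧ 3 * (t : ℝ) ≤ Δ + K + 2 then
      216 * C * K / (Δ : ℝ) ^ 3 else 0) ≤ 864 * C * W := by
    refine (sA _ Δ hK (by positivity)).trans ?_
    calc 4 * K * (216 * C * K / (Δ : ℝ) ^ 3) = 864 * C * W * (K ^ 2 / Δ) := by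
          rw [hW]; field_simp; ring
      _ ≤ 864 * C * W * 1 :=
          mul_le_mul_of_nonneg_left ((div_le_one hΔ0).2 hΔ) (by positivity)
      _ = _ := mul_one _
  have hs1 : ∀ t ∈ Icc u Z, 1 ≤ t := fun t ht => by have := ht3 t ht; omega
  have e1 : (0 : ℝ) ≤ 6 * C * CU / (Δ : ℝ) ^ 2 := by positivity
  have e2 : (0 : ℝ) ≤ 32 * C * CU * K ^ 2 / (Δ : ℝ) ^ 2 := by positivity
  have e3 : (0 : ℝ) ≤ 8 * C * S := by positivity
  have hB' : Bd u Z Δ X ≤ X * ((2 + C0) * W + C0 * T) := by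
    have : X * ((2 + C0) * W + C0 * T) =
        2 * (X / (Δ : ℝ) ^ 2) + C0 * X / (Δ : ℝ) ^ 2 + C0 * X * T := by
      rw [hW]; ring
    rw [this]
    linarith
  constructor
  · have h1 : T ≤ 864 * C * W + K * (6 * C * CU / (Δ : ℝ) ^ 2) +
        2 * (32 * C * CU * K ^ 2 / (Δ : ℝ) ^ 2) / K := by
      refine le_trans ?_ (add_le_add (add_le_add hA (sB hs1 hK0.le e1)) (sC (Icc u Z) hK0 e2))
      rw [← sum_add_distrib, ← sum_add_distrib]
      refine sum_le_sum fun t ht => (key1 hC hCU hP hU hK hΔ (ht1 t ht) (ht3 t ht)).trans ?_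
      refine le_trans (add_le_add le_rfl ?_) (add_assoc _ _ _).ge
      by_cases h : K ≤ (t : ℝ)
      · rw [if_pos h, if_neg (not_lt.2 h), if_pos h, zero_add]
      · rw [if_neg h, if_pos (not_le.1 h), if_neg h, add_zero]
    have h2 : K * (6 * C * CU / (Δ : ℝ) ^ 2) + 2 * (32 * C * CU * K ^ 2 / (Δ : ℝ) ^ 2) / K =
        70 * C * CU * (K * W) := by
      rw [hW]; field_simp; ring
    have h3 : W ≤ K * W := le_mul_of_one_le_left hW0.le hK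
    have h4 : T ≤ (864 * C + 70 * C * CU) * (K * W) := by
      have := mul_le_mul_of_nonneg_left h3 (show 0 ≤ 864 * C by positivity)
      linarith
    refine hB'.trans ?_
    calc X * ((2 + C0) * W + C0 * T)
        ≤ X * ((2 + C0) * (K * W) + C0 * ((864 * C + 70 * C * CU) * (K * W))) := by
          gcongr
      _ = _ := by rw [hW]; ring
  · have hεK : 0 < ε * K := by positivity
    have hKε : 0 < K / ε := by positivity
    have hle1 : ε * K ≤ K := mul_le_of_le_one_left hK0.le hε1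
    have hle2 : K ≤ K / ε := by
      rw [le_div_iff₀ hε]
      linarith
    have h1 : T ≤ 864 * C * W + ε * K * (6 * C * CU / (Δ : ℝ) ^ 2) +
        2 * (32 * C * CU * K ^ 2 / (Δ : ℝ) ^ 2) / (K / ε) + 2 * (8 * C * S) / (ε * K) := by
      refine le_trans ?_ (add_le_add (add_le_add (add_le_add hA (sB hs1 hεK.le e1))
        (sC (Icc u Z) hKε e2)) (sC (Icc u Z) hεK e3))
      rw [← sum_add_distrib, ← sum_add_distrib, ← sum_add_distrib]
      refine sum_le_sum fun t ht => ?_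
      have k1 := key1 hC hCU hP hU hK hΔ (ht1 t ht) (ht3 t ht)
      have n1 : (0 : ℝ) ≤ if Δ ≤ 3 * t ∧ 3 * (t : ℝ) ≤ Δ + K + 2 then
          216 * C * K / (Δ : ℝ) ^ 3 else 0 := by
        split_ifs
        · positivity
        · exact le_rfl
      have n2 : (0 : ℝ) ≤ 8 * C * S / (t : ℝ) ^ 2 := by positivity
      by_cases a1 : (t : ℝ) < ε * K
      · rw [if_neg (not_le.2 (a1.trans_le hle1))] at k1
        rw [if_pos a1, if_neg (not_le.2 ((a1.trans_le hle1).trans_le hle2)),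
          if_neg (not_le.2 a1)]
        linarith
      · rw [if_neg a1, if_pos (not_lt.1 a1)]
        by_cases a2 : K / ε ≤ (t : ℝ)
        · rw [if_pos (hle2.trans a2)] at k1
          rw [if_pos a2]
          linarith
        · rw [if_neg a2]
          have k2 := key2 hC hP Δ hK (hs1 t ht) (not_lt.1 a1) (not_le.1 a2).le
          linarith
    have h2 : ε * K * (6 * C * CU / (Δ : ℝ) ^ 2) +
        2 * (32 * C * CU * K ^ 2 / (Δ : ℝ) ^ 2) / (K / ε) = 70 * C * CU * (ε * K * W) := by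
      rw [hW]; field_simp; ring
    have h3 : W ≤ (1 + ε * K) * W := le_mul_of_one_le_left hW0.le (by linarith)
    have h3' : ε * K * W ≤ (1 + ε * K) * W := mul_le_mul_of_nonneg_right (by linarith) hW0.le
    have h4 : T ≤ (864 * C + 70 * C * CU) * ((1 + ε * K) * W) + 16 * C * (S / (ε * K)) := by
      have a1 := mul_le_mul_of_nonneg_left h3 (show 0 ≤ 864 * C by positivity)
      have a2 := mul_le_mul_of_nonneg_left h3' (show 0 ≤ 70 * C * CU by positivity)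
      have a3 : 2 * (8 * C * S) / (ε * K) = 16 * C * (S / (ε * K)) := by ring
      linarith
    have h5 : C0 * (16 * C) ≤ 2 + C0 + C0 * (864 * C + 70 * C * CU) := by
      have a1 : 0 < C0 * C := by positivity
      have a2 : 0 < C0 * C * CU := by positivity
      nlinarith
    have h6 : 0 ≤ S / (ε * K) := by positivity
    refine hB'.trans (mul_le_mul_of_nonneg_left ?_ hX0.le)
    calc (2 + C0) * W + C0 * T ≤ (2 + C0) * ((1 + ε * K) * W) +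
          C0 * ((864 * C + 70 * C * CU) * ((1 + ε * K) * W) + 16 * C * (S / (ε * K))) := by
          gcongr
      _ = (2 + C0 + C0 * (864 * C + 70 * C * CU)) * ((1 + ε * K) * W) +
          C0 * (16 * C) * (S / (ε * K)) := by ring
      _ ≤ (2 + C0 + C0 * (864 * C + 70 * C * CU)) * ((1 + ε * K) * W) +
          (2 + C0 + C0 * (864 * C + 70 * C * CU)) * (S / (ε * K)) :=
          add_le_add le_rfl (mul_le_mul_of_nonneg_right h5 h6)
      _ = _ := by rw [hW]; ring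

end Pool.Agent.P.MP_26a8c3_nt.EC
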