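import Pool.Agent.P.MP_26a8c3_nt.EC.Base

/-! Tools for the bilinear estimate. -/

namespace Pool.Agent.P.MP_26a8c3_nt.EC

open Finset
open scoped Classical ComplexConjugate
open Hyb (ee ee_add norm_ee)

namespace Bil

lemma iv_spec {n m : ℕ} (h : Nat.Coprime n m) : (m : ℤ) ∣ n * Nat.gcdA n m - 1 := by
  have := Nat.gcd_eq_gcd_ab n m
  rw [h, Nat.cast_one] at this
  exact ⟨-Nat.gcdB n m, by linear_combination -this⟩

lemma ee_int (k : ℤ) : ee k = 1 := by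
  rw [ee, ← Complex.exp_int_mul_two_pi_mul_I k]
  congr 1
  push_cast
  ring

lemma ee_congr {m : ℕ} (hm : 0 < m) {x y : ℤ} (h : (m : ℤ) ∣ x - y) (t : ℝ) :
    ee ((x : ℝ) / m + t) = ee ((y : ℝ) / m + t) := by
  obtain ⟨k, hk⟩ := h
  have h1 : (x : ℝ) = y + m * k := by exact_mod_cast (by linarith : x = y + m * k)
  have h2 : (m : ℝ) ≠ 0 := by exact_mod_cast hm.ne'
  rw [show (x : ℝ) / m + t = (y / m + t) + k by rw [h1]; field_simp; ring, ee_add, ee_int, mul_one]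

lemma ee_conj (x y : ℝ) : ee x * conj (ee y) = ee (x - y) := by
  have h : ee y * conj (ee y) = 1 := by rw [Complex.mul_conj, Complex.normSq_eq_norm_sq, norm_ee]; simp
  rw [show x = (x - y) + y by ring, ee_add, mul_assoc, h, mul_one, add_sub_cancel_right]

lemma csw (W1 : Finset ℕ) {W2 I : Finset ℕ} (h : W2 ⊆ I) (F : ℕ → ℕ → ℂ) :
    ‖∑ p ∈ W1, ∑ n ∈ W2, F p n‖ ^ 2 ≤
      W2.card * ∑ p ∈ W1, ∑ p' ∈ W1, ‖∑ n ∈ I, F p n * conj (F p' n)‖ := by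
  rw [sum_comm]
  refine (pow_le_pow_left₀ (norm_nonneg _) (norm_sum_le _ _) 2).trans
    (sq_sum_le_card_mul_sum_sq.trans (mul_le_mul_of_nonneg_left ?_ (Nat.cast_nonneg _)))
  refine (sum_le_sum_of_subset_of_nonneg h fun _ _ _ => sq_nonneg _).trans ?_
  have e : ((∑ n ∈ I, ‖∑ p ∈ W1, F p n‖ ^ 2 : ℝ) : ℂ) =
      ∑ p ∈ W1, ∑ p' ∈ W1, ∑ n ∈ I, F p n * conj (F p' n) := by
    rw [sum_congr rfl fun p _ => sum_comm, sum_comm]
    push_cast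
    refine sum_congr rfl fun n _ => ?_
    rw [← Complex.mul_conj', map_sum, sum_mul_sum]
  refine (le_abs_self _).trans ?_
  rw [← Real.norm_eq_abs, ← Complex.norm_real, e]
  exact (norm_sum_le _ _).trans (sum_le_sum fun _ _ => norm_sum_le _ _)

lemma two_one {W : Finset ℕ} {M p : ℕ} (hW : W ⊆ Icc 1 M) (hp : p ∈ W) (f : ℕ → ℝ)
    (hf : ∀ r, 0 ≤ f r) :
    ∑ p' ∈ W.erase p, f ((p : ℤ) - p').natAbs ≤ 2 * ∑ r ∈ Icc 1 M, f r := by
  have hp' := mem_Icc.1 (hW hp)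
  have key : ∀ S ⊆ W.erase p, Set.InjOn (fun p' : ℕ => ((p : ℤ) - p').natAbs) S →
      ∑ p' ∈ S, f ((p : ℤ) - p').natAbs ≤ ∑ r ∈ Icc 1 M, f r := fun S hS hi => by
    rw [← sum_image (f := f) hi]
    refine sum_le_sum_of_subset_of_nonneg (image_subset_iff.2 fun x hx => ?_) fun r _ _ => hf r
    have h1 := mem_erase.1 (hS hx)
    have h2 := mem_Icc.1 (hW h1.2)
    have h3 := h1.1
    rw [mem_Icc]
    omega
  rw [← sum_filter_add_sum_filter_not _ (· < p), two_mul]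
  refine add_le_add (key _ (filter_subset _ _) fun x hx y hy e => ?_)
    (key _ (filter_subset _ _) fun x hx y hy e => ?_)
  · have h1 := (mem_filter.1 hx).2
    have h2 := (mem_filter.1 hy).2
    simp only at e
    omega
  · have h1 := (mem_filter.1 hx).2
    have h2 := (mem_filter.1 hy).2
    simp only at e
    omega

lemma gcd_sum (M : ℕ) {v : ℕ} (hv : v ≠ 0) :
    ∑ r ∈ Icc 1 M, (Nat.gcd r v : ℝ) ≤ M * v.divisors.card := by
  have h1 : ∀ r ∈ Icc 1 M, (Nat.gcd r v : ℝ) ≤ ∑ g ∈ v.divisors, if g ∣ r then (g : ℝ) else 0 :=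
    fun r _ => by
      have := single_le_sum (f := fun g : ℕ => if g ∣ r then (g : ℝ) else 0)
        (fun g _ => by positivity) (Nat.mem_divisors.2 ⟨Nat.gcd_dvd_right r v, hv⟩)
      rwa [if_pos (Nat.gcd_dvd_left r v)] at this
  refine (sum_le_sum h1).trans ?_
  rw [sum_comm, mul_comm, ← nsmul_eq_mul]
  refine sum_le_card_nsmul _ _ _ fun g _ => ?_
  rw [← sum_filter, sum_const, nsmul_eq_mul, show Icc 1 M = Ioc 0 M from rfl,
    Nat.Ioc_filter_dvd_card_eq_div]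
  exact_mod_cast Nat.div_mul_le_self M g

lemma inv_sum (M : ℕ) : ∑ r ∈ Icc 1 M, (r : ℝ)⁻¹ ≤ 1 + Real.log M := by
  have := harmonic_le_one_add_log M
  rwa [harmonic_eq_sum_Icc, Rat.cast_sum, sum_congr rfl fun i _ => by
    rw [Rat.cast_inv, Rat.cast_natCast]] at this

lemma gcd_le {v q p p' : ℕ} {E h : ℤ} (hq : 0 < q) (hv : 0 < v) (hE : IsCoprime E (v : ℤ)) (hh : h ≠ 0)
    (h1 : Nat.Coprime p (v * q)) (h2 : Nat.Coprime p' (v * q)) :
    (Int.gcd (h * E * (Nat.gcdA p (v * q) - Nat.gcdA p' (v * q))) ((v * q : ℕ) : ℤ) : ℝ) / (v * q : ℕ) ≤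
      |(h : ℝ)| * Nat.gcd ((p : ℤ) - p').natAbs v / v := by
  set κ := h * E * (Nat.gcdA p (v * q) - Nat.gcdA p' (v * q)) with hκ
  have a1 : (v : ℤ) ∣ κ * p * p' + E * (h * (p - p')) := by
    refine (show (v : ℤ) ∣ ((v * q : ℕ) : ℤ) from by push_cast; exact dvd_mul_right _ _).trans ?_
    have := ((iv_spec h1).mul_left (h * E * p')).sub ((iv_spec h2).mul_left (h * E * p))
    convert this using 1
    ring
  have g1 : ((Nat.gcd κ.natAbs v : ℕ) : ℤ) ∣ v := Int.natCast_dvd_natCast.2 (Nat.gcd_dvd_right _ _)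
  have g2 : ((Nat.gcd κ.natAbs v : ℕ) : ℤ) ∣ κ := Int.natCast_dvd.2 (Nat.gcd_dvd_left _ _)
  have a2 : ((Nat.gcd κ.natAbs v : ℕ) : ℤ) ∣ h * (p - p') :=
    (hE.of_isCoprime_of_dvd_right g1).symm.dvd_of_dvd_mul_left
      ((dvd_add_right ((g2.mul_right _).mul_right _)).1 (g1.trans a1))
  rw [Int.natCast_dvd, Int.natAbs_mul h] at a2
  have a3 : Nat.gcd κ.natAbs v ∣ Nat.gcd v h.natAbs * Nat.gcd v ((p : ℤ) - p').natAbs :=
    (Nat.dvd_gcd (Nat.gcd_dvd_right _ _) a2).trans (Nat.gcd_mul_right_dvd_mul_gcd _ _ _)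
  have a4 : Nat.gcd κ.natAbs v ≤ h.natAbs * Nat.gcd ((p : ℤ) - p').natAbs v := by
    rw [Nat.gcd_comm ((p : ℤ) - p').natAbs v]
    exact (Nat.le_of_dvd (Nat.mul_pos (Nat.gcd_pos_of_pos_left _ hv) (Nat.gcd_pos_of_pos_left _ hv))
      a3).trans (Nat.mul_le_mul_right _ (Nat.gcd_le_right _ (Int.natAbs_pos.2 hh)))
  have a5 : Int.gcd κ ((v * q : ℕ) : ℤ) ≤ h.natAbs * Nat.gcd ((p : ℤ) - p').natAbs v * q := by
    rw [Int.gcd, Int.natAbs_natCast]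
    exact (Nat.le_of_dvd (Nat.mul_pos (Nat.gcd_pos_of_pos_right _ hv) (Nat.gcd_pos_of_pos_right _ hq))
      (Nat.gcd_mul_right_dvd_mul_gcd _ _ _)).trans (Nat.mul_le_mul a4 (Nat.gcd_le_right _ hq))
  have a6 : (Int.gcd κ ((v * q : ℕ) : ℤ) : ℝ) ≤
      |(h : ℝ)| * Nat.gcd ((p : ℤ) - p').natAbs v * q := by
    rw [← Int.cast_abs, ← Nat.cast_natAbs]
    exact_mod_cast a5
  have hq' : (0 : ℝ) < q := by exact_mod_cast hq
  refine (div_le_div_of_nonneg_right a6 (Nat.cast_nonneg _)).trans (le_of_eq ?_)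
  push_cast
  field_simp

/-- The reduction to sums over pairs. -/
lemma red {m : ℕ} (hm : 0 < m) {W1 W2 I : Finset ℕ} (hI : W2 ⊆ I) (E h : ℤ) (θ : ℝ)
    (z : ℕ → ℕ → ℤ) (h1 : ∀ p ∈ W1, Nat.Coprime p m) (h2 : ∀ p ∈ W2, Nat.Coprime p m)
    (hz : ∀ p1 ∈ W1, ∀ p2 ∈ W2, (m : ℤ) ∣ (p1 * p2 : ℤ) * z p1 p2 - E) :
    ‖∑ p1 ∈ W1, ∑ p2 ∈ W2, ee ((h : ℝ) * z p1 p2 / m + θ / (p1 * p2))‖ ^ 2 ≤
      W2.card * ∑ p ∈ W1, ∑ p' ∈ W1, ‖∑ n ∈ I,
        ee (((h * E * (Nat.gcdA p m - Nat.gcdA p' m) * Nat.gcdA n m : ℤ) : ℝ) / m +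
          θ * ((p : ℝ)⁻¹ - (p' : ℝ)⁻¹) / n)‖ := by
  have := csw W1 hI fun p n => ee (((h * E * Nat.gcdA p m * Nat.gcdA n m : ℤ) : ℝ) / m + θ / (p * n))
  refine le_trans (le_of_eq ?_) (this.trans (le_of_eq ?_))
  · congr 2
    refine sum_congr rfl fun p1 a1 => sum_congr rfl fun p2 a2 => ?_
    rw [← Int.cast_mul]
    refine ee_congr hm ?_ _
    obtain ⟨k, hk⟩ := (((hz p1 a1 p2 a2).mul_left (h * Nat.gcdA p1 m * Nat.gcdA p2 m)).sub
      ((iv_spec (h1 p1 a1)).mul_left (h * z p1 p2 * p2 * Nat.gcdA p2 m))).sub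
      ((iv_spec (h2 p2 a2)).mul_left (h * z p1 p2))
    exact ⟨k, by linear_combination hk⟩
  · congr 1
    refine sum_congr rfl fun p _ => sum_congr rfl fun p' _ => ?_
    congr 1
    refine sum_congr rfl fun n _ => ?_
    rw [ee_conj]
    congr 1
    push_cast
    ring

end Bil

end Pool.Agent.P.MP_26a8c3_nt.EC
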