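import Pool.Agent.P.MP_26a8c3_nt.Hyb4
import Pool.Agent.P.MP_26a8c3_nt.Primes

/-! Definitions and interface statements for the gain `C log log` with every `C`.
Every piece of the proof is a theorem of the shape  S_a → S_b → S_c. -/

namespace Pool.Agent.P.MP_26a8c3_nt.EC

open Finset
open scoped Classical
open Hyb (ee)

/-! ### Primes by rounded logarithm, the sieve tree -/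

/-- The rounded logarithm. -/
noncomputable def tau (p : ℕ) : ℕ := ⌈Real.log p⌉₊

/-- The primes whose rounded logarithm lies in `[a, b]`. -/
noncomputable def PR (a b : ℕ) : Finset ℕ :=
  (range (3 ^ b + 1)).filter fun p => p.Prime ∧ a ≤ tau p ∧ tau p ≤ b

/-- The product of a finite set. -/
def pv (d : Finset ℕ) : ℕ := ∏ p ∈ d, p

/-- The sum of the rounded logarithms. -/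
noncomputable def ts (d : Finset ℕ) : ℕ := ∑ p ∈ d, tau p

/-- The sum of the reciprocals. -/
noncomputable def rc (d : Finset ℕ) : ℝ := ∑ p ∈ d, (p : ℝ)⁻¹

/-- The mass of a family of sets. -/
noncomputable def ms (S : Finset (Finset ℕ)) : ℝ := ∑ d ∈ S, (pv d : ℝ)⁻¹

/-- The elements that are at least `q`. -/
def up (d : Finset ℕ) (q : ℕ) : Finset ℕ := d.filter fun p => q ≤ p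

/-- The least element. -/
noncomputable def mn (d : Finset ℕ) : ℕ := sInf (d : Set ℕ)

/-- The greatest element. -/
def top (d : Finset ℕ) : ℕ := d.sup id

/-- The set without its greatest element. -/
def rest (d : Finset ℕ) : Finset ℕ := d.erase (top d)

/-- The nodes of the upper bound sieve with budget `Δ`. -/
def tree (Δ : ℕ) (d : Finset ℕ) : Prop :=
  ∀ q ∈ d, Odd (up d q).card → ts (up d q) + 2 * tau q ≤ Δ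

/-- The boundary nodes. -/
def bdry (Δ : ℕ) (d : Finset ℕ) : Prop :=
  Odd d.card ∧ tree Δ (d.erase (mn d)) ∧ ¬ tree Δ d

/-- No initial segment is cut. -/
def free (c : Finset ℕ → Prop) (d : Finset ℕ) : Prop := ∀ q ∈ d, ¬ c (up d q)

/-- The set itself is the first initial segment that is cut. -/
def first (c : Finset ℕ → Prop) (d : Finset ℕ) : Prop :=
  d.Nonempty ∧ c d ∧ free c (d.erase (mn d))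

/-- The density of the integers free of the small primes. -/
noncomputable def V0 (u : ℕ) : ℝ := ∏ p ∈ PR 0 (u - 1), (1 - (p : ℝ)⁻¹)

/-- The mass of the nodes of given parity and remaining budget `l` with all sizes at least `u`. -/
noncomputable def RR (Δ par l u : ℕ) : ℝ :=
  ms ((PR u Δ).powerset.filter fun d => tree Δ d ∧ d.card % 2 = par ∧ ts d + l = Δ)

/-! ### The model sequence -/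

/-- The Chebyshev weight. -/
noncomputable def ww (y : ℝ) : ℝ := (⌊y⌋ : ℝ) - 2 * (⌊y / 2⌋ : ℝ)

/-- The Liouville function. -/
noncomputable def lam (n : ℕ) : ℝ := (-1) ^ ArithmeticFunction.cardFactors n

/-- All prime factors are at least `p`. -/
def rough (p n : ℕ) : Prop := ∀ q : ℕ, q.Prime → q ∣ n → p ≤ q

/-- The sifted model sums; `e = 1` is the upper and `e = -1` the lower extremal example. -/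
noncomputable def SM (e Y : ℝ) (p : ℕ) : ℝ :=
  ∑ n ∈ (Ioc 0 ⌊Y⌋₊).filter (rough p), (1 - e * lam n) * ww (Y / n)

/-- The least integer above `exp Z`. -/
noncomputable def rt (Z : ℕ) : ℕ := ⌊Real.exp Z⌋₊ + 1

/-- The boundary sum of the model. -/
noncomputable def Bd (u Z Δ : ℕ) (X : ℝ) : ℝ :=
  ∑ d ∈ (PR u Z).powerset.filter (bdry Δ), SM (-1) (X / pv d) (mn d)

/-- The main sum of the sieve. -/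
noncomputable def GT (u Z Δ : ℕ) : ℝ :=
  ∑ d ∈ (PR u Z).powerset.filter (tree Δ), (-1) ^ d.card / (pv d : ℝ)

/-- The sifted multiples of a node in an interval. -/
noncomputable def Sf (u Z A N : ℕ) (s : Finset ℕ) : ℕ :=
  ((Ioc A (A + N)).filter fun n => pv s ∣ n ∧ ∀ q ∈ PR u Z, q < mn s → ¬ q ∣ n).card

/-- The sifting limit. -/
noncomputable def ZZ (N : ℕ) : ℕ := ⌊2 / 5 * Real.log N⌋₊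

/-- The budget. -/
noncomputable def DL (N : ℕ) : ℕ := ⌊Real.log N - 6 * Real.log (Real.log N)⌋₊

/-- The stopping nodes at scale `μ`. -/
noncomputable def S0 (u Z Δ μ : ℕ) : Finset (Finset ℕ) :=
  (PR u Z).powerset.filter fun s => tree Δ s ∧ Even s.card ∧ Δ ≤ ts s + 43 * μ ∧
    ts s + 37 * μ ≤ Δ ∧ (∀ p ∈ s, 28 * μ ≤ tau p) ∧ ∃ p ∈ s, tau p ≤ 30 * μ

/-- The number of fine windows in a coarse one. -/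
noncomputable def FF (Λ : ℝ) : ℕ := ⌈Λ ^ 4⌉₊

/-- The index of the fine window. -/
noncomputable def fi (F p : ℕ) : ℕ := ⌈(F : ℝ) * Real.log p⌉₊

/-- The primes of a fine window. -/
noncomputable def fw (F j : ℕ) : Finset ℕ := (PR 0 j).filter fun p => fi F p = j

/-- Four of the five conditions on a good node. -/
def ga (Λ : ℝ) (s : Finset ℕ) : Prop :=
  (s.card : ℝ) ≤ 10 * Real.log Λ ∧ Λ ^ (3 / 5 : ℝ) ≤ (tau (top (rest s)) : ℝ) ∧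
    Set.InjOn (fi (FF Λ)) (rest s : Set ℕ) ∧
    ∀ p ∈ rest s, (Λ ^ 9)⁻¹ ≤ rc (fw (FF Λ) (fi (FF Λ) p))

/-- The two greatest primes lie in different coarse windows. -/
def gb (s : Finset ℕ) : Prop := tau (top (rest s)) < tau (top s)

/-- The good stopping nodes. -/
noncomputable def SG (Λ : ℝ) (u Z Δ μ : ℕ) : Finset (Finset ℕ) :=
  (S0 u Z Δ μ).filter fun s => ga Λ s ∧ gb s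

/-- The sets with exactly one element in each of the windows `w j`, `j ∈ ω`. -/
noncomputable def Sel (w : ℕ → Finset ℕ) (ω : Finset ℕ) : Finset (Finset ℕ) :=
  (ω.biUnion w).powerset.filter fun ρ => ∀ j ∈ ω, (ρ ∩ w j).card = 1

/-! ### Objects at the small scale `L` -/

/-- The sifting primes at scale `L`. -/
noncomputable def PPs (u : ℕ) (L : ℝ) : Finset ℕ :=
  (range (⌊L ^ (3 / 5 : ℝ)⌋₊ + 1)).filter fun p => p.Prime ∧ u ≤ tau p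

/-- Their product. -/
noncomputable def PP (u : ℕ) (L : ℝ) : ℕ := pv (PPs u L)

/-- The sifted count in a short interval. -/
noncomputable def cnt (u : ℕ) (L : ℝ) (s : ℕ) (Y : ℝ) : ℝ := cop (PP u L) s (s + ⌊Y⌋₊ + 1)

/-- The normalising density. -/
noncomputable def cs (u : ℕ) (L : ℝ) : ℝ := (V0 u * Real.log L)⁻¹

/-- The Selberg weight of a set of primes. -/
noncomputable def gg (U : Finset ℕ) : ℝ := ∏ p ∈ U, ((p : ℝ) - 1)⁻¹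

/-- The support of the sieve of level above `L`. -/
noncomputable def DDs (u : ℕ) (th L : ℝ) : Finset (Finset ℕ) :=
  (PPs u L).powerset.filter fun U => (pv U : ℝ) ≤ L ^ ((1 + th) / 2) ∧
    ((pv U : ℝ) ≤ L ^ ((1 - th) / 2) ∨ ∃ p ∈ U, L ^ (20 * th) ≤ (p : ℝ))

/-- The moduli of the remainder. -/
noncomputable def QS (u : ℕ) (th L : ℝ) : Finset ℕ :=
  (Icc 1 ⌊L ^ (1 + th)⌋₊).filter fun q => q ∣ PP u L ∧ L ^ (1 - th) ≤ (q : ℝ) ∧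
    ∃ p : ℕ, p.Prime ∧ p ∣ q ∧ L ^ (20 * th) ≤ (p : ℝ)

/-- The frequencies of the remainder. -/
noncomputable def HS (th L : ℝ) : Finset ℤ :=
  (Icc (-(⌊L ^ (4 * th)⌋₊ : ℤ)) (⌊L ^ (4 * th)⌋₊ : ℤ)).erase 0

/-- The sieve inequality with its remainder in Fourier form. -/
def SvOK (u : ℕ) (th L Y : ℝ) (c : ℕ → ℤ → ℂ) : Prop :=
  (∀ q, ∑ h ∈ HS th L, ‖c q h‖ ≤ L ^ th) ∧ ∀ s : ℕ, cnt u L s Y ≤ (2 - th / 2) * cs u L * Y +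
    (∑ q ∈ QS u th L, ∑ h ∈ HS th L, c q h * ee ((h : ℝ) * s / q)).re

/-- The sieve inequality for all large scales. -/
def SvAll (u : ℕ) (th : ℝ) : Prop :=
  ∃ L0 : ℝ, ∀ L Y : ℝ, L0 ≤ L → L ≤ Y → Y ≤ 4 * L → ∃ c : ℕ → ℤ → ℂ, SvOK u th L Y c

/-- The mass of the large sifting primes dividing `D`. -/
noncomputable def ag (u : ℕ) (th L : ℝ) (D : ℤ) : ℝ :=
  rc ((PPs u L).filter fun p => L ^ (20 * th) ≤ (p : ℝ) ∧ (p : ℤ) ∣ D)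

/-- The bound for the number of codes. -/
noncomputable def Xi (Λ : ℝ) : ℝ := Real.exp (Λ ^ (13 / 25 : ℝ))

/-- Popular rational points `x.1 / x.2`. -/
def Pop (u : ℕ) (th Λ L : ℝ) (A : ℕ) (x : ℤ × ℤ) : Prop :=
  IsCoprime x.1 x.2 ∧ 1 ≤ x.2 ∧ |(x.1 : ℝ)| ≤ Real.exp (4 * Λ) ∧ (x.2 : ℝ) ≤ Real.exp (4 * Λ) ∧
    L ^ (-(7 * th)) ≤ ag u th L (x.2 * A - x.1)

/-- Every large family with one code contains two partners. -/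
def HMo (u : ℕ) (th L : ℝ) (A : ℕ) (G : Finset (ℕ × ℕ)) (code : ℕ × ℕ → ℕ × ℕ) : Prop :=
  ∀ S ⊆ G, (∀ a ∈ S, ∀ b ∈ S, code a = code b) → 8 * L ^ (6 * th) ≤ (S.card : ℝ) →
    ∃ a ∈ S, ∃ b ∈ S, a ≠ b ∧ L ^ (-(6 * th)) / 4 ≤
      ag u th L (((A / (a.1 * a.2) : ℕ) : ℤ) - ((A / (b.1 * b.2) : ℕ) : ℤ))

/-- The standing assumptions on the scales and on the two large windows. -/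
structure Cx (th B Λ L P2 : ℝ) (t1 : ℕ) (W2 : Finset ℕ) : Prop where
  th0 : 0 < th
  th1 : th ≤ 1 / 1000
  L0 : 1 ≤ L
  L1 : Λ ^ 40 ≤ L ^ th
  L2 : L ≤ Λ ^ B
  t1a : Λ ^ (3 / 5 : ℝ) ≤ (t1 : ℝ)
  t1b : (t1 : ℝ) ≤ Λ
  P2a : Real.exp (Λ ^ (3 / 5 : ℝ) - 2) ≤ P2
  W2a : ∀ p ∈ W2, p.Prime ∧ P2 ≤ (p : ℝ) ∧ (p : ℝ) ≤ P2 * (1 + (Λ ^ 3)⁻¹) ∧ tau p < t1
  W2b : P2 * (Λ ^ 9)⁻¹ ≤ (W2.card : ℝ)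

/-- The standing assumptions on the sample. -/
structure Sx (u : ℕ) (B Λ L T R : ℝ) (t1 M : ℕ) (W2 E1 E2 : Finset ℕ) : Prop where
  Ea : ∀ e ∈ E1 ∪ E2, 0 < e ∧ (e : ℝ) ≤ Λ ^ B ∧ Nat.Coprime e (PP u L)
  c1 : L ≤ (E1.card : ℝ)
  c2 : L ≤ (E2.card : ℝ)
  dv : ∀ e1 ∈ E1, ∀ e2 ∈ E2, e1 * e2 ∣ M ∧ R ≤ ((e1 * e2 : ℕ) : ℝ) ∧
    ((e1 * e2 : ℕ) : ℝ) ≤ R * (1 + (Λ ^ 3)⁻¹)
  M0 : 0 < M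
  M1 : (M : ℝ) ≤ Real.exp (Λ ^ (51 / 100 : ℝ))
  len : ∀ p1 ∈ PR t1 t1, ∀ p2 ∈ W2, ∀ e1 ∈ E1, ∀ e2 ∈ E2,
    L ≤ T / ((p1 * p2 * (e1 * e2) : ℕ) : ℝ) ∧ T / ((p1 * p2 * (e1 * e2) : ℕ) : ℝ) ≤ 3 * L

/-- The lengths in the concurrent case. -/
def Len (L T : ℝ) (t1 : ℕ) (W2 : Finset ℕ) : Prop :=
  ∀ p1 ∈ PR t1 t1, ∀ p2 ∈ W2, L ≤ T / ((p1 * p2 : ℕ) : ℝ) ∧ T / ((p1 * p2 : ℕ) : ℝ) ≤ 3 * L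

/-- The sifted count in the concurrent case. -/
noncomputable def cx (u : ℕ) (L : ℝ) (A : ℕ) (T : ℝ) (a v : ℤ) (d : ℕ) : ℝ :=
  ((Ioc 0 ⌊T⌋₊).filter fun r : ℕ => (d : ℤ) ∣ a + v * r ∧ Nat.Coprime (A + r) (PP u L)).card

/-- The projection on the interval `[P, e P]`. -/
noncomputable def cl (P y : ℝ) : ℝ := min (Real.exp 1 * P) (max P y)

/-- The length of the set of `t ∈ [P, e P]` with `α < t s ≤ β`. -/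
noncomputable def om (P α β s : ℝ) : ℝ := cl P (β / s) - cl P (α / s)

/-- The local density attached to the cofactor. -/
noncomputable def GM (u : ℕ) (L : ℝ) (v : ℕ) (E : ℤ) (m : ℕ) : ℝ :=
  if Nat.Coprime m v ∧ ∀ p ∈ PPs u L, (p : ℤ) ∣ E → ¬ p ∣ m then
    ∏ p ∈ (PPs u L).filter (· ∣ m), (1 - (p : ℝ)⁻¹)⁻¹ else 0

/-- The density of the classes that are not concurrent. -/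
noncomputable def VE (u : ℕ) (L : ℝ) (E : ℤ) : ℝ :=
  ∏ p ∈ (PPs u L).filter (fun p : ℕ => ¬ (p : ℤ) ∣ E), (1 - (p : ℝ)⁻¹)

/-! ### Part I, the descent -/

def S_Pi : Prop := ∃ C : ℝ, 0 < C ∧ ∀ t : ℕ, 1 ≤ t → |(t : ℝ) * rc (PR t t) - 1| ≤ C / t

def S_Id : Prop := ∀ (P U : Finset ℕ) (c : Finset ℕ → Prop), U ⊆ P →
  (if U = ∅ then (1 : ℝ) else 0) =
    ∑ d ∈ P.powerset.filter (free c), (-1) ^ d.card * (if d ⊆ U then (1 : ℝ) else 0) +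
    ∑ d ∈ P.powerset.filter (first c),
      (-1) ^ d.card * (if d ⊆ U ∧ ∀ q ∈ U, mn d ≤ q then (1 : ℝ) else 0)

def S_Mod : Prop := ∀ u : ℕ, ∃ C : ℝ, 0 < C ∧ ∀ Y : ℝ, 1 ≤ Y →
  |∑ n ∈ (Ioc 0 ⌊Y⌋₊).filter (fun n => Nat.Coprime n (pv (PR 0 (u - 1)))), ww (Y / n) -
      V0 u * Real.log 2 * Y| ≤ C * √Y ∧
  |∑ n ∈ (Ioc 0 ⌊Y⌋₊).filter (fun n => Nat.Coprime n (pv (PR 0 (u - 1)))), lam n * ww (Y / n)| ≤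
      C * √Y

def S_Plus : Prop := ∃ C : ℝ, 0 < C ∧ ∀ (Y : ℝ) (p : ℕ), 2 ≤ Y →
  ((p : ℝ) ≤ Y ^ (9 / 10 : ℝ) →
    2 * Real.log 2 * Y / Real.log Y * (1 - C / Real.log Y) ≤ SM 1 Y p) ∧
  (Y < (p : ℝ) ^ 3 → SM 1 Y p ≤ 2 * Real.log 2 * Y / Real.log Y * (1 + C / Real.log Y))

def S_Minus : Prop := ∃ C : ℝ, 0 < C ∧ ∀ (Y : ℝ) (p : ℕ), 0 ≤ Y → p.Prime →
  0 ≤ SM (-1) Y p ∧ SM (-1) Y p ≤ 2 * Y ∧ (Y < (p : ℝ) ^ 2 → SM (-1) Y p ≤ 2) ∧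
  SM (-1) Y p ≤ 2 + C * Y / tau p ∧
  ∀ K : ℝ, 0 ≤ K → K ≤ tau p → Real.log Y ≤ 2 * tau p + K →
    SM (-1) Y p ≤ 2 + C * Y * (K + 3) / (tau p : ℝ) ^ 2

def S_Node : Prop := ∀ u : ℕ, 1 ≤ u → ∃ C : ℝ, 0 < C ∧ ∀ (Z : ℕ) (X : ℝ), u ≤ Z →
  (∑ n ∈ (Ioc 0 ⌊X⌋₊).filter (fun n => Nat.Coprime n (pv (PR 0 (u - 1))) ∧ ∀ q ∈ PR u Z, ¬ q ∣ n),
    (1 - lam n) * ww (X / n) = SM 1 X (rt Z)) ∧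
  ∀ d ⊆ PR u Z, ((pv d : ℝ) ≤ X →
    |∑ n ∈ (Ioc 0 ⌊X⌋₊).filter (fun n => Nat.Coprime n (pv (PR 0 (u - 1))) ∧ pv d ∣ n),
      (1 - lam n) * ww (X / n) - V0 u * Real.log 2 * (X / pv d)| ≤ C * √(X / pv d)) ∧
    (d.Nonempty → ∑ n ∈ (Ioc 0 ⌊X⌋₊).filter (fun n => Nat.Coprime n (pv (PR 0 (u - 1))) ∧
      pv d ∣ n ∧ ∀ q ∈ PR u Z, q ∣ n → mn d ≤ q), (1 - lam n) * ww (X / n) =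
        SM ((-1) ^ d.card) (X / pv d) (mn d))

def S_Cmp : Prop := ∀ u : ℕ, 1 ≤ u → ∃ C : ℝ, 0 < C ∧
  ∀ (Z Δ A N : ℕ) (S : Finset (Finset ℕ)), u ≤ Z → Real.exp Δ ≤ N →
    (∀ s ∈ S, s ⊆ PR u Z ∧ s.Nonempty ∧ tree Δ s ∧ Even s.card ∧ ∀ q ∈ s, up s q ∈ S → up s q = s) →
    (cop (pv (PR u Z)) A (A + N) : ℝ) ≤
      (V0 u * Real.log 2)⁻¹ * (SM 1 N (rt Z) + Bd u Z Δ N) + C * √(N * Real.exp Δ) -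
        ∑ s ∈ S, ((V0 u * Real.log 2)⁻¹ * SM 1 (N / pv s) (mn s) - Sf u Z A N s)

def S_ModId : Prop := ∀ u : ℕ, 1 ≤ u → ∃ C : ℝ, 0 < C ∧ ∀ (Z Δ : ℕ) (X : ℝ), u ≤ Z →
  Real.exp Δ ≤ X →
    |V0 u * Real.log 2 * GT u Z Δ * X - SM 1 X (rt Z) - Bd u Z Δ X| ≤ C * √(X * Real.exp Δ)

def S_Rec : Prop :=
  (∀ Δ l u : ℕ, RR Δ 0 l u ≤ (if l = Δ then 1 else 0) +
    ∑ t ∈ Icc u l, rc (PR t t) * RR Δ 1 (l + t) t) ∧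
  (∀ Δ l u : ℕ, RR Δ 1 l u ≤ ∑ t ∈ Icc u (l / 2), rc (PR t t) * RR Δ 0 (l + t) t) ∧
  ∃ C : ℝ, 0 < C ∧ ∀ Δ par l u : ℕ, 1 ≤ u → l < Δ → RR Δ par l u ≤ C / u

def S_U : Prop := ∃ (u1 : ℕ) (C : ℝ), 0 < C ∧ ∀ Δ l u : ℕ, u1 ≤ u → u ≤ l → l ≤ 4 * u → l < Δ →
  RR Δ 0 l u ≤ C * u / (Δ : ℝ) ^ 2

def S_Bd0 : Prop := ∃ C : ℝ, 0 < C ∧ ∀ (u Z Δ m : ℕ) (X K : ℝ), Z ≤ Δ → 1 ≤ Δ → 0 ≤ K → 0 < X →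
  10 * Real.log Δ ≤ m → Real.log X + m ≤ Δ + K →
    Bd u Z Δ X ≤ 2 * Real.exp Δ + C * X / (Δ : ℝ) ^ 2 + C * X * ∑ t ∈ Icc u Z, rc (PR t t) *
      ∑ l ∈ (Icc t (3 * t)).filter (fun l : ℕ => 3 * (t : ℝ) ≤ l + K + 2),
        RR Δ 0 l t * (if K ≤ (t : ℝ) then (K + 3) / (t : ℝ) ^ 2 else 1 / (t : ℝ))

def S_Bd : Prop := ∃ u1 : ℕ, ∀ u : ℕ, u1 ≤ u → ∃ C : ℝ, 0 < C ∧ ∀ (Z Δ m : ℕ) (X K ε : ℝ), Z ≤ Δ →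
  1 ≤ K → K ^ 2 ≤ Δ → 10 * Real.log Δ ≤ m → Real.log X + m ≤ Δ + K →
  Real.exp Δ * (Δ : ℝ) ^ 2 ≤ X → 0 < ε → ε ≤ 1 →
    Bd u Z Δ X ≤ C * K * X / (Δ : ℝ) ^ 2 ∧
    Bd u Z Δ X ≤ X * (C * (1 + ε * K) / (Δ : ℝ) ^ 2 +
      C / (ε * K) * ∑ l ∈ Icc ⌈ε * K⌉₊ ⌊3 * K / ε⌋₊, RR Δ 0 l ((l + 2) / 3))

def S_Par : Prop := ∃ c : ℝ, 0 < c ∧ ∃ B1 : ℝ, ∀ B : ℝ, B1 ≤ B → ∃ N0 : ℕ, ∀ N : ℕ, N0 ≤ N →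
  ∃ μ : ℕ, c * B * Real.log (Real.log N) ≤ μ ∧ (μ : ℝ) ≤ B * Real.log (Real.log N) / c ∧
    c * (μ : ℝ) ^ 2 / Real.log N ^ 2 ≤ ∑ l ∈ Ico (100 * μ) (102 * μ), RR (DL N) 0 l ((l + 2) / 3)

def S_Gc : Prop := ∃ (c : ℝ) (μ0 : ℕ), 0 < c ∧ ∀ u Z Δ μ : ℕ, μ0 ≤ μ → u ≤ 28 * μ → Δ ≤ 3 * Z →
  c * ∑ l ∈ Ico (100 * μ) (102 * μ), RR Δ 0 l ((l + 2) / 3) ≤ ms (S0 u Z Δ μ)

def S_Bad1 : Prop := ∃ Λ0 : ℝ, ∀ (Λ : ℝ) (u Z Δ μ : ℕ), Λ0 ≤ Λ → (Z : ℝ) ≤ Λ → 9 / 10 * Λ ≤ Δ →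
  430 * (μ : ℝ) ≤ Λ → Real.log Λ ≤ μ →
    ms ((S0 u Z Δ μ).filter fun s => ¬ ga Λ s) ≤ Λ ^ (-(5 / 2) : ℝ)

def S_Bad3 : Prop := ∀ η : ℝ, 0 < η → ∃ Λ0 : ℝ, ∀ (Λ : ℝ) (u Z Δ μ : ℕ), Λ0 ≤ Λ →
  9 / 10 * Λ ≤ Δ → 430 * (μ : ℝ) ≤ Λ → Real.log Λ ≤ μ →
    ms ((S0 u Z Δ μ).filter fun s => ga Λ s ∧ ¬ gb s) ≤ η * (μ : ℝ) ^ 2 / Λ ^ 2

def S_Mass : Prop := ∃ c : ℝ, 0 < c ∧ ∃ B1 : ℝ, ∀ (B : ℝ) (u : ℕ), B1 ≤ B → ∃ N0 : ℕ, ∀ N : ℕ, N0 ≤ N →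
  ∃ μ : ℕ, c * B * Real.log (Real.log N) ≤ μ ∧ (μ : ℝ) ≤ B * Real.log (Real.log N) / c ∧
    c * (μ : ℝ) ^ 2 / Real.log N ^ 2 ≤ ms (SG (Real.log N) u (ZZ N) (DL N) μ)

def S_Sel : Prop := ∀ w : ℕ → Finset ℕ, (∀ i j, i ≠ j → Disjoint (w i) (w j)) →
  (∀ (ω1 ω2 : Finset ℕ) (f : Finset ℕ → ℝ), Disjoint ω1 ω2 →
    ∑ ρ ∈ Sel w (ω1 ∪ ω2), f ρ = ∑ ρ1 ∈ Sel w ω1, ∑ ρ2 ∈ Sel w ω2, f (ρ1 ∪ ρ2)) ∧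
  (∀ (j : ℕ) (f : Finset ℕ → ℝ), ∑ ρ ∈ Sel w {j}, f ρ = ∑ p ∈ w j, f {p}) ∧
  (∀ ω : Finset ℕ, (Sel w ω).card = ∏ j ∈ ω, (w j).card) ∧
  (∀ (ω : Finset ℕ) (g : ℕ → ℝ) (lo hi : ℕ → ℝ), ∀ ρ ∈ Sel w ω,
    (∀ j ∈ ω, ∀ p ∈ w j, lo j ≤ g p ∧ g p ≤ hi j) →
      ∑ j ∈ ω, lo j ≤ ∑ p ∈ ρ, g p ∧ ∑ p ∈ ρ, g p ≤ ∑ j ∈ ω, hi j) ∧
  ∀ (ω : Finset ℕ) (n : ℕ) (f : Finset ℕ → ℝ), 1 ≤ n → (∀ j ∈ ω, n ≤ (w j).card) →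
    0 < ∑ ρ ∈ Sel w ω, f ρ → ∃ w' : ℕ → Finset ℕ, (∀ j, w' j ⊆ w j) ∧
      (∀ j ∈ ω, (w' j).card = n) ∧ 0 < ∑ ρ ∈ Sel w' ω, f ρ

def S_Inv : Prop := ∀ (Λ : ℝ) (u Z Δ μ : ℕ), 1 ≤ Λ → ∀ s ∈ SG Λ u Z Δ μ,
  ∀ p1 ∈ PR (tau (top s)) (tau (top s)), ∀ ρ ∈ Sel (fw (FF Λ)) ((rest s).image (fi (FF Λ))),
    insert p1 ρ ∈ SG Λ u Z Δ μ ∧ top (insert p1 ρ) = p1 ∧ rest (insert p1 ρ) = ρ ∧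
      ρ.image (fi (FF Λ)) = (rest s).image (fi (FF Λ))

def S_Fib : Prop := ∀ (Λ : ℝ) (u Z Δ μ : ℕ) (f : Finset ℕ → ℝ), 1 ≤ Λ →
  (∀ s ∈ SG Λ u Z Δ μ, ∑ p1 ∈ PR (tau (top s)) (tau (top s)),
    ∑ ρ ∈ Sel (fw (FF Λ)) ((rest s).image (fi (FF Λ))), f (insert p1 ρ) ≤ 0) →
  ∑ s ∈ SG Λ u Z Δ μ, f s ≤ 0

def S_Dec : Prop := ∀ (k Δ r : ℕ) (s : Finset ℕ), tree Δ s → Even s.card → Δ ≤ ts s + r →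
  3 ^ k * r < Δ → ∃ e ⊆ s, e.card = 2 * k ∧ top s ∉ e ∧ top (rest s) ∉ e ∧ top (rest s) ∈ rest s ∧
    ∀ p ∈ e, tau p ≤ 3 ^ k * r

def S_Box1 : Prop := ∃ u1 : ℕ, ∀ u : ℕ, u1 ≤ u → ∃ δ B0 : ℝ, 0 < δ ∧ δ ≤ 1 ∧
  ∀ (B : ℝ) (k : ℕ), 88 * B ≤ k → ∃ Λ0 : ℝ, ∀ (Λ T : ℝ) (μ t1 j2 A : ℕ) (ω1 ω2 : Finset ℕ),
    Λ0 ≤ Λ → B0 * Real.log Λ ≤ μ → (μ : ℝ) ≤ B * Real.log Λ → Disjoint ω1 ω2 → ω1.card = k →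
    ω2.card = k → (t1 : ℝ) ≤ Λ →
    (∀ j ∈ ω1 ∪ ω2, (Λ ^ 9)⁻¹ ≤ rc (fw (FF Λ) j) ∧
      ∀ p ∈ fw (FF Λ) j, 28 * μ ≤ tau p ∧ tau p ≤ 3 ^ k * (43 * μ)) →
    (Λ ^ 9)⁻¹ ≤ rc (fw (FF Λ) j2) →
    (∀ p ∈ fw (FF Λ) j2, Λ ^ (3 / 5 : ℝ) ≤ (tau p : ℝ) ∧ tau p < t1) →
    (∀ p1 ∈ PR t1 t1, ∀ p2 ∈ fw (FF Λ) j2, ∀ ρ1 ∈ Sel (fw (FF Λ)) ω1, ∀ ρ2 ∈ Sel (fw (FF Λ)) ω2,
      Real.exp (37 * μ) ≤ T / ((p1 * p2 * (pv ρ1 * pv ρ2) : ℕ) : ℝ) ∧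
        T / ((p1 * p2 * (pv ρ1 * pv ρ2) : ℕ) : ℝ) ≤ Real.exp (44 * μ)) →
    ∑ p1 ∈ PR t1 t1, ∑ p2 ∈ fw (FF Λ) j2, ∑ ρ1 ∈ Sel (fw (FF Λ)) ω1, ∑ ρ2 ∈ Sel (fw (FF Λ)) ω2,
      ((cop (pv (PR u (28 * μ - 1))) (A / (p1 * p2 * (pv ρ1 * pv ρ2)))
          (A / (p1 * p2 * (pv ρ1 * pv ρ2)) + ⌊T / ((p1 * p2 * (pv ρ1 * pv ρ2) : ℕ) : ℝ)⌋₊ + 1) : ℝ) -
        (2 - δ) * (T / ((p1 * p2 * (pv ρ1 * pv ρ2) : ℕ) : ℝ)) /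
          (V0 u * (Real.log (T / ((p1 * p2 * (pv ρ1 * pv ρ2) : ℕ) : ℝ)) - 2))) ≤ 0

def S_Box : Prop := ∃ u1 : ℕ, ∀ u : ℕ, u1 ≤ u → ∃ δ B0 : ℝ, 0 < δ ∧ δ ≤ 1 ∧
  ∀ B : ℝ, ∃ N0 : ℕ, ∀ N μ A : ℕ, N0 ≤ N → B0 * Real.log (Real.log N) ≤ μ →
    (μ : ℝ) ≤ B * Real.log (Real.log N) →
    ∑ s ∈ SG (Real.log N) u (ZZ N) (DL N) μ, ((Sf u (ZZ N) A N s : ℝ) -
      (2 - δ) * (N / pv s) / (V0 u * (Real.log (N / pv s) - 2))) ≤ 0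

def S_Main0 : Prop := ∃ u : ℕ, 1 ≤ u ∧ ∀ C : ℝ, ∃ N0 : ℕ, ∀ N A : ℕ, N0 ≤ N →
  (cop (pv (PR u (ZZ N))) A (A + N) : ℝ) ≤
    2 * N / (V0 u * (Real.log N + C * Real.log (Real.log N)))

def S_Main : Prop := ∀ C : ℝ, ∃ t₀ : ℝ, ∀ (k : ℕ) (l : ℤ) (x y : ℝ), 1 ≤ k → t₀ ≤ y / (k : ℝ) →
  (({p : ℕ | p.Prime ∧ x - y < (p : ℝ) ∧ (p : ℝ) ≤ x ∧
      (p : ℤ) ≡ l [ZMOD (k : ℤ)]}.ncard : ℕ) : ℝ) <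
    2 * y / ((Nat.totient k : ℝ) *
      (Real.log (y / (k : ℝ)) + C * Real.log (Real.log (y / (k : ℝ)))))

/-! ### Part II, the key proposition -/

def S_Lam : Prop := ∀ 𝓛 : Finset (Finset ℕ), (∀ U ∈ 𝓛, ∀ p ∈ U, p.Prime) → ∅ ∈ 𝓛 →
  (∀ U ∈ 𝓛, ∀ S ⊆ U, S ∈ 𝓛) → ∃ l : Finset ℕ → ℝ, l ∅ = 1 ∧ (∀ S, |l S| ≤ 2 ^ S.card) ∧
    ∑ S ∈ 𝓛, ∑ T ∈ 𝓛, l S * l T / (pv (S ∪ T) : ℝ) = (∑ U ∈ 𝓛, gg U)⁻¹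

def S_G : Prop :=
  (∀ (u : ℕ) (L Q : ℝ), 1 ≤ u → 1 ≤ Q → Q ≤ L ^ (3 / 5 : ℝ) →
    V0 u * Real.log Q ≤ ∑ U ∈ (PPs u L).powerset.filter (fun U => (pv U : ℝ) ≤ Q), gg U) ∧
  ∃ th L0 : ℝ, 0 < th ∧ th ≤ 1 / 1000 ∧ ∀ (u : ℕ) (L : ℝ), 1 ≤ u → L0 ≤ L →
    V0 u * ((1 / 2 + 3 * th / 8) * Real.log L) ≤ ∑ U ∈ DDs u th L, gg U

def S_Triv : Prop := ∀ (u : ℕ) (δ : ℝ), 1 ≤ u → 0 < δ → ∃ L0 : ℝ, ∀ (L Y : ℝ) (s : ℕ), L0 ≤ L →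
  L ≤ Y → Y ≤ 4 * L → cnt u L s Y ≤ (2 + δ) * cs u L * Y

def S_Sv : Prop := ∃ th : ℝ, 0 < th ∧ th ≤ 1 / 1000 ∧ ∀ u : ℕ, 1 ≤ u → SvAll u th

def S_Bias : Prop := ∀ B th : ℝ, 0 < th → th ≤ 1 / 1000 → ∃ Λ0 : ℝ,
  ∀ (Λ L : ℝ) (E1 E2 Q : Finset ℕ) (D : ℤ) (hh : ℕ → ℤ), Λ0 ≤ Λ → 1 ≤ L → Λ ^ 40 ≤ L ^ th →
    (∀ e ∈ E1 ∪ E2, 0 < e ∧ (e : ℝ) ≤ Λ ^ B) → L ≤ (E1.card : ℝ) → L ≤ (E2.card : ℝ) →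
    (∀ e1 ∈ E1, ∀ e2 ∈ E2, ((e1 * e2 : ℕ) : ℤ) ∣ D) →
    (∀ q ∈ Q, 0 < q ∧ (q : ℝ) ≤ L ^ (1 + th) ∧ (∀ e ∈ E1 ∪ E2, Nat.Coprime e q) ∧
      L ^ (16 * th) * (Int.gcd (q : ℤ) (hh q * D) : ℝ) ≤ q) →
    ∑ q ∈ Q, ‖∑ e1 ∈ E1, ∑ e2 ∈ E2, ee (((hh q * (D / ((e1 * e2 : ℕ) : ℤ)) : ℤ) : ℝ) / q)‖ ≤
      L ^ (1 - 6 * th) * E1.card * E2.card

def S_HM : Prop := ∀ B th : ℝ, 0 < th → th ≤ 1 / 1000 → ∃ Λ0 : ℝ,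
  ∀ (u M : ℕ) (Λ L Y : ℝ) (c : ℕ → ℤ → ℂ) (E1 E2 : Finset ℕ) (S : Finset (ℕ × ℕ)) (a : ℕ × ℕ → ℕ),
    Λ0 ≤ Λ → 1 ≤ L → Λ ^ 40 ≤ L ^ th → SvOK u th L Y c →
    (∀ e ∈ E1 ∪ E2, 0 < e ∧ (e : ℝ) ≤ Λ ^ B ∧ Nat.Coprime e (PP u L)) →
    L ≤ (E1.card : ℝ) → L ≤ (E2.card : ℝ) → (∀ e1 ∈ E1, ∀ e2 ∈ E2, e1 * e2 ∣ M) →
    (∀ i ∈ S, ∀ j ∈ S, a i ≡ a j [MOD M]) →
    (∀ i ∈ S, ((2 - th / 2) * cs u L * Y + L ^ (1 - th)) * E1.card * E2.card ≤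
      ∑ e1 ∈ E1, ∑ e2 ∈ E2, cnt u L (a i / (e1 * e2)) Y) →
    8 * L ^ (6 * th) ≤ (S.card : ℝ) →
    ∃ i ∈ S, ∃ j ∈ S, i ≠ j ∧ L ^ (-(6 * th)) / 4 ≤ ag u th L ((a i : ℤ) - (a j : ℤ))

def S_Pair : Prop := ∀ th : ℝ, 0 < th → ∃ Λ0 : ℝ, ∀ (u A d d' : ℕ) (Λ L : ℝ), Λ0 ≤ Λ → 1 ≤ L →
  Λ ^ 40 ≤ L ^ th → 0 < d → 0 < d' → d ≠ d' → Nat.Coprime d d' → (d : ℝ) ≤ Real.exp (2 * Λ) →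
  (d' : ℝ) ≤ Real.exp (2 * Λ) →
  L ^ (-(6 * th)) / 4 ≤ ag u th L (((A / d : ℕ) : ℤ) - ((A / d' : ℕ) : ℤ)) →
    ∃ x : ℤ × ℤ, Pop u th Λ L A x ∧ x.2 ∣ (d' : ℤ) - d ∧
      |x.1| * |(d' : ℤ) - d| ≤ x.2 * (d * d') ∧ ((d * d' : ℕ) : ℤ) ∣ x.2 * A - x.1

def S_List : Prop := ∀ B th : ℝ, 0 < th → ∃ Λ0 : ℝ,
  ∀ (u A : ℕ) (Λ L : ℝ) (X : Finset (ℤ × ℤ)), Λ0 ≤ Λ → 1 ≤ L → Λ ^ 40 ≤ L ^ th → L ≤ Λ ^ B →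
    (∀ x ∈ X, Pop u th Λ L A x) → (X.card : ℝ) ≤ L ^ (8 * th)

def S_Col : Prop := ∀ B th ε : ℝ, 0 < ε → ε ≤ 1 / 40 → ∃ Λ0 : ℝ,
  ∀ (u t1 A : ℕ) (Λ L P2 : ℝ) (W2 : Finset ℕ) (G : Finset (ℕ × ℕ)) (code : ℕ × ℕ → ℕ × ℕ),
    Λ0 ≤ Λ → Cx th B Λ L P2 t1 W2 → G ⊆ PR t1 t1 ×ˢ W2 →
    (1 - ε) * ((PR t1 t1).card * W2.card) ≤ (G.card : ℝ) → ((G.image code).card : ℝ) ≤ Xi Λ →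
    HMo u th L A G code → ∃ x : ℤ × ℤ, Pop u th Λ L A x ∧
      ((((PR t1 t1 ×ˢ W2).filter fun a => ¬ ((a.1 * a.2 : ℕ) : ℤ) ∣ x.2 * A - x.1).card : ℝ) ≤
        8 * ε * ((PR t1 t1).card * W2.card)) ∧
      ∃ G' ⊆ G, ((PR t1 t1).card * W2.card : ℝ) / 4 ≤ G'.card ∧
        ∀ a ∈ G', ∀ x' : ℤ × ℤ, Pop u th Λ L A x' → (a.1 : ℤ) ∣ x'.2 * A - x'.1 → x' = x

def S_Ht : Prop := ∀ B th : ℝ, ∃ Λ0 : ℝ,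
  ∀ (u t1 A : ℕ) (Λ L P2 : ℝ) (W2 : Finset ℕ) (G : Finset (ℕ × ℕ)) (code : ℕ × ℕ → ℕ × ℕ)
    (x : ℤ × ℤ), Λ0 ≤ Λ → Cx th B Λ L P2 t1 W2 → G ⊆ PR t1 t1 ×ˢ W2 →
    ((PR t1 t1).card * W2.card : ℝ) / 4 ≤ G.card → ((G.image code).card : ℝ) ≤ Xi Λ →
    HMo u th L A G code → Pop u th Λ L A x →
    (∀ a ∈ G, ∀ x' : ℤ × ℤ, Pop u th Λ L A x' → (a.1 : ℤ) ∣ x'.2 * A - x'.1 → x' = x) →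
    (x.2 : ℝ) ≤ Xi Λ ^ 2 ∧ |(x.1 : ℝ)| ≤ x.2 * (Real.exp t1 * P2) * Xi Λ ^ 2

def S_Rig : Prop := ∀ (u : ℕ) (th : ℝ), 1 ≤ u → SvAll u th → ∀ B : ℝ, ∃ Λ0 : ℝ,
  ∀ (t1 M A : ℕ) (Λ L P2 T R : ℝ) (W2 E1 E2 : Finset ℕ), Λ0 ≤ Λ → Cx th B Λ L P2 t1 W2 →
    Sx u B Λ L T R t1 M W2 E1 E2 →
    (2 - th ^ 2 / 10000) * cs u L * ∑ p1 ∈ PR t1 t1, ∑ p2 ∈ W2, ∑ e1 ∈ E1, ∑ e2 ∈ E2,
        T / ((p1 * p2 * (e1 * e2) : ℕ) : ℝ) ≤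
      ∑ p1 ∈ PR t1 t1, ∑ p2 ∈ W2, ∑ e1 ∈ E1, ∑ e2 ∈ E2,
        cnt u L (A / (p1 * p2 * (e1 * e2))) (T / ((p1 * p2 * (e1 * e2) : ℕ) : ℝ)) →
    ∃ a v : ℤ, IsCoprime a v ∧ 1 ≤ v ∧ (v : ℝ) ≤ Xi Λ ^ 2 ∧
      |(a : ℝ)| ≤ v * (Real.exp t1 * P2) * Xi Λ ^ 2 ∧
      (((PR t1 t1 ×ˢ W2).filter fun b => ¬ ((b.1 * b.2 : ℕ) : ℤ) ∣ v * A - a).card : ℝ) ≤
        th / 50 * ((PR t1 t1).card * W2.card)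

def S_KS : Prop := ∃ C : ℝ, 0 < C ∧ ∀ (m a b : ℕ) (κ : ℤ) (Θ P : ℝ) (z : ℕ → ℤ), 0 < m → 1 ≤ P →
  P ≤ (a : ℝ) + 1 → a ≤ b → (b : ℝ) ≤ 2 * P → (∀ n, Nat.Coprime n m → (m : ℤ) ∣ n * z n - κ) →
    ‖∑ n ∈ (Ioc a b).filter (fun n => Nat.Coprime n m), ee ((z n : ℝ) / m + Θ / n)‖ ≤
      C * ((Int.gcd κ m : ℝ) / m * (1 + Real.log m) * (b - a) + m + (b - a) * m * |Θ| / P ^ 2) ∧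
    (Θ ≠ 0 → ‖∑ n ∈ (Ioc a b).filter (fun n => Nat.Coprime n m), ee ((z n : ℝ) / m + Θ / n)‖ ≤
      C * (P ^ 2 / |Θ| + m + (b - a) * m * |Θ| / P ^ 2))

def S_Bil : Prop := ∀ B th : ℝ, ∃ Λ0 : ℝ,
  ∀ (t1 q : ℕ) (Λ L P2 T : ℝ) (W2 W1 : Finset ℕ) (a v E h : ℤ) (z : ℕ → ℕ → ℤ), Λ0 ≤ Λ →
    Cx th B Λ L P2 t1 W2 → Len L T t1 W2 → IsCoprime E v → 1 ≤ v → (v : ℝ) ≤ Xi Λ ^ 3 →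
    |(a : ℝ)| ≤ v * T * Xi Λ ^ 3 → (L ^ (20 * th) ≤ (v : ℝ) ∨ v * T * L ^ (20 * th) ≤ |(a : ℝ)|) →
    h ≠ 0 → |(h : ℝ)| ≤ L ^ (4 * th) → L ^ (1 - th) ≤ (q : ℝ) → (q : ℝ) ≤ L ^ (1 + th) →
    W1 ⊆ PR t1 t1 → (∀ p1 ∈ W1, ∀ p2 ∈ W2, v * q ∣ (p1 * p2 : ℤ) * z p1 p2 - E) →
    ‖∑ p1 ∈ W1, ∑ p2 ∈ W2,
      ee ((h : ℝ) * z p1 p2 / (v * q) + (h : ℝ) * a / (v * q * (p1 * p2)))‖ ≤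
      L ^ (-(3 * th)) * (Real.exp t1 * P2)

def S_CaseA : Prop := ∀ (u : ℕ) (th : ℝ), 1 ≤ u → SvAll u th → ∀ B : ℝ, ∃ Λ0 : ℝ,
  ∀ (t1 A : ℕ) (Λ L P2 T : ℝ) (W2 : Finset ℕ) (a v : ℤ), Λ0 ≤ Λ → Cx th B Λ L P2 t1 W2 →
    Len L T t1 W2 → IsCoprime a v → 1 ≤ v → (v : ℝ) ≤ Xi Λ ^ 3 → |(a : ℝ)| ≤ v * T * Xi Λ ^ 3 →
    (L ^ (20 * th) ≤ (v : ℝ) ∨ v * T * L ^ (20 * th) ≤ |(a : ℝ)|) →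
    ∑ p1 ∈ PR t1 t1, ∑ p2 ∈ W2, cx u L A T a v (p1 * p2) ≤
      (2 - th / 4) * cs u L * ∑ p1 ∈ PR t1 t1, ∑ p2 ∈ W2, T / ((p1 * p2 : ℕ) : ℝ)

def S_PAP : Prop := ∀ A B : ℕ, ∃ C : ℝ, 0 < C ∧ ∀ (t q : ℕ) (c : ℤ) (α β : ℝ), 2 ≤ t → 1 ≤ q →
  q ≤ t ^ B → IsCoprime c (q : ℤ) → α ≤ β →
    |(((PR t t).filter fun p : ℕ => α < p ∧ (p : ℝ) ≤ β ∧ (q : ℤ) ∣ p - c).card : ℝ) -
        (((PR t t).filter fun p : ℕ => α < p ∧ (p : ℝ) ≤ β).card : ℝ) / Nat.totient q| ≤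
      C * Real.exp t / (t : ℝ) ^ A ∧
    (((PR t t).filter fun p : ℕ => α < p ∧ (p : ℝ) ≤ β).card : ℝ) ≤
      om (Real.exp (t - 1)) α β 1 / (t - 1) + C * Real.exp t / (t : ℝ) ^ A

def S_Fix : Prop := ∀ (ε B : ℝ) (A : ℕ), 0 < ε → ∃ Λ0 : ℝ,
  ∀ (u t1 v p2 : ℕ) (Λ L α β : ℝ) (E m : ℤ), 2 ≤ u → Λ0 ≤ Λ → 1 ≤ L → L ≤ Λ ^ B →
    Λ ^ (3 / 5 : ℝ) ≤ (t1 : ℝ) → 1 ≤ v → (v : ℝ) ≤ L → IsCoprime E (v : ℤ) → m ≠ 0 → p2.Prime →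
    L < p2 → α ≤ β →
    (((PR t1 t1).filter fun p1 : ℕ => α < (p1 : ℝ) * m.natAbs ∧ (p1 : ℝ) * m.natAbs ≤ β ∧
        (v : ℤ) ∣ p1 * p2 * m + E ∧ ∀ p ∈ PPs u L, ¬ ((v * p : ℕ) : ℤ) ∣ p1 * p2 * m + E).card : ℝ) ≤
      (1 + ε) * om (Real.exp (t1 - 1)) α β m.natAbs / (t1 * Nat.totient v) * VE u L E *
        GM u L v E m.natAbs + Real.exp t1 / (t1 : ℝ) ^ A

def S_Hall : Prop := ∀ ε : ℝ, 0 < ε → ∃ M0 : ℝ, ∀ (G : ℕ → ℝ) (η P α β M1 Mp : ℝ), 0 ≤ η → η ≤ 1 →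
  (∀ m, 0 ≤ G m) → (∀ m p a : ℕ, p.Prime → G (m * p ^ a) ≤ (1 + η) * G m) → 0 < P → 0 ≤ α →
  α ≤ β → M0 ≤ M1 →
    ∑ m ∈ Ioc ⌊M1⌋₊ ⌊Mp⌋₊, G m * om P α β m ≤
      (1 + η) * (1 + ε) * (β - α) / Real.log M1 * ∑ m ∈ Icc 1 ⌊Mp⌋₊, G m / m

def S_Eul : Prop := ∃ u1 : ℕ, ∀ u : ℕ, u1 ≤ u →
  (∀ (L : ℝ) (v : ℕ) (E : ℤ) (m p a : ℕ), p.Prime →
    GM u L v E (m * p ^ a) ≤ (1 + 1 / 100) * GM u L v E m) ∧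
  ∃ L0 : ℝ, ∀ (L Mp : ℝ) (v : ℕ) (E : ℤ), L0 ≤ L → 1 ≤ v → (v : ℝ) ≤ L ^ (3 / 5 : ℝ) →
    IsCoprime E (v : ℤ) → Mp ≤ L ^ (21 / 20 : ℝ) →
      (Nat.totient v : ℝ)⁻¹ * VE u L E * ∑ m ∈ Icc 1 ⌊Mp⌋₊, GM u L v E m / m ≤
        8 / 5 / (v * V0 u)

def S_CaseB : Prop := ∃ u1 : ℕ, ∀ u : ℕ, u1 ≤ u → ∀ th B : ℝ, ∃ Λ0 : ℝ,
  ∀ (t1 A : ℕ) (Λ L P2 T : ℝ) (W2 : Finset ℕ) (a v : ℤ), Λ0 ≤ Λ → Cx th B Λ L P2 t1 W2 →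
    Len L T t1 W2 → IsCoprime a v → 1 ≤ v → (v : ℝ) ≤ L ^ (20 * th) →
    |(a : ℝ)| ≤ v * T * L ^ (20 * th) →
    ∑ p1 ∈ PR t1 t1, ∑ p2 ∈ W2, cx u L A T a v (p1 * p2) ≤
      19 / 10 * cs u L * ∑ p1 ∈ PR t1 t1, ∑ p2 ∈ W2, T / ((p1 * p2 : ℕ) : ℝ)

def S_KP : Prop := ∃ u1 : ℕ, ∀ u : ℕ, u1 ≤ u → ∃ δ th : ℝ, 0 < δ ∧ δ ≤ 1 ∧ 0 < th ∧ th ≤ 1 / 1000 ∧
  ∀ B : ℝ, ∃ Λ0 : ℝ, ∀ (t1 M A : ℕ) (Λ L P2 T R : ℝ) (W2 E1 E2 : Finset ℕ), Λ0 ≤ Λ →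
    Cx th B Λ L P2 t1 W2 → Sx u B Λ L T R t1 M W2 E1 E2 →
    ∑ p1 ∈ PR t1 t1, ∑ p2 ∈ W2, ∑ e1 ∈ E1, ∑ e2 ∈ E2,
        cnt u L (A / (p1 * p2 * (e1 * e2))) (T / ((p1 * p2 * (e1 * e2) : ℕ) : ℝ)) ≤
      (2 - δ) * cs u L * ∑ p1 ∈ PR t1 t1, ∑ p2 ∈ W2, ∑ e1 ∈ E1, ∑ e2 ∈ E2,
        T / ((p1 * p2 * (e1 * e2) : ℕ) : ℝ)

end Pool.Agent.P.MP_26a8c3_nt.EC
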