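import Pool.Agent.P.MP_26a8c3_nt.EC.Base
import Pool.Agent.P.MP_0ad054_nt.An.All

/-! Primes of one logarithmic window in a residue class and in an interval. -/

namespace Pool.Agent.P.MP_26a8c3_nt.EC

open Finset
open scoped Classical
open scoped ArithmeticFunction.vonMangoldt

namespace PAP

/-- The logarithm on the primes with a property. -/
noncomputable def lg (s : ℕ → Prop) (n : ℕ) : ℝ := if n.Prime ∧ s n then Real.log n else 0

lemma Icc_eq (X : ℕ) : Icc 1 X = Ioc 0 X := by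
  ext n
  simp only [mem_Icc, mem_Ioc]
  omega

lemma th_close (s : ℕ → Prop) {X : ℕ} (hX : 1 ≤ X) :
    |∑ n ∈ (Icc 1 X).filter s, Λ n - ∑ n ∈ Ioc 0 X, lg s n| ≤
      2 * Real.sqrt X * Real.log X := by
  have h1 := Chebyshev.psi_sub_theta_le (x := (X : ℝ)) (by exact_mod_cast hX)
  rw [Chebyshev.psi_sub_theta_eq_sum_not_prime, Nat.floor_natCast, sum_filter] at h1
  rw [Icc_eq, sum_filter, ← sum_sub_distrib]
  refine (abs_sum_le_sum_abs _ _).trans (le_trans (sum_le_sum fun n _ => ?_) h1)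
  have h0 : 0 ≤ Λ n := ArithmeticFunction.vonMangoldt_nonneg
  unfold lg
  by_cases hp : n.Prime <;> by_cases hs : s n
  · simp [hp, hs, ArithmeticFunction.vonMangoldt_apply_prime hp]
  · simp [hp, hs]
  · simp [hp, hs, abs_of_nonneg h0]
  · simp [hp, hs, h0]

lemma abel (w f : ℕ → ℝ) (D : ℝ) (M : ℕ) (hf : ∀ n, M < n → f (n + 1) ≤ f n) :
    ∀ N, M ≤ N → (∀ k, M ≤ k → k ≤ N → |∑ n ∈ Ioc M k, w n| ≤ D) →
      |∑ n ∈ Ioc M N, w n * f n - f (N + 1) * ∑ n ∈ Ioc M N, w n| ≤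
        D * (f (M + 1) - f (N + 1)) := by
  intro N hN
  induction N, hN using Nat.le_induction with
  | base => simp
  | succ N hN ih =>
    intro hD
    have h1 := ih fun k a b => hD k a (by omega)
    have h2 := hD (N + 1) (by omega) le_rfl
    have h3 := hf (N + 1) (by omega)
    rw [sum_Ioc_succ_top hN] at h2
    rw [sum_Ioc_succ_top hN, sum_Ioc_succ_top hN]
    set S := ∑ n ∈ Ioc M N, w n * f n
    set W := ∑ n ∈ Ioc M N, w n
    have e : S + w (N + 1) * f (N + 1) - f (N + 1 + 1) * (W + w (N + 1)) =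
        (S - f (N + 1) * W) + (f (N + 1) - f (N + 1 + 1)) * (W + w (N + 1)) := by ring
    rw [e]
    refine (abs_add_le _ _).trans ?_
    rw [abs_mul, abs_of_nonneg (sub_nonneg.2 h3)]
    have := mul_le_mul_of_nonneg_left h2 (sub_nonneg.2 h3)
    nlinarith

lemma abel' (w f : ℕ → ℝ) (D : ℝ) {M N : ℕ} (hf : ∀ n, M < n → f (n + 1) ≤ f n)
    (h0 : 0 ≤ f (N + 1)) (hN : M ≤ N) (hD : ∀ k, M ≤ k → k ≤ N → |∑ n ∈ Ioc M k, w n| ≤ D) :
    |∑ n ∈ Ioc M N, w n * f n| ≤ D * f (M + 1) := by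
  have h1 := abel w f D M hf N hN hD
  have h2 := mul_le_mul_of_nonneg_left (hD N hN le_rfl) h0
  have h3 := abs_add_le (∑ n ∈ Ioc M N, w n * f n - f (N + 1) * ∑ n ∈ Ioc M N, w n)
    (f (N + 1) * ∑ n ∈ Ioc M N, w n)
  rw [sub_add_cancel, abs_mul, abs_of_nonneg h0] at h3
  nlinarith

lemma pw (k : ℕ) : ∃ t0 : ℕ, ∀ t : ℝ, t0 ≤ t → t ^ k ≤ Real.exp (t / 8) := by
  refine ⟨8 ^ (k + 1) * (k + 1).factorial, fun t ht => ?_⟩
  have hf : (0 : ℝ) < (k + 1).factorial := by exact_mod_cast Nat.factorial_pos _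
  push_cast at ht
  have h0 : 0 < t := lt_of_lt_of_le (by positivity) ht
  refine le_trans ?_ (Real.pow_div_factorial_le_exp (t / 8) (by positivity) (k + 1))
  rw [le_div_iff₀ hf, div_pow, le_div_iff₀ (by positivity), pow_succ t k, mul_assoc]
  exact mul_le_mul_of_nonneg_left (by linarith) (by positivity)

lemma win (P α β : ℝ) (hP : 0 < P) (x : ℝ) :
    (P < x ∧ x ≤ Real.exp 1 * P) ∧ α < x ∧ x ≤ β ↔ cl P α < x ∧ x ≤ cl P β := by
  have he : P ≤ Real.exp 1 * P := le_mul_of_one_le_left hP.le (Real.one_le_exp zero_le_one)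
  unfold cl
  rw [min_lt_iff, max_lt_iff, le_min_iff, le_max_iff]
  constructor
  · rintro ⟨⟨a, b⟩, c, d⟩
    exact ⟨Or.inr ⟨a, c⟩, b, Or.inr d⟩
  · rintro ⟨a | ⟨a, c⟩, b, d | d⟩
    · linarith
    · linarith
    · linarith
    · exact ⟨⟨a, b⟩, c, d⟩

lemma mem_win {t p : ℕ} (ht : 1 ≤ t) :
    p ∈ PR t t ↔ p.Prime ∧ Real.exp (t - 1) < p ∧ (p : ℝ) ≤ Real.exp 1 * Real.exp (t - 1) := by
  rw [mem_PR, ← Real.exp_add, add_sub_cancel]
  refine and_congr_right fun hp => ?_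
  have h0 : (0 : ℝ) < p := by exact_mod_cast hp.pos
  rw [tau_le_iff, Real.log_le_iff_le_exp h0, ← Real.lt_log_iff_exp_lt h0]
  refine and_congr_left fun _ => ?_
  obtain ⟨s, rfl⟩ : ∃ s, t = s + 1 := ⟨t - 1, by omega⟩
  rw [Nat.succ_le_iff, tau, Nat.lt_ceil]
  push_cast
  rw [add_sub_cancel_right]

lemma set_eq {t : ℕ} (ht : 1 ≤ t) (α β : ℝ) (s : ℕ → Prop) [DecidablePred s] :
    ((PR t t).filter fun p : ℕ => α < p ∧ (p : ℝ) ≤ β ∧ s p) =
      (Ioc ⌊cl (Real.exp (t - 1)) α⌋₊ ⌊cl (Real.exp (t - 1)) β⌋₊).filter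
        fun p => p.Prime ∧ s p := by
  have hP := Real.exp_pos ((t : ℝ) - 1)
  have h0 : ∀ y, 0 ≤ cl (Real.exp (t - 1)) y := fun y =>
    le_min (by positivity) (hP.le.trans (le_max_left _ _))
  ext p
  rw [mem_filter, mem_filter, mem_win ht, mem_Ioc, Nat.floor_lt (h0 _), Nat.le_floor_iff (h0 _),
    ← win _ α β hP]
  tauto

lemma card_eq (s : ℕ → Prop) [DecidablePred s] (M N : ℕ) :
    (((Ioc M N).filter fun p => p.Prime ∧ s p).card : ℝ) =
      ∑ n ∈ Ioc M N, lg s n * (Real.log n)⁻¹ := by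
  rw [card_filter, Nat.cast_sum]
  refine sum_congr rfl fun n _ => ?_
  unfold lg
  by_cases h : n.Prime ∧ s n
  · have : Real.log n ≠ 0 := (Real.log_pos (by exact_mod_cast h.1.one_lt)).ne'
    simp [h, this]
  · simp [h]

/-- The two classical estimates on one window. -/
lemma est (A B : ℕ) : ∃ (C : ℝ) (t0 : ℕ), 1 ≤ C ∧ 4 ≤ t0 ∧ ∀ (t q : ℕ) (c : ℤ), t0 ≤ t → 1 ≤ q →
    q ≤ t ^ B → IsCoprime c (q : ℤ) → 1 ≤ Real.exp t / (t : ℝ) ^ A ∧
    ∀ X : ℕ, Real.exp (t - 1) < X + 1 → (X : ℝ) ≤ Real.exp t →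
      |∑ n ∈ Ioc 0 X, lg (fun n => (q : ℤ) ∣ n - c) n - (X : ℝ) / q.totient| ≤
        C * (Real.exp t / (t : ℝ) ^ A) ∧
      |∑ n ∈ Ioc 0 X, lg (fun _ => True) n - (X : ℝ)| ≤ C * (Real.exp t / (t : ℝ) ^ A) := by
  obtain ⟨C1, hC1, h1⟩ := MP_0ad054_nt.An.bv_all (1 / 4) A (by norm_num)
  obtain ⟨C2, hC2, h2⟩ := MP_0ad054_nt.An.pnt_all A
  obtain ⟨ta, ha⟩ := pw B
  obtain ⟨tb, hb⟩ := pw (A + 2)
  have h2A : (0 : ℝ) < 2 ^ A := by positivity
  refine ⟨(C1 + C2) * 2 ^ A + 1, max 4 (max ta tb), by nlinarith, le_max_left _ _,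
    fun t q c ht hq hqB hc => ?_⟩
  have t4 : (4 : ℝ) ≤ t := by exact_mod_cast (le_max_left _ _).trans ht
  have tA : (0 : ℝ) < (t : ℝ) ^ A := by positivity
  have ha' := ha t (by exact_mod_cast ((le_max_left _ _).trans (le_max_right _ _)).trans ht)
  have hb' := hb t (by exact_mod_cast ((le_max_right _ _).trans (le_max_right _ _)).trans ht)
  have hh : Real.exp (t / 8) ≤ Real.exp (t / 2) := Real.exp_le_exp.2 (by linarith)
  have h1h : 1 ≤ Real.exp ((t : ℝ) / 2) := Real.one_le_exp (by linarith)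
  have hsq : Real.exp (t : ℝ) = Real.exp (t / 2) * Real.exp (t / 2) := by
    rw [← Real.exp_add, add_halves]
  have hR : 2 * Real.exp (t / 2) * t ≤ Real.exp t / (t : ℝ) ^ A := by
    rw [le_div_iff₀ tA, hsq]
    have : 2 * (t : ℝ) * t ^ A ≤ Real.exp (t / 2) := by
      refine le_trans ?_ (hb'.trans hh)
      rw [pow_add]
      nlinarith [mul_pos tA (show (0 : ℝ) < t by linarith)]
    nlinarith
  refine ⟨by nlinarith, fun X hX1 hX2 => ?_⟩
  set R := Real.exp t / (t : ℝ) ^ A with hRd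
  have R0 : 0 ≤ R := by positivity
  have hlow : Real.exp (t - 2) ≤ X := by
    have e1 : Real.exp ((t : ℝ) - 1) = Real.exp (t - 2) * Real.exp 1 := by
      rw [← Real.exp_add]; ring_nf
    have e2 : 1 ≤ Real.exp ((t : ℝ) - 2) := Real.one_le_exp (by linarith)
    have e3 := Real.add_one_le_exp (1 : ℝ)
    nlinarith
  have hX3 : (3 : ℝ) ≤ X := by
    have := Real.add_one_le_exp ((t : ℝ) - 2)
    linarith
  have hX0 : (0 : ℝ) < X := by linarith
  have hX2n : 2 ≤ X := by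
    have : (2 : ℝ) ≤ X := by linarith
    exact_mod_cast this
  have hl1 : (t : ℝ) - 2 ≤ Real.log X := (Real.le_log_iff_exp_le hX0).2 hlow
  have hl2 : Real.log X ≤ t := (Real.log_le_iff_le_exp hX0).2 hX2
  have hmain : (X : ℝ) / Real.log X ^ A ≤ 2 ^ A * R := by
    have e : 2 ^ A * R = Real.exp t / ((t : ℝ) / 2) ^ A := by
      rw [hRd, div_pow]; field_simp
    rw [e]
    exact div_le_div₀ (Real.exp_pos _).le hX2 (by positivity)
      (pow_le_pow_left₀ (by positivity) (by linarith) A)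
  have hpp : 2 * Real.sqrt X * Real.log X ≤ R := by
    refine le_trans ?_ hR
    have : Real.sqrt X ≤ Real.exp (t / 2) :=
      Real.sqrt_le_iff.2 ⟨by positivity, by rw [sq, ← hsq]; exact hX2⟩
    exact mul_le_mul (by linarith) hl2 (by linarith) (by positivity)
  have hqX : (q : ℝ) ≤ (X : ℝ) ^ (1 / 4 : ℝ) := by
    have e1 : (q : ℝ) ≤ (t : ℝ) ^ B := by exact_mod_cast hqB
    refine (e1.trans ha').trans ?_
    rw [Real.rpow_def_of_pos hX0]
    exact Real.exp_le_exp.2 (by linarith)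
  have b1 := h1 X q (fun k => if k = q then c else 1) hX2n hqX fun k _ => by
    by_cases hk : k = q
    · simp only [if_pos hk]; rw [hk]; exact hc
    · simp only [if_neg hk]; exact isCoprime_one_left
  have b1' := (single_le_sum (f := fun k : ℕ =>
    |∑ n ∈ (Icc 1 X).filter (fun n : ℕ => (k : ℤ) ∣ n - (if k = q then c else 1)), Λ n -
      (X : ℝ) / k.totient|) (fun k _ => abs_nonneg _) (mem_Icc.2 ⟨hq, le_rfl⟩)).trans b1
  simp only [if_true] at b1'
  have b2 := h2 X hX2n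
  have c1 := th_close (fun n => (q : ℤ) ∣ n - c) (X := X) (by omega)
  have c2 := th_close (fun _ => True) (X := X) (by omega)
  rw [filter_true] at c2
  have c1' : |∑ n ∈ (Icc 1 X).filter (fun n : ℕ => (q : ℤ) ∣ n - c), Λ n -
      ∑ n ∈ Ioc 0 X, lg (fun n => (q : ℤ) ∣ n - c) n| ≤ 2 * Real.sqrt X * Real.log X := by
    convert c1
  rw [mul_div_assoc] at b1' b2
  have m1 := mul_le_mul_of_nonneg_left hmain hC1.le
  have m2 := mul_le_mul_of_nonneg_left hmain hC2.le
  have p1 : 0 ≤ C1 * (2 ^ A * R) := by positivity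
  have p2 : 0 ≤ C2 * (2 ^ A * R) := by positivity
  rw [abs_le] at b1' b2 c1' c2
  constructor <;> rw [abs_le] <;> constructor <;> nlinarith [b1'.1, b1'.2, b2.1, b2.2, c1'.1,
    c1'.2, c2.1, c2.2]

end PAP

open PAP in
theorem pPAP : S_PAP := by
  intro A B
  obtain ⟨C, t0, hC, ht0, h⟩ := est A B
  have hT : (0 : ℝ) ≤ (t0 : ℝ) ^ A := by positivity
  refine ⟨4 * C + (t0 : ℝ) ^ A, by linarith, fun t q c α β ht hq hqB hc hab => ?_⟩
  have t2 : (2 : ℝ) ≤ t := by exact_mod_cast ht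
  have tA : (0 : ℝ) < (t : ℝ) ^ A := by positivity
  have e1 := set_eq (t := t) (by omega) α β (fun p => (q : ℤ) ∣ p - c)
  have e2 : ((PR t t).filter fun p : ℕ => α < p ∧ (p : ℝ) ≤ β) =
      (Ioc ⌊cl (Real.exp (t - 1)) α⌋₊ ⌊cl (Real.exp (t - 1)) β⌋₊).filter
        fun p => p.Prime ∧ True := by
    rw [← set_eq (t := t) (by omega) α β (fun _ => True)]
    simp only [and_true]
  rw [e1, e2, om, div_one, div_one, mul_div_assoc]
  have hP := Real.exp_pos ((t : ℝ) - 1)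
  have heP : Real.exp 1 * Real.exp ((t : ℝ) - 1) = Real.exp t := by
    rw [← Real.exp_add, add_sub_cancel]
  set a := cl (Real.exp (t - 1)) α with ha
  set b := cl (Real.exp (t - 1)) β with hb
  have hab' : a ≤ b := min_le_min le_rfl (max_le_max le_rfl hab)
  have hPa : Real.exp ((t : ℝ) - 1) ≤ a :=
    le_min (le_mul_of_one_le_left hP.le (Real.one_le_exp zero_le_one)) (le_max_left _ _)
  have hbe : b ≤ Real.exp t := heP ▸ min_le_left _ _
  set M := ⌊a⌋₊ with hM
  set N := ⌊b⌋₊ with hN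
  have hMN : M ≤ N := Nat.floor_mono hab'
  have hNb : (N : ℝ) ≤ b := Nat.floor_le (by linarith)
  have hMa : a < M + 1 := Nat.lt_floor_add_one a
  have hφ : (1 : ℝ) ≤ q.totient := by exact_mod_cast Nat.totient_pos.2 hq
  set R := Real.exp t / (t : ℝ) ^ A with hR
  have R0 : 0 ≤ R := by positivity
  have hom : 0 ≤ (b - a) / ((t : ℝ) - 1) := div_nonneg (by linarith) (by linarith)
  have CR : 0 ≤ C * R := by positivity
  have TR : 0 ≤ (t0 : ℝ) ^ A * R := by positivity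
  by_cases hs : t0 ≤ t
  · obtain ⟨R1, hE⟩ := h t q c hs hq hqB hc
    have hE' : ∀ k, M ≤ k → k ≤ N →
        |∑ n ∈ Ioc 0 k, lg (fun n => (q : ℤ) ∣ n - c) n - (k : ℝ) / q.totient| ≤ C * R ∧
        |∑ n ∈ Ioc 0 k, lg (fun _ => True) n - (k : ℝ)| ≤ C * R := fun k h1 h2 => by
      have h1' : (M : ℝ) ≤ k := by exact_mod_cast h1
      have h2' : (k : ℝ) ≤ N := by exact_mod_cast h2
      exact hE k (by linarith) (by linarith)
    have hlog : ∀ n : ℕ, M < n → (t : ℝ) - 1 ≤ Real.log n := fun n hn => by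
      have h1 : (M : ℝ) + 1 ≤ n := by exact_mod_cast hn
      exact (Real.le_log_iff_exp_le (by linarith)).2 (by linarith)
    have hsub : ∀ (s : ℕ → Prop) k, M ≤ k → ∑ n ∈ Ioc M k, lg s n =
        ∑ n ∈ Ioc 0 k, lg s n - ∑ n ∈ Ioc 0 M, lg s n := fun s k hk => by
      rw [← sum_Ioc_consecutive _ (Nat.zero_le M) hk]
      ring
    constructor
    · rw [card_eq, card_eq, sum_div, ← sum_sub_distrib]
      have hW : ∀ k, M ≤ k → k ≤ N →
          |∑ n ∈ Ioc 0 k, lg (fun n => (q : ℤ) ∣ n - c) n -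
            (∑ n ∈ Ioc 0 k, lg (fun _ => True) n) / q.totient| ≤ 2 * (C * R) := fun k h1 h2 => by
        obtain ⟨u1, u2⟩ := hE' k h1 h2
        have u3 : |(∑ n ∈ Ioc 0 k, lg (fun _ => True) n) / q.totient - (k : ℝ) / q.totient| ≤
            C * R := by
          rw [← sub_div, abs_div, abs_of_pos (show (0 : ℝ) < q.totient by linarith)]
          exact (div_le_self (abs_nonneg _) hφ).trans u2
        rw [abs_le] at u1 u3 ⊢
        constructor <;> linarith [u1.1, u1.2, u3.1, u3.2]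
      have key := abel' (fun n => lg (fun n => (q : ℤ) ∣ n - c) n - lg (fun _ => True) n / q.totient)
        (fun n => (Real.log n)⁻¹) (4 * (C * R)) (M := M) (N := N)
        (fun n hn => inv_anti₀ (by linarith [hlog n hn]) (log_nat_mono (Nat.le_succ n)))
        (inv_nonneg.2 (Real.log_natCast_nonneg _)) hMN fun k h1 h2 => by
          rw [sum_sub_distrib, ← sum_div, hsub _ k h1, hsub _ k h1, sub_div]
          have u1 := hW k h1 h2
          have u2 := hW M le_rfl hMN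
          rw [abs_le] at u1 u2 ⊢
          constructor <;> linarith [u1.1, u1.2, u2.1, u2.2]
      have hf1 : (Real.log ((M + 1 : ℕ) : ℝ))⁻¹ ≤ 1 :=
        inv_le_one_of_one_le₀ (by linarith [hlog (M + 1) (Nat.lt_succ_self M)])
      have hk2 := mul_le_mul_of_nonneg_left hf1 (show 0 ≤ 4 * (C * R) by linarith)
      rw [sum_congr rfl fun n _ => show lg (fun n => (q : ℤ) ∣ n - c) n * (Real.log n)⁻¹ -
        lg (fun _ => True) n * (Real.log n)⁻¹ / q.totient =
        (lg (fun n => (q : ℤ) ∣ n - c) n - lg (fun _ => True) n / q.totient) * (Real.log n)⁻¹ by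
          ring]
      nlinarith
    · rw [card_eq]
      have h1 : ∑ n ∈ Ioc M N, lg (fun _ => True) n * (Real.log n)⁻¹ ≤
          (∑ n ∈ Ioc M N, lg (fun _ => True) n) / ((t : ℝ) - 1) := by
        rw [sum_div]
        refine sum_le_sum fun n hn => ?_
        rw [div_eq_mul_inv]
        refine mul_le_mul_of_nonneg_left
          (inv_anti₀ (by linarith) (hlog n (mem_Ioc.1 hn).1)) ?_
        unfold lg
        split_ifs
        · exact Real.log_natCast_nonneg n
        · exact le_rfl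
      have h2 : ∑ n ∈ Ioc M N, lg (fun _ => True) n ≤ (b - a) + 3 * (C * R) := by
        rw [hsub _ N hMN]
        have u1 := (abs_le.1 (hE' N hMN le_rfl).2).2
        have u2 := (abs_le.1 (hE' M le_rfl hMN).2).1
        nlinarith
      have h3 : (∑ n ∈ Ioc M N, lg (fun _ => True) n) / ((t : ℝ) - 1) ≤
          (b - a) / ((t : ℝ) - 1) + 3 * (C * R) := by
        refine (div_le_div_of_nonneg_right h2 (by linarith)).trans ?_
        rw [add_div]
        have := div_le_self (show 0 ≤ 3 * (C * R) by linarith) (show (1 : ℝ) ≤ t - 1 by linarith)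
        linarith
      nlinarith
  · have hcard : ∀ (s : ℕ → Prop) [DecidablePred s],
        (((Ioc M N).filter fun p => p.Prime ∧ s p).card : ℝ) ≤ (t0 : ℝ) ^ A * R := by
      intro s _
      have h1 : ((Ioc M N).filter fun p => p.Prime ∧ s p).card ≤ N :=
        (card_filter_le _ _).trans (by rw [Nat.card_Ioc]; omega)
      have h2 : (((Ioc M N).filter fun p => p.Prime ∧ s p).card : ℝ) ≤ N := by exact_mod_cast h1
      have h3 : Real.exp t = (t : ℝ) ^ A * R := by rw [hR]; field_simp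
      have h4 : (t : ℝ) ^ A ≤ (t0 : ℝ) ^ A :=
        pow_le_pow_left₀ (by linarith) (by exact_mod_cast (not_le.1 hs).le) A
      nlinarith [mul_le_mul_of_nonneg_right h4 R0]
    have u1 := hcard (fun p => (q : ℤ) ∣ p - c)
    have u2 := hcard (fun _ => True)
    refine ⟨?_, by nlinarith⟩
    have v2 : (0 : ℝ) ≤ (((Ioc M N).filter fun p => p.Prime ∧ True).card : ℝ) := Nat.cast_nonneg _
    have v3 := div_le_self v2 hφ
    have v4 := div_nonneg v2 (show (0 : ℝ) ≤ q.totient by linarith)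
    have v1 : (0 : ℝ) ≤ (((Ioc M N).filter fun p : ℕ => p.Prime ∧ (q : ℤ) ∣ p - c).card : ℝ) :=
      Nat.cast_nonneg _
    rw [abs_le]
    constructor <;> nlinarith

end Pool.Agent.P.MP_26a8c3_nt.EC
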