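import Pool.Agent.P.MP_26a8c3_nt.EC.Base
import Pool.Agent.P.MP_0ad054_nt.An.All

/-! The sum of the reciprocals of the primes of one window. -/

namespace Pool.Agent.P.MP_26a8c3_nt.EC

open Finset
open scoped Classical

namespace Pi

lemma theta_near : ∃ K : ℝ, 0 < K ∧ ∀ t : ℝ, 4 ≤ t → ∀ x : ℝ, Real.exp (t - 1) ≤ x →
    x ≤ Real.exp t → |Chebyshev.theta x - x| ≤ K * x / t ^ 2 := by
  obtain ⟨C, hC, h⟩ := Pool.Agent.P.MP_0ad054_nt.An.pnt_all 2
  refine ⟨4 * C + 1200, by positivity, fun t ht x h1 h2 => ?_⟩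
  have hx4 : 4 ≤ x := by linarith [Real.add_one_le_exp (t - 1)]
  have hX1 : (⌊x⌋₊ : ℝ) ≤ x := Nat.floor_le (by linarith)
  have hX2 : x < ⌊x⌋₊ + 1 := Nat.lt_floor_add_one x
  have hX : 2 ≤ ⌊x⌋₊ := Nat.le_floor (by push_cast; linarith)
  have hlog : t / 2 ≤ Real.log ⌊x⌋₊ := by
    rw [Real.le_log_iff_exp_le (by linarith)]
    have h3 : Real.exp (t - 1) = Real.exp (t / 2) * Real.exp (t / 2 - 1) := by
      rw [← Real.exp_add]; congr 1; ring
    have h4 := Real.add_one_le_exp (t / 2 - 1)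
    have h5 := Real.exp_pos (t / 2)
    nlinarith
  have e1 : |Chebyshev.psi x - ⌊x⌋₊| ≤ 4 * C * x / t ^ 2 := by
    have h3 := h _ hX
    have e : Icc 1 ⌊x⌋₊ = Ioc 0 ⌊x⌋₊ := rfl
    rw [e] at h3
    refine h3.trans ?_
    have h4 : (t / 2) ^ 2 ≤ Real.log ⌊x⌋₊ ^ 2 := pow_le_pow_left₀ (by linarith) hlog 2
    calc C * ⌊x⌋₊ / Real.log ⌊x⌋₊ ^ 2 ≤ C * x / (t / 2) ^ 2 := by gcongr
      _ = _ := by field_simp; ring
  have e2 := Chebyshev.abs_psi_sub_theta_le_sqrt_mul_log (x := x) (by linarith)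
  have hlx : Real.log x ≤ t := (Real.log_le_iff_le_exp (by linarith)).2 h2
  have hs : t ^ 3 ≤ 384 * √x := by
    have h3 : Real.exp ((t - 1) / 2) ≤ √x := by
      refine Real.le_sqrt_of_sq_le ?_
      rwa [← Real.exp_nat_mul, show ((2 : ℕ) : ℝ) * ((t - 1) / 2) = t - 1 by push_cast; ring]
    have h4 := Real.pow_div_factorial_le_exp ((t - 1) / 2) (by linarith) 3
    have h5 : (t / 4) ^ 3 ≤ ((t - 1) / 2) ^ 3 := pow_le_pow_left₀ (by linarith) (by linarith) 3
    norm_num [Nat.factorial] at h4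
    linarith
  have hs1 : 1 ≤ √x := Real.le_sqrt_of_sq_le (by linarith)
  have hs2 : √x * √x = x := Real.mul_self_sqrt (by linarith)
  have e3 : 2 * √x * Real.log x + 1 ≤ 1200 * x / t ^ 2 := by
    rw [le_div_iff₀ (by positivity)]
    have h3 : 2 * √x * Real.log x + 1 ≤ 3 * √x * t := by nlinarith
    have h4 := mul_le_mul_of_nonneg_right h3 (sq_nonneg t)
    have h5 := mul_le_mul_of_nonneg_left hs (show 0 ≤ 3 * √x by positivity)
    nlinarith
  rw [abs_le] at e1 e2 ⊢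
  rw [add_mul, add_div]
  constructor <;> linarith [e1.1, e1.2, e2.1, e2.2]

lemma diff (g : ℕ → ℝ) {a b : ℝ} (h : a ≤ b) :
    ∑ p ∈ Ioc 0 ⌊b⌋₊ with p.Prime, g p - ∑ p ∈ Ioc 0 ⌊a⌋₊ with p.Prime, g p
      = ∑ p ∈ Ioc ⌊a⌋₊ ⌊b⌋₊ with p.Prime, g p := by
  simp only [sum_filter]
  rw [← sum_Ioc_consecutive _ (Nat.zero_le _) (Nat.floor_mono h), add_sub_cancel_left]

/-- The sum in the first theorem of Mertens. -/
noncomputable def F (x : ℝ) : ℝ := ∑ p ∈ Ioc 0 ⌊x⌋₊ with p.Prime, Real.log p / p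

lemma piece {a b : ℝ} (ha : 0 < a) (h : a ≤ b) :
    (Chebyshev.theta b - Chebyshev.theta a) / b ≤ F b - F a ∧
      F b - F a ≤ (Chebyshev.theta b - Chebyshev.theta a) / a := by
  unfold F Chebyshev.theta
  rw [diff _ h, diff _ h, sum_div, sum_div]
  constructor <;> refine sum_le_sum fun p hp => ?_
  all_goals
    obtain ⟨h1, h2⟩ := mem_Ioc.1 (mem_filter.1 hp).1
    have h3 : a < p := (Nat.floor_lt ha.le).1 h1
    have h4 : (p : ℝ) ≤ b := (Nat.le_floor_iff (by linarith)).1 h2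
    have h5 := Real.log_natCast_nonneg p
    exact div_le_div_of_nonneg_left h5 (by linarith) (by linarith)

lemma step {K t a : ℝ} (hK : 0 < K) (ht : 4 ≤ t) (ha : 0 < a)
    (h1 : |Chebyshev.theta a - a| ≤ K * a / t ^ 2)
    (h2 : |Chebyshev.theta (a * Real.exp (1 / t)) - a * Real.exp (1 / t)|
      ≤ K * (a * Real.exp (1 / t)) / t ^ 2) :
    |F (a * Real.exp (1 / t)) - F a - 1 / t| ≤ (1 + 4 * K) / t ^ 2 := by
  have hy0 : 0 < 1 / t := by positivity
  have hy1 : 1 / t ≤ 1 := (div_le_one (by linarith)).2 (by linarith)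
  have e0 : ∀ z : ℝ, z / t ^ 2 = z * (1 / t) ^ 2 := fun z => by ring
  rw [e0] at h1 h2 ⊢
  generalize 1 / t = y at *
  have q1 := abs_le.1 (Real.abs_exp_sub_one_sub_id_le (x := y) (by rw [abs_of_pos hy0]; exact hy1))
  have q2 := abs_le.1 (Real.abs_exp_sub_one_sub_id_le (x := -y)
    (by rw [abs_neg, abs_of_pos hy0]; exact hy1))
  have q3 : Real.exp (-y) * Real.exp y = 1 := by rw [← Real.exp_add]; simp
  have q4 : 1 ≤ Real.exp y := Real.one_le_exp hy0.le
  have q5 : Real.exp y ≤ 3 := by nlinarith [q1.2]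
  set q := Real.exp y
  obtain ⟨p1, p2⟩ := piece ha (le_mul_of_one_le_right ha.le q4)
  rw [div_le_iff₀ (by positivity)] at p1
  rw [le_div_iff₀ ha] at p2
  rw [abs_le] at h1 h2 ⊢
  have hKy : 0 < K * y ^ 2 := by positivity
  constructor
  · have h3 : (1 - Real.exp (-y) - 2 * (K * y ^ 2)) * (a * q) ≤ (F (a * q) - F a) * (a * q) := by
      have := mul_le_mul_of_nonneg_left q4 (mul_pos hKy ha).le
      have h4 : Real.exp (-y) * (a * q) = a := by rw [mul_left_comm, q3, mul_one]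
      nlinarith [h1.2, h2.1]
    have := le_of_mul_le_mul_right h3 (by positivity)
    nlinarith [q2.2]
  · have h3 : (F (a * q) - F a) * a ≤ (q - 1 + 4 * (K * y ^ 2)) * a := by
      have := mul_le_mul_of_nonneg_left q5 (mul_pos hKy ha).le
      nlinarith [h1.1, h2.2]
    have := le_of_mul_le_mul_right h3 ha
    nlinarith [q1.2]

lemma window : ∃ K : ℝ, 0 < K ∧ ∀ t : ℕ, 4 ≤ t →
    |∑ p ∈ PR t t, Real.log p / p - 1| ≤ K / t := by
  obtain ⟨K, hK, h⟩ := theta_near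
  refine ⟨1 + 4 * K, by positivity, fun t ht => ?_⟩
  have ht' : (4 : ℝ) ≤ t := by exact_mod_cast ht
  have ht0 : (0 : ℝ) < t := by linarith
  let x : ℕ → ℝ := fun j => Real.exp (t - 1 + j / t)
  have hx : ∀ j ≤ t, |Chebyshev.theta (x j) - x j| ≤ K * x j / (t : ℝ) ^ 2 := fun j hj => by
    have h1 : (j : ℝ) / t ≤ 1 := (div_le_one ht0).2 (by exact_mod_cast hj)
    have h2 : (0 : ℝ) ≤ j / t := by positivity
    exact h t ht' _ (Real.exp_le_exp.2 (by linarith)) (Real.exp_le_exp.2 (by linarith))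
  have hs : ∀ j, x (j + 1) = x j * Real.exp (1 / t) := fun j => by
    simp only [x]
    rw [← Real.exp_add]
    congr 1
    push_cast
    ring
  have e1 : ∑ p ∈ PR t t, Real.log p / p = F (x t) - F (x 0) := by
    have h0 : x 0 = Real.exp (t - 1) := by simp [x]
    have h1 : x t = Real.exp t := by simp [x, ht0.ne']
    unfold F
    rw [h0, h1, diff _ (Real.exp_le_exp.2 (by linarith))]
    refine sum_congr ?_ fun _ _ => rfl
    ext p
    rw [mem_PR, mem_filter, mem_Ioc, Nat.floor_lt (Real.exp_pos _).le,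
      Nat.le_floor_iff (Real.exp_pos _).le]
    constructor
    · rintro ⟨h2, h3, h4⟩
      have h5 := exp_tau_lt h2.pos
      have h6 := le_exp_tau p
      rw [le_antisymm h4 h3] at h5 h6
      exact ⟨⟨h5, h6⟩, h2⟩
    · rintro ⟨⟨h3, h4⟩, h2⟩
      have hp : (0 : ℝ) < p := by exact_mod_cast h2.pos
      refine ⟨h2, ?_, tau_le_iff.2 ((Real.log_le_iff_le_exp hp).2 h4)⟩
      have h5 := (Real.lt_log_iff_exp_lt hp).2 h3
      have h6 : (t : ℝ) < tau p + 1 := by linarith [log_le_tau p]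
      exact Nat.lt_succ_iff.1 (by exact_mod_cast h6)
  have e2 : F (x t) - F (x 0) - 1 = ∑ j ∈ range t, (F (x (j + 1)) - F (x j) - 1 / t) := by
    rw [sum_sub_distrib, sum_range_sub fun j => F (x j)]
    simp [ht0.ne']
  rw [e1, e2]
  refine (abs_sum_le_sum_abs _ _).trans ((sum_le_sum (g := fun _ => (1 + 4 * K) / (t : ℝ) ^ 2)
    fun j hj => ?_).trans (le_of_eq ?_))
  · have hj' := mem_range.1 hj
    have h2 := hx (j + 1) hj'
    rw [hs] at h2 ⊢
    exact step hK ht' (Real.exp_pos _) (hx j hj'.le) h2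
  · rw [sum_const, card_range, nsmul_eq_mul]
    field_simp

end Pi

theorem pPi : S_Pi := by
  obtain ⟨K, hK, h⟩ := Pi.window
  have h0 := rc_nonneg (PR 0 3)
  refine ⟨3 * (3 * rc (PR 0 3) + 1) + (2 * K + 2), by positivity, fun t ht => ?_⟩
  have ht1 : (1 : ℝ) ≤ t := by exact_mod_cast ht
  have hr := rc_nonneg (PR t t)
  rw [le_div_iff₀ (by linarith)]
  rcases Nat.lt_or_ge t 4 with h4 | h4
  · have h3 : (t : ℝ) ≤ 3 := by exact_mod_cast Nat.lt_succ_iff.1 h4
    have h5 : rc (PR t t) ≤ rc (PR 0 3) := rc_mono (PR_mono (Nat.zero_le _) (by omega))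
    have h6 : |(t : ℝ) * rc (PR t t) - 1| ≤ 3 * rc (PR 0 3) + 1 := by
      rw [abs_le]
      constructor <;> nlinarith
    nlinarith [abs_nonneg ((t : ℝ) * rc (PR t t) - 1)]
  · have h3 : (4 : ℝ) ≤ t := by exact_mod_cast h4
    have h5 := h t h4
    rw [le_div_iff₀ (by linarith), ← abs_of_pos (show (0 : ℝ) < t by linarith), ← abs_mul,
      abs_le] at h5
    have hb : ∀ p ∈ PR t t, ((t : ℝ) - 1) * (p : ℝ)⁻¹ ≤ Real.log p / p ∧
        Real.log p / p ≤ t * (p : ℝ)⁻¹ := fun p hp => by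
      obtain ⟨-, a1, a2⟩ := mem_PR.1 hp
      have a3 := log_le_tau p
      have a4 := tau_lt p
      rw [le_antisymm a2 a1] at a3 a4
      rw [div_eq_mul_inv]
      exact ⟨mul_le_mul_of_nonneg_right (by linarith) (by positivity),
        mul_le_mul_of_nonneg_right a3 (by positivity)⟩
    have h6 := sum_le_sum fun p hp => (hb p hp).1
    have h7 := sum_le_sum fun p hp => (hb p hp).2
    rw [← mul_sum] at h6 h7
    change _ * rc (PR t t) ≤ _ at h6
    change _ ≤ _ * rc (PR t t) at h7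
    set S := ∑ p ∈ PR t t, Real.log p / p
    set r := rc (PR t t)
    have h8 : t * r ≤ 2 + K := by nlinarith [h5.2]
    have h9 : |(t * r - 1) * t| ≤ 2 * K + 2 := by
      rw [abs_le]
      constructor <;> nlinarith [h5.1, h5.2]
    rw [abs_mul, abs_of_pos (show (0 : ℝ) < t by linarith)] at h9
    linarith

end Pool.Agent.P.MP_26a8c3_nt.EC
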