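import Pool.Agent.P.MP_26a8c3_nt.EC.Base

/-! The plain Selberg bound for the sifted count in a short interval. -/

namespace Pool.Agent.P.MP_26a8c3_nt.EC

open Finset
open scoped Classical

namespace Triv

lemma mult_count (s n : ℕ) (D : ℕ) :
    |(((Ioc s (s + n)).filter fun m => D ∣ m).card : ℝ) - (n : ℝ) / D| ≤ 1 := by
  have h1 : ((Ioc 0 s).filter fun m => D ∣ m).card + ((Ioc s (s + n)).filter fun m => D ∣ m).card =
      ((Ioc 0 (s + n)).filter fun m => D ∣ m).card := by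
    rw [← card_union_of_disjoint, ← filter_union,
      Ioc_union_Ioc_eq_Ioc (Nat.zero_le s) (Nat.le_add_right s n)]
    exact disjoint_filter_filter (Ioc_disjoint_Ioc_of_le le_rfl)
  rw [Nat.Ioc_filter_dvd_card_eq_div, Nat.Ioc_filter_dvd_card_eq_div] at h1
  have h2 : ((s / D : ℕ) : ℝ) + (((Ioc s (s + n)).filter fun m => D ∣ m).card : ℝ) =
      (((s + n) / D : ℕ) : ℝ) := by exact_mod_cast h1
  have a1 : ((s / D : ℕ) : ℝ) ≤ (s : ℝ) / D := Nat.cast_div_le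
  have a2 : (((s + n) / D : ℕ) : ℝ) ≤ ((s + n : ℕ) : ℝ) / D := Nat.cast_div_le
  have b1 : (s : ℝ) / D < ((s / D : ℕ) : ℝ) + 1 := by
    rw [← Nat.floor_div_eq_div (K := ℝ)]
    exact Nat.lt_floor_add_one _
  have b2 : ((s + n : ℕ) : ℝ) / D < (((s + n) / D : ℕ) : ℝ) + 1 := by
    rw [← Nat.floor_div_eq_div (K := ℝ)]
    exact Nat.lt_floor_add_one _
  rw [Nat.cast_add, add_div] at a2 b2
  rw [abs_le]
  constructor <;> linarith

lemma two_pow_le {m : ℕ} (hm : m ≠ 0) : (2 : ℝ) ^ m.primeFactors.card ≤ m.divisors.card := by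
  rw [Nat.card_divisors hm, ← Finset.prod_const, Nat.cast_prod]
  refine Finset.prod_le_prod (fun _ _ => by norm_num) fun p hp => ?_
  have := (Nat.prime_of_mem_primeFactors hp).factorization_pos_of_dvd hm
    (Nat.dvd_of_mem_primeFactors hp)
  exact_mod_cast Nat.succ_le_succ this

/-- The sieve inequality with the trivial remainder. -/
lemma sieve (P : Finset ℕ) (hP : ∀ p ∈ P, p.Prime) (F : Finset (Finset ℕ)) (hF : ∀ U ∈ F, U ⊆ P)
    (h0 : ∅ ∈ F) (l : Finset ℕ → ℝ) (hl : l ∅ = 1) (s n : ℕ) :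
    (cop (pv P) s (s + n) : ℝ) ≤
      n * (∑ S ∈ F, ∑ T ∈ F, l S * l T / (pv (S ∪ T) : ℝ)) + (∑ S ∈ F, |l S|) ^ 2 := by
  have hpr : ∀ S ∈ F, ∀ p ∈ S, p.Prime := fun S hS p hp => hP p (hF S hS hp)
  have h1 : (cop (pv P) s (s + n) : ℝ) ≤
      ∑ m ∈ Ioc s (s + n), (∑ S ∈ F, if pv S ∣ m then l S else 0) ^ 2 := by
    rw [cop, card_filter, Nat.cast_sum]
    refine sum_le_sum fun m _ => ?_
    split_ifs with h
    · have : (∑ S ∈ F, if pv S ∣ m then l S else 0) = 1 := by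
        rw [sum_eq_single_of_mem ∅ h0]
        · simp [pv, hl]
        · intro S hS hne
          rw [if_neg]
          intro hd
          obtain ⟨p, hp⟩ := nonempty_iff_ne_empty.2 hne
          exact (coprime_pv hP m).1 h p (hF S hS hp) ((pv_dvd_iff (hpr S hS) m).1 hd p hp)
      rw [this]
      norm_num
    · simpa using sq_nonneg _
  have h2 : ∀ m : ℕ, (∑ S ∈ F, if pv S ∣ m then l S else 0) ^ 2 =
      ∑ S ∈ F, ∑ T ∈ F, l S * l T * (if pv (S ∪ T) ∣ m then 1 else 0) := by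
    intro m
    rw [sq, sum_mul_sum]
    refine sum_congr rfl fun S hS => sum_congr rfl fun T hT => ?_
    have hu : ∀ p ∈ S ∪ T, p.Prime := fun p hp =>
      (mem_union.1 hp).elim (hpr S hS p) (hpr T hT p)
    have e : pv (S ∪ T) ∣ m ↔ pv S ∣ m ∧ pv T ∣ m := by
      rw [pv_dvd_iff hu, pv_dvd_iff (hpr S hS), pv_dvd_iff (hpr T hT)]
      exact ⟨fun h => ⟨fun p hp => h p (mem_union_left _ hp), fun p hp => h p (mem_union_right _ hp)⟩,
        fun h p hp => (mem_union.1 hp).elim (h.1 p) (h.2 p)⟩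
    by_cases a : pv S ∣ m <;> by_cases b : pv T ∣ m <;> simp [e, a, b]
  refine h1.trans ?_
  simp only [h2]
  rw [sum_comm, sq, sum_mul_sum, mul_sum, ← sum_add_distrib]
  refine sum_le_sum fun S hS => ?_
  rw [sum_comm, mul_sum, ← sum_add_distrib]
  refine sum_le_sum fun T hT => ?_
  have h3 := mult_count s n (pv (S ∪ T))
  rw [← mul_sum, sum_boole]
  set c : ℝ := (((Ioc s (s + n)).filter fun m => pv (S ∪ T) ∣ m).card : ℝ)
  have h4 : l S * l T * (c - n / pv (S ∪ T)) ≤ |l S| * |l T| := by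
    refine (le_abs_self _).trans ?_
    rw [abs_mul, abs_mul]
    exact mul_le_of_le_one_right (by positivity) h3
  have h5 : (n : ℝ) * (l S * l T / pv (S ∪ T)) = l S * l T * (n / pv (S ∪ T)) := by ring
  rw [h5]
  linarith [mul_sub (l S * l T) c (n / pv (S ∪ T))]

lemma card_le (P : Finset ℕ) (hP : ∀ p ∈ P, p.Prime) {Q : ℝ} (hQ : 0 ≤ Q) :
    ((P.powerset.filter fun U => (pv U : ℝ) ≤ Q).card : ℝ) ≤ Q := by
  have h : (P.powerset.filter fun U => (pv U : ℝ) ≤ Q).card ≤ (Ioc 0 ⌊Q⌋₊).card := by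
    refine card_le_card_of_injOn pv (fun U hU => ?_) fun U hU V hV h => ?_
    · have hU' := mem_filter.1 (mem_coe.1 hU)
      exact mem_coe.2 (mem_Ioc.2 ⟨pv_pos fun p hp => hP p (mem_powerset.1 hU'.1 hp),
        Nat.le_floor hU'.2⟩)
    · exact pv_inj (fun p hp => hP p (mem_powerset.1 (mem_filter.1 (mem_coe.1 hU)).1 hp))
        (fun p hp => hP p (mem_powerset.1 (mem_filter.1 (mem_coe.1 hV)).1 hp)) h
  rw [Nat.card_Ioc, Nat.sub_zero] at h
  exact (Nat.cast_le.2 h).trans (Nat.floor_le hQ)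

end Triv

theorem pTriv (hLam : S_Lam) (hG : S_G) : S_Triv := by
  intro u δ hu hδ
  obtain ⟨a, ha⟩ : ∃ a : ℝ, a = (2 + δ / 2)⁻¹ := ⟨_, rfl⟩
  have ha0 : 0 < a := by rw [ha]; positivity
  have ha1 : a * (2 + δ / 2) = 1 := by rw [ha]; exact inv_mul_cancel₀ (by positivity)
  have hη : 0 < 1 / 2 - a := by nlinarith [mul_pos ha0 hδ]
  obtain ⟨C, hC1, hC⟩ := Hyb.div_bound hη
  have hev := (isLittleO_log_rpow_atTop hη).bound (c := δ / (4 * C ^ 2)) (by positivity)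
  obtain ⟨L1, hL1⟩ := Filter.eventually_atTop.1 hev
  refine ⟨max (max L1 3) ((2 + δ / 2) * 4 / δ), fun L Y s hL hLY hY => ?_⟩
  have hL3 : 3 ≤ L := ((le_max_right _ _).trans (le_max_left _ _)).trans hL
  have hLa : (2 + δ / 2) * 4 / δ ≤ L := (le_max_right _ _).trans hL
  have hLb := hL1 L (((le_max_left _ _).trans (le_max_left _ _)).trans hL)
  have hL0 : 0 < L := by linarith
  have hlog : 0 < Real.log L := Real.log_pos (by linarith)
  rw [Real.norm_of_nonneg hlog.le, Real.norm_of_nonneg (by positivity)] at hLb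
  have hQ1 : 1 ≤ L ^ a := Real.one_le_rpow (by linarith) ha0.le
  have hQ2 : L ^ a ≤ L ^ (3 / 5 : ℝ) :=
    Real.rpow_le_rpow_of_exponent_le (by linarith) (by linarith)
  have hg := hG.1 u L (L ^ a) hu hQ1 hQ2
  set F := (PPs u L).powerset.filter fun U => (pv U : ℝ) ≤ L ^ a with hF
  have hsub : ∀ U ∈ F, U ⊆ PPs u L := fun U hU => mem_powerset.1 (mem_filter.1 hU).1
  have hpr : ∀ U ∈ F, ∀ p ∈ U, p.Prime := fun U hU p hp => PPs_prime p (hsub U hU hp)
  have h0 : ∅ ∈ F := mem_filter.2 ⟨empty_mem_powerset _, by simpa [pv] using hQ1⟩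
  obtain ⟨l, hl0, hl1, hl2⟩ := hLam F hpr h0 fun U hU S hS => mem_filter.2
    ⟨mem_powerset.2 (hS.trans (hsub U hU)), le_trans (Nat.cast_le.2
      (Nat.le_of_dvd (pv_pos (hpr U hU)) (prod_dvd_prod_of_subset _ _ _ hS))) (mem_filter.1 hU).2⟩
  have hs := Triv.sieve (PPs u L) PPs_prime F hsub h0 l hl0 s (⌊Y⌋₊ + 1)
  rw [hl2] at hs
  have hV := V0_pos u
  have hV1 := V0_le_one u
  rw [Real.log_rpow hL0] at hg
  have hgi : (∑ U ∈ F, gg U)⁻¹ ≤ (2 + δ / 2) * cs u L := by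
    refine (inv_anti₀ (by positivity) hg).trans (le_of_eq ?_)
    rw [cs, ha]
    field_simp
  have hsum : ∑ S ∈ F, |l S| ≤ L ^ a * (C * (L ^ a) ^ (1 / 2 - a)) := by
    refine (sum_le_card_nsmul F _ (C * (L ^ a) ^ (1 / 2 - a)) fun S hS => ?_).trans ?_
    · have h1 := Triv.two_pow_le (pv_pos (hpr S hS)).ne'
      rw [primeFactors_pv (hpr S hS)] at h1
      refine (hl1 S).trans (h1.trans ((hC _ (pv_pos (hpr S hS)).ne').trans ?_))
      exact mul_le_mul_of_nonneg_left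
        (Real.rpow_le_rpow (Nat.cast_nonneg _) (mem_filter.1 hS).2 hη.le) (by linarith)
    · rw [nsmul_eq_mul]
      exact mul_le_mul_of_nonneg_right (Triv.card_le _ PPs_prime (by positivity)) (by positivity)
  have hsq : (∑ S ∈ F, |l S|) ^ 2 * L ^ (1 / 2 - a) ≤ C ^ 2 * L := by
    have h1 : (∑ S ∈ F, |l S|) ^ 2 ≤ (L ^ a * (C * (L ^ a) ^ (1 / 2 - a))) ^ 2 :=
      pow_le_pow_left₀ (sum_nonneg fun _ _ => abs_nonneg _) hsum 2
    refine (mul_le_mul_of_nonneg_right h1 (by positivity)).trans ?_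
    have h2 : (L ^ a * (C * (L ^ a) ^ (1 / 2 - a))) ^ 2 * L ^ (1 / 2 - a) =
        C ^ 2 * L ^ (a + a + a * (1 / 2 - a) + a * (1 / 2 - a) + (1 / 2 - a)) := by
      rw [← Real.rpow_mul hL0.le, Real.rpow_add hL0, Real.rpow_add hL0, Real.rpow_add hL0,
        Real.rpow_add hL0]
      ring
    rw [h2]
    refine mul_le_mul_of_nonneg_left ?_ (by positivity)
    conv_rhs => rw [← Real.rpow_one L]
    exact Real.rpow_le_rpow_of_exponent_le (by linarith) (by nlinarith [sq_nonneg (1 / 2 - a)])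
  have hcs : 0 < cs u L := by rw [cs]; positivity
  have hcs1 : 1 ≤ Real.log L * cs u L := by
    rw [cs, mul_inv, mul_comm, mul_assoc, inv_mul_cancel₀ hlog.ne', mul_one]
    exact one_le_inv_iff₀.2 ⟨hV, hV1⟩
  have herr : (∑ S ∈ F, |l S|) ^ 2 ≤ δ / 4 * L * cs u L := by
    have h1 : (∑ S ∈ F, |l S|) ^ 2 * Real.log L ≤ δ / 4 * L := by
      refine (mul_le_mul_of_nonneg_left hLb (sq_nonneg _)).trans ?_
      have : (∑ S ∈ F, |l S|) ^ 2 * (δ / (4 * C ^ 2) * L ^ (1 / 2 - a)) =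
          δ / (4 * C ^ 2) * ((∑ S ∈ F, |l S|) ^ 2 * L ^ (1 / 2 - a)) := by ring
      rw [this]
      refine (mul_le_mul_of_nonneg_left hsq (by positivity)).trans (le_of_eq ?_)
      field_simp
    calc (∑ S ∈ F, |l S|) ^ 2 ≤ (∑ S ∈ F, |l S|) ^ 2 * (Real.log L * cs u L) :=
          le_mul_of_one_le_right (sq_nonneg _) hcs1
      _ = (∑ S ∈ F, |l S|) ^ 2 * Real.log L * cs u L := by ring
      _ ≤ δ / 4 * L * cs u L := mul_le_mul_of_nonneg_right h1 hcs.le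
  have hn : ((⌊Y⌋₊ + 1 : ℕ) : ℝ) ≤ Y + 1 := by
    push_cast
    linarith [Nat.floor_le (show 0 ≤ Y by linarith)]
  have hm : ((⌊Y⌋₊ + 1 : ℕ) : ℝ) * (∑ U ∈ F, gg U)⁻¹ ≤ (Y + 1) * ((2 + δ / 2) * cs u L) :=
    mul_le_mul hn hgi (inv_nonneg.2 (le_trans (by positivity) hg)) (by linarith)
  have hLc : 2 + δ / 2 ≤ δ / 4 * L := by
    rw [div_le_iff₀ hδ] at hLa
    linarith
  have hfin : (Y + 1) * (2 + δ / 2) + δ / 4 * L ≤ (2 + δ) * Y := by
    nlinarith [mul_le_mul_of_nonneg_left hLY hδ.le]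
  have e : cnt u L s Y = (cop (pv (PPs u L)) s (s + (⌊Y⌋₊ + 1)) : ℝ) := by
    rw [cnt, PP, add_assoc]
  rw [e]
  nlinarith [mul_le_mul_of_nonneg_right hfin hcs.le]

end Pool.Agent.P.MP_26a8c3_nt.EC
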